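import Pool.Agent.Q256.MP.Stm3

/-!
# Project MP: job EXI
-/

set_option autoImplicit false

open Height NumberField Filter Topology
open scoped LinearAlgebra.Projectivization

noncomputable section

namespace Pool.Agent.Q277.MPX

open Pool.Agent.W276.GE Pool.Agent.Q256.MP

/-- the linear form number `j` -/
def lf {n : ℕ} (A : Matrix (Fin n) (Fin n) ℤ) (j : Fin n) (x : Fin n → ℂ) : ℂ :=
  ∑ k, (A j k : ℂ) * x k

theorem mul_sum_sum {n : ℕ} (P Q : Matrix (Fin n) (Fin n) ℤ) (c : ℤ) (h : P * Q = c • 1)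
    (x : Fin n → ℂ) (j : Fin n) :
    ∑ k, (P j k : ℂ) * ∑ l, (Q k l : ℂ) * x l = (c : ℂ) * x j := by
  have h1 : ∀ l, ∑ k, (P j k : ℂ) * (Q k l : ℂ) = if j = l then (c : ℂ) else 0 := by
    intro l
    have h2 : (P * Q) j l = (c • (1 : Matrix (Fin n) (Fin n) ℤ)) j l := by rw [h]
    rw [Matrix.mul_apply, Matrix.smul_apply, Matrix.one_apply] at h2
    have h3 : ((∑ k, P j k * Q k l : ℤ) : ℂ) = ((c • (if j = l then (1 : ℤ) else 0) : ℤ) : ℂ) := by
      rw [h2]
    push_cast at h3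
    rw [h3]
    split_ifs <;> simp
  calc ∑ k, (P j k : ℂ) * ∑ l, (Q k l : ℂ) * x l
      = ∑ l, (∑ k, (P j k : ℂ) * (Q k l : ℂ)) * x l := by
        simp only [Finset.mul_sum, Finset.sum_mul]
        rw [Finset.sum_comm]
        exact Finset.sum_congr rfl fun _ _ => Finset.sum_congr rfl fun _ _ => by ring
    _ = (c : ℂ) * x j := by
        simp only [h1, ite_mul, zero_mul, Finset.sum_ite_eq, Finset.mem_univ, if_true]

theorem lf_smul {n : ℕ} (A : Matrix (Fin n) (Fin n) ℤ) (j : Fin n) (c : ℂ) (x : Fin n → ℂ) :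
    lf A j (c • x) = c * lf A j x := by
  unfold lf
  rw [Finset.mul_sum]
  exact Finset.sum_congr rfl fun k _ => by
    rw [Pi.smul_apply, smul_eq_mul]
    ring

theorem lf_conj {n : ℕ} (A : Matrix (Fin n) (Fin n) ℤ) (j : Fin n) (τ : ℂ ≃+* ℂ) (x : Fin n → ℂ) :
    lf A j (fun k => τ (x k)) = τ (lf A j x) := by
  unfold lf
  rw [map_sum]
  exact Finset.sum_congr rfl fun k _ => by rw [map_mul, map_intCast]

theorem sep_rep {N m : ℕ} (p : Fin m → Pt N) (hp : Function.Injective p) :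
    Sep fun i => (p i).rep := by
  refine ⟨fun i => (p i).rep_nonzero, fun i j hij c h => hij (hp ?_)⟩
  simp only at h
  rw [← (p i).mk_rep, ← (p j).mk_rep, Projectivization.mk_eq_mk_iff']
  exact ⟨c, h.symm⟩

theorem conj_eq {N : ℕ} (A : Matrix (Fin (N + 1)) (Fin (N + 1)) ℤ) (τ : ℂ ≃+* ℂ) (p q : Pt N)
    (h : conjP τ p = q) (j : Fin (N + 1)) :
    τ (lf A j p.rep / lf A 0 p.rep) = lf A j q.rep / lf A 0 q.rep := by
  unfold conjP at h
  rw [← q.mk_rep, Projectivization.mk_eq_mk_iff'] at h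
  obtain ⟨c, hc⟩ := h
  have hc0 : c ≠ 0 := by
    rintro rfl
    rw [zero_smul] at hc
    exact conj_ne τ p hc.symm
  rw [map_div₀, ← lf_conj, ← lf_conj, ← hc, lf_smul, lf_smul, mul_div_mul_left _ _ hc0]

open MvPolynomial in
/-- the linear form as a polynomial -/
def lp {n : ℕ} (A : Matrix (Fin n) (Fin n) ℤ) (j : Fin n) : MvPolynomial (Fin n) ℤ :=
  ∑ k, C (A j k) * X k

open MvPolynomial in
theorem lp_hom {n : ℕ} (A : Matrix (Fin n) (Fin n) ℤ) (j : Fin n) : (lp A j).IsHomogeneous 1 := by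
  refine IsHomogeneous.sum _ _ _ fun k _ => ?_
  have := (isHomogeneous_C (Fin n) (A j k)).mul (isHomogeneous_X ℤ k)
  rwa [zero_add] at this

open MvPolynomial in
theorem lp_aeval {n : ℕ} (A : Matrix (Fin n) (Fin n) ℤ) (j : Fin n) (x : Fin n → ℂ) :
    aeval x (lp A j) = lf A j x := by
  unfold lp lf
  rw [map_sum]
  exact Finset.sum_congr rfl fun k _ => by
    rw [map_mul, aeval_C, aeval_X]
    rfl

theorem exi (h1 : S_rint) (h2 : S_linf) : S_exi := by
  intro N d m hN hm hmd σ p hp hst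
  obtain ⟨A, hdet, hl0, hsep⟩ := h2 N m hN (fun i => (p i).rep) (sep_rep p hp)
  have hl0' : ∀ i, lf A 0 (p i).rep ≠ 0 := hl0
  set y : Fin m → Fin (N + 1) → ℂ := fun i j => lf A j (p i).rep / lf A 0 (p i).rep with hy
  have hy0 : ∀ i, y i 0 = 1 := fun i => div_self (hl0' i)
  have hinj : Function.Injective fun i => y i 1 := by
    intro i k hik
    by_contra hne
    apply hsep i k hne
    simp only [hy] at hik
    rw [div_eq_div_iff (hl0' i) (hl0' k)] at hik
    have h3 : lf A 0 (p i).rep * lf A 1 (p k).rep = lf A 0 (p k).rep * lf A 1 (p i).rep := by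
      rw [mul_comm, ← hik, mul_comm]
    exact h3
  have hconj : ∀ τ : ℂ ≃+* ℂ, ∃ π : Fin m → Fin m, ∀ i, ∀ j, τ (y i j) = y (π i) j ∧
      τ (y (σ i) j) = y (σ (π i)) j := by
    intro τ
    have h3 : ∀ i, ∃ k, conjP τ (p i) = p k ∧ conjP τ (p (σ i)) = p (σ k) := by
      intro i
      obtain ⟨k, hk⟩ := hst τ (p i, p (σ i)) ⟨i, rfl⟩
      exact ⟨k, (congrArg Prod.fst hk).symm, (congrArg Prod.snd hk).symm⟩
    choose π hπ using h3
    exact ⟨π, fun i j => ⟨conj_eq A τ _ _ (hπ i).1 j, conj_eq A τ _ _ (hπ i).2 j⟩⟩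
  have hT : ∀ j, ∃ T : Polynomial ℚ, T.degree < m ∧
      (∀ i, Polynomial.aeval (y i 1) T = y (σ i) j - y i j ^ d) ∧ (j = 0 → T = 0) := by
    intro j
    by_cases hj : j = 0
    · subst hj
      refine ⟨0, ?_, fun i => ?_, fun _ => rfl⟩
      · rw [Polynomial.degree_zero]
        exact WithBot.bot_lt_coe m
      · rw [map_zero, hy0, hy0, one_pow, sub_self]
    · obtain ⟨T, hT1, hT2⟩ := h1 m (fun i => y i 1) (fun i => y (σ i) j - y i j ^ d) hinj (fun τ => by
        obtain ⟨π, hπ⟩ := hconj τ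
        refine ⟨π, fun i => ⟨(hπ i 1).1, ?_⟩⟩
        rw [map_sub, map_pow, (hπ i j).2, (hπ i j).1])
      exact ⟨T, hT1, hT2, fun h => absurd h hj⟩
  choose T hT1 hT2 hT3 using hT
  obtain ⟨b, hb⟩ := IsLocalization.exist_integer_multiples_of_finite (nonZeroDivisors ℤ)
    (fun q : Fin (N + 1) × Fin m => (T q.1).coeff q.2)
  have hb' : ∀ (j : Fin (N + 1)) (k : Fin m), ∃ s : ℤ, (s : ℂ) = ((b : ℤ) : ℂ) * ((T j).coeff k : ℂ) := by
    intro j k
    obtain ⟨s, hs⟩ := hb (j, k)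
    refine ⟨s, ?_⟩
    have h3 : (s : ℚ) = ((b : ℤ) : ℚ) * (T j).coeff k := by
      have h4 : algebraMap ℤ ℚ s = (b : ℤ) • (T j).coeff k := hs
      rw [zsmul_eq_mul] at h4
      exact h4
    have h5 : ((s : ℚ) : ℂ) = ((((b : ℤ) : ℚ) * (T j).coeff k : ℚ) : ℂ) := by rw [h3]
    push_cast at h5
    exact h5
  choose s hs using hb'
  have hb0 : ((b : ℤ) : ℂ) ≠ 0 := by
    have := nonZeroDivisors.ne_zero b.2
    exact_mod_cast this
  have hsum : ∀ j i, ∑ k : Fin m, ((T j).coeff k : ℂ) * (y i 1) ^ (k : ℕ) = y (σ i) j - y i j ^ d := by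
    intro j i
    rw [← hT2 j i]
    have hnd : (T j).natDegree < m := by
      by_cases h0 : T j = 0
      · rw [h0, Polynomial.natDegree_zero]
        omega
      · exact (Polynomial.natDegree_lt_iff_degree_lt h0).2 (hT1 j)
    rw [Polynomial.aeval_eq_sum_range' hnd, Finset.sum_range]
    exact Finset.sum_congr rfl fun k _ => by rw [Algebra.smul_def]; rfl
  -- the forms
  set Γ : Fin (N + 1) → MvPolynomial (Fin (N + 1)) ℤ := fun j =>
    MvPolynomial.C (b : ℤ) * lp A j ^ d +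
      ∑ k : Fin m, MvPolynomial.C (s j k) * (lp A 0 ^ (d - (k : ℕ)) * lp A 1 ^ (k : ℕ)) with hΓ
  have hΓh : ∀ j, (Γ j).IsHomogeneous d := by
    intro j
    rw [hΓ]
    refine MvPolynomial.IsHomogeneous.add ?_ (MvPolynomial.IsHomogeneous.sum _ _ _ fun k _ => ?_)
    · have h3 := (MvPolynomial.isHomogeneous_C (Fin (N + 1)) (b : ℤ)).mul ((lp_hom A j).pow d)
      rwa [zero_add, one_mul] at h3
    · have h3 := (MvPolynomial.isHomogeneous_C (Fin (N + 1)) (s j k)).mul
        (((lp_hom A 0).pow (d - (k : ℕ))).mul ((lp_hom A 1).pow (k : ℕ)))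
      have h4 : 0 + (1 * (d - (k : ℕ)) + 1 * (k : ℕ)) = d := by
        have := k.2
        omega
      rwa [h4] at h3
  have hΓe : ∀ j x, MvPolynomial.aeval x (Γ j) = ((b : ℤ) : ℂ) * lf A j x ^ d +
      ∑ k : Fin m, (s j k : ℂ) * (lf A 0 x ^ (d - (k : ℕ)) * lf A 1 x ^ (k : ℕ)) := by
    intro j x
    rw [hΓ]
    simp only [map_add, map_sum, map_mul, map_pow, lp_aeval, MvPolynomial.aeval_C]
    rfl
  set Φ : Fin (N + 1) → MvPolynomial (Fin (N + 1)) ℤ := fun i =>
    ∑ j, MvPolynomial.C (A.adjugate i j) * Γ j with hΦ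
  have hΦh : ∀ i, (Φ i).IsHomogeneous d := by
    intro i
    refine MvPolynomial.IsHomogeneous.sum _ _ _ fun j _ => ?_
    have h3 := (MvPolynomial.isHomogeneous_C (Fin (N + 1)) (A.adjugate i j)).mul (hΓh j)
    rwa [zero_add] at h3
  have hΦe : ∀ i (x : Fin (N + 1) → ℂ), ev (cf d (Φ i)) x =
      ∑ j, (A.adjugate i j : ℂ) * MvPolynomial.aeval x (Γ j) := by
    intro i x
    rw [← aeval_eq_ev (hΦh i), hΦ, map_sum]
    exact Finset.sum_congr rfl fun j _ => by
      rw [map_mul, MvPolynomial.aeval_C]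
      rfl
  have hdC : ((A.det : ℤ) : ℂ) ≠ 0 := by exact_mod_cast hdet
  refine ⟨fun i => cf d (Φ i), fun x hx => ?_, fun i => ?_⟩
  · -- no common zeros
    have h3 : ∀ j, MvPolynomial.aeval x (Γ j) = 0 := by
      intro j
      have h4 := mul_sum_sum A A.adjugate A.det (Matrix.mul_adjugate A)
        (fun l => MvPolynomial.aeval x (Γ l)) j
      have h5 : ∀ k, ∑ l, (A.adjugate k l : ℂ) * MvPolynomial.aeval x (Γ l) = 0 := fun k => by
        rw [← hΦe]
        exact hx k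
      simp only [h5, mul_zero, Finset.sum_const_zero] at h4
      exact (mul_eq_zero.1 h4.symm).resolve_left hdC
    have h6 : lf A 0 x = 0 := by
      have h7 := h3 0
      rw [hΓe] at h7
      have h8 : ∀ k : Fin m, (s 0 k : ℂ) = 0 := fun k => by
        rw [hs, hT3 0 rfl]
        simp
      simp only [h8, zero_mul, Finset.sum_const_zero, add_zero] at h7
      exact pow_eq_zero_iff (by omega) |>.1 ((mul_eq_zero.1 h7).resolve_left hb0)
    have h9 : ∀ j, lf A j x = 0 := by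
      intro j
      have h7 := h3 j
      rw [hΓe] at h7
      have h8 : ∀ k : Fin m, lf A 0 x ^ (d - (k : ℕ)) = 0 := fun k => by
        rw [h6]
        exact zero_pow (by have := k.2; omega)
      simp only [h8, zero_mul, mul_zero, Finset.sum_const_zero, add_zero] at h7
      exact pow_eq_zero_iff (by omega) |>.1 ((mul_eq_zero.1 h7).resolve_left hb0)
    funext j
    have h10 := mul_sum_sum A.adjugate A A.det (Matrix.adjugate_mul A) x j
    have h11 : ∀ k, ∑ l, (A k l : ℂ) * x l = 0 := h9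
    simp only [h11, mul_zero, Finset.sum_const_zero] at h10
    exact (mul_eq_zero.1 h10.symm).resolve_left hdC
  · -- the images
    set L := lf A 0 (p i).rep with hL
    set L' := lf A 0 (p (σ i)).rep with hL'
    have hL0 : L ≠ 0 := hl0' i
    have hL'0 : L' ≠ 0 := hl0' (σ i)
    refine ⟨((b : ℤ) : ℂ) * L ^ d / L' * ((A.det : ℤ) : ℂ), fun j => ?_⟩
    rw [hΦe]
    have h3 : ∀ k, MvPolynomial.aeval (p i).rep (Γ k) =
        ((b : ℤ) : ℂ) * L ^ d / L' * lf A k (p (σ i)).rep := by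
      intro k
      rw [hΓe]
      have e1 : ∀ k, lf A k (p i).rep = L * y i k := fun k => by
        show lf A k (p i).rep = L * (lf A k (p i).rep / L)
        field_simp
      have e2 : lf A k (p (σ i)).rep = L' * y (σ i) k := by
        show lf A k (p (σ i)).rep = L' * (lf A k (p (σ i)).rep / L')
        field_simp
      have e3 : ∀ q : Fin m, (s k q : ℂ) * (lf A 0 (p i).rep ^ (d - (q : ℕ)) *
          lf A 1 (p i).rep ^ (q : ℕ)) = ((b : ℤ) : ℂ) * L ^ d *
          (((T k).coeff q : ℂ) * (y i 1) ^ (q : ℕ)) := by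
        intro q
        rw [hs, e1 1, mul_pow]
        have e4 : L ^ d = L ^ (d - (q : ℕ)) * L ^ (q : ℕ) := by
          rw [← pow_add]
          congr 1
          have := q.2
          omega
        rw [e4]
        ring
      rw [Finset.sum_congr rfl fun q _ => e3 q, ← Finset.mul_sum, hsum, e1 k, e2, mul_pow]
      field_simp
      ring
    rw [Finset.sum_congr rfl fun k _ => by rw [h3 k]]
    have h4 := mul_sum_sum A.adjugate A A.det (Matrix.adjugate_mul A) (p (σ i)).rep j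
    calc ∑ k, (A.adjugate j k : ℂ) * (((b : ℤ) : ℂ) * L ^ d / L' * lf A k (p (σ i)).rep)
        = ((b : ℤ) : ℂ) * L ^ d / L' * ∑ k, (A.adjugate j k : ℂ) * lf A k (p (σ i)).rep := by
          rw [Finset.mul_sum]
          exact Finset.sum_congr rfl fun k _ => by ring
      _ = ((b : ℤ) : ℂ) * L ^ d / L' * (((A.det : ℤ) : ℂ) * (p (σ i)).rep j) := by
          rw [← h4]
          rfl
      _ = _ := by ring

end Pool.Agent.Q277.MPX
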