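import Mathlib
import Pool.Agent.Q256.UG.Stm

set_option autoImplicit false

/-! Job CL4 of project UG of helper256: vectors of coefficients with a nearly degenerate point at
which the second derivative is large. -/

namespace Pool.Agent.Q277.UG_CL4

open Finset
open Pool.Agent.Q256.UG

/-- the polynomial of the coefficients of degree at least two -/
noncomputable def hp {n : ℕ} (r : Fin (n + 1) → ℤ) : Polynomial ℝ :=
  ∑ i : Fin (n + 1), Polynomial.C (r i : ℝ) * Polynomial.X ^ ((i : ℕ) + 2)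

lemma hp0 {n : ℕ} (r : Fin (n + 1) → ℤ) (z : ℝ) :
    (hp r).eval z = ∑ i : Fin (n + 1), (r i : ℝ) * z ^ ((i : ℕ) + 2) := by
  simp [hp, Polynomial.eval_finsetSum]

lemma hp1 {n : ℕ} (r : Fin (n + 1) → ℤ) (z : ℝ) :
    (hp r).derivative.eval z = ∑ i : Fin (n + 1), (r i : ℝ) * ((i : ℝ) + 2) * z ^ ((i : ℕ) + 1) := by
  simp only [hp, Polynomial.derivative_sum, Polynomial.eval_finsetSum]
  refine Finset.sum_congr rfl fun i _ => ?_
  simp only [Polynomial.derivative_C_mul_X_pow, Polynomial.eval_mul, Polynomial.eval_C,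
    Polynomial.eval_pow, Polynomial.eval_X, Nat.add_succ_sub_one]
  push_cast
  ring

lemma hp2 {n : ℕ} (r : Fin (n + 1) → ℤ) (z : ℝ) :
    (hp r).derivative.derivative.eval z =
      ∑ i : Fin (n + 1), (r i : ℝ) * (((i : ℝ) + 2) * ((i : ℝ) + 1)) * z ^ (i : ℕ) := by
  simp only [hp, Polynomial.derivative_sum, Polynomial.eval_finsetSum]
  refine Finset.sum_congr rfl fun i _ => ?_
  simp only [Polynomial.derivative_C_mul_X_pow, Polynomial.eval_mul, Polynomial.eval_C,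
    Polynomial.eval_pow, Polynomial.eval_X, Nat.add_succ_sub_one, Nat.add_sub_cancel]
  push_cast
  ring

lemma hp3 {n : ℕ} (r : Fin (n + 1) → ℤ) (z : ℝ) :
    (hp r).derivative.derivative.derivative.eval z =
      ∑ i : Fin (n + 1), (r i : ℝ) * (((i : ℝ) + 2) * ((i : ℝ) + 1) * (i : ℝ)) * z ^ ((i : ℕ) - 1) := by
  simp only [hp, Polynomial.derivative_sum, Polynomial.eval_finsetSum]
  refine Finset.sum_congr rfl fun i _ => ?_
  simp only [Polynomial.derivative_C_mul_X_pow, Polynomial.eval_mul, Polynomial.eval_C,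
    Polynomial.eval_pow, Polynomial.eval_X, Nat.add_succ_sub_one, Nat.add_sub_cancel]
  push_cast
  ring

/-- the rest of the vector -/
def rest {n : ℕ} (c : Fin (n + 2 + 1) → ℤ) : Fin (n + 1) → ℤ := fun i => c i.succ.succ

lemma pv0 {n : ℕ} (c : Fin (n + 2 + 1) → ℤ) (z : ℝ) :
    pv (n + 2) c 0 z = (c 0 : ℝ) + (c 1 : ℝ) * z + (hp (rest c)).eval z := by
  rw [hp0, pv, Fin.sum_univ_succ, Fin.sum_univ_succ]
  simp only [rest, Fin.val_zero, Nat.choose_zero_right, Nat.cast_one, mul_one, Nat.sub_zero, pow_zero,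
    Fin.val_succ, zero_add, pow_one]
  rw [show (Fin.succ (0 : Fin (n + 2)) : Fin (n + 2 + 1)) = 1 from rfl]
  ring

lemma pv1 {n : ℕ} (c : Fin (n + 2 + 1) → ℤ) (z : ℝ) :
    pv (n + 2) c 1 z = (c 1 : ℝ) + (hp (rest c)).derivative.eval z := by
  rw [hp1, pv, Fin.sum_univ_succ, Fin.sum_univ_succ]
  simp only [rest, Fin.val_zero, Fin.val_succ, zero_add, Nat.choose_one_right,
    Nat.cast_zero, mul_zero, zero_mul, Nat.cast_one, mul_one, Nat.sub_self, pow_zero]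
  rw [show (Fin.succ (0 : Fin (n + 2)) : Fin (n + 2 + 1)) = 1 from rfl]
  refine congrArg (fun t : ℝ => (c 1 : ℝ) + t) ?_
  refine Finset.sum_congr rfl fun i _ => ?_
  rw [show (i : ℕ) + 1 + 1 - 1 = (i : ℕ) + 1 from rfl]
  push_cast
  ring

lemma pv2 {n : ℕ} (c : Fin (n + 2 + 1) → ℤ) (z : ℝ) :
    2 * pv (n + 2) c 2 z = (hp (rest c)).derivative.derivative.eval z := by
  rw [hp2, pv, Fin.sum_univ_succ, Fin.sum_univ_succ]
  have h0 : (0 : ℕ).choose 2 = 0 := rfl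
  have h1 : (0 + 1 : ℕ).choose 2 = 0 := rfl
  simp only [rest, Fin.val_zero, Fin.val_succ, h0, h1, Nat.cast_zero, mul_zero, zero_mul, zero_add]
  rw [Finset.mul_sum]
  refine Finset.sum_congr rfl fun i _ => ?_
  rw [Nat.cast_choose_two, show (i : ℕ) + 1 + 1 - 2 = (i : ℕ) from rfl]
  push_cast
  ring

/-- the constant -/
noncomputable def Bn (n : ℕ) : ℝ :=
  1 + (∑ i : Fin (n + 1), (((i : ℝ) + 2) * ((i : ℝ) + 1)) * 4 ^ (i : ℕ)) +
    ∑ i : Fin (n + 1), (((i : ℝ) + 2) * ((i : ℝ) + 1) * (i : ℝ)) * 4 ^ ((i : ℕ) - 1)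

lemma sum_le {n : ℕ} (r : Fin (n + 1) → ℤ) (H : ℕ) (hr : ∀ i, |r i| ≤ H) (z : ℝ) (hz : |z| ≤ 4)
    (w : Fin (n + 1) → ℝ) (hw : ∀ i, 0 ≤ w i) (e : Fin (n + 1) → ℕ) :
    |∑ i : Fin (n + 1), (r i : ℝ) * w i * z ^ (e i)| ≤ (∑ i : Fin (n + 1), w i * 4 ^ (e i)) * H := by
  rw [Finset.sum_mul]
  refine (Finset.abs_sum_le_sum_abs _ _).trans (Finset.sum_le_sum fun i _ => ?_)
  have h1 : |(r i : ℝ)| ≤ H := by exact_mod_cast hr i
  rw [abs_mul, abs_mul, abs_pow, abs_of_nonneg (hw i)]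
  have h2 : |z| ^ (e i) ≤ 4 ^ (e i) := pow_le_pow_left₀ (abs_nonneg z) hz _
  calc |(r i : ℝ)| * w i * |z| ^ (e i) ≤ H * w i * 4 ^ (e i) := by
        have := hw i
        gcongr
    _ = w i * 4 ^ (e i) * H := by ring

lemma hbound {n : ℕ} (r : Fin (n + 1) → ℤ) (H : ℕ) (hr : ∀ i, |r i| ≤ H) (z : ℝ) (hz : |z| ≤ 4) :
    |(hp r).derivative.derivative.eval z| ≤ Bn n * H ∧
      |(hp r).derivative.derivative.derivative.eval z| ≤ Bn n * H := by
  have hH : (0 : ℝ) ≤ H := Nat.cast_nonneg H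
  have hp2' : 0 ≤ ∑ i : Fin (n + 1), (((i : ℝ) + 2) * ((i : ℝ) + 1)) * (4 : ℝ) ^ (i : ℕ) :=
    Finset.sum_nonneg fun i _ => by positivity
  have hp3' : 0 ≤ ∑ i : Fin (n + 1), (((i : ℝ) + 2) * ((i : ℝ) + 1) * (i : ℝ)) * (4 : ℝ) ^ ((i : ℕ) - 1) :=
    Finset.sum_nonneg fun i _ => by positivity
  constructor
  · rw [hp2]
    refine (sum_le r H hr z hz (fun i => ((i : ℝ) + 2) * ((i : ℝ) + 1)) (fun i => by positivity)
      (fun i => (i : ℕ))).trans ?_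
    refine mul_le_mul_of_nonneg_right ?_ hH
    rw [Bn]
    linarith
  · rw [hp3]
    refine (sum_le r H hr z hz (fun i => ((i : ℝ) + 2) * ((i : ℝ) + 1) * (i : ℝ))
      (fun i => by positivity) (fun i => (i : ℕ) - 1)).trans ?_
    refine mul_le_mul_of_nonneg_right ?_ hH
    rw [Bn]
    linarith

lemma Bn_one (n : ℕ) : 1 ≤ Bn n := by
  have hp2' : 0 ≤ ∑ i : Fin (n + 1), (((i : ℝ) + 2) * ((i : ℝ) + 1)) * (4 : ℝ) ^ (i : ℕ) :=
    Finset.sum_nonneg fun i _ => by positivity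
  have hp3' : 0 ≤ ∑ i : Fin (n + 1), (((i : ℝ) + 2) * ((i : ℝ) + 1) * (i : ℝ)) * (4 : ℝ) ^ ((i : ℕ) - 1) :=
    Finset.sum_nonneg fun i _ => by positivity
  rw [Bn]
  linarith

/-- the pairs of the job CL3 -/
def PS (H α : ℝ) (h : Polynomial ℝ) (η : ℝ) : Set (ℤ × ℤ) :=
  {p : ℤ × ℤ | ∃ z : ℝ, α ≤ z ∧ z ≤ α + η ∧
      |(p.1 : ℝ) + p.2 * z + h.eval z| * H ^ 2 ≤ 1 ∧ |(p.2 : ℝ) + h.derivative.eval z| ≤ 1 / 8 ∧
      2 * H ^ ((2 : ℝ) / 3) ≤ |h.derivative.derivative.eval z|}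

lemma cover (H : ℝ) (h : Polynomial ℝ) (η : ℝ) (hη : 0 < η) (M : ℝ) (hM : 0 ≤ M)
    (hfin : ∀ α : ℝ, |α| ≤ 2 → (PS H α h η).Finite ∧ ((PS H α h η).ncard : ℝ) ≤ M) :
    (PS H (-2) h 4).Finite ∧ ((PS H (-2) h 4).ncard : ℝ) ≤ (4 / η + 1) * M := by
  set K : ℕ := ⌊4 / η⌋₊ with hK
  have hK' : (K : ℝ) ≤ 4 / η := Nat.floor_le (by positivity)
  have hα : ∀ k ∈ Finset.range (K + 1), |(-2 : ℝ) + k * η| ≤ 2 := by
    intro k hk
    have hk1 : (k : ℝ) ≤ K := by exact_mod_cast Nat.lt_succ_iff.mp (Finset.mem_range.mp hk)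
    have hk2 : (k : ℝ) * η ≤ 4 := by
      have := mul_le_mul_of_nonneg_right (hk1.trans hK') hη.le
      rwa [div_mul_cancel₀ _ hη.ne'] at this
    have hk3 : 0 ≤ (k : ℝ) * η := by positivity
    rw [abs_le]
    constructor <;> linarith
  have hsub : PS H (-2) h 4 ⊆ ⋃ k ∈ Finset.range (K + 1), PS H ((-2 : ℝ) + k * η) h η := by
    rintro p ⟨z, hz1, hz2, hz⟩
    have h0 : 0 ≤ (z + 2) / η := div_nonneg (by linarith) hη.le
    have hkl : ((⌊(z + 2) / η⌋₊ : ℕ) : ℝ) ≤ (z + 2) / η := Nat.floor_le h0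
    have hku : (z + 2) / η < (⌊(z + 2) / η⌋₊ : ℕ) + 1 := Nat.lt_floor_add_one _
    rw [le_div_iff₀ hη] at hkl
    rw [div_lt_iff₀ hη] at hku
    simp only [Set.mem_iUnion]
    refine ⟨⌊(z + 2) / η⌋₊, ?_, z, by linarith, by linarith, hz⟩
    rw [Finset.mem_range, Nat.lt_succ_iff, hK]
    refine Nat.floor_le_floor ?_
    gcongr
    linarith
  have hfU : (⋃ k ∈ Finset.range (K + 1), PS H ((-2 : ℝ) + k * η) h η).Finite := by
    refine Set.Finite.biUnion (Finset.finite_toSet _) ?_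
    intro k hk
    exact (hfin _ (hα k hk)).1
  refine ⟨hfU.subset hsub, ?_⟩
  have h1 : (PS H (-2) h 4).ncard ≤ ∑ k ∈ Finset.range (K + 1), (PS H ((-2 : ℝ) + k * η) h η).ncard :=
    (Set.ncard_le_ncard hsub hfU).trans (Finset.set_ncard_biUnion_le _ _)
  calc ((PS H (-2) h 4).ncard : ℝ)
      ≤ ((∑ k ∈ Finset.range (K + 1), (PS H ((-2 : ℝ) + k * η) h η).ncard : ℕ) : ℝ) := by
        exact_mod_cast h1
    _ = ∑ k ∈ Finset.range (K + 1), ((PS H ((-2 : ℝ) + k * η) h η).ncard : ℝ) := by push_cast; rfl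
    _ ≤ ∑ _k ∈ Finset.range (K + 1), M := Finset.sum_le_sum fun k hk => (hfin _ (hα k hk)).2
    _ = (K + 1) * M := by simp
    _ ≤ (4 / η + 1) * M := by gcongr

/-- the box of the vectors, as a finite set -/
noncomputable def VF (d H : ℕ) : Finset (Fin (d + 1) → ℤ) := Fintype.piFinset fun _ => Finset.Icc (-(H : ℤ)) H

lemma mem_VF (d H : ℕ) (c : Fin (d + 1) → ℤ) : c ∈ VF d H ↔ c ∈ Vc d H := by
  simp [VF, Vc, abs_le]

lemma card_VF (d H : ℕ) : #(VF d H) = (2 * H + 1) ^ (d + 1) := by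
  rw [VF, Fintype.card_piFinset_const, Int.card_Icc]
  refine congrArg (fun t : ℕ => t ^ (d + 1)) ?_
  omega

theorem cl4 : S_CL3 → S_CL4 := by
  intro h3 d hd
  obtain ⟨n, rfl⟩ : ∃ n, d = n + 2 := ⟨d - 2, by omega⟩
  obtain ⟨C, H0, hC, hH0, hCL⟩ := h3 (Bn n) (Bn_one n)
  have hC0 : 0 < C := by linarith
  set D : ℝ := 5 * C ^ 2 * 3 ^ (n + 1) + (2 * H0 + 1) ^ (n + 3) with hD
  have hD2 : 0 ≤ (2 * H0 + 1) ^ (n + 3) := by positivity
  have hD1 : 1 ≤ 5 * C ^ 2 * 3 ^ (n + 1) := by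
    have e1 : (1 : ℝ) ≤ C ^ 2 := one_le_pow₀ hC
    have e2 : (1 : ℝ) ≤ 3 ^ (n + 1) := one_le_pow₀ (by norm_num)
    nlinarith
  refine ⟨D, by rw [hD]; linarith, fun H hH => ?_⟩
  have hHr : (1 : ℝ) ≤ H := by exact_mod_cast hH
  have hHpos : (0 : ℝ) < H := by linarith
  classical
  set T : Finset (Fin (n + 2 + 1) → ℤ) := (VF (n + 2) H).filter fun c =>
    ∃ z : ℝ, |z| ≤ 2 ∧ |pv (n + 2) c 0 z| * (H : ℝ) ^ 2 ≤ 1 ∧
      |pv (n + 2) c 1 z| ≤ 1 / 8 ∧ (H : ℝ) ^ ((2 : ℝ) / 3) ≤ |pv (n + 2) c 2 z| with hT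
  have hcard : Nat.card {c | c ∈ Vc (n + 2) H ∧ ∃ z : ℝ, |z| ≤ 2 ∧ |pv (n + 2) c 0 z| * (H : ℝ) ^ 2 ≤ 1 ∧
      |pv (n + 2) c 1 z| ≤ 1 / 8 ∧ (H : ℝ) ^ ((2 : ℝ) / 3) ≤ |pv (n + 2) c 2 z|} = #T := by
    rw [Nat.card_coe_set_eq, ← Set.ncard_coe_finset]
    refine congrArg Set.ncard ?_
    ext c
    rw [hT, Finset.coe_filter, Set.mem_ofPred_eq, Set.mem_ofPred_eq, mem_VF]
  rw [hcard]
  have hpow1 : (1 : ℝ) ≤ (H : ℝ) ^ (((n + 2 : ℕ) : ℝ) - 1 / 3) := by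
    apply Real.one_le_rpow hHr
    push_cast
    have : (0 : ℝ) ≤ n := Nat.cast_nonneg n
    linarith
  rcases lt_or_ge (H : ℝ) H0 with hlt | hge
  · -- few vectors
    have h1 : #T ≤ (2 * H + 1) ^ (n + 3) := by
      rw [hT]
      exact (Finset.card_filter_le _ _).trans (card_VF (n + 2) H).le
    have h2 : (#T : ℝ) ≤ (2 * (H : ℝ) + 1) ^ (n + 3) := by exact_mod_cast h1
    have h3' : (2 * (H : ℝ) + 1) ^ (n + 3) ≤ (2 * H0 + 1) ^ (n + 3) := by gcongr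
    calc (#T : ℝ) ≤ (2 * H0 + 1) ^ (n + 3) := h2.trans h3'
      _ ≤ D := by rw [hD]; linarith
      _ ≤ D * (H : ℝ) ^ (((n + 2 : ℕ) : ℝ) - 1 / 3) := by
        refine le_mul_of_one_le_right ?_ hpow1
        rw [hD]; linarith
  · -- fibres over the rest
    set η : ℝ := 1 / (C * (H : ℝ) ^ ((1 : ℝ) / 3)) with hη
    have hH13 : (1 : ℝ) ≤ (H : ℝ) ^ ((1 : ℝ) / 3) := Real.one_le_rpow hHr (by norm_num)
    have hη0 : 0 < η := by positivity
    set M : ℝ := 5 * C ^ 2 * (H : ℝ) ^ ((2 : ℝ) / 3) with hM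
    have hM0 : 0 ≤ M := by positivity
    have hmain : ∀ r : Fin (n + 1) → ℤ, (∀ i, |r i| ≤ H) →
        (PS H (-2) (hp r) 4).Finite ∧ ((PS H (-2) (hp r) 4).ncard : ℝ) ≤ M := by
      intro r hr
      have h := cover (H : ℝ) (hp r) η hη0 (C * (H : ℝ) ^ ((1 : ℝ) / 3)) (by positivity)
        (fun α hα => hCL H α (hp r) hge hα (fun z hz => hbound r H hr z hz))
      refine ⟨h.1, h.2.trans ?_⟩
      have e1 : 4 / η = 4 * (C * (H : ℝ) ^ ((1 : ℝ) / 3)) := by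
        rw [hη]; field_simp
      have e2 : (1 : ℝ) ≤ C * (H : ℝ) ^ ((1 : ℝ) / 3) := by nlinarith
      have e3 : (H : ℝ) ^ ((2 : ℝ) / 3) = (H : ℝ) ^ ((1 : ℝ) / 3) * (H : ℝ) ^ ((1 : ℝ) / 3) := by
        rw [← Real.rpow_add hHpos]; norm_num
      rw [e1, hM, e3]
      nlinarith
    have hfib : ∀ r ∈ VF n H, (#(T.filter fun c => rest c = r) : ℝ) ≤ M := by
      intro r hr
      have hr' : ∀ i, |r i| ≤ H := (mem_VF n H r).1 hr
      obtain ⟨hfin, hle⟩ := hmain r hr'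
      refine le_trans ?_ hle
      have : #(T.filter fun c => rest c = r) ≤ (PS H (-2) (hp r) 4).ncard := by
        rw [← Set.ncard_coe_finset]
        refine Set.ncard_le_ncard_of_injOn (fun c => (c 0, c 1)) ?_ ?_ hfin
        · intro c hc
          rw [Finset.mem_coe, Finset.mem_filter, hT, Finset.mem_filter] at hc
          obtain ⟨⟨-, z, hz, h0, h1, h2⟩, hrc⟩ := hc
          rw [pv0, hrc] at h0
          rw [pv1, hrc] at h1
          rw [abs_le] at hz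
          refine ⟨z, by linarith [hz.1], by linarith [hz.2], h0, h1, ?_⟩
          rw [← hrc, ← pv2, abs_mul, abs_two]
          linarith
        · intro c hc c' hc' he
          rw [Finset.mem_coe, Finset.mem_filter] at hc hc'
          simp only [Prod.mk.injEq] at he
          have hr2 : rest c = rest c' := hc.2.trans hc'.2.symm
          funext i
          refine Fin.cases he.1 (fun j => ?_) i
          refine Fin.cases he.2 (fun k => ?_) j
          exact congrFun hr2 k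
      exact_mod_cast this
    have hmaps : ∀ c ∈ T, rest c ∈ VF n H := by
      intro c hc
      rw [hT, Finset.mem_filter, mem_VF] at hc
      rw [mem_VF]
      exact fun i => hc.1 _
    have hsum : #T = ∑ r ∈ VF n H, #(T.filter fun c => rest c = r) :=
      Finset.card_eq_sum_card_fiberwise hmaps
    have h1 : (#T : ℝ) ≤ (2 * (H : ℝ) + 1) ^ (n + 1) * M := by
      rw [hsum]
      push_cast
      calc ∑ r ∈ VF n H, (#(T.filter fun c => rest c = r) : ℝ) ≤ ∑ _r ∈ VF n H, M :=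
            Finset.sum_le_sum hfib
        _ = (2 * (H : ℝ) + 1) ^ (n + 1) * M := by
            rw [Finset.sum_const, card_VF, nsmul_eq_mul]
            push_cast
            ring
    have h2 : (2 * (H : ℝ) + 1) ^ (n + 1) ≤ 3 ^ (n + 1) * (H : ℝ) ^ (n + 1) := by
      rw [← mul_pow]
      refine pow_le_pow_left₀ (by positivity) (by linarith) _
    have h4 : (H : ℝ) ^ (((n + 2 : ℕ) : ℝ) - 1 / 3) = (H : ℝ) ^ (n + 1) * (H : ℝ) ^ ((2 : ℝ) / 3) := by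
      rw [← Real.rpow_natCast, ← Real.rpow_add hHpos]
      congr 1
      push_cast
      ring
    rw [h4]
    calc (#T : ℝ) ≤ 3 ^ (n + 1) * (H : ℝ) ^ (n + 1) * M := h1.trans (by gcongr)
      _ = 5 * C ^ 2 * 3 ^ (n + 1) * ((H : ℝ) ^ (n + 1) * (H : ℝ) ^ ((2 : ℝ) / 3)) := by
        rw [hM]; ring
      _ ≤ D * ((H : ℝ) ^ (n + 1) * (H : ℝ) ^ ((2 : ℝ) / 3)) := by
        have : 0 ≤ (H : ℝ) ^ (n + 1) * (H : ℝ) ^ ((2 : ℝ) / 3) := by positivity
        refine mul_le_mul_of_nonneg_right ?_ this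
        rw [hD]; linarith

end Pool.Agent.Q277.UG_CL4
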