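import Mathlib

/-!
# Congruences between rational numbers modulo powers of a prime
-/

open Finset

namespace Q277.PInt

variable (p : ℕ)

/-- `x` is `p`-integral -/
def PI (x : ℚ) : Prop := ∃ D N : ℤ, ¬ (p : ℤ) ∣ D ∧ (D : ℚ) * x = N

/-- `a - b` is `p^m` times a `p`-integral number -/
def Cg (m : ℕ) (a b : ℚ) : Prop := ∃ c : ℚ, PI p c ∧ a - b = (p : ℚ) ^ m * c

variable {p}

section basic

variable (hp : p.Prime)
include hp

theorem not_dvd_one : ¬ (p : ℤ) ∣ 1 := by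
  intro h
  have : p ∣ 1 := by exact_mod_cast h
  exact hp.one_lt.ne' (Nat.dvd_one.1 this)

theorem not_dvd_mul {a b : ℤ} (ha : ¬ (p : ℤ) ∣ a) (hb : ¬ (p : ℤ) ∣ b) : ¬ (p : ℤ) ∣ a * b := by
  intro h
  rcases (Nat.prime_iff_prime_int.1 hp).dvd_or_dvd h with h | h
  · exact ha h
  · exact hb h

theorem PI.int (z : ℤ) : PI p (z : ℚ) := ⟨1, z, not_dvd_one hp, by simp⟩

theorem PI.nat (z : ℕ) : PI p (z : ℚ) := ⟨1, z, not_dvd_one hp, by simp⟩

theorem PI.zero : PI p 0 := by simpa using PI.int hp 0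

theorem PI.one : PI p 1 := by simpa using PI.int hp 1

theorem PI.add {x y : ℚ} (hx : PI p x) (hy : PI p y) : PI p (x + y) := by
  obtain ⟨D, N, h1, h2⟩ := hx
  obtain ⟨E, M, h3, h4⟩ := hy
  refine ⟨D * E, E * N + D * M, not_dvd_mul hp h1 h3, ?_⟩
  push_cast
  rw [← h2, ← h4]; ring

theorem PI.mul {x y : ℚ} (hx : PI p x) (hy : PI p y) : PI p (x * y) := by
  obtain ⟨D, N, h1, h2⟩ := hx
  obtain ⟨E, M, h3, h4⟩ := hy
  refine ⟨D * E, N * M, not_dvd_mul hp h1 h3, ?_⟩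
  push_cast
  rw [← h2, ← h4]; ring

omit hp in
theorem PI.neg {x : ℚ} (hx : PI p x) : PI p (-x) := by
  obtain ⟨D, N, h1, h2⟩ := hx
  refine ⟨D, -N, h1, ?_⟩
  push_cast
  rw [← h2]; ring

theorem PI.sub {x y : ℚ} (hx : PI p x) (hy : PI p y) : PI p (x - y) := by
  rw [sub_eq_add_neg]; exact PI.add hp hx (PI.neg hy)

theorem PI.pow {x : ℚ} (hx : PI p x) (n : ℕ) : PI p (x ^ n) := by
  induction n with
  | zero => simpa using PI.one hp
  | succ n ih => rw [pow_succ]; exact PI.mul hp ih hx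

theorem PI.sum {ι : Type*} (s : Finset ι) (f : ι → ℚ) (h : ∀ i ∈ s, PI p (f i)) :
    PI p (∑ i ∈ s, f i) := by
  classical
  induction s using Finset.induction_on with
  | empty => simpa using PI.zero hp
  | insert a s ha ih =>
    rw [Finset.sum_insert ha]
    exact PI.add hp (h a (Finset.mem_insert_self _ _))
      (ih fun i hi => h i (Finset.mem_insert_of_mem hi))

theorem PI.prod {ι : Type*} (s : Finset ι) (f : ι → ℚ) (h : ∀ i ∈ s, PI p (f i)) :
    PI p (∏ i ∈ s, f i) := by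
  classical
  induction s using Finset.induction_on with
  | empty => simpa using PI.one hp
  | insert a s ha ih =>
    rw [Finset.prod_insert ha]
    exact PI.mul hp (h a (Finset.mem_insert_self _ _))
      (ih fun i hi => h i (Finset.mem_insert_of_mem hi))

/-- dividing by an integer prime to `p` -/
theorem PI.div_int {x : ℚ} (hx : PI p x) {d : ℤ} (hd : ¬ (p : ℤ) ∣ d) : PI p (x / d) := by
  obtain ⟨D, N, h1, h2⟩ := hx
  have hd0 : (d : ℚ) ≠ 0 := by
    intro h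
    have : d = 0 := by exact_mod_cast h
    rw [this] at hd
    exact hd (dvd_zero _)
  refine ⟨D * d, N, not_dvd_mul hp h1 hd, ?_⟩
  rw [← h2]
  push_cast
  field_simp

theorem PI.div_nat {x : ℚ} (hx : PI p x) {d : ℕ} (hd : ¬ p ∣ d) : PI p (x / d) := by
  have := PI.div_int hp hx (d := (d : ℤ)) (by exact_mod_cast hd)
  simpa using this

omit hp in
theorem Cg.refl (m : ℕ) (a : ℚ) (hp : p.Prime) : Cg p m a a := ⟨0, PI.zero hp, by simp⟩

omit hp in
theorem Cg.symm {m : ℕ} {a b : ℚ} (h : Cg p m a b) : Cg p m b a := by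
  obtain ⟨c, hc, h⟩ := h
  exact ⟨-c, PI.neg hc, by linear_combination -h⟩

theorem Cg.trans {m : ℕ} {a b c : ℚ} (h : Cg p m a b) (h' : Cg p m b c) : Cg p m a c := by
  obtain ⟨u, hu, h1⟩ := h
  obtain ⟨v, hv, h2⟩ := h'
  exact ⟨u + v, PI.add hp hu hv, by linear_combination h1 + h2⟩

theorem Cg.add {m : ℕ} {a b c d : ℚ} (h : Cg p m a b) (h' : Cg p m c d) :
    Cg p m (a + c) (b + d) := by
  obtain ⟨u, hu, h1⟩ := h
  obtain ⟨v, hv, h2⟩ := h'
  exact ⟨u + v, PI.add hp hu hv, by linear_combination h1 + h2⟩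

omit hp in
theorem Cg.neg {m : ℕ} {a b : ℚ} (h : Cg p m a b) : Cg p m (-a) (-b) := by
  obtain ⟨u, hu, h1⟩ := h
  exact ⟨-u, PI.neg hu, by linear_combination -h1⟩

theorem Cg.sub {m : ℕ} {a b c d : ℚ} (h : Cg p m a b) (h' : Cg p m c d) :
    Cg p m (a - c) (b - d) := by
  rw [sub_eq_add_neg, sub_eq_add_neg]
  exact Cg.add hp h (Cg.neg h')

theorem Cg.mul_left {m : ℕ} {a b : ℚ} {x : ℚ} (hx : PI p x) (h : Cg p m a b) :
    Cg p m (x * a) (x * b) := by
  obtain ⟨u, hu, h1⟩ := h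
  exact ⟨x * u, PI.mul hp hx hu, by linear_combination x * h1⟩

theorem Cg.mul_right {m : ℕ} {a b : ℚ} {x : ℚ} (hx : PI p x) (h : Cg p m a b) :
    Cg p m (a * x) (b * x) := by
  rw [mul_comm a, mul_comm b]; exact Cg.mul_left hp hx h

theorem Cg.mul {m : ℕ} {a b c d : ℚ} (h : Cg p m a b) (h' : Cg p m c d) (hc : PI p c)
    (hb : PI p b) : Cg p m (a * c) (b * d) :=
  Cg.trans hp (Cg.mul_right hp hc h) (Cg.mul_left hp hb h')

theorem Cg.sum {ι : Type*} {m : ℕ} (s : Finset ι) (f g : ι → ℚ)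
    (h : ∀ i ∈ s, Cg p m (f i) (g i)) : Cg p m (∑ i ∈ s, f i) (∑ i ∈ s, g i) := by
  classical
  induction s using Finset.induction_on with
  | empty => simpa using Cg.refl m 0 hp
  | insert a s ha ih =>
    rw [Finset.sum_insert ha, Finset.sum_insert ha]
    exact Cg.add hp (h a (Finset.mem_insert_self _ _))
      (ih fun i hi => h i (Finset.mem_insert_of_mem hi))

theorem Cg.mono {m n : ℕ} {a b : ℚ} (hmn : n ≤ m) (h : Cg p m a b) : Cg p n a b := by
  obtain ⟨u, hu, h1⟩ := h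
  refine ⟨(p : ℚ) ^ (m - n) * u, PI.mul hp (PI.pow hp (PI.nat hp p) _) hu, ?_⟩
  rw [← mul_assoc, ← pow_add, Nat.add_sub_cancel' hmn]
  exact h1

theorem Cg.of_dvd {m : ℕ} {a b : ℤ} (h : (p : ℤ) ^ m ∣ a - b) : Cg p m (a : ℚ) (b : ℚ) := by
  obtain ⟨c, hc⟩ := h
  refine ⟨c, PI.int hp c, ?_⟩
  exact_mod_cast hc

/-- from `p`-integral congruence to divisibility of the numerator -/
theorem Cg.num_dvd {m : ℕ} {a b : ℚ} (h : Cg p m a b) : (p : ℤ) ^ m ∣ (a - b).num := by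
  obtain ⟨c, ⟨D, N, h1, h2⟩, h3⟩ := h
  have e1 : ((a - b).num : ℚ) * D = (p : ℚ) ^ m * (N * (a - b).den) := by
    have e2 : (a - b) * (a - b).den = (a - b).num := Rat.mul_den_eq_num _
    rw [← e2, ← h2, h3]; ring
  have e3 : (a - b).num * D = (p : ℤ) ^ m * (N * (a - b).den) := by exact_mod_cast e1
  have e4 : (p : ℤ) ^ m ∣ (a - b).num * D := ⟨_, e3⟩
  have e5 : IsCoprime ((p : ℤ) ^ m) D := by
    apply IsCoprime.pow_left
    rw [Int.isCoprime_iff_gcd_eq_one]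
    have := (Nat.Prime.coprime_iff_not_dvd hp (n := D.natAbs)).2 (by
      rwa [← Int.natCast_dvd])
    simpa [Int.gcd] using this
  exact e5.dvd_of_dvd_mul_right e4

omit hp in
theorem Cg.of_eq {m : ℕ} {a b : ℚ} (hp : p.Prime) (h : a = b) : Cg p m a b := by
  rw [h]; exact Cg.refl m b hp

/-- divide a congruence by something whose product with a power of `p` is integral -/
theorem Cg.mul_frac {m k : ℕ} {a b x : ℚ} (hx : PI p ((p : ℚ) ^ k * x))
    (h : Cg p (m + k) a b) : Cg p m (a * x) (b * x) := by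
  obtain ⟨u, hu, h1⟩ := h
  refine ⟨u * ((p : ℚ) ^ k * x), PI.mul hp hu hx, ?_⟩
  rw [pow_add] at h1
  linear_combination x * h1

end basic

end Q277.PInt
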