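import Mathlib
import Pool.Agent.Q277.PInt

/-!
# Sums of `C(a,k) C(-1-a,k)` with denominators
-/

open Finset

namespace Q277.CatalanSums

open Q277.PInt

/-- `u_k(a) = C(a,k) C(-1-a,k)` -/
def u (a : ℚ) : ℕ → ℚ
  | 0 => 1
  | k + 1 => u a k * (-((a - k) * (a + 1 + k))) / ((k : ℚ) + 1) ^ 2

/-- `g_k(a) = ∏_{i=1}^k (i² - a²) / k!²` -/
def g (a : ℚ) : ℕ → ℚ
  | 0 => 1
  | k + 1 => g a k * (((k : ℚ) + 1) ^ 2 - a ^ 2) / ((k : ℚ) + 1) ^ 2

theorem u_succ_eq (a : ℚ) (k : ℕ) :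
    u a (k + 1) = -(a * (a + (k + 1)) * g a k) / ((k : ℚ) + 1) ^ 2 := by
  induction k with
  | zero => simp [u, g]
  | succ k ih =>
    have h1 : ((k : ℚ) + 1) ≠ 0 := by positivity
    have h2 : ((k : ℚ) + 1 + 1) ≠ 0 := by positivity
    rw [u, ih, g]
    push_cast
    field_simp
    ring

theorem u_pred_eq (a : ℚ) (k : ℕ) :
    u (a - 1) (k + 1) = -(a * (a - (k + 1)) * g a k) / ((k : ℚ) + 1) ^ 2 := by
  induction k with
  | zero => simp [u, g]; ring
  | succ k ih =>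
    have h1 : ((k : ℚ) + 1) ≠ 0 := by positivity
    have h2 : ((k : ℚ) + 1 + 1) ≠ 0 := by positivity
    rw [u, ih, g]
    push_cast
    field_simp
    ring

/-- `V_n(a)` -/
def V (n : ℕ) (a : ℚ) : ℚ := (2 * a + 1) * ∑ k ∈ range n, u a k / (2 * (k : ℚ) + 1)

theorem V_sub (n : ℕ) (a : ℚ) : V (n + 1) a - V (n + 1) (a - 1) = 2 * g a n := by
  induction n with
  | zero => simp [V, u, g]; ring
  | succ n ih =>
    have e : V (n + 1 + 1) a - V (n + 1 + 1) (a - 1) = V (n + 1) a - V (n + 1) (a - 1) +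
        ((2 * a + 1) * u a (n + 1) - (2 * (a - 1) + 1) * u (a - 1) (n + 1)) /
          (2 * ((n : ℚ) + 1) + 1) := by
      unfold V
      rw [Finset.sum_range_succ (n := n + 1), Finset.sum_range_succ (n := n + 1)]
      push_cast
      ring
    have h1 : ((n : ℚ) + 1) ≠ 0 := by positivity
    have h2 : (2 * ((n : ℚ) + 1) + 1) ≠ 0 := by positivity
    rw [e, ih, u_succ_eq, u_pred_eq, g]
    field_simp
    ring

theorem V_zero (n : ℕ) : V (n + 1) 0 = 1 := by
  unfold V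
  have h : ∀ k, u 0 (k + 1) = 0 := by intro k; rw [u_succ_eq]; simp
  have h0 : u 0 0 = 1 := rfl
  rw [Finset.sum_range_succ']
  simp only [h, h0, zero_div, Finset.sum_const_zero]
  norm_num

theorem V_nat (n A : ℕ) : V (n + 1) (A : ℚ) = 1 + 2 * ∑ a ∈ range A, g ((a : ℚ) + 1) n := by
  induction A with
  | zero => simp [V_zero]
  | succ A ih =>
    have h := V_sub n ((A : ℚ) + 1)
    rw [add_sub_cancel_right, ih] at h
    rw [Finset.sum_range_succ]
    push_cast
    linarith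

theorem g_eq (a : ℚ) (n : ℕ) : g a n * ((n.factorial : ℕ) : ℚ) ^ 2 =
    ∏ i ∈ range n, (((i : ℚ) + 1) ^ 2 - a ^ 2) := by
  induction n with
  | zero => simp [g]
  | succ n ih =>
    have h1 : ((n : ℚ) + 1) ≠ 0 := by positivity
    rw [Finset.prod_range_succ, ← ih, Nat.factorial_succ, g]
    push_cast
    field_simp

section prime

variable {p : ℕ} (hp : p.Prime) (hp2 : 2 < p)
include hp hp2

theorem fact_unit : ¬ p ∣ (p - 1).factorial := by
  rw [hp.dvd_factorial]; omega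

omit hp2 in
theorem u_PI (a : ℚ) (ha : PI p a) (k : ℕ) (hk : k < p) : PI p (u a k) := by
  induction k with
  | zero => exact PI.one hp
  | succ k ih =>
    have h1 := ih (by omega)
    rw [u]
    have h2 : ((k : ℚ) + 1) ^ 2 = (((k + 1) ^ 2 : ℕ) : ℚ) := by push_cast; ring
    rw [h2]
    apply PI.div_nat hp
    · apply PI.mul hp h1
      apply PI.neg
      exact PI.mul hp (PI.sub hp ha (PI.nat hp k))
        (PI.add hp (PI.add hp ha (PI.one hp)) (PI.nat hp k))
    · intro h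
      have h3 := hp.dvd_of_dvd_pow h
      have := Nat.le_of_dvd (by omega) h3
      omega

omit hp2 in
theorem u_Cg (m : ℕ) (a b : ℚ) (ha : PI p a) (hb : PI p b) (hab : Cg p m a b) (k : ℕ)
    (hk : k < p) : Cg p m (u a k) (u b k) := by
  induction k with
  | zero => exact Cg.refl m _ hp
  | succ k ih =>
    have h1 := ih (by omega)
    rw [u, u]
    have h2 : ((k : ℚ) + 1) ^ 2 = (((k + 1) ^ 2 : ℕ) : ℚ) := by push_cast; ring
    rw [h2, div_eq_mul_one_div, div_eq_mul_one_div (u b k * _)]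
    apply Cg.mul_right hp
    · apply PI.div_nat hp (PI.one hp)
      intro h
      have h3 := hp.dvd_of_dvd_pow h
      have := Nat.le_of_dvd (by omega) h3
      omega
    · have c1 : Cg p m (a - k) (b - k) := Cg.sub hp hab (Cg.refl m _ hp)
      have c2 : Cg p m (a + 1 + k) (b + 1 + k) :=
        Cg.add hp (Cg.add hp hab (Cg.refl m _ hp)) (Cg.refl m _ hp)
      have c3 : Cg p m ((a - k) * (a + 1 + k)) ((b - k) * (b + 1 + k)) :=
        Cg.mul hp c1 c2 (PI.add hp (PI.add hp ha (PI.one hp)) (PI.nat hp k))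
          (PI.sub hp hb (PI.nat hp k))
      exact Cg.mul hp h1 (Cg.neg c3) (PI.neg (PI.mul hp (PI.sub hp ha (PI.nat hp k))
        (PI.add hp (PI.add hp ha (PI.one hp)) (PI.nat hp k)))) (u_PI hp b hb k (by omega))

/-- `g_{p-1}(a)` for `p ∣ a` -/
theorem g_dvd (a : ℕ) (ha : p ∣ a) : Cg p 2 (g (a : ℚ) (p - 1)) 1 := by
  have hf := fact_unit hp hp2
  have hf2 : ¬ p ∣ (p - 1).factorial ^ 2 := fun h => hf (hp.dvd_of_dvd_pow h)
  have hne : (((p - 1).factorial : ℕ) : ℚ) ^ 2 ≠ 0 := by positivity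
  have e1 := g_eq (a : ℚ) (p - 1)
  have e2 : (((p - 1).factorial : ℕ) : ℚ) ^ 2 = ∏ i ∈ range (p - 1), ((i : ℚ) + 1) ^ 2 := by
    rw [← Finset.prod_range_add_one_eq_factorial]
    push_cast
    rw [Finset.prod_pow]
  have e3 : Cg p 2 (∏ i ∈ range (p - 1), (((i : ℚ) + 1) ^ 2 - (a : ℚ) ^ 2))
      (∏ i ∈ range (p - 1), ((i : ℚ) + 1) ^ 2) := by
    obtain ⟨c, rfl⟩ := ha
    have h : (p : ℤ) ^ 2 ∣ (∏ i ∈ range (p - 1), (((i : ℤ) + 1) ^ 2 - ((p * c : ℕ) : ℤ) ^ 2)) -
        (∏ i ∈ range (p - 1), ((i : ℤ) + 1) ^ 2) := by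
      rw [← Int.modEq_iff_dvd]
      apply Int.ModEq.symm
      apply Int.ModEq.prod
      intro i _
      apply Int.ModEq.symm
      rw [Int.modEq_iff_dvd]
      refine ⟨-(c : ℤ) ^ 2, ?_⟩
      push_cast; ring
    have := Cg.of_dvd hp h
    push_cast at this ⊢
    exact this
  rw [← e1, ← e2] at e3
  have e4 : PI p (1 / (((p - 1).factorial ^ 2 : ℕ) : ℚ)) := PI.div_nat hp (PI.one hp) hf2
  have e5 := Cg.mul_right hp e4 e3
  push_cast at e5
  have e6 : g (a : ℚ) (p - 1) * (((p - 1).factorial : ℕ) : ℚ) ^ 2 *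
      (1 / (((p - 1).factorial : ℕ) : ℚ) ^ 2) = g (a : ℚ) (p - 1) := by field_simp
  have e7 : (((p - 1).factorial : ℕ) : ℚ) ^ 2 * (1 / (((p - 1).factorial : ℕ) : ℚ) ^ 2) = 1 := by
    field_simp
  rw [e6, e7] at e5
  exact e5

/-- `g_{p-1}(a)` for `p ∤ a` -/
theorem g_not_dvd (a : ℕ) (ha : ¬ p ∣ a) : Cg p 2 (g (a : ℚ) (p - 1)) 0 := by
  have hf := fact_unit hp hp2
  have hf2 : ¬ p ∣ (p - 1).factorial ^ 2 := fun h => hf (hp.dvd_of_dvd_pow h)
  have hne : (((p - 1).factorial : ℕ) : ℚ) ^ 2 ≠ 0 := by positivity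
  have e1 := g_eq (a : ℚ) (p - 1)
  have hr : 1 ≤ a % p := by
    have : a % p ≠ 0 := fun h => ha (Nat.dvd_of_mod_eq_zero h)
    omega
  have hr2 : a % p < p := Nat.mod_lt _ hp.pos
  have hdm : (a : ℤ) = p * (a / p : ℕ) + (a % p : ℕ) := by
    have := Nat.div_add_mod a p
    exact_mod_cast this.symm
  have e3 : (p : ℤ) ^ 2 ∣ (∏ i ∈ range (p - 1), (((i : ℤ) + 1) ^ 2 - (a : ℤ) ^ 2)) - 0 := by
    rw [sub_zero]
    have hm1 : a % p - 1 ∈ range (p - 1) := by rw [Finset.mem_range]; omega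
    have hm2 : p - a % p - 1 ∈ (range (p - 1)).erase (a % p - 1) := by
      rw [Finset.mem_erase, Finset.mem_range]
      constructor
      · intro h
        have : p = 2 * (a % p) := by omega
        have h2 : 2 ∣ p := ⟨_, this⟩
        have h3 := (Nat.prime_dvd_prime_iff_eq Nat.prime_two hp).1 h2
        omega
      · omega
    rw [← Finset.mul_prod_erase _ _ hm1, ← Finset.mul_prod_erase _ _ hm2, ← mul_assoc]
    apply Dvd.dvd.mul_right
    rw [pow_two]
    apply mul_dvd_mul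
    · have : ((a % p - 1 : ℕ) : ℤ) + 1 = ((a % p : ℕ) : ℤ) := by omega
      rw [this]
      refine ⟨-(a / p : ℕ) * ((a % p : ℕ) + a), ?_⟩
      linear_combination (-((a % p : ℕ) : ℤ) - a) * hdm
    · have : ((p - a % p - 1 : ℕ) : ℤ) + 1 = (p : ℤ) - ((a % p : ℕ) : ℤ) := by omega
      rw [this]
      refine ⟨(1 + (a / p : ℕ)) * ((p : ℤ) - (a % p : ℕ) - a), ?_⟩
      linear_combination ((p : ℤ) - ((a % p : ℕ) : ℤ) - a) * hdm
  have e3' := Cg.of_dvd hp e3
  push_cast at e3'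
  rw [← e1] at e3'
  have e4 : PI p (1 / (((p - 1).factorial ^ 2 : ℕ) : ℚ)) := PI.div_nat hp (PI.one hp) hf2
  have e5 := Cg.mul_right hp e4 e3'
  push_cast at e5
  have e6 : g (a : ℚ) (p - 1) * (((p - 1).factorial : ℕ) : ℚ) ^ 2 *
      (1 / (((p - 1).factorial : ℕ) : ℚ) ^ 2) = g (a : ℚ) (p - 1) := by field_simp
  rw [e6, zero_mul] at e5
  exact e5

theorem V_mod (A : ℕ) : Cg p 2 (V p (A : ℚ)) (1 + 2 * ((A / p : ℕ) : ℚ)) := by
  have h0 : p - 1 + 1 = p := by omega
  have h1 := V_nat (p - 1) A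
  rw [h0] at h1
  rw [h1]
  apply Cg.add hp (Cg.refl _ _ hp)
  apply Cg.mul_left hp (by simpa using PI.nat hp 2)
  induction A with
  | zero => simpa using Cg.refl 2 0 hp
  | succ A ih =>
    rw [Finset.sum_range_succ, Nat.succ_div]
    have h2 := V_nat (p - 1) A
    rw [h0] at h2
    have ih' := ih h2
    push_cast
    apply Cg.add hp ih'
    split_ifs with hd
    · have := g_dvd hp hp2 (A + 1) hd
      push_cast at this ⊢
      exact this
    · have := g_not_dvd hp hp2 (A + 1) hd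
      push_cast at this ⊢
      exact this

/-- the number `a = -1/3` -/
theorem W_third (p3 : p ≠ 3) : Cg p 2 (∑ k ∈ range p, u (-1 / 3) k / (2 * (k : ℚ) + 1))
    (if p % 3 = 1 then 1 else -1) := by
  have hp3 : p % 3 = 1 ∨ p % 3 = 2 := by
    have : p % 3 ≠ 0 := by
      intro h
      have h2 : 3 ∣ p := Nat.dvd_of_mod_eq_zero h
      exact p3 ((Nat.prime_dvd_prime_iff_eq Nat.prime_three hp).1 h2).symm
    omega
  -- choice of `A`
  obtain ⟨A, v, hA, hv⟩ : ∃ A v : ℕ, 3 * A + 1 = p ^ 3 * v ∧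
      (3 + 6 * ((A / p : ℕ) : ℤ) = (if p % 3 = 1 then 1 else -1) + p ^ 2 * (2 * v)) := by
    rcases hp3 with h | h
    · obtain ⟨c, hc⟩ : ∃ c, p = 3 * c + 1 := ⟨p / 3, by omega⟩
      refine ⟨p * (3 * c ^ 2 + 2 * c) + c, 1, ?_, ?_⟩
      · have : p ^ 3 = p * p ^ 2 := by ring
        rw [this]
        have h2 : p ^ 2 = 9 * c ^ 2 + 6 * c + 1 := by rw [hc]; ring
        rw [h2, mul_add, mul_add]
        nlinarith
      · rw [Nat.mul_add_div hp.pos, Nat.div_eq_of_lt (by omega), add_zero, if_pos h]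
        push_cast
        rw [hc]; push_cast; ring
    · obtain ⟨c, hc⟩ : ∃ c, p = 3 * c + 2 := ⟨p / 3, by omega⟩
      refine ⟨p * (6 * c ^ 2 + 8 * c + 2) + (2 * c + 1), 2, ?_, ?_⟩
      · have : p ^ 3 = p * p ^ 2 := by ring
        rw [this]
        have h2 : p ^ 2 = 9 * c ^ 2 + 12 * c + 4 := by rw [hc]; ring
        rw [h2]
        nlinarith
      · rw [Nat.mul_add_div hp.pos, Nat.div_eq_of_lt (by omega), add_zero, if_neg (by omega)]
        push_cast
        rw [hc]; push_cast; ring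
  have h3 : ¬ (p : ℤ) ∣ 3 := by
    intro h
    have h2 : p ∣ 3 := by exact_mod_cast h
    exact p3 ((Nat.prime_dvd_prime_iff_eq hp Nat.prime_three).1 h2)
  have PI3 : PI p (1 / 3) := by
    have := PI.div_int hp (PI.one hp) h3
    push_cast at this; exact this
  have PIa : PI p (-1 / 3) := by
    have := PI.neg PI3
    rw [neg_div]; exact this
  have hAq : (3 : ℚ) * A + 1 = (p : ℚ) ^ 3 * v := by exact_mod_cast hA
  have c1 : Cg p 3 (-1 / 3) (A : ℚ) := by
    refine ⟨-(1 / 3) * v, PI.mul hp (PI.neg PI3) (PI.nat hp v), ?_⟩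
    linear_combination (-1 / 3) * hAq
  have c2 : Cg p 2 (∑ k ∈ range p, u (-1 / 3) k / (2 * (k : ℚ) + 1))
      (∑ k ∈ range p, u (A : ℚ) k / (2 * (k : ℚ) + 1)) := by
    apply Cg.sum hp
    intro k hk
    rw [Finset.mem_range] at hk
    rw [div_eq_mul_one_div, div_eq_mul_one_div (u (A : ℚ) k)]
    apply Cg.mul_frac hp (k := 1) _ (u_Cg hp (2 + 1) _ _ PIa (PI.nat hp A) c1 k hk)
    rw [pow_one]
    by_cases hd : p ∣ 2 * k + 1
    · obtain ⟨c, hc⟩ := hd
      have hc1 : c = 1 := by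
        rcases Nat.lt_or_ge c 2 with h | h
        · interval_cases c
          · omega
          · rfl
        · have : p * 2 ≤ p * c := Nat.mul_le_mul_left _ h
          omega
      subst hc1
      have h4 : (2 * (k : ℚ) + 1) = p := by exact_mod_cast (by omega : 2 * k + 1 = p)
      have h5 : (p : ℚ) ≠ 0 := by exact_mod_cast hp.ne_zero
      rw [h4, mul_one_div, div_self h5]
      exact PI.one hp
    · rw [mul_one_div]
      have := PI.div_nat hp (PI.nat hp p) hd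
      push_cast at this
      exact this
  refine Cg.trans hp c2 ?_
  have hV := V_mod hp hp2 A
  -- multiply by `3` and compare
  have e1 : ∑ k ∈ range p, u (A : ℚ) k / (2 * (k : ℚ) + 1) =
      3 * V p (A : ℚ) - (p : ℚ) ^ 2 * (2 * p * v * ∑ k ∈ range p, u (A : ℚ) k / (2 * (k : ℚ) + 1)) := by
    unfold V
    linear_combination (-2 * ∑ k ∈ range p, u (A : ℚ) k / (2 * (k : ℚ) + 1)) * hAq
  have hP : PI p ((p : ℚ) * ∑ k ∈ range p, u (A : ℚ) k / (2 * (k : ℚ) + 1)) := by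
    rw [Finset.mul_sum]
    apply PI.sum hp
    intro k hk
    rw [Finset.mem_range] at hk
    have hu := u_PI hp (A : ℚ) (PI.nat hp A) k hk
    by_cases hd : p ∣ 2 * k + 1
    · obtain ⟨c, hc⟩ := hd
      have hc1 : c = 1 := by
        rcases Nat.lt_or_ge c 2 with h | h
        · interval_cases c
          · omega
          · rfl
        · have : p * 2 ≤ p * c := Nat.mul_le_mul_left _ h
          omega
      subst hc1
      have h4 : (2 * (k : ℚ) + 1) = p := by exact_mod_cast (by omega : 2 * k + 1 = p)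
      have h5 : (p : ℚ) ≠ 0 := by exact_mod_cast hp.ne_zero
      rw [h4, mul_div_cancel₀ _ h5]
      exact hu
    · have := PI.div_nat hp (PI.mul hp (PI.nat hp p) hu) hd
      push_cast at this
      rw [mul_div_assoc'] 
      exact this
  have c3 : Cg p 2 (∑ k ∈ range p, u (A : ℚ) k / (2 * (k : ℚ) + 1)) (3 * V p (A : ℚ)) := by
    refine ⟨-(2 * v * ((p : ℚ) * ∑ k ∈ range p, u (A : ℚ) k / (2 * (k : ℚ) + 1))),
      PI.neg (PI.mul hp (PI.mul hp (by simpa using PI.nat hp 2) (PI.nat hp v)) hP), ?_⟩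
    linear_combination e1
  refine Cg.trans hp c3 ?_
  have c4 : Cg p 2 (3 * V p (A : ℚ)) (3 * (1 + 2 * ((A / p : ℕ) : ℚ))) :=
    Cg.mul_left hp (by simpa using PI.nat hp 3) hV
  refine Cg.trans hp c4 ?_
  refine ⟨2 * v, PI.mul hp (by simpa using PI.nat hp 2) (PI.nat hp v), ?_⟩
  generalize A / p = m at hv
  have hv' := congrArg (Int.cast : ℤ → ℚ) hv
  push_cast at hv'
  linear_combination hv'

end prime

end Q277.CatalanSums
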