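import Mathlib

/-!
# A Clausen type formula for self-convolutions

If `(k+1)^2 t_{k+1} = (α k (k+1) + β) t_k` and `t_0 = 1`, then
`∑_k t_k t_{n-k} = ∑_k C(2k,k) t_k C(k,n-k) (-α)^{n-k}`.
-/

open Finset PowerSeries

namespace Q277.Clausen

/-- `q = X - α X^2` -/
noncomputable def q (α : ℚ) : ℚ⟦X⟧ := X - C α * X ^ 2

/-- its derivative -/
noncomputable def q' (α : ℚ) : ℚ⟦X⟧ := 1 - C (2 * α) * X

theorem C_two : (C (2 : ℚ) : ℚ⟦X⟧) = 2 := map_ofNat C 2

theorem C_four : (C (4 : ℚ) : ℚ⟦X⟧) = 4 := map_ofNat C 4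

theorem d_q (α : ℚ) : d⁄dX ℚ (q α) = q' α := by
  unfold q q'
  rw [map_sub, derivative_X, Derivation.leibniz, derivative_C, derivative_pow]
  simp only [smul_eq_mul, mul_zero, add_zero, derivative_X, map_mul, C_two]
  push_cast
  ring

theorem d_q' (α : ℚ) : d⁄dX ℚ (q' α) = -(2 * C α) := by
  unfold q'
  rw [map_sub, derivative_one, Derivation.leibniz, derivative_C, derivative_X]
  simp only [smul_eq_mul, mul_zero, add_zero, mul_one, map_mul, C_two, zero_sub]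

theorem q'_sq (α : ℚ) : q' α ^ 2 = 1 - 4 * C α * q α := by
  unfold q q'
  simp only [map_mul, C_two]
  ring

/-- the third order operator -/
noncomputable def L (α β : ℚ) (f : ℚ⟦X⟧) : ℚ⟦X⟧ :=
  d⁄dX ℚ (q α * d⁄dX ℚ (q α * d⁄dX ℚ f)) - 2 * C β * (q' α * f) - 4 * C β * (q α * d⁄dX ℚ f)

theorem L_sub (α β : ℚ) (f g : ℚ⟦X⟧) : L α β (f - g) = L α β f - L α β g := by
  unfold L
  simp only [map_sub, mul_sub]
  ring

theorem L_add (α β : ℚ) (f g : ℚ⟦X⟧) : L α β (f + g) = L α β f + L α β g := by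
  unfold L
  simp only [map_add, mul_add]
  ring

theorem d_C_mul (a : ℚ) (f : ℚ⟦X⟧) : d⁄dX ℚ (C a * f) = C a * d⁄dX ℚ f := by
  rw [Derivation.leibniz, derivative_C]; simp

theorem L_C_mul (α β a : ℚ) (f : ℚ⟦X⟧) : L α β (C a * f) = C a * L α β f := by
  unfold L
  have h1 : q α * d⁄dX ℚ (C a * f) = C a * (q α * d⁄dX ℚ f) := by rw [d_C_mul]; ring
  rw [h1]
  have h2 : q α * d⁄dX ℚ (C a * (q α * d⁄dX ℚ f)) = C a * (q α * d⁄dX ℚ (q α * d⁄dX ℚ f)) := by
    rw [d_C_mul]; ring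
  rw [h2, d_C_mul]
  ring

/-- the square of a solution of the second order equation -/
theorem L_sq (α β : ℚ) (F : ℚ⟦X⟧) (h : d⁄dX ℚ (q α * d⁄dX ℚ F) = C β * F) : L α β (F ^ 2) = 0 := by
  have h1 : d⁄dX ℚ (F ^ 2) = 2 * F * d⁄dX ℚ F := by
    rw [pow_two, Derivation.leibniz]; simp only [smul_eq_mul]; ring
  have h0 : d⁄dX ℚ (q α * d⁄dX ℚ F) = q α * d⁄dX ℚ (d⁄dX ℚ F) + q' α * d⁄dX ℚ F := by
    rw [Derivation.leibniz, d_q]; simp only [smul_eq_mul]; ring
  -- `q (q (F^2)')' = 2 β q F^2 + 2 (q F')^2`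
  have h2 : q α * d⁄dX ℚ (q α * d⁄dX ℚ (F ^ 2)) = 2 * C β * (q α * F ^ 2) +
      2 * (q α * d⁄dX ℚ F) ^ 2 := by
    have e : q α * d⁄dX ℚ (F ^ 2) = 2 * (F * (q α * d⁄dX ℚ F)) := by rw [h1]; ring
    have e2 : d⁄dX ℚ (2 * (F * (q α * d⁄dX ℚ F))) = 2 * d⁄dX ℚ (F * (q α * d⁄dX ℚ F)) := by
      rw [← C_two, d_C_mul]
    rw [e, e2, Derivation.leibniz, h]
    simp only [smul_eq_mul]
    ring
  unfold L
  rw [h2]
  have h3 : d⁄dX ℚ (2 * C β * (q α * F ^ 2) + 2 * (q α * d⁄dX ℚ F) ^ 2) =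
      2 * C β * (q' α * F ^ 2 + q α * d⁄dX ℚ (F ^ 2)) +
      4 * (q α * d⁄dX ℚ F) * (C β * F) := by
    rw [map_add]
    have e1 : d⁄dX ℚ (2 * C β * (q α * F ^ 2)) = 2 * C β * (q' α * F ^ 2 + q α * d⁄dX ℚ (F ^ 2)) := by
      have : (2 * C β : ℚ⟦X⟧) = C (2 * β) := by rw [map_mul, C_two]
      rw [this, d_C_mul, Derivation.leibniz, d_q]
      simp only [smul_eq_mul]
      ring
    have e2 : d⁄dX ℚ (2 * (q α * d⁄dX ℚ F) ^ 2) = 4 * (q α * d⁄dX ℚ F) * (C β * F) := by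
      rw [← C_two, d_C_mul, C_two, pow_two, Derivation.leibniz, h]
      simp only [smul_eq_mul]
      ring
    rw [e1, e2]
  rw [h3, h1]
  ring

theorem d_q_pow (α : ℚ) (k : ℕ) : q α * d⁄dX ℚ (q α ^ k) = C (k : ℚ) * (q' α * q α ^ k) := by
  rcases k with _ | k
  · simp
  · rw [derivative_pow, d_q]
    push_cast
    simp only [map_add, map_natCast, map_one]
    ring

/-- the operator on powers of `q`, multiplied by `q` -/
theorem q_L_pow (α β : ℚ) (k : ℕ) : q α * L α β (q α ^ k) =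
    q' α * (C ((k : ℚ) ^ 3) * q α ^ k -
      C (2 * (2 * (k : ℚ) + 1) * (α * k * (k + 1) + β)) * q α ^ (k + 1)) := by
  have h1 := d_q_pow α k
  have h2 : q α * d⁄dX ℚ (q α * d⁄dX ℚ (q α ^ k)) = C (k : ℚ) * (C (k : ℚ) * q α ^ k -
      C (2 * α * (2 * k + 1)) * q α ^ (k + 1)) := by
    rw [h1, d_C_mul, Derivation.leibniz, d_q']
    simp only [smul_eq_mul]
    have h3 := q'_sq α
    have e : q α * (C (k : ℚ) * (q' α * d⁄dX ℚ (q α ^ k) + q α ^ k * -(2 * C α))) =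
        C (k : ℚ) * (q' α * (q α * d⁄dX ℚ (q α ^ k)) - 2 * C α * (q α ^ k * q α)) := by ring
    rw [e, h1]
    simp only [map_mul, map_add, map_one, C_two, map_natCast]
    rw [pow_succ]
    linear_combination ((k : ℚ⟦X⟧) ^ 2 * q α ^ k) * h3
  have h4 : q α * d⁄dX ℚ (q α * d⁄dX ℚ (q α * d⁄dX ℚ (q α ^ k))) =
      q α * d⁄dX ℚ (C (k : ℚ) * (C (k : ℚ) * q α ^ k - C (2 * α * (2 * k + 1)) * q α ^ (k + 1))) := by
    rw [h2]
  have h5 : q α * d⁄dX ℚ (C (k : ℚ) * (C (k : ℚ) * q α ^ k - C (2 * α * (2 * k + 1)) * q α ^ (k + 1))) =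
      C (k : ℚ) * (C (k : ℚ) * (C (k : ℚ) * (q' α * q α ^ k)) - C (2 * α * (2 * k + 1)) *
        (C (((k + 1 : ℕ) : ℚ)) * (q' α * q α ^ (k + 1)))) := by
    rw [d_C_mul, map_sub, d_C_mul, d_C_mul, ← d_q_pow α k, ← d_q_pow α (k + 1)]
    ring
  unfold L
  have e : q α * (d⁄dX ℚ (q α * d⁄dX ℚ (q α * d⁄dX ℚ (q α ^ k))) - 2 * C β * (q' α * q α ^ k) -
      4 * C β * (q α * d⁄dX ℚ (q α ^ k))) =
      q α * d⁄dX ℚ (q α * d⁄dX ℚ (q α * d⁄dX ℚ (q α ^ k))) - 2 * C β * (q' α * q α ^ k) * q α -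
      4 * C β * (q α * d⁄dX ℚ (q α ^ k)) * q α := by ring
  rw [e, h4, h5, h1]
  simp only [map_mul, map_add, map_one, C_two, map_natCast, map_pow, Nat.cast_add, Nat.cast_one]
  ring

theorem q_ne (α : ℚ) : q α ≠ 0 := by
  intro h
  have := congrArg (coeff 1) h
  unfold q at this
  rw [map_sub, coeff_one_X, coeff_C_mul, coeff_X_pow] at this
  norm_num at this

/-- the truncated composition -/
noncomputable def H (α : ℚ) (c : ℕ → ℚ) (K : ℕ) : ℚ⟦X⟧ := ∑ k ∈ range K, C (c k) * q α ^ k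

theorem L_H (α β : ℚ) (c : ℕ → ℚ) (hc : ∀ k : ℕ, ((k : ℚ) + 1) ^ 3 * c (k + 1) =
    2 * (2 * k + 1) * (α * k * (k + 1) + β) * c k) (K : ℕ) :
    q α * L α β (H α c K) = -(q' α * (C (c K * (K : ℚ) ^ 3) * q α ^ K)) := by
  induction K with
  | zero =>
    unfold H L
    simp
  | succ K ih =>
    have e : H α c (K + 1) = H α c K + C (c K) * q α ^ K := by
      unfold H; rw [Finset.sum_range_succ]
    rw [e, L_add, L_C_mul, mul_add, ih]
    have h1 := q_L_pow α β K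
    have h2 : (C (c (K + 1) * (((K + 1 : ℕ) : ℚ)) ^ 3) : ℚ⟦X⟧) =
        C (c K) * C (2 * (2 * (K : ℚ) + 1) * (α * K * (K + 1) + β)) := by
      rw [← map_mul]
      congr 1
      push_cast
      linear_combination hc K
    rw [h2, map_mul C (c K)]
    linear_combination (C (c K)) * h1

theorem coeff_q_mul (α : ℚ) (f : ℚ⟦X⟧) (n : ℕ) : coeff (n + 2) (q α * f) =
    coeff (n + 1) f - α * coeff n f := by
  unfold q
  have : (X - C α * X ^ 2 : ℚ⟦X⟧) * f = X * f - X * (X * (C α * f)) := by ring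
  rw [this, map_sub, coeff_succ_X_mul, coeff_succ_X_mul, coeff_succ_X_mul, coeff_C_mul]

theorem coeff_one_q_mul (α : ℚ) (f : ℚ⟦X⟧) : coeff 1 (q α * f) = coeff 0 f := by
  unfold q
  have : (X - C α * X ^ 2 : ℚ⟦X⟧) * f = X * f - X * (X * (C α * f)) := by ring
  rw [this, map_sub, coeff_succ_X_mul, coeff_succ_X_mul, coeff_zero_X_mul, sub_zero]

theorem coeff_zero_q_mul (α : ℚ) (f : ℚ⟦X⟧) : coeff 0 (q α * f) = 0 := by
  unfold q
  have : (X - C α * X ^ 2 : ℚ⟦X⟧) * f = X * (f - X * (C α * f)) := by ring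
  rw [this, coeff_zero_X_mul]

/-- coefficients of `q f'` -/
theorem coeff_q_d (α : ℚ) (f : ℚ⟦X⟧) (n : ℕ) : coeff (n + 1) (q α * d⁄dX ℚ f) =
    ((n : ℚ) + 1) * coeff (n + 1) f - α * n * coeff n f := by
  rcases n with _ | n
  · rw [zero_add, coeff_one_q_mul, coeff_derivative]; push_cast; ring
  · rw [coeff_q_mul, coeff_derivative, coeff_derivative]; push_cast; ring

theorem coeff_q'_mul (α : ℚ) (f : ℚ⟦X⟧) (n : ℕ) : (∀ i ≤ n, coeff i f = 0) →
    coeff n (q' α * f) = 0 := by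
  intro h
  unfold q'
  have : (1 - C (2 * α) * X : ℚ⟦X⟧) * f = f - X * (C (2 * α) * f) := by ring
  rw [this, map_sub, h n le_rfl]
  rcases n with _ | n
  · rw [coeff_zero_X_mul]; simp
  · rw [coeff_succ_X_mul, coeff_C_mul, h n (by omega)]; simp

/-- uniqueness -/
theorem unique (α β : ℚ) (f : ℚ⟦X⟧) (K : ℕ) (h0 : coeff 0 f = 0)
    (h : ∀ m < K, coeff m (L α β f) = 0) (n : ℕ) (hn : n ≤ K) : coeff n f = 0 := by
  induction n using Nat.strong_induction_on with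
  | _ n ih =>
    rcases n with _ | m
    · exact h0
    · have hlow : ∀ i ≤ m, coeff i f = 0 := fun i hi => ih i (by omega) (by omega)
      have h1 := h m (by omega)
      unfold L at h1
      rw [map_sub, map_sub, coeff_derivative] at h1
      have e4 : (4 * C β * (q α * d⁄dX ℚ f) : ℚ⟦X⟧) = C (4 * β) * (q α * d⁄dX ℚ f) := by
        rw [map_mul, C_four]
      have e2 : (2 * C β * (q' α * f) : ℚ⟦X⟧) = C (2 * β) * (q' α * f) := by
        rw [map_mul, C_two]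
      have hg : ∀ i ≤ m, coeff i (q α * d⁄dX ℚ f) = 0 := by
        intro i hi
        rcases i with _ | i
        · exact coeff_zero_q_mul _ _
        · rw [coeff_q_d, hlow (i + 1) hi, hlow i (by omega)]; ring
      rw [e4, e2, coeff_C_mul, coeff_C_mul, coeff_q'_mul α f m hlow, hg m le_rfl] at h1
      rw [coeff_q_d, hg m le_rfl, coeff_q_d, hlow m le_rfl] at h1
      have n1 : (m : ℚ) + 1 ≠ 0 := by positivity
      have h2 : ((m : ℚ) + 1) ^ 3 * coeff (m + 1) f = 0 := by linear_combination h1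
      exact (mul_eq_zero.1 h2).resolve_left (pow_ne_zero _ n1)

theorem coeff_q_pow (α : ℚ) (k n : ℕ) (h : k ≤ n) :
    coeff n (q α ^ k) = (k.choose (n - k) : ℚ) * (-α) ^ (n - k) := by
  have e : q α ^ k = X ^ k * (1 + C (-α) * X) ^ k := by
    unfold q
    rw [← mul_pow]
    congr 1
    rw [map_neg]; ring
  obtain ⟨m, rfl⟩ := Nat.exists_eq_add_of_le h
  rw [e, Nat.add_sub_cancel_left, add_comm k m, coeff_X_pow_mul]
  have e2 : ((1 + C (-α) * X) ^ k : ℚ⟦X⟧) = ∑ i ∈ range (k + 1), C ((k.choose i : ℚ) * (-α) ^ i) * X ^ i := by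
    rw [add_comm, add_pow]
    refine Finset.sum_congr rfl fun i _ => ?_
    rw [one_pow, mul_one, mul_pow, map_mul, map_pow, map_natCast]; ring
  rw [e2, map_sum]
  rcases Nat.lt_or_ge k m with hm | hm
  · rw [Nat.choose_eq_zero_of_lt hm, Finset.sum_eq_zero]
    · simp
    · intro i hi
      rw [Finset.mem_range] at hi
      rw [coeff_C_mul, coeff_X_pow, if_neg (by omega), mul_zero]
  · rw [Finset.sum_eq_single m]
    · rw [coeff_C_mul, coeff_X_pow, if_pos rfl, mul_one]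
    · intro i _ hi
      rw [coeff_C_mul, coeff_X_pow, if_neg (by omega), mul_zero]
    · intro hi
      rw [Finset.mem_range] at hi
      omega

theorem coeff_q_pow_of_lt (α : ℚ) (g : ℚ⟦X⟧) (k n : ℕ) (h : n < k) : coeff n (g * q α ^ k) = 0 := by
  have e : g * q α ^ k = X ^ k * (g * (1 + C (-α) * X) ^ k) := by
    have : q α ^ k = X ^ k * (1 + C (-α) * X) ^ k := by
      unfold q
      rw [← mul_pow]
      congr 1
      rw [map_neg]; ring
    rw [this]; ring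
  rw [e, coeff_X_pow_mul', if_neg (by omega)]

/-- the Clausen type formula -/
theorem convolution (α β : ℚ) (t : ℕ → ℚ) (h0 : t 0 = 1)
    (ht : ∀ k : ℕ, ((k : ℚ) + 1) ^ 2 * t (k + 1) = (α * k * (k + 1) + β) * t k) (n : ℕ) :
    ∑ k ∈ range (n + 1), t k * t (n - k) =
      ∑ k ∈ range (n + 1), ((2 * k).choose k : ℚ) * t k * ((k.choose (n - k) : ℚ) * (-α) ^ (n - k)) := by
  set c : ℕ → ℚ := fun k => ((2 * k).choose k : ℚ) * t k with hc
  have hcrec : ∀ k : ℕ, ((k : ℚ) + 1) ^ 3 * c (k + 1) =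
      2 * (2 * k + 1) * (α * k * (k + 1) + β) * c k := by
    intro k
    have h1 := Nat.succ_mul_centralBinom_succ k
    unfold Nat.centralBinom at h1
    have h2 := congrArg (Nat.cast : ℕ → ℚ) h1
    have h3 := ht k
    simp only [hc]
    push_cast at h2
    linear_combination (((k : ℚ) + 1) ^ 2 * t (k + 1)) * h2 +
      (2 * (2 * (k : ℚ) + 1) * ((2 * k).choose k : ℚ)) * h3
  set F : ℚ⟦X⟧ := PowerSeries.mk t with hF
  have hode : d⁄dX ℚ (q α * d⁄dX ℚ F) = C β * F := by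
    ext m
    rw [coeff_derivative, coeff_q_d, coeff_C_mul, hF, coeff_mk, coeff_mk]
    linear_combination ht m
  have hL := L_sq α β F hode
  have hH := L_H α β c hcrec (n + 1)
  -- cancel `q`
  have hH2 : L α β (H α c (n + 1)) = -(q' α * C (c (n + 1) * (((n + 1 : ℕ) : ℚ)) ^ 3)) * q α ^ n := by
    apply mul_left_cancel₀ (q_ne α)
    rw [hH, pow_succ]; ring
  have hd : coeff n (F ^ 2 - H α c (n + 1)) = 0 := by
    apply unique α β _ n
    · have e1 : coeff 0 (H α c (n + 1)) = 1 := by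
        unfold H
        rw [map_sum, Finset.sum_range_succ']
        have e2 : ∑ i ∈ range n, coeff 0 (C (c (i + 1)) * q α ^ (i + 1)) = 0 := by
          apply Finset.sum_eq_zero
          intro i _
          exact coeff_q_pow_of_lt α _ (i + 1) 0 (by omega)
        rw [e2, pow_zero, mul_one, zero_add]
        simp [hc, h0]
      have e3 : coeff 0 (F ^ 2) = 1 := by
        rw [coeff_zero_eq_constantCoeff_apply, map_pow, ← coeff_zero_eq_constantCoeff_apply, hF,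
          coeff_mk, h0, one_pow]
      rw [map_sub, e1, e3, sub_self]
    · intro m hm
      rw [L_sub, hL, hH2, map_sub, coeff_q_pow_of_lt α _ _ _ hm]
      simp
    · exact le_rfl
  rw [map_sub, sub_eq_zero, pow_two, coeff_mul, Finset.Nat.sum_antidiagonal_eq_sum_range_succ_mk] at hd
  have h5 : ∀ k ∈ range (n + 1), t k * t (n - k) = coeff k F * coeff (n - k) F := by
    intro k _
    rw [hF, coeff_mk, coeff_mk]
  rw [Finset.sum_congr rfl h5]
  rw [hd]
  unfold H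
  rw [map_sum]
  refine Finset.sum_congr rfl fun k hk => ?_
  rw [Finset.mem_range] at hk
  rw [coeff_C_mul, coeff_q_pow α k n (by omega)]

end Q277.Clausen
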