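import Mathlib

/-!
# The sum `∑ C(2j,j)/(3j+1)` modulo a prime

A polynomial identity over `ZMod p` coming from the multiplication by `√-3` on the elliptic curve
`y² = 1 - 4 t³`.
-/

open Finset Polynomial

namespace Q277.CubicSum

variable {p : ℕ} [hp : Fact p.Prime]

/-- the operator `g ↦ g + 3 X g'` -/
noncomputable def Dop (g : (ZMod p)[X]) : (ZMod p)[X] := g + C 3 * (X * derivative g)

theorem coeff_Dop (g : (ZMod p)[X]) (i : ℕ) :
    (Dop g).coeff i = (3 * (i : ZMod p) + 1) * g.coeff i := by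
  unfold Dop
  rw [coeff_add, coeff_C_mul]
  rcases i with _ | i
  · simp
  · rw [coeff_X_mul, coeff_derivative]
    push_cast; ring

theorem Dop_add (g h : (ZMod p)[X]) : Dop (g + h) = Dop g + Dop h := by
  unfold Dop; rw [derivative_add]; ring

theorem Dop_sub (g h : (ZMod p)[X]) : Dop (g - h) = Dop g - Dop h := by
  unfold Dop; rw [derivative_sub]; ring

theorem Dop_sum {ι : Type*} (s : Finset ι) (f : ι → (ZMod p)[X]) :
    Dop (∑ i ∈ s, f i) = ∑ i ∈ s, Dop (f i) := by
  unfold Dop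
  rw [derivative_sum, Finset.sum_add_distrib, Finset.mul_sum, Finset.mul_sum]

theorem Dop_C_mul (c : ZMod p) (g : (ZMod p)[X]) : Dop (C c * g) = C c * Dop g := by
  unfold Dop; rw [derivative_C_mul]; ring

theorem Dop_X_pow (j : ℕ) : Dop (X ^ j : (ZMod p)[X]) = C (3 * (j : ZMod p) + 1) * X ^ j := by
  ext i
  rw [coeff_Dop, coeff_C_mul, coeff_X_pow]
  split_ifs with h
  · subst h; ring
  · ring

/-- multiplication by a `p`-th power -/
theorem Dop_pow_mul (u g : (ZMod p)[X]) : Dop (u ^ p * g) = u ^ p * Dop g := by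
  unfold Dop
  have h : derivative (u ^ p) = 0 := by
    rw [derivative_pow]
    simp
  rw [derivative_mul, h]; ring

theorem eval_eq_sum' (g : (ZMod p)[X]) (N : ℕ) (hN : g.natDegree < N) (x : ZMod p) :
    g.eval x = ∑ i ∈ range N, g.coeff i * x ^ i :=
  eval_eq_sum_range' hN x

/-- the coefficients -/
noncomputable def a (p : ℕ) [Fact p.Prime] (n j : ℕ) : ZMod p :=
  (n.choose j : ZMod p) * (-4) ^ j / (3 * (j : ZMod p) + 1)

/-- `φ = ∑ a_j X^j` -/
noncomputable def phi (p : ℕ) [Fact p.Prime] (n : ℕ) : (ZMod p)[X] :=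
  ∑ j ∈ range (n + 1), C (a p n j) * X ^ j

/-- `α = ∑ a_j 3^{-(3j+1)} X^{2(n-j)} (1-X)^{3j+1}` -/
noncomputable def al (p : ℕ) [Fact p.Prime] (n : ℕ) : (ZMod p)[X] :=
  ∑ j ∈ range (n + 1), C (a p n j * (3⁻¹) ^ (3 * j + 1)) * (X ^ (2 * (n - j)) * (1 - X) ^ (3 * j + 1))

theorem Dop_term (n j : ℕ) (hpn : p = 2 * n + 1) (hj : j ≤ n) :
    Dop (X ^ (2 * (n - j)) * (1 - X) ^ (3 * j + 1) : (ZMod p)[X]) =
      -(C (3 * (j : ZMod p) + 1) * (X ^ (2 * (n - j)) * (1 - X) ^ (3 * j) * (X + C 2))) := by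
  have hp0 : ((2 * n + 1 : ℕ) : ZMod p) = 0 := by
    rw [← hpn]; exact CharP.cast_eq_zero (ZMod p) p
  have hn2 : (2 : ZMod p) * n = -1 := by
    push_cast at hp0; linear_combination hp0
  obtain ⟨k, rfl⟩ : ∃ k, n = j + k := ⟨n - j, by omega⟩
  rw [Nat.add_sub_cancel_left]
  unfold Dop
  rw [derivative_mul, derivative_pow, derivative_pow]
  have e1 : (derivative (1 - X : (ZMod p)[X])) = -1 := by simp
  have e2 : X * (C (((2 * k : ℕ)) : ZMod p) * (X : (ZMod p)[X]) ^ (2 * k - 1) * derivative X) =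
      C ((2 * k : ℕ) : ZMod p) * X ^ (2 * k) := by
    rcases Nat.eq_zero_or_pos k with h | h
    · subst h; simp
    · obtain ⟨k', rfl⟩ : ∃ k', k = k' + 1 := ⟨k - 1, by omega⟩
      have : 2 * (k' + 1) - 1 = 2 * k' + 1 := by omega
      rw [this, derivative_X, mul_one, show 2 * (k' + 1) = 2 * k' + 1 + 1 by ring,
        pow_succ X (2 * k' + 1)]
      ring
  rw [e1]
  have e3 : 3 * j + 1 - 1 = 3 * j := by omega
  rw [e3]
  have e4 : (C ((2 * k : ℕ) : ZMod p) : (ZMod p)[X]) = C (-1 - 2 * (j : ZMod p)) := by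
    congr 1
    push_cast at hn2 ⊢
    linear_combination hn2
  have e5 : (X : (ZMod p)[X]) * (C (((2 * k : ℕ)) : ZMod p) * (X : (ZMod p)[X]) ^ (2 * k - 1) * derivative X *
      (1 - X) ^ (3 * j + 1) + X ^ (2 * k) * (C (((3 * j + 1 : ℕ)) : ZMod p) * (1 - X) ^ (3 * j) * -1)) =
      C (-1 - 2 * (j : ZMod p)) * X ^ (2 * k) * (1 - X) ^ (3 * j + 1) -
        C (3 * (j : ZMod p) + 1) * X * X ^ (2 * k) * (1 - X) ^ (3 * j) := by
    rw [mul_add, ← mul_assoc, e2, e4]
    push_cast
    ring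
  rw [e5, pow_succ (1 - X) (3 * j)]
  simp only [map_add, map_sub, map_mul, map_neg, map_one, map_natCast, map_ofNat]
  ring

theorem Dop_al (n : ℕ) (hpn : p = 2 * n + 1) :
    Dop (al p n) = -(C (3⁻¹) * (X + C 2) * ∑ j ∈ range (n + 1),
      C ((3 * (j : ZMod p) + 1) * a p n j * (27⁻¹) ^ j) * (X ^ (2 * (n - j)) * (1 - X) ^ (3 * j))) := by
  unfold al
  rw [Dop_sum, Finset.mul_sum, ← Finset.sum_neg_distrib]
  refine Finset.sum_congr rfl fun j hj => ?_
  rw [Finset.mem_range] at hj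
  rw [Dop_C_mul, Dop_term n j hpn (by omega)]
  have h27 : (27 : ZMod p)⁻¹ = 3⁻¹ * 3⁻¹ * 3⁻¹ := by
    rw [← mul_inv, ← mul_inv]; norm_num
  have h3 : ((3 : ZMod p)⁻¹) ^ (3 * j + 1) = 3⁻¹ * (27⁻¹) ^ j := by
    rw [h27, pow_succ, pow_mul]
    have : ((3 : ZMod p)⁻¹) ^ 3 = 3⁻¹ * 3⁻¹ * 3⁻¹ := by ring
    rw [this]; ring
  rw [h3]
  simp only [map_mul]
  ring

/-- the key polynomial identity -/
theorem key_poly (n : ℕ) (h3 : (3 : ZMod p) ≠ 0) :
    ∑ j ∈ range (n + 1), C ((n.choose j : ZMod p) * (-4) ^ j * (27⁻¹) ^ j) *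
      (X ^ (2 * (n - j)) * (1 - X) ^ (3 * j)) =
    (C ((-27)⁻¹ ^ n) * (X + C 2) ^ (2 * n) * (1 - C 4 * X) ^ n : (ZMod p)[X]) := by
  have h27 : (27 : ZMod p) ≠ 0 := by
    have : (27 : ZMod p) = 3 ^ 3 := by norm_num
    rw [this]; exact pow_ne_zero _ h3
  have e1 : (∑ j ∈ range (n + 1), C ((n.choose j : ZMod p) * (-4) ^ j * (27⁻¹) ^ j) *
      (X ^ (2 * (n - j)) * (1 - X) ^ (3 * j)) : (ZMod p)[X]) =
      (C ((-4) * 27⁻¹) * (1 - X) ^ 3 + X ^ 2) ^ n := by
    rw [add_pow]
    refine Finset.sum_congr rfl fun j _ => ?_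
    simp only [map_mul, map_natCast, map_pow, mul_pow, ← pow_mul]
    ring
  have e2 : (C ((-4) * 27⁻¹) * (1 - X) ^ 3 + X ^ 2 : (ZMod p)[X]) =
      C ((-27)⁻¹) * ((X + C 2) ^ 2 * (1 - C 4 * X)) := by
    have hC : (C (27 : ZMod p) : (ZMod p)[X]) ≠ 0 := by
      rw [Ne, C_eq_zero]; exact h27
    apply mul_left_cancel₀ hC
    have e4 : (C (27 : ZMod p) : (ZMod p)[X]) * C ((-4) * 27⁻¹) = C (-4) := by
      rw [← C_mul]; congr 1; field_simp
    have e5 : (C (27 : ZMod p) : (ZMod p)[X]) * C ((-27)⁻¹) = C (-1) := by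
      rw [← C_mul]; congr 1
      rw [inv_neg]; field_simp
    rw [mul_add, ← mul_assoc, e4, ← mul_assoc, e5]
    simp only [map_neg, map_one, map_ofNat]
    ring
  rw [e1, e2, mul_pow, mul_pow, ← pow_mul, ← C_pow]
  ring

/-! ### degrees and values -/

theorem natDegree_phi (n : ℕ) : (phi p n).natDegree ≤ n := by
  unfold phi
  apply natDegree_sum_le_of_forall_le
  intro j hj
  rw [Finset.mem_range] at hj
  exact le_trans (natDegree_C_mul_X_pow_le _ _) (by omega)

theorem natDegree_pow_mul_phi (n : ℕ) :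
    ((X + C 2 : (ZMod p)[X]) ^ p * phi p n).natDegree ≤ p + n := by
  refine le_trans natDegree_mul_le ?_
  apply add_le_add _ (natDegree_phi n)
  refine le_trans natDegree_pow_le ?_
  have : (X + C 2 : (ZMod p)[X]).natDegree ≤ 1 := by
    refine le_trans (natDegree_add_le _ _) ?_
    simp
  calc p * (X + C 2 : (ZMod p)[X]).natDegree ≤ p * 1 := Nat.mul_le_mul_left _ this
    _ = p := mul_one p

theorem natDegree_al (n : ℕ) (hpn : p = 2 * n + 1) : (al p n).natDegree ≤ p + n := by
  unfold al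
  apply natDegree_sum_le_of_forall_le
  intro j hj
  rw [Finset.mem_range] at hj
  refine le_trans natDegree_mul_le ?_
  rw [natDegree_C, zero_add]
  refine le_trans natDegree_mul_le ?_
  have h1 : ((1 - X : (ZMod p)[X]) ^ (3 * j + 1)).natDegree ≤ 3 * j + 1 := by
    refine le_trans natDegree_pow_le ?_
    have : (1 - X : (ZMod p)[X]).natDegree ≤ 1 := by
      refine le_trans (natDegree_sub_le _ _) ?_
      simp
    calc (3 * j + 1) * (1 - X : (ZMod p)[X]).natDegree ≤ (3 * j + 1) * 1 :=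
          Nat.mul_le_mul_left _ this
      _ = 3 * j + 1 := mul_one _
  have h2 : ((X : (ZMod p)[X]) ^ (2 * (n - j))).natDegree ≤ 2 * (n - j) := natDegree_X_pow_le _
  omega

theorem eval_phi (n : ℕ) (x : ZMod p) :
    (phi p n).eval x = ∑ j ∈ range (n + 1), a p n j * x ^ j := by
  unfold phi
  rw [eval_finsetSum]
  refine Finset.sum_congr rfl fun j _ => ?_
  simp

theorem eval_al (n : ℕ) (x : ZMod p) :
    (al p n).eval x = ∑ j ∈ range (n + 1),
      a p n j * (3⁻¹) ^ (3 * j + 1) * (x ^ (2 * (n - j)) * (1 - x) ^ (3 * j + 1)) := by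
  unfold al
  rw [eval_finsetSum]
  refine Finset.sum_congr rfl fun j _ => ?_
  simp

theorem four_pow (n : ℕ) (hpn : p = 2 * n + 1) (h2 : (2 : ZMod p) ≠ 0) : (4 : ZMod p) ^ n = 1 := by
  have := ZMod.pow_card_sub_one_eq_one h2
  rw [show p - 1 = 2 * n by omega, pow_mul] at this
  norm_num at this
  exact this

/-- `B = ∑ a_j 4^{n-j}` -/
noncomputable def B (p : ℕ) [Fact p.Prime] (n : ℕ) : ZMod p :=
  ∑ j ∈ range (n + 1), a p n j * 4 ^ (n - j)

theorem eval_al_neg_two (n : ℕ) (h3 : (3 : ZMod p) ≠ 0) : (al p n).eval (-2) = B p n := by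
  rw [eval_al]
  unfold B
  refine Finset.sum_congr rfl fun j _ => ?_
  have e1 : (1 - (-2) : ZMod p) = 3 := by norm_num
  rw [e1, pow_mul]
  have e2 : ((-2 : ZMod p)) ^ 2 = 4 := by norm_num
  rw [e2, inv_pow]
  field_simp

theorem eval_al_one (n : ℕ) : (al p n).eval 1 = 0 := by
  rw [eval_al]
  apply Finset.sum_eq_zero
  intro j _
  simp

theorem eval_phi_quarter (n : ℕ) (hpn : p = 2 * n + 1) (h2 : (2 : ZMod p) ≠ 0) :
    (phi p n).eval (4⁻¹) = B p n := by
  have h4 : (4 : ZMod p) ≠ 0 := by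
    have : (4 : ZMod p) = 2 ^ 2 := by norm_num
    rw [this]; exact pow_ne_zero _ h2
  rw [eval_phi]
  unfold B
  refine Finset.sum_congr rfl fun j hj => ?_
  rw [Finset.mem_range] at hj
  have e1 := four_pow n hpn h2
  have e2 : (4 : ZMod p) ^ n = 4 ^ (n - j) * 4 ^ j := by rw [← pow_add]; congr 1; omega
  rw [e2] at e1
  have e3 : (4⁻¹ : ZMod p) ^ j = 4 ^ (n - j) := by
    rw [inv_pow]
    field_simp
    rw [mul_comm] at e1
    exact e1.symm
  rw [e3]

theorem eval_al_quarter (n : ℕ) (hpn : p = 2 * n + 1) (h2 : (2 : ZMod p) ≠ 0)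
    (h3 : (3 : ZMod p) ≠ 0) : (al p n).eval (4⁻¹) = 4⁻¹ * B p n := by
  have h4 : (4 : ZMod p) ≠ 0 := by
    have : (4 : ZMod p) = 2 ^ 2 := by norm_num
    rw [this]; exact pow_ne_zero _ h2
  rw [eval_al, ← eval_phi_quarter n hpn h2, eval_phi, Finset.mul_sum]
  refine Finset.sum_congr rfl fun j hj => ?_
  rw [Finset.mem_range] at hj
  have e1 : (1 - 4⁻¹ : ZMod p) = 3 * 4⁻¹ := by
    field_simp; norm_num
  have e2 : ((3 : ZMod p)⁻¹) ^ (3 * j + 1) * (3 * 4⁻¹) ^ (3 * j + 1) = (4⁻¹) ^ (3 * j + 1) := by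
    rw [← mul_pow]; congr 1; field_simp
  have e3 := four_pow n hpn h2
  have e4 : (4⁻¹ : ZMod p) ^ (2 * (n - j)) * (4⁻¹) ^ (3 * j + 1) = 4⁻¹ * (4⁻¹) ^ j := by
    rw [← pow_add]
    have e5 : 2 * (n - j) + (3 * j + 1) = n + n + (j + 1) := by omega
    rw [e5, pow_add, pow_add, inv_pow (4 : ZMod p) n, e3, pow_succ]
    simp [mul_comm]
  rw [e1]
  calc a p n j * 3⁻¹ ^ (3 * j + 1) * (4⁻¹ ^ (2 * (n - j)) * (3 * 4⁻¹) ^ (3 * j + 1))
      = a p n j * 4⁻¹ ^ (2 * (n - j)) * (3⁻¹ ^ (3 * j + 1) * (3 * 4⁻¹) ^ (3 * j + 1)) := by ring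
    _ = a p n j * (4⁻¹ ^ (2 * (n - j)) * (4⁻¹) ^ (3 * j + 1)) := by rw [e2]; ring
    _ = _ := by rw [e4]; ring

/-! ### the quadratic character of `-3` -/

theorem neg_three_pow_two (n : ℕ) (hpn : p = 2 * n + 1) (h3 : (3 : ZMod p) ≠ 0)
    (hmod : p % 3 = 2) (h2 : (2 : ZMod p) ≠ 0) : (-3 : ZMod p) ^ n = -1 := by
  have hne : (-3 : ZMod p) ≠ 0 := neg_ne_zero.2 h3
  have h := ZMod.pow_div_two_eq_neg_one_or_one p hne
  have hn : p / 2 = n := by omega
  rw [hn] at h
  rcases h with h | h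
  · exfalso
    have hsq : IsSquare (-3 : ZMod p) := by
      rw [ZMod.euler_criterion p hne, hn]; exact h
    obtain ⟨y, hy⟩ := hsq
    set ω : ZMod p := (y - 1) * 2⁻¹ with hω
    have hω2 : 2 * ω = y - 1 := by rw [hω]; field_simp
    have hw : ω ^ 2 + ω + 1 = 0 := by
      have h4 : (4 : ZMod p) * (ω ^ 2 + ω + 1) = 0 := by
        have : (4 : ZMod p) * (ω ^ 2 + ω + 1) = (2 * ω) ^ 2 + 2 * (2 * ω) + 4 := by ring
        rw [this, hω2]
        linear_combination -hy
      have h4' : (4 : ZMod p) ≠ 0 := by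
        have : (4 : ZMod p) = 2 ^ 2 := by norm_num
        rw [this]; exact pow_ne_zero _ h2
      exact (mul_eq_zero.1 h4).resolve_left h4'
    have hw3 : ω ^ 3 = 1 := by linear_combination (ω - 1) * hw
    have hw0 : ω ≠ 0 := by
      intro h0; rw [h0] at hw; norm_num at hw
    have hfer := ZMod.pow_card_sub_one_eq_one hw0
    obtain ⟨k, hk⟩ : ∃ k, p - 1 = 3 * k + 1 := ⟨(p - 2) / 3, by omega⟩
    rw [hk, pow_succ, pow_mul, hw3, one_pow, one_mul] at hfer
    rw [hfer] at hw
    apply h3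
    linear_combination hw
  · exact h

theorem neg_three_pow_one (n : ℕ) (hpn : p = 2 * n + 1) (h3 : (3 : ZMod p) ≠ 0)
    (hmod : p % 3 = 1) : (-3 : ZMod p) ^ n = 1 := by
  have hne : (-3 : ZMod p) ≠ 0 := neg_ne_zero.2 h3
  have hn : p / 2 = n := by omega
  have hcard : Fintype.card (ZMod p)ˣ = p - 1 := ZMod.card_units p
  have hdvd : 3 ∣ Fintype.card (ZMod p)ˣ := by rw [hcard]; omega
  have : Fact (Nat.Prime 3) := ⟨Nat.prime_three⟩
  obtain ⟨w, hw⟩ := exists_prime_orderOf_dvd_card 3 hdvd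
  have hw3 : (w : ZMod p) ^ 3 = 1 := by
    have := pow_orderOf_eq_one w
    rw [hw] at this
    have := congrArg (Units.val : (ZMod p)ˣ → ZMod p) this
    simpa using this
  have hw1 : (w : ZMod p) ≠ 1 := by
    intro h
    have : w = 1 := Units.ext h
    rw [this, orderOf_one] at hw
    omega
  have hq : (w : ZMod p) ^ 2 + w + 1 = 0 := by
    have h0 : ((w : ZMod p) - 1) * ((w : ZMod p) ^ 2 + w + 1) = 0 := by linear_combination hw3
    exact (mul_eq_zero.1 h0).resolve_left (sub_ne_zero.2 hw1)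
  have hsq : IsSquare (-3 : ZMod p) := ⟨2 * (w : ZMod p) + 1, by linear_combination -4 * hq⟩
  rw [ZMod.euler_criterion p hne, hn] at hsq
  exact hsq

/-! ### binomials in `ZMod p` -/

theorem natCast_ne_zero {k : ℕ} (hk : 0 < k) (hkp : k < p) : (k : ZMod p) ≠ 0 := by
  intro h
  rw [ZMod.natCast_eq_zero_iff] at h
  have := Nat.le_of_dvd hk h
  omega

theorem two_n (n : ℕ) (hpn : p = 2 * n + 1) : (2 : ZMod p) * n = -1 := by
  have hp0 : ((2 * n + 1 : ℕ) : ZMod p) = 0 := by
    rw [← hpn]; exact CharP.cast_eq_zero (ZMod p) p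
  push_cast at hp0; linear_combination hp0

/-- `C(2j,j) = C(n,j) (-4)^j` -/
theorem central (n j : ℕ) (hpn : p = 2 * n + 1) (hj : j < p) :
    (((2 * j).choose j : ℕ) : ZMod p) = (n.choose j : ZMod p) * (-4) ^ j := by
  induction j with
  | zero => simp
  | succ j ih =>
    have ih' := ih (by omega)
    have h1 : ((j : ZMod p) + 1) ≠ 0 := by
      have := natCast_ne_zero (p := p) (k := j + 1) (by omega) hj
      push_cast at this; exact this
    have e1 : ((j : ZMod p) + 1) * (((2 * (j + 1)).choose (j + 1) : ℕ) : ZMod p) =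
        2 * (2 * j + 1) * (((2 * j).choose j : ℕ) : ZMod p) := by
      have := Nat.succ_mul_centralBinom_succ j
      rw [Nat.centralBinom_eq_two_mul_choose, Nat.centralBinom_eq_two_mul_choose] at this
      have h3 := congrArg (Nat.cast : ℕ → ZMod p) this
      push_cast at h3
      exact h3
    have e2 : ((j : ZMod p) + 1) * (n.choose (j + 1) : ZMod p) =
        ((n : ZMod p) - j) * (n.choose j : ZMod p) := by
      rcases Nat.lt_or_ge n j with h | h
      · rw [Nat.choose_eq_zero_of_lt h, Nat.choose_eq_zero_of_lt (by omega : n < j + 1)]; simp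
      · have h2 := Nat.choose_succ_right_eq n j
        have h3 := congrArg (Nat.cast : ℕ → ZMod p) h2
        push_cast [Nat.cast_sub h] at h3
        linear_combination h3
    have hn2 := two_n n hpn
    apply mul_left_cancel₀ h1
    rw [e1, ih', pow_succ]
    linear_combination (4 * (-4) ^ j) * e2 + 2 * (n.choose j : ZMod p) * (-4) ^ j * hn2

/-- `C(n+k,k) 4^k = C(2k,k)` -/
theorem central' (n k : ℕ) (hpn : p = 2 * n + 1) (hk : k < p) :
    (((n + k).choose k : ℕ) : ZMod p) * 4 ^ k = (((2 * k).choose k : ℕ) : ZMod p) := by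
  induction k with
  | zero => simp
  | succ k ih =>
    have ih' := ih (by omega)
    have h1 : ((k : ZMod p) + 1) ≠ 0 := by
      have := natCast_ne_zero (p := p) (k := k + 1) (by omega) hk
      push_cast at this; exact this
    have e1 : ((k : ZMod p) + 1) * (((2 * (k + 1)).choose (k + 1) : ℕ) : ZMod p) =
        2 * (2 * k + 1) * (((2 * k).choose k : ℕ) : ZMod p) := by
      have := Nat.succ_mul_centralBinom_succ k
      rw [Nat.centralBinom_eq_two_mul_choose, Nat.centralBinom_eq_two_mul_choose] at this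
      have h3 := congrArg (Nat.cast : ℕ → ZMod p) this
      push_cast at h3
      exact h3
    have e2 : ((k : ZMod p) + 1) * (((n + (k + 1)).choose (k + 1) : ℕ) : ZMod p) =
        ((n : ZMod p) + k + 1) * (((n + k).choose k : ℕ) : ZMod p) := by
      have h2 := Nat.add_one_mul_choose_eq (n + k) k
      have h3 := congrArg (Nat.cast : ℕ → ZMod p) h2
      rw [show n + (k + 1) = (n + k).succ from rfl]
      push_cast at h3 ⊢
      linear_combination -h3
    have hn2 := two_n n hpn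
    apply mul_left_cancel₀ h1
    rw [e1, ← ih', pow_succ]
    linear_combination (4 * 4 ^ k) * e2 + 2 * (((n + k).choose k : ℕ) : ZMod p) * 4 ^ k * hn2

/-! ### the case `p ≡ 2 (mod 3)` -/

section two

variable (s n m : ℕ) (hps : p = 6 * s + 5) (hns : n = 3 * s + 2) (hms : m = 2 * s + 2)
include hps hns

theorem two_unit (j : ℕ) (hj : j ≤ n) : (3 * (j : ZMod p) + 1) ≠ 0 := by
  intro h
  have h1 : ((3 * j + 1 : ℕ) : ZMod p) = 0 := by push_cast; exact h
  rw [ZMod.natCast_eq_zero_iff] at h1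
  obtain ⟨c, hc⟩ := h1
  rcases Nat.lt_or_ge c 2 with h2 | h2
  · interval_cases c <;> omega
  · have : p * 2 ≤ p * c := Nat.mul_le_mul_left _ h2
    omega

theorem Dop_phi_two : Dop (phi p n) = (1 - C 4 * X : (ZMod p)[X]) ^ n := by
  unfold phi
  rw [Dop_sum]
  have e : (1 - C 4 * X : (ZMod p)[X]) = C (-4) * X + 1 := by
    simp only [map_neg]; ring
  rw [e, add_pow]
  refine Finset.sum_congr rfl fun j hj => ?_
  rw [Finset.mem_range] at hj
  rw [Dop_C_mul, Dop_X_pow, ← mul_assoc, ← C_mul]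
  have h1 := two_unit s n hps hns j (by omega)
  have h2 : a p n j * (3 * (j : ZMod p) + 1) = (n.choose j : ZMod p) * (-4) ^ j := by
    unfold a; field_simp
  rw [h2, one_pow, mul_one, mul_pow, ← C_pow, C_mul]
  simp only [map_natCast]
  ring

theorem kappa_two (h2 : (2 : ZMod p) ≠ 0) (h3 : (3 : ZMod p) ≠ 0) :
    Dop (al p n - C (3⁻¹) * ((X + C 2) ^ p * phi p n)) = 0 := by
  have hpn : p = 2 * n + 1 := by omega
  rw [Dop_sub, Dop_al n hpn, Dop_C_mul, Dop_pow_mul, Dop_phi_two s n hps hns]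
  have e1 : (∑ j ∈ range (n + 1), C ((3 * (j : ZMod p) + 1) * a p n j * (27⁻¹) ^ j) *
      (X ^ (2 * (n - j)) * (1 - X) ^ (3 * j)) : (ZMod p)[X]) =
      ∑ j ∈ range (n + 1), C ((n.choose j : ZMod p) * (-4) ^ j * (27⁻¹) ^ j) *
      (X ^ (2 * (n - j)) * (1 - X) ^ (3 * j)) := by
    refine Finset.sum_congr rfl fun j hj => ?_
    rw [Finset.mem_range] at hj
    have h1 := two_unit s n hps hns j (by omega)
    have h2 : (3 * (j : ZMod p) + 1) * a p n j = (n.choose j : ZMod p) * (-4) ^ j := by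
      unfold a; field_simp
    rw [h2]
  rw [e1, key_poly n h3]
  have e2 : ((-27 : ZMod p)⁻¹) ^ n = -1 := by
    have h4 := neg_three_pow_two n hpn h3 (by omega) h2
    have h5 : (-27 : ZMod p) = (-3) ^ 3 := by norm_num
    rw [h5, inv_pow, ← pow_mul, mul_comm 3 n, pow_mul, h4]
    norm_num
  rw [e2]
  have e3 : (X + C 2 : (ZMod p)[X]) ^ p = (X + C 2) ^ (2 * n) * (X + C 2) := by
    rw [← pow_succ, ← hpn]
  rw [e3]
  simp only [map_neg, map_one]
  ring

theorem eval_kappa_two (h2 : (2 : ZMod p) ≠ 0) (h3 : (3 : ZMod p) ≠ 0) :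
    ∃ h : ZMod p, ∀ x : ZMod p,
      (al p n - C (3⁻¹) * ((X + C 2) ^ p * phi p n)).eval x = h * x ^ (4 * s + 3) := by
  have hpn : p = 2 * n + 1 := by omega
  set κ := al p n - C (3⁻¹) * ((X + C 2) ^ p * phi p n) with hκ
  have hD := kappa_two s n hps hns h2 h3
  rw [← hκ] at hD
  refine ⟨κ.coeff (4 * s + 3), fun x => ?_⟩
  have hdeg : κ.natDegree < p + n + 1 := by
    have h1 := natDegree_al n hpn
    have h2 : (C (3⁻¹) * ((X + C 2) ^ p * phi p n) : (ZMod p)[X]).natDegree ≤ p + n :=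
      le_trans (natDegree_C_mul_le _ _) (natDegree_pow_mul_phi n)
    have := natDegree_sub_le_of_le h1 h2
    rw [← hκ] at this
    omega
  rw [eval_eq_sum' κ (p + n + 1) hdeg]
  apply Finset.sum_eq_single_of_mem
  · rw [Finset.mem_range]; omega
  · intro i hi hne
    rw [Finset.mem_range] at hi
    have h1 := coeff_Dop κ i
    rw [hD, coeff_zero] at h1
    have h4 : (3 * (i : ZMod p) + 1) ≠ 0 := by
      intro h
      have h1 : ((3 * i + 1 : ℕ) : ZMod p) = 0 := by push_cast; exact h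
      rw [ZMod.natCast_eq_zero_iff] at h1
      obtain ⟨c, hc⟩ := h1
      rcases Nat.lt_or_ge c 5 with h2 | h2
      · interval_cases c <;> omega
      · have : p * 5 ≤ p * c := Nat.mul_le_mul_left _ h2
        omega
    have h5 := (mul_eq_zero.1 h1.symm).resolve_left h4
    rw [h5, zero_mul]

include hms

theorem main_two (h2 : (2 : ZMod p) ≠ 0) (h3 : (3 : ZMod p) ≠ 0) :
    (∑ j ∈ range (n + 1), a p n j) * (((2 * m).choose m : ℕ) : ZMod p) = 2 := by
  have hpn : p = 2 * n + 1 := by omega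
  obtain ⟨h, hh⟩ := eval_kappa_two s n hps hns h2 h3
  have e1 := hh 1
  have e2 := hh (-2)
  simp only [eval_sub, eval_mul, eval_C, eval_pow, eval_add, eval_X] at e1 e2
  rw [eval_al_one, one_pow, mul_one] at e1
  rw [eval_al_neg_two n h3, neg_add_cancel, zero_pow hp.out.ne_zero, zero_mul, mul_zero,
    sub_zero] at e2
  have e3 : (1 + 2 : ZMod p) ^ p = 3 := by
    have : (1 + 2 : ZMod p) = 3 := by norm_num
    rw [this]; exact ZMod.pow_card 3
  rw [e3, eval_phi] at e1
  simp only [one_pow, mul_one] at e1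
  have e4 : ∑ j ∈ range (n + 1), a p n j = -h := by
    rw [← e1]; field_simp; ring
  -- evaluate `B`
  have hB : B p n * (((m + n).choose n : ℕ) : ZMod p) = 1 := by
    have hb : B p n = ∑ j ∈ range (n + 1), (n.choose j : ZMod p) * (-1) ^ j / (3 * (j : ZMod p) + 1) := by
      unfold B
      refine Finset.sum_congr rfl fun j hj => ?_
      rw [Finset.mem_range] at hj
      unfold a
      have h5 := four_pow n hpn h2
      have h6 : (4 : ZMod p) ^ n = 4 ^ (n - j) * 4 ^ j := by rw [← pow_add]; congr 1; omega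
      rw [h6] at h5
      have h7 : (-4 : ZMod p) ^ j = (-1) ^ j * 4 ^ j := by rw [← mul_pow]; norm_num
      rw [h7, div_mul_eq_mul_div]
      congr 1
      linear_combination ((n.choose j : ZMod p) * (-1) ^ j) * h5
    have h3m : (3 : ZMod p) * m = 1 := by
      have : ((3 * m : ℕ) : ZMod p) = ((p + 1 : ℕ) : ZMod p) := by congr 1; omega
      push_cast at this
      rw [this]; simp
    have rec1 : ∀ k, k ≤ n →
        (∑ j ∈ range (k + 1), (k.choose j : ZMod p) * (-1) ^ j / (3 * (j : ZMod p) + 1)) *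
          (((m + k).choose k : ℕ) : ZMod p) = 1 := by
      intro k
      induction k with
      | zero => intro _; simp
      | succ k ih =>
        intro hk
        have ih' := ih (by omega)
        have hu := two_unit s n hps hns (k + 1) hk
        have hk1 : ((k : ZMod p) + 1) ≠ 0 := by
          have := natCast_ne_zero (p := p) (k := k + 1) (by omega) (by omega)
          push_cast at this; exact this
        -- `(3(k+1)+1) b(k+1) = 3 (k+1) b(k)`
        have r1 : (3 * ((k + 1 : ℕ) : ZMod p) + 1) *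
            (∑ j ∈ range (k + 1 + 1), ((k + 1).choose j : ZMod p) * (-1) ^ j / (3 * (j : ZMod p) + 1)) =
            3 * ((k + 1 : ℕ) : ZMod p) *
              ∑ j ∈ range (k + 1), (k.choose j : ZMod p) * (-1) ^ j / (3 * (j : ZMod p) + 1) := by
          have r2 : ∑ j ∈ range (k + 1 + 1), ((k + 1).choose j : ZMod p) * (-1) ^ j = 0 := by
            have := Int.alternating_sum_range_choose_of_ne (n := k + 1) (by omega)
            have := congrArg (Int.cast : ℤ → ZMod p) this
            push_cast at this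
            rw [← this]
            exact Finset.sum_congr rfl fun j _ => by ring
          rw [Finset.mul_sum, Finset.mul_sum]
          have r3 : ∀ j ∈ range (k + 1 + 1), (3 * ((k + 1 : ℕ) : ZMod p) + 1) *
              (((k + 1).choose j : ZMod p) * (-1) ^ j / (3 * (j : ZMod p) + 1)) =
              ((k + 1).choose j : ZMod p) * (-1) ^ j +
              3 * ((k + 1 : ℕ) : ZMod p) * ((k.choose j : ZMod p) * (-1) ^ j / (3 * (j : ZMod p) + 1)) := by
            intro j hj
            rw [Finset.mem_range] at hj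
            have hu' := two_unit s n hps hns j (by omega)
            have r4 : ((k + 1 : ℕ) : ZMod p) * (k.choose j : ZMod p) =
                (((k + 1 : ℕ) : ZMod p) - j) * ((k + 1).choose j : ZMod p) := by
              have h8 := Nat.choose_mul_succ_eq k j
              have h9 := congrArg (Nat.cast : ℕ → ZMod p) h8
              push_cast [Nat.cast_sub (by omega : j ≤ k + 1)] at h9 ⊢
              linear_combination h9
            field_simp
            linear_combination (-3) * r4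
          rw [Finset.sum_congr rfl r3, Finset.sum_add_distrib, r2, zero_add,
            Finset.sum_range_succ _ (k + 1)]
          rw [Nat.choose_eq_zero_of_lt (by omega : k < k + 1)]
          simp
        have r5 : ((k + 1 : ℕ) : ZMod p) * (((m + (k + 1)).choose (k + 1) : ℕ) : ZMod p) =
            ((m : ZMod p) + (k + 1 : ℕ)) * (((m + k).choose k : ℕ) : ZMod p) := by
          have h2 := Nat.add_one_mul_choose_eq (m + k) k
          have h3 := congrArg (Nat.cast : ℕ → ZMod p) h2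
          rw [show m + (k + 1) = (m + k).succ from rfl]
          push_cast at h3 ⊢
          linear_combination -h3
        set b1 := ∑ j ∈ range (k + 1 + 1), ((k + 1).choose j : ZMod p) * (-1) ^ j / (3 * (j : ZMod p) + 1)
        set b0 := ∑ j ∈ range (k + 1), (k.choose j : ZMod p) * (-1) ^ j / (3 * (j : ZMod p) + 1)
        have hne : (3 * ((k + 1 : ℕ) : ZMod p) + 1) * ((k + 1 : ℕ) : ZMod p) ≠ 0 := by
          refine mul_ne_zero hu ?_
          push_cast; exact hk1
        apply mul_left_cancel₀ hne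
        linear_combination ((k + 1 : ℕ) : ZMod p) * (((m + (k + 1)).choose (k + 1) : ℕ) : ZMod p) * r1 +
          3 * ((k + 1 : ℕ) : ZMod p) * b0 * r5 +
          3 * ((k + 1 : ℕ) : ZMod p) * ((m : ZMod p) + (k + 1 : ℕ)) * ih' +
          ((k + 1 : ℕ) : ZMod p) * h3m
    rw [hb]
    exact rec1 n le_rfl
  have hC := central' n m hpn (by omega)
  have hsym : (m + n).choose n = (n + m).choose m := by
    rw [add_comm m n, Nat.choose_symm_add]
  rw [hsym] at hB
  have e5 : ((-2 : ZMod p)) ^ (4 * s + 3) * (-2) = 4 ^ m := by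
    rw [← pow_succ, show 4 * s + 3 + 1 = 2 * m by omega, pow_mul]; norm_num
  rw [e4, ← hC]
  have h4m : (4 : ZMod p) ^ m ≠ 0 := by
    have : (4 : ZMod p) = 2 ^ 2 := by norm_num
    rw [this]; exact pow_ne_zero _ (pow_ne_zero _ h2)
  -- `h * (-2)^(4s+3) = B`
  have e6 : h * 4 ^ m = -2 * B p n := by rw [← e5, e2]; ring
  linear_combination (-(((n + m).choose m : ℕ) : ZMod p)) * e6 + 2 * hB

end two

/-! ### the case `p ≡ 1 (mod 3)` -/

/-- `L(x) = ∑_{i=1}^{p-1} x^i / i` -/
noncomputable def LL (p : ℕ) [Fact p.Prime] (x : ZMod p) : ZMod p :=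
  ∑ i ∈ range (p - 1), x ^ (i + 1) / ((i : ZMod p) + 1)

theorem choose_pred (i : ℕ) (hi : i < p) : (((p - 1).choose i : ℕ) : ZMod p) = (-1) ^ i := by
  induction i with
  | zero => simp
  | succ i ih =>
    have ih' := ih (by omega)
    have h1 : ((i : ZMod p) + 1) ≠ 0 := by
      have := natCast_ne_zero (p := p) (k := i + 1) (by omega) hi
      push_cast at this; exact this
    have h2 := Nat.choose_succ_right_eq (p - 1) i
    have h3 := congrArg (Nat.cast : ℕ → ZMod p) h2
    have hp1 : 1 ≤ p := hp.out.one_lt.le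
    push_cast [Nat.cast_sub (by omega : i ≤ p - 1), Nat.cast_sub hp1] at h3
    have hp0' : (p : ZMod p) = 0 := CharP.cast_eq_zero _ _
    rw [hp0', ih'] at h3
    apply mul_right_cancel₀ h1
    rw [h3, pow_succ]; ring

/-- `L(x)` for an integer `x` -/
theorem LL_int (x Q : ℤ) (hodd : Odd p) (hQ : (p : ℤ) * Q = 1 - x ^ p - (1 - x) ^ p) :
    LL p (x : ZMod p) = (Q : ZMod p) := by
  have hp0 : 1 ≤ p := hp.out.one_lt.le
  -- `C(p, i+1) = p c_i`
  have hc : ∀ i ∈ range (p - 1), ∃ c : ℤ, ((p.choose (i + 1) : ℕ) : ℤ) = p * c ∧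
      ((c : ZMod p)) * ((i : ZMod p) + 1) = (-1) ^ i := by
    intro i hi
    rw [Finset.mem_range] at hi
    obtain ⟨c, hc⟩ := hp.out.dvd_choose_self (by omega : i + 1 ≠ 0) (by omega : i + 1 < p)
    refine ⟨c, by exact_mod_cast hc, ?_⟩
    have h1 := Nat.add_one_mul_choose_eq (p - 1) i
    rw [Nat.sub_add_cancel hp0, hc] at h1
    have h2 : (p - 1).choose i = c * (i + 1) := by
      have : p * (p - 1).choose i = p * (c * (i + 1)) := by rw [h1]; ring
      exact Nat.eq_of_mul_eq_mul_left hp.out.pos this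
    have h3 := choose_pred (p := p) i (by omega)
    rw [h2] at h3
    push_cast at h3 ⊢
    exact h3
  choose! c hc1 hc2 using hc
  have hexp : (1 - x) ^ p = 1 - x ^ p + p * ∑ i ∈ range (p - 1), c i * (-x) ^ (i + 1) := by
    have h1 : (1 - x) ^ p = ∑ i ∈ range (p + 1), (-x) ^ i * (p.choose i : ℤ) := by
      rw [sub_eq_neg_add, add_pow]
      exact Finset.sum_congr rfl fun i _ => by rw [one_pow, mul_one]
    rw [h1, Finset.sum_range_succ, Finset.sum_range_eq_add_Ico _ hp.out.pos,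
      Finset.sum_Ico_eq_sum_range, Finset.mul_sum]
    have h2 : ∑ k ∈ range (p - 1), (-x) ^ (1 + k) * ((p.choose (1 + k) : ℕ) : ℤ) =
        ∑ i ∈ range (p - 1), (p : ℤ) * (c i * (-x) ^ (i + 1)) := by
      refine Finset.sum_congr rfl fun i hi => ?_
      rw [add_comm 1 i, hc1 i hi]; ring
    rw [h2, hodd.neg_pow]
    simp only [pow_zero, Nat.choose_zero_right, Nat.choose_self, Nat.cast_one]
    ring
  have hQ2 : Q = -∑ i ∈ range (p - 1), c i * (-x) ^ (i + 1) := by
    have hpne : (p : ℤ) ≠ 0 := by exact_mod_cast hp.out.ne_zero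
    apply mul_left_cancel₀ hpne
    rw [hQ, hexp]; ring
  rw [hQ2]
  unfold LL
  push_cast
  rw [← Finset.sum_neg_distrib]
  refine Finset.sum_congr rfl fun i hi => ?_
  have h4 := hc2 i hi
  rw [Finset.mem_range] at hi
  have h1 : ((i : ZMod p) + 1) ≠ 0 := by
    have := natCast_ne_zero (p := p) (k := i + 1) (by omega) (by omega)
    push_cast at this; exact this
  rw [div_eq_iff h1]
  have h5 : ((-x : ZMod p)) ^ (i + 1) = (-1) ^ i * (-1) * (x : ZMod p) ^ (i + 1) := by
    rw [neg_pow]; ring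
  rw [h5]
  have h6 : ((-1 : ZMod p)) ^ i * (-1) ^ i = 1 := by rw [← mul_pow]; simp
  linear_combination (-((-1 : ZMod p) ^ i * (x : ZMod p) ^ (i + 1))) * h4 -
    ((x : ZMod p) ^ (i + 1)) * h6

theorem LL_inv (x : ZMod p) (hx : x ≠ 0) : x * LL p (x⁻¹) = -LL p x := by
  have hp0 : 1 < p := hp.out.one_lt
  unfold LL
  rw [← Finset.sum_range_reflect, Finset.mul_sum, ← Finset.sum_neg_distrib]
  refine Finset.sum_congr rfl fun i hi => ?_
  rw [Finset.mem_range] at hi
  have h1 : ((i : ZMod p) + 1) ≠ 0 := by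
    have := natCast_ne_zero (p := p) (k := i + 1) (by omega) (by omega)
    push_cast at this; exact this
  have e1 : p - 1 - 1 - i + 1 = p - (i + 1) := by omega
  have e2 : (((p - 1 - 1 - i : ℕ) : ZMod p) + 1) = -((i : ZMod p) + 1) := by
    have : (((p - 1 - 1 - i : ℕ) : ZMod p) + 1) = ((p - (i + 1) : ℕ) : ZMod p) := by
      rw [← e1]; push_cast; ring
    rw [this, Nat.cast_sub (by omega), CharP.cast_eq_zero]
    push_cast; ring
  rw [e1, e2]
  have e3 : x * (x⁻¹) ^ (p - (i + 1)) = x ^ (i + 1) := by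
    have hx2 : x ^ (p - (i + 1)) * x ^ (i + 1) = x := by
      rw [← pow_add, show p - (i + 1) + (i + 1) = p by omega]
      exact ZMod.pow_card x
    have hx3 : x ^ (p - (i + 1)) ≠ 0 := pow_ne_zero _ hx
    rw [inv_pow]
    field_simp
    exact hx2.symm
  rw [← mul_div_assoc, e3, div_neg]

section one

variable (s n m : ℕ) (hs : 1 ≤ s) (hps : p = 6 * s + 1) (hns : n = 3 * s) (hms : m = 2 * s)
include hps

/-- harmonic relation -/
theorem harmonic : (∑ i ∈ range (2 * s), 1 / ((i : ZMod p) + 1)) -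
    (∑ i ∈ range s, 1 / ((i : ZMod p) + 1)) + (∑ i ∈ range (3 * s), 1 / ((i : ZMod p) + 1)) = 0 := by
  have hs6 : (6 : ZMod p) * s = -1 := by
    have : ((6 * s + 1 : ℕ) : ZMod p) = 0 := by rw [← hps]; exact CharP.cast_eq_zero _ _
    push_cast at this; linear_combination this
  have hu : ∀ k : ℕ, 0 < k → k < p → ((k : ℕ) : ZMod p) ≠ 0 := fun k h h' => natCast_ne_zero h h'
  rcases Nat.eq_zero_or_pos s with h0 | hs0
  · subst h0; simp
  have h2 : (2 : ZMod p) ≠ 0 := by exact_mod_cast hu 2 (by norm_num) (by omega)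
  have h3 : (3 : ZMod p) ≠ 0 := by exact_mod_cast hu 3 (by norm_num) (by omega)
  set R1 := ∑ l ∈ range s, 1 / (3 * (l : ZMod p) + 1) with hR1
  set R2 := ∑ l ∈ range s, 1 / (3 * (l : ZMod p) + 2) with hR2
  set H1 := ∑ i ∈ range s, 1 / ((i : ZMod p) + 1) with hH1
  set H2 := ∑ i ∈ range (2 * s), 1 / ((i : ZMod p) + 1) with hH2
  set H3 := ∑ i ∈ range (3 * s), 1 / ((i : ZMod p) + 1) with hH3
  -- (A) `H3 = H1/3 + R1 + R2`
  have hA : 3 * H3 = H1 + 3 * R1 + 3 * R2 := by
    have e : ∀ k : ℕ, 3 * k < p → 3 * ∑ i ∈ range (3 * k), 1 / ((i : ZMod p) + 1) =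
        (∑ i ∈ range k, 1 / ((i : ZMod p) + 1)) + 3 * (∑ l ∈ range k, 1 / (3 * (l : ZMod p) + 1)) +
          3 * (∑ l ∈ range k, 1 / (3 * (l : ZMod p) + 2)) := by
      intro k
      induction k with
      | zero => intro _; simp
      | succ k ih =>
        intro hk
        have ih' := ih (by omega)
        rw [show 3 * (k + 1) = 3 * k + 1 + 1 + 1 by ring, Finset.sum_range_succ,
          Finset.sum_range_succ, Finset.sum_range_succ, Finset.sum_range_succ _ k,
          Finset.sum_range_succ _ k, Finset.sum_range_succ _ k, mul_add, mul_add, mul_add, ih']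
        have n1 : (3 * (k : ZMod p) + 1) ≠ 0 := by exact_mod_cast hu (3 * k + 1) (by omega) (by omega)
        have n2 : (3 * (k : ZMod p) + 2) ≠ 0 := by exact_mod_cast hu (3 * k + 2) (by omega) (by omega)
        have n3 : ((k : ZMod p) + 1) ≠ 0 := by exact_mod_cast hu (k + 1) (by omega) (by omega)
        push_cast
        have e1 : (3 * (k : ZMod p) + 1 + 1) = 3 * k + 2 := by ring
        have e2 : (3 * (k : ZMod p) + 1 + 1 + 1) = 3 * (k + 1) := by ring
        rw [e1, show (3 * (k : ZMod p) + 2 + 1) = 3 * (k + 1) by ring]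
        have e3 : 3 * (1 / (3 * ((k : ZMod p) + 1))) = 1 / (k + 1) := by field_simp
        rw [e3]
        ring
    exact e s (by omega)
  -- (B) `H2 = H1 - 3 R1`
  have hB : H2 = H1 - 3 * R1 := by
    rw [hH2, show 2 * s = s + s by ring, Finset.sum_range_add, ← hH1, sub_eq_add_neg]
    congr 1
    rw [hR1, ← Finset.sum_range_reflect, Finset.mul_sum, ← Finset.sum_neg_distrib]
    refine Finset.sum_congr rfl fun i hi => ?_
    rw [Finset.mem_range] at hi
    have n1 : ((3 * i + 1 : ℕ) : ZMod p) ≠ 0 := hu _ (by omega) (by omega)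
    have n2 : ((s + (s - 1 - i) + 1 : ℕ) : ZMod p) ≠ 0 := hu _ (by omega) (by omega)
    have e1 : (3 : ZMod p) * ((s + (s - 1 - i) + 1 : ℕ) : ZMod p) = -((3 * i + 1 : ℕ) : ZMod p) := by
      have : ((3 * (s + (s - 1 - i) + 1) + (3 * i + 1) : ℕ) : ZMod p) = ((p : ℕ) : ZMod p) := by
        congr 1; omega
      have hp0 : ((p : ℕ) : ZMod p) = 0 := CharP.cast_eq_zero _ _
      rw [hp0] at this
      push_cast at this ⊢
      linear_combination this
    have e2 : (((s + (s - 1 - i) : ℕ) : ZMod p) + 1) = ((s + (s - 1 - i) + 1 : ℕ) : ZMod p) := by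
      push_cast; ring
    have e3 : (3 * (i : ZMod p) + 1) = ((3 * i + 1 : ℕ) : ZMod p) := by push_cast; ring
    rw [e2, e3, eq_comm, neg_eq_iff_eq_neg, mul_one_div, eq_comm, neg_eq_iff_eq_neg]
    rw [div_eq_iff n2]
    have e4 : -(3 / ((3 * i + 1 : ℕ) : ZMod p)) * ((s + (s - 1 - i) + 1 : ℕ) : ZMod p) =
        -(((3 : ZMod p) * ((s + (s - 1 - i) + 1 : ℕ) : ZMod p)) / ((3 * i + 1 : ℕ) : ZMod p)) := by
      ring
    rw [e4, e1, neg_div, neg_neg, div_self n1]
  -- (C) `R2 = -(2/3) H2 + (1/3) H1`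
  have hC : 3 * R2 = -2 * H2 + H1 := by
    -- `2 H2 = H1 + ∑ 2/(2l+1)`
    have e : ∀ k : ℕ, 2 * k < p → 2 * ∑ i ∈ range (2 * k), 1 / ((i : ZMod p) + 1) =
        (∑ i ∈ range k, 1 / ((i : ZMod p) + 1)) + 2 * (∑ l ∈ range k, 1 / (2 * (l : ZMod p) + 1)) := by
      intro k
      induction k with
      | zero => intro _; simp
      | succ k ih =>
        intro hk
        have ih' := ih (by omega)
        rw [show 2 * (k + 1) = 2 * k + 1 + 1 by ring, Finset.sum_range_succ,
          Finset.sum_range_succ, Finset.sum_range_succ _ k,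
          Finset.sum_range_succ _ k, mul_add, mul_add, ih']
        have n3 : ((k : ZMod p) + 1) ≠ 0 := by exact_mod_cast hu (k + 1) (by omega) (by omega)
        push_cast
        rw [show (2 * (k : ZMod p) + 1 + 1) = 2 * (k + 1) by ring]
        have e3 : 2 * (1 / (2 * ((k : ZMod p) + 1))) = 1 / (k + 1) := by field_simp
        rw [e3]
        ring
    have e' := e s (by omega)
    rw [← hH2, ← hH1] at e'
    have e2 : 3 * R2 = -2 * ∑ l ∈ range s, 1 / (2 * (l : ZMod p) + 1) := by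
      rw [hR2, ← Finset.sum_range_reflect (fun l : ℕ => 1 / (2 * (l : ZMod p) + 1)), Finset.mul_sum,
        Finset.mul_sum]
      refine Finset.sum_congr rfl fun i hi => ?_
      rw [Finset.mem_range] at hi
      have n1 : ((3 * i + 2 : ℕ) : ZMod p) ≠ 0 := hu _ (by omega) (by omega)
      have n2 : ((2 * (s - 1 - i) + 1 : ℕ) : ZMod p) ≠ 0 := hu _ (by omega) (by omega)
      have e1 : (3 : ZMod p) * ((2 * (s - 1 - i) + 1 : ℕ) : ZMod p) =
          -2 * ((3 * i + 2 : ℕ) : ZMod p) := by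
        have : ((3 * (2 * (s - 1 - i) + 1) + 2 * (3 * i + 2) : ℕ) : ZMod p) = ((p : ℕ) : ZMod p) := by
          congr 1; omega
        have hp0 : ((p : ℕ) : ZMod p) = 0 := CharP.cast_eq_zero _ _
        rw [hp0] at this
        push_cast at this ⊢
        linear_combination this
      have e4 : (2 * ((s - 1 - i : ℕ) : ZMod p) + 1) = ((2 * (s - 1 - i) + 1 : ℕ) : ZMod p) := by
        push_cast; ring
      have e3 : (3 * (i : ZMod p) + 2) = ((3 * i + 2 : ℕ) : ZMod p) := by push_cast; ring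
      rw [e4, e3, mul_one_div, mul_one_div, div_eq_div_iff n1 n2, e1]
    linear_combination e2 + e'
  have h33 : (3 : ZMod p) * (H2 - H1 + H3) = 0 := by
    linear_combination hA + hB + hC
  exact (mul_eq_zero.1 h33).resolve_left h3

end one

/-- harmonic numbers in `ZMod p` -/
noncomputable def H (p : ℕ) [Fact p.Prime] (k : ℕ) : ZMod p :=
  ∑ i ∈ range k, 1 / ((i : ZMod p) + 1)

theorem altsum (k : ℕ) : ∑ j ∈ range (k + 1 + 1), ((k + 1).choose j : ZMod p) * (-1) ^ j = 0 := by
  have := Int.alternating_sum_range_choose_of_ne (n := k + 1) (by omega)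
  have := congrArg (Int.cast : ℤ → ZMod p) this
  push_cast at this
  rw [← this]
  exact Finset.sum_congr rfl fun j _ => by ring

theorem harm_binom (m : ℕ) (hm : m < p) :
    ∑ i ∈ range m, (-1) ^ i * ((m.choose (i + 1) : ℕ) : ZMod p) / ((i : ZMod p) + 1) = H p m := by
  induction m with
  | zero => simp [H]
  | succ m ih =>
    have ih' := ih (by omega)
    have h1 : ∀ i ∈ range (m + 1), (-1) ^ i * (((m + 1).choose (i + 1) : ℕ) : ZMod p) / ((i : ZMod p) + 1) =
        (-1) ^ i * ((m.choose (i + 1) : ℕ) : ZMod p) / ((i : ZMod p) + 1) +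
        (1 / ((m : ZMod p) + 1)) * ((-1) ^ i * (((m + 1).choose (i + 1) : ℕ) : ZMod p)) := by
      intro i hi
      rw [Finset.mem_range] at hi
      have n1 : ((i : ZMod p) + 1) ≠ 0 := by
        have := natCast_ne_zero (p := p) (k := i + 1) (by omega) (by omega)
        push_cast at this; exact this
      have n2 : ((m : ZMod p) + 1) ≠ 0 := by
        have := natCast_ne_zero (p := p) (k := m + 1) (by omega) (by omega)
        push_cast at this; exact this
      have e1 : (((m + 1).choose (i + 1) : ℕ) : ZMod p) =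
          ((m.choose i : ℕ) : ZMod p) + ((m.choose (i + 1) : ℕ) : ZMod p) := by
        rw [Nat.choose_succ_succ]; push_cast; ring
      have e2 : ((m : ZMod p) + 1) * ((m.choose i : ℕ) : ZMod p) =
          (((m + 1).choose (i + 1) : ℕ) : ZMod p) * ((i : ZMod p) + 1) := by
        have := congrArg (Nat.cast : ℕ → ZMod p) (Nat.add_one_mul_choose_eq m i)
        push_cast at this; exact this
      field_simp
      linear_combination ((m : ZMod p) + 1) * e1 + e2
    rw [Finset.sum_congr rfl h1, Finset.sum_add_distrib, ← Finset.mul_sum,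
      Finset.sum_range_succ _ m]
    have h2 : ∑ i ∈ range (m + 1), (-1 : ZMod p) ^ i * (((m + 1).choose (i + 1) : ℕ) : ZMod p) = 1 := by
      have := altsum (p := p) m
      rw [Finset.sum_range_succ'] at this
      have e : ∑ k ∈ range (m + 1), (((m + 1).choose (k + 1) : ℕ) : ZMod p) * (-1) ^ (k + 1) =
          -∑ i ∈ range (m + 1), (-1 : ZMod p) ^ i * (((m + 1).choose (i + 1) : ℕ) : ZMod p) := by
        rw [← Finset.sum_neg_distrib]
        exact Finset.sum_congr rfl fun i _ => by ring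
      rw [e] at this
      simp only [Nat.choose_zero_right, Nat.cast_one, pow_zero, mul_one] at this
      linear_combination -this
    rw [h2, ih', Nat.choose_eq_zero_of_lt (by omega : m < m + 1)]
    unfold H
    rw [Finset.sum_range_succ]
    simp

/-- the partial fraction sum -/
theorem T_base (m : ℕ) (hm : m < p) :
    ∑ j ∈ range (m + 1), (m.choose j : ZMod p) * (-1) ^ j / ((j : ZMod p) - m) =
      (-1) ^ m * H p m := by
  rw [Finset.sum_range_succ, sub_self, div_zero, add_zero, ← harm_binom m hm,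
    ← Finset.sum_range_reflect, Finset.mul_sum]
  refine Finset.sum_congr rfl fun i hi => ?_
  rw [Finset.mem_range] at hi
  have n1 : ((i : ZMod p) + 1) ≠ 0 := by
    have := natCast_ne_zero (p := p) (k := i + 1) (by omega) (by omega)
    push_cast at this; exact this
  have e1 : (((m - 1 - i : ℕ) : ZMod p) - m) = -((i : ZMod p) + 1) := by
    have : ((m - 1 - i : ℕ) : ZMod p) + ((i + 1 : ℕ) : ZMod p) = (m : ZMod p) := by
      rw [← Nat.cast_add]; congr 1; omega
    push_cast at this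
    linear_combination this
  have e2 : m.choose (m - 1 - i) = m.choose (i + 1) := by
    rw [← Nat.choose_symm (by omega : i + 1 ≤ m)]; congr 1; omega
  have e3 : (-1 : ZMod p) ^ (m - 1 - i) = (-1) ^ m * (-1) ^ i * (-1) := by
    have : (-1 : ZMod p) ^ m = (-1) ^ (m - 1 - i) * ((-1) ^ i * (-1)) := by
      rw [← pow_succ, ← pow_add]; congr 1; omega
    rw [this]
    have h6 : ((-1 : ZMod p)) ^ i * (-1) ^ i = 1 := by rw [← mul_pow]; simp
    linear_combination (-(-1 : ZMod p) ^ (m - 1 - i)) * h6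
  rw [e1, e2, e3, div_neg]
  ring

theorem T_eq (m k : ℕ) (hk : m + k < p) :
    ∑ j ∈ range (m + k + 1), ((m + k).choose j : ZMod p) * (-1) ^ j / ((j : ZMod p) - m) =
      (-1) ^ m * (((m + k).choose m : ℕ) : ZMod p) * (H p m - H p k) := by
  induction k with
  | zero =>
    rw [add_zero, T_base m (by omega)]
    simp [H]
  | succ k ih =>
    have ih' := ih (by omega)
    have n2 : ((k : ZMod p) + 1) ≠ 0 := by
      have := natCast_ne_zero (p := p) (k := k + 1) (by omega) (by omega)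
      push_cast at this; exact this
    have h1 : ∀ j ∈ range (m + (k + 1) + 1), ((k : ZMod p) + 1) *
        (((m + (k + 1)).choose j : ZMod p) * (-1) ^ j / ((j : ZMod p) - m)) =
        ((m : ZMod p) + k + 1) * (((m + k).choose j : ZMod p) * (-1) ^ j / ((j : ZMod p) - m)) +
        (((m + (k + 1)).choose j : ZMod p) * (-1) ^ j -
          (if j = m then ((m + (k + 1)).choose j : ZMod p) * (-1) ^ j else 0)) := by
      intro j hj
      rw [Finset.mem_range] at hj
      have e2 : ((m : ZMod p) + k + 1) * (((m + k).choose j : ℕ) : ZMod p) =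
          ((m : ZMod p) + k + 1 - j) * (((m + (k + 1)).choose j : ℕ) : ZMod p) := by
        have := congrArg (Nat.cast : ℕ → ZMod p) (Nat.choose_mul_succ_eq (m + k) j)
        push_cast [Nat.cast_sub (by omega : j ≤ m + k + 1)] at this
        rw [show m + (k + 1) = m + k + 1 by ring]
        linear_combination this
      by_cases hjm : j = m
      · rw [if_pos hjm, hjm, sub_self, div_zero, div_zero]; ring
      · rw [if_neg hjm, sub_zero]
        have n1 : ((j : ZMod p) - m) ≠ 0 := by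
          intro h
          have h' : (j : ZMod p) = (m : ZMod p) := by linear_combination h
          rw [ZMod.natCast_eq_natCast_iff'] at h'
          rw [Nat.mod_eq_of_lt (by omega), Nat.mod_eq_of_lt (by omega)] at h'
          exact hjm h'
        field_simp
        linear_combination (-1 : ZMod p) * e2
    apply mul_left_cancel₀ n2
    rw [Finset.mul_sum, Finset.sum_congr rfl h1, Finset.sum_add_distrib, Finset.sum_sub_distrib,
      ← Finset.mul_sum]
    have h3 : ∑ j ∈ range (m + (k + 1) + 1), ((m + (k + 1)).choose j : ZMod p) * (-1) ^ j = 0 :=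
      altsum (p := p) (m + k)
    have h4 : ∑ j ∈ range (m + (k + 1) + 1), (if j = m then
        ((m + (k + 1)).choose j : ZMod p) * (-1) ^ j else 0) =
        ((m + (k + 1)).choose m : ZMod p) * (-1) ^ m := by
      rw [Finset.sum_ite_eq' (range (m + (k + 1) + 1)) m]
      rw [if_pos (by rw [Finset.mem_range]; omega)]
    rw [h3, h4, Finset.sum_range_succ _ (m + (k + 1)),
      Nat.choose_eq_zero_of_lt (by omega : m + k < m + (k + 1))]
    rw [show m + (k + 1) = m + k + 1 by ring] at *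
    rw [ih']
    have e5 : ((k : ZMod p) + 1) * (((m + k + 1).choose m : ℕ) : ZMod p) =
        ((m : ZMod p) + k + 1) * (((m + k).choose m : ℕ) : ZMod p) := by
      have := congrArg (Nat.cast : ℕ → ZMod p) (Nat.choose_mul_succ_eq (m + k) m)
      push_cast [Nat.cast_sub (by omega : m ≤ m + k + 1)] at this
      linear_combination -this
    have e6 : H p (k + 1) = H p k + 1 / ((k : ZMod p) + 1) := by
      unfold H; rw [Finset.sum_range_succ]
    rw [e6]
    have e7 : ((k : ZMod p) + 1) * (1 / ((k : ZMod p) + 1)) = 1 := by field_simp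
    simp only [Nat.cast_zero, zero_mul, zero_div, add_zero]
    linear_combination (-(-1 : ZMod p) ^ m * (H p m - H p k)) * e5 +
      ((-1 : ZMod p) ^ m * (((m + k + 1).choose m : ℕ) : ZMod p)) * e7

/-- the auxiliary polynomial `G = ∑_{i=1}^{p-1} X^i` -/
theorem poly_identity (hp2 : 2 < p) : ((X + C 2) * (1 - X) ^ (p - 1) - (X + C 2) ^ p : (ZMod p)[X]) =
    C 3 * ∑ i ∈ range (p - 1), X ^ (i + 1) := by
  set G : (ZMod p)[X] := ∑ i ∈ range (p - 1), X ^ (i + 1) with hG
  have hp1 : p - 1 + 1 = p := by omega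
  have h1 : (1 - X : (ZMod p)[X]) ^ p = 1 - X ^ p := by
    rw [sub_pow_char, one_pow]
  have h2 : (X + C 2 : (ZMod p)[X]) ^ p = X ^ p + C 2 := by
    rw [add_pow_char, ← C_pow, ZMod.pow_card]
  have hne : (1 - X : (ZMod p)[X]) ≠ 0 := by
    intro h
    have := congrArg (fun f => eval 0 f) h
    simp at this
  have h3 : (1 - X : (ZMod p)[X]) ^ (p - 1) = ∑ i ∈ range p, X ^ i := by
    apply mul_left_cancel₀ hne
    rw [← pow_succ', hp1, h1]
    have := geom_sum_mul (X : (ZMod p)[X]) p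
    linear_combination this
  have gen1 : ∀ k : ℕ, (∑ i ∈ range (k + 1), X ^ i : (ZMod p)[X]) =
      1 + ∑ i ∈ range k, X ^ (i + 1) := by
    intro k
    rw [Finset.sum_range_succ', pow_zero, add_comm]
  have gen2 : ∀ k : ℕ, (X * ∑ i ∈ range (k + 1), X ^ i : (ZMod p)[X]) =
      ∑ i ∈ range k, X ^ (i + 1) + X ^ (k + 1) := by
    intro k
    rw [Finset.mul_sum, Finset.sum_range_succ]
    congr 1
    · exact Finset.sum_congr rfl fun i _ => by rw [pow_succ']
    · rw [← pow_succ']
  have h4 : (∑ i ∈ range p, X ^ i : (ZMod p)[X]) = 1 + G := by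
    have := gen1 (p - 1)
    rw [hp1] at this
    exact this
  have h5 : (X * (1 + G) : (ZMod p)[X]) = G + X ^ p := by
    have := gen2 (p - 1)
    rw [hp1, h4] at this
    exact this
  rw [h2, h3, h4, add_mul, h5]
  simp only [map_ofNat]
  ring

section one'

variable (s n m : ℕ) (hs : 1 ≤ s) (hps : p = 6 * s + 1) (hns : n = 3 * s) (hms : m = 2 * s)
include hs hps hns hms

theorem one_zero : (3 * (m : ZMod p) + 1) = 0 := by
  have : ((3 * m + 1 : ℕ) : ZMod p) = ((p : ℕ) : ZMod p) := by congr 1; omega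
  have hp0 : ((p : ℕ) : ZMod p) = 0 := CharP.cast_eq_zero _ _
  rw [hp0] at this
  push_cast at this
  exact this

theorem one_unit (j : ℕ) (hj : j ≤ n) (hjm : j ≠ m) : (3 * (j : ZMod p) + 1) ≠ 0 := by
  intro h
  have h1 : ((3 * j + 1 : ℕ) : ZMod p) = 0 := by push_cast; exact h
  rw [ZMod.natCast_eq_zero_iff] at h1
  obtain ⟨c, hc⟩ := h1
  rcases Nat.lt_or_ge c 2 with h2 | h2
  · interval_cases c <;> omega
  · have : p * 2 ≤ p * c := Nat.mul_le_mul_left _ h2
    omega

/-- the Hasse invariant -/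
noncomputable def cc (p : ℕ) [Fact p.Prime] (n m : ℕ) : ZMod p := (n.choose m : ZMod p) * (-4) ^ m

theorem one_coeff (j : ℕ) (hj : j ≤ n) : (3 * (j : ZMod p) + 1) * a p n j =
    (n.choose j : ZMod p) * (-4) ^ j - (if j = m then cc p n m else 0) := by
  by_cases hjm : j = m
  · rw [if_pos hjm, hjm, one_zero s n m hs hps hns hms]; unfold cc; ring
  · rw [if_neg hjm]
    have := one_unit s n m hs hps hns hms j hj hjm
    unfold a; field_simp
    ring

theorem Dop_phi_one : Dop (phi p n) = (1 - C 4 * X : (ZMod p)[X]) ^ n - C (cc p n m) * X ^ m := by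
  unfold phi
  rw [Dop_sum]
  have e : (1 - C 4 * X : (ZMod p)[X]) = C (-4) * X + 1 := by
    simp only [map_neg]; ring
  have hterm : ∀ j ∈ range (n + 1), Dop (C (a p n j) * X ^ j : (ZMod p)[X]) =
      (C (-4) * X) ^ j * 1 ^ (n - j) * (n.choose j : (ZMod p)[X]) -
        (if j = m then C (cc p n m) * X ^ j else 0) := by
    intro j hj
    rw [Finset.mem_range] at hj
    rw [Dop_C_mul, Dop_X_pow, ← mul_assoc, ← C_mul, mul_comm (a p n j),
      one_coeff s n m hs hps hns hms j (by omega), C_sub]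
    split_ifs with h
    · simp only [map_mul, map_natCast, map_pow, one_pow]; ring
    · simp only [map_mul, map_natCast, map_pow, one_pow, map_zero]; ring
  rw [Finset.sum_congr rfl hterm, Finset.sum_sub_distrib, e, add_pow,
    Finset.sum_ite_eq' (range (n + 1)) m]
  rw [if_pos (by rw [Finset.mem_range]; omega)]

/-- the logarithmic correction -/
noncomputable def lam (p : ℕ) [Fact p.Prime] (m : ℕ) : (ZMod p)[X] :=
  ∑ i ∈ range (p - 1), C ((3 * ((i : ZMod p) + 1))⁻¹) * X ^ (m + (i + 1))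

theorem Dop_lam : Dop (lam p m) = X ^ m * ∑ i ∈ range (p - 1), (X : (ZMod p)[X]) ^ (i + 1) := by
  unfold lam
  rw [Dop_sum, Finset.mul_sum]
  refine Finset.sum_congr rfl fun i hi => ?_
  rw [Finset.mem_range] at hi
  rw [Dop_C_mul, Dop_X_pow, ← mul_assoc, ← C_mul, ← pow_add]
  have h0 := one_zero (p := p) s n m hs hps hns hms
  have h3 : (3 : ZMod p) ≠ 0 := by
    exact_mod_cast natCast_ne_zero (p := p) (k := 3) (by norm_num) (by omega)
  have n1 : ((i : ZMod p) + 1) ≠ 0 := by
    have := natCast_ne_zero (p := p) (k := i + 1) (by omega) (by omega)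
    push_cast at this; exact this
  have e : (3 * ((i : ZMod p) + 1))⁻¹ * (3 * ((m + (i + 1) : ℕ) : ZMod p) + 1) = 1 := by
    have : (3 * ((m + (i + 1) : ℕ) : ZMod p) + 1) = 3 * ((i : ZMod p) + 1) := by
      push_cast; linear_combination h0
    rw [this]
    exact inv_mul_cancel₀ (mul_ne_zero h3 n1)
  rw [e, C_1, one_mul]

theorem kappa_one (h3 : (3 : ZMod p) ≠ 0) :
    Dop (al p n + C (3⁻¹) * ((X + C 2) ^ p * phi p n) - C (cc p n m) * lam p m) = 0 := by
  have hpn : p = 2 * n + 1 := by omega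
  rw [Dop_sub, Dop_add, Dop_al n hpn, Dop_C_mul, Dop_pow_mul, Dop_phi_one s n m hs hps hns hms,
    Dop_C_mul, Dop_lam s n m hs hps hns hms]
  have e1 : (∑ j ∈ range (n + 1), C ((3 * (j : ZMod p) + 1) * a p n j * (27⁻¹) ^ j) *
      (X ^ (2 * (n - j)) * (1 - X) ^ (3 * j)) : (ZMod p)[X]) =
      (∑ j ∈ range (n + 1), C ((n.choose j : ZMod p) * (-4) ^ j * (27⁻¹) ^ j) *
      (X ^ (2 * (n - j)) * (1 - X) ^ (3 * j))) - C (cc p n m) * (X ^ m * (1 - X) ^ (p - 1)) := by
    have hterm : ∀ j ∈ range (n + 1), (C ((3 * (j : ZMod p) + 1) * a p n j * (27⁻¹) ^ j) *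
        (X ^ (2 * (n - j)) * (1 - X) ^ (3 * j)) : (ZMod p)[X]) =
        C ((n.choose j : ZMod p) * (-4) ^ j * (27⁻¹) ^ j) * (X ^ (2 * (n - j)) * (1 - X) ^ (3 * j)) -
        (if j = m then C (cc p n m * (27⁻¹) ^ j) * (X ^ (2 * (n - j)) * (1 - X) ^ (3 * j)) else 0) := by
      intro j hj
      rw [Finset.mem_range] at hj
      rw [one_coeff s n m hs hps hns hms j (by omega), sub_mul, C_sub]
      split_ifs with h
      · ring
      · simp
    rw [Finset.sum_congr rfl hterm, Finset.sum_sub_distrib, Finset.sum_ite_eq' (range (n + 1)) m]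
    rw [if_pos (by rw [Finset.mem_range]; omega)]
    have e27 : ((27 : ZMod p)⁻¹) ^ m = 1 := by
      have h27 : (27 : ZMod p) = 3 ^ 3 := by norm_num
      have := ZMod.pow_card_sub_one_eq_one h3
      rw [h27, inv_pow, ← pow_mul, show 3 * m = p - 1 by omega, this, inv_one]
    rw [e27, mul_one, show 2 * (n - m) = m by omega, show 3 * m = p - 1 by omega]
  rw [e1, key_poly n h3]
  have e2 : ((-27 : ZMod p)⁻¹) ^ n = 1 := by
    have h4 := neg_three_pow_one n hpn h3 (by omega)
    have h5 : (-27 : ZMod p) = (-3) ^ 3 := by norm_num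
    rw [h5, inv_pow, ← pow_mul, mul_comm 3 n, pow_mul, h4]
    norm_num
  rw [e2]
  have e3 : (X + C 2 : (ZMod p)[X]) ^ p = (X + C 2) ^ (2 * n) * (X + C 2) := by
    rw [← pow_succ, ← hpn]
  have e4 := poly_identity (p := p) (by omega)
  have e5 : (C (3⁻¹ : ZMod p) : (ZMod p)[X]) * C 3 = 1 := by
    rw [← C_mul, inv_mul_cancel₀ h3, C_1]
  simp only [map_one, one_mul]
  linear_combination (C (3⁻¹) * C (cc p n m) * X ^ m) * e4 + (C (3⁻¹) * (1 - C 4 * X) ^ n) * e3 +
    (C (cc p n m) * X ^ m * ∑ i ∈ range (p - 1), (X : (ZMod p)[X]) ^ (i + 1)) * e5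

omit hs hps hns hms in
theorem eval_lam (x : ZMod p) : (lam p m).eval x = 3⁻¹ * x ^ m * LL p x := by
  unfold lam LL
  rw [eval_finsetSum, Finset.mul_sum]
  refine Finset.sum_congr rfl fun i _ => ?_
  simp only [eval_mul, eval_C, eval_pow, eval_X]
  rw [mul_inv, pow_add, div_eq_mul_inv]
  ring

theorem eval_kappa_one (h3 : (3 : ZMod p) ≠ 0) :
    ∃ u v : ZMod p, ∀ x : ZMod p,
      (al p n + C (3⁻¹) * ((X + C 2) ^ p * phi p n) - C (cc p n m) * lam p m).eval x =
        u * x ^ m + v * x ^ (m + p) := by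
  have hpn : p = 2 * n + 1 := by omega
  set κ := al p n + C (3⁻¹) * ((X + C 2) ^ p * phi p n) - C (cc p n m) * lam p m with hκ
  have hD := kappa_one s n m hs hps hns hms h3
  rw [← hκ] at hD
  refine ⟨κ.coeff m, κ.coeff (m + p), fun x => ?_⟩
  have hdeg : κ.natDegree < p + n + 1 := by
    have h1 := natDegree_al n hpn
    have h2 : (C (3⁻¹) * ((X + C 2) ^ p * phi p n) : (ZMod p)[X]).natDegree ≤ p + n :=
      le_trans (natDegree_C_mul_le _ _) (natDegree_pow_mul_phi n)
    have h4 : (C (cc p n m) * lam p m : (ZMod p)[X]).natDegree ≤ p + n := by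
      refine le_trans (natDegree_C_mul_le _ _) ?_
      unfold lam
      apply natDegree_sum_le_of_forall_le
      intro i hi
      rw [Finset.mem_range] at hi
      exact le_trans (natDegree_C_mul_X_pow_le _ _) (by omega)
    have h5 := natDegree_sub_le_of_le (natDegree_add_le_of_le h1 h2) h4
    rw [← hκ] at h5
    omega
  rw [eval_eq_sum' κ (p + n + 1) hdeg]
  have hsub : ({m, m + p} : Finset ℕ) ⊆ range (p + n + 1) := by
    intro i hi
    rw [Finset.mem_insert, Finset.mem_singleton] at hi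
    rw [Finset.mem_range]
    omega
  rw [← Finset.sum_subset hsub]
  · rw [Finset.sum_pair (by omega)]
  · intro i hi hne
    rw [Finset.mem_range] at hi
    rw [Finset.mem_insert, Finset.mem_singleton] at hne
    push Not at hne
    have h1 := coeff_Dop κ i
    rw [hD, coeff_zero] at h1
    have h4 : (3 * (i : ZMod p) + 1) ≠ 0 := by
      intro h
      have h1 : ((3 * i + 1 : ℕ) : ZMod p) = 0 := by push_cast; exact h
      rw [ZMod.natCast_eq_zero_iff] at h1
      obtain ⟨c, hc⟩ := h1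
      rcases Nat.lt_or_ge c 5 with h2 | h2
      · interval_cases c <;> omega
      · have : p * 5 ≤ p * c := Nat.mul_le_mul_left _ h2
        omega
    have h5 := (mul_eq_zero.1 h1.symm).resolve_left h4
    rw [h5, zero_mul]

theorem LL_neg_one : LL p (-1) = H p (3 * s) := by
  have h2 : (2 : ZMod p) ≠ 0 := by
    exact_mod_cast natCast_ne_zero (p := p) (k := 2) (by norm_num) (by omega)
  have hodd : Odd p := hp.out.odd_of_ne_two (by omega)
  have hL1 : LL p 1 = 0 := by
    have := LL_int (p := p) 1 0 hodd (by rw [sub_self, zero_pow hp.out.ne_zero, one_pow]; ring)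
    simpa using this
  -- `LL 1` and `LL (-1)` split by parity
  have e : ∀ k : ℕ, 2 * k < p → ∀ x : ZMod p, x * x = 1 →
      ∑ i ∈ range (2 * k), x ^ (i + 1) / ((i : ZMod p) + 1) =
      x * (∑ l ∈ range k, 1 / (2 * (l : ZMod p) + 1)) + 2⁻¹ * H p k := by
    intro k
    induction k with
    | zero => intro _ x _; simp [H]
    | succ k ih =>
      intro hk x hx
      have ih' := ih (by omega) x hx
      have hxp : x ^ (2 * k) = 1 := by rw [pow_mul, pow_two, hx, one_pow]
      have n3 : ((k : ZMod p) + 1) ≠ 0 := by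
        have := natCast_ne_zero (p := p) (k := k + 1) (by omega) (by omega)
        push_cast at this; exact this
      have e6 : H p (k + 1) = H p k + 1 / ((k : ZMod p) + 1) := by
        unfold H; rw [Finset.sum_range_succ]
      rw [show 2 * (k + 1) = 2 * k + 1 + 1 by ring, Finset.sum_range_succ, Finset.sum_range_succ,
        Finset.sum_range_succ _ k, ih', e6]
      have e1 : x ^ (2 * k + 1) = x := by rw [pow_succ, hxp, one_mul]
      have e2 : x ^ (2 * k + 1 + 1) = 1 := by rw [pow_succ, e1, hx]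
      rw [e1, e2]
      push_cast
      rw [show (2 * (k : ZMod p) + 1 + 1) = 2 * (k + 1) by ring]
      have e3 : 1 / (2 * ((k : ZMod p) + 1)) = 2⁻¹ * (1 / (k + 1)) := by field_simp
      rw [e3]
      ring
  have e1 := e (3 * s) (by omega) 1 (by ring)
  have e2 := e (3 * s) (by omega) (-1) (by ring)
  have e3 : LL p 1 = ∑ i ∈ range (2 * (3 * s)), (1 : ZMod p) ^ (i + 1) / ((i : ZMod p) + 1) := by
    unfold LL; rw [show p - 1 = 2 * (3 * s) by omega]
  have e4 : LL p (-1) = ∑ i ∈ range (2 * (3 * s)), (-1 : ZMod p) ^ (i + 1) / ((i : ZMod p) + 1) := by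
    unfold LL; rw [show p - 1 = 2 * (3 * s) by omega]
  rw [e4, e2]
  rw [← e3, hL1] at e1
  have e5 : (2 : ZMod p) * 2⁻¹ = 1 := mul_inv_cancel₀ h2
  linear_combination e1 + H p (3 * s) * e5

theorem LL_relation : LL p (-2) - 4 * LL p (4⁻¹) = 3 * H p (3 * s) := by
  have h2 : (2 : ZMod p) ≠ 0 := by
    exact_mod_cast natCast_ne_zero (p := p) (k := 2) (by norm_num) (by omega)
  have h4 : (4 : ZMod p) ≠ 0 := by
    have : (4 : ZMod p) = 2 ^ 2 := by norm_num
    rw [this]; exact pow_ne_zero _ h2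
  have hodd : Odd p := hp.out.odd_of_ne_two (by omega)
  have hfer : ∀ x : ℤ, ∃ q : ℤ, x ^ p = x + p * q := by
    intro x
    have : (p : ℤ) ∣ x ^ p - x := by
      rw [← ZMod.intCast_zmod_eq_zero_iff_dvd]
      push_cast
      rw [ZMod.pow_card, sub_self]
    obtain ⟨q, hq⟩ := this
    exact ⟨q, by linarith⟩
  obtain ⟨q2, hq2⟩ := hfer 2
  obtain ⟨q3, hq3⟩ := hfer 3
  have hq4 : (4 : ℤ) ^ p = 4 + p * (4 * q2 + p * q2 ^ 2) := by
    have : (4 : ℤ) ^ p = (2 ^ p) ^ 2 := by rw [← pow_mul, mul_comm, pow_mul]; norm_num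
    rw [this, hq2]; ring
  have n2 : (-2 : ℤ) ^ p = -(2 ^ p) := hodd.neg_pow 2
  have n3 : (-3 : ℤ) ^ p = -(3 ^ p) := hodd.neg_pow 3
  have n1 : (-1 : ℤ) ^ p = -1 := hodd.neg_one_pow
  have L1 := LL_int (p := p) (-2) (q2 - q3) hodd (by
    rw [n2, show (1 - -2 : ℤ) = 3 by norm_num, hq2, hq3]; ring)
  have L2 := LL_int (p := p) 4 (q3 - (4 * q2 + p * q2 ^ 2)) hodd (by
    rw [show (1 - 4 : ℤ) = -3 by norm_num, n3, hq4, hq3]; ring)
  have L3 := LL_int (p := p) (-1) (-q2) hodd (by
    rw [n1, show (1 - -1 : ℤ) = 2 by norm_num, hq2]; ring)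
  have L4 := LL_inv (p := p) 4 h4
  have hp0 : ((p : ℕ) : ZMod p) = 0 := CharP.cast_eq_zero _ _
  rw [← LL_neg_one s n m hs hps hns hms]
  push_cast at L1 L2 L3
  rw [hp0] at L2
  linear_combination L1 - L4 + L2 - 3 * L3

theorem B_one : B p n = 3⁻¹ * (n.choose m : ZMod p) * (H p m - H p s) := by
  have hpn : p = 2 * n + 1 := by omega
  have h2 : (2 : ZMod p) ≠ 0 := by
    exact_mod_cast natCast_ne_zero (p := p) (k := 2) (by norm_num) (by omega)
  have h3 : (3 : ZMod p) ≠ 0 := by
    exact_mod_cast natCast_ne_zero (p := p) (k := 3) (by norm_num) (by omega)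
  have h0 := one_zero (p := p) s n m hs hps hns hms
  have hT := T_eq (p := p) m s (by omega)
  rw [show m + s = n by omega] at hT
  have hb : B p n = 3⁻¹ * ∑ j ∈ range (n + 1), (n.choose j : ZMod p) * (-1) ^ j / ((j : ZMod p) - m) := by
    unfold B
    rw [Finset.mul_sum]
    refine Finset.sum_congr rfl fun j hj => ?_
    rw [Finset.mem_range] at hj
    unfold a
    have h5 := four_pow n hpn h2
    have h6 : (4 : ZMod p) ^ n = 4 ^ (n - j) * 4 ^ j := by rw [← pow_add]; congr 1; omega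
    rw [h6] at h5
    have h7 : (-4 : ZMod p) ^ j = (-1) ^ j * 4 ^ j := by rw [← mul_pow]; norm_num
    have h8 : (3 * (j : ZMod p) + 1) = 3 * ((j : ZMod p) - m) := by linear_combination h0
    rw [h7, h8, div_mul_eq_mul_div, ← div_div, div_eq_mul_inv _ (3 : ZMod p)]
    rw [mul_comm (3⁻¹ : ZMod p)]
    rw [div_mul_eq_mul_div]
    congr 1
    linear_combination ((n.choose j : ZMod p) * (-1) ^ j * 3⁻¹) * h5
  rw [hb, hT]
  have hm1 : (-1 : ZMod p) ^ m = 1 := by rw [hms, pow_mul]; norm_num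
  rw [hm1]; ring

theorem main_one : ∑ j ∈ range (n + 1), a p n j = 0 := by
  have hpn : p = 2 * n + 1 := by omega
  have h2 : (2 : ZMod p) ≠ 0 := by
    exact_mod_cast natCast_ne_zero (p := p) (k := 2) (by norm_num) (by omega)
  have h3 : (3 : ZMod p) ≠ 0 := by
    exact_mod_cast natCast_ne_zero (p := p) (k := 3) (by norm_num) (by omega)
  have h4 : (4 : ZMod p) ≠ 0 := by
    have : (4 : ZMod p) = 2 ^ 2 := by norm_num
    rw [this]; exact pow_ne_zero _ h2
  obtain ⟨u, v, hh⟩ := eval_kappa_one s n m hs hps hns hms h3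
  have e0 := hh 1
  have e1 := hh (-2)
  have e2 := hh (4⁻¹)
  simp only [eval_sub, eval_mul, eval_C, eval_pow, eval_add, eval_X] at e0 e1 e2
  have hodd : Odd p := hp.out.odd_of_ne_two (by omega)
  have hL1 : LL p 1 = 0 := by
    have := LL_int (p := p) 1 0 hodd (by rw [sub_self, zero_pow hp.out.ne_zero, one_pow]; ring)
    simpa using this
  have e3 : (1 + 2 : ZMod p) ^ p = 3 := by
    have : (1 + 2 : ZMod p) = 3 := by norm_num
    rw [this]; exact ZMod.pow_card 3
  rw [eval_al_one, eval_phi, eval_lam, hL1, e3] at e0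
  simp only [one_pow, mul_one, mul_zero, sub_zero, zero_add] at e0
  rw [eval_al_neg_two n h3, neg_add_cancel, zero_pow hp.out.ne_zero, zero_mul, mul_zero,
    add_zero, eval_lam, pow_add, ZMod.pow_card] at e1
  have e5 : ((4 : ZMod p)⁻¹ + 2) ^ p = 9 * 4⁻¹ := by
    rw [ZMod.pow_card]; field_simp; norm_num
  rw [eval_al_quarter n hpn h2 h3, e5, eval_phi_quarter n hpn h2, eval_lam, pow_add,
    ZMod.pow_card] at e2
  have hB := B_one s n m hs hps hns hms
  have hR := LL_relation s n m hs hps hns hms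
  have hH := harmonic (p := p) s hps
  have hH' : H p m - H p s + H p (3 * s) = 0 := by rw [hms]; exact hH
  have hw : (-2 : ZMod p) ^ m * 4 ^ m = 1 := by
    rw [← mul_pow, show (-2 * 4 : ZMod p) = (-2) ^ 3 by norm_num, ← pow_mul,
      show 3 * m = p - 1 by omega]
    exact ZMod.pow_card_sub_one_eq_one (neg_ne_zero.2 h2)
  have hq : (4⁻¹ : ZMod p) ^ m * 4 ^ m = 1 := by
    rw [← mul_pow, inv_mul_cancel₀ h4, one_pow]
  have i3 : (3 : ZMod p) * 3⁻¹ = 1 := mul_inv_cancel₀ h3
  have i4 : (4 : ZMod p) * 4⁻¹ = 1 := mul_inv_cancel₀ h4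
  have hc : cc p n m = (n.choose m : ZMod p) * 4 ^ m := by
    unfold cc
    rw [show (-4 : ZMod p) = (-1) * 4 by norm_num, mul_pow]
    have hm1 : (-1 : ZMod p) ^ m = 1 := by rw [hms, pow_mul]; norm_num
    rw [hm1, one_mul]
  -- multiply by `4^m`
  have f1 : 4 ^ m * B p n - cc p n m * 3⁻¹ * LL p (-2) = u - 2 * v := by
    linear_combination (4 ^ m) * e1 + (cc p n m * 3⁻¹ * LL p (-2) + u - 2 * v) * hw
  have f2 : 4 ^ m * B p n - cc p n m * 3⁻¹ * LL p (4⁻¹) = u + v * 4⁻¹ := by
    linear_combination 4 ^ m * e2 - 4 ^ m * B p n * i4 - 4 ^ m * B p n * 3 * 4⁻¹ * i3 +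
      (cc p n m * 3⁻¹ * LL p (4⁻¹) + u + v * 4⁻¹) * hq
  have f0 : ∑ j ∈ range (n + 1), a p n j = u + v := by
    linear_combination e0 - (∑ j ∈ range (n + 1), a p n j) * i3
  rw [f0]
  have f9 : (9 : ZMod p) * (u + v) = 0 := by
    linear_combination 3 * f1 - 12 * f2 - 3 * v * i4 + 3 * cc p n m * 3⁻¹ * hR +
      9 * 4 ^ m * hB - 9 * 3⁻¹ * (H p m - H p s) * hc + 9 * 3⁻¹ * cc p n m * hH'
  have h9 : (9 : ZMod p) ≠ 0 := by
    have : (9 : ZMod p) = 3 ^ 2 := by norm_num
    rw [this]; exact pow_ne_zero _ h3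
  exact (mul_eq_zero.1 f9).resolve_left h9

end one'

end Q277.CubicSum
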