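import Mathlib
import Pool.Agent.Q277.CubicSum

/-!
# Partial sums of `∑_j C(n,j) C(n-j,j) C(n+j,j)` modulo `p^2`

Reduction of `∑_{k<p} a(k)` modulo `p^2` to the sums evaluated in `Q277.CubicSum`.
-/

open Finset

namespace Q277.CubicAssemble

open Q277.CubicSum (natCast_ne_zero central)

/-- the sequence `a(n)` -/
def A (n : ℕ) : ℕ := ∑ j ∈ range (n + 1), n.choose j * (n - j).choose j * (n + j).choose j

theorem term (k j : ℕ) : k.choose j * (k - j).choose j * (k + j).choose j =
    (k + j).choose (3 * j) * ((3 * j).choose (2 * j) * (2 * j).choose j) := by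
  rcases Nat.lt_or_ge k (2 * j) with h | h
  · rw [Nat.choose_eq_zero_of_lt (by omega : k + j < 3 * j)]
    rw [zero_mul]
    have h0 : 0 < j := by omega
    rw [Nat.choose_eq_zero_of_lt (by omega : k - j < j)]
    ring
  · have e1 : (k + j).choose (2 * j) * (2 * j).choose j = (k + j).choose j * k.choose j := by
      have := Nat.choose_mul (n := k + j) (k := 2 * j) (s := j) (by omega)
      rw [this]
      congr 2 <;> omega
    have e2 : (k + j).choose (3 * j) * (3 * j).choose (2 * j) =
        (k + j).choose (2 * j) * (k - j).choose j := by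
      have := Nat.choose_mul (n := k + j) (k := 3 * j) (s := 2 * j) (by omega)
      rw [this]
      congr 2 <;> omega
    calc k.choose j * (k - j).choose j * (k + j).choose j
        = ((k + j).choose j * k.choose j) * (k - j).choose j := by ring
      _ = ((k + j).choose (2 * j) * (k - j).choose j) * (2 * j).choose j := by rw [← e1]; ring
      _ = _ := by rw [← e2]; ring

theorem hockey (j N : ℕ) : ∑ k ∈ range N, (k + j).choose (3 * j) = (N + j).choose (3 * j + 1) := by
  induction N with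
  | zero =>
    rw [Finset.sum_range_zero, zero_add]
    exact (Nat.choose_eq_zero_of_lt (by omega)).symm
  | succ N ih =>
    rw [Finset.sum_range_succ, ih, show N + 1 + j = (N + j) + 1 by ring, Nat.choose_succ_succ']
    ring

/-- the terms after exchanging the sums -/
def U (p j : ℕ) : ℕ := (p + j).choose (3 * j + 1) * ((3 * j).choose (2 * j) * (2 * j).choose j)

theorem sum_A (p n : ℕ) (hpn : p = 2 * n + 1) :
    ∑ k ∈ range p, A k = ∑ j ∈ range (n + 1), U p j := by
  have h1 : ∀ k ∈ range p, A k = ∑ j ∈ range p,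
      (k + j).choose (3 * j) * ((3 * j).choose (2 * j) * (2 * j).choose j) := by
    intro k hk
    rw [Finset.mem_range] at hk
    unfold A
    rw [Finset.sum_congr rfl fun j _ => term k j]
    apply Finset.sum_subset
    · intro i hi; rw [Finset.mem_range] at *; omega
    · intro i _ hi
      rw [Finset.mem_range] at hi
      rw [Nat.choose_eq_zero_of_lt (by omega : k + i < 3 * i), zero_mul]
  rw [Finset.sum_congr rfl h1, Finset.sum_comm]
  have h2 : ∀ j ∈ range p, ∑ k ∈ range p, (k + j).choose (3 * j) *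
      ((3 * j).choose (2 * j) * (2 * j).choose j) = U p j := by
    intro j _
    rw [← Finset.sum_mul, hockey]; rfl
  rw [Finset.sum_congr rfl h2]
  symm
  apply Finset.sum_subset
  · intro i hi; rw [Finset.mem_range] at *; omega
  · intro i _ hi
    rw [Finset.mem_range] at hi
    unfold U
    rw [Nat.choose_eq_zero_of_lt (by omega : p + i < 3 * i + 1), zero_mul]

/-- product formula for `U` -/
theorem U_prod (p j : ℕ) (h : 2 * j < p) : ((3 * (j : ℤ) + 1) * (j.factorial : ℤ) ^ 3) * (U p j : ℤ) =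
    (∏ i ∈ range j, ((p : ℤ) + (i + 1))) * p * ∏ i ∈ range (2 * j), ((p : ℤ) - (i + 1)) := by
  -- descending factorial
  have h1 : ((p + j).descFactorial (3 * j + 1) : ℤ) =
      (∏ i ∈ range j, ((p : ℤ) + (i + 1))) * p * ∏ i ∈ range (2 * j), ((p : ℤ) - (i + 1)) := by
    rw [Nat.descFactorial_eq_prod_range]
    push_cast
    rw [show 3 * j + 1 = (j + 1) + 2 * j by ring, Finset.prod_range_add, Finset.prod_range_succ]
    congr 1
    · congr 1
      · rw [← Finset.prod_range_reflect]
        refine Finset.prod_congr rfl fun i hi => ?_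
        rw [Finset.mem_range] at hi
        rw [Nat.cast_sub (by omega)]
        rw [Nat.cast_sub (by omega : i ≤ j - 1), Nat.cast_sub (by omega : 1 ≤ j)]
        push_cast; ring
      · rw [Nat.cast_sub (by omega)]; push_cast; ring
    · refine Finset.prod_congr rfl fun i hi => ?_
      rw [Finset.mem_range] at hi
      rw [Nat.cast_sub (by omega)]
      push_cast; ring
  rw [← h1]
  unfold U
  have h2 := Nat.descFactorial_eq_factorial_mul_choose (p + j) (3 * j + 1)
  rw [h2]
  have h3 : (2 * j).choose j * j.factorial * j.factorial = (2 * j).factorial := by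
    have := Nat.choose_mul_factorial_mul_factorial (n := 2 * j) (k := j) (by omega)
    rw [show 2 * j - j = j by omega] at this
    exact this
  have h4 : (3 * j).choose (2 * j) * (2 * j).factorial * j.factorial = (3 * j).factorial := by
    have := Nat.choose_mul_factorial_mul_factorial (n := 3 * j) (k := 2 * j) (by omega)
    rw [show 3 * j - 2 * j = j by omega] at this
    exact this
  have h5 : (3 * j + 1).factorial = (3 * j + 1) * (3 * j).factorial := Nat.factorial_succ _
  rw [h5, ← h4, ← h3]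
  push_cast
  ring

theorem num_dvd (p : ℕ) (hp : p.Prime) (x : ℚ) (a b : ℤ) (hb : ¬ (p : ℤ) ∣ b)
    (h : x * b = (p : ℚ) ^ 2 * a) : ((p : ℤ) ^ 2) ∣ x.num := by
  have h1 : x.num * b = (p : ℤ) ^ 2 * (a * x.den) := by
    have h2 : (x.den : ℚ) ≠ 0 := by exact_mod_cast x.den_ne_zero
    have h3 : (x.num : ℚ) = x * x.den := by
      rw [Rat.mul_den_eq_num]
    have h4 : ((x.num * b : ℤ) : ℚ) = (((p : ℤ) ^ 2 * (a * x.den) : ℤ) : ℚ) := by
      push_cast
      rw [h3]
      linear_combination (x.den : ℚ) * h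
    exact_mod_cast h4
  have hcop : IsCoprime ((p : ℤ) ^ 2) b := by
    apply IsCoprime.pow_left
    rw [(Nat.prime_iff_prime_int.1 hp).coprime_iff_not_dvd]
    exact hb
  exact hcop.dvd_of_dvd_mul_right ⟨_, h1⟩

theorem dvd_prod_sub (q : ℤ) (f g : ℕ → ℤ) (m : ℕ) (h : ∀ i, q ∣ f i - g i) :
    q ∣ (∏ i ∈ range m, f i) - ∏ i ∈ range m, g i := by
  induction m with
  | zero => simp
  | succ m ih =>
    rw [Finset.prod_range_succ, Finset.prod_range_succ]
    obtain ⟨a, ha⟩ := ih
    obtain ⟨b, hb⟩ := h m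
    exact ⟨a * f m + (∏ i ∈ range m, g i) * b, by linear_combination f m * ha +
      (∏ i ∈ range m, g i) * hb⟩

section prime

variable {p : ℕ} [hp : Fact p.Prime]

theorem prod_add (j : ℕ) : (((∏ i ∈ range j, ((p : ℤ) + (i + 1)) : ℤ)) : ZMod p) =
    (j.factorial : ZMod p) := by
  have hp0 : ((p : ℕ) : ZMod p) = 0 := CharP.cast_eq_zero _ _
  rw [← Finset.prod_range_add_one_eq_factorial]
  push_cast
  refine Finset.prod_congr rfl fun i _ => ?_
  rw [hp0]; ring

theorem prod_sub (j : ℕ) : (((∏ i ∈ range (2 * j), ((p : ℤ) - (i + 1)) : ℤ)) : ZMod p) =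
    ((2 * j).factorial : ZMod p) := by
  have hp0 : ((p : ℕ) : ZMod p) = 0 := CharP.cast_eq_zero _ _
  rw [← Finset.prod_range_add_one_eq_factorial]
  push_cast
  have : ∀ i ∈ range (2 * j), ((p : ZMod p) - ((i : ZMod p) + 1)) = (-1) * ((i : ZMod p) + 1) := by
    intro i _
    rw [hp0]; ring
  rw [Finset.prod_congr rfl this, Finset.prod_mul_distrib, Finset.prod_const, Finset.card_range,
    pow_mul]
  norm_num

theorem factorial_ne_zero' (j : ℕ) (hj : j < p) : ((j.factorial : ℕ) : ZMod p) ≠ 0 := by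
  rw [Ne, ZMod.natCast_eq_zero_iff]
  intro h
  rw [hp.out.dvd_factorial] at h
  omega

/-- the terms with `3 j + 1` prime to `p` -/
theorem U_unit (n j : ℕ) (hpn : p = 2 * n + 1) (hj : j ≤ n) (hu : (3 * (j : ZMod p) + 1) ≠ 0) :
    ∃ v : ℤ, (U p j : ℤ) = p * v ∧ ((v : ℤ) : ZMod p) = CubicSum.a p n j := by
  have hU := U_prod p j (by omega)
  have hf := factorial_ne_zero' (p := p) j (by omega)
  have hdvd : (p : ℤ) ∣ (U p j : ℤ) := by
    have h1 : (p : ℤ) ∣ ((3 * (j : ℤ) + 1) * (j.factorial : ℤ) ^ 3) * (U p j : ℤ) := by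
      rw [hU]
      exact Dvd.dvd.mul_right (Dvd.dvd.mul_left (dvd_refl _) _) _
    rcases (Nat.prime_iff_prime_int.1 hp.out).dvd_or_dvd h1 with h2 | h2
    · exfalso
      rw [← ZMod.intCast_zmod_eq_zero_iff_dvd] at h2
      push_cast at h2
      rcases mul_eq_zero.1 h2 with h3 | h3
      · exact hu h3
      · exact hf (by simpa using h3)
    · exact h2
  obtain ⟨v, hv⟩ := hdvd
  refine ⟨v, hv, ?_⟩
  rw [hv] at hU
  have hp0 : (p : ℤ) ≠ 0 := by exact_mod_cast hp.out.ne_zero
  have hU2 : ((3 * (j : ℤ) + 1) * (j.factorial : ℤ) ^ 3) * v =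
      (∏ i ∈ range j, ((p : ℤ) + (i + 1))) * ∏ i ∈ range (2 * j), ((p : ℤ) - (i + 1)) := by
    apply mul_left_cancel₀ hp0
    linear_combination hU
  have hU3 := congrArg (Int.cast : ℤ → ZMod p) hU2
  rw [Int.cast_mul, Int.cast_mul (∏ i ∈ range j, ((p : ℤ) + (i + 1))), prod_add, prod_sub] at hU3
  have h3 : ((2 * j).choose j : ZMod p) * (j.factorial : ZMod p) * (j.factorial : ZMod p) =
      ((2 * j).factorial : ZMod p) := by
    have := Nat.choose_mul_factorial_mul_factorial (n := 2 * j) (k := j) (by omega)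
    rw [show 2 * j - j = j by omega] at this
    exact_mod_cast congrArg (Nat.cast : ℕ → ZMod p) this
  rw [← h3, central n j hpn (by omega)] at hU3
  push_cast at hU3
  unfold CubicSum.a
  rw [eq_div_iff hu]
  have hf3 : ((j.factorial : ℕ) : ZMod p) ^ 3 ≠ 0 := pow_ne_zero _ hf
  apply mul_right_cancel₀ hf3
  linear_combination hU3

/-- the case `p ≡ 2 (mod 3)`, `p` odd -/
theorem case_two (s n m : ℕ) (hps : p = 6 * s + 5) (hns : n = 3 * s + 2) (hms : m = 2 * s + 2) :
    ((p : ℤ) ^ 2) ∣ (((∑ k ∈ range p, A k : ℕ) : ℤ)) * ((2 * m).choose m : ℤ) - 2 * p := by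
  have hpn : p = 2 * n + 1 := by omega
  have h2 : (2 : ZMod p) ≠ 0 := by
    exact_mod_cast natCast_ne_zero (p := p) (k := 2) (by norm_num) (by omega)
  have h3 : (3 : ZMod p) ≠ 0 := by
    exact_mod_cast natCast_ne_zero (p := p) (k := 3) (by norm_num) (by omega)
  have hv : ∀ j : ℕ, ∃ v : ℤ, j ∈ range (n + 1) →
      ((U p j : ℤ) = p * v ∧ ((v : ℤ) : ZMod p) = CubicSum.a p n j) := by
    intro j
    by_cases hj : j ∈ range (n + 1)
    · rw [Finset.mem_range] at hj
      obtain ⟨v, hv⟩ := U_unit (p := p) n j hpn (by omega)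
        (CubicSum.two_unit (p := p) s n hps hns j (by omega))
      exact ⟨v, fun _ => hv⟩
    · exact ⟨0, fun h => absurd h hj⟩
  choose v hv using hv
  have hS : (((∑ k ∈ range p, A k : ℕ) : ℤ)) = p * ∑ j ∈ range (n + 1), v j := by
    rw [sum_A p n hpn, Finset.mul_sum]
    push_cast
    exact Finset.sum_congr rfl fun j hj => (hv j hj).1
  have hV : (((∑ j ∈ range (n + 1), v j : ℤ)) : ZMod p) = ∑ j ∈ range (n + 1), CubicSum.a p n j := by
    push_cast
    exact Finset.sum_congr rfl fun j hj => (hv j hj).2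
  have hM := CubicSum.main_two (p := p) s n m hps hns hms h2 h3
  rw [← hV] at hM
  have hd : (p : ℤ) ∣ (∑ j ∈ range (n + 1), v j) * ((2 * m).choose m : ℤ) - 2 := by
    rw [← ZMod.intCast_zmod_eq_zero_iff_dvd]
    push_cast at hM ⊢
    rw [hM]; ring
  obtain ⟨c, hc⟩ := hd
  refine ⟨c, ?_⟩
  rw [hS]
  linear_combination (p : ℤ) * hc

/-- the term `3 j + 1 = p` -/
theorem U_special (s m : ℕ) (hps : p = 6 * s + 1) (hms : m = 2 * s) :
    ((p : ℤ) ^ 2) ∣ (U p m : ℤ) - ((2 * m).choose m : ℤ) := by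
  have hU := U_prod p m (by omega)
  have hp0 : (p : ℤ) ≠ 0 := by exact_mod_cast hp.out.ne_zero
  have h31 : (3 * (m : ℤ) + 1) = p := by
    have : 3 * m + 1 = p := by omega
    exact_mod_cast this
  rw [h31] at hU
  have hU2 : (m.factorial : ℤ) ^ 3 * (U p m : ℤ) =
      (∏ i ∈ range m, ((p : ℤ) + (i + 1))) * ∏ i ∈ range (2 * m), ((p : ℤ) - (i + 1)) := by
    apply mul_left_cancel₀ hp0
    linear_combination hU
  -- the second half of the last product
  have h5 : (∏ i ∈ range (2 * m), ((p : ℤ) - (i + 1))) =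
      (∏ i ∈ range m, ((p : ℤ) - (i + 1))) * ∏ i ∈ range m, ((m : ℤ) + (i + 1)) := by
    rw [two_mul, Finset.prod_range_add]
    congr 1
    rw [← Finset.prod_range_reflect]
    refine Finset.prod_congr rfl fun i hi => ?_
    rw [Finset.mem_range] at hi
    have : ((m + (m - 1 - i) : ℕ) : ℤ) = 2 * m - 1 - i := by
      rw [Nat.cast_add, Nat.cast_sub (by omega), Nat.cast_sub (by omega)]
      push_cast; ring
    rw [this, ← h31]; ring
  have h6 : (∏ i ∈ range m, ((m : ℤ) + (i + 1))) * (m.factorial : ℤ) = ((2 * m).factorial : ℤ) := by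
    rw [← Finset.prod_range_add_one_eq_factorial, ← Finset.prod_range_add_one_eq_factorial, two_mul,
      Finset.prod_range_add]
    push_cast
    rw [mul_comm]
    simp only [add_assoc]
  have h3 : ((2 * m).choose m : ℤ) * (m.factorial : ℤ) * (m.factorial : ℤ) =
      ((2 * m).factorial : ℤ) := by
    have := Nat.choose_mul_factorial_mul_factorial (n := 2 * m) (k := m) (by omega)
    rw [show 2 * m - m = m by omega] at this
    exact_mod_cast this
  have hf0 : (m.factorial : ℤ) ≠ 0 := by exact_mod_cast m.factorial_ne_zero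
  have h7 : (∏ i ∈ range m, ((m : ℤ) + (i + 1))) = ((2 * m).choose m : ℤ) * (m.factorial : ℤ) := by
    apply mul_right_cancel₀ hf0
    rw [h6, h3]
  -- pairs
  have h8 : ((p : ℤ) ^ 2) ∣ (∏ i ∈ range m, ((p : ℤ) + (i + 1))) * (∏ i ∈ range m, ((p : ℤ) - (i + 1))) -
      (m.factorial : ℤ) ^ 2 := by
    have e1 : (m.factorial : ℤ) ^ 2 = ∏ i ∈ range m, (-((i : ℤ) + 1) ^ 2) := by
      rw [← Finset.prod_range_add_one_eq_factorial]
      push_cast
      rw [← Finset.prod_pow]
      have : ∀ i ∈ range m, (-((i : ℤ) + 1) ^ 2) = (-1) * ((i : ℤ) + 1) ^ 2 := fun i _ => by ring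
      rw [Finset.prod_congr rfl this, Finset.prod_mul_distrib, Finset.prod_const, Finset.card_range,
        hms, pow_mul]
      norm_num
    rw [← Finset.prod_mul_distrib, e1]
    apply dvd_prod_sub
    intro i
    exact ⟨1, by ring⟩
  obtain ⟨c, hc⟩ := h8
  have h9 : ((p : ℤ) ^ 2) ∣ (m.factorial : ℤ) ^ 3 * ((U p m : ℤ) - ((2 * m).choose m : ℤ)) := by
    refine ⟨c * (((2 * m).choose m : ℤ) * (m.factorial : ℤ)), ?_⟩
    rw [mul_sub, hU2, h5, h7]
    linear_combination (((2 * m).choose m : ℤ) * (m.factorial : ℤ)) * hc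
  have hcop : IsCoprime ((p : ℤ) ^ 2) ((m.factorial : ℤ) ^ 3) := by
    apply IsCoprime.pow
    rw [Nat.isCoprime_iff_coprime]
    rw [Nat.Prime.coprime_iff_not_dvd hp.out, hp.out.dvd_factorial]
    omega
  exact hcop.dvd_of_dvd_mul_left h9

/-- the case `p ≡ 1 (mod 3)` -/
theorem case_one (s n m : ℕ) (hs : 1 ≤ s) (hps : p = 6 * s + 1) (hns : n = 3 * s) (hms : m = 2 * s) :
    ((p : ℤ) ^ 2) ∣ (((∑ k ∈ range p, A k : ℕ) : ℤ)) - ((2 * m).choose m : ℤ) := by
  have hpn : p = 2 * n + 1 := by omega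
  have hv : ∀ j : ℕ, ∃ v : ℤ, j ∈ (range (n + 1)).erase m →
      ((U p j : ℤ) = p * v ∧ ((v : ℤ) : ZMod p) = CubicSum.a p n j) := by
    intro j
    by_cases hj : j ∈ (range (n + 1)).erase m
    · rw [Finset.mem_erase, Finset.mem_range] at hj
      obtain ⟨v, hv⟩ := U_unit (p := p) n j hpn (by omega)
        (CubicSum.one_unit (p := p) s n m hs hps hns hms j (by omega) hj.1)
      exact ⟨v, fun _ => hv⟩
    · exact ⟨0, fun h => absurd h hj⟩
  choose v hv using hv
  have hmem : m ∈ range (n + 1) := by rw [Finset.mem_range]; omega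
  have hS : (((∑ k ∈ range p, A k : ℕ) : ℤ)) = (U p m : ℤ) +
      p * ∑ j ∈ (range (n + 1)).erase m, v j := by
    rw [sum_A p n hpn, ← Finset.add_sum_erase _ _ hmem, Finset.mul_sum]
    push_cast
    congr 1
    exact Finset.sum_congr rfl fun j hj => (hv j hj).1
  have hV : (((∑ j ∈ (range (n + 1)).erase m, v j : ℤ)) : ZMod p) = 0 := by
    have hM := CubicSum.main_one (p := p) s n m hs hps hns hms
    rw [← Finset.add_sum_erase _ _ hmem] at hM
    have ha : CubicSum.a p n m = 0 := by
      unfold CubicSum.a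
      rw [CubicSum.one_zero (p := p) s n m hs hps hns hms, div_zero]
    rw [ha, zero_add] at hM
    rw [← hM]
    push_cast
    exact Finset.sum_congr rfl fun j hj => (hv j hj).2
  rw [ZMod.intCast_zmod_eq_zero_iff_dvd] at hV
  obtain ⟨c, hc⟩ := hV
  obtain ⟨d, hd⟩ := U_special (p := p) s m hps hms
  refine ⟨d + c, ?_⟩
  rw [hS, hc]
  linear_combination hd

end prime

end Q277.CubicAssemble
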