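import Mathlib
import Pool.Agent.Q266.FacVal
import Pool.Agent.Q266.PInt

/-!
Small tools for sums of quotients of factorials: successor formulas for factorials over the rationals,
summation of a telescoping pair of Wilf and Zeilberger, and exponents of two and three.
-/

namespace Q277.FacTools

open Finset

theorem fne (n : ℕ) : (n.factorial : ℚ) ≠ 0 := by exact_mod_cast Nat.factorial_ne_zero n

theorem f1 (m : ℕ) : ((m + 1).factorial : ℚ) = (m + 1) * m.factorial := by
  rw [Nat.factorial_succ]; push_cast; ring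

theorem f2 (m : ℕ) : ((m + 2).factorial : ℚ) = (m + 2) * (m + 1) * m.factorial := by
  rw [f1 (m + 1), f1 m]; push_cast; ring

theorem f3 (m : ℕ) : ((m + 3).factorial : ℚ) = (m + 3) * (m + 2) * (m + 1) * m.factorial := by
  rw [f1 (m + 2), f2 m]; push_cast; ring

theorem f4 (m : ℕ) : ((m + 4).factorial : ℚ) = (m + 4) * (m + 3) * (m + 2) * (m + 1) * m.factorial := by
  rw [f1 (m + 3), f3 m]; push_cast; ring

theorem f5 (m : ℕ) : ((m + 5).factorial : ℚ)
    = (m + 5) * (m + 4) * (m + 3) * (m + 2) * (m + 1) * m.factorial := by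
  rw [f1 (m + 4), f4 m]; push_cast; ring

theorem f6 (m : ℕ) : ((m + 6).factorial : ℚ)
    = (m + 6) * (m + 5) * (m + 4) * (m + 3) * (m + 2) * (m + 1) * m.factorial := by
  rw [f1 (m + 5), f5 m]; push_cast; ring

/-- Summation of a telescoping pair: `G(n+1,k) - c G(n,k) = F(n,k) - F(n,k+1)` for `k < n` and
`G(n+1,n) = F(n,n)` give `∑_{k<n} G(n,k) = ∑_{j<n} c^(n-1-j) F(j,0)`. -/
theorem wz_sum (F G : ℕ → ℕ → ℚ) (c : ℚ)
    (h : ∀ n k, k < n → G (n + 1) k - c * G n k = F n k - F n (k + 1))
    (h0 : ∀ n, G (n + 1) n = F n n) (n : ℕ) :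
    ∑ k ∈ range n, G n k = ∑ j ∈ range n, c ^ (n - 1 - j) * F j 0 := by
  induction n with
  | zero => simp
  | succ n ih =>
    have h1 : ∑ k ∈ range n, G (n + 1) k = c * ∑ k ∈ range n, G n k + (F n 0 - F n n) := by
      rw [← sum_range_sub' (F n) n, mul_sum, ← sum_add_distrib]
      refine sum_congr rfl fun k hk => ?_
      rw [← h n k (mem_range.1 hk)]; ring
    rw [sum_range_succ, h1, h0 n, ih, sum_range_succ, mul_sum]
    have h2 : ∑ j ∈ range n, c * (c ^ (n - 1 - j) * F j 0)
        = ∑ j ∈ range n, c ^ (n + 1 - 1 - j) * F j 0 := by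
      refine sum_congr rfl fun j hj => ?_
      have hj' := mem_range.1 hj
      rw [← mul_assoc, ← pow_succ']
      congr 2
      omega
    rw [h2, show n + 1 - 1 - n = 0 by omega, pow_zero, one_mul]
    ring

end Q277.FacTools
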