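import Mathlib
import Pool.Agent.Q277.FacTools

/-!
The functions `g j = (2j)!/j!` and `rf j = 1/j!` extended to all integers `j`, with their recurrences,
and summation of a telescoping pair.
-/

namespace Q277.GTools

open Finset Q277.FacTools

/-- `g j = (2j)!/j!` for `j ≥ 0`, continued to negative `j` by `g (j+1) = 2 (2j+1) g j` -/
def g : ℤ → ℚ
  | Int.ofNat n => ((2 * n).factorial : ℚ) / (n.factorial : ℚ)
  | Int.negSucc n => (-1) ^ (n + 1) * ((n + 1).factorial : ℚ) / ((2 * (n + 1)).factorial : ℚ)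

/-- `rf j = 1/j!` for `j ≥ 0` and `0` for `j < 0` -/
def rf : ℤ → ℚ
  | Int.ofNat n => 1 / (n.factorial : ℚ)
  | Int.negSucc _ => 0

theorem g_nat (n : ℕ) : g (n : ℤ) = ((2 * n).factorial : ℚ) / (n.factorial : ℚ) := rfl

theorem g_neg (n : ℕ) : g (-(n : ℤ)) = (-1) ^ n * (n.factorial : ℚ) / ((2 * n).factorial : ℚ) := by
  cases n with
  | zero => show g ((0 : ℕ) : ℤ) = _; rw [g_nat]; simp
  | succ n => rw [show (-(((n + 1 : ℕ)) : ℤ)) = Int.negSucc n from rfl]; rfl

theorem rf_nat (n : ℕ) : rf (n : ℤ) = 1 / (n.factorial : ℚ) := rfl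

theorem rf_neg (j : ℤ) (h : j < 0) : rf j = 0 := by
  cases j with
  | ofNat n => exact absurd h (by simp)
  | negSucc n => rfl

theorem g_succ (j : ℤ) : g (j + 1) = 2 * (2 * j + 1) * g j := by
  rcases le_or_gt 0 j with h | h
  · obtain ⟨n, rfl⟩ := Int.eq_ofNat_of_zero_le h
    rw [show (n : ℤ) + 1 = ((n + 1 : ℕ) : ℤ) by push_cast; ring, g_nat, g_nat,
      show 2 * (n + 1) = 2 * n + 2 by ring, f2, f1]
    have a1 := fne n
    have a2 := fne (2 * n)
    push_cast
    have b1 : (n : ℚ) + 1 ≠ 0 := by positivity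
    field_simp
  · obtain ⟨n, rfl⟩ : ∃ n : ℕ, j = -((n + 1 : ℕ) : ℤ) := ⟨(-j - 1).toNat, by omega⟩
    rw [show -((n + 1 : ℕ) : ℤ) + 1 = -(n : ℤ) by push_cast; ring, g_neg, g_neg,
      show 2 * (n + 1) = 2 * n + 2 by ring, f2, f1, pow_succ]
    have a1 := fne n
    have a2 := fne (2 * n)
    push_cast
    have b1 : (n : ℚ) + 1 ≠ 0 := by positivity
    have b2 : 2 * (n : ℚ) + 1 ≠ 0 := by positivity
    have b3 : 2 * (n : ℚ) + 2 ≠ 0 := by positivity
    field_simp
    ring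

theorem rf_pred (j : ℤ) : rf j = (j + 1) * rf (j + 1) := by
  rcases le_or_gt 0 j with h | h
  · obtain ⟨n, rfl⟩ := Int.eq_ofNat_of_zero_le h
    rw [show (n : ℤ) + 1 = ((n + 1 : ℕ) : ℤ) by push_cast; ring, rf_nat, rf_nat, f1]
    have a1 := fne n
    push_cast
    have b1 : (n : ℚ) + 1 ≠ 0 := by positivity
    field_simp
  · rcases Int.lt_or_eq_of_le (show j + 1 ≤ 0 by omega) with h1 | h1
    · rw [rf_neg j h, rf_neg _ h1, mul_zero]
    · rw [rf_neg j h, show (j : ℚ) + 1 = ((j + 1 : ℤ) : ℚ) by push_cast; ring, h1]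
      simp

theorem g_ne (j : ℤ) : g j ≠ 0 := by
  rcases le_or_gt 0 j with h | h
  · obtain ⟨n, rfl⟩ := Int.eq_ofNat_of_zero_le h
    rw [g_nat]
    exact div_ne_zero (fne _) (fne _)
  · obtain ⟨n, rfl⟩ : ∃ n : ℕ, j = -(n : ℤ) := ⟨(-j).toNat, by omega⟩
    rw [g_neg]
    exact div_ne_zero (mul_ne_zero (pow_ne_zero _ (by norm_num)) (fne _)) (fne _)

/-- Summation of a telescoping pair with support `k < K n`. -/
theorem wz_sum' (F G : ℕ → ℕ → ℚ) (c : ℚ) (K : ℕ → ℕ) (hK0 : K 0 = 0)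
    (h : ∀ n k, G (n + 1) k - c * G n k = F n k - F n (k + 1))
    (hF : ∀ n, F n (K (n + 1)) = 0) (hK : ∀ n, K n ≤ K (n + 1))
    (hG : ∀ n k, K n ≤ k → G n k = 0) (n : ℕ) :
    ∑ k ∈ range (K n), G n k = ∑ j ∈ range n, c ^ (n - 1 - j) * F j 0 := by
  induction n with
  | zero => simp [hK0]
  | succ n ih =>
    have h1 : ∑ k ∈ range (K (n + 1)), G (n + 1) k
        = c * ∑ k ∈ range (K (n + 1)), G n k + (F n 0 - F n (K (n + 1))) := by
      rw [← sum_range_sub' (F n) (K (n + 1)), mul_sum, ← sum_add_distrib]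
      refine sum_congr rfl fun k _ => ?_
      rw [← h n k]; ring
    have h3 : ∑ k ∈ range (K (n + 1)), G n k = ∑ k ∈ range (K n), G n k := by
      symm
      refine sum_subset (range_subset_range.2 (hK n)) fun k _ hk => hG n k ?_
      rw [mem_range] at hk
      omega
    rw [h1, hF n, h3, ih, sum_range_succ, mul_sum, sub_zero]
    have h2 : ∑ j ∈ range n, c * (c ^ (n - 1 - j) * F j 0)
        = ∑ j ∈ range n, c ^ (n + 1 - 1 - j) * F j 0 := by
      refine sum_congr rfl fun j hj => ?_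
      have hj' := mem_range.1 hj
      rw [← mul_assoc, ← pow_succ']
      congr 2
      omega
    rw [h2, show n + 1 - 1 - n = 0 by omega, pow_zero, one_mul]

end Q277.GTools
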