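import Mathlib
import Pool.Agent.Q277.GTools

/-!
The product of the Delannoy type polynomials `d_n(a)` and `s_n(a)` expanded in `C(n,j) C(n+j,j)`.
-/

namespace Q277.DSPoly

open Finset Q277.FacTools Q277.GTools

/-- terms of `d` -/
def delta (n a k : ℕ) : ℚ :=
  2 ^ k * (n.factorial * rf k * rf ((n : ℤ) - k)) * (a.factorial * rf k * rf ((a : ℤ) - k))

/-- terms of `s` -/
def sigma (n a k : ℕ) : ℚ :=
  (n.factorial * rf k * rf ((n : ℤ) - k)) * ((a + k).factorial * rf k ^ 2 * rf ((a : ℤ) - k))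

def dd (n a : ℕ) : ℚ := ∑ k ∈ range (n + 1), delta n a k

def ss (n a : ℕ) : ℚ := ∑ k ∈ range (n + 1), sigma n a k

theorem rf_succ_nat (k : ℕ) : rf (k : ℤ) = (k + 1) * rf ((k : ℤ) + 1) := by
  have h := rf_pred (k : ℤ)
  push_cast at h
  exact h

theorem rf_shift (x : ℤ) : rf (x - 1) = x * rf x := by
  have h := rf_pred (x - 1)
  rw [show x - 1 + 1 = x by ring] at h
  push_cast at h
  rw [h]
  ring

theorem d_rec (n b : ℕ) : (b + 2) * dd n (b + 2) = (2 * n + 1) * dd n (b + 1) + (b + 1) * dd n b := by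
  have key : ∀ k : ℕ, (b + 2 : ℚ) * delta n (b + 2) k - (2 * n + 1) * delta n (b + 1) k
      - (b + 1) * delta n b k
      = -((k + 1 : ℕ) : ℚ) ^ 2 * 2 ^ (k + 1) * (n.factorial * rf ((k + 1 : ℕ) : ℤ) ^ 2 *
          rf ((n : ℤ) - (k + 1 : ℕ))) * ((b + 1).factorial * rf ((b : ℤ) + 2 - (k + 1 : ℕ)))
        - (-((k : ℕ) : ℚ) ^ 2 * 2 ^ k * (n.factorial * rf (k : ℤ) ^ 2 *
          rf ((n : ℤ) - (k : ℕ))) * ((b + 1).factorial * rf ((b : ℤ) + 2 - (k : ℕ)))) := by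
    intro k
    unfold delta
    push_cast
    have e1 := rf_succ_nat k
    have e2 : rf ((n : ℤ) - (k + 1)) = (n - k) * rf ((n : ℤ) - k) := by
      have h := rf_shift ((n : ℤ) - k)
      rw [show (n : ℤ) - k - 1 = n - (k + 1) by ring] at h
      push_cast at h
      exact h
    have e3 : rf ((b : ℤ) + 1 - k) = (b + 2 - k) * rf ((b : ℤ) + 2 - k) := by
      have h := rf_shift ((b : ℤ) + 2 - k)
      rw [show (b : ℤ) + 2 - k - 1 = b + 1 - k by ring] at h
      push_cast at h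
      exact h
    have e4 : rf ((b : ℤ) - k) = (b + 1 - k) * rf ((b : ℤ) + 1 - k) := by
      have h := rf_shift ((b : ℤ) + 1 - k)
      rw [show (b : ℤ) + 1 - k - 1 = b - k by ring] at h
      push_cast at h
      exact h
    rw [show (b : ℤ) + 2 - (k + 1) = b + 1 - k by ring, e1, e2, e4, e3, f1 (b + 1), f1 b, pow_succ]
    generalize rf ((k : ℤ) + 1) = r1
    generalize rf ((n : ℤ) - k) = r2
    generalize rf ((b : ℤ) + 2 - k) = r3
    push_cast
    ring
  have h2 : ∑ k ∈ range (n + 1), ((b + 2 : ℚ) * delta n (b + 2) k - (2 * n + 1) * delta n (b + 1) k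
      - (b + 1) * delta n b k) = 0 := by
    rw [sum_congr rfl fun k _ => key k]
    rw [sum_range_sub (fun k : ℕ => -((k : ℕ) : ℚ) ^ 2 * 2 ^ k * (n.factorial * rf (k : ℤ) ^ 2 *
          rf ((n : ℤ) - (k : ℕ))) * ((b + 1).factorial * rf ((b : ℤ) + 2 - (k : ℕ)))) (n + 1)]
    rw [rf_neg ((n : ℤ) - ((n + 1 : ℕ))) (by push_cast; omega)]
    simp
  unfold dd
  rw [sum_sub_distrib, sum_sub_distrib, ← mul_sum, ← mul_sum, ← mul_sum] at h2
  linear_combination h2

theorem s_rec (n b : ℕ) : (b + 2) ^ 2 * ss n (b + 2)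
    = (2 * b + 3) * (2 * n + 1) * ss n (b + 1) + (b + 1) ^ 2 * ss n b := by
  have key : ∀ k : ℕ, (b + 2 : ℚ) ^ 2 * sigma n (b + 2) k - (2 * b + 3) * (2 * n + 1) *
      sigma n (b + 1) k - (b + 1) ^ 2 * sigma n b k
      = (-2 * (2 * b + 3) * ((k + 1 : ℕ) : ℚ) ^ 3 * (n.factorial * rf ((k + 1 : ℕ) : ℤ) ^ 3 *
          rf ((n : ℤ) - (k + 1 : ℕ))) * ((b + (k + 1)).factorial * rf ((b : ℤ) + 2 - (k + 1 : ℕ))))
        - (-2 * (2 * b + 3) * ((k : ℕ) : ℚ) ^ 3 * (n.factorial * rf (k : ℤ) ^ 3 *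
          rf ((n : ℤ) - (k : ℕ))) * ((b + k).factorial * rf ((b : ℤ) + 2 - (k : ℕ)))) := by
    intro k
    unfold sigma
    push_cast
    have e1 := rf_succ_nat k
    have e2 : rf ((n : ℤ) - (k + 1)) = (n - k) * rf ((n : ℤ) - k) := by
      have h := rf_shift ((n : ℤ) - k)
      rw [show (n : ℤ) - k - 1 = n - (k + 1) by ring] at h
      push_cast at h
      exact h
    have e3 : rf ((b : ℤ) + 1 - k) = (b + 2 - k) * rf ((b : ℤ) + 2 - k) := by
      have h := rf_shift ((b : ℤ) + 2 - k)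
      rw [show (b : ℤ) + 2 - k - 1 = b + 1 - k by ring] at h
      push_cast at h
      exact h
    have e4 : rf ((b : ℤ) - k) = (b + 1 - k) * rf ((b : ℤ) + 1 - k) := by
      have h := rf_shift ((b : ℤ) + 1 - k)
      rw [show (b : ℤ) + 1 - k - 1 = b - k by ring] at h
      push_cast at h
      exact h
    rw [show (b : ℤ) + 2 - (k + 1) = b + 1 - k by ring, e1, e2, e4, e3,
      show b + 2 + k = b + k + 2 by ring, show b + 1 + k = b + k + 1 by ring,
      show b + (k + 1) = b + k + 1 by ring, f2 (b + k), f1 (b + k)]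
    generalize rf ((k : ℤ) + 1) = r1
    generalize rf ((n : ℤ) - k) = r2
    generalize rf ((b : ℤ) + 2 - k) = r3
    push_cast
    ring
  have h2 : ∑ k ∈ range (n + 1), ((b + 2 : ℚ) ^ 2 * sigma n (b + 2) k - (2 * b + 3) * (2 * n + 1) *
      sigma n (b + 1) k - (b + 1) ^ 2 * sigma n b k) = 0 := by
    rw [sum_congr rfl fun k _ => key k]
    rw [sum_range_sub (fun k : ℕ => -2 * (2 * b + 3) * ((k : ℕ) : ℚ) ^ 3 * (n.factorial *
      rf (k : ℤ) ^ 3 * rf ((n : ℤ) - (k : ℕ))) * ((b + k).factorial * rf ((b : ℤ) + 2 - (k : ℕ))))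
      (n + 1)]
    rw [rf_neg ((n : ℤ) - ((n + 1 : ℕ))) (by push_cast; omega)]
    simp
  unfold ss
  rw [sum_sub_distrib, sum_sub_distrib, ← mul_sum, ← mul_sum, ← mul_sum] at h2
  linear_combination h2

end Q277.DSPoly
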