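import Mathlib
import Pool.Agent.Q277.DSPoly

/-!
Connection coefficients between `d_n(a) s_n(a)` and `C(n,j) C(n+j,j)`.
-/

namespace Q277.DSPoly

open Finset Q277.FacTools Q277.GTools

def tt (j a k : ℕ) : ℚ :=
  (-2) ^ k * ((a + k).factorial : ℚ) ^ 2 * rf k ^ 2 * rf ((j : ℤ) - k) *
    rf ((a : ℤ) + k - 2 * j) * rf a

def uu (j b k : ℕ) : ℚ :=
  (-2) ^ k * ((b + k).factorial : ℚ) * ((b + 1 + k).factorial : ℚ) * rf k ^ 2 *
    rf ((j : ℤ) - k) * rf ((b : ℤ) + k - 2 * j) * rf ((b : ℤ) + 1)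

def con (j : ℕ) : ℚ := (-1) ^ j * j.factorial * rf (2 * j)

def vv (j a : ℕ) : ℚ := con j * ∑ k ∈ range (j + 1), tt j a k

def et (j b : ℕ) : ℚ := con j * ∑ k ∈ range (j + 1), uu j b k

theorem r1 (j b : ℕ) : (b + 2) * (b + 3) * et j (b + 2) - (b + 1) ^ 2 * et j b
    = (2 * j + 1) * ((b + 2) * vv j (b + 2) + (2 * b + 3) * vv j (b + 1)) := by
  have key : ∀ k : ℕ, (b + 2 : ℚ) * (b + 3) * uu j (b + 2) k - (b + 1) ^ 2 * uu j b k
      - (2 * j + 1) * ((b + 2) * tt j (b + 2) k + (2 * b + 3) * tt j (b + 1) k)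
      = ((k + 1 : ℕ) : ℚ) ^ 2 * uu j b (k + 1) - (k : ℚ) ^ 2 * uu j b k := by
    intro k
    unfold uu tt
    push_cast
    have e1 := rf_succ_nat k
    have e2 : rf ((j : ℤ) - (k + 1)) = (j - k) * rf ((j : ℤ) - k) := by
      have h := rf_shift ((j : ℤ) - k)
      rw [show (j : ℤ) - k - 1 = j - (k + 1) by ring] at h
      push_cast at h
      exact h
    have e3 : rf ((b : ℤ) + k - 2 * j) = (b + k + 1 - 2 * j) * rf ((b : ℤ) + k + 1 - 2 * j) := by
      have h := rf_shift ((b : ℤ) + k + 1 - 2 * j)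
      rw [show (b : ℤ) + k + 1 - 2 * j - 1 = b + k - 2 * j by ring] at h
      push_cast at h
      exact h
    have e4 : rf ((b : ℤ) + k + 1 - 2 * j) = (b + k + 2 - 2 * j) * rf ((b : ℤ) + k + 2 - 2 * j) := by
      have h := rf_shift ((b : ℤ) + k + 2 - 2 * j)
      rw [show (b : ℤ) + k + 2 - 2 * j - 1 = b + k + 1 - 2 * j by ring] at h
      push_cast at h
      exact h
    have e5 : rf ((b : ℤ) + 1) = (b + 2) * rf ((b : ℤ) + 2) := by
      have h := rf_shift ((b : ℤ) + 2)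
      rw [show (b : ℤ) + 2 - 1 = b + 1 by ring] at h
      push_cast at h
      exact h
    have e6 : rf ((b : ℤ) + 2) = (b + 3) * rf ((b : ℤ) + 3) := by
      have h := rf_shift ((b : ℤ) + 3)
      rw [show (b : ℤ) + 3 - 1 = b + 2 by ring] at h
      push_cast at h
      exact h
    rw [show (b : ℤ) + 2 + 1 = b + 3 by ring, show (b : ℤ) + 2 + k - 2 * j = b + k + 2 - 2 * j by ring,
      show (b : ℤ) + 1 + k - 2 * j = b + k + 1 - 2 * j by ring,
      show (b : ℤ) + (k + 1) - 2 * j = b + k + 1 - 2 * j by ring,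
      show b + 2 + k = b + k + 2 by ring, show b + 2 + 1 + k = b + k + 3 by ring,
      show b + 1 + k = b + k + 1 by ring, show b + (k + 1) = b + k + 1 by ring,
      show b + 1 + (k + 1) = b + k + 2 by ring,
      e1, e2, e3, e4, e5, e6, f3 (b + k), f2 (b + k), f1 (b + k), pow_succ]
    generalize rf ((k : ℤ) + 1) = q1
    generalize rf ((j : ℤ) - k) = q2
    generalize rf ((b : ℤ) + k + 2 - 2 * j) = q3
    generalize rf ((b : ℤ) + 3) = q4
    push_cast
    ring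
  have h2 : ∑ k ∈ range (j + 1), ((b + 2 : ℚ) * (b + 3) * uu j (b + 2) k - (b + 1) ^ 2 * uu j b k
      - (2 * j + 1) * ((b + 2) * tt j (b + 2) k + (2 * b + 3) * tt j (b + 1) k)) = 0 := by
    rw [sum_congr rfl fun k _ => key k]
    rw [sum_range_sub (fun k : ℕ => (k : ℚ) ^ 2 * uu j b k) (j + 1)]
    have : uu j b (j + 1) = 0 := by
      unfold uu
      rw [rf_neg ((j : ℤ) - ((j + 1 : ℕ))) (by push_cast; omega)]
      simp
    rw [this]
    simp
  unfold et vv
  rw [sum_sub_distrib, sum_sub_distrib, ← mul_sum, ← mul_sum, ← mul_sum, sum_add_distrib,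
    ← mul_sum, ← mul_sum] at h2
  linear_combination (con j) * h2

/-- polynomial of the certificate of `r2`, with `a = b + 1` -/
def pp (j b k : ℚ) : ℚ :=
  -2*j*k - 2*j*k^2 - 2*(b+1)*j - 8*(b+1)*j*k - 4*(b+1)*j*k^2 + (b+1)^2*k + (b+1)^2*k^2 - 8*(b+1)^2*j
    - 12*(b+1)^2*j*k + 4*(b+1)^2*j^2 + (b+1)^3 + 2*(b+1)^3*k - 8*(b+1)^3*j + (b+1)^4

def gg (j b k : ℕ) : ℚ :=
  (k : ℚ) ^ 2 * pp j b k * (-2) ^ k * ((b + k).factorial : ℚ) ^ 2 * rf k ^ 2 * rf ((j : ℤ) - k) *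
    rf ((b : ℤ) + k + 2 - 2 * j) * rf ((b : ℤ) + 1)

theorem r2_key (i b k : ℕ) : (b + 2 : ℚ) ^ 3 * tt (i + 1) (b + 2) k - (b + 1) ^ 3 * tt (i + 1) b k
      - (2 * b + 3) * (b + 2) * ((2 * (i + 1) + 1) * uu (i + 1) (b + 1) k
          - 8 * (i + 1) ^ 2 * uu i (b + 1) k)
      - (b + 1) ^ 2 * ((2 * (i + 1) + 1) * uu (i + 1) b k - 8 * (i + 1) ^ 2 * uu i b k)
      = gg (i + 1) b (k + 1) - gg (i + 1) b k := by
  unfold uu tt gg
  push_cast
  have e1 := rf_succ_nat k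
  have e2 : rf ((i : ℤ) - k) = (i + 1 - k) * rf ((i : ℤ) + 1 - k) := by
    have h := rf_shift ((i : ℤ) + 1 - k)
    rw [show (i : ℤ) + 1 - k - 1 = i - k by ring] at h
    push_cast at h
    exact h
  have e3 : rf ((b : ℤ) + k - 2 * i) = (b + k + 1 - 2 * i) * rf ((b : ℤ) + k + 1 - 2 * i) := by
    have h := rf_shift ((b : ℤ) + k + 1 - 2 * i)
    rw [show (b : ℤ) + k + 1 - 2 * i - 1 = b + k - 2 * i by ring] at h
    push_cast at h
    exact h
  have e4 : rf ((b : ℤ) + k - 1 - 2 * i) = (b + k - 2 * i) * rf ((b : ℤ) + k - 2 * i) := by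
    have h := rf_shift ((b : ℤ) + k - 2 * i)
    rw [show (b : ℤ) + k - 2 * i - 1 = b + k - 1 - 2 * i by ring] at h
    push_cast at h
    exact h
  have e5 : rf ((b : ℤ) + k - 2 - 2 * i) = (b + k - 1 - 2 * i) * rf ((b : ℤ) + k - 1 - 2 * i) := by
    have h := rf_shift ((b : ℤ) + k - 1 - 2 * i)
    rw [show (b : ℤ) + k - 1 - 2 * i - 1 = b + k - 2 - 2 * i by ring] at h
    push_cast at h
    exact h
  have e6 : rf ((b : ℤ) + 1) = (b + 2) * rf ((b : ℤ) + 2) := by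
    have h := rf_shift ((b : ℤ) + 2)
    rw [show (b : ℤ) + 2 - 1 = b + 1 by ring] at h
    push_cast at h
    exact h
  have e7 : rf (b : ℤ) = (b + 1) * rf ((b : ℤ) + 1) := rf_succ_nat b
  rw [show (b : ℤ) + 1 + 1 = b + 2 by ring, show (b : ℤ) + 2 + k - 2 * (i + 1) = b + k - 2 * i by ring,
    show (b : ℤ) + k - 2 * (i + 1) = b + k - 2 - 2 * i by ring,
    show (b : ℤ) + 1 + k - 2 * (i + 1) = b + k - 1 - 2 * i by ring,
    show (b : ℤ) + 1 + k - 2 * i = b + k + 1 - 2 * i by ring,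
    show (b : ℤ) + (k + 1) + 2 - 2 * (i + 1) = b + k + 1 - 2 * i by ring,
    show (b : ℤ) + k + 2 - 2 * (i + 1) = b + k - 2 * i by ring,
    show (i : ℤ) + 1 - (k + 1) = i - k by ring,
    show b + 2 + k = b + k + 2 by ring,
    show b + 1 + k = b + k + 1 by ring, show b + (k + 1) = b + k + 1 by ring,
    e1, e2, e5, e4, e3, e7, e6, f2 (b + k), f1 (b + k), pow_succ]
  unfold pp
  generalize rf ((k : ℤ) + 1) = q1
  generalize rf ((i : ℤ) + 1 - k) = q2
  generalize rf ((b : ℤ) + k + 1 - 2 * i) = q3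
  generalize rf ((b : ℤ) + 2) = q4
  push_cast
  ring

theorem con_succ (i : ℕ) : con i = -2 * (2 * i + 1) * con (i + 1) := by
  unfold con
  have h1 : rf (2 * (i : ℤ)) = (2 * i + 1) * rf (2 * (i : ℤ) + 1) := by
    have h := rf_shift (2 * (i : ℤ) + 1)
    rw [show 2 * (i : ℤ) + 1 - 1 = 2 * i by ring] at h
    push_cast at h
    exact h
  have h2 : rf (2 * (i : ℤ) + 1) = (2 * i + 2) * rf (2 * (i : ℤ) + 2) := by
    have h := rf_shift (2 * (i : ℤ) + 2)
    rw [show 2 * (i : ℤ) + 2 - 1 = 2 * i + 1 by ring] at h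
    push_cast at h
    exact h
  rw [h1, h2, f1, pow_succ]
  push_cast
  rw [show 2 * ((i : ℤ) + 1) = 2 * i + 2 by ring]
  ring

theorem tt_top (j a k : ℕ) (h : j < k) : tt j a k = 0 := by
  unfold tt
  rw [rf_neg ((j : ℤ) - k) (by omega)]
  simp

theorem uu_top (j a k : ℕ) (h : j < k) : uu j a k = 0 := by
  unfold uu
  rw [rf_neg ((j : ℤ) - k) (by omega)]
  simp

/-- combination occurring in `r2` -/
def hh (j b : ℕ) : ℚ := (2 * j + 1) * et j b + 4 * (j : ℚ) ^ 2 * et (j - 1) b / (2 * j - 1)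

theorem vv_zero (a : ℕ) : vv 0 a = 1 := by
  unfold vv con tt
  simp only [zero_add, range_one, sum_singleton]
  have h0 : rf 0 = 1 := by
    have := rf_nat 0
    simpa using this
  have h1 : rf (a : ℤ) = 1 / (a.factorial : ℚ) := rf_nat a
  have := fne a
  simp [h0, h1]
  field_simp

theorem et_zero (b : ℕ) : et 0 b = 1 := by
  unfold et con uu
  simp only [zero_add, range_one, sum_singleton]
  have h0 : rf 0 = 1 := by
    have := rf_nat 0
    simpa using this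
  have h1 : rf (b : ℤ) = 1 / (b.factorial : ℚ) := rf_nat b
  have h2 : rf ((b : ℤ) + 1) = 1 / ((b + 1).factorial : ℚ) := by
    have := rf_nat (b + 1)
    push_cast at this
    exact this
  have := fne b
  have := fne (b + 1)
  simp [h0, h1, h2]
  field_simp

theorem r2 (j b : ℕ) : (b + 2) ^ 3 * vv j (b + 2) - (b + 1) ^ 3 * vv j b
    = (2 * b + 3) * (b + 2) * hh j (b + 1) + (b + 1) ^ 2 * hh j b := by
  cases j with
  | zero =>
    unfold hh
    rw [vv_zero, vv_zero, et_zero, et_zero]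
    push_cast
    ring
  | succ i =>
    have h2 : ∑ k ∈ range (i + 2), ((b + 2 : ℚ) ^ 3 * tt (i + 1) (b + 2) k
      - (b + 1) ^ 3 * tt (i + 1) b k
      - (2 * b + 3) * (b + 2) * ((2 * (i + 1) + 1) * uu (i + 1) (b + 1) k
          - 8 * (i + 1) ^ 2 * uu i (b + 1) k)
      - (b + 1) ^ 2 * ((2 * (i + 1) + 1) * uu (i + 1) b k - 8 * (i + 1) ^ 2 * uu i b k)) = 0 := by
      rw [sum_congr rfl fun k _ => r2_key i b k]
      rw [sum_range_sub (fun k : ℕ => gg (i + 1) b k) (i + 2)]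
      have h1 : gg (i + 1) b (i + 2) = 0 := by
        unfold gg
        rw [rf_neg (((i + 1 : ℕ) : ℤ) - ((i + 2 : ℕ))) (by push_cast; omega)]
        simp
      rw [h1]
      unfold gg
      simp
    have hu : ∀ b : ℕ, ∑ k ∈ range (i + 2), uu i b k = ∑ k ∈ range (i + 1), uu i b k := by
      intro b
      rw [sum_range_succ, uu_top i b (i + 1) (by omega), add_zero]
    have hi : (2 * ((i + 1 : ℕ) : ℚ) - 1) ≠ 0 := by
      push_cast
      have : (0 : ℚ) < 2 * (i + 1) - 1 := by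
        have : (0 : ℚ) ≤ i := by positivity
        linarith
      exact this.ne'
    have hc := con_succ i
    unfold hh vv et
    rw [show i + 1 - 1 = i by omega, show i + 1 + 1 = i + 2 by ring]
    simp only [sum_sub_distrib, mul_sub, ← mul_sum] at h2
    rw [hu, hu] at h2
    rw [hc]
    field_simp
    push_cast
    rw [show (2 * ((i : ℚ) + 1) - 1) = 2 * i + 1 by ring]
    linear_combination (2 * (i : ℚ) + 1) * con (i + 1) * h2

end Q277.DSPoly
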