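import Mathlib
import Pool.Agent.Q277.DSPoly2

/-!
Expansion of `d_n(a) s_n(a)` in `C(n,j) C(n+j,j)` with integer coefficients independent of `n`.
-/

namespace Q277.DSPoly

open Finset Q277.FacTools Q277.GTools

/-- `c_j(n) = C(n,j) C(n+j,j)` -/
def cc (n j : ℕ) : ℚ := (n.choose j : ℚ) * ((n + j).choose j : ℚ)

theorem cc_top (n j : ℕ) (h : n < j) : cc n j = 0 := by
  unfold cc
  rw [Nat.choose_eq_zero_of_lt h]
  simp

theorem cc_zero (n : ℕ) : cc n 0 = 1 := by simp [cc]

theorem cc_succ (n j : ℕ) : ((j : ℚ) + 1) ^ 2 * cc n (j + 1) = (n * (n + 1) - j * (j + 1)) * cc n j := by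
  unfold cc
  have h1 : (n.choose (j + 1) : ℚ) * (j + 1) = n.choose j * (n - j) := by
    rcases le_or_gt j n with h | h
    · have := Nat.choose_succ_right_eq n j
      have h' : ((n.choose (j + 1) * (j + 1) : ℕ) : ℚ) = ((n.choose j * (n - j) : ℕ) : ℚ) := by
        rw [this]
      push_cast [Nat.cast_sub h] at h'
      exact h'
    · rw [Nat.choose_eq_zero_of_lt h, Nat.choose_eq_zero_of_lt (by omega)]
      simp
  have h2 : ((n + (j + 1)).choose (j + 1) : ℚ) * (j + 1) = (n + j + 1) * (n + j).choose j := by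
    have := Nat.add_one_mul_choose_eq (n + j) j
    have h' : (((n + j + 1) * (n + j).choose j : ℕ) : ℚ)
        = (((n + j + 1).choose (j + 1) * (j + 1) : ℕ) : ℚ) := by rw [this]
    push_cast at h'
    rw [show n + (j + 1) = n + j + 1 by ring]
    linarith
  calc ((j : ℚ) + 1) ^ 2 * ((n.choose (j + 1) : ℚ) * ((n + (j + 1)).choose (j + 1) : ℚ))
      = ((n.choose (j + 1) : ℚ) * (j + 1)) * (((n + (j + 1)).choose (j + 1) : ℚ) * (j + 1)) := by ring
    _ = _ := by rw [h1, h2]; ring

theorem cc_one (n : ℕ) : cc n 1 = n * (n + 1) := by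
  have := cc_succ n 0
  rw [cc_zero] at this
  push_cast at this
  linarith

theorem sum_small (n : ℕ) (f : ℕ → ℚ) (hf : ∀ j, 2 ≤ j → f j = 0) :
    ∑ j ∈ range (n + 1), cc n j * f j = f 0 + n * (n + 1) * f 1 := by
  cases n with
  | zero => simp [cc_zero]
  | succ n =>
    rw [sum_range_succ', sum_range_succ', sum_eq_zero (fun j _ => by rw [hf (j + 1 + 1) (by omega)]; simp),
      cc_zero, zero_add, zero_add, cc_one]
    ring

theorem vv_top (j a : ℕ) (h : a < j) : vv j a = 0 := by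
  unfold vv
  rw [sum_eq_zero, mul_zero]
  intro k hk
  unfold tt
  have := mem_range.1 hk
  rw [rf_neg ((a : ℤ) + k - 2 * j) (by omega)]
  simp

theorem et_top (j a : ℕ) (h : a < j) : et j a = 0 := by
  unfold et
  rw [sum_eq_zero, mul_zero]
  intro k hk
  unfold uu
  have := mem_range.1 hk
  rw [rf_neg ((a : ℤ) + k - 2 * j) (by omega)]
  simp

theorem rf0 : rf 0 = 1 := by
  have := rf_nat 0
  simpa using this

theorem rf1 : rf 1 = 1 := by
  have := rf_nat 1
  simpa using this

theorem rf2 : rf 2 = 1 / 2 := by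
  have := rf_nat 2
  simpa using this

theorem vv_one_one : vv 1 1 = 4 := by
  unfold vv con tt
  rw [sum_range_succ, sum_range_succ, sum_range_zero]
  have h := rf_neg (-1) (by omega)
  simp [rf0, rf1, rf2, h]
  norm_num

theorem choose_rf (n k : ℕ) : (n.choose k : ℚ) = n.factorial * rf k * rf ((n : ℤ) - k) := by
  rcases le_or_gt k n with h | h
  · rw [show (n : ℤ) - k = ((n - k : ℕ) : ℤ) by omega, rf_nat, rf_nat, Nat.cast_choose ℚ h]
    have := fne k
    have := fne (n - k)
    field_simp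
  · rw [Nat.choose_eq_zero_of_lt h, rf_neg ((n : ℤ) - k) (by omega)]
    simp

theorem dd_zero (n : ℕ) : dd n 0 = 1 := by
  unfold dd
  rw [sum_eq_single 0]
  · unfold delta
    have h1 : rf (n : ℤ) = 1 / (n.factorial : ℚ) := rf_nat n
    have := fne n
    simp [rf0, h1]
    field_simp
  · intro k _ hk
    unfold delta
    rw [rf_neg (((0 : ℕ) : ℤ) - k) (by omega)]
    simp
  · simp

theorem ss_zero (n : ℕ) : ss n 0 = 1 := by
  unfold ss
  rw [sum_eq_single 0]
  · unfold sigma
    have h1 : rf (n : ℤ) = 1 / (n.factorial : ℚ) := rf_nat n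
    have := fne n
    simp [rf0, h1]
    field_simp
  · intro k _ hk
    unfold sigma
    rw [rf_neg (((0 : ℕ) : ℤ) - k) (by omega)]
    simp
  · simp

theorem sum_first_two (n : ℕ) (f : ℕ → ℚ) (hf : ∀ j, 2 ≤ j → f j = 0) (h1 : n = 0 → f 1 = 0) :
    ∑ j ∈ range (n + 1), f j = f 0 + f 1 := by
  cases n with
  | zero => simp [h1]
  | succ n =>
    rw [sum_range_succ', sum_range_succ', sum_eq_zero (fun j _ => hf (j + 1 + 1) (by omega)),
      zero_add, zero_add]
    ring

theorem dd_one (n : ℕ) : dd n 1 = 2 * n + 1 := by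
  unfold dd
  rw [sum_first_two n]
  · unfold delta
    rw [← choose_rf, ← choose_rf, ← choose_rf, ← choose_rf]
    simp
    ring
  · intro k hk
    unfold delta
    rw [rf_neg (((1 : ℕ) : ℤ) - k) (by omega)]
    simp
  · intro h
    subst h
    unfold delta
    rw [rf_neg (((0 : ℕ) : ℤ) - (1 : ℕ)) (by omega)]
    simp

theorem ss_one (n : ℕ) : ss n 1 = 2 * n + 1 := by
  unfold ss
  rw [sum_first_two n]
  · unfold sigma
    rw [← choose_rf, ← choose_rf]
    simp [rf0, rf1]
    ring
  · intro k hk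
    unfold sigma
    rw [rf_neg (((1 : ℕ) : ℤ) - k) (by omega)]
    simp
  · intro h
    subst h
    unfold sigma
    rw [rf_neg (((0 : ℕ) : ℤ) - (1 : ℕ)) (by omega)]
    simp

/-- the products -/
def PP (n b : ℕ) : ℚ := dd n b * ss n b
def QQ (n b : ℕ) : ℚ := dd n (b + 1) * ss n b

theorem s1 (n b : ℕ) : (b + 2) * (b + 3) * QQ n (b + 2) - (b + 1) ^ 2 * QQ n b
    = (2 * n + 1) * ((b + 2) * PP n (b + 2) + (2 * b + 3) * PP n (b + 1)) := by
  unfold QQ PP
  have h1 := d_rec n (b + 1)
  have h2 := s_rec n b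
  rw [show b + 1 + 2 = b + 2 + 1 by ring, show b + 1 + 1 = b + 2 by ring] at h1
  push_cast at h1
  linear_combination (b + 2 : ℚ) * ss n (b + 2) * h1 + dd n (b + 1) * h2

theorem s2 (n b : ℕ) : (b + 2) ^ 3 * PP n (b + 2) - (b + 1) ^ 3 * PP n b
    = (2 * n + 1) * ((2 * b + 3) * (b + 2) * QQ n (b + 1) + (b + 1) ^ 2 * QQ n b) := by
  unfold QQ PP
  have h1 := d_rec n b
  have h2 := s_rec n b
  rw [show b + 1 + 1 = b + 2 by ring]
  linear_combination (b + 1 : ℚ) ^ 2 * ss n b * h1 + (b + 2 : ℚ) * dd n (b + 2) * h2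

/-- the shift in `j` -/
theorem shift_sum (n b : ℕ) : (2 * n + 1 : ℚ) ^ 2 * ∑ j ∈ range (n + 1), cc n j * (et j b / (2 * j + 1))
    = ∑ j ∈ range (n + 1), cc n j * hh j b := by
  have h1 : ∀ j ∈ range (n + 1), (2 * n + 1 : ℚ) ^ 2 * (cc n j * (et j b / (2 * j + 1)))
      = cc n j * ((2 * j + 1) * et j b)
        + 4 * ((j + 1 : ℕ) : ℚ) ^ 2 * cc n (j + 1) * (et (j + 1 - 1) b / (2 * ((j + 1 : ℕ) : ℚ) - 1)) := by
    intro j _
    have h := cc_succ n j
    have hj : (2 * (j : ℚ) + 1) ≠ 0 := by positivity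
    rw [show j + 1 - 1 = j by omega]
    push_cast
    rw [show 2 * ((j : ℚ) + 1) - 1 = 2 * j + 1 by ring]
    field_simp
    linear_combination (-4 * et j b) * h
  rw [mul_sum, sum_congr rfl h1, sum_add_distrib]
  have h2 := sum_range_succ' (fun j : ℕ => 4 * ((j : ℕ) : ℚ) ^ 2 * cc n j * (et (j - 1) b / (2 * (j : ℚ) - 1)))
    (n + 1)
  have h3 := sum_range_succ (fun j : ℕ => 4 * ((j : ℕ) : ℚ) ^ 2 * cc n j * (et (j - 1) b / (2 * (j : ℚ) - 1)))
    (n + 1)
  simp only [cc_top n (n + 1) (by omega)] at h3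
  rw [h3] at h2
  simp only [Nat.cast_zero, mul_zero, zero_mul, add_zero, ne_eq, OfNat.ofNat_ne_zero, not_false_eq_true,
    zero_pow] at h2
  rw [← h2, ← sum_add_distrib]
  refine sum_congr rfl fun j _ => ?_
  unfold hh
  ring

theorem expand (n b : ℕ) :
    (PP n b = ∑ j ∈ range (n + 1), cc n j * vv j b) ∧
    (PP n (b + 1) = ∑ j ∈ range (n + 1), cc n j * vv j (b + 1)) ∧
    (QQ n b = (2 * n + 1) * ∑ j ∈ range (n + 1), cc n j * (et j b / (2 * j + 1))) ∧
    (QQ n (b + 1) = (2 * n + 1) * ∑ j ∈ range (n + 1), cc n j * (et j (b + 1) / (2 * j + 1))) := by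
  induction b with
  | zero =>
    refine ⟨?_, ?_, ?_, ?_⟩
    · rw [sum_small n _ (fun j hj => vv_top j 0 (by omega)), vv_zero, vv_top 1 0 (by omega)]
      unfold PP
      rw [dd_zero, ss_zero]
      ring
    · rw [sum_small n _ (fun j hj => vv_top j (0 + 1) (by omega)), vv_zero, zero_add, vv_one_one]
      unfold PP
      rw [dd_one, ss_one]
      ring
    · rw [sum_small n _ (fun j hj => by rw [et_top j 0 (by omega)]; simp), et_zero, et_top 1 0 (by omega)]
      unfold QQ
      rw [dd_one, ss_zero]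
      simp
    · rw [sum_small n _ (fun j hj => by rw [et_top j (0 + 1) (by omega)]; simp), et_zero, zero_add]
      have h : et 1 1 = 6 := by
        unfold et con uu
        rw [sum_range_succ, sum_range_succ, sum_range_zero]
        have h := rf_neg (-1) (by omega)
        simp [rf0, rf1, rf2, h]
        norm_num [rf2]
      rw [h]
      have h1 := d_rec n 0
      simp only [zero_add, dd_zero, dd_one] at h1
      unfold QQ
      rw [ss_one, show 1 + 1 = 2 by norm_num]
      have h2 : dd n 2 = ((2 * n + 1) * (2 * n + 1) + 1) / 2 := by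
        push_cast at h1
        linarith
      rw [h2]
      push_cast
      ring
  | succ b ih =>
    obtain ⟨i1, i2, i3, i4⟩ := ih
    have j2 : PP n (b + 1 + 1) = ∑ j ∈ range (n + 1), cc n j * vv j (b + 1 + 1) := by
      have h := s2 n b
      have hb : ((b : ℚ) + 2) ^ 3 ≠ 0 := by positivity
      rw [show b + 1 + 1 = b + 2 by ring]
      apply mul_left_cancel₀ hb
      have e : ∀ j ∈ range (n + 1), ((b : ℚ) + 2) ^ 3 * (cc n j * vv j (b + 2))
          = (b + 1) ^ 3 * (cc n j * vv j b) + ((2 * b + 3) * (b + 2) * (cc n j * hh j (b + 1))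
            + (b + 1) ^ 2 * (cc n j * hh j b)) := by
        intro j _
        have := r2 j b
        linear_combination (cc n j) * this
      rw [mul_sum, sum_congr rfl e, sum_add_distrib, sum_add_distrib, ← mul_sum, ← mul_sum, ← mul_sum,
        ← shift_sum, ← shift_sum, ← i1]
      rw [i3, i4] at h
      linear_combination h
    refine ⟨i2, j2, i4, ?_⟩
    have h := s1 n b
    have hb : ((b : ℚ) + 2) * (b + 3) ≠ 0 := by positivity
    rw [show b + 1 + 1 = b + 2 by ring] at j2 ⊢
    apply mul_left_cancel₀ hb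
    have e : ∀ j ∈ range (n + 1), ((b : ℚ) + 2) * (b + 3) * (cc n j * (et j (b + 2) / (2 * j + 1)))
        = (b + 1) ^ 2 * (cc n j * (et j b / (2 * j + 1))) + ((b + 2) * (cc n j * vv j (b + 2))
          + (2 * b + 3) * (cc n j * vv j (b + 1))) := by
      intro j _
      have := r1 j b
      have hj : (2 * (j : ℚ) + 1) ≠ 0 := by positivity
      field_simp
      linear_combination (cc n j) * this
    have e2 : ((b : ℚ) + 2) * (b + 3) * ∑ j ∈ range (n + 1), cc n j * (et j (b + 2) / (2 * j + 1))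
        = (b + 1) ^ 2 * ∑ j ∈ range (n + 1), cc n j * (et j b / (2 * j + 1))
          + ((b + 2) * PP n (b + 2) + (2 * b + 3) * PP n (b + 1)) := by
      rw [mul_sum, sum_congr rfl e, sum_add_distrib, sum_add_distrib, ← mul_sum, ← mul_sum, ← mul_sum,
        ← j2, ← i2]
    rw [i3] at h
    linear_combination h - (2 * n + 1 : ℚ) * e2

/-- integer coefficients -/
def vz (j a : ℕ) : ℤ :=
  ∑ k ∈ range (j + 1), (-1) ^ (j + k) * 2 ^ k * (j.choose k : ℤ) * ((a + k).choose (2 * j) : ℤ) *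
    ((a + k).choose k : ℤ)

theorem vv_int (j a : ℕ) : vv j a = (vz j a : ℚ) := by
  unfold vv vz con tt
  push_cast
  rw [mul_sum]
  refine sum_congr rfl fun k _ => ?_
  rw [choose_rf j k, choose_rf (a + k) (2 * j), choose_rf (a + k) k, pow_add]
  push_cast
  rw [show (a : ℤ) + k - k = a by ring, show (-2 : ℚ) ^ k = (-1) ^ k * 2 ^ k by rw [← mul_pow]; norm_num]
  ring

end Q277.DSPoly
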