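import Mathlib
import Pool.Agent.Q277.DSPoly3

/-!
The integer span of the functions `n ↦ C(n,j) C(n+j,j)` is a ring, and weighted sums of its members
over `k < n` are divisible by `n`.
-/

namespace Q277.DSPoly

open Finset Q277.FacTools Q277.GTools

def al (i j k : ℕ) : ℚ :=
  (k.factorial * rf i * rf ((k : ℤ) - i)) * (k.factorial * rf j * rf ((k : ℤ) - j)) *
    ((i + j).factorial * rf k * rf ((i : ℤ) + j - k))

theorem al_int (i j k : ℕ) : al i j k = ((k.choose i * k.choose j * (i + j).choose k : ℕ) : ℚ) := by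
  unfold al
  push_cast
  rw [choose_rf, choose_rf, choose_rf]
  push_cast
  ring

theorem al_rec (i j l : ℕ) : ((i : ℚ) + 1) ^ 2 * al (i + 1) j (l + 1)
    = ((l + 1) * (l + 2) - i * (i + 1)) * al i j (l + 1) + (l + 1) ^ 2 * al i j l := by
  unfold al
  push_cast
  have e1 := rf_succ_nat i
  have e5 := rf_succ_nat l
  have e2 : rf ((l : ℤ) - i) = (l + 1 - i) * rf ((l : ℤ) + 1 - i) := by
    have h := rf_shift ((l : ℤ) + 1 - i)
    rw [show (l : ℤ) + 1 - i - 1 = l - i by ring] at h
    push_cast at h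
    exact h
  have e3 : rf ((l : ℤ) - j) = (l + 1 - j) * rf ((l : ℤ) + 1 - j) := by
    have h := rf_shift ((l : ℤ) + 1 - j)
    rw [show (l : ℤ) + 1 - j - 1 = l - j by ring] at h
    push_cast at h
    exact h
  have e4 : rf ((i : ℤ) + j - (l + 1)) = (i + j - l) * rf ((i : ℤ) + j - l) := by
    have h := rf_shift ((i : ℤ) + j - l)
    rw [show (i : ℤ) + j - l - 1 = i + j - (l + 1) by ring] at h
    push_cast at h
    exact h
  rw [show (l : ℤ) + 1 - (i + 1) = l - i by ring, show (i : ℤ) + 1 + j - (l + 1) = i + j - l by ring,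
    e4, e2, e3, e5, e1, show i + 1 + j = i + j + 1 by ring, f1 (i + j), f1 l]
  push_cast
  ring

theorem cc_mul (n i j : ℕ) : cc n i * cc n j = ∑ k ∈ range (i + j + 1), al i j k * cc n k := by
  induction i with
  | zero =>
    rw [cc_zero, one_mul, sum_eq_single j]
    · rw [al_int]
      simp
    · intro k hk hkj
      rw [al_int]
      have : k < j := by
        have := mem_range.1 hk
        omega
      rw [Nat.choose_eq_zero_of_lt this]
      simp
    · simp
  | succ i ih =>
    have hi : ((i : ℚ) + 1) ^ 2 ≠ 0 := by positivity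
    apply mul_left_cancel₀ hi
    have h1 := cc_succ n i
    have h2 : ((i : ℚ) + 1) ^ 2 * (cc n (i + 1) * cc n j)
        = (n * (n + 1) - i * (i + 1)) * ∑ k ∈ range (i + j + 1), al i j k * cc n k := by
      rw [← ih]
      linear_combination (cc n j) * h1
    rw [h2, mul_sum, mul_sum]
    set f : ℕ → ℚ := fun k => (k * (k + 1) - i * (i + 1)) * al i j k * cc n k with hf
    have e1 : ∀ k ∈ range (i + j + 1), (n * (n + 1) - i * (i + 1) : ℚ) * (al i j k * cc n k)
        = f k + (k + 1) ^ 2 * al i j k * cc n (k + 1) := by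
      intro k _
      have h := cc_succ n k
      simp only [hf]
      linear_combination (-al i j k) * h
    rw [sum_congr rfl e1, sum_add_distrib, show i + 1 + j + 1 = i + j + 1 + 1 by ring,
      sum_range_succ' (fun k => ((i : ℚ) + 1) ^ 2 * (al (i + 1) j k * cc n k)) (i + j + 1)]
    have e2 : ∀ l ∈ range (i + j + 1), ((i : ℚ) + 1) ^ 2 * (al (i + 1) j (l + 1) * cc n (l + 1))
        = f (l + 1) + (l + 1) ^ 2 * al i j l * cc n (l + 1) := by
      intro l _
      have h := al_rec i j l
      simp only [hf]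
      push_cast
      linear_combination (cc n (l + 1)) * h
    rw [sum_congr rfl e2, sum_add_distrib]
    have e3 : al (i + 1) j 0 = 0 := by
      rw [al_int]
      simp
    have e4 : f 0 = 0 := by
      simp only [hf]
      cases i with
      | zero => simp
      | succ i =>
        rw [al_int]
        simp
    have e5 : f (i + j + 1) = 0 := by
      simp only [hf]
      rw [al_int, Nat.choose_eq_zero_of_lt (show i + j < i + j + 1 by omega)]
      simp
    have e6 := sum_range_succ f (i + j + 1)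
    have e7 := sum_range_succ' f (i + j + 1)
    rw [e3]
    rw [e4] at e7
    rw [e5] at e6
    linear_combination e7 - e6

theorem fac_rf (n : ℕ) : (n.factorial : ℚ) * rf (n : ℤ) = 1 := by
  rw [rf_nat]
  have := fne n
  field_simp

theorem cc_eq (n j : ℕ) : cc n j = (n + j).factorial * rf j ^ 2 * rf ((n : ℤ) - j) := by
  unfold cc
  rw [choose_rf, choose_rf]
  push_cast
  rw [show (n : ℤ) + j - j = n by ring]
  linear_combination ((n + j).factorial * rf j ^ 2 * rf ((n : ℤ) - j)) * fac_rf n

theorem sum_plus (n j : ℕ) : ∑ k ∈ range n, (2 * (k : ℚ) + 1) * cc k j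
    = n * ((n + j).factorial * rf ((n : ℤ) - 1 - j) * rf j * rf ((j : ℤ) + 1)) := by
  induction n with
  | zero => simp
  | succ n ih =>
    rw [sum_range_succ, ih, cc_eq]
    have e2 : rf ((n : ℤ) - 1 - j) = (n - j) * rf ((n : ℤ) - j) := by
      have h := rf_shift ((n : ℤ) - j)
      rw [show (n : ℤ) - j - 1 = n - 1 - j by ring] at h
      push_cast at h
      exact h
    have e3 := rf_succ_nat j
    push_cast
    rw [show (n : ℤ) + 1 - 1 - j = n - j by ring, show n + 1 + j = n + j + 1 by ring, f1 (n + j), e2, e3]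
    push_cast
    ring

theorem sum_plus' (n j : ℕ) : ∑ k ∈ range n, (2 * (k : ℚ) + 1) * cc k j
    = n * (((n + j).choose (2 * j + 1) * (2 * j + 1).choose j : ℕ) : ℚ) := by
  rw [sum_plus]
  push_cast
  rw [choose_rf, choose_rf]
  have := fac_rf (2 * j + 1)
  push_cast at this ⊢
  rw [show (n : ℤ) + j - (2 * j + 1) = n - 1 - j by ring, show 2 * (j : ℤ) + 1 - j = j + 1 by ring]
  linear_combination (-(n : ℚ) * ((n + j).factorial * rf ((n : ℤ) - 1 - j) * rf j * rf ((j : ℤ) + 1))) * this

theorem sum_minus (n j : ℕ) : ∑ k ∈ range (n + 1), (-1) ^ k * (2 * (k : ℚ) + 1) * cc k j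
    = (-1) ^ n * ((n + 1 + j).factorial * rf j ^ 2 * rf ((n : ℤ) - j)) := by
  induction n with
  | zero =>
    rw [sum_range_succ, sum_range_zero, cc_eq]
    cases j with
    | zero => simp
    | succ j =>
      rw [rf_neg (((0 : ℕ) : ℤ) - (j + 1 : ℕ)) (by push_cast; omega)]
      simp
  | succ n ih =>
    rw [sum_range_succ, ih, cc_eq]
    have e2 : rf ((n : ℤ) - j) = (n + 1 - j) * rf ((n : ℤ) + 1 - j) := by
      have h := rf_shift ((n : ℤ) + 1 - j)
      rw [show (n : ℤ) + 1 - j - 1 = n - j by ring] at h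
      push_cast at h
      exact h
    push_cast
    rw [show n + 1 + 1 + j = n + 1 + j + 1 by ring, f1 (n + 1 + j), e2, pow_succ]
    push_cast
    ring

theorem sum_minus' (n j : ℕ) : ∑ k ∈ range (n + 1), (-1) ^ k * (2 * (k : ℚ) + 1) * cc k j
    = ((n + 1 : ℕ) : ℚ) * (((-1) ^ n * (n.choose j * (n + 1 + j).choose j : ℕ) : ℤ) : ℚ) := by
  rw [sum_minus]
  push_cast
  rw [choose_rf, choose_rf]
  have h := fac_rf (n + 1)
  rw [f1] at h
  push_cast at h ⊢
  rw [show (n : ℤ) + 1 + j - j = n + 1 by ring]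
  linear_combination (-(-1) ^ n * ((n + 1 + j).factorial * rf j ^ 2 * rf ((n : ℤ) - j))) * h

/-- integer span of the functions `n ↦ C(n,j) C(n+j,j)` -/
def MM : Submodule ℤ (ℕ → ℚ) := Submodule.span ℤ (Set.range fun j => fun n => cc n j)

theorem cc_mem (j : ℕ) : (fun n => cc n j) ∈ MM := Submodule.subset_span ⟨j, rfl⟩

theorem MM_mul : MM * MM ≤ MM := by
  unfold MM
  rw [Submodule.span_mul_span, Submodule.span_le]
  rintro _ ⟨_, ⟨i, rfl⟩, _, ⟨j, rfl⟩, rfl⟩
  have h : (fun n => cc n i) * (fun n => cc n j)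
      = ∑ k ∈ range (i + j + 1), ((k.choose i * k.choose j * (i + j).choose k : ℕ) : ℤ) •
          (fun n => cc n k) := by
    funext n
    rw [Pi.mul_apply, cc_mul, Finset.sum_apply]
    refine sum_congr rfl fun k _ => ?_
    rw [al_int, Pi.smul_apply, zsmul_eq_mul]
    push_cast
    ring
  show (fun n => cc n i) * (fun n => cc n j) ∈ MM
  rw [h]
  exact Submodule.sum_mem _ fun k _ => Submodule.smul_mem _ _ (cc_mem k)

theorem MM_pow (f : ℕ → ℚ) (hf : f ∈ MM) (m : ℕ) : f ^ m ∈ MM := by
  induction m with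
  | zero =>
    rw [pow_zero]
    have : (1 : ℕ → ℚ) = fun n => cc n 0 := by
      funext n
      rw [cc_zero]
      rfl
    rw [this]
    exact cc_mem 0
  | succ m ih =>
    rw [pow_succ]
    exact MM_mul (Submodule.mul_mem_mul ih hf)

theorem MM_sum (e : ℤ) (he : e = 1 ∨ e = -1) (f : ℕ → ℚ) (hf : f ∈ MM) (n : ℕ) :
    ∃ z : ℤ, ∑ k ∈ range n, (e : ℚ) ^ k * (2 * (k : ℚ) + 1) * f k = n * z := by
  induction hf using Submodule.span_induction with
  | mem f hf =>
    obtain ⟨j, rfl⟩ := hf
    rcases he with rfl | rfl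
    · refine ⟨((n + j).choose (2 * j + 1) * (2 * j + 1).choose j : ℕ), ?_⟩
      have := sum_plus' n j
      simp only [Int.cast_one, one_pow, one_mul]
      rw [this]
      push_cast
      ring
    · cases n with
      | zero => exact ⟨0, by simp⟩
      | succ n =>
        refine ⟨(-1) ^ n * (n.choose j * (n + 1 + j).choose j : ℕ), ?_⟩
        have := sum_minus' n j
        rw [Int.cast_neg, Int.cast_one]
        exact this
  | zero => exact ⟨0, by simp⟩
  | add f g _ _ hf hg =>
    obtain ⟨z, hz⟩ := hf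
    obtain ⟨w, hw⟩ := hg
    refine ⟨z + w, ?_⟩
    have e : ∀ k : ℕ, (e : ℚ) ^ k * (2 * (k : ℚ) + 1) * (f + g) k
        = (e : ℚ) ^ k * (2 * (k : ℚ) + 1) * f k + (e : ℚ) ^ k * (2 * (k : ℚ) + 1) * g k := by
      intro k
      rw [Pi.add_apply]
      ring
    rw [sum_congr rfl fun k _ => e k, sum_add_distrib, hz, hw]
    push_cast
    ring
  | smul a f _ hf =>
    obtain ⟨z, hz⟩ := hf
    refine ⟨a * z, ?_⟩
    have : ∀ k : ℕ, (e : ℚ) ^ k * (2 * (k : ℚ) + 1) * (a • f) k
        = a * ((e : ℚ) ^ k * (2 * (k : ℚ) + 1) * f k) := by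
      intro k
      rw [Pi.smul_apply, zsmul_eq_mul]
      ring
    rw [sum_congr rfl fun k _ => this k, ← mul_sum, hz]
    push_cast
    ring

theorem PP_mem (a : ℕ) : (fun n => PP n a) ∈ MM := by
  have h : (fun n => PP n a) = ∑ j ∈ range (a + 1), (vz j a) • (fun n => cc n j) := by
    funext n
    rw [(expand n a).1, Finset.sum_apply]
    have e : ∀ j, (vz j a • fun n => cc n j) n = cc n j * vv j a := by
      intro j
      rw [Pi.smul_apply, zsmul_eq_mul, vv_int]
      ring
    rw [sum_congr rfl fun j _ => e j]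
    rcases le_total n a with hh | hh
    · refine sum_subset (range_subset_range.2 (by omega)) fun j _ hj => ?_
      rw [mem_range] at hj
      rw [cc_top n j (by omega), zero_mul]
    · symm
      refine sum_subset (range_subset_range.2 (by omega)) fun j _ hj => ?_
      rw [mem_range] at hj
      rw [vv_top j a (by omega), mul_zero]
  rw [h]
  exact Submodule.sum_mem _ fun k _ => Submodule.smul_mem _ _ (cc_mem k)

end Q277.DSPoly
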