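import Mathlib

/-!
# Double sums `∑_{k<n} ∑_j C(k,j)^2 C(2j,j) f(j)` modulo `n^2`

Main identity, for an arbitrary function `q`:
`∑_{k<n} ∑_j C(k,j)^2 C(2j,j) (2j+1) ((j+1)^2 q(j+1) - j^2 q(j))
  = n^2 ∑_j C(n-1,j)^2 Cat_j (2j+1) (3j+3-2n) q(j+1)`.
-/

open Finset Polynomial

namespace Q277.DoubleSum

/-- `C(k,j)^2 Cat_j` -/
def w (k j : ℕ) : ℤ := (k.choose j : ℤ) ^ 2 * (catalan j : ℤ)

/-- `∑_j C(k,j)^2 C(2j,j) f(j)` -/
def T (k : ℕ) (f : ℕ → ℤ) : ℤ := ∑ j ∈ range (k + 1), (k.choose j : ℤ) ^ 2 * ((2 * j).choose j : ℤ) * f j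

theorem central_eq (j : ℕ) : ((2 * j).choose j : ℤ) = ((j : ℤ) + 1) * catalan j := by
  have := succ_mul_catalan_eq_centralBinom j
  rw [Nat.centralBinom] at this
  exact_mod_cast this.symm

theorem T_eq (k : ℕ) (f : ℕ → ℤ) :
    T k f = ∑ j ∈ range (k + 1), w k j * (((j : ℤ) + 1) * f j) := by
  unfold T w
  refine sum_congr rfl fun j _ => ?_
  rw [central_eq]; ring

theorem central_succ (j : ℕ) :
    ((2 * (j + 1)).choose (j + 1) : ℤ) = 2 * (2 * j + 1) * catalan j := by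
  have h1 := Nat.succ_mul_centralBinom_succ j
  rw [Nat.centralBinom, Nat.centralBinom] at h1
  have h2 : ((j : ℤ) + 1) * ((2 * (j + 1)).choose (j + 1) : ℤ)
      = 2 * (2 * j + 1) * ((2 * j).choose j : ℤ) := by exact_mod_cast h1
  rw [central_eq j] at h2
  have h3 : ((j : ℤ) + 1) ≠ 0 := by positivity
  apply mul_left_cancel₀ h3
  rw [h2]; ring

theorem choose_succ_mul (k j : ℕ) (hj : j ≤ k) :
    (k.choose (j + 1) : ℤ) * (j + 1) = (k.choose j : ℤ) * (k - j) := by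
  have h := Nat.choose_succ_right_eq k j
  have := congrArg (Nat.cast : ℕ → ℤ) h
  rw [Nat.cast_mul, Nat.cast_mul, Nat.cast_sub hj] at this
  exact_mod_cast this

theorem choose_pred_mul (k j : ℕ) (hj : j ≤ k + 1) :
    ((k : ℤ) + 1) * (k.choose j : ℤ) = ((k + 1).choose j : ℤ) * (k + 1 - j) := by
  rcases Nat.lt_or_ge k j with h1 | h1
  · have h2 : j = k + 1 := by omega
    subst h2
    simp
  · have h3 := Nat.choose_mul_succ_eq k j
    have := congrArg (Nat.cast : ℕ → ℤ) h3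
    rw [Nat.cast_mul, Nat.cast_mul, Nat.cast_sub (by omega)] at this
    push_cast at this
    linarith

/-- telescoping in `j` -/
theorem kernel (k : ℕ) (P : ℕ → ℤ) :
    ∑ j ∈ range (k + 1), w k j * (2 * (2 * (j : ℤ) + 1) * ((k : ℤ) - j) ^ 2 * P (j + 1)
      - ((j : ℤ) + 1) * (j : ℤ) ^ 2 * P j) = 0 := by
  set h : ℕ → ℤ := fun j => (k.choose j : ℤ) ^ 2 * ((2 * j).choose j : ℤ) * (j : ℤ) ^ 2 * P j with hh
  have h1 : ∀ j ∈ range (k + 1), w k j * (2 * (2 * (j : ℤ) + 1) * ((k : ℤ) - j) ^ 2 * P (j + 1)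
      - ((j : ℤ) + 1) * (j : ℤ) ^ 2 * P j) = h (j + 1) - h j := by
    intro j hj
    rw [mem_range] at hj
    have e1 := choose_succ_mul k j (by omega)
    have e2 := central_succ j
    have e3 := central_eq j
    simp only [hh]
    rw [e2, e3]
    unfold w
    push_cast
    linear_combination (-(k.choose (j + 1) : ℤ) * (j + 1) - (k.choose j : ℤ) * (k - j)) *
      (2 * (2 * (j : ℤ) + 1) * catalan j) * P (j + 1) * e1
  rw [sum_congr rfl h1, sum_range_sub]
  simp [hh]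

/-- telescoping in `k` -/
theorem telescope (G : ℕ → ℕ → ℤ) (n : ℕ) :
    ∑ k ∈ range n, ∑ j ∈ range (k + 1), w k j * (((k : ℤ) + 1) ^ 2 * G (k + 1) j
      - ((k : ℤ) - j) ^ 2 * G k j)
      = (n : ℤ) ^ 2 * ∑ j ∈ range n, w (n - 1) j * G n j := by
  induction n with
  | zero => simp
  | succ n ih =>
    rw [sum_range_succ, ih, Nat.add_sub_cancel]
    have h1 : ∑ j ∈ range (n + 1), w n j * (((n : ℤ) + 1) ^ 2 * G (n + 1) j
      - ((n : ℤ) - j) ^ 2 * G n j) = ((n : ℤ) + 1) ^ 2 * ∑ j ∈ range (n + 1), w n j * G (n + 1) j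
        - ∑ j ∈ range (n + 1), w n j * (((n : ℤ) - j) ^ 2 * G n j) := by
      rw [mul_sum, ← sum_sub_distrib]
      exact sum_congr rfl fun j _ => by ring
    have h2 : (n : ℤ) ^ 2 * ∑ j ∈ range n, w (n - 1) j * G n j
        = ∑ j ∈ range (n + 1), w n j * (((n : ℤ) - j) ^ 2 * G n j) := by
      rw [sum_range_succ]
      rw [show ((n : ℤ) - n) = 0 by ring]
      rcases Nat.eq_zero_or_pos n with h0 | h0
      · subst h0; simp
      · obtain ⟨m, rfl⟩ : ∃ m, n = m + 1 := ⟨n - 1, by omega⟩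
        rw [Nat.add_sub_cancel, mul_sum]
        simp only [ne_eq, OfNat.ofNat_ne_zero, not_false_eq_true, zero_pow, zero_mul, mul_zero,
          add_zero]
        refine sum_congr rfl fun j hj => ?_
        rw [mem_range] at hj
        have e := choose_pred_mul m j (by omega)
        unfold w
        push_cast
        linear_combination (((m : ℤ) + 1) * (m.choose j : ℤ) + ((m + 1).choose j : ℤ) * (m + 1 - j)) *
          (catalan j : ℤ) * G (m + 1) j * e
    rw [h1, h2]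
    push_cast
    ring

/-- **the main identity** -/
theorem main_identity (q : ℕ → ℤ) (n : ℕ) :
    ∑ k ∈ range n, T k (fun j => (2 * (j : ℤ) + 1) * (((j : ℤ) + 1) ^ 2 * q (j + 1) - (j : ℤ) ^ 2 * q j))
      = (n : ℤ) ^ 2 * ∑ j ∈ range n, w (n - 1) j *
        ((2 * (j : ℤ) + 1) * (3 * j + 3 - 2 * n) * q (j + 1)) := by
  rw [← telescope (fun n j => (2 * (j : ℤ) + 1) * (3 * j + 3 - 2 * n) * q (j + 1)) n]
  refine sum_congr rfl fun k _ => ?_
  rw [T_eq]
  have h := kernel k (fun j => (2 * (j : ℤ) + 1) * q j)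
  rw [← sub_eq_zero, ← sum_sub_distrib, ← h]
  refine sum_congr rfl fun j _ => ?_
  push_cast
  ring

/-- the relation `T_k[3j - 2k] = 0` -/
theorem three_two (k : ℕ) : T k (fun j => 3 * (j : ℤ) - 2 * k) = 0 := by
  induction k with
  | zero => simp [T]
  | succ k ih =>
    have h := kernel (k + 1) (fun j => (j : ℤ))
    have h2 : ((k : ℤ) + 1) ^ 2 * T k (fun j => 3 * (j : ℤ) - 2 * k)
        = ∑ j ∈ range (k + 1 + 1), w (k + 1) j * (((j : ℤ) + 1) * (((k : ℤ) + 1 - j) ^ 2 *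
          (3 * (j : ℤ) - 2 * k))) := by
      rw [sum_range_succ, T_eq]
      have e0 : ((k : ℤ) + 1 - ((k + 1 : ℕ) : ℤ)) = 0 := by push_cast; ring
      rw [e0, mul_sum]
      simp only [ne_eq, OfNat.ofNat_ne_zero, not_false_eq_true, zero_pow, zero_mul, mul_zero,
          add_zero]
      refine sum_congr rfl fun j hj => ?_
      rw [mem_range] at hj
      have e := choose_pred_mul k j (by omega)
      unfold w
      linear_combination (((k : ℤ) + 1) * (k.choose j : ℤ) + ((k + 1).choose j : ℤ) * (k + 1 - j)) *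
          (catalan j : ℤ) * ((j + 1) * (3 * (j : ℤ) - 2 * k)) * e
    rw [ih, mul_zero] at h2
    have h3 : ((k : ℤ) + 1) ^ 2 * T (k + 1) (fun j => 3 * (j : ℤ) - 2 * ((k + 1 : ℕ) : ℤ)) = 0 := by
      rw [T_eq, mul_sum]
      have h4 : ∑ j ∈ range (k + 1 + 1), w (k + 1) j * (((j : ℤ) + 1) * (((k : ℤ) + 1 - j) ^ 2 *
          (3 * (j : ℤ) - 2 * k))) - (∑ j ∈ range (k + 1 + 1), w (k + 1) j *
          (2 * (2 * (j : ℤ) + 1) * (((k + 1 : ℕ) : ℤ) - j) ^ 2 * ((j + 1 : ℕ) : ℤ)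
          - ((j : ℤ) + 1) * (j : ℤ) ^ 2 * (j : ℤ))) = 0 := by
        rw [← h2, h]; ring
      rw [← h4, ← sum_sub_distrib]
      refine sum_congr rfl fun j _ => ?_
      push_cast
      ring
    rcases mul_eq_zero.1 h3 with h5 | h5
    · exfalso
      have : ((k : ℤ) + 1) ^ 2 ≠ 0 := by positivity
      exact this h5
    · exact h5

theorem T_add (k : ℕ) (f g : ℕ → ℤ) : T k (fun j => f j + g j) = T k f + T k g := by
  unfold T
  rw [← sum_add_distrib]
  exact sum_congr rfl fun j _ => by ring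

theorem T_smul (k : ℕ) (c : ℤ) (f : ℕ → ℤ) : T k (fun j => c * f j) = c * T k f := by
  unfold T
  rw [mul_sum]
  exact sum_congr rfl fun j _ => by ring

/-- the identity for weights `2k+1-j` -/
theorem weight_identity (g : ℕ → ℤ) (n : ℕ) :
    ∑ k ∈ range n, T k (fun j => (2 * (k : ℤ) + 1 - j) * g j)
      = (n : ℤ) ^ 2 * ∑ j ∈ range n, w (n - 1) j * g j := by
  rw [← telescope (fun _ j => g j) n]
  refine sum_congr rfl fun k _ => ?_
  rw [T_eq]
  refine sum_congr rfl fun j _ => ?_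
  ring

/-- the first power -/
theorem first_power (n : ℕ) :
    ∑ k ∈ range n, T k (fun j => 2 * (j : ℤ) + 1) = (n : ℤ) ^ 2 * ∑ j ∈ range n, w (n - 1) j := by
  have h := weight_identity (fun _ => 1) n
  simp only [mul_one] at h
  rw [← h]
  refine sum_congr rfl fun k _ => ?_
  have h2 := three_two k
  have h3 : T k (fun j => 2 * (j : ℤ) + 1)
      = T k (fun j => (2 * (k : ℤ) + 1 - j)) + T k (fun j => 3 * (j : ℤ) - 2 * k) := by
    rw [← T_add]
    congr 1
    funext j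
    ring
  rw [h3, h2, add_zero]

/-- every integral polynomial is, up to a factor, a constant plus a difference of `X^2 q` -/
theorem representation (d : ℕ) : ∀ p : ℤ[X], p.natDegree ≤ d →
    ∃ N : ℤ, N ≠ 0 ∧ ∃ c : ℤ, ∃ q : ℤ[X], C N * p = C c + ((X + 1) ^ 2 * q.comp (X + 1) - X ^ 2 * q) := by
  induction d with
  | zero =>
    intro p hp
    refine ⟨1, one_ne_zero, p.coeff 0, 0, ?_⟩
    rw [eq_C_of_natDegree_le_zero hp]
    simp
  | succ d ih =>
    intro p hp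
    -- lower part
    set ℓ : ℤ[X] := C ((d : ℤ) + 2) * p - C (p.coeff (d + 1)) * ((X + 1) ^ (d + 2) - X ^ (d + 2)) with hℓ
    have hdeg : ℓ.natDegree ≤ d := by
      rw [natDegree_le_iff_coeff_eq_zero]
      intro N hN
      rw [hℓ, coeff_sub, coeff_C_mul, coeff_C_mul, coeff_sub, coeff_X_add_one_pow, coeff_X_pow]
      rcases Nat.lt_or_ge (d + 1) N with h1 | h1
      · have hp0 : p.coeff N = 0 := coeff_eq_zero_of_natDegree_lt (by omega)
        rw [hp0]
        rcases Nat.lt_or_ge (d + 2) N with h2 | h2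
        · rw [Nat.choose_eq_zero_of_lt h2, if_neg (by omega)]
          simp
        · have : N = d + 2 := by omega
          subst this
          simp
      · have : N = d + 1 := by omega
        subst this
        rw [if_neg (by omega)]
        have : (d + 2).choose (d + 1) = d + 2 := by
          have := Nat.choose_succ_self_right (d + 1)
          simpa using this
        rw [this]
        push_cast
        ring
    obtain ⟨N, hN, c, q, h⟩ := ih ℓ hdeg
    refine ⟨N * ((d : ℤ) + 2), mul_ne_zero hN (by positivity), c, q + C (N * p.coeff (d + 1)) * X ^ d, ?_⟩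
    rw [hℓ] at h
    have h2 : (q + C (N * p.coeff (d + 1)) * X ^ d).comp (X + 1)
        = q.comp (X + 1) + C (N * p.coeff (d + 1)) * (X + 1) ^ d := by
      simp
    rw [h2]
    simp only [map_mul, map_add] at h ⊢
    linear_combination h

theorem all_powers (i : ℕ) : ∃ N : ℤ, N ≠ 0 ∧ ∀ n : ℕ,
    (n : ℤ) ^ 2 ∣ N * ∑ k ∈ range n, T k (fun j => (2 * (j : ℤ) + 1) ^ (i + 1)) := by
  obtain ⟨N, hN, c, q, h⟩ := representation ((C 2 * X + 1 : ℤ[X]) ^ i).natDegree _ le_rfl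
  refine ⟨N, hN, fun n => ?_⟩
  have h1 : ∀ j : ℕ, N * (2 * (j : ℤ) + 1) ^ i
      = c + (((j : ℤ) + 1) ^ 2 * q.eval (((j + 1 : ℕ) : ℤ)) - (j : ℤ) ^ 2 * q.eval (j : ℤ)) := by
    intro j
    have := congrArg (Polynomial.eval (j : ℤ)) h
    simpa using this
  have h2 : ∀ k : ℕ, N * T k (fun j => (2 * (j : ℤ) + 1) ^ (i + 1))
      = c * T k (fun j => 2 * (j : ℤ) + 1) + T k (fun j => (2 * (j : ℤ) + 1) *
        (((j : ℤ) + 1) ^ 2 * q.eval (((j + 1 : ℕ) : ℤ)) - (j : ℤ) ^ 2 * q.eval (j : ℤ))) := by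
    intro k
    rw [← T_smul, ← T_smul, ← T_add]
    congr 1
    funext j
    rw [pow_succ]
    linear_combination (2 * (j : ℤ) + 1) * h1 j
  rw [mul_sum, sum_congr rfl fun k _ => h2 k, sum_add_distrib, ← mul_sum, first_power]
  have h3 := main_identity (fun j => q.eval (j : ℤ)) n
  rw [h3]
  exact ⟨_, by rw [← mul_assoc, mul_comm c, mul_assoc, ← mul_add]⟩

theorem all_powers_k (i : ℕ) : ∃ N : ℤ, N ≠ 0 ∧ ∀ n : ℕ,
    (n : ℤ) ^ 2 ∣ N * ∑ k ∈ range n, (k : ℤ) * T k (fun j => (2 * (j : ℤ) + 1) ^ (i + 1)) := by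
  obtain ⟨N1, hN1, h1⟩ := all_powers i
  obtain ⟨N2, hN2, h2⟩ := all_powers (i + 1)
  refine ⟨4 * N1 * N2, mul_ne_zero (mul_ne_zero (by norm_num) hN1) hN2, fun n => ?_⟩
  have h3 := weight_identity (fun j => (2 * (j : ℤ) + 1) ^ (i + 1)) n
  have h4 : ∀ k : ℕ, 4 * ((k : ℤ) * T k (fun j => (2 * (j : ℤ) + 1) ^ (i + 1)))
      = 2 * T k (fun j => (2 * (k : ℤ) + 1 - j) * (2 * (j : ℤ) + 1) ^ (i + 1))
        + (T k (fun j => (2 * (j : ℤ) + 1) ^ (i + 1 + 1)) + (-3) * T k (fun j => (2 * (j : ℤ) + 1) ^ (i + 1))) := by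
    intro k
    rw [← T_smul, ← T_smul, ← T_smul, ← T_smul, ← T_add, ← T_add]
    congr 1
    funext j
    ring
  have h5 : 4 * N1 * N2 * ∑ k ∈ range n, (k : ℤ) * T k (fun j => (2 * (j : ℤ) + 1) ^ (i + 1))
      = 2 * N1 * N2 * ∑ k ∈ range n, T k (fun j => (2 * (k : ℤ) + 1 - j) * (2 * (j : ℤ) + 1) ^ (i + 1))
        + N1 * (N2 * ∑ k ∈ range n, T k (fun j => (2 * (j : ℤ) + 1) ^ (i + 1 + 1)))
        + (-3) * N2 * (N1 * ∑ k ∈ range n, T k (fun j => (2 * (j : ℤ) + 1) ^ (i + 1))) := by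
    have h6 : 4 * ∑ k ∈ range n, (k : ℤ) * T k (fun j => (2 * (j : ℤ) + 1) ^ (i + 1))
      = 2 * ∑ k ∈ range n, T k (fun j => (2 * (k : ℤ) + 1 - j) * (2 * (j : ℤ) + 1) ^ (i + 1))
        + (∑ k ∈ range n, T k (fun j => (2 * (j : ℤ) + 1) ^ (i + 1 + 1))
          + (-3) * ∑ k ∈ range n, T k (fun j => (2 * (j : ℤ) + 1) ^ (i + 1))) := by
      rw [mul_sum, sum_congr rfl fun k _ => h4 k, sum_add_distrib, sum_add_distrib, ← mul_sum, ← mul_sum]
    linear_combination N1 * N2 * h6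
  rw [h5, h3]
  refine dvd_add (dvd_add ?_ (Dvd.dvd.mul_left (h2 n) _)) (Dvd.dvd.mul_left (h1 n) _)
  exact Dvd.dvd.mul_left (Dvd.intro _ rfl) _

end Q277.DoubleSum
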