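import Mathlib

/-!
Helper lemmas for the gcd of the binomial coefficients `C(jk, k)`, `2 ≤ j ≤ k+1`.
-/

open Finset Polynomial

namespace Q277.GcdBinom

/-! ## Finite differences -/

theorem fd_zero (P : ℤ[X]) (n : ℕ) (hP : P.natDegree < n) (y : ℤ) :
    ∑ k ∈ range (n + 1), ((-1 : ℤ) ^ (n - k) * n.choose k) * P.eval (y + k) = 0 := by
  have h := congrFun (Polynomial.fwdDiff_iter_eq_zero_of_degree_lt hP) y
  rw [fwdDiff_iter_eq_sum_shift] at h
  simpa [smul_eq_mul] using h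

/-- the polynomial `∏_{i<d} (M X + i + 1)` -/
noncomputable def pol (d M : ℕ) : ℤ[X] :=
  ∏ i ∈ range d, (C (M : ℤ) * X + C ((i : ℤ) + 1))

theorem pol_natDegree (d M : ℕ) : (pol d M).natDegree ≤ d := by
  unfold pol
  refine le_trans (natDegree_prod_le _ _) ?_
  refine le_trans (Finset.sum_le_card_nsmul _ _ 1 ?_) (by simp)
  intro i _
  exact natDegree_linear_le

theorem pol_eval (d M t : ℕ) :
    (pol d M).eval (t : ℤ) = (d.factorial : ℤ) * ((d + t * M).choose d : ℤ) := by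
  unfold pol
  rw [eval_prod]
  have h : ∀ i ∈ range d, (C (M : ℤ) * X + C ((i : ℤ) + 1)).eval (t : ℤ) =
      ((t * M + 1 + i : ℕ) : ℤ) := by
    intro i _
    simp only [eval_add, eval_mul, eval_C, eval_X]
    push_cast; ring
  rw [Finset.prod_congr rfl h]
  have h2 := Nat.ascFactorial_eq_factorial_mul_choose (t * M) d
  rw [Nat.ascFactorial_eq_prod_range] at h2
  have h3 := congrArg (Nat.cast : ℕ → ℤ) h2
  push_cast at h3 ⊢
  rw [add_comm ((d : ℕ)) (t * M)]
  exact h3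

theorem fd_choose (d M y : ℕ) :
    ∑ k ∈ range (d + 2), ((-1 : ℤ) ^ (d + 1 - k) * (d + 1).choose k) *
      ((d + (y + k) * M).choose d : ℤ) = 0 := by
  have h := fd_zero (pol d M) (d + 1) (Nat.lt_succ_of_le (pol_natDegree d M)) y
  have h1 : ∀ k ∈ range (d + 1 + 1), ((-1 : ℤ) ^ (d + 1 - k) * (d + 1).choose k) *
      (pol d M).eval ((y : ℤ) + k) = (d.factorial : ℤ) *
        (((-1 : ℤ) ^ (d + 1 - k) * (d + 1).choose k) * ((d + (y + k) * M).choose d : ℤ)) := by
    intro k _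
    have : ((y : ℤ) + k) = ((y + k : ℕ) : ℤ) := by push_cast; ring
    rw [this, pol_eval]; ring
  rw [Finset.sum_congr rfl h1, ← Finset.mul_sum] at h
  have hne : (d.factorial : ℤ) ≠ 0 := by exact_mod_cast Nat.factorial_ne_zero d
  exact (mul_eq_zero.1 h).resolve_left hne

/-- Two functions `t ↦ C(d + t M, d)` agreeing modulo `q` for `t ≤ d` agree for all `t`. -/
theorem interp (q d M1 M2 : ℕ)
    (h : ∀ t, t ≤ d → ((d + t * M1).choose d : ℤ) ≡ ((d + t * M2).choose d : ℤ) [ZMOD q]) :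
    ∀ t, ((d + t * M1).choose d : ℤ) ≡ ((d + t * M2).choose d : ℤ) [ZMOD q] := by
  intro t
  induction t using Nat.strong_induction_on with
  | _ t ih =>
    by_cases ht : t ≤ d
    · exact h t ht
    · push Not at ht
      obtain ⟨y, rfl⟩ : ∃ y, t = y + (d + 1) := ⟨t - (d + 1), by omega⟩
      have h1 := fd_choose d M1 y
      have h2 := fd_choose d M2 y
      rw [Finset.sum_range_succ] at h1 h2
      simp only [Nat.sub_self, pow_zero, Nat.choose_self, Nat.cast_one, one_mul] at h1 h2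
      have e1 : ((d + (y + (d + 1)) * M1).choose d : ℤ) =
          -∑ k ∈ range (d + 1), ((-1 : ℤ) ^ (d + 1 - k) * (d + 1).choose k) *
            ((d + (y + k) * M1).choose d : ℤ) := by linarith
      have e2 : ((d + (y + (d + 1)) * M2).choose d : ℤ) =
          -∑ k ∈ range (d + 1), ((-1 : ℤ) ^ (d + 1 - k) * (d + 1).choose k) *
            ((d + (y + k) * M2).choose d : ℤ) := by linarith
      rw [e1, e2]
      apply Int.ModEq.neg
      apply Int.ModEq.sum
      intro k hk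
      rw [Finset.mem_range] at hk
      exact Int.ModEq.mul_left _ (ih (y + k) (by omega))

/-! ## `G(k)` divides `k + 1` -/

theorem dvd_succ (k : ℕ) (hk : 1 ≤ k) (g : ℕ)
    (hg : ∀ j ∈ Icc 2 (k + 1), g ∣ (j * k).choose k) : g ∣ k + 1 := by
  have h := fd_zero (pol k k) (k + 1) (Nat.lt_succ_of_le (pol_natDegree k k)) (-1)
  rw [Finset.sum_range_succ', Finset.sum_range_succ'] at h
  have h0 : (pol k k).eval ((-1 : ℤ) + ((0 : ℕ) : ℤ)) = 0 := by
    unfold pol
    rw [eval_prod]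
    apply Finset.prod_eq_zero (Finset.mem_range.2 (show k - 1 < k by omega))
    simp only [eval_add, eval_mul, eval_C, eval_X]
    have : ((k - 1 : ℕ) : ℤ) = (k : ℤ) - 1 := by
      rw [Nat.cast_sub hk]; simp
    rw [this]; push_cast; ring
  have h1 : (pol k k).eval ((-1 : ℤ) + ((0 + 1 : ℕ) : ℤ)) = (k.factorial : ℤ) := by
    have : ((-1 : ℤ) + ((0 + 1 : ℕ) : ℤ)) = ((0 : ℕ) : ℤ) := by norm_num
    rw [this, pol_eval]; simp
  rw [h0, h1] at h
  have h2 : ∀ j ∈ range k, ((-1 : ℤ) ^ (k + 1 - (j + 1 + 1)) * (k + 1).choose (j + 1 + 1)) *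
      (pol k k).eval ((-1 : ℤ) + ((j + 1 + 1 : ℕ) : ℤ)) =
      (k.factorial : ℤ) * (((-1 : ℤ) ^ (k + 1 - (j + 1 + 1)) * (k + 1).choose (j + 1 + 1)) *
        (((j + 2) * k).choose k : ℤ)) := by
    intro j _
    have : ((-1 : ℤ) + ((j + 1 + 1 : ℕ) : ℤ)) = ((j + 1 : ℕ) : ℤ) := by push_cast; ring
    rw [this, pol_eval]
    have e : k + (j + 1) * k = (j + 2) * k := by ring
    rw [e]; ring
  rw [Finset.sum_congr rfl h2, ← Finset.mul_sum] at h
  have hne : (k.factorial : ℤ) ≠ 0 := by exact_mod_cast Nat.factorial_ne_zero k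
  have h3 : (k.factorial : ℤ) * (∑ j ∈ range k,
      ((-1 : ℤ) ^ (k + 1 - (j + 1 + 1)) * (k + 1).choose (j + 1 + 1)) *
        (((j + 2) * k).choose k : ℤ) + (-1) ^ k * (k + 1 : ℕ)) = 0 := by
    have e : k + 1 - (0 + 1) = k := by omega
    rw [e, zero_add, Nat.choose_one_right] at h
    linarith
  have h4 := (mul_eq_zero.1 h3).resolve_left hne
  have h5 : (g : ℤ) ∣ ∑ j ∈ range k,
      ((-1 : ℤ) ^ (k + 1 - (j + 1 + 1)) * (k + 1).choose (j + 1 + 1)) *
        (((j + 2) * k).choose k : ℤ) := by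
    apply Finset.dvd_sum
    intro j hj
    rw [Finset.mem_range] at hj
    apply Dvd.dvd.mul_left
    exact_mod_cast hg (j + 2) (by rw [Finset.mem_Icc]; omega)
  have h6 : (g : ℤ) ∣ (-1) ^ k * ((k + 1 : ℕ) : ℤ) := by
    have : (-1 : ℤ) ^ k * ((k + 1 : ℕ) : ℤ) = -∑ j ∈ range k,
      ((-1 : ℤ) ^ (k + 1 - (j + 1 + 1)) * (k + 1).choose (j + 1 + 1)) *
        (((j + 2) * k).choose k : ℤ) := by linarith
    rw [this]; exact (dvd_neg).2 h5
  have h7 : (g : ℤ) ∣ ((k + 1 : ℕ) : ℤ) := by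
    have := Dvd.dvd.mul_left h6 ((-1) ^ k)
    rw [← mul_assoc, ← pow_add, ← two_mul, pow_mul] at this
    simpa using this
  exact_mod_cast h7

/-! ## Lucas-type lemmas -/

section lucas

variable (q : ℕ) [hq : Fact q.Prime]

theorem choose_add_mul_pow (L : ℕ) : ∀ (a b c : ℕ), c < q ^ L →
    (a + q ^ L * b).choose c ≡ a.choose c [MOD q] := by
  induction L with
  | zero =>
    intro a b c hc
    have : c = 0 := by simpa using hc
    subst this; simp [Nat.ModEq]
  | succ L ih =>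
    intro a b c hc
    have hqp := hq.out.pos
    have h1 : (a + q ^ (L + 1) * b).choose c ≡
        ((a + q ^ (L + 1) * b) % q).choose (c % q) *
          ((a + q ^ (L + 1) * b) / q).choose (c / q) [MOD q] :=
      Choose.choose_modEq_choose_mod_mul_choose_div_nat
    have h2 : a.choose c ≡ (a % q).choose (c % q) * (a / q).choose (c / q) [MOD q] :=
      Choose.choose_modEq_choose_mod_mul_choose_div_nat
    have e : a + q ^ (L + 1) * b = a + q * (q ^ L * b) := by ring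
    rw [e, Nat.add_mul_mod_self_left, Nat.add_mul_div_left _ _ hqp] at h1
    rw [e]
    refine h1.trans (Nat.ModEq.trans ?_ h2.symm)
    apply Nat.ModEq.mul_left
    apply ih
    rw [Nat.div_lt_iff_lt_mul hqp]
    calc c < q ^ (L + 1) := hc
      _ = q ^ L * q := by ring

/-- binomials with all lower `e` digits equal to `q-1` -/
theorem choose_low_digits (e : ℕ) : ∀ (A B : ℕ),
    (A * q ^ e + (q ^ e - 1)).choose (B * q ^ e + (q ^ e - 1)) ≡ A.choose B [MOD q] := by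
  induction e with
  | zero => intro A B; simp [Nat.ModEq]
  | succ e ih =>
    intro A B
    have hqp := hq.out.pos
    have hqe : 1 ≤ q ^ e := Nat.one_le_pow _ _ hqp
    have key : ∀ A : ℕ, A * q ^ (e + 1) + (q ^ (e + 1) - 1) =
        q * (A * q ^ e + (q ^ e - 1)) + (q - 1) := by
      intro A
      obtain ⟨x, hx⟩ : ∃ x, q ^ e = x + 1 := ⟨q ^ e - 1, by omega⟩
      have h1 : q ^ (e + 1) = q * q ^ e := by ring
      rw [h1, hx]
      simp only [Nat.add_sub_cancel]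
      obtain ⟨y, hy⟩ : ∃ y, q = y + 1 := ⟨q - 1, by omega⟩
      rw [hy]
      simp only [Nat.add_sub_cancel]
      have h2 : (y + 1) * (x + 1) - 1 = (y + 1) * x + y := by
        have : (y + 1) * (x + 1) = (y + 1) * x + y + 1 := by ring
        omega
      rw [h2]; ring
    have h1 : (A * q ^ (e + 1) + (q ^ (e + 1) - 1)).choose (B * q ^ (e + 1) + (q ^ (e + 1) - 1)) ≡
        ((A * q ^ (e + 1) + (q ^ (e + 1) - 1)) % q).choose
          ((B * q ^ (e + 1) + (q ^ (e + 1) - 1)) % q) *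
        ((A * q ^ (e + 1) + (q ^ (e + 1) - 1)) / q).choose
          ((B * q ^ (e + 1) + (q ^ (e + 1) - 1)) / q) [MOD q] :=
      Choose.choose_modEq_choose_mod_mul_choose_div_nat
    have hlt : q - 1 < q := by omega
    have hm : ∀ A : ℕ, (A * q ^ (e + 1) + (q ^ (e + 1) - 1)) % q = q - 1 := by
      intro A; rw [key, Nat.mul_add_mod]; exact Nat.mod_eq_of_lt hlt
    have hd : ∀ A : ℕ, (A * q ^ (e + 1) + (q ^ (e + 1) - 1)) / q = A * q ^ e + (q ^ e - 1) := by
      intro A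
      rw [key, Nat.mul_add_div hqp, Nat.div_eq_of_lt hlt, add_zero]
    rw [hm, hm, hd, hd, Nat.choose_self, one_mul] at h1
    exact h1.trans (ih A B)

/-- if `q ∤ C(A, B q^e + q^e - 1)` then `A ≡ -1 (mod q^e)` -/
theorem mod_of_not_dvd (e : ℕ) : ∀ (A B : ℕ),
    ¬ q ∣ A.choose (B * q ^ e + (q ^ e - 1)) → q ^ e ∣ A + 1 := by
  induction e with
  | zero => intro A B _; simp
  | succ e ih =>
    intro A B h
    have hqp := hq.out.pos
    have hqe : 1 ≤ q ^ e := Nat.one_le_pow _ _ hqp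
    have key : B * q ^ (e + 1) + (q ^ (e + 1) - 1) =
        q * (B * q ^ e + (q ^ e - 1)) + (q - 1) := by
      obtain ⟨x, hx⟩ : ∃ x, q ^ e = x + 1 := ⟨q ^ e - 1, by omega⟩
      have h1 : q ^ (e + 1) = q * q ^ e := by ring
      rw [h1, hx]
      simp only [Nat.add_sub_cancel]
      obtain ⟨y, hy⟩ : ∃ y, q = y + 1 := ⟨q - 1, by omega⟩
      rw [hy]
      simp only [Nat.add_sub_cancel]
      have h2 : (y + 1) * (x + 1) - 1 = (y + 1) * x + y := by
        have : (y + 1) * (x + 1) = (y + 1) * x + y + 1 := by ring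
        omega
      rw [h2]; ring
    have hlt : q - 1 < q := by omega
    have h1 : A.choose (B * q ^ (e + 1) + (q ^ (e + 1) - 1)) ≡
        (A % q).choose ((B * q ^ (e + 1) + (q ^ (e + 1) - 1)) % q) *
        (A / q).choose ((B * q ^ (e + 1) + (q ^ (e + 1) - 1)) / q) [MOD q] :=
      Choose.choose_modEq_choose_mod_mul_choose_div_nat
    rw [key, Nat.mul_add_mod, Nat.mod_eq_of_lt hlt, Nat.mul_add_div hqp,
      Nat.div_eq_of_lt hlt, add_zero, ← key] at h1
    rw [Nat.ModEq.dvd_iff h1 dvd_rfl, hq.out.dvd_mul] at h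
    push Not at h
    obtain ⟨ha, hb⟩ := h
    have hmod : A % q = q - 1 := by
      by_contra hne
      have hlt' : A % q < q - 1 := by
        have := Nat.mod_lt A hqp
        omega
      rw [Nat.choose_eq_zero_of_lt hlt'] at ha
      exact ha (dvd_zero q)
    have hrec := ih (A / q) B hb
    obtain ⟨c, hc⟩ := hrec
    refine ⟨c, ?_⟩
    have h3 : A = q * (A / q) + (q - 1) := by
      conv_lhs => rw [← Nat.div_add_mod A q, hmod]
    have h4 : A + 1 = q * (A / q + 1) := by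
      have : q * (A / q + 1) = q * (A / q) + q := by ring
      omega
    rw [h4, hc]; ring

theorem two_dvd_choose_compl (L : ℕ) : ∀ d, 1 ≤ d → d < 2 ^ L →
    2 ∣ (2 ^ L - 1 - d).choose d := by
  induction L with
  | zero => intro d h1 h2; simp at h2; omega
  | succ L ih =>
    intro d h1 h2
    have : Fact (Nat.Prime 2) := ⟨Nat.prime_two⟩
    have hL : (2 ^ (L + 1) - 1 - d).choose d ≡
        ((2 ^ (L + 1) - 1 - d) % 2).choose (d % 2) *
          ((2 ^ (L + 1) - 1 - d) / 2).choose (d / 2) [MOD 2] :=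
      Choose.choose_modEq_choose_mod_mul_choose_div_nat
    have hp : 2 ^ (L + 1) = 2 * 2 ^ L := by ring
    rw [Nat.ModEq.dvd_iff hL dvd_rfl]
    rcases Nat.mod_two_eq_zero_or_one d with hd | hd
    · have e1 : (2 ^ (L + 1) - 1 - d) / 2 = 2 ^ L - 1 - d / 2 := by omega
      rw [e1]
      apply Dvd.dvd.mul_left
      exact ih (d / 2) (by omega) (by omega)
    · have e1 : (2 ^ (L + 1) - 1 - d) % 2 = 0 := by omega
      rw [e1, hd]
      simp

end lucas

/-! ## The key existence lemma -/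

theorem one_add_pow_expand (z : ℤ) (n : ℕ) :
    ∃ c : ℤ, (1 + z) ^ n = 1 + n * z + (n.choose 2 : ℤ) * z ^ 2 + c * z ^ 3 := by
  induction n with
  | zero => exact ⟨0, by simp⟩
  | succ n ih =>
    obtain ⟨c, hc⟩ := ih
    refine ⟨c + c * z + (n.choose 2 : ℤ), ?_⟩
    have h1 : ((n + 1).choose 2 : ℤ) = (n : ℤ) + (n.choose 2 : ℤ) := by
      have : (n + 1).choose 2 = n.choose 1 + n.choose 2 := rfl
      rw [this]; push_cast; simp
    rw [pow_succ, hc, h1]
    push_cast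
    ring

/-- lifting the exponent, one step -/
theorem lte_step (q : ℕ) (hq : q.Prime) (a : ℕ) (ha : 1 ≤ a) (h2 : q ≠ 2 ∨ 2 ≤ a) (m x : ℤ)
    (hx : (q : ℤ) ^ (a + 1) ∣ x - (1 - m * q ^ a)) :
    (q : ℤ) ^ (a + 2) ∣ x ^ q - (1 - m * q ^ (a + 1)) := by
  obtain ⟨y, hy⟩ := hx
  have hx' : x = 1 + q ^ a * (q * y - m) := by
    have : x = (1 - m * q ^ a) + (q : ℤ) ^ (a + 1) * y := by linarith
    rw [this]; ring
  set w : ℤ := q * y - m with hw
  obtain ⟨c, hc⟩ := one_add_pow_expand ((q : ℤ) ^ a * w) q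
  rw [hx', hc]
  have hA : (q : ℤ) ^ (a + 2) ∣ (q.choose 2 : ℤ) * ((q : ℤ) ^ a * w) ^ 2 := by
    rcases h2 with h2 | h2
    · have hd : (q : ℤ) ∣ (q.choose 2 : ℤ) := by
        exact_mod_cast hq.dvd_choose_self (by norm_num) (by have := hq.two_le; omega)
      have h3 : (q : ℤ) ^ (a + 1) ∣ ((q : ℤ) ^ a * w) ^ 2 := by
        have : ((q : ℤ) ^ a * w) ^ 2 = (q : ℤ) ^ (2 * a) * w ^ 2 := by
          rw [mul_pow, ← pow_mul, mul_comm a 2]
        rw [this]
        exact Dvd.dvd.mul_right (pow_dvd_pow _ (by omega)) _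
      have h4 := mul_dvd_mul hd h3
      have : (q : ℤ) * (q : ℤ) ^ (a + 1) = (q : ℤ) ^ (a + 2) := by ring
      rwa [this] at h4
    · have : ((q : ℤ) ^ a * w) ^ 2 = (q : ℤ) ^ (2 * a) * w ^ 2 := by
        rw [mul_pow, ← pow_mul, mul_comm a 2]
      rw [this]
      exact Dvd.dvd.mul_left (Dvd.dvd.mul_right (pow_dvd_pow _ (by omega)) _) _
  have hB : (q : ℤ) ^ (a + 2) ∣ c * ((q : ℤ) ^ a * w) ^ 3 := by
    have : ((q : ℤ) ^ a * w) ^ 3 = (q : ℤ) ^ (3 * a) * w ^ 3 := by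
      rw [mul_pow, ← pow_mul, mul_comm a 3]
    rw [this]
    exact Dvd.dvd.mul_left (Dvd.dvd.mul_right (pow_dvd_pow _ (by omega)) _) _
  have hC : (q : ℤ) ^ (a + 2) ∣ (q : ℤ) * ((q : ℤ) ^ a * w) + m * (q : ℤ) ^ (a + 1) := by
    refine ⟨y, ?_⟩
    rw [hw]; ring
  have : 1 + (q : ℤ) * ((q : ℤ) ^ a * w) + (q.choose 2 : ℤ) * ((q : ℤ) ^ a * w) ^ 2 +
      c * ((q : ℤ) ^ a * w) ^ 3 - (1 - m * (q : ℤ) ^ (a + 1)) =
      ((q : ℤ) * ((q : ℤ) ^ a * w) + m * (q : ℤ) ^ (a + 1)) +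
        (q.choose 2 : ℤ) * ((q : ℤ) ^ a * w) ^ 2 + c * ((q : ℤ) ^ a * w) ^ 3 := by ring
  rw [this]
  exact dvd_add (dvd_add hC hA) hB

theorem lte_iter (q : ℕ) (hq : q.Prime) (e : ℕ) (he : 1 ≤ e) (h2 : q ≠ 2 ∨ 2 ≤ e) (m x : ℤ)
    (r : ℕ) (hx : (q : ℤ) ^ (e + r + 1) ∣ x - (1 - m * q ^ e)) :
    (q : ℤ) ^ (e + r + 1) ∣ x ^ (q ^ r) - (1 - m * q ^ (e + r)) := by
  induction r with
  | zero => simpa using hx
  | succ r ih =>
    have h1 := ih ((pow_dvd_pow _ (by omega)).trans hx)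
    have h3 := lte_step q hq (e + r) (by omega) (by omega) m (x ^ (q ^ r)) h1
    rw [← pow_mul, ← pow_succ] at h3
    exact h3

theorem pow_lin (Q a : ℕ) (ha : 1 ≤ a) (m x : ℤ)
    (hx : (Q : ℤ) ^ (a + 1) ∣ x - (1 - m * Q ^ a)) (j : ℕ) :
    (Q : ℤ) ^ (a + 1) ∣ x ^ j - (1 - j * m * Q ^ a) := by
  induction j with
  | zero => simp
  | succ j ih =>
    obtain ⟨u, hu⟩ := hx
    obtain ⟨v, hv⟩ := ih
    have h1 : x = (1 - m * Q ^ a) + (Q : ℤ) ^ (a + 1) * u := by linarith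
    have h2 : x ^ j = (1 - j * m * Q ^ a) + (Q : ℤ) ^ (a + 1) * v := by linarith
    obtain ⟨b, rfl⟩ : ∃ b, a = b + 1 := ⟨a - 1, by omega⟩
    refine ⟨v * x + (1 - j * m * Q ^ (b + 1)) * u + j * m ^ 2 * (Q : ℤ) ^ b, ?_⟩
    rw [pow_succ x j, h2]
    push_cast
    rw [h1]
    ring

/-- The core: if `q^e ≤ d`, `q ∤ d + 1`, `e ≥ 1`, then some `C(d + t M, d)`, `1 ≤ t ≤ d`, with
`M = (d+1) q^e - 1`, is prime to `q`. -/
theorem exists_good (q : ℕ) (hq : q.Prime) (e d : ℕ) (he : 1 ≤ e) (hd : q ^ e ≤ d)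
    (hqd : ¬ q ∣ d + 1) :
    ∃ t, 1 ≤ t ∧ t ≤ d ∧ ¬ q ∣ (d + t * ((d + 1) * q ^ e - 1)).choose d := by
  have : Fact q.Prime := ⟨hq⟩
  have hqp := hq.pos
  have hq2 := hq.two_le
  by_contra hcon
  push Not at hcon
  set M := (d + 1) * q ^ e - 1 with hM
  have hqe1 : 1 ≤ q ^ e := Nat.one_le_pow _ _ hqp
  have hMpos : 1 ≤ (d + 1) * q ^ e := Nat.mul_pos (by omega) hqe1
  have hqe2 : q ≤ q ^ e := by
    calc q = q ^ 1 := (pow_one q).symm
      _ ≤ q ^ e := Nat.pow_le_pow_right hqp he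
  have hd2 : 2 ≤ d := by omega
  -- `q^a ≤ d < q^(a+1)`
  set a := Nat.log q d with ha
  have ha1 : q ^ a ≤ d := Nat.pow_log_le_self q (by omega)
  have ha2 : d < q ^ (a + 1) := Nat.lt_pow_succ_log_self hq.one_lt d
  have hea : e ≤ a := by
    by_contra hlt
    push Not at hlt
    have : q ^ (a + 1) ≤ q ^ e := Nat.pow_le_pow_right hqp (by omega)
    omega
  set L := a + 1 with hL
  have hQ1 : 1 ≤ q ^ L := Nat.one_le_pow _ _ hqp
  set R := q ^ L - 1 with hR
  have hRQ : R + 1 = q ^ L := by omega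
  -- star
  have hstar : ∀ t, (d + t * M).choose d ≡ (d + t * R).choose d [MOD q] := by
    intro t
    have h := interp q d M R ?_ t
    · exact (Int.natCast_modEq_iff).1 h
    · intro t ht
      rcases Nat.eq_zero_or_pos t with h0 | h1
      · subst h0; simp
      · have e1 : q ∣ (d + t * M).choose d := hcon t h1 ht
        have e2 : q ∣ (d + t * R).choose d := by
          have h3 : d + t * R = (d - t) + q ^ L * t := by
            have : t * R + t = q ^ L * t := by rw [← hRQ]; ring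
            omega
          rw [h3, Nat.ModEq.dvd_iff (choose_add_mul_pow q L (d - t) t d ha2) dvd_rfl]
          rw [Nat.choose_eq_zero_of_lt (by omega)]
          exact dvd_zero q
        have e1' : ((d + t * M).choose d : ℤ) ≡ 0 [ZMOD q] := by
          rw [Int.modEq_zero_iff_dvd]; exact_mod_cast e1
        have e2' : ((d + t * R).choose d : ℤ) ≡ 0 [ZMOD q] := by
          rw [Int.modEq_zero_iff_dvd]; exact_mod_cast e2
        exact e1'.trans e2'.symm
  -- invariance under multiplication by `κ = M R`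
  set κ := M * R with hκ
  have hinv : ∀ x, (d + κ * x).choose d ≡ (d + x).choose d [MOD q] := by
    intro x
    have h := hstar (x * R)
    have e1 : x * R * M = κ * x := by rw [hκ]; ring
    rw [e1] at h
    refine h.trans ?_
    obtain ⟨y, hy⟩ : ∃ y, R = y + 1 := ⟨R - 1, by
      have : q ≤ q ^ L := by
        calc q = q ^ 1 := (pow_one q).symm
          _ ≤ q ^ L := Nat.pow_le_pow_right hqp (by omega)
      omega⟩
    have e2 : d + x * R * R = (d + x) + q ^ L * (x * y) := by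
      rw [← hRQ, hy]; ring
    rw [e2]
    exact choose_add_mul_pow q L _ _ _ ha2
  have hinvpow : ∀ i, (d + κ ^ i).choose d ≡ d + 1 [MOD q] := by
    intro i
    induction i with
    | zero =>
      rw [pow_zero]
      have : (d + 1).choose d = d + 1 := by
        rw [Nat.choose_succ_self_right]
      rw [this]
    | succ i ih =>
      rw [pow_succ, mul_comm]
      exact (hinv _).trans ih
  -- `κ ≡ 1 - (d+1) q^e (mod q^L)`
  have hκmod : (q : ℤ) ^ L ∣ (κ : ℤ) - (1 - ((d : ℤ) + 1) * q ^ e) := by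
    refine ⟨(M : ℤ), ?_⟩
    have h1 : (M : ℤ) = ((d : ℤ) + 1) * q ^ e - 1 := by
      rw [hM, Nat.cast_sub hMpos]; push_cast; ring
    have h2 : (R : ℤ) = (q : ℤ) ^ L - 1 := by
      rw [hR, Nat.cast_sub hQ1]; push_cast; ring
    rw [hκ]; push_cast
    rw [h1, h2]; ring
  by_cases hcase : q ≠ 2 ∨ 2 ≤ e
  · -- main case
    obtain ⟨r, hr⟩ : ∃ r, a = e + r := ⟨a - e, by omega⟩
    have hLr : L = e + r + 1 := by omega
    rw [hLr] at hκmod
    have h1 := lte_iter q hq e he hcase ((d : ℤ) + 1) (κ : ℤ) r hκmod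
    set μ := d / q ^ a with hμ
    -- choose `j` with `j (d+1) ≡ μ (mod q)`
    have hcop : Nat.Coprime (d + 1) q := ((hq.coprime_iff_not_dvd).2 hqd).symm
    obtain ⟨j, hj⟩ : ∃ j : ℕ, (q : ℤ) ∣ (j : ℤ) * ((d : ℤ) + 1) - μ := by
      have hu : IsUnit ((d + 1 : ℕ) : ZMod q) := (ZMod.unitOfCoprime (d + 1) hcop).isUnit
      obtain ⟨x, hx⟩ := ZMod.natCast_zmod_surjective ((μ : ZMod q) * ((d + 1 : ℕ) : ZMod q)⁻¹)
      refine ⟨x, ?_⟩
      rw [← ZMod.intCast_zmod_eq_zero_iff_dvd]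
      push_cast
      rw [hx]
      have h5 : ((d + 1 : ℕ) : ZMod q)⁻¹ * ((d + 1 : ℕ) : ZMod q) = 1 :=
        ZMod.inv_mul_of_unit _ hu
      push_cast at h5 ⊢
      rw [mul_assoc, h5, mul_one, sub_self]
    have h2 := pow_lin q (e + r) (by omega) ((d : ℤ) + 1) ((κ : ℤ) ^ (q ^ r)) h1 j
    set i := q ^ r * j with hi
    rw [← pow_mul, ← hi] at h2
    -- `d + κ^i ≡ (d % q^a) + 1`
    set w := d % q ^ a + 1 with hw
    have hdw : d + 1 = q ^ a * μ + w := by
      have h8 : q ^ a * μ + d % q ^ a = d := Nat.div_add_mod d (q ^ a)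
      rw [hw, ← add_assoc, h8]
    have hμ1 : 1 ≤ μ := Nat.div_pos ha1 (Nat.pos_of_ne_zero (pow_ne_zero _ hqp.ne'))
    have hqa2 : 2 ≤ q ^ a := by
      calc 2 ≤ q := hq2
        _ = q ^ 1 := (pow_one q).symm
        _ ≤ q ^ a := Nat.pow_le_pow_right hqp (by omega)
    have hwd : w < d := by
      have h9 : 2 ≤ q ^ a * μ := le_trans hqa2 (Nat.le_mul_of_pos_right _ hμ1)
      generalize q ^ a * μ = X at hdw h9
      omega
    have hdvd : (q : ℤ) ^ L ∣ ((d + κ ^ i : ℕ) : ℤ) - (w : ℤ) := by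
      have e1 : ((d + κ ^ i : ℕ) : ℤ) - (w : ℤ) =
          ((κ : ℤ) ^ i - (1 - j * ((d : ℤ) + 1) * q ^ (e + r))) -
            (q : ℤ) ^ (e + r) * ((j : ℤ) * ((d : ℤ) + 1) - μ) := by
        have h5 : (w : ℤ) = (d : ℤ) + 1 - (q : ℤ) ^ (e + r) * μ := by
          have := congrArg (Nat.cast : ℕ → ℤ) hdw
          push_cast at this
          rw [← hr]; linarith
        rw [h5]; push_cast; ring
      rw [e1, hLr]
      apply dvd_sub h2
      rw [pow_succ]
      exact mul_dvd_mul_left _ hj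
    have hle : w ≤ d + κ ^ i := by omega
    have hdvd' : q ^ L ∣ (d + κ ^ i) - w := by
      have : ((d + κ ^ i : ℕ) : ℤ) - (w : ℤ) = (((d + κ ^ i) - w : ℕ) : ℤ) := by
        rw [Nat.cast_sub hle]
      rw [this] at hdvd
      exact_mod_cast hdvd
    obtain ⟨c, hc⟩ := hdvd'
    have h3 : d + κ ^ i = w + q ^ L * c := by omega
    have h4 := hinvpow i
    rw [h3] at h4
    have h5 := (choose_add_mul_pow q L w c d ha2).symm.trans h4
    rw [Nat.choose_eq_zero_of_lt hwd] at h5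
    exact hqd ((Nat.modEq_zero_iff_dvd).1 h5.symm)
  · push Not at hcase
    obtain ⟨hq2', he2⟩ := hcase
    have he1 : e = 1 := by omega
    subst hq2'
    subst he1
    have h4 := hinvpow 1
    rw [pow_one] at h4
    have h3 : d + κ = (2 ^ L - 1 - d) + 2 ^ L * (M - 1) := by
      obtain ⟨y, hy⟩ : ∃ y, M = y + 1 := ⟨M - 1, by omega⟩
      have h6 : κ + M = 2 ^ L * M := by rw [hκ, ← hRQ]; ring
      have h7 : 2 ^ L * M = 2 ^ L * (M - 1) + 2 ^ L := by
        rw [hy]; simp only [Nat.add_sub_cancel]; ring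
      have h8 : M = 2 * d + 1 := by omega
      omega
    rw [h3] at h4
    have h5 := (choose_add_mul_pow 2 L (2 ^ L - 1 - d) (M - 1) d ha2).symm.trans h4
    have h6 := two_dvd_choose_compl L d (by omega) ha2
    exact hqd ((Nat.ModEq.dvd_iff h5 dvd_rfl).1 h6)

/-! ## The criterion -/

theorem mul_decomp (q e m t k : ℕ) (hk : k + 1 = m * q ^ e) (hm : 1 ≤ m) (hq1 : 1 ≤ q ^ e) :
    (t * q ^ e + 1) * k = (m - 1 + t * (m * q ^ e - 1)) * q ^ e + (q ^ e - 1) := by
  obtain ⟨d, hd⟩ : ∃ d, m = d + 1 := ⟨m - 1, by omega⟩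
  obtain ⟨x, hx⟩ : ∃ x, q ^ e = x + 1 := ⟨q ^ e - 1, by omega⟩
  subst hd
  rw [hx] at hk ⊢
  have h1 : (d + 1) * (x + 1) = d * (x + 1) + x + 1 := by ring
  have h2 : k = d * (x + 1) + x := by omega
  have h3 : (d + 1) * (x + 1) - 1 = k := by omega
  rw [h3]
  simp only [Nat.add_sub_cancel]
  calc (t * (x + 1) + 1) * k = t * (x + 1) * k + k := by ring
    _ = t * (x + 1) * k + (d * (x + 1) + x) := by rw [← h2]
    _ = (d + t * k) * (x + 1) + x := by ring

theorem k_decomp (q e m k : ℕ) (hk : k + 1 = m * q ^ e) (hm : 1 ≤ m) (hq1 : 1 ≤ q ^ e) :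
    k = (m - 1) * q ^ e + (q ^ e - 1) := by
  obtain ⟨d, hd⟩ : ∃ d, m = d + 1 := ⟨m - 1, by omega⟩
  obtain ⟨x, hx⟩ : ∃ x, q ^ e = x + 1 := ⟨q ^ e - 1, by omega⟩
  subst hd
  rw [hx] at hk ⊢
  have h1 : (d + 1) * (x + 1) = d * (x + 1) + x + 1 := by ring
  simp only [Nat.add_sub_cancel]
  omega

/-- For a prime `q` and `k + 1 = m q^e` with `e ≥ 1`, `q ∤ m`: all the binomials `C(jk, k)`,
`2 ≤ j ≤ k + 1`, are divisible by `q` if and only if `m ≤ q^e`. -/
theorem criterion (q : ℕ) (hq : q.Prime) (e m k : ℕ) (he : 1 ≤ e) (hqm : ¬ q ∣ m)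
    (hk : k + 1 = m * q ^ e) :
    (∀ j ∈ Icc 2 (k + 1), q ∣ (j * k).choose k) ↔ m ≤ q ^ e := by
  have : Fact q.Prime := ⟨hq⟩
  have hqp := hq.pos
  have hqe1 : 1 ≤ q ^ e := Nat.one_le_pow _ _ hqp
  have hm : 1 ≤ m := by
    rcases Nat.eq_zero_or_pos m with h | h
    · subst h; exact absurd (dvd_zero q) hqm
    · exact h
  have hkd := k_decomp q e m k hk hm hqe1
  constructor
  · intro hall
    by_contra hlt
    push Not at hlt
    have hd1 : m - 1 + 1 = m := by omega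
    obtain ⟨t, ht1, ht2, ht3⟩ := exists_good q hq e (m - 1) he (by omega) (by rw [hd1]; exact hqm)
    rw [hd1] at ht3
    have hj : t * q ^ e + 1 ∈ Icc 2 (k + 1) := by
      rw [Finset.mem_Icc]
      constructor
      · have := Nat.mul_pos ht1 hqe1
        omega
      · have h1 : t * q ^ e ≤ (m - 1) * q ^ e := Nat.mul_le_mul_right _ ht2
        omega
    have h1 := hall _ hj
    rw [mul_decomp q e m t k hk hm hqe1] at h1
    have h2 := choose_low_digits q e (m - 1 + t * (m * q ^ e - 1)) (m - 1)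
    rw [← hkd] at h2
    exact ht3 ((Nat.ModEq.dvd_iff h2 dvd_rfl).1 h1)
  · intro hle j hj
    rw [Finset.mem_Icc] at hj
    by_contra hnd
    rw [hkd] at hnd
    have h1 := mod_of_not_dvd q e _ _ hnd
    rw [← hkd] at h1
    -- `q^e ∣ j k + 1` and `q^e ∣ k + 1` give `q^e ∣ j - 1`
    obtain ⟨u, hu⟩ : ∃ u, j = u + 1 := ⟨j - 1, by omega⟩
    subst hu
    have h2 : q ^ e ∣ u := by
      have h3 : q ^ e ∣ k + 1 := ⟨m, by rw [hk]; ring⟩
      have h4 : q ^ e ∣ u * (k + 1) := Dvd.dvd.mul_left h3 u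
      have h5 : u * (k + 1) + (k + 1) = ((u + 1) * k + 1) + u := by ring
      have h6 : q ^ e ∣ ((u + 1) * k + 1) + u := by
        rw [← h5]; exact dvd_add h4 h3
      exact (Nat.dvd_add_right h1).1 h6
    obtain ⟨t, ht⟩ := h2
    have ht' : u = t * q ^ e := by rw [ht]; ring
    subst ht'
    have ht1 : 1 ≤ t := by
      rcases Nat.eq_zero_or_pos t with h | h
      · subst h; omega
      · exact h
    have ht2 : t < m := by
      by_contra hge
      push Not at hge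
      have : m * q ^ e ≤ t * q ^ e := Nat.mul_le_mul_right _ hge
      omega
    rw [← hkd, mul_decomp q e m t k hk hm hqe1] at hnd
    have h2 := choose_low_digits q e (m - 1 + t * (m * q ^ e - 1)) (m - 1)
    rw [← hkd] at h2
    have h3 : m - 1 + t * (m * q ^ e - 1) = (m - 1 - t) + q ^ e * (t * m) := by
      have h4 : 1 ≤ m * q ^ e := Nat.mul_pos hm hqe1
      obtain ⟨y, hy⟩ : ∃ y, m * q ^ e = y + 1 := ⟨m * q ^ e - 1, by omega⟩
      have h5 : q ^ e * (t * m) = t * y + t := by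
        calc q ^ e * (t * m) = t * (m * q ^ e) := by ring
          _ = t * y + t := by rw [hy]; ring
      rw [h5, hy]
      simp only [Nat.add_sub_cancel]
      omega
    rw [h3] at h2 hnd
    have h4 := choose_add_mul_pow q e (m - 1 - t) (t * m) (m - 1) (by omega)
    rw [Nat.choose_eq_zero_of_lt (by omega : m - 1 - t < m - 1)] at h4
    have h5 := h2.trans h4
    exact hnd ((Nat.modEq_zero_iff_dvd).1 h5)

end Q277.GcdBinom
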