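import Mathlib
import Pool.Agent.H434R2.PO

/-!
A Wronskian identity for the truncated series `f_n(t) = ∑_{k<n} c_k t^k`,
`c_k = C(6k,3k) C(3k,k) / 432^k`, at the symmetric point `t = 1/2`.
-/

set_option autoImplicit false

namespace Pool.Agent.Q277.Half864

open Finset Polynomial

/-- `c_k = C(6k,3k) C(3k,k) / 432^k`. -/
noncomputable def c (k : ℕ) : ℚ := ((6 * k).choose (3 * k) * (3 * k).choose k : ℕ) / 432 ^ k

theorem fac (k : ℕ) : (6 * k).choose (3 * k) * (3 * k).choose k * (k.factorial * (2 * k).factorial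
    * (3 * k).factorial) = (6 * k).factorial := by
  have h1 := Nat.choose_mul_factorial_mul_factorial (show 3 * k ≤ 6 * k by omega)
  have h2 := Nat.choose_mul_factorial_mul_factorial (show k ≤ 3 * k by omega)
  rw [show 6 * k - 3 * k = 3 * k by omega] at h1
  rw [show 3 * k - k = 2 * k by omega] at h2
  calc (6 * k).choose (3 * k) * (3 * k).choose k * (k.factorial * (2 * k).factorial
    * (3 * k).factorial) = (6 * k).choose (3 * k) * ((3 * k).choose k * k.factorial *
      (2 * k).factorial) * (3 * k).factorial := by ring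
    _ = _ := by rw [h2, h1]

theorem fac' (k : ℕ) : (6 * k).choose (3 * k) * (3 * k).choose k =
    (6 * k).choose k * (5 * k).choose (2 * k) := by
  have h1 := Nat.choose_mul_factorial_mul_factorial (show k ≤ 6 * k by omega)
  have h2 := Nat.choose_mul_factorial_mul_factorial (show 2 * k ≤ 5 * k by omega)
  rw [show 6 * k - k = 5 * k by omega] at h1
  rw [show 5 * k - 2 * k = 3 * k by omega] at h2
  have hpos : 0 < k.factorial * (2 * k).factorial * (3 * k).factorial := by positivity
  apply Nat.eq_of_mul_eq_mul_right hpos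
  rw [fac]
  calc (6 * k).factorial = (6 * k).choose k * k.factorial * ((5 * k).choose (2 * k) *
      (2 * k).factorial * (3 * k).factorial) := by rw [h2, h1]
    _ = _ := by ring

theorem c_succ (k : ℕ) : c (k + 1) * ((k : ℚ) + 1) ^ 2 = c k * ((k : ℚ) ^ 2 + k + 5 / 36) := by
  have h1 := fac k
  have h2 := fac (k + 1)
  have e6 : (6 * (k + 1)).factorial = (6 * k + 6) * ((6 * k + 5) * ((6 * k + 4) * ((6 * k + 3) *
      ((6 * k + 2) * ((6 * k + 1) * (6 * k).factorial))))) := by
    rw [show 6 * (k + 1) = 6 * k + 5 + 1 by ring]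
    simp only [Nat.factorial_succ]
  have e3 : (3 * (k + 1)).factorial = (3 * k + 3) * ((3 * k + 2) * ((3 * k + 1) *
      (3 * k).factorial)) := by
    rw [show 3 * (k + 1) = 3 * k + 2 + 1 by ring]
    simp only [Nat.factorial_succ]
  have e2 : (2 * (k + 1)).factorial = (2 * k + 2) * ((2 * k + 1) * (2 * k).factorial) := by
    rw [show 2 * (k + 1) = 2 * k + 1 + 1 by ring]
    simp only [Nat.factorial_succ]
  have e1 : (k + 1).factorial = (k + 1) * k.factorial := Nat.factorial_succ k
  rw [e6, e3, e2, e1, ← h1] at h2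
  unfold c
  set A := (6 * k).choose (3 * k) * (3 * k).choose k
  set B := (6 * (k + 1)).choose (3 * (k + 1)) * (3 * (k + 1)).choose (k + 1)
  have h3 : (B : ℚ) * (k + 1) ^ 2 = 12 * (6 * k + 1) * (6 * k + 5) * A := by
    have hq : ((k.factorial * (2 * k).factorial * (3 * k).factorial : ℕ) : ℚ) *
      (6 * (k + 1) * (2 * k + 1) * (3 * k + 1) * (3 * k + 2)) ≠ 0 := by
      have : ((k.factorial * (2 * k).factorial * (3 * k).factorial : ℕ) : ℚ) ≠ 0 := by
        have := (by positivity : 0 < k.factorial * (2 * k).factorial * (3 * k).factorial)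
        exact_mod_cast this.ne'
      have h5 : (6 * ((k : ℚ) + 1) * (2 * k + 1) * (3 * k + 1) * (3 * k + 2)) ≠ 0 := by positivity
      exact mul_ne_zero this h5
    apply mul_left_cancel₀ hq
    have h4 := congrArg (Nat.cast : ℕ → ℚ) h2
    push_cast at h4 ⊢
    linear_combination h4
  field_simp
  rw [pow_succ]
  linear_combination 3 * (432 : ℚ) ^ k * 12 * h3

/-- truncated series. -/
noncomputable def f (n : ℕ) : ℚ[X] := ∑ k ∈ range n, C (c k) * X ^ k

/-- `X (1-X) f'`. -/
noncomputable def pp (n : ℕ) : ℚ[X] := X * (1 - X) * derivative (f n)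

theorem f_succ (n : ℕ) : f (n + 1) = f n + C (c n) * X ^ n := by
  unfold f; rw [sum_range_succ]

theorem pp_der (n : ℕ) : derivative (pp n) = C (5 / 36) * f n - C ((n : ℚ) ^ 2 * c n) * X ^ (n - 1) := by
  induction n with
  | zero => simp [pp, f]
  | succ n ih =>
    have e : pp (n + 1) = pp n + C (c n) * (C (n : ℚ) * (X ^ n - X ^ (n + 1))) := by
      unfold pp
      rw [f_succ, derivative_add, derivative_C_mul_X_pow]
      rcases n with _ | m
      · simp
      · simp only [Nat.add_sub_cancel, map_mul, map_natCast]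
        push_cast
        ring
    rw [e, derivative_add, ih, f_succ]
    have hc := c_succ n
    have hc' : C (((n + 1 : ℕ) : ℚ) ^ 2 * c (n + 1)) = C (c n) * (C (n : ℚ) ^ 2 + C (n : ℚ) + C (5 / 36)) := by
      rw [← C_pow, ← C_add, ← C_add, ← C_mul]
      congr 1
      push_cast
      linear_combination hc
    rw [hc', derivative_C_mul, derivative_C_mul, derivative_sub, derivative_X_pow, derivative_X_pow]
    rcases n with _ | m
    · simp
      ring
    · simp only [Nat.add_sub_cancel, map_mul, map_natCast, map_pow]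
      push_cast
      ring

/-- the functional `∫_0^{1/2} - ∫_{1/2}^1`. -/
noncomputable def Phi (h : ℚ[X]) : ℚ := h.sum fun i a => a * (((1 / 2 : ℚ) ^ i - 1) / (i + 1))

theorem Phi_add (h g : ℚ[X]) : Phi (h + g) = Phi h + Phi g := by
  unfold Phi
  apply Polynomial.sum_add_index
  · intro i; simp
  · intro a b₁ b₂; ring

theorem Phi_monomial (m : ℕ) (a : ℚ) : Phi (monomial m a) = a * (((1 / 2 : ℚ) ^ m - 1) / (m + 1)) := by
  unfold Phi
  rw [Polynomial.sum_monomial_index]
  simp

theorem Phi_C_mul (a : ℚ) (h : ℚ[X]) : Phi (C a * h) = a * Phi h := by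
  induction h using Polynomial.induction_on' with
  | add p q hp hq => rw [mul_add, Phi_add, Phi_add, hp, hq]; ring
  | monomial m b => rw [C_mul_monomial, Phi_monomial, Phi_monomial]; ring

theorem Phi_sum {ι : Type*} (s : Finset ι) (g : ι → ℚ[X]) : Phi (∑ i ∈ s, g i) = ∑ i ∈ s, Phi (g i) := by
  classical
  induction s using Finset.induction_on with
  | empty => simp [Phi]
  | insert a s ha ih => rw [sum_insert ha, sum_insert ha, Phi_add, ih]

theorem Phi_der (H : ℚ[X]) : Phi (derivative H) = 2 * H.eval (1 / 2) - H.eval 0 - H.eval 1 := by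
  induction H using Polynomial.induction_on' with
  | add p q hp hq => rw [derivative_add, Phi_add, hp, hq]; simp; ring
  | monomial m b =>
    rw [derivative_monomial, Phi_monomial]
    rcases m with _ | m
    · simp; ring
    · simp only [Nat.add_sub_cancel, eval_monomial, one_pow, pow_succ, mul_zero]
      push_cast
      have : ((m : ℚ) + 1) ≠ 0 := by positivity
      field_simp
      ring

theorem exists_anti (h : ℚ[X]) : ∃ H : ℚ[X], derivative H = h := by
  induction h using Polynomial.induction_on' with
  | add p q hp hq =>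
    obtain ⟨P, hP⟩ := hp
    obtain ⟨Q, hQ⟩ := hq
    exact ⟨P + Q, by rw [derivative_add, hP, hQ]⟩
  | monomial m b =>
    refine ⟨monomial (m + 1) (b / (m + 1)), ?_⟩
    rw [derivative_monomial, Nat.add_sub_cancel]
    congr 1
    push_cast
    have : ((m : ℚ) + 1) ≠ 0 := by positivity
    field_simp

theorem Phi_comp (h : ℚ[X]) : Phi (h.comp (1 - X)) = - Phi h := by
  obtain ⟨H, rfl⟩ := exists_anti h
  have e : (derivative H).comp (1 - X) = C (-1) * derivative (H.comp (1 - X)) := by
    rw [derivative_comp]
    simp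
  rw [e, Phi_C_mul, Phi_der, Phi_der]
  simp only [eval_comp, eval_sub, eval_one, eval_X]
  norm_num
  ring

theorem wronskian (n : ℕ) : (f n).eval (1 / 2) * (derivative (f n)).eval (1 / 2) =
    - (2 * ((n : ℚ) ^ 2 * c n)) * Phi (X ^ (n - 1) * (f n).comp (1 - X)) := by
  set F := f n
  set g := F.comp (1 - X)
  set p := pp n with hp
  set q := - p.comp (1 - X)
  set s := (n : ℚ) ^ 2 * c n
  have hq : derivative q = (derivative p).comp (1 - X) := by
    simp only [q, derivative_neg, derivative_comp]
    simp
  have hg : derivative g = - (derivative F).comp (1 - X) := by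
    simp only [g, derivative_comp]
    simp
  have hqe : q = - ((1 - X) * X * (derivative F).comp (1 - X)) := by
    simp only [q, hp, pp]
    simp
    left
    rfl
  have hpe : p = X * (1 - X) * derivative F := rfl
  have hW : derivative (p * g - F * q) = C (-s) * (X ^ (n - 1) * g) +
      C s * ((X ^ (n - 1) * g).comp (1 - X)) := by
    rw [derivative_sub, derivative_mul, derivative_mul, hq, hp, pp_der]
    have e1 : (C (5 / 36) * f n - C s * X ^ (n - 1)).comp (1 - X) =
      C (5 / 36) * g - C s * (1 - X) ^ (n - 1) := by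
      simp [g, F]
    have e2 : (X ^ (n - 1) * g).comp (1 - X) = (1 - X) ^ (n - 1) * F := by
      simp only [g, mul_comp, pow_comp, X_comp, comp_assoc]
      congr 1
      have : (1 - X : ℚ[X]).comp (1 - X) = X := by simp
      rw [this, comp_X]
    rw [e1, e2, ← hp, hg, hqe, hpe]
    rw [C_neg]
    ring
  have h1 := Phi_der (p * g - F * q)
  rw [hW, Phi_add, Phi_C_mul, Phi_C_mul, Phi_comp] at h1
  have e1 : (p * g - F * q).eval (1 / 2) = 1 / 2 * (F.eval (1 / 2) * (derivative F).eval (1 / 2)) := by
    rw [hqe, hpe]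
    simp only [g, eval_sub, eval_mul, eval_neg, eval_comp, eval_X, eval_one]
    norm_num
    ring
  have e2 : (p * g - F * q).eval 0 = 0 := by
    rw [hqe, hpe]; simp
  have e3 : (p * g - F * q).eval 1 = 0 := by
    rw [hqe, hpe]; simp
  rw [e1, e2, e3] at h1
  linear_combination -h1

end Pool.Agent.Q277.Half864
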