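import Pool.Agent.Q277.Half864

/-!
The `5`-adic part: `5^(-a) ∑_{k<5^a} k c_k / 2^k ≡ 75 (mod 125)`.
-/

set_option autoImplicit false

namespace Pool.Agent.Q277.Half864

open Finset Polynomial Pool.Agent.H434R2

instance : Fact (Nat.Prime 5) := ⟨by norm_num⟩

theorem PO_of_dvd (k : ℕ) (z : ℤ) (h : (5 : ℤ) ^ k ∣ z) : PO 5 k (z : ℚ) := by
  obtain ⟨w, rfl⟩ := h
  push_cast
  have := (PO.ppow (p := 5) k).mul0' (PO.of_int w)
  exact_mod_cast this

theorem PO_inv (m : ℕ) (h : ¬ 5 ∣ m) : PO 5 0 ((m : ℚ)⁻¹) := PO.inv_nat h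

theorem c_PO (k : ℕ) (hk : 1 ≤ k) : PO 5 1 (c k) := by
  have h5 : 5 ∣ (5 * k).choose (2 * k) := by
    have h := Nat.add_one_mul_choose_eq (5 * k - 1) (2 * k - 1)
    rw [show 5 * k - 1 + 1 = 5 * k by omega, show 2 * k - 1 + 1 = 2 * k by omega] at h
    have h2 : 2 * (5 * k).choose (2 * k) = 5 * (5 * k - 1).choose (2 * k - 1) := by
      apply Nat.eq_of_mul_eq_mul_left (show 0 < k by omega)
      calc k * (2 * (5 * k).choose (2 * k)) = (5 * k).choose (2 * k) * (2 * k) := by ring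
        _ = 5 * k * (5 * k - 1).choose (2 * k - 1) := h.symm
        _ = _ := by ring
    omega
  unfold c
  rw [fac', div_eq_mul_inv]
  have h1 : PO 5 1 (((6 * k).choose k * (5 * k).choose (2 * k) : ℕ) : ℚ) := by
    have := PO_of_dvd 1 (((6 * k).choose k * (5 * k).choose (2 * k) : ℕ) : ℤ)
      (by exact_mod_cast (by rw [pow_one]; exact Dvd.dvd.mul_left h5 _))
    exact_mod_cast this
  have h2 : PO 5 0 (((432 : ℚ) ^ k)⁻¹) := by
    have := (PO_inv 432 (by norm_num)).pow0 k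
    rw [inv_pow] at this
    exact_mod_cast this
  exact h1.mul0' h2

theorem two_inv : PO 5 0 (1 / 2 : ℚ) := PO.half (by norm_num)

/-- `5^a` modulo `20`. -/
theorem five_pow (a : ℕ) (ha : 1 ≤ a) : ∃ j, 5 ^ a = 20 * j + 5 := by
  induction a, ha using Nat.le_induction with
  | base => exact ⟨0, rfl⟩
  | succ a _ ih =>
    obtain ⟨j, hj⟩ := ih
    exact ⟨5 * j + 1, by rw [pow_succ, hj]; ring⟩

theorem half_pow (a : ℕ) (ha : 1 ≤ a) : PO 5 2 ((1 / 2 : ℚ) ^ (5 ^ a - 1) - 11) := by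
  obtain ⟨j, hj⟩ := five_pow a ha
  have e : 5 ^ a - 1 = 20 * j + 4 := by omega
  rw [e]
  have h1 : (5 : ℤ) ^ 2 ∣ 1 - 11 * 2 ^ (20 * j + 4) := by
    have : (2 : ℤ) ^ (20 * j + 4) ≡ 1 ^ j * 16 [ZMOD 25] := by
      rw [pow_add, pow_mul]
      exact Int.ModEq.mul (Int.ModEq.pow j (by decide)) rfl
    rw [one_pow, one_mul] at this
    have h2 : 1 - 11 * (2 : ℤ) ^ (20 * j + 4) ≡ 1 - 11 * 16 [ZMOD 25] :=
      Int.ModEq.sub rfl (Int.ModEq.mul rfl this)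
    have h3 : 1 - 11 * (2 : ℤ) ^ (20 * j + 4) ≡ 0 [ZMOD 25] := h2.trans (by decide)
    rw [show (5 : ℤ) ^ 2 = 25 by norm_num]
    exact Int.modEq_zero_iff_dvd.1 h3
  have h2 := PO_of_dvd 2 _ h1
  have h3 := h2.mul0' (two_inv.pow0 (20 * j + 4))
  have e2 : (1 / 2 : ℚ) ^ (20 * j + 4) - 11 =
      ((1 - 11 * 2 ^ (20 * j + 4) : ℤ) : ℚ) * (1 / 2) ^ (20 * j + 4) := by
    push_cast
    have : (2 : ℚ) ^ (20 * j + 4) * (1 / 2) ^ (20 * j + 4) = 1 := by
      rw [← mul_pow]; norm_num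
    linear_combination 11 * this
  rw [e2]
  exact h3

/-- `5^(a-1) / N` is `5`-integral if `5^a ∤ N`. -/
theorem inv_PO (a N : ℕ) (ha : 1 ≤ a) (hN : N ≠ 0) (h : ¬ 5 ^ a ∣ N) :
    PO 5 0 ((5 : ℚ) ^ (a - 1) / N) := by
  obtain ⟨v, u, hu, rfl⟩ := Nat.exists_eq_pow_mul_and_not_dvd hN 5 (by norm_num)
  have hv : v < a := by
    by_contra hc
    apply h
    exact Dvd.dvd.mul_right (pow_dvd_pow 5 (by omega)) u
  have e : (5 : ℚ) ^ (a - 1) / ((5 ^ v * u : ℕ) : ℚ) = ((5 ^ (a - 1 - v) : ℕ) : ℚ) * (u : ℚ)⁻¹ := by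
    have hu0 : (u : ℚ) ≠ 0 := by
      have : u ≠ 0 := by rintro rfl; simp at hu
      exact_mod_cast this
    have : (5 : ℚ) ^ (a - 1) = 5 ^ v * 5 ^ (a - 1 - v) := by
      rw [← pow_add]; congr 1; omega
    push_cast
    rw [this]
    field_simp
  rw [e]
  exact (PO.of_nat _).mul0 (PO_inv u hu)

theorem Phi_X (m : ℕ) : Phi (X ^ m) = ((1 / 2 : ℚ) ^ m - 1) / (m + 1) := by
  have := Phi_monomial m 1
  rw [monomial_one_right_eq_X_pow, one_mul] at this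
  exact this

theorem key_int (a : ℕ) (ha : 1 ≤ a) (k : ℕ) (hk : k < 5 ^ a) :
    PO 5 0 ((5 : ℚ) ^ (a - 1) * Phi (X ^ (5 ^ a - 1) * (1 - X) ^ k)) := by
  set n := 5 ^ a with hn
  have hn1 : 1 ≤ n := Nat.one_le_pow _ _ (by norm_num)
  have e : (X ^ (n - 1) * (1 - X) ^ k : ℚ[X]) =
      ∑ i ∈ range (k + 1), C ((-1) ^ i * (k.choose i : ℚ)) * X ^ (n - 1 + i) := by
    have : (1 - X : ℚ[X]) ^ k = ∑ i ∈ range (k + 1), (-X) ^ i * 1 ^ (k - i) * (k.choose i : ℚ[X]) := by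
      rw [← add_pow]; congr 1; ring
    rw [this, mul_sum]
    refine sum_congr rfl fun i _ => ?_
    rw [neg_pow, pow_add]
    simp only [one_pow, map_mul, map_pow, map_neg, map_one, map_natCast]
    ring
  rw [e, Phi_sum, mul_sum]
  refine PO.sum _ _ fun i hi => ?_
  have hi' : i ≤ k := by simpa [Nat.lt_succ_iff] using hi
  rw [Phi_C_mul, Phi_X]
  have hcast : (((n - 1 + i : ℕ) : ℚ) + 1) = ((n + i : ℕ) : ℚ) := by
    rw [Nat.cast_add, Nat.cast_sub hn1]; push_cast; ring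
  rw [hcast]
  have hc : PO 5 0 ((-1) ^ i * (k.choose i : ℚ)) := by
    have := PO.of_int (p := 5) ((-1) ^ i * (k.choose i : ℤ))
    exact_mod_cast this
  rcases Nat.eq_zero_or_pos i with h0 | hpos
  · subst h0
    have h11 := half_pow a ha
    have h10 : PO 5 1 ((1 / 2 : ℚ) ^ (n - 1) - 1) := by
      have := (h11.mono (show 1 ≤ 2 by norm_num)).add (PO_of_dvd 1 10 (by norm_num))
      have e : (1 / 2 : ℚ) ^ (n - 1) - 1 = (1 / 2 : ℚ) ^ (5 ^ a - 1) - 11 + ((10 : ℤ) : ℚ) := by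
        push_cast; ring
      rw [e]; exact this
    obtain ⟨r, hr, hre⟩ := PO.exists_rep h10
    have hr0 : PO 5 0 r := by
      have := PO.norm_of_den hr
      unfold PO; simpa using this
    rw [add_zero, Nat.add_zero, hre]
    have e2 : (5 : ℚ) ^ (a - 1) * ((-1) ^ 0 * (k.choose 0 : ℚ) * (((5 : ℕ) : ℚ) ^ 1 * r / (n : ℚ))) = r := by
      have : (n : ℚ) = 5 ^ (a - 1) * 5 := by
        rw [hn, ← pow_succ, show a - 1 + 1 = a by omega]; push_cast; ring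
      rw [this]
      push_cast
      field_simp
      simp
    rw [e2]
    exact hr0
  · have hnd : ¬ 5 ^ a ∣ (n + i) := by
      intro h
      have h2 : 5 ^ a ∣ i := (Nat.dvd_add_right (dvd_refl _)).1 h
      have := Nat.le_of_dvd hpos h2
      omega
    have h1 := inv_PO a (n + i) ha (by omega) hnd
    have h2 : PO 5 0 ((1 / 2 : ℚ) ^ (n - 1 + i) - 1) := (two_inv.pow0 _).sub PO.one
    have h3 := hc.mul0 (h1.mul0 h2)
    have e2 : (5 : ℚ) ^ (a - 1) * ((-1) ^ i * (k.choose i : ℚ) *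
        (((1 / 2 : ℚ) ^ (n - 1 + i) - 1) / ((n + i : ℕ) : ℚ))) =
        (-1) ^ i * (k.choose i : ℚ) * (5 ^ (a - 1) / ((n + i : ℕ) : ℚ) *
          ((1 / 2 : ℚ) ^ (n - 1 + i) - 1)) := by ring
    rw [e2]
    exact h3

theorem c_zero : c 0 = 1 := by simp [c]

theorem phi_mod (a : ℕ) (ha : 1 ≤ a) :
    PO 5 1 ((5 : ℚ) ^ (a - 1) * Phi (X ^ (5 ^ a - 1) * (f (5 ^ a)).comp (1 - X)) - 2) := by
  set n := 5 ^ a with hn
  have hn1 : 1 ≤ n := Nat.one_le_pow _ _ (by norm_num)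
  have e : (X ^ (n - 1) * (f n).comp (1 - X) : ℚ[X]) =
      ∑ k ∈ range n, C (c k) * (X ^ (n - 1) * (1 - X) ^ k) := by
    unfold f
    rw [Polynomial.sum_comp, mul_sum]
    refine sum_congr rfl fun k _ => ?_
    simp
    ring
  obtain ⟨N, hN⟩ : ∃ N, n = N + 1 := ⟨n - 1, by omega⟩
  have e2 : Phi (X ^ (n - 1) * (f n).comp (1 - X)) =
      (∑ k ∈ range N, c (k + 1) * Phi (X ^ (n - 1) * (1 - X) ^ (k + 1))) +
        ((1 / 2 : ℚ) ^ (n - 1) - 1) / n := by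
    rw [e, Phi_sum]
    nth_rewrite 1 [hN]
    rw [sum_range_succ']
    congr 1
    · refine sum_congr rfl fun k _ => ?_
      rw [Phi_C_mul]
    · rw [Phi_C_mul, c_zero, one_mul, pow_zero, mul_one, Phi_X, Nat.cast_sub hn1]
      congr 1
      push_cast
      ring
  rw [e2, mul_add, mul_sum]
  have h1 : PO 5 1 (∑ k ∈ range N, (5 : ℚ) ^ (a - 1) *
      (c (k + 1) * Phi (X ^ (n - 1) * (1 - X) ^ (k + 1)))) := by
    refine PO.sum _ _ fun k hk => ?_
    have hk' : k < N := by simpa using hk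
    have h2 := (c_PO (k + 1) (by omega)).mul0' (key_int a ha (k + 1) (by omega))
    have e3 : (5 : ℚ) ^ (a - 1) * (c (k + 1) * Phi (X ^ (n - 1) * (1 - X) ^ (k + 1))) =
      c (k + 1) * (5 ^ (a - 1) * Phi (X ^ (5 ^ a - 1) * (1 - X) ^ (k + 1))) := by
      rw [← hn]; ring
    rw [e3]
    exact h2
  have h11 := half_pow a ha
  rw [← hn] at h11
  obtain ⟨r, hr, hre⟩ := PO.exists_rep h11
  have hr0 : PO 5 0 r := by
    have := PO.norm_of_den hr
    unfold PO; simpa using this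
  have h5 : PO 5 1 (((5 : ℕ) : ℚ) ^ 1 * r) := (PO.ppow (p := 5) 1).mul0' hr0
  have e4 : (∑ k ∈ range N, (5 : ℚ) ^ (a - 1) *
      (c (k + 1) * Phi (X ^ (n - 1) * (1 - X) ^ (k + 1)))) +
      5 ^ (a - 1) * (((1 / 2 : ℚ) ^ (n - 1) - 1) / n) - 2 =
      (∑ k ∈ range N, (5 : ℚ) ^ (a - 1) *
      (c (k + 1) * Phi (X ^ (n - 1) * (1 - X) ^ (k + 1)))) + (((5 : ℕ) : ℚ) ^ 1 * r) := by
    have : (n : ℚ) = 5 ^ (a - 1) * 5 := by
      rw [hn, ← pow_succ, show a - 1 + 1 = a by omega]; push_cast; ring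
    have h6 : (1 / 2 : ℚ) ^ (n - 1) = 11 + ((5 : ℕ) : ℚ) ^ 2 * r := by linear_combination hre
    rw [this, h6]
    push_cast
    field_simp
    ring
  rw [e4]
  exact h1.add h5

theorem f_half (n : ℕ) (hn : 1 ≤ n) : PO 5 1 ((f n).eval (1 / 2) - 1) := by
  obtain ⟨N, rfl⟩ : ∃ N, n = N + 1 := ⟨n - 1, by omega⟩
  have e : (f (N + 1)).eval (1 / 2) - 1 = ∑ k ∈ range N, c (k + 1) * (1 / 2) ^ (k + 1) := by
    unfold f
    rw [eval_finsetSum, sum_range_succ']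
    simp [c_zero]
  rw [e]
  exact PO.sum _ _ fun k _ => (c_PO (k + 1) (by omega)).mul0' (two_inv.pow0 _)

theorem luc1 (a : ℕ) : (6 * 5 ^ a).choose (5 ^ a) ≡ 1 [MOD 5] := by
  induction a with
  | zero => decide
  | succ a ih =>
    have h := Choose.choose_modEq_choose_mod_mul_choose_div_nat (p := 5) (n := 6 * 5 ^ (a + 1))
      (k := 5 ^ (a + 1))
    rw [show 6 * 5 ^ (a + 1) % 5 = 0 by rw [pow_succ]; omega,
      show 5 ^ (a + 1) % 5 = 0 by rw [pow_succ]; omega,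
      show 6 * 5 ^ (a + 1) / 5 = 6 * 5 ^ a by rw [pow_succ]; omega,
      show 5 ^ (a + 1) / 5 = 5 ^ a by rw [pow_succ]; omega, Nat.choose_zero_right, one_mul] at h
    exact h.trans ih

theorem luc2 (a : ℕ) : (5 * 5 ^ a - 1).choose (2 * 5 ^ a - 1) ≡ 4 [MOD 5] := by
  induction a with
  | zero => decide
  | succ a ih =>
    have h := Choose.choose_modEq_choose_mod_mul_choose_div_nat (p := 5)
      (n := 5 * 5 ^ (a + 1) - 1) (k := 2 * 5 ^ (a + 1) - 1)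
    have hp : 1 ≤ 5 ^ a := Nat.one_le_pow _ _ (by norm_num)
    rw [show (5 * 5 ^ (a + 1) - 1) % 5 = 4 by rw [pow_succ]; omega,
      show (2 * 5 ^ (a + 1) - 1) % 5 = 4 by rw [pow_succ]; omega,
      show (5 * 5 ^ (a + 1) - 1) / 5 = 5 * 5 ^ a - 1 by rw [pow_succ]; omega,
      show (2 * 5 ^ (a + 1) - 1) / 5 = 2 * 5 ^ a - 1 by rw [pow_succ]; omega,
      Nat.choose_self, one_mul] at h
    exact h.trans ih

theorem pow432 (a : ℕ) : 432 ^ 5 ^ a ≡ 2 [MOD 5] := by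
  induction a with
  | zero => decide
  | succ a ih =>
    rw [pow_succ, pow_mul]
    exact (ih.pow 5).trans (by decide)

theorem c_n_mod (a : ℕ) : PO 5 2 (c (5 ^ a) - 5) := by
  set n := 5 ^ a with hn
  have hp : 1 ≤ n := Nat.one_le_pow _ _ (by norm_num)
  have h := Nat.add_one_mul_choose_eq (5 * n - 1) (2 * n - 1)
  rw [show 5 * n - 1 + 1 = 5 * n by omega, show 2 * n - 1 + 1 = 2 * n by omega] at h
  have h2 : 2 * (5 * n).choose (2 * n) = 5 * (5 * n - 1).choose (2 * n - 1) := by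
    apply Nat.eq_of_mul_eq_mul_left (show 0 < n by omega)
    calc n * (2 * (5 * n).choose (2 * n)) = (5 * n).choose (2 * n) * (2 * n) := by ring
      _ = 5 * n * (5 * n - 1).choose (2 * n - 1) := h.symm
      _ = _ := by ring
  have l1 := luc1 a
  have l2 := luc2 a
  have l3 := pow432 a
  rw [← hn] at l1 l2 l3
  have h3 : (5 : ℤ) ∣ ((6 * n).choose n : ℤ) * ((5 * n - 1).choose (2 * n - 1) : ℤ)
      - 2 * 432 ^ n := by
    have m1 : (((6 * n).choose n : ℕ) : ℤ) ≡ 1 [ZMOD 5] := by exact_mod_cast l1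
    have m2 : (((5 * n - 1).choose (2 * n - 1) : ℕ) : ℤ) ≡ 4 [ZMOD 5] := by exact_mod_cast l2
    have m3 : ((432 ^ n : ℕ) : ℤ) ≡ 2 [ZMOD 5] := by exact_mod_cast l3
    push_cast at m3
    have m4 := (m1.mul m2).sub (Int.ModEq.mul (rfl : (2 : ℤ) ≡ 2 [ZMOD 5]) m3)
    exact Int.modEq_zero_iff_dvd.1 (m4.trans (by decide))
  obtain ⟨w, hw⟩ := h3
  have e : c n - 5 = ((5 ^ 2 * w : ℤ) : ℚ) * ((1 / 2) * ((432 : ℚ) ^ n)⁻¹) := by
    unfold c
    rw [fac']
    have hwq := congrArg (Int.cast : ℤ → ℚ) hw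
    have h2q := congrArg (Nat.cast : ℕ → ℚ) h2
    push_cast at hwq h2q ⊢
    have h432 : (432 : ℚ) ^ n ≠ 0 := by positivity
    field_simp
    linear_combination ((6 * n).choose n : ℚ) * h2q + 5 * hwq
  rw [e]
  have h4 := PO_of_dvd 2 (5 ^ 2 * w) (Dvd.intro _ rfl)
  have h5 : PO 5 0 (((432 : ℚ) ^ n)⁻¹) := by
    have := (PO_inv 432 (by norm_num)).pow0 n
    rw [inv_pow] at this
    exact_mod_cast this
  exact h4.mul0' (two_inv.mul0 h5)

theorem eval_der (n : ℕ) : (derivative (f n)).eval (1 / 2) =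
    2 * ∑ k ∈ range n, (k : ℚ) * (((6 * k).choose (3 * k) * (3 * k).choose k : ℕ) / 864 ^ k) := by
  unfold f
  rw [derivative_sum, eval_finsetSum, mul_sum]
  refine sum_congr rfl fun k _ => ?_
  rw [derivative_C_mul_X_pow]
  simp only [eval_mul, eval_C, eval_pow, eval_X, c]
  rcases k with _ | k
  · simp
  · rw [show (864 : ℚ) = 432 * 2 by norm_num, mul_pow, Nat.add_sub_cancel]
    have h1 : (432 : ℚ) ^ (k + 1) ≠ 0 := by positivity
    rw [one_div, inv_pow]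
    have h2 : (2 : ℚ) ^ k ≠ 0 := by positivity
    field_simp
    ring

theorem main (a : ℕ) (ha : 1 ≤ a) : PO 5 3 ((∑ k ∈ range (5 ^ a), (k : ℚ) *
    (((6 * k).choose (3 * k) * (3 * k).choose k : ℕ) / 864 ^ k)) / 5 ^ a - 75) := by
  set n := 5 ^ a with hn
  have hn1 : 1 ≤ n := Nat.one_le_pow _ _ (by norm_num)
  set S := ∑ k ∈ range n, (k : ℚ) * (((6 * k).choose (3 * k) * (3 * k).choose k : ℕ) / 864 ^ k)
  have hw := wronskian n
  rw [eval_der] at hw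
  set F := (f n).eval (1 / 2)
  set P := Phi (X ^ (n - 1) * (f n).comp (1 - X))
  have hF := f_half n hn1
  have hP := phi_mod a ha
  rw [← hn] at hP
  have hc := c_n_mod a
  rw [← hn] at hc
  have hFinv : PO 5 0 F⁻¹ := by
    have := PO.inv_one_add hF
    rwa [add_sub_cancel] at this
  have hF0 : F ≠ 0 := by
    have := PO.one_add_ne hF
    rwa [add_sub_cancel] at this
  set m : ℚ := 5 ^ (a - 1) with hm
  have hm0 : m ≠ 0 := by positivity
  have hnm : (n : ℚ) = 5 * m := by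
    rw [hn, hm]; push_cast
    rw [← pow_succ', show a - 1 + 1 = a by omega]
  obtain ⟨r, hr, hre⟩ := PO.exists_rep hc
  have hr0 : PO 5 0 r := by
    have := PO.norm_of_den hr
    unfold PO; simpa using this
  -- `c n = 5 γ`
  set γ : ℚ := 1 + 5 * r with hγ
  have hcγ : c n = 5 * γ := by
    rw [hγ]; push_cast at hre; linear_combination hre
  have hγ1 : PO 5 1 (γ - 1) := by
    have : γ - 1 = ((5 : ℕ) : ℚ) ^ 1 * r := by rw [hγ]; push_cast; ring
    rw [this]; exact (PO.ppow (p := 5) 1).mul0' hr0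
  have hγ0 : PO 5 0 γ := by
    have := (hγ1.mono (Nat.zero_le _)).add PO.one
    rwa [sub_add_cancel] at this
  have e : S / 5 ^ a - 75 = ((5 : ℕ) : ℚ) ^ 2 * (-(γ * (m * P - 2) + 2 * (γ - 1) + 3 * (F - 1) + 5)
      * F⁻¹) := by
    have h5a : (5 : ℚ) ^ a = 5 * m := by
      rw [hm, ← pow_succ', show a - 1 + 1 = a by omega]
    rw [h5a]
    rw [hcγ, hnm] at hw
    field_simp
    push_cast
    linear_combination (1 / 2) * hw
  rw [e]
  have h1 : PO 5 1 (-(γ * (m * P - 2) + 2 * (γ - 1) + 3 * (F - 1) + 5)) := by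
    have t1 := hγ0.mul0 hP
    have t2 := (PO.of_nat (p := 5) 2).mul0 hγ1
    have t3 := (PO.of_nat (p := 5) 3).mul0 hF
    have t4 := PO_of_dvd 1 5 (by norm_num)
    have := (((t1.add t2).add t3).add t4).neg
    push_cast at this
    exact this
  exact (PO.ppow (p := 5) 2).mul (h1.mul0' hFinv)

end Pool.Agent.Q277.Half864
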