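import Mathlib

/-!
# Sums of values of polynomials of small degree

* the alternating binomial sum of the values of a polynomial of degree `< n` vanishes;
* the sum of the values at `0, ..., p - 1` of an integral polynomial of degree `< p - 1` is
  divisible by the prime `p`.
-/

open Finset Polynomial

namespace Q277.PolySums

theorem alt_sum_eq_zero {R : Type*} [CommRing R] (P : R[X]) (n : ℕ) (h : P.natDegree < n) :
    ∑ k ∈ range (n + 1), (-1 : R) ^ k * (n.choose k : R) * P.eval (k : R) = 0 := by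
  have h1 := congrFun (Polynomial.fwdDiff_iter_eq_zero_of_degree_lt h) (0 : R)
  rw [fwdDiff_iter_eq_sum_shift] at h1
  simp only [nsmul_eq_mul, mul_one, zero_add, Pi.zero_apply, zsmul_eq_mul] at h1
  have h2 : ∑ k ∈ range (n + 1), (-1 : R) ^ k * (n.choose k : R) * P.eval (k : R)
      = (-1) ^ n * ∑ k ∈ range (n + 1), (((-1 : ℤ) ^ (n - k) * (n.choose k : ℤ) : ℤ) : R) *
        P.eval (k : R) := by
    rw [mul_sum]
    refine sum_congr rfl fun k hk => ?_
    have hk' : k ≤ n := by rw [mem_range] at hk; omega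
    have e : (-1 : R) ^ k = (-1) ^ n * (-1) ^ (n - k) := by
      obtain ⟨d, rfl⟩ := Nat.exists_eq_add_of_le hk'
      rw [Nat.add_sub_cancel_left, pow_add, mul_assoc, ← pow_add, ← two_mul, pow_mul]
      simp
    rw [e]
    push_cast
    ring
  rw [h2, h1, mul_zero]

theorem sum_zmod_eq_zero (p : ℕ) [Fact p.Prime] (P : (ZMod p)[X]) (h : P.natDegree < p - 1) :
    ∑ x : ZMod p, P.eval x = 0 := by
  simp_rw [Polynomial.eval_eq_sum_range]
  rw [sum_comm]
  refine sum_eq_zero fun i hi => ?_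
  rw [← mul_sum, FiniteField.sum_pow_lt_card_sub_one, mul_zero]
  rw [ZMod.card]
  rw [mem_range] at hi
  omega

theorem sum_range_zmod (p : ℕ) [Fact p.Prime] (f : ZMod p → ZMod p) :
    ∑ k ∈ range p, f (k : ZMod p) = ∑ x : ZMod p, f x := by
  have hp : p ≠ 0 := (Fact.out : p.Prime).ne_zero
  have : NeZero p := ⟨hp⟩
  refine Finset.sum_bij' (fun k _ => (k : ZMod p)) (fun x _ => x.val) ?_ ?_ ?_ ?_ ?_
  · intros; simp
  · intro x _; rw [mem_range]; exact ZMod.val_lt x
  · intro k hk; rw [mem_range] at hk; exact ZMod.val_cast_of_lt hk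
  · intro x _; exact ZMod.natCast_zmod_val x
  · intros; rfl

theorem dvd_sum_range (p : ℕ) (hp : p.Prime) (P : ℤ[X]) (h : P.natDegree < p - 1) :
    (p : ℤ) ∣ ∑ k ∈ range p, P.eval (k : ℤ) := by
  have : Fact p.Prime := ⟨hp⟩
  rw [← ZMod.intCast_zmod_eq_zero_iff_dvd]
  rw [Int.cast_sum]
  have h1 : ∀ k : ℕ, ((P.eval (k : ℤ) : ℤ) : ZMod p)
      = (P.map (Int.castRingHom (ZMod p))).eval (k : ZMod p) := by
    intro k
    have h2 : (k : ZMod p) = Int.castRingHom (ZMod p) (k : ℤ) := by simp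
    rw [h2, Polynomial.eval_map, Polynomial.eval₂_hom]
    rfl
  simp_rw [h1]
  rw [sum_range_zmod p (fun x => (P.map (Int.castRingHom (ZMod p))).eval x)]
  apply sum_zmod_eq_zero
  exact lt_of_le_of_lt (Polynomial.natDegree_map_le) h

end Q277.PolySums
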