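import Mathlib
import Pool.Agent.Q277.PInt
import Pool.Agent.Q277.PolySums

/-!
# Sums of `m`-th powers of binomial coefficients `binom(r/m, k)` modulo `p^3`

Notation: `s = t - 1` where `p - r = m t`, `n = p - 1 - s`, `C_k = C(s+k, k)`,
`T_k = ∏_{i<k} (s + 1 + i - x) / k!` with `m x = p`.
-/

open Finset Polynomial

namespace Q277.MthPowers

open Q277.PInt Q277.PolySums

theorem asc_prod (s k : ℕ) :
    ∏ i ∈ range k, ((s : ℚ) + 1 + i) = ((s + k).choose k : ℚ) * k.factorial := by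
  induction k with
  | zero => simp
  | succ k ih =>
    rw [prod_range_succ, ih, Nat.factorial_succ]
    have h := Nat.add_one_mul_choose_eq (s + k) k
    have h' : ((s : ℚ) + k + 1) * ((s + k).choose k : ℚ)
        = ((s + (k + 1)).choose (k + 1) : ℚ) * (k + 1) := by exact_mod_cast h
    push_cast
    linear_combination (k.factorial : ℚ) * h'

theorem desc_prod (n k : ℕ) (hk : k ≤ n) :
    ∏ i ∈ range k, ((n : ℚ) - i) = (n.choose k : ℚ) * k.factorial := by
  induction k with
  | zero => simp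
  | succ k ih =>
    rw [prod_range_succ, ih (by omega), Nat.factorial_succ]
    have h := Nat.choose_succ_right_eq n k
    have h' : (n.choose (k + 1) : ℚ) * (k + 1) = (n.choose k : ℚ) * (n - k) := by
      have h'' := congrArg (Nat.cast : ℕ → ℚ) h
      rw [Nat.cast_mul, Nat.cast_mul, Nat.cast_sub (by omega)] at h''
      exact_mod_cast h''
    push_cast
    linear_combination -(k.factorial : ℚ) * h'

/-- the integral polynomial `(X+1) ... (X+s)` -/
noncomputable def Q (s : ℕ) : ℤ[X] := ∏ i ∈ range s, (X + C ((i : ℤ) + 1))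

theorem eval_Q (s : ℕ) (k : ℤ) : (Q s).eval k = ∏ i ∈ range s, (k + ((i : ℤ) + 1)) := by
  unfold Q
  rw [eval_prod]
  simp

theorem natDegree_Q (s : ℕ) : (Q s).natDegree ≤ s := by
  unfold Q
  refine (natDegree_prod_le _ _).trans ?_
  calc ∑ i ∈ range s, (X + C ((i : ℤ) + 1)).natDegree ≤ ∑ i ∈ range s, 1 := by
        refine sum_le_sum fun i _ => ?_
        rw [natDegree_X_add_C]
    _ = s := by simp

theorem eval_Q_nat (s k : ℕ) : ((Q s).eval (k : ℤ) : ℤ) = ((s + k).choose k : ℤ) * s.factorial := by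
  rw [eval_Q]
  have h := asc_prod k s
  have h1 : (k + s).choose s = (s + k).choose k := by
    rw [Nat.add_comm k s]
    rw [← Nat.choose_symm_add]
  rw [h1] at h
  have h2 : ∏ i ∈ range s, ((k : ℤ) + 1 + i) = ((s + k).choose k : ℤ) * s.factorial := by
    exact_mod_cast h
  rw [← h2]
  exact prod_congr rfl fun i _ => by ring

/-- the exact vanishing -/
theorem exact_zero (s n m : ℕ) (h : s * m < n) :
    ∑ k ∈ range (n + 1), (-1 : ℚ) ^ k * (n.choose k : ℚ) * ((s + k).choose k : ℚ) ^ m = 0 := by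
  have h1 := alt_sum_eq_zero (Q s ^ m) n (by
    refine lt_of_le_of_lt (natDegree_pow_le) ?_
    calc m * (Q s).natDegree ≤ m * s := Nat.mul_le_mul_left _ (natDegree_Q s)
      _ < n := by rw [mul_comm]; exact h)
  have h2 : ∑ k ∈ range (n + 1), (-1 : ℚ) ^ k * (n.choose k : ℚ) *
      (((s + k).choose k : ℚ) * s.factorial) ^ m = 0 := by
    have h3 : ∀ k : ℕ, (Q s ^ m).eval (k : ℤ) = (((s + k).choose k : ℤ) * s.factorial) ^ m := by
      intro k
      rw [eval_pow, eval_Q_nat]
    simp_rw [h3] at h1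
    exact_mod_cast h1
  have h4 : (s.factorial : ℚ) ^ m ≠ 0 := by
    have := Nat.factorial_ne_zero s
    positivity
  have h5 : (∑ k ∈ range (n + 1), (-1 : ℚ) ^ k * (n.choose k : ℚ) * ((s + k).choose k : ℚ) ^ m)
      * (s.factorial : ℚ) ^ m = 0 := by
    rw [← h2, sum_mul]
    refine sum_congr rfl fun k _ => ?_
    rw [mul_pow]; ring
  rcases mul_eq_zero.1 h5 with h | h
  · exact h
  · exact absurd h h4

section padic

variable {p : ℕ} (hp : p.Prime)
include hp

omit hp in
theorem not_dvd_lt {a : ℕ} (h1 : 0 < a) (h2 : a < p) : ¬ p ∣ a := by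
  intro h
  exact absurd (Nat.le_of_dvd h1 h) (by omega)

theorem PI_inv {a : ℕ} (h1 : 0 < a) (h2 : a < p) : PI p (1 / (a : ℚ)) :=
  PI.div_nat hp (PI.one hp) (not_dvd_lt h1 h2)

theorem PI_u {s i : ℕ} (h : s + 1 + i < p) : PI p (1 / ((s : ℚ) + 1 + i)) := by
  have := PI_inv hp (a := s + 1 + i) (by omega) h
  push_cast at this
  exact this

/-- truncated binomial formula -/
theorem one_sub_pow {z : ℚ} (hz : PI p z) (m : ℕ) :
    Cg p 3 ((1 - p * z) ^ m) (1 - m * (p * z) + (m.choose 2 : ℚ) * (p * z) ^ 2) := by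
  induction m with
  | zero => exact Cg.of_eq hp (by simp)
  | succ m ih =>
    have h1 : Cg p 3 ((1 - p * z) ^ (m + 1))
        ((1 - m * (p * z) + (m.choose 2 : ℚ) * (p * z) ^ 2) * (1 - p * z)) := by
      rw [pow_succ]
      exact Cg.mul_right hp (PI.sub hp (PI.one hp) (PI.mul hp (PI.nat hp p) hz)) ih
    refine Cg.trans hp h1 ⟨-((m.choose 2 : ℕ) : ℚ) * z ^ 3, ?_, ?_⟩
    · exact PI.mul hp (PI.neg (PI.nat hp _)) (PI.pow hp hz _)
    · have h2 : (((m + 1).choose 2 : ℕ) : ℚ) = m.choose 2 + m := by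
        rw [Nat.choose_succ_succ' m 1]
        push_cast
        rw [Nat.choose_one_right]; ring
      rw [h2]
      push_cast
      ring

/-- the product `∏ (1 - x u_i)^m` modulo `p^3`, where `m x = p` -/
theorem prod_cg {z : ℚ} (hz : PI p z) (m : ℕ) (hm : (m : ℚ) * z = 1) (u : ℕ → ℚ) (k : ℕ)
    (hu : ∀ i < k, PI p (u i)) :
    (∃ b : ℚ, PI p b ∧ ∏ i ∈ range k, (1 - p * u i) = 1 + p * b) ∧
    Cg p 3 (∏ i ∈ range k, (1 - p * z * u i) ^ m)
      (∏ i ∈ range k, (1 - p * u i)
        + (m.choose 2 : ℚ) * (p * z) ^ 2 * ∑ i ∈ range k, u i ^ 2) := by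
  induction k with
  | zero =>
    refine ⟨⟨0, PI.zero hp, by simp⟩, Cg.of_eq hp (by simp)⟩
  | succ k ih =>
    obtain ⟨⟨b, hb, hB⟩, hC⟩ := ih (fun i hi => hu i (by omega))
    have huk : PI p (u k) := hu k (by omega)
    have hH : PI p (∑ i ∈ range k, u i ^ 2) :=
      PI.sum hp _ _ fun i hi => PI.pow hp (hu i (by rw [mem_range] at hi; omega)) _
    refine ⟨⟨b - u k - p * b * u k, ?_, ?_⟩, ?_⟩
    · exact PI.sub hp (PI.sub hp hb huk) (PI.mul hp (PI.mul hp (PI.nat hp p) hb) huk)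
    · rw [prod_range_succ, hB]; ring
    · rw [prod_range_succ, prod_range_succ, sum_range_succ]
      have h1 := one_sub_pow hp (PI.mul hp hz huk) m
      have e1 : (1 : ℚ) - p * z * u k = 1 - p * (z * u k) := by ring
      rw [e1]
      have hPB : PI p (∏ i ∈ range k, (1 - p * u i)
        + (m.choose 2 : ℚ) * (p * z) ^ 2 * ∑ i ∈ range k, u i ^ 2) := by
        refine PI.add hp ?_ (PI.mul hp (PI.mul hp (PI.nat hp _)
          (PI.pow hp (PI.mul hp (PI.nat hp p) hz) _)) hH)
        rw [hB]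
        exact PI.add hp (PI.one hp) (PI.mul hp (PI.nat hp p) hb)
      have h2 := Cg.mul hp hC h1 (PI.pow hp (PI.sub hp (PI.one hp)
        (PI.mul hp (PI.nat hp p) (PI.mul hp hz huk))) m) hPB
      refine Cg.trans hp h2 ?_
      rw [hB]
      refine ⟨(m.choose 2 : ℚ) * z ^ 2 * (-(∑ i ∈ range k, u i ^ 2) * u k
        + (p : ℚ) * (m.choose 2 : ℚ) * z ^ 2 * (∑ i ∈ range k, u i ^ 2) * u k ^ 2
        + b * u k ^ 2), ?_, ?_⟩
      · refine PI.mul hp (PI.mul hp (PI.nat hp _) (PI.pow hp hz _)) ?_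
        refine PI.add hp (PI.add hp (PI.mul hp (PI.neg hH) huk) ?_)
          (PI.mul hp hb (PI.pow hp huk _))
        exact PI.mul hp (PI.mul hp (PI.mul hp (PI.mul hp (PI.nat hp p) (PI.nat hp _))
          (PI.pow hp hz _)) hH) (PI.pow hp huk _)
      · have e2 : (m : ℚ) * (p * (z * u k)) = p * u k := by
          linear_combination (p * u k) * hm
        rw [e2]
        ring

end padic

end Q277.MthPowers
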