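import Mathlib
import Pool.Agent.Q277.FacTools
import Pool.Agent.Q277.MthPowers

/-!
The sum of `(205k^2+160k+32)(-1)^k C(2k,k)^5` over `k < n` as a single sum divisible by `n^2 C(2n,n)^2`
(a telescoping pair of Wilf and Zeilberger), and the form it takes for `2n = p + 1`.
-/

namespace Q277.HalfFive

open Finset Q277.FacTools

/-- the `k`-th term of the single sum for `n = k + d` -/
def Fq (k d : ℕ) : ℚ :=
  4 * ((k : ℚ) + d) ^ 3 * (-1) ^ k * ((2 * (k + d)).factorial : ℚ) ^ 3 * ((k : ℚ) + 2 * d)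
    * ((2 * k + d).factorial : ℚ) ^ 2
    / (((k + d).factorial : ℚ) ^ 6 * (k.factorial : ℚ) ^ 3 * ((k + 2 * d).factorial : ℚ)
      * (2 * (k : ℚ) + d) ^ 2)

def Gq (k d : ℕ) : ℚ :=
  -4 * (-1) ^ k * ((2 * (k + d)).factorial : ℚ) ^ 3 * ((2 * k + d).factorial : ℚ) ^ 2 * (k : ℚ) ^ 3
    * (30 * ((k : ℚ) + d) ^ 2 + 21 * ((k : ℚ) + d) * k + 11 * ((k : ℚ) + d) + 8 * k)
    / (((k + d).factorial : ℚ) ^ 6 * (k.factorial : ℚ) ^ 3 * ((k + 2 * d).factorial : ℚ)
      * (2 * (k : ℚ) + d) ^ 2 * ((k : ℚ) + 2 * d + 1))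

theorem step (k e : ℕ) : Fq k (e + 2) - Fq k (e + 1) = Gq (k + 1) e - Gq k (e + 1) := by
  unfold Fq Gq
  have e1 : 2 * (k + (e + 2)) = (2 * k + 2 * e + 2) + 2 := by ring
  have e2 : 2 * k + (e + 2) = (2 * k + e + 1) + 1 := by ring
  have e3 : k + (e + 2) = (k + e + 1) + 1 := by ring
  have e4 : k + 2 * (e + 2) = (k + 2 * e + 1) + 3 := by ring
  have e5 : 2 * (k + (e + 1)) = 2 * k + 2 * e + 2 := by ring
  have e6 : 2 * k + (e + 1) = 2 * k + e + 1 := by ring
  have e7 : k + (e + 1) = k + e + 1 := by ring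
  have e8 : k + 2 * (e + 1) = (k + 2 * e + 1) + 1 := by ring
  have e9 : 2 * ((k + 1) + e) = 2 * k + 2 * e + 2 := by ring
  have e10 : 2 * (k + 1) + e = (2 * k + e + 1) + 1 := by ring
  have e11 : (k + 1) + e = k + e + 1 := by ring
  have e12 : (k + 1) + 2 * e = k + 2 * e + 1 := by ring
  rw [e1, e2, e3, e4, e5, e6, e7, e8, e9, e10, e11, e12, f2 (2 * k + 2 * e + 2), f1 (2 * k + e + 1),
    f1 (k + e + 1), f3 (k + 2 * e + 1), f1 (k + 2 * e + 1), f1 k, pow_succ (-1 : ℚ) k]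
  have a1 := fne (2 * k + 2 * e + 2)
  have a2 := fne (2 * k + e + 1)
  have a3 := fne (k + e + 1)
  have a4 := fne (k + 2 * e + 1)
  have a5 := fne k
  push_cast
  have b1 : (k : ℚ) + 1 ≠ 0 := by positivity
  have b2 : (k : ℚ) + e + 1 + 1 ≠ 0 := by positivity
  have b3 : (k : ℚ) + 2 * e + 1 + 1 ≠ 0 := by positivity
  have b4 : (k : ℚ) + 2 * e + 1 + 2 ≠ 0 := by positivity
  have b5 : (k : ℚ) + 2 * e + 1 + 3 ≠ 0 := by positivity
  have b6 : 2 * (k : ℚ) + (e + 1) ≠ 0 := by positivity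
  have b7 : 2 * (k : ℚ) + (e + 2) ≠ 0 := by positivity
  have b8 : 2 * ((k : ℚ) + 1) + e ≠ 0 := by positivity
  have b9 : (k : ℚ) + 2 * (e + 1) + 1 ≠ 0 := by positivity
  have b10 : (k : ℚ) + 1 + 2 * e + 1 ≠ 0 := by positivity
  have c1 : (k : ℚ) + e * 2 + 1 + 1 ≠ 0 := by positivity
  have c2 : (k : ℚ) + e * 2 + 1 + 2 ≠ 0 := by positivity
  have c3 : (k : ℚ) + e * 2 + 1 + 3 ≠ 0 := by positivity
  have c4 : (k : ℚ) * 2 + (e + 1) ≠ 0 := by positivity
  have c5 : (k : ℚ) * 2 + (e + 2) ≠ 0 := by positivity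
  have c6 : (k : ℚ) + 1 + e * 2 + 1 ≠ 0 := by positivity
  generalize (((2 * k + 2 * e + 2).factorial : ℕ) : ℚ) = A at *
  generalize (((2 * k + e + 1).factorial : ℕ) : ℚ) = B at *
  generalize (((k + e + 1).factorial : ℕ) : ℚ) = C at *
  generalize (((k + 2 * e + 1).factorial : ℕ) : ℚ) = D at *
  generalize ((k.factorial : ℕ) : ℚ) = E at *
  generalize (k : ℚ) = x at *
  generalize (e : ℚ) = y at *
  field_simp
  ring

theorem last (n : ℕ) (hn : 1 ≤ n) : Fq n 1 + Gq n 0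
    = (205 * (n : ℚ) ^ 2 + 160 * n + 32) * (-1) ^ n * ((2 * n).choose n : ℚ) ^ 5 := by
  unfold Fq Gq
  have hc : ((2 * n).choose n : ℚ) = ((2 * n).factorial : ℚ) / ((n.factorial : ℚ) * (n.factorial : ℚ)) := by
    rw [two_mul, Nat.add_choose]
    rw [Nat.cast_div (Nat.factorial_mul_factorial_dvd_factorial_add n n) (by
      have := fne n
      push_cast
      exact mul_ne_zero this this)]
    push_cast
    rfl
  rw [hc]
  have e1 : 2 * (n + 1) = 2 * n + 2 := by ring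
  rw [e1, show 2 * (n + 0) = 2 * n by ring, show 2 * n + 0 = 2 * n by ring, show n + 0 = n by ring,
    show n + 2 * 1 = n + 2 by ring, f2 (2 * n), f1 (2 * n), f1 n, f2 n]
  have a1 := fne (2 * n)
  have a2 := fne n
  have hn0 : (n : ℚ) ≠ 0 := by
    have : 0 < n := hn
    exact_mod_cast this.ne'
  push_cast
  have b1 : (n : ℚ) + 1 ≠ 0 := by positivity
  have b2 : (n : ℚ) + 2 ≠ 0 := by positivity
  have b3 : 2 * (n : ℚ) + 1 ≠ 0 := by positivity
  generalize (((2 * n).factorial : ℕ) : ℚ) = A at *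
  generalize ((n.factorial : ℕ) : ℚ) = E at *
  generalize (n : ℚ) = x at *
  simp only [mul_zero, add_zero, mul_one]
  field_simp
  ring

theorem sum_F (n : ℕ) (hn : 1 ≤ n) : ∑ k ∈ range n, Fq k (n - k)
    = ∑ k ∈ range n, (205 * (k : ℚ) ^ 2 + 160 * k + 32) * (-1) ^ k * ((2 * k).choose k : ℚ) ^ 5 := by
  induction n, hn using Nat.le_induction with
  | base =>
    simp [Fq]
    norm_num
  | succ n hn ih =>
    rw [sum_range_succ _ n, sum_range_succ _ n, ← ih, ← last n hn]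
    have h1 : ∑ k ∈ range n, Fq k (n + 1 - k)
        = ∑ k ∈ range n, Fq k (n - k) + ∑ k ∈ range n, (Gq (k + 1) (n - (k + 1)) - Gq k (n - k)) := by
      rw [← sum_add_distrib]
      refine sum_congr rfl fun k hk => ?_
      have hk' := mem_range.1 hk
      obtain ⟨e, he⟩ : ∃ e, n = k + (e + 1) := ⟨n - k - 1, by omega⟩
      have h2 := step k e
      rw [show n + 1 - k = e + 2 by omega, show n - k = e + 1 by omega, show n - (k + 1) = e by omega]
      linarith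
    rw [h1, sum_range_sub (fun k => Gq k (n - k)) n, Nat.sub_self, show n + 1 - n = 1 by omega]
    have h3 : Gq 0 (n - 0) = 0 := by simp [Gq]
    rw [h3]
    ring

theorem Fq_eq (k m : ℕ) (hk : k ≤ m) : Fq k (m + 1 - k) = 8 * ((m : ℚ) + 1) ^ 2
    * ((2 * (m + 1)).choose (m + 1) : ℚ) ^ 2
    * ((-1) ^ k * ((2 * m + 1).choose k : ℚ) * ((m + k).choose k : ℚ) ^ 2) := by
  obtain ⟨d, rfl⟩ := Nat.exists_eq_add_of_le hk
  rw [show k + d + 1 - k = d + 1 by omega]
  unfold Fq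
  have hc1 : ((2 * (k + d + 1)).choose (k + d + 1) : ℚ)
      = ((2 * (k + d + 1)).factorial : ℚ) / (((k + d + 1).factorial : ℚ) * ((k + d + 1).factorial : ℚ)) := by
    rw [Nat.choose_eq_factorial_div_factorial (by omega), show 2 * (k + d + 1) - (k + d + 1) = k + d + 1 by omega,
      Nat.cast_div (by
        have := Nat.factorial_mul_factorial_dvd_factorial_add (k + d + 1) (k + d + 1)
        rwa [← two_mul] at this) (by
        have := fne (k + d + 1)
        push_cast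
        exact mul_ne_zero this this)]
    push_cast
    rfl
  have hc2 : ((2 * (k + d) + 1).choose k : ℚ)
      = ((2 * (k + d) + 1).factorial : ℚ) / ((k.factorial : ℚ) * ((k + 2 * d + 1).factorial : ℚ)) := by
    rw [Nat.cast_choose ℚ (by omega), show 2 * (k + d) + 1 - k = k + 2 * d + 1 by omega]
  have hc3 : ((k + d + k).choose k : ℚ)
      = ((2 * k + d).factorial : ℚ) / ((k.factorial : ℚ) * ((k + d).factorial : ℚ)) := by
    rw [Nat.cast_choose ℚ (by omega), show k + d + k - k = k + d by omega, show k + d + k = 2 * k + d by ring]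
  rw [hc1, hc2, hc3]
  have e1 : 2 * (k + (d + 1)) = (2 * (k + d) + 1) + 1 := by ring
  have e2 : 2 * k + (d + 1) = (2 * k + d) + 1 := by ring
  have e3 : k + (d + 1) = (k + d) + 1 := by ring
  have e4 : k + 2 * (d + 1) = (k + 2 * d + 1) + 1 := by ring
  have e5 : 2 * (k + d + 1) = (2 * (k + d) + 1) + 1 := by ring
  rw [e1, e2, e3, e4, e5, f1 (2 * (k + d) + 1), f1 (2 * k + d), f1 (k + d), f1 (k + 2 * d + 1)]
  have a1 := fne (2 * (k + d) + 1)
  have a2 := fne (2 * k + d)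
  have a3 := fne (k + d)
  have a4 := fne (k + 2 * d + 1)
  have a5 := fne k
  push_cast
  have b1 : (k : ℚ) + d + 1 ≠ 0 := by positivity
  have b2 : (k : ℚ) + 2 * d + 1 + 1 ≠ 0 := by positivity
  have b3 : 2 * (k : ℚ) + (d + 1) ≠ 0 := by positivity
  have b4 : 2 * ((k : ℚ) + d) + 1 + 1 ≠ 0 := by positivity
  have c1 : (k : ℚ) + d * 2 + 1 + 1 ≠ 0 := by positivity
  have c2 : (k : ℚ) * 2 + (d + 1) ≠ 0 := by positivity
  generalize (((2 * (k + d) + 1).factorial : ℕ) : ℚ) = A at *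
  generalize (((2 * k + d).factorial : ℕ) : ℚ) = B at *
  generalize (((k + d).factorial : ℕ) : ℚ) = C at *
  generalize (((k + 2 * d + 1).factorial : ℕ) : ℚ) = D at *
  generalize ((k.factorial : ℕ) : ℚ) = E at *
  generalize (k : ℚ) = x at *
  generalize (d : ℚ) = y at *
  field_simp
  ring

/-- the identity -/
theorem main_id (m : ℕ) :
    ∑ k ∈ range (m + 1), (205 * (k : ℚ) ^ 2 + 160 * k + 32) * (-1) ^ k * ((2 * k).choose k : ℚ) ^ 5
      = 8 * ((m : ℚ) + 1) ^ 2 * ((2 * (m + 1)).choose (m + 1) : ℚ) ^ 2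
        * ∑ k ∈ range (m + 1), (-1) ^ k * ((2 * m + 1).choose k : ℚ) * ((m + k).choose k : ℚ) ^ 2 := by
  rw [← sum_F (m + 1) (by omega), mul_sum]
  exact sum_congr rfl fun k hk => Fq_eq k m (by have := mem_range.1 hk; omega)

/-- the identity with `2m+1` in front -/
theorem main_id' (m : ℕ) :
    ∑ k ∈ range (m + 1), (205 * (k : ℚ) ^ 2 + 160 * k + 32) * (-1) ^ k * ((2 * k).choose k : ℚ) ^ 5
      = 32 * (2 * (m : ℚ) + 1) ^ 2 * ((2 * m).choose m : ℚ) ^ 2
        * ∑ k ∈ range (m + 1), (-1) ^ k * ((2 * m + 1).choose k : ℚ) * ((m + k).choose k : ℚ) ^ 2 := by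
  rw [main_id]
  have h := Nat.succ_mul_centralBinom_succ m
  rw [Nat.centralBinom_eq_two_mul_choose, Nat.centralBinom_eq_two_mul_choose] at h
  have h2 : ((m : ℚ) + 1) * ((2 * (m + 1)).choose (m + 1) : ℚ) = 2 * (2 * m + 1) * ((2 * m).choose m : ℚ) := by
    exact_mod_cast h
  have h3 : 8 * ((m : ℚ) + 1) ^ 2 * ((2 * (m + 1)).choose (m + 1) : ℚ) ^ 2
      = 32 * (2 * (m : ℚ) + 1) ^ 2 * ((2 * m).choose m : ℚ) ^ 2 := by
    calc 8 * ((m : ℚ) + 1) ^ 2 * ((2 * (m + 1)).choose (m + 1) : ℚ) ^ 2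
        = 8 * (((m : ℚ) + 1) * ((2 * (m + 1)).choose (m + 1) : ℚ)) ^ 2 := by ring
      _ = _ := by rw [h2]; ring
  rw [h3]

/-- the reversed sum -/
theorem reversed (m : ℕ) :
    ∑ k ∈ range (m + 1), (-1 : ℚ) ^ k * ((2 * m + 1).choose k : ℚ) * ((m + k).choose k : ℚ) ^ 2
      = ∑ j ∈ range (m + 1), (-1 : ℚ) ^ j * ((2 * m + 1).choose j : ℚ) * ((3 * m + 1 - j).choose m : ℚ) ^ 2 := by
  have h := MthPowers.exact_zero m (2 * m + 1) 2 (by omega)
  rw [show 2 * m + 1 + 1 = (m + 1) + (m + 1) by ring, sum_range_add] at h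
  have h2 : ∑ i ∈ range (m + 1), (-1 : ℚ) ^ (m + 1 + i) * ((2 * m + 1).choose (m + 1 + i) : ℚ)
      * ((m + (m + 1 + i)).choose (m + 1 + i) : ℚ) ^ 2
      = - ∑ j ∈ range (m + 1), (-1 : ℚ) ^ j * ((2 * m + 1).choose j : ℚ) * ((3 * m + 1 - j).choose m : ℚ) ^ 2 := by
    rw [← sum_neg_distrib, ← sum_range_reflect]
    refine sum_congr rfl fun j hj => ?_
    have hj' := mem_range.1 hj
    rw [show m + 1 - 1 - j = m - j by omega]
    have e1 : (2 * m + 1).choose (m + 1 + (m - j)) = (2 * m + 1).choose j := by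
      rw [← Nat.choose_symm (show j ≤ 2 * m + 1 by omega)]
      congr 1
      omega
    have e2 : (m + (m + 1 + (m - j))).choose (m + 1 + (m - j)) = (3 * m + 1 - j).choose m := by
      rw [← Nat.choose_symm (show m ≤ 3 * m + 1 - j by omega)]
      congr 1 <;> omega
    have e3 : (-1 : ℚ) ^ (m + 1 + (m - j)) = - (-1) ^ j := by
      have : m + 1 + (m - j) + j = 2 * m + 1 := by omega
      have h5 : (-1 : ℚ) ^ (m + 1 + (m - j)) * (-1) ^ j = -1 := by
        rw [← pow_add, this, pow_succ, pow_mul]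
        norm_num
      have h6 : ((-1 : ℚ) ^ j) * (-1) ^ j = 1 := by
        rw [← mul_pow]; norm_num
      linear_combination (-1 : ℚ) ^ j * h5 - (-1 : ℚ) ^ (m + 1 + (m - j)) * h6
    rw [e1, e2, e3]
    ring
  rw [h2] at h
  linarith

end Q277.HalfFive
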