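import Mathlib
import Pool.Agent.Q277.FacTools
import Pool.Agent.H434R2.ElevenG

/-!
An exact finite identity behind `∑ 1/(k^3 C(h,k)^2)` modulo `p`, `h = (p-1)/2`, and the expansions of the
products of binomial coefficients.
-/

set_option linter.unusedSectionVars false

namespace Q277.HalfFive

open Finset Q277.FacTools Pool.Agent.H434R2 PO

theorem sumlem (n K : ℕ) (h : n ≤ K) :
    1 / ((K : ℚ) + 1) ^ 2 + 2 * ∑ t ∈ range n, (-1 : ℚ) ^ (t + 1) * ((t + 1 + K).factorial : ℚ)
      * ((K - 1 - t).factorial : ℚ) / ((K + 1).factorial : ℚ) ^ 2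
    = (-1) ^ n * ((K - n).factorial : ℚ) * ((n + K + 1).factorial : ℚ)
      / (((K : ℚ) + 1) * ((K + 1).factorial : ℚ) ^ 2) := by
  induction n with
  | zero =>
    have a1 := fne K
    have b1 : (K : ℚ) + 1 ≠ 0 := by positivity
    simp only [range_zero, sum_empty, mul_zero, add_zero, pow_zero, one_mul, Nat.sub_zero, zero_add]
    rw [f1 K]
    field_simp
  | succ n ih =>
    have ih' := ih (by omega)
    rw [sum_range_succ, mul_add, ← add_assoc, ih']
    obtain ⟨d, rfl⟩ := Nat.exists_eq_add_of_le h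
    rw [show n + 1 + d - n = d + 1 by omega, show n + 1 + d - 1 - n = d by omega,
      show n + 1 + d - (n + 1) = d by omega, show n + (n + 1 + d) + 1 = 2 * n + d + 2 by ring,
      show n + 1 + (n + 1 + d) = 2 * n + d + 2 by ring,
      f1 (2 * n + d + 2), f1 d, f1 (n + 1 + d), pow_succ]
    have a1 := fne d
    have a2 := fne (2 * n + d + 2)
    have a3 := fne (n + 1 + d)
    push_cast
    have b1 : (n : ℚ) + 1 + d + 1 ≠ 0 := by positivity
    field_simp
    ring

/-- the exact identity, for `K = n + d` -/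
theorem star (n d : ℕ) :
    (-1 : ℚ) ^ n * ∑ i ∈ range d, (i.factorial : ℚ) * ((2 * n + 1 + i).factorial : ℚ)
        / (((n : ℚ) + 1 + i) * ((n + 1 + i).factorial : ℚ) ^ 2)
      = ∑ k ∈ range (n + d), 1 / ((k : ℚ) + 1) ^ 2 - ∑ k ∈ range n, 1 / ((k : ℚ) + 1) ^ 2
        - 2 * ∑ t ∈ range n, (-1 : ℚ) ^ (t + 1) / ((t : ℚ) + 1) ^ 2 *
          (((t + 1 + (n + d)).factorial : ℚ) * ((n + d - 1 - t).factorial : ℚ) / ((n + d).factorial : ℚ) ^ 2
            - ((t + 1 + n).factorial : ℚ) * ((n - 1 - t).factorial : ℚ) / (n.factorial : ℚ) ^ 2) := by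
  induction d with
  | zero => simp
  | succ d ih =>
    rw [sum_range_succ, mul_add, ih]
    have h := sumlem n (n + d) (by omega)
    rw [← add_assoc n d 1, sum_range_succ _ (n + d)]
    have h2 : ∑ t ∈ range n, (-1 : ℚ) ^ (t + 1) / ((t : ℚ) + 1) ^ 2 *
          (((t + 1 + (n + d + 1)).factorial : ℚ) * ((n + d + 1 - 1 - t).factorial : ℚ)
              / ((n + d + 1).factorial : ℚ) ^ 2
            - ((t + 1 + n).factorial : ℚ) * ((n - 1 - t).factorial : ℚ) / (n.factorial : ℚ) ^ 2)
        = ∑ t ∈ range n, (-1 : ℚ) ^ (t + 1) / ((t : ℚ) + 1) ^ 2 *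
          (((t + 1 + (n + d)).factorial : ℚ) * ((n + d - 1 - t).factorial : ℚ) / ((n + d).factorial : ℚ) ^ 2
            - ((t + 1 + n).factorial : ℚ) * ((n - 1 - t).factorial : ℚ) / (n.factorial : ℚ) ^ 2)
          - ∑ t ∈ range n, (-1 : ℚ) ^ (t + 1) * ((t + 1 + (n + d)).factorial : ℚ)
            * ((n + d - 1 - t).factorial : ℚ) / ((n + d + 1).factorial : ℚ) ^ 2 := by
      rw [← sum_sub_distrib]
      refine sum_congr rfl fun t ht => ?_
      have ht' := mem_range.1 ht
      obtain ⟨e, rfl⟩ : ∃ e, n = t + 1 + e := ⟨n - t - 1, by omega⟩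
      rw [show t + 1 + e + d + 1 - 1 - t = (e + d) + 1 by omega,
        show t + 1 + (t + 1 + e + d + 1) = (t + 1 + (t + 1 + e + d)) + 1 by ring,
        show t + 1 + e + d - 1 - t = e + d by omega, f1 (t + 1 + (t + 1 + e + d)), f1 (e + d),
        f1 (t + 1 + e + d)]
      have a1 := fne (t + 1 + e + d)
      push_cast
      have b1 : (t : ℚ) + 1 ≠ 0 := by positivity
      have b2 : (t : ℚ) + 1 + e + d + 1 ≠ 0 := by positivity
      field_simp
      ring
    rw [h2]
    have e1 : ((n + 1 + d : ℕ) : ℕ) = n + d + 1 := by ring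
    have e2 : 2 * n + 1 + d = n + (n + d) + 1 := by ring
    rw [e1, e2]
    rw [show n + d - n = d by omega] at h
    push_cast at h ⊢
    have h3 : (-1 : ℚ) ^ n * ((d.factorial : ℚ) * ((n + (n + d) + 1).factorial : ℚ)
        / (((n : ℚ) + 1 + d) * ((n + d + 1).factorial : ℚ) ^ 2))
        = (-1) ^ n * (d.factorial : ℚ) * ((n + (n + d) + 1).factorial : ℚ)
          / (((n : ℚ) + d + 1) * ((n + d + 1).factorial : ℚ) ^ 2) := by
      rw [show (n : ℚ) + 1 + d = n + d + 1 by ring]
      ring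
    rw [h3, ← h]
    ring

/-- a product of `1 - v` -/
theorem prodP (n k : ℕ) : ((2 * n + 1 + k).choose k : ℚ) = ∏ i ∈ range k, (1 + vv n i) := by
  induction k with
  | zero => simp
  | succ k ih =>
    rw [prod_range_succ, ← ih, Nat.cast_choose ℚ (by omega), Nat.cast_choose ℚ (by omega),
      show 2 * n + 1 + (k + 1) - (k + 1) = 2 * n + 1 by omega, show 2 * n + 1 + k - k = 2 * n + 1 by omega,
      show 2 * n + 1 + (k + 1) = (2 * n + 1 + k) + 1 by ring, f1 (2 * n + 1 + k), f1 k]
    unfold vv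
    have a1 := fne k
    have a2 := fne (2 * n + 1)
    have b1 : (k : ℚ) + 1 ≠ 0 := by positivity
    push_cast
    field_simp
    ring

/-- first bracket -/
theorem aT (n t : ℕ) (ht : t < n) : (-1 : ℚ) ^ (t + 1) * (((t + 1 + (n + n)).factorial : ℚ)
      * ((n + n - 1 - t).factorial : ℚ) / ((n + n).factorial : ℚ) ^ 2) * ∏ i ∈ range (t + 1), (1 - vv n i)
      = vv n t * ∏ i ∈ range t, (1 + vv n i) := by
  rw [prod_one_sub n (t + 1) (by omega), ← prodP, Nat.cast_choose ℚ (by omega), Nat.cast_choose ℚ (by omega),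
    show 2 * n - (t + 1) = n + n - 1 - t by omega, show 2 * n + 1 + t - t = (n + n) + 1 by omega,
    show 2 * n + 1 + t = t + 1 + (n + n) by ring, show 2 * n = n + n by ring, f1 (n + n), f1 t]
  unfold vv
  have a1 := fne t
  have a2 := fne (n + n)
  have a3 := fne (n + n - 1 - t)
  have b1 : (t : ℚ) + 1 ≠ 0 := by positivity
  have b2 : (n : ℚ) + n + 1 ≠ 0 := by positivity
  have b3 : ((-1 : ℚ) ^ (t + 1)) * ((-1 : ℚ) ^ (t + 1)) = 1 := by rw [← mul_pow]; norm_num
  push_cast
  field_simp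
  linear_combination (2 * (n : ℚ) + 1) * b3

/-- second bracket -/
theorem bT (n t : ℕ) (ht : t < n) : (-1 : ℚ) ^ (t + 1) * (((t + 1 + n).factorial : ℚ)
      * ((n - 1 - t).factorial : ℚ) / (n.factorial : ℚ) ^ 2) = ∏ j ∈ range (t + 1), (1 - vv n (n - 1 - j)) := by
  have key : ∀ s, s ≤ n → (-1 : ℚ) ^ s * (((s + n).factorial : ℚ)
      * ((n - s).factorial : ℚ) / (n.factorial : ℚ) ^ 2) = ∏ j ∈ range s, (1 - vv n (n - 1 - j)) := by
    intro s
    induction s with
    | zero =>
      intro _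
      have a1 := fne n
      simp only [pow_zero, one_mul, zero_add, Nat.sub_zero, range_zero, prod_empty]
      field_simp
    | succ s ih =>
      intro hs
      rw [prod_range_succ, ← ih (by omega)]
      obtain ⟨e, rfl⟩ := Nat.exists_eq_add_of_le hs
      rw [show s + 1 + e - (s + 1) = e by omega, show s + 1 + e - s = e + 1 by omega,
        show s + 1 + e - 1 - s = e by omega, show s + 1 + (s + 1 + e) = (s + (s + 1 + e)) + 1 by ring,
        f1 (s + (s + 1 + e)), f1 e, pow_succ]
      unfold vv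
      have a1 := fne (s + 1 + e)
      have b1 : (e : ℚ) + 1 ≠ 0 := by positivity
      push_cast
      field_simp
      ring
  have h := key (t + 1) (by omega)
  rw [show n - (t + 1) = n - 1 - t by omega] at h
  exact h

end Q277.HalfFive
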