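import Mathlib
import Pool.Agent.Q277.HalfFiveA
import Pool.Agent.Q277.HalfFiveB

/-!
The sum of `(205k^2+160k+32)(-1)^k C(2k,k)^5` over `k ≤ (p-1)/2` modulo `p^6`.
-/

set_option linter.unusedSectionVars false

namespace Q277.HalfFive

open Finset Q277.FacTools Pool.Agent.H434R2 PO

def ell (n i : ℕ) : ℚ := (i.factorial : ℚ) * ((2 * n + 1 + i).factorial : ℚ)
        / (((n : ℚ) + 1 + i) * ((n + 1 + i).factorial : ℚ) ^ 2)

def LL (n : ℕ) : ℚ := (-1 : ℚ) ^ n * ∑ i ∈ range n, ell n i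

def aa (n t : ℕ) : ℚ := (-1 : ℚ) ^ (t + 1) * (((t + 1 + (n + n)).factorial : ℚ)
      * ((n + n - 1 - t).factorial : ℚ) / ((n + n).factorial : ℚ) ^ 2)

def bb (n t : ℕ) : ℚ := (-1 : ℚ) ^ (t + 1) * (((t + 1 + n).factorial : ℚ)
      * ((n - 1 - t).factorial : ℚ) / (n.factorial : ℚ) ^ 2)

theorem LL_eq (n : ℕ) : (2 * (n : ℚ) + 1) ^ 2 * LL n = QQ n 2 - PP n 2
    - 2 * ∑ t ∈ range n, vv n t ^ 2 * aa n t + 2 * ∑ t ∈ range n, vv n t ^ 2 * bb n t := by
  have h := star n n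
  have e1 : LL n = (-1 : ℚ) ^ n * ∑ i ∈ range n, (i.factorial : ℚ) * ((2 * n + 1 + i).factorial : ℚ)
        / (((n : ℚ) + 1 + i) * ((n + 1 + i).factorial : ℚ) ^ 2) := rfl
  rw [e1, h]
  have e2 : QQ n 2 = (2 * (n : ℚ) + 1) ^ 2 * ∑ k ∈ range (n + n), 1 / ((k : ℚ) + 1) ^ 2 := by
    unfold QQ vv
    rw [mul_sum, two_mul]
    exact sum_congr rfl fun k _ => by rw [div_pow]; ring
  have e3 : PP n 2 = (2 * (n : ℚ) + 1) ^ 2 * ∑ k ∈ range n, 1 / ((k : ℚ) + 1) ^ 2 := by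
    unfold PP vv
    rw [mul_sum]
    exact sum_congr rfl fun k _ => by rw [div_pow]; ring
  rw [e2, e3, mul_sub, mul_sub]
  have e4 : (2 * (n : ℚ) + 1) ^ 2 * (2 * ∑ t ∈ range n, (-1 : ℚ) ^ (t + 1) / ((t : ℚ) + 1) ^ 2 *
          (((t + 1 + (n + n)).factorial : ℚ) * ((n + n - 1 - t).factorial : ℚ) / ((n + n).factorial : ℚ) ^ 2
            - ((t + 1 + n).factorial : ℚ) * ((n - 1 - t).factorial : ℚ) / (n.factorial : ℚ) ^ 2))
      = 2 * ∑ t ∈ range n, vv n t ^ 2 * aa n t - 2 * ∑ t ∈ range n, vv n t ^ 2 * bb n t := by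
    rw [← mul_sub, ← sum_sub_distrib, mul_left_comm, mul_sum]
    congr 1
    refine sum_congr rfl fun t _ => ?_
    unfold vv aa bb
    rw [div_pow]
    ring
  rw [e4]
  ring

section padic

variable {p : ℕ} [hp : Fact p.Prime] {n : ℕ} (hv : ∀ i < 2 * n, PO p 1 (vv n i))

include hv

theorem prod_m (f : ℕ → ℕ) (k : ℕ) (hf : ∀ j ∈ range k, f j < 2 * n) :
    PO p 1 (∏ j ∈ range k, (1 - vv n (f j)) - 1) := by
  have h := (prod_expand (p := p) (k := 1) (l := 1) (by norm_num) (range k)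
      (fun j => 1 - vv n (f j)) (fun _ => 0)
      (fun j hj => by
        have e : 1 - vv n (f j) - 1 - 0 = - vv n (f j) := by ring
        rw [e]; exact (hv _ (hf j hj)).neg) (fun _ _ => zero 1)).1
  simpa using h

theorem prod_p (f : ℕ → ℕ) (k : ℕ) (hf : ∀ j ∈ range k, f j < 2 * n) :
    PO p 1 (∏ j ∈ range k, (1 + vv n (f j)) - 1) := by
  have h := (prod_expand (p := p) (k := 1) (l := 1) (by norm_num) (range k)
      (fun j => 1 + vv n (f j)) (fun _ => 0)
      (fun j hj => by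
        have e : 1 + vv n (f j) - 1 - 0 = vv n (f j) := by ring
        rw [e]; exact (hv _ (hf j hj))) (fun _ _ => zero 1)).1
  simpa using h

theorem aa_PO (t : ℕ) (ht : t < n) : PO p 2 (aa n t - vv n t) := by
  have h := aT n t ht
  have hP := prod_m hv (fun j => j) (t + 1) (fun j hj => by have := mem_range.1 hj; omega)
  have hQ := prod_p hv (fun j => j) t (fun j hj => by have := mem_range.1 hj; omega)
  set P := ∏ i ∈ range (t + 1), (1 - vv n i)
  set Q := ∏ i ∈ range t, (1 + vv n i)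
  have hPn : padicNorm p P = 1 := by
    have := norm_one_add hP
    rwa [show 1 + (P - 1) = P by ring] at this
  have hP0 := ne_zero_of_norm hPn
  have hPi := inv_of_norm hPn
  have e : aa n t - vv n t = (vv n t * ((Q - 1) - (P - 1))) * P⁻¹ := by
    have h' : aa n t * P = vv n t * Q := h
    have e2 : aa n t = vv n t * Q * P⁻¹ := by
      rw [← h']; field_simp
    rw [e2]
    field_simp
    ring
  rw [e]
  exact (((hv t (by omega)).mul (hQ.sub hP)).mul0' hPi).mono (by norm_num)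

theorem bb_PO (t : ℕ) (ht : t < n) : PO p 2 (bb n t - (1 - ∑ j ∈ range (t + 1), vv n (n - 1 - j))) := by
  have h : bb n t = ∏ j ∈ range (t + 1), (1 - vv n (n - 1 - j)) := bT n t ht
  rw [h]
  have h := (prod_expand (p := p) (k := 2) (l := 1) (by norm_num) (range (t + 1))
      (fun j => 1 - vv n (n - 1 - j)) (fun j => - vv n (n - 1 - j))
      (fun j hj => by
        have e : 1 - vv n (n - 1 - j) - 1 - - vv n (n - 1 - j) = 0 := by ring
        rw [e]; exact zero 2) (fun j hj => (hv _ (by have := mem_range.1 hj; omega)).neg)).1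
  rw [sum_neg_distrib] at h
  have e : ∏ j ∈ range (t + 1), (1 - vv n (n - 1 - j)) - (1 - ∑ j ∈ range (t + 1), vv n (n - 1 - j))
      = ∏ j ∈ range (t + 1), (1 - vv n (n - 1 - j)) - 1 - - ∑ j ∈ range (t + 1), vv n (n - 1 - j) := by ring
  rw [e]
  exact h

theorem LL_PO : PO p 4 ((2 * (n : ℚ) + 1) ^ 2 * LL n - (QQ n 2 + PP n 2 - 2 * PP n 3 - 2 * XX n)) := by
  rw [LL_eq]
  have hA : PO p 4 (∑ t ∈ range n, vv n t ^ 2 * aa n t - PP n 3) := by
    unfold PP
    apply PO.sum_sub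
    intro t ht
    have ht' := mem_range.1 ht
    have e : vv n t ^ 2 * aa n t - vv n t ^ 3 = vv n t ^ 2 * (aa n t - vv n t) := by ring
    rw [e]
    exact (((hv t (by omega)).pow 2).mul (aa_PO hv t ht')).mono (by norm_num)
  have hB : PO p 4 (∑ t ∈ range n, vv n t ^ 2 * bb n t - (PP n 2 - XX n)) := by
    have e : PP n 2 - XX n = ∑ t ∈ range n, vv n t ^ 2 * (1 - ∑ j ∈ range (t + 1), vv n (n - 1 - j)) := by
      unfold PP XX
      rw [← sum_sub_distrib]
      exact sum_congr rfl fun t _ => by ring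
    rw [e]
    apply PO.sum_sub
    intro t ht
    have ht' := mem_range.1 ht
    rw [← mul_sub]
    exact (((hv t (by omega)).pow 2).mul (bb_PO hv t ht')).mono (by norm_num)
  have e : QQ n 2 - PP n 2 - 2 * ∑ t ∈ range n, vv n t ^ 2 * aa n t + 2 * ∑ t ∈ range n, vv n t ^ 2 * bb n t
      - (QQ n 2 + PP n 2 - 2 * PP n 3 - 2 * XX n)
      = 2 * (∑ t ∈ range n, vv n t ^ 2 * bb n t - (PP n 2 - XX n))
        - 2 * (∑ t ∈ range n, vv n t ^ 2 * aa n t - PP n 3) := by ring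
  rw [e]
  have h2 : PO p 0 (2 : ℚ) := of_ofNat 2
  exact (h2.mul0 hB).sub (h2.mul0 hA)

/-- the product `C(2n,n) C(3n+1,n)` -/
theorem PQ_PO : PO p 4 ((∏ j ∈ range n, (1 - vv n j)) ^ 2 * (∏ j ∈ range n, (1 + vv n j)) ^ 2 - (1 - 2 * PP n 2)) := by
  have h := (prod_expand (p := p) (k := 4) (l := 2) (by norm_num) (range n)
      (fun j => (1 - vv n j) ^ 2 * (1 + vv n j) ^ 2) (fun j => -2 * vv n j ^ 2)
      (fun j hj => by
        have e : (1 - vv n j) ^ 2 * (1 + vv n j) ^ 2 - 1 - -2 * vv n j ^ 2 = vv n j ^ 4 := by ring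
        rw [e]
        exact ((hv j (by have := mem_range.1 hj; omega)).pow 4).mono (by norm_num))
      (fun j hj => by
        have e : -2 * vv n j ^ 2 = -(2 * vv n j ^ 2) := by ring
        rw [e]
        exact (((of_ofNat 2).mul0 ((hv j (by have := mem_range.1 hj; omega)).pow 2)).neg).mono (by norm_num))).1
  rw [prod_mul_distrib, prod_pow, prod_pow, ← mul_sum] at h
  have e : (∏ j ∈ range n, (1 - vv n j)) ^ 2 * (∏ j ∈ range n, (1 + vv n j)) ^ 2 - (1 - 2 * PP n 2)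
      = (∏ j ∈ range n, (1 - vv n j)) ^ 2 * (∏ j ∈ range n, (1 + vv n j)) ^ 2 - 1 - -2 * ∑ i ∈ range n, vv n i ^ 2 := by
    unfold PP
    ring
  rw [e]
  exact h

omit hv in
theorem ell_PO (hn : 2 * n + 1 = p) (i : ℕ) (hi : i < n) : PO p 1 (ell n i) := by
  have hpp := hp.out
  have hd : p ∣ (2 * n + 1 + i).choose n :=
    hpp.dvd_choose (by omega) (by omega) (by omega)
  obtain ⟨c, hc⟩ := hd
  have e1 : ((2 * n + 1 + i).factorial : ℚ) = (p : ℚ) * c * (n.factorial : ℚ) * ((n + 1 + i).factorial : ℚ) := by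
    have h := Nat.choose_mul_factorial_mul_factorial (show n ≤ 2 * n + 1 + i by omega)
    rw [show 2 * n + 1 + i - n = n + 1 + i by omega, hc] at h
    exact_mod_cast h.symm
  have e2 : ell n i = (p : ℚ) * ((i.factorial * c * n.factorial : ℕ) : ℚ)
      * (((n + 1 + i) * (n + 1 + i).factorial : ℕ) : ℚ)⁻¹ := by
    unfold ell
    rw [e1]
    have a1 := fne (n + 1 + i)
    have b1 : (n : ℚ) + 1 + i ≠ 0 := by positivity
    push_cast
    field_simp
  rw [e2]
  have h3 : PO p 0 ((((n + 1 + i) * (n + 1 + i).factorial : ℕ) : ℚ)⁻¹) := by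
    apply inv_nat
    intro h
    rcases hpp.dvd_mul.1 h with h | h
    · have := Nat.le_of_dvd (by omega) h
      omega
    · have := (hpp.dvd_factorial).1 h
      omega
  have h4 : PO p 1 (p : ℚ) := by
    have := ppow (p := p) 1
    rwa [pow_one] at this
  exact (h4.mul0' (of_nat _)).mul0' h3

omit hv in
theorem term_eq (i : ℕ) (hi : i < n) : (-1 : ℚ) ^ (n - i) * ((2 * n + 1).choose (n - i) : ℚ)
      * ((2 * n + 1 + i).choose n : ℚ) ^ 2
    = (2 * (n : ℚ) + 1) ^ 2 * ell n i * ((-1 : ℚ) ^ (n - i) * ((2 * n).choose (n - i) : ℚ))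
      * ((2 * n).choose n : ℚ) * ((2 * n + 1 + i).choose i : ℚ) := by
  obtain ⟨e, rfl⟩ : ∃ e, n = i + 1 + e := ⟨n - i - 1, by omega⟩
  rw [Nat.cast_choose ℚ (by omega), Nat.cast_choose ℚ (by omega), Nat.cast_choose ℚ (by omega),
    Nat.cast_choose ℚ (by omega), Nat.cast_choose ℚ (by omega)]
  rw [show i + 1 + e - i = 1 + e by omega, show 2 * (i + 1 + e) + 1 - (1 + e) = (2 * i + 1 + e) + 1 by omega,
    show 2 * (i + 1 + e) + 1 + i - (i + 1 + e) = (2 * i + 1 + e) + 1 by omega,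
    show 2 * (i + 1 + e) - (1 + e) = 2 * i + 1 + e by omega,
    show 2 * (i + 1 + e) - (i + 1 + e) = i + 1 + e by omega,
    show 2 * (i + 1 + e) + 1 + i - i = 2 * (i + 1 + e) + 1 by omega]
  unfold ell
  rw [show i + 1 + e + 1 + i = (2 * i + 1 + e) + 1 by ring, f1 (2 * (i + 1 + e)), f1 (2 * i + 1 + e)]
  have a1 := fne (2 * (i + 1 + e))
  have a2 := fne (2 * i + 1 + e)
  have a3 := fne (i + 1 + e)
  have a4 := fne (1 + e)
  have a5 := fne i
  have a6 := fne (2 * (i + 1 + e) + 1 + i)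
  push_cast
  have b1 : 2 * (i : ℚ) + 1 + e + 1 ≠ 0 := by positivity
  have b2 : (i : ℚ) + 1 + e + 1 + i ≠ 0 := by positivity
  have b3 : 2 * ((i : ℚ) + 1 + e) + 1 ≠ 0 := by positivity
  field_simp
  ring

theorem T_PO (hn : 2 * n + 1 = p) : PO p 4 (((2 * n).choose n : ℚ) ^ 2
      * (∑ k ∈ range (n + 1), (-1) ^ k * ((2 * n + 1).choose k : ℚ) * ((n + k).choose k : ℚ) ^ 2)
      - (1 - 2 * PP n 2) - (2 * (n : ℚ) + 1) ^ 2 * LL n) := by
  rw [reversed n, sum_range_succ', ← sum_range_reflect]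
  have h0 : (-1 : ℚ) ^ 0 * ((2 * n + 1).choose 0 : ℚ) * ((3 * n + 1 - 0).choose n : ℚ) ^ 2
      = (∏ j ∈ range n, (1 + vv n j)) ^ 2 := by
    rw [← prodP, pow_zero, Nat.choose_zero_right, Nat.sub_zero, show 3 * n + 1 = 2 * n + 1 + n by ring]
    push_cast
    ring
  have hcn : ((2 * n).choose n : ℚ) = (-1) ^ n * ∏ j ∈ range n, (1 - vv n j) := by
    rw [prod_one_sub n n (by omega), ← mul_assoc, ← mul_pow]
    norm_num
  have h1 : ∀ i ∈ range n, (-1 : ℚ) ^ (n - 1 - i + 1) * ((2 * n + 1).choose (n - 1 - i + 1) : ℚ)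
      * ((3 * n + 1 - (n - 1 - i + 1)).choose n : ℚ) ^ 2
      = (2 * (n : ℚ) + 1) ^ 2 * ell n i * ((∏ j ∈ range (n - i), (1 - vv n j))
      * ((-1) ^ n * ∏ j ∈ range n, (1 - vv n j)) * (∏ j ∈ range i, (1 + vv n j))) := by
    intro i hi
    have hi' := mem_range.1 hi
    rw [show n - 1 - i + 1 = n - i by omega, show 3 * n + 1 - (n - i) = 2 * n + 1 + i by omega, term_eq i hi',
      ← prod_one_sub n (n - i) (by omega), ← hcn, ← prodP]
    ring
  rw [sum_congr rfl h1, h0]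
  have hsq : ((-1 : ℚ) ^ n) ^ 2 = 1 := by
    rw [← pow_mul, mul_comm, pow_mul]; norm_num
  set P := ∏ j ∈ range n, (1 - vv n j) with hP
  set Q := ∏ j ∈ range n, (1 + vv n j) with hQ
  have hPP := prod_m hv (fun j => j) n (fun j hj => by have := mem_range.1 hj; omega)
  rw [← hP] at hPP
  have hP0 : PO p 0 P := by
    have : P = 1 + (P - 1) := by ring
    rw [this]
    exact one.add (hPP.mono (by norm_num))
  have e : ((2 * n).choose n : ℚ) ^ 2 * (∑ i ∈ range n, (2 * (n : ℚ) + 1) ^ 2 * ell n i *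
        ((∏ j ∈ range (n - i), (1 - vv n j)) * ((-1) ^ n * P) * (∏ j ∈ range i, (1 + vv n j))) + Q ^ 2)
      - (1 - 2 * PP n 2) - (2 * (n : ℚ) + 1) ^ 2 * LL n
      = (P ^ 2 * Q ^ 2 - (1 - 2 * PP n 2)) + ∑ i ∈ range n, (-1 : ℚ) ^ n * ((2 * (n : ℚ) + 1) ^ 2 * (ell n i *
        ((∏ j ∈ range (n - i), (1 - vv n j)) * P ^ 3 * (∏ j ∈ range i, (1 + vv n j)) - 1))) := by
    have e1 : ∑ i ∈ range n, (-1 : ℚ) ^ n * ((2 * (n : ℚ) + 1) ^ 2 * (ell n i *
        ((∏ j ∈ range (n - i), (1 - vv n j)) * P ^ 3 * (∏ j ∈ range i, (1 + vv n j)) - 1)))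
        = P ^ 2 * ∑ i ∈ range n, (2 * (n : ℚ) + 1) ^ 2 * ell n i *
        ((∏ j ∈ range (n - i), (1 - vv n j)) * ((-1) ^ n * P) * (∏ j ∈ range i, (1 + vv n j)))
          - (2 * (n : ℚ) + 1) ^ 2 * LL n := by
      unfold LL
      rw [mul_sum, mul_sum, mul_sum, ← sum_sub_distrib]
      exact sum_congr rfl fun i _ => by ring
    rw [e1, hcn, mul_pow, hsq]
    ring
  rw [e]
  refine (PQ_PO hv).add (PO.sum _ _ fun i hi => ?_)
  have hi' := mem_range.1 hi
  have h2 : PO p 0 ((-1 : ℚ) ^ n) := by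
    have := (of_int (p := p) (-1)).pow0 n
    push_cast at this
    exact this
  have h3 : PO p 2 ((2 * (n : ℚ) + 1) ^ 2) := by
    have : (2 * (n : ℚ) + 1) = (p : ℚ) := by exact_mod_cast hn
    rw [this]
    exact ppow 2
  have h4 := ell_PO hn i hi'
  have hA := prod_m hv (fun j => j) (n - i) (fun j hj => by have := mem_range.1 hj; omega)
  have hB := prod_p hv (fun j => j) i (fun j hj => by have := mem_range.1 hj; omega)
  set A := ∏ j ∈ range (n - i), (1 - vv n j)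
  set B := ∏ j ∈ range i, (1 + vv n j)
  have hB0 : PO p 0 B := by
    have : B = 1 + (B - 1) := by ring
    rw [this]
    exact one.add (hB.mono (by norm_num))
  have h5 : PO p 1 (A * P ^ 3 * B - 1) := by
    have e2 : A * P ^ 3 * B - 1 = (A - 1) * (P ^ 3 * B) + (P - 1) * ((1 + P + P ^ 2) * B) + (B - 1) := by ring
    rw [e2]
    exact ((hA.mul0' ((hP0.pow0 3).mul0 hB0)).add
      (hPP.mul0' (((one.add hP0).add (hP0.pow0 2)).mul0 hB0))).add hB
  exact (h2.mul0 (h3.mul (h4.mul h5))).mono (by norm_num)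

end padic

end Q277.HalfFive
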