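import Mathlib

/-!
# The Jacobsthal-Kazandzidis congruence

For a prime `p ≥ 5` and `p^b ∣ k`, `p^b ∣ m`:
`C(p(k+m), pk) F0 = C(k+m, k) F1` with `F1 ≡ F0 (mod p^(3b+3))` and `F0` prime to `p`.
-/

open Finset

namespace Q277.Jac

/-- product of the numbers prime to `p` in the interval from `x` to `x + p k` -/
def F (p : ℕ) (x : ℤ) (k : ℕ) : ℤ := ∏ j ∈ range k, ∏ i ∈ range (p - 1), (x + (p * j + i + 1))

theorem block_factorial (p a : ℕ) (hp : 0 < p) : ((p * a).factorial : ℤ) =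
    p ^ a * (a.factorial : ℤ) * F p 0 a := by
  induction a with
  | zero => simp [F]
  | succ a ih =>
    have h1 : F p 0 (a + 1) = F p 0 a * ∏ i ∈ range (p - 1), ((0 : ℤ) + (p * a + i + 1)) := by
      unfold F; rw [Finset.prod_range_succ]
    have h2 : ((p * (a + 1)).factorial : ℤ) = ((p * a).factorial : ℤ) *
        ∏ i ∈ range p, ((p : ℤ) * a + (i + 1)) := by
      have h3 := Nat.factorial_mul_ascFactorial (p * a) p
      rw [show p * (a + 1) = p * a + p by ring, ← h3, Nat.ascFactorial_eq_prod_range]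
      push_cast
      congr 1
      refine Finset.prod_congr rfl fun i _ => ?_
      ring
    obtain ⟨q, hq⟩ : ∃ q, p = q + 1 := ⟨p - 1, by omega⟩
    have h4 : ∏ i ∈ range p, ((p : ℤ) * a + (i + 1)) =
        (∏ i ∈ range (p - 1), ((p : ℤ) * a + (i + 1))) * (p * (a + 1)) := by
      rw [hq, Nat.add_sub_cancel, Finset.prod_range_succ]
      push_cast; ring
    have h5 : ∏ i ∈ range (p - 1), ((0 : ℤ) + (p * a + i + 1)) =
        ∏ i ∈ range (p - 1), ((p : ℤ) * a + (i + 1)) :=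
      Finset.prod_congr rfl fun i _ => by ring
    rw [h2, h4, h1, h5, ih, Nat.factorial_succ, pow_succ]
    push_cast; ring

theorem F_add (p m k : ℕ) : F p 0 (m + k) = F p 0 m * F p (p * m) k := by
  unfold F
  rw [Finset.prod_range_add]
  congr 1
  refine Finset.prod_congr rfl fun j _ => Finset.prod_congr rfl fun i _ => ?_
  push_cast; ring

theorem F_pos (p k : ℕ) (x : ℤ) (hx : 0 ≤ x) : 0 < F p x k := by
  unfold F
  apply Finset.prod_pos
  intro j _
  apply Finset.prod_pos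
  intro i _
  positivity

/-- the exact relation -/
theorem choose_rel (p k m : ℕ) (hp : 0 < p) : ((p * (k + m)).choose (p * k) : ℤ) * F p 0 k =
    ((k + m).choose k : ℤ) * F p (p * m) k := by
  have h1 := Nat.choose_mul_factorial_mul_factorial (n := p * (k + m)) (k := p * k)
    (Nat.mul_le_mul_left _ (by omega))
  have h2 := Nat.choose_mul_factorial_mul_factorial (n := k + m) (k := k) (by omega)
  rw [show p * (k + m) - p * k = p * m by rw [← Nat.mul_sub]; congr 1; omega] at h1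
  rw [show k + m - k = m by omega] at h2
  have h1' := congrArg (Nat.cast : ℕ → ℤ) h1
  have h2' := congrArg (Nat.cast : ℕ → ℤ) h2
  push_cast at h1' h2'
  rw [block_factorial p k hp, block_factorial p m hp, block_factorial p (k + m) hp, ← h2'] at h1'
  rw [add_comm k m, F_add] at h1'
  have hFm : F p 0 m ≠ 0 := (F_pos p m 0 le_rfl).ne'
  have hp0 : (p : ℤ) ≠ 0 := by exact_mod_cast hp.ne'
  have hk0 : (k.factorial : ℤ) ≠ 0 := by exact_mod_cast k.factorial_ne_zero
  have hm0 : (m.factorial : ℤ) ≠ 0 := by exact_mod_cast m.factorial_ne_zero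
  have hne : (p : ℤ) ^ (m + k) * k.factorial * m.factorial * F p 0 m ≠ 0 :=
    mul_ne_zero (mul_ne_zero (mul_ne_zero (pow_ne_zero _ hp0) hk0) hm0) hFm
  apply mul_left_cancel₀ hne
  rw [add_comm k m]
  rw [pow_add] at h1' ⊢
  linear_combination h1'

/-! ### inverse squares modulo `p^(b+1)` -/

section

variable {p : ℕ} [hp : Fact p.Prime]

theorem isUnit_cast (e n : ℕ) (hn : ¬ p ∣ n) : IsUnit ((n : ℕ) : ZMod (p ^ e)) := by
  rw [ZMod.isUnit_iff_coprime]
  exact Nat.Coprime.pow_right _ ((Nat.Prime.coprime_iff_not_dvd hp.out).2 hn).symm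

theorem not_isUnit_cast (b n : ℕ) (hn : p ∣ n) : ¬ IsUnit ((n : ℕ) : ZMod (p ^ (b + 1))) := by
  rw [ZMod.isUnit_iff_coprime]
  intro h
  have h1 : p ∣ Nat.gcd n (p ^ (b + 1)) := Nat.dvd_gcd hn (dvd_pow_self p (by omega))
  rw [h] at h1
  exact hp.out.one_lt.ne' (Nat.dvd_one.1 h1)

theorem sum_inv_sq (hp5 : 5 ≤ p) (e : ℕ) : haveI : NeZero (p ^ e) := ⟨pow_ne_zero _ hp.out.ne_zero⟩
    ∑ x : ZMod (p ^ e), (Ring.inverse x) ^ 2 = 0 := by
  have : NeZero (p ^ e) := ⟨pow_ne_zero _ hp.out.ne_zero⟩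
  have h2 : IsUnit ((2 : ℕ) : ZMod (p ^ e)) :=
    isUnit_cast e 2 (fun h => by have := Nat.le_of_dvd (by norm_num) h; omega)
  have h3 : IsUnit ((3 : ℕ) : ZMod (p ^ e)) :=
    isUnit_cast e 3 (fun h => by have := Nat.le_of_dvd (by norm_num) h; omega)
  push_cast at h2 h3
  obtain ⟨c, hc⟩ := h2
  have h4 : ∑ x : ZMod (p ^ e), (Ring.inverse x) ^ 2 =
      ∑ x : ZMod (p ^ e), (Ring.inverse ((c : ZMod (p ^ e)) * x)) ^ 2 :=
    (Equiv.sum_comp (Units.mulLeft c) (fun x => (Ring.inverse x) ^ 2)).symm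
  have h5 : ∑ x : ZMod (p ^ e), (Ring.inverse ((c : ZMod (p ^ e)) * x)) ^ 2 =
      (Ring.inverse (c : ZMod (p ^ e))) ^ 2 * ∑ x : ZMod (p ^ e), (Ring.inverse x) ^ 2 := by
    rw [Finset.mul_sum]
    refine Finset.sum_congr rfl fun x _ => ?_
    rw [Ring.mul_inverse_rev, mul_pow, mul_comm]
  rw [h5] at h4
  set S := ∑ x : ZMod (p ^ e), (Ring.inverse x) ^ 2
  have h6 : (c : ZMod (p ^ e)) * Ring.inverse (c : ZMod (p ^ e)) = 1 :=
    Ring.mul_inverse_cancel _ c.isUnit
  have h7 : (3 : ZMod (p ^ e)) * S = 0 := by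
    have h8 : (c : ZMod (p ^ e)) ^ 2 * S = S := by
      calc (c : ZMod (p ^ e)) ^ 2 * S = (c : ZMod (p ^ e)) ^ 2 * (Ring.inverse (c : ZMod (p ^ e)) ^ 2 * S) := by
            rw [← h4]
        _ = ((c : ZMod (p ^ e)) * Ring.inverse (c : ZMod (p ^ e))) ^ 2 * S := by ring
        _ = S := by rw [h6]; ring
    rw [hc] at h8
    linear_combination h8
  obtain ⟨d, hd⟩ := h3
  rw [← hd] at h7
  have h9 : ((d⁻¹ : (ZMod (p ^ e))ˣ) : ZMod (p ^ e)) * ((d : ZMod (p ^ e)) * S) = 0 := by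
    rw [h7, mul_zero]
  rwa [← mul_assoc, Units.inv_mul, one_mul] at h9

/-- a sum over a full residue system -/
theorem sum_range_eq (e : ℕ) (f : ZMod (p ^ e) → ZMod (p ^ e)) :
    haveI : NeZero (p ^ e) := ⟨pow_ne_zero _ hp.out.ne_zero⟩
    ∑ i ∈ range (p ^ e), f (i : ZMod (p ^ e)) = ∑ x : ZMod (p ^ e), f x := by
  have : NeZero (p ^ e) := ⟨pow_ne_zero _ hp.out.ne_zero⟩
  refine Finset.sum_bij (fun i _ => (i : ZMod (p ^ e))) (fun _ _ => Finset.mem_univ _) ?_ ?_
    (fun _ _ => rfl)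
  · intro a ha b hb h
    rw [Finset.mem_range] at ha hb
    have h' : ((a : ℕ) : ZMod (p ^ e)) = ((b : ℕ) : ZMod (p ^ e)) := h
    have := congrArg ZMod.val h'
    rwa [ZMod.val_natCast_of_lt ha, ZMod.val_natCast_of_lt hb] at this
  · intro x _
    exact ⟨x.val, Finset.mem_range.2 (ZMod.val_lt x), ZMod.natCast_zmod_val x⟩

theorem sum_inv_sq_range (hp5 : 5 ≤ p) (e t : ℕ) :
    ∑ i ∈ range (p ^ e * t), (Ring.inverse ((i : ℕ) : ZMod (p ^ e))) ^ 2 = 0 := by
  induction t with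
  | zero => simp
  | succ t ih =>
    rw [mul_add, mul_one, Finset.sum_range_add, ih, zero_add]
    have h1 : ∀ i ∈ range (p ^ e), (Ring.inverse (((p ^ e * t + i : ℕ) : ZMod (p ^ e)))) ^ 2 =
        (Ring.inverse ((i : ℕ) : ZMod (p ^ e))) ^ 2 := by
      intro i _
      have : ((p ^ e * t + i : ℕ) : ZMod (p ^ e)) = (i : ZMod (p ^ e)) := by
        rw [Nat.cast_add, Nat.cast_mul, ZMod.natCast_self, zero_mul, zero_add]
      rw [this]
    rw [Finset.sum_congr rfl h1, sum_range_eq e (fun x => (Ring.inverse x) ^ 2)]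
    exact sum_inv_sq hp5 e

/-- the double sum of inverse squares -/
theorem sum_blocks (hp5 : 5 ≤ p) (b k : ℕ) (hk : p ^ b ∣ k) :
    ∑ j ∈ range k, ∑ i ∈ range (p - 1),
      (Ring.inverse ((p * j + i + 1 : ℕ) : ZMod (p ^ (b + 1)))) ^ 2 = 0 := by
  have h1 : ∀ K : ℕ, ∑ r ∈ range (p * K), (Ring.inverse ((r : ℕ) : ZMod (p ^ (b + 1)))) ^ 2 =
      ∑ j ∈ range K, ∑ i ∈ range (p - 1),
      (Ring.inverse ((p * j + i + 1 : ℕ) : ZMod (p ^ (b + 1)))) ^ 2 := by
    intro K
    induction K with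
    | zero => simp
    | succ K ih =>
      rw [Finset.sum_range_succ, ← ih, mul_add, mul_one, Finset.sum_range_add]
      congr 1
      obtain ⟨q, hq⟩ : ∃ q, p = q + 1 := ⟨p - 1, by have := hp.out.pos; omega⟩
      have e1 : range p = range (p - 1 + 1) := by congr 1; omega
      rw [e1, Finset.sum_range_succ']
      have h0 : Ring.inverse ((p * K + 0 : ℕ) : ZMod (p ^ (b + 1))) = 0 :=
        Ring.inverse_non_unit _ (not_isUnit_cast b _ ⟨K, by ring⟩)
      rw [h0]
      simp only [ne_eq, OfNat.ofNat_ne_zero, not_false_eq_true, zero_pow, add_zero]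
      rfl
  rw [← h1 k]
  obtain ⟨t, rfl⟩ := hk
  have := sum_inv_sq_range (p := p) hp5 (b + 1) t
  rw [show p * (p ^ b * t) = p ^ (b + 1) * t by ring]
  exact this

/-- first order expansion of a product -/
theorem prod_add_nilp {R ι : Type*} [CommRing R] (s : Finset ι) (a : ι → R) (y : R) (hy : y * y = 0)
    (ha : ∀ i ∈ s, IsUnit (a i)) :
    ∏ i ∈ s, (a i + y) = (∏ i ∈ s, a i) * (1 + y * ∑ i ∈ s, Ring.inverse (a i)) := by
  classical
  induction s using Finset.induction_on with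
  | empty => simp
  | insert i s hi ih =>
    rw [Finset.prod_insert hi, Finset.prod_insert hi, Finset.sum_insert hi,
      ih fun j hj => ha j (Finset.mem_insert_of_mem hj)]
    have h := Ring.mul_inverse_cancel _ (ha i (Finset.mem_insert_self i s))
    linear_combination (∏ i ∈ s, a i) * (∑ i ∈ s, Ring.inverse (a i)) * hy -
      (y * ∏ i ∈ s, a i) * h

omit hp in
theorem F_prod (x : ℤ) (k : ℕ) : F p x k =
    ∏ t ∈ range k ×ˢ range (p - 1), (x + ((p * t.1 + t.2 + 1 : ℕ) : ℤ)) := by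
  unfold F
  rw [Finset.prod_product]
  refine Finset.prod_congr rfl fun j _ => Finset.prod_congr rfl fun i _ => ?_
  push_cast; rfl

omit hp in
theorem F_reflect (x : ℤ) (k : ℕ) : F p x k =
    ∏ t ∈ range k ×ˢ range (p - 1), (x + (p * k - ((p * t.1 + t.2 + 1 : ℕ) : ℤ))) := by
  unfold F
  rw [Finset.prod_product, ← Finset.prod_range_reflect]
  refine Finset.prod_congr rfl fun j hj => ?_
  rw [← Finset.prod_range_reflect]
  refine Finset.prod_congr rfl fun i hi => ?_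
  rw [Finset.mem_range] at hi hj
  have h1 : ((k - 1 - j : ℕ) : ℤ) = k - 1 - j := by omega
  have h2 : ((p - 1 - 1 - i : ℕ) : ℤ) = p - 1 - 1 - i := by omega
  rw [h1, h2]
  push_cast; ring

omit hp in
theorem not_dvd_block (j i : ℕ) (hi : i < p - 1) : ¬ p ∣ p * j + i + 1 := by
  intro h
  have h1 : p ∣ i + 1 := by
    rw [add_assoc] at h
    exact (Nat.dvd_add_right (dvd_mul_right p j)).1 h
  have := Nat.le_of_dvd (by omega) h1
  omega

theorem F_zero_not_dvd (k : ℕ) : ¬ (p : ℤ) ∣ F p 0 k := by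
  rw [F_prod, Prime.dvd_finsetProd_iff (Nat.prime_iff_prime_int.1 hp.out)]
  rintro ⟨t, ht, h⟩
  rw [Finset.mem_product, Finset.mem_range, Finset.mem_range] at ht
  rw [zero_add, Int.natCast_dvd_natCast] at h
  exact not_dvd_block t.1 t.2 ht.2 h

omit hp in
theorem F_mod_p (m k : ℕ) : (p : ℤ) ∣ F p (p * m) k - F p 0 k := by
  rw [← Int.modEq_iff_dvd, F_prod, F_prod]
  apply Int.ModEq.prod
  intro t _
  rw [Int.modEq_iff_dvd]
  exact ⟨m, by ring⟩

theorem ker_cast (b N : ℕ) (h : p ^ b ∣ p ^ N) (z : ZMod (p ^ N))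
    (hz : ZMod.castHom h (ZMod (p ^ b)) z = 0) : ∃ t : ZMod (p ^ N), z = (p : ZMod (p ^ N)) ^ b * t := by
  have : NeZero (p ^ N) := ⟨pow_ne_zero _ hp.out.ne_zero⟩
  have h1 : z = ((z.val : ℕ) : ZMod (p ^ N)) := (ZMod.natCast_zmod_val z).symm
  rw [h1, map_natCast, ZMod.natCast_eq_zero_iff] at hz
  obtain ⟨t, ht⟩ := hz
  refine ⟨t, ?_⟩
  rw [h1, ht]
  push_cast; rfl

/-- the main congruence -/
theorem F_cong (hp5 : 5 ≤ p) (b k m : ℕ) (hk : p ^ b ∣ k) (hm : p ^ b ∣ m) :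
    (p : ℤ) ^ (3 * b + 3) ∣ F p (p * m) k - F p 0 k := by
  set N := 3 * b + 3 with hN
  set s := range k ×ˢ range (p - 1) with hs
  let c : ℕ × ℕ → ℕ := fun t => p * t.1 + t.2 + 1
  -- the squares
  have e1 : F p (p * m) k ^ 2 = ∏ t ∈ s, ((c t : ℤ) * (p * k - c t) + (p * m) * (p * m + p * k)) := by
    rw [pow_two]
    nth_rewrite 1 [F_prod]
    rw [F_reflect, ← Finset.prod_mul_distrib]
    refine Finset.prod_congr rfl fun t _ => ?_
    simp only [c]
    ring
  have e0 : F p 0 k ^ 2 = ∏ t ∈ s, ((c t : ℤ) * (p * k - c t)) := by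
    rw [pow_two]
    nth_rewrite 1 [F_prod]
    rw [F_reflect, ← Finset.prod_mul_distrib]
    refine Finset.prod_congr rfl fun t _ => ?_
    simp only [c]
    ring
  -- in `R`
  have hpN : (p : ZMod (p ^ N)) ^ N = 0 := by
    have : ((p ^ N : ℕ) : ZMod (p ^ N)) = 0 := ZMod.natCast_self _
    push_cast at this
    exact this
  obtain ⟨k', hk'⟩ := hk
  obtain ⟨m', hm'⟩ := hm
  set y : ZMod (p ^ N) := (p : ZMod (p ^ N)) * m * (p * m + p * k) with hy
  have hy1 : y = (p : ZMod (p ^ N)) ^ (2 * b + 2) * (m' * (m' + k')) := by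
    rw [hy, hk', hm']; push_cast; ring
  have hyy : y * y = 0 := by
    rw [hy1]
    have : (p : ZMod (p ^ N)) ^ (2 * b + 2) * (p : ZMod (p ^ N)) ^ (2 * b + 2) = 0 := by
      rw [← pow_add, show 2 * b + 2 + (2 * b + 2) = N + (b + 1) by omega,
        pow_add (p : ZMod (p ^ N)) N (b + 1), hpN, zero_mul]
    linear_combination (((m' : ZMod (p ^ N)) * (m' + k')) ^ 2) * this
  have hunit : ∀ t ∈ s, IsUnit ((c t : ZMod (p ^ N)) * (p * k - c t)) := by
    intro t ht
    rw [hs, Finset.mem_product, Finset.mem_range, Finset.mem_range] at ht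
    have h1 : IsUnit ((c t : ℕ) : ZMod (p ^ N)) := isUnit_cast N (c t) (not_dvd_block t.1 t.2 ht.2)
    have h2 : IsUnit ((p : ZMod (p ^ N)) * k - c t) := by
      have h3 : c t ≤ p * k := by
        have h4 : p * t.1 + p ≤ p * k := by
          calc p * t.1 + p = p * (t.1 + 1) := by ring
            _ ≤ p * k := Nat.mul_le_mul_left _ ht.1
        simp only [c]; omega
      have h5 : ((p : ZMod (p ^ N)) * k - c t) = ((p * k - c t : ℕ) : ZMod (p ^ N)) := by
        rw [Nat.cast_sub h3]; push_cast; rfl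
      rw [h5]
      apply isUnit_cast N
      intro h6
      apply not_dvd_block (p := p) t.1 t.2 ht.2
      have := (Nat.dvd_sub (dvd_mul_right p k) h6)
      rwa [Nat.sub_sub_self h3] at this
    exact h1.mul h2
  have hexp := prod_add_nilp s (fun t => (c t : ZMod (p ^ N)) * (p * k - c t)) y hyy hunit
  -- the sum of inverses
  have hdvd : p ^ (b + 1) ∣ p ^ N := pow_dvd_pow p (by omega)
  have hsum : ∃ t : ZMod (p ^ N), ∑ x ∈ s, Ring.inverse ((c x : ZMod (p ^ N)) * (p * k - c x)) = (p : ZMod (p ^ N)) ^ (b + 1) * t := by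
    apply ker_cast (b + 1) N hdvd
    rw [map_sum]
    have h1 : ∀ x ∈ s, ZMod.castHom hdvd (ZMod (p ^ (b + 1))) (Ring.inverse ((c x : ZMod (p ^ N)) * (p * k - c x))) =
        -(Ring.inverse ((p * x.1 + x.2 + 1 : ℕ) : ZMod (p ^ (b + 1)))) ^ 2 := by
      intro x hx
      have h2 := Ring.mul_inverse_cancel _ (hunit x hx)
      have h3 := congrArg (ZMod.castHom hdvd (ZMod (p ^ (b + 1)))) h2
      rw [map_mul, map_mul, map_sub, map_mul, map_natCast, map_natCast, map_natCast, map_one] at h3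
      have h4 : ((p : ℕ) : ZMod (p ^ (b + 1))) * (k : ZMod (p ^ (b + 1))) = 0 := by
        have : ((p * k : ℕ) : ZMod (p ^ (b + 1))) = 0 := by
          rw [ZMod.natCast_eq_zero_iff, hk']
          exact ⟨k', by ring⟩
        push_cast at this
        exact this
      rw [h4] at h3
      rw [hs, Finset.mem_product, Finset.mem_range, Finset.mem_range] at hx
      have h5 := Ring.mul_inverse_cancel _ (isUnit_cast (p := p) (b + 1) (c x) (not_dvd_block x.1 x.2 hx.2))
      set q := ZMod.castHom hdvd (ZMod (p ^ (b + 1))) (Ring.inverse ((c x : ZMod (p ^ N)) * (p * k - c x)))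
      set ci := Ring.inverse ((c x : ℕ) : ZMod (p ^ (b + 1))) with hci
      have h6 : q = -ci ^ 2 := by
        linear_combination (-ci ^ 2) * h3 - (q * (((c x : ℕ) : ZMod (p ^ (b + 1))) * ci + 1)) * h5
      exact h6
    rw [Finset.sum_congr rfl h1, Finset.sum_neg_distrib, hs, Finset.sum_product,
      sum_blocks hp5 b k ⟨k', hk'⟩, neg_zero]
  obtain ⟨t, ht⟩ := hsum
  have hzero : y * ∑ x ∈ s, Ring.inverse ((c x : ZMod (p ^ N)) * (p * k - c x)) = 0 := by
    rw [ht, hy1]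
    have : (p : ZMod (p ^ N)) ^ (2 * b + 2) * (p : ZMod (p ^ N)) ^ (b + 1) = 0 := by
      rw [← pow_add, show 2 * b + 2 + (b + 1) = N by omega, hpN]
    linear_combination ((m' : ZMod (p ^ N)) * (m' + k') * t) * this
  rw [hzero, add_zero, mul_one] at hexp
  have hsq : ((F p (p * m) k ^ 2 : ℤ) : ZMod (p ^ N)) = ((F p 0 k ^ 2 : ℤ) : ZMod (p ^ N)) := by
    rw [e1, e0]
    push_cast
    exact hexp
  have hd : (p : ℤ) ^ N ∣ (F p (p * m) k - F p 0 k) * (F p (p * m) k + F p 0 k) := by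
    have h1 : (((F p (p * m) k - F p 0 k) * (F p (p * m) k + F p 0 k) : ℤ) : ZMod (p ^ N)) = 0 := by
      have : (F p (p * m) k - F p 0 k) * (F p (p * m) k + F p 0 k) = F p (p * m) k ^ 2 - F p 0 k ^ 2 := by
        ring
      rw [this, Int.cast_sub, hsq, sub_self]
    have h2 := (ZMod.intCast_zmod_eq_zero_iff_dvd _ (p ^ N)).1 h1
    push_cast at h2
    exact h2
  have hpr := Nat.prime_iff_prime_int.1 hp.out
  have hnd : ¬ (p : ℤ) ∣ F p (p * m) k + F p 0 k := by
    intro h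
    obtain ⟨u, hu⟩ := F_mod_p (p := p) m k
    obtain ⟨v, hv⟩ := h
    have h2 : (p : ℤ) ∣ 2 * F p 0 k := ⟨v - u, by linear_combination hv - hu⟩
    rcases hpr.dvd_or_dvd h2 with h3 | h3
    · have := Int.le_of_dvd (by norm_num) h3
      omega
    · exact F_zero_not_dvd (p := p) k h3
  have hcop : IsCoprime ((p : ℤ) ^ N) (F p (p * m) k + F p 0 k) := by
    apply IsCoprime.pow_left
    exact (hpr.coprime_iff_not_dvd).2 hnd
  exact hcop.dvd_of_dvd_mul_right hd

end

end Q277.Jac
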