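import Mathlib
import Pool.Agent.Q277.FacTools
import Pool.Agent.Q266.FacDvd
import Pool.Agent.Q266.PInt

/-!
Quotients of products of factorials which are integral at a prime.
-/

namespace Q277.ListPI

open Q266.FacVal Q266.PInt

theorem PI_lists (p : ℕ) (hp : p.Prime) (A B : List ℕ)
    (h : ∀ i, 1 ≤ i → (A.map (fun a => a / p ^ i)).sum ≤ (B.map (fun a => a / p ^ i)).sum) :
    PI p ((((B.map Nat.factorial).prod : ℕ) : ℚ) / (((A.map Nat.factorial).prod : ℕ) : ℚ)) := by
  refine PI.of_val hp (prod_fac_ne B) (prod_fac_ne A) ?_ (val_le p hp A B h)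
  have : (((A.map Nat.factorial).prod : ℕ) : ℚ) ≠ 0 := by exact_mod_cast prod_fac_ne A
  field_simp

theorem pow_ge (p : ℕ) (hp : 2 ≤ p) (i : ℕ) (hi : 1 ≤ i) : p ≤ p ^ i := by
  calc p = p ^ 1 := (pow_one p).symm
    _ ≤ p ^ i := Nat.pow_le_pow_right (by omega) hi

/-- `27^k / (6 (6k)!)` is integral at three for `k ≥ 1` -/
theorem PI_27 (k : ℕ) (hk : 1 ≤ k) : PI 3 (27 ^ k / (6 * ((6 * k).factorial : ℚ))) := by
  have : Fact (Nat.Prime 3) := ⟨Nat.prime_three⟩
  have h1 := sub_one_mul_padicValNat_factorial_lt_of_ne_zero (p := 3) (n := 6 * k) (by omega)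
  have h2 : (6 * k).factorial ≠ 0 := Nat.factorial_ne_zero _
  refine PI.of_val (a := 27 ^ k) (b := 6 * (6 * k).factorial) Nat.prime_three (by positivity)
    (mul_ne_zero (by norm_num) h2) ?_ ?_
  · push_cast
    have : ((6 * k).factorial : ℚ) ≠ 0 := by exact_mod_cast h2
    field_simp
  · rw [Nat.factorization_mul (by norm_num) h2, show (27 : ℕ) = 3 ^ 3 by norm_num, ← pow_mul,
      Nat.factorization_pow, Finsupp.add_apply, Nat.factorization_def _ Nat.prime_three,
      Nat.factorization_def _ Nat.prime_three]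
    have h3 : padicValNat 3 6 = 1 := by
      rw [show (6 : ℕ) = 3 * 2 by norm_num, padicValNat.mul (by norm_num) (by norm_num),
        padicValNat_self, padicValNat.eq_zero_of_not_dvd (by norm_num)]
    have h4 : (3 * k) • (Nat.factorization 3) 3 = 3 * k := by
      rw [Nat.Prime.factorization_self Nat.prime_three]; simp
    rw [h3, Finsupp.smul_apply, h4]
    omega

end Q277.ListPI
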