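import Mathlib
import Pool.Agent.Q277.Jacobsthal

/-!
# A MacMahon type formula for `∑_j C(n+j,j) C(n,j) C(n-j,j)` and the supercongruence

`2 a(n) = ∑_k C(n,k)^3 u(n-2k)`, where `u` has period `6` with `u(0) = 2`, `u(±1) = 1`,
`u(±2) = -1`, `u(3) = -2`.
-/

open Finset

namespace Q277.MacMahon

/-- the sequence -/
def a (n : ℕ) : ℕ := ∑ j ∈ range (n + 1), (n + j).choose j * n.choose j * (n - j).choose j

/-- `t_l(j) = C(k,j) C(l,j) C(N+j, k+l)` -/
def t (k N l j : ℕ) : ℚ := (k.choose j : ℚ) * (l.choose j : ℚ) * ((N + j).choose (k + l) : ℚ)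

theorem choose_down (n j : ℕ) : ((j : ℚ) + 1) * (n.choose (j + 1) : ℚ) =
    ((n : ℚ) - j) * (n.choose j : ℚ) := by
  rcases Nat.lt_or_ge n j with h | h
  · rw [Nat.choose_eq_zero_of_lt h, Nat.choose_eq_zero_of_lt (by omega : n < j + 1)]; simp
  · have h1 := Nat.choose_succ_right_eq n j
    have h3 := congrArg (Nat.cast : ℕ → ℚ) h1
    push_cast [Nat.cast_sub h] at h3
    linear_combination h3

theorem choose_left (n j : ℕ) : ((j : ℚ) + 1) * ((n + 1).choose (j + 1) : ℚ) =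
    ((n : ℚ) + 1) * (n.choose j : ℚ) := by
  have h1 := Nat.add_one_mul_choose_eq n j
  have h3 := congrArg (Nat.cast : ℕ → ℚ) h1
  push_cast at h3
  linear_combination -h3

theorem choose_up (n j : ℕ) : ((n : ℚ) + 1) * (n.choose j : ℚ) =
    ((n : ℚ) + 1 - j) * ((n + 1).choose j : ℚ) := by
  rcases j with _ | j
  · simp
  · have h1 := choose_left n j
    have h2 := choose_down n j
    have h3 : ((n + 1).choose (j + 1) : ℚ) = (n.choose j : ℚ) + (n.choose (j + 1) : ℚ) := by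
      rw [Nat.choose_succ_succ']; push_cast; ring
    rw [h3]
    push_cast
    linear_combination h2

theorem t_rel (k N l j : ℕ) : (((l : ℚ) + 1) ^ 2 - (j : ℚ) ^ 2) * t k N (l + 1) j +
    ((j : ℚ) + 1) ^ 2 * t k N (l + 1) (j + 1) = (l + 1) * (N - l) * t k N l j := by
  unfold t
  have h1 := choose_down k j
  have h2 := choose_left l j
  have h3 := choose_up l j
  have h4 := choose_left (N + j) (k + l)
  have h5 := choose_down (N + j) (k + l)
  rw [show k + (l + 1) = k + l + 1 by ring, show N + (j + 1) = N + j + 1 by ring]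
  push_cast at h4 h5
  have n1 : (k : ℚ) + l + 1 ≠ 0 := by positivity
  have n2 : (j : ℚ) + 1 ≠ 0 := by positivity
  have n3 : (l : ℚ) + 1 ≠ 0 := by positivity
  set A := (k.choose j : ℚ)
  set A1 := (k.choose (j + 1) : ℚ)
  set L := (l.choose j : ℚ)
  set L1 := ((l + 1).choose j : ℚ)
  set L2 := ((l + 1).choose (j + 1) : ℚ)
  set Z := ((N + j).choose (k + l) : ℚ)
  set Z1 := ((N + j).choose (k + l + 1) : ℚ)
  set Z2 := ((N + j + 1).choose (k + l + 1) : ℚ)
  have e5 : Z1 = (N + j - k - l) * Z / (k + l + 1) := by rw [eq_div_iff n1]; linear_combination h5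
  have e4 : Z2 = (N + j + 1) * Z / (k + l + 1) := by rw [eq_div_iff n1]; linear_combination h4
  have e1 : ((j : ℚ) + 1) ^ 2 * (A1 * L2 * Z2) = ((k : ℚ) - j) * A * ((l + 1) * L) * Z2 := by
    linear_combination (((j : ℚ) + 1) * L2 * Z2) * h1 + (((k : ℚ) - j) * A * Z2) * h2
  have e3 : (((l : ℚ) + 1) ^ 2 - (j : ℚ) ^ 2) * (A * L1 * Z1) =
      ((l : ℚ) + 1 + j) * A * ((l + 1) * L) * Z1 := by
    linear_combination (-((l : ℚ) + 1 + j) * A * Z1) * h3
  rw [e3, e1, e5, e4]
  field_simp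
  ring

theorem t_zero (k N l j : ℕ) (h : l < j) : t k N l j = 0 := by
  unfold t; rw [Nat.choose_eq_zero_of_lt h]; simp

theorem riordan (k N : ℕ) (l : ℕ) : ∑ j ∈ range (l + 1), t k N l j =
    (N.choose k : ℚ) * (N.choose l : ℚ) := by
  induction l with
  | zero => simp [t]
  | succ l ih =>
    have n3 : ((l : ℚ) + 1) ^ 2 ≠ 0 := by positivity
    apply mul_left_cancel₀ n3
    have h1 : ∑ j ∈ range (l + 1 + 1), ((((l : ℚ) + 1) ^ 2 - (j : ℚ) ^ 2) * t k N (l + 1) j +
        ((j : ℚ) + 1) ^ 2 * t k N (l + 1) (j + 1)) = (l + 1) * (N - l) *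
        ∑ j ∈ range (l + 1 + 1), t k N l j := by
      rw [Finset.mul_sum]
      exact Finset.sum_congr rfl fun j _ => t_rel k N l j
    have h2 : ∑ j ∈ range (l + 1 + 1), t k N l j = (N.choose k : ℚ) * (N.choose l : ℚ) := by
      rw [Finset.sum_range_succ, t_zero k N l (l + 1) (by omega), add_zero, ih]
    have h3 : ∑ j ∈ range (l + 1 + 1), ((((l : ℚ) + 1) ^ 2 - (j : ℚ) ^ 2) * t k N (l + 1) j +
        ((j : ℚ) + 1) ^ 2 * t k N (l + 1) (j + 1)) = ((l : ℚ) + 1) ^ 2 *
        ∑ j ∈ range (l + 1 + 1), t k N (l + 1) j := by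
      have h4 : ∀ m : ℕ, ∑ j ∈ range m, ((((l : ℚ) + 1) ^ 2 - (j : ℚ) ^ 2) * t k N (l + 1) j +
          ((j : ℚ) + 1) ^ 2 * t k N (l + 1) (j + 1)) = ((l : ℚ) + 1) ^ 2 *
          ∑ j ∈ range m, t k N (l + 1) j + (m : ℚ) ^ 2 * t k N (l + 1) m := by
        intro m
        induction m with
        | zero => simp
        | succ m ihm =>
          rw [Finset.sum_range_succ, ihm, Finset.sum_range_succ]
          push_cast; ring
      rw [h4, t_zero k N (l + 1) (l + 1 + 1) (by omega)]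
      ring
    rw [← h3, h1, h2]
    have h5 := choose_down N l
    linear_combination (-((l : ℚ) + 1) * (N.choose k : ℚ)) * h5

/-- the coefficient identity -/
theorem cube (k l : ℕ) : ((k + l).choose k : ℚ) ^ 3 =
    ∑ j ∈ range (l + 1), ((k + l).choose k : ℚ) * ((k.choose j : ℚ) * (l.choose j : ℚ) *
      ((k + l + j).choose j : ℚ)) := by
  have h := riordan k (k + l) l
  have h1 : ((k + l).choose l : ℚ) = ((k + l).choose k : ℚ) := by
    rw [← Nat.choose_symm (by omega : k ≤ k + l)]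
    congr 2; omega
  rw [h1] at h
  rw [← Finset.mul_sum]
  have h2 : ∀ j, ((k + l + j).choose (k + l) : ℚ) = ((k + l + j).choose j : ℚ) := by
    intro j
    rw [← Nat.choose_symm (by omega : j ≤ k + l + j)]
    congr 2; omega
  have h3 : ∑ j ∈ range (l + 1), ((k.choose j : ℚ) * (l.choose j : ℚ) * ((k + l + j).choose j : ℚ)) =
      ((k + l).choose k : ℚ) * ((k + l).choose k : ℚ) := by
    rw [← h]
    refine Finset.sum_congr rfl fun j _ => ?_
    unfold t
    rw [h2]
  rw [h3]; ring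

/-- a multinomial identity -/
theorem multi (k l j : ℕ) (hk : j ≤ k) (hl : j ≤ l) :
    (k + l).choose j * (k + l - j).choose j * (k + l - 2 * j).choose (k - j) =
      (k + l).choose k * (k.choose j * l.choose j) := by
  obtain ⟨k', rfl⟩ := Nat.exists_eq_add_of_le hk
  obtain ⟨l', rfl⟩ := Nat.exists_eq_add_of_le hl
  have a1 := Nat.choose_mul_factorial_mul_factorial (n := j + k' + (j + l')) (k := j) (by omega)
  have a2 := Nat.choose_mul_factorial_mul_factorial (n := j + k' + (j + l') - j) (k := j) (by omega)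
  have a3 := Nat.choose_mul_factorial_mul_factorial (n := j + k' + (j + l') - 2 * j)
    (k := j + k' - j) (by omega)
  have a4 := Nat.choose_mul_factorial_mul_factorial (n := j + k' + (j + l')) (k := j + k') (by omega)
  have a5 := Nat.choose_mul_factorial_mul_factorial (n := j + k') (k := j) (by omega)
  have a6 := Nat.choose_mul_factorial_mul_factorial (n := j + l') (k := j) (by omega)
  rw [show j + k' + (j + l') - j - j = j + k' + (j + l') - 2 * j by omega] at a2
  rw [show j + k' + (j + l') - 2 * j - (j + k' - j) = l' by omega, show j + k' - j = k' by omega] at a3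
  rw [show j + k' + (j + l') - (j + k') = j + l' by omega] at a4
  rw [show j + k' - j = k' by omega] at a5 ⊢
  rw [show j + l' - j = l' by omega] at a6
  have hpos : 0 < j.factorial * j.factorial * k'.factorial * l'.factorial := by positivity
  apply Nat.eq_of_mul_eq_mul_right hpos
  calc (j + k' + (j + l')).choose j * (j + k' + (j + l') - j).choose j *
        (j + k' + (j + l') - 2 * j).choose k' * (j.factorial * j.factorial * k'.factorial * l'.factorial)
      = (j + k' + (j + l')).choose j * j.factorial * ((j + k' + (j + l') - j).choose j * j.factorial *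
        ((j + k' + (j + l') - 2 * j).choose k' * k'.factorial * l'.factorial)) := by ring
    _ = (j + k' + (j + l')).factorial := by rw [a3, a2, a1]
    _ = (j + k' + (j + l')).choose (j + k') * ((j + k').choose j * j.factorial * k'.factorial) *
        ((j + l').choose j * j.factorial * l'.factorial) := by rw [a5, a6, a4]
    _ = _ := by ring

/-- the periodic function -/
def u (m : ℤ) : ℤ := if m % 6 = 0 then 2 else if m % 6 = 1 ∨ m % 6 = 5 then 1 else
  if m % 6 = 2 ∨ m % 6 = 4 then -1 else -2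

theorem u_rec (m : ℤ) : u (m + 1) + u (m - 1) = u m := by
  unfold u
  have h : m % 6 = 0 ∨ m % 6 = 1 ∨ m % 6 = 2 ∨ m % 6 = 3 ∨ m % 6 = 4 ∨ m % 6 = 5 := by omega
  rcases h with h | h | h | h | h | h
  · have h1 : (m + 1) % 6 = 1 := by omega
    have h2 : (m - 1) % 6 = 5 := by omega
    rw [h, h1, h2]; norm_num
  · have h1 : (m + 1) % 6 = 2 := by omega
    have h2 : (m - 1) % 6 = 0 := by omega
    rw [h, h1, h2]; norm_num
  · have h1 : (m + 1) % 6 = 3 := by omega
    have h2 : (m - 1) % 6 = 1 := by omega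
    rw [h, h1, h2]; norm_num
  · have h1 : (m + 1) % 6 = 4 := by omega
    have h2 : (m - 1) % 6 = 2 := by omega
    rw [h, h1, h2]; norm_num
  · have h1 : (m + 1) % 6 = 5 := by omega
    have h2 : (m - 1) % 6 = 3 := by omega
    rw [h, h1, h2]; norm_num
  · have h1 : (m + 1) % 6 = 0 := by omega
    have h2 : (m - 1) % 6 = 4 := by omega
    rw [h, h1, h2]; norm_num

theorem u_mul (p : ℕ) (hp : p % 6 = 1 ∨ p % 6 = 5) (m : ℤ) : u (p * m) = u m := by
  unfold u
  have h : m % 6 = 0 ∨ m % 6 = 1 ∨ m % 6 = 2 ∨ m % 6 = 3 ∨ m % 6 = 4 ∨ m % 6 = 5 := by omega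
  have hm : ((p : ℤ) * m) % 6 = (((p : ℤ) % 6) * (m % 6)) % 6 := Int.mul_emod _ _ _
  have hp' : (p : ℤ) % 6 = 1 ∨ (p : ℤ) % 6 = 5 := by omega
  rw [hm]
  rcases hp' with h' | h' <;> rcases h with h | h | h | h | h | h <;> rw [h', h] <;> norm_num

theorem binom_u (N : ℕ) : ∀ s : ℤ, ∑ i ∈ range (N + 1), (N.choose i : ℤ) * u (s + N - 2 * i) = u s := by
  induction N with
  | zero => intro s; simp
  | succ N ih =>
    intro s
    have h1 := ih (s + 1)
    have h2 := ih (s - 1)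
    have h0 := ih s
    rw [Finset.sum_range_succ']
    have e1 : ∀ i ∈ range (N + 1), ((N + 1).choose (i + 1) : ℤ) * u (s + ((N + 1 : ℕ) : ℤ) - 2 * ((i + 1 : ℕ) : ℤ)) =
        (N.choose i : ℤ) * u (s - 1 + N - 2 * i) + (N.choose (i + 1) : ℤ) * u (s + 1 + N - 2 * ((i : ℤ) + 1)) := by
      intro i _
      rw [Nat.choose_succ_succ']
      have a1 : s + ((N + 1 : ℕ) : ℤ) - 2 * ((i + 1 : ℕ) : ℤ) = s - 1 + N - 2 * i := by push_cast; ring
      have a2 : s + 1 + (N : ℤ) - 2 * ((i : ℤ) + 1) = s - 1 + N - 2 * i := by ring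
      rw [a1, a2]; push_cast; ring
    rw [Finset.sum_congr rfl e1, Finset.sum_add_distrib, h2]
    have e2 : ∑ i ∈ range (N + 1), (N.choose (i + 1) : ℤ) * u (s + 1 + N - 2 * ((i : ℤ) + 1)) +
        ((N + 1).choose 0 : ℤ) * u (s + ((N + 1 : ℕ) : ℤ) - 2 * ((0 : ℕ) : ℤ)) =
        ∑ i ∈ range (N + 1), (N.choose i : ℤ) * u (s + 1 + N - 2 * i) := by
      have e3 : ∑ i ∈ range (N + 1 + 1), (N.choose i : ℤ) * u (s + 1 + N - 2 * i) =
          ∑ i ∈ range (N + 1), (N.choose i : ℤ) * u (s + 1 + N - 2 * i) := by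
        rw [Finset.sum_range_succ, Nat.choose_eq_zero_of_lt (by omega : N < N + 1)]
        simp
      rw [← e3, Finset.sum_range_succ' _ (N + 1)]
      have a1 : ∀ i ∈ range (N + 1), (N.choose (i + 1) : ℤ) * u (s + 1 + N - 2 * ((i + 1 : ℕ) : ℤ)) =
          (N.choose (i + 1) : ℤ) * u (s + 1 + N - 2 * ((i : ℤ) + 1)) := by
        intro i _
        push_cast; rfl
      have a2 : s + ((N + 1 : ℕ) : ℤ) - 2 * ((0 : ℕ) : ℤ) = s + 1 + N - 2 * ((0 : ℕ) : ℤ) := by
        push_cast; ring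
      rw [Finset.sum_congr rfl a1, a2, Nat.choose_zero_right, Nat.choose_zero_right]
    rw [add_assoc, e2, h1]
    have := u_rec s
    linarith

/-- `2 a(n) = ∑ C(n,k)^3 u(n-2k)` -/
theorem two_a (n : ℕ) : 2 * (a n : ℤ) = ∑ k ∈ range (n + 1), (n.choose k : ℤ) ^ 3 * u (n - 2 * k) := by
  -- expand the cubes
  have h1 : ∀ k ∈ range (n + 1), (n.choose k : ℤ) ^ 3 * u (n - 2 * k) =
      ∑ j ∈ range (n + 1), ((n + j).choose j : ℤ) * (n.choose j : ℤ) * ((n - j).choose j : ℤ) *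
        (if j ≤ k ∧ k + j ≤ n then ((n - 2 * j).choose (k - j) : ℤ) * u (n - 2 * k) else 0) := by
    intro k hk
    rw [Finset.mem_range] at hk
    obtain ⟨l, rfl⟩ := Nat.exists_eq_add_of_le (by omega : k ≤ n)
    have hc := cube k l
    have hc' : ((k + l).choose k : ℤ) ^ 3 = ∑ j ∈ range (l + 1), ((k + l).choose k : ℤ) *
        ((k.choose j : ℤ) * (l.choose j : ℤ) * ((k + l + j).choose j : ℤ)) := by exact_mod_cast hc
    rw [hc', Finset.sum_mul]
    have hsub : range (l + 1) ⊆ range (k + l + 1) := by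
      intro i hi; rw [Finset.mem_range] at *; omega
    rw [← Finset.sum_subset hsub]
    · refine Finset.sum_congr rfl fun j hj => ?_
      rw [Finset.mem_range] at hj
      by_cases hjk : j ≤ k
      · rw [if_pos ⟨hjk, by omega⟩]
        have hm := multi k l j hjk (by omega)
        have hm' := congrArg (Nat.cast : ℕ → ℤ) hm
        push_cast at hm' ⊢
        linear_combination (-(((k + l + j).choose j : ℤ) * u ((k : ℤ) + l - 2 * k))) * hm'
      · rw [if_neg (by omega), Nat.choose_eq_zero_of_lt (by omega : k < j)]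
        simp
    · intro j _ hj
      rw [Finset.mem_range] at hj
      rw [if_neg (by omega)]; ring
  rw [Finset.sum_congr rfl h1, Finset.sum_comm]
  unfold a
  push_cast
  rw [Finset.mul_sum]
  refine Finset.sum_congr rfl fun j hj => ?_
  rw [Finset.mem_range] at hj
  rw [← Finset.mul_sum]
  rcases Nat.lt_or_ge n (2 * j) with h | h
  · rw [Nat.choose_eq_zero_of_lt (by omega : n - j < j)]; simp
  · have h2 : ∑ k ∈ range (n + 1), (if j ≤ k ∧ k + j ≤ n then
        ((n - 2 * j).choose (k - j) : ℤ) * u (n - 2 * k) else 0) = 2 := by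
      have h3 := binom_u (n - 2 * j) 0
      have h4 : u 0 = 2 := by decide
      rw [h4] at h3
      refine Eq.trans ?_ h3
      rw [← Finset.sum_filter]
      symm
      refine Finset.sum_bij (fun i _ => i + j) ?_ ?_ ?_ ?_
      · intro i hi
        rw [Finset.mem_range] at hi
        rw [Finset.mem_filter, Finset.mem_range]
        omega
      · intro x _ y _ hxy
        have hxy' : x + j = y + j := hxy
        omega
      · intro k hk
        rw [Finset.mem_filter, Finset.mem_range] at hk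
        exact ⟨k - j, by rw [Finset.mem_range]; omega, by omega⟩
      · intro i _
        rw [Nat.add_sub_cancel]
        congr 2
        rw [Nat.cast_sub h]; push_cast; ring
    rw [h2]; ring

/-! ### the supercongruence -/

section

variable {p : ℕ} [hp : Fact p.Prime]

theorem exists_b (α k n : ℕ) (hk : k ≤ n) (hn : p ^ α ∣ n) :
    ∃ b ≤ α, p ^ b ∣ k ∧ p ^ (α - b) ∣ n.choose k := by
  by_cases h : p ^ α ∣ k
  · exact ⟨α, le_rfl, h, by simp⟩
  · have hk0 : k ≠ 0 := by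
      intro h0; apply h; rw [h0]; exact dvd_zero _
    obtain ⟨v, k', hk', hkv⟩ := Nat.exists_eq_pow_mul_and_not_dvd hk0 p hp.out.ne_one
    have hv : v < α := by
      by_contra hc
      apply h
      rw [hkv]
      exact Dvd.dvd.mul_right (pow_dvd_pow p (by omega)) _
    refine ⟨v, hv.le, ⟨k', hkv⟩, ?_⟩
    have h1 : k * n.choose k = n * (n - 1).choose (k - 1) := by
      obtain ⟨k1, rfl⟩ : ∃ k1, k = k1 + 1 := ⟨k - 1, by omega⟩
      obtain ⟨n1, rfl⟩ : ∃ n1, n = n1 + 1 := ⟨n - 1, by omega⟩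
      have := Nat.add_one_mul_choose_eq n1 k1
      rw [Nat.add_sub_cancel, Nat.add_sub_cancel]
      rw [this]; ring
    have h2 : p ^ α ∣ k * n.choose k := by rw [h1]; exact Dvd.dvd.mul_right hn _
    rw [hkv, mul_assoc] at h2
    have h3 : p ^ α = p ^ v * p ^ (α - v) := by rw [← pow_add]; congr 1; omega
    rw [h3, hkv.symm] at h2
    have h4 : p ^ (α - v) ∣ k' * n.choose k :=
      (Nat.mul_dvd_mul_iff_left (pow_pos hp.out.pos v)).1 h2
    exact (Nat.Coprime.pow_left _ ((Nat.Prime.coprime_iff_not_dvd hp.out).2 hk')).dvd_of_dvd_mul_left h4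

theorem cube_diff (hp5 : 5 ≤ p) (α k m : ℕ) (hn : p ^ α ∣ k + m) :
    (p : ℤ) ^ (3 * α + 3) ∣ ((p * (k + m)).choose (p * k) : ℤ) ^ 3 - ((k + m).choose k : ℤ) ^ 3 := by
  obtain ⟨b, hb, hbk, hC⟩ := exists_b (p := p) α k (k + m) (by omega) hn
  have hbm : p ^ b ∣ m := by
    have h1 : p ^ b ∣ k + m := (pow_dvd_pow p hb).trans hn
    exact (Nat.dvd_add_right hbk).1 h1
  have hrel := Jac.choose_rel p k m hp.out.pos
  obtain ⟨z, hz⟩ := Jac.F_cong (p := p) hp5 b k m hbk hbm
  have hF0 := Jac.F_zero_not_dvd (p := p) k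
  obtain ⟨c, hc⟩ := hC
  have hc' := congrArg (Nat.cast : ℕ → ℤ) hc
  push_cast at hc'
  set C := ((p * (k + m)).choose (p * k) : ℤ)
  set C0 := ((k + m).choose k : ℤ)
  set F0 := Jac.F p 0 k
  set F1 := Jac.F p (p * m) k
  have h1 : (p : ℤ) ^ (3 * α + 3) ∣ (C ^ 3 - C0 ^ 3) * F0 ^ 3 := by
    refine ⟨c ^ 3 * z * (F1 ^ 2 + F1 * F0 + F0 ^ 2), ?_⟩
    have e1 : (p : ℤ) ^ (3 * α + 3) = ((p : ℤ) ^ (α - b)) ^ 3 * (p : ℤ) ^ (3 * b + 3) := by
      rw [← pow_mul, ← pow_add]; congr 1; omega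
    calc (C ^ 3 - C0 ^ 3) * F0 ^ 3 = (C * F0) ^ 3 - C0 ^ 3 * F0 ^ 3 := by ring
      _ = (C0 * F1) ^ 3 - C0 ^ 3 * F0 ^ 3 := by rw [hrel]
      _ = C0 ^ 3 * (F1 - F0) * (F1 ^ 2 + F1 * F0 + F0 ^ 2) := by ring
      _ = ((p : ℤ) ^ (α - b) * c) ^ 3 * ((p : ℤ) ^ (3 * b + 3) * z) * (F1 ^ 2 + F1 * F0 + F0 ^ 2) := by
          rw [hz, ← hc']
      _ = _ := by rw [e1]; ring
  have hpr := Nat.prime_iff_prime_int.1 hp.out
  have hcop : IsCoprime ((p : ℤ) ^ (3 * α + 3)) (F0 ^ 3) :=
    IsCoprime.pow ((hpr.coprime_iff_not_dvd).2 hF0)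
  exact hcop.dvd_of_dvd_mul_right h1

theorem dvd_choose_of_not_dvd (α n K : ℕ) (hn : p ^ α ∣ n) (hK : ¬ p ∣ K) :
    p ^ (α + 1) ∣ (p * n).choose K := by
  have hK0 : K ≠ 0 := by
    intro h0; apply hK; rw [h0]; exact dvd_zero _
  rcases Nat.eq_zero_or_pos n with h0 | hpos
  · subst h0
    rw [mul_zero, Nat.choose_eq_zero_of_lt (by omega)]
    exact dvd_zero _
  have hpn : 0 < p * n := Nat.mul_pos hp.out.pos hpos
  have h1 : K * (p * n).choose K = p * n * (p * n - 1).choose (K - 1) := by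
    obtain ⟨k1, rfl⟩ : ∃ k1, K = k1 + 1 := ⟨K - 1, by omega⟩
    obtain ⟨n1, hn1⟩ : ∃ n1, p * n = n1 + 1 := ⟨p * n - 1, by omega⟩
    rw [hn1]
    have := Nat.add_one_mul_choose_eq n1 k1
    rw [Nat.add_sub_cancel, Nat.add_sub_cancel]
    rw [this]; ring
  have h2 : p ^ (α + 1) ∣ K * (p * n).choose K := by
    rw [h1, pow_succ, mul_comm (p ^ α)]
    exact Dvd.dvd.mul_right (Nat.mul_dvd_mul_left p hn) _
  exact (Nat.Coprime.pow_left _ ((Nat.Prime.coprime_iff_not_dvd hp.out).2 hK)).dvd_of_dvd_mul_left h2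

/-- the supercongruence -/
theorem main (hp5 : 5 ≤ p) (α n : ℕ) (hn : p ^ α ∣ n) :
    (p : ℤ) ^ (3 * α + 3) ∣ (a (p * n) : ℤ) - a n := by
  have hp6 : p % 6 = 1 ∨ p % 6 = 5 := by
    have h2 : ¬ 2 ∣ p := fun h => by
      have := (Nat.prime_dvd_prime_iff_eq Nat.prime_two hp.out).1 h; omega
    have h3 : ¬ 3 ∣ p := fun h => by
      have := (Nat.prime_dvd_prime_iff_eq Nat.prime_three hp.out).1 h; omega
    omega
  have h1 := two_a (p * n)
  have h2 := two_a n
  -- split according to divisibility of the index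
  have h3 : ∑ K ∈ range (p * n + 1), ((p * n).choose K : ℤ) ^ 3 * u (((p * n : ℕ) : ℤ) - 2 * K) =
      (∑ k ∈ range (n + 1), ((p * n).choose (p * k) : ℤ) ^ 3 * u ((n : ℤ) - 2 * k)) +
      ∑ K ∈ (range (p * n + 1)).filter (fun K => ¬ p ∣ K),
        ((p * n).choose K : ℤ) ^ 3 * u (((p * n : ℕ) : ℤ) - 2 * K) := by
    rw [← Finset.sum_filter_add_sum_filter_not (range (p * n + 1)) (fun K => p ∣ K)]
    congr 1
    symm
    refine Finset.sum_bij (fun k _ => p * k) ?_ ?_ ?_ ?_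
    · intro k hk
      rw [Finset.mem_range] at hk
      rw [Finset.mem_filter, Finset.mem_range]
      refine ⟨?_, dvd_mul_right p k⟩
      have := Nat.mul_le_mul_left p (by omega : k ≤ n)
      omega
    · intro x _ y _ hxy
      exact Nat.eq_of_mul_eq_mul_left hp.out.pos hxy
    · intro K hK
      rw [Finset.mem_filter, Finset.mem_range] at hK
      obtain ⟨hK1, k, rfl⟩ := hK
      refine ⟨k, ?_, rfl⟩
      rw [Finset.mem_range]
      have : p * k ≤ p * n := by omega
      have := Nat.le_of_mul_le_mul_left this hp.out.pos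
      omega
    · intro k _
      congr 1
      rw [← u_mul p hp6]
      congr 1
      push_cast; ring
  have h4 : (p : ℤ) ^ (3 * α + 3) ∣ ∑ K ∈ (range (p * n + 1)).filter (fun K => ¬ p ∣ K),
      ((p * n).choose K : ℤ) ^ 3 * u (((p * n : ℕ) : ℤ) - 2 * K) := by
    apply Finset.dvd_sum
    intro K hK
    rw [Finset.mem_filter] at hK
    obtain ⟨c, hc⟩ := dvd_choose_of_not_dvd (p := p) α n K hn hK.2
    have hc' := congrArg (Nat.cast : ℕ → ℤ) hc
    push_cast at hc'
    refine ⟨(c : ℤ) ^ 3 * u (((p * n : ℕ) : ℤ) - 2 * K), ?_⟩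
    rw [hc', mul_pow, ← pow_mul, show (α + 1) * 3 = 3 * α + 3 by ring]
    ring
  have h5 : (p : ℤ) ^ (3 * α + 3) ∣
      (∑ k ∈ range (n + 1), ((p * n).choose (p * k) : ℤ) ^ 3 * u ((n : ℤ) - 2 * k)) -
      ∑ k ∈ range (n + 1), (n.choose k : ℤ) ^ 3 * u ((n : ℤ) - 2 * k) := by
    rw [← Finset.sum_sub_distrib]
    apply Finset.dvd_sum
    intro k hk
    rw [Finset.mem_range] at hk
    obtain ⟨m, rfl⟩ := Nat.exists_eq_add_of_le (by omega : k ≤ n)
    rw [← sub_mul]
    exact Dvd.dvd.mul_right (cube_diff hp5 α k m hn) _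
  have h6 : (p : ℤ) ^ (3 * α + 3) ∣ 2 * ((a (p * n) : ℤ) - a n) := by
    have e : 2 * ((a (p * n) : ℤ) - a n) = ((∑ k ∈ range (n + 1), ((p * n).choose (p * k) : ℤ) ^ 3 *
        u ((n : ℤ) - 2 * k)) - ∑ k ∈ range (n + 1), (n.choose k : ℤ) ^ 3 * u ((n : ℤ) - 2 * k)) +
        ∑ K ∈ (range (p * n + 1)).filter (fun K => ¬ p ∣ K),
        ((p * n).choose K : ℤ) ^ 3 * u (((p * n : ℕ) : ℤ) - 2 * K) := by
      rw [h3] at h1
      linear_combination h1 - h2
    rw [e]
    exact dvd_add h5 h4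
  have hcop : IsCoprime ((p : ℤ) ^ (3 * α + 3)) 2 := by
    apply IsCoprime.pow_left
    have h7 : Nat.Coprime p 2 := (Nat.coprime_primes hp.out Nat.prime_two).2 (by omega)
    have h8 := Nat.isCoprime_iff_coprime.2 h7
    exact_mod_cast h8
  exact hcop.dvd_of_dvd_mul_left h6

end

end Q277.MacMahon
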