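import Mathlib
import Pool.Agent.Q277.MthPowers

/-!
# Sums of `m`-th powers of binomial coefficients modulo `p^3`: the assembly
-/

open Finset Polynomial

namespace Q277.MthPowers

open Q277.PInt Q277.PolySums

/-- `∑_{i<j} 1/(i+1)^2` -/
def H2 (j : ℕ) : ℚ := ∑ i ∈ range j, 1 / ((i : ℚ) + 1) ^ 2

theorem H2_succ (j : ℕ) : H2 (j + 1) = H2 j + 1 / ((j : ℚ) + 1) ^ 2 := by
  unfold H2; rw [sum_range_succ]

theorem H2_add (a b : ℕ) : H2 (a + b) = H2 a + ∑ i ∈ range b, 1 / ((a : ℚ) + 1 + i) ^ 2 := by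
  induction b with
  | zero => simp
  | succ b ih =>
    rw [← Nat.add_assoc, H2_succ, ih, sum_range_succ]
    push_cast
    ring

section padic

variable {p : ℕ} (hp : p.Prime)
include hp

theorem PI_H2 {j : ℕ} (hj : j < p) : PI p (H2 j) := by
  unfold H2
  refine PI.sum hp _ _ fun i hi => ?_
  rw [mem_range] at hi
  have := PI.pow hp (PI_inv hp (a := i + 1) (by omega) (by omega)) 2
  push_cast at this
  rw [div_pow, one_pow] at this
  exact this

theorem inv_sq_reflect {a : ℕ} (h1 : 0 < a) (h2 : a < p) :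
    Cg p 1 (1 / ((p : ℚ) - a) ^ 2) (1 / (a : ℚ) ^ 2) := by
  have ha : (a : ℚ) ≠ 0 := by positivity
  have hpa : ((p : ℚ) - a) ≠ 0 := by
    have : (a : ℚ) < p := by exact_mod_cast h2
    intro h; linarith
  have hI1 : PI p (1 / (a : ℚ)) := PI_inv hp h1 h2
  have hI2 : PI p (1 / ((p : ℚ) - a)) := by
    have := PI_inv hp (a := p - a) (by omega) (by omega)
    rwa [Nat.cast_sub (by omega)] at this
  refine ⟨(2 * a - p) * ((1 / ((p : ℚ) - a)) ^ 2 * (1 / (a : ℚ)) ^ 2), ?_, ?_⟩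
  · refine PI.mul hp (PI.sub hp ?_ (PI.nat hp p)) (PI.mul hp (PI.pow hp hI2 _) (PI.pow hp hI1 _))
    have := PI.nat hp (2 * a)
    push_cast at this
    exact this
  · field_simp
    ring

/-- reflection of the harmonic numbers of order two -/
theorem H2_reflect {j : ℕ} (hj : j ≤ p - 1) :
    Cg p 1 (H2 (p - 1 - j)) (H2 (p - 1) - H2 j) := by
  have hp2 := hp.two_le
  induction j with
  | zero => exact Cg.of_eq hp (by simp [H2])
  | succ j ih =>
    have h1 := ih (by omega)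
    have e1 : p - 1 - j = (p - 1 - (j + 1)) + 1 := by omega
    rw [e1, H2_succ] at h1
    have e2 : ((p - 1 - (j + 1) : ℕ) : ℚ) + 1 = p - (j + 1 : ℕ) := by
      rw [Nat.sub_sub, Nat.cast_sub (by omega)]
      push_cast; ring
    rw [e2] at h1
    have h2 := inv_sq_reflect hp (a := j + 1) (by omega) (by omega)
    have h3 := Cg.sub hp h1 h2
    rw [H2_succ]
    have e3 : ((j + 1 : ℕ) : ℚ) = (j : ℚ) + 1 := by push_cast; ring
    rw [e3] at h3
    convert h3 using 1 <;> ring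

/-- reflection of the binomial coefficients modulo `p` -/
theorem C_reflect {s k : ℕ} (hk : k + s ≤ p - 1) :
    Cg p 1 (((s + (p - 1 - s - k)).choose (p - 1 - s - k) : ℕ) : ℚ)
      ((-1) ^ s * ((s + k).choose k : ℚ)) := by
  have hp2 := hp.two_le
  have h1 : (((p - 1 - s - k : ℕ) : ℤ)) = p - 1 - s - k := by
    rw [Nat.sub_sub, Nat.sub_sub, Nat.cast_sub (by omega)]; push_cast; ring
  have h2 : (Q s).eval (((p - 1 - s - k : ℕ) : ℤ))
      = ∏ i ∈ range s, ((p : ℤ) - (k + 1 + i)) := by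
    rw [eval_Q, h1, ← prod_range_reflect]
    refine prod_congr rfl fun i hi => ?_
    rw [mem_range] at hi
    rw [Nat.sub_sub, Nat.cast_sub (by omega)]
    push_cast; ring
  have h3 : (p : ℤ) ∣ (∏ i ∈ range s, ((p : ℤ) - (k + 1 + i)))
      - ∏ i ∈ range s, (-((k : ℤ) + 1 + i)) := by
    have : ∀ t : ℕ, (p : ℤ) ∣ (∏ i ∈ range t, ((p : ℤ) - (k + 1 + i)))
        - ∏ i ∈ range t, (-((k : ℤ) + 1 + i)) := by
      intro t
      induction t with
      | zero => simp
      | succ t ih =>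
        rw [prod_range_succ, prod_range_succ]
        obtain ⟨c, hc⟩ := ih
        refine ⟨c * (-((k : ℤ) + 1 + t)) + ∏ i ∈ range t, ((p : ℤ) - (k + 1 + i)), ?_⟩
        linear_combination (-((k : ℤ) + 1 + t)) * hc
    exact this s
  have h4 : ∏ i ∈ range s, (-((k : ℤ) + 1 + i)) = (-1) ^ s * (((s + k).choose k : ℤ) * s.factorial) := by
    rw [← eval_Q_nat, eval_Q]
    rw [← card_range s, ← prod_const, card_range, ← prod_mul_distrib]
    exact prod_congr rfl fun i _ => by ring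
  rw [← h2, eval_Q_nat, h4] at h3
  obtain ⟨c, hc⟩ := h3
  have hs : ¬ (p : ℤ) ∣ (s.factorial : ℤ) := by
    intro h
    have : p ∣ s.factorial := by exact_mod_cast h
    rw [hp.dvd_factorial] at this
    omega
  have hs0 : (s.factorial : ℚ) ≠ 0 := by
    have := Nat.factorial_ne_zero s
    positivity
  refine ⟨(c : ℚ) / (s.factorial : ℤ), PI.div_int hp (PI.int hp c) hs, ?_⟩
  have hc' := congrArg (Int.cast : ℤ → ℚ) hc
  push_cast at hc'
  push_cast
  field_simp
  linear_combination hc'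

/-- powers of binomials: sums modulo `p` (one polynomial in the numerator) -/
theorem sum_powers_cg {s m : ℕ} (hs : s ≤ p - 1) (hms : m * s < p - 1) (hm : 3 ≤ m) :
    Cg p 1 (∑ k ∈ range (p - 1 - s + 1), ((s + k).choose k : ℚ) ^ m) 0 := by
  have hp2 := hp.two_le
  have h1 := dvd_sum_range p hp (Q s ^ m) (by
    refine lt_of_le_of_lt (natDegree_pow_le) ?_
    exact lt_of_le_of_lt (Nat.mul_le_mul_left _ (natDegree_Q s)) hms)
  have h2 : ∑ k ∈ range p, (Q s ^ m).eval (k : ℤ)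
      = ∑ k ∈ range (p - 1 - s + 1), (Q s ^ m).eval (k : ℤ)
        + ∑ k ∈ range s, (Q s ^ m).eval ((p - 1 - s + 1 + k : ℕ) : ℤ) := by
    rw [← sum_range_add]
    congr 2
    omega
  have h3 : (p : ℤ) ∣ ∑ k ∈ range s, (Q s ^ m).eval ((p - 1 - s + 1 + k : ℕ) : ℤ) := by
    refine dvd_sum fun k hk => ?_
    rw [mem_range] at hk
    rw [eval_pow, eval_Q]
    refine dvd_pow ?_ (by omega)
    have hval : (((p - 1 - s + 1 + k : ℕ) : ℤ) + (((s - 1 - k : ℕ) : ℤ) + 1)) = p := by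
      have e1 : ((s - 1 - k : ℕ) : ℤ) = s - 1 - k := by
        rw [Nat.sub_sub, Nat.cast_sub (by omega)]; push_cast; ring
      have e2 : ((p - 1 - s : ℕ) : ℤ) = p - 1 - s := by
        rw [Nat.sub_sub, Nat.cast_sub (by omega)]; push_cast; ring
      push_cast
      rw [e1, e2]
      ring
    refine dvd_trans ?_ (dvd_prod_of_mem _ (mem_range.2 (show s - 1 - k < s by omega)))
    rw [hval]
  have h4 : (p : ℤ) ∣ ∑ k ∈ range (p - 1 - s + 1), (Q s ^ m).eval (k : ℤ) := by
    rw [h2] at h1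
    exact (dvd_add_left h3).1 h1
  have h5 : ∀ k : ℕ, (Q s ^ m).eval (k : ℤ) = ((s + k).choose k : ℤ) ^ m * (s.factorial : ℤ) ^ m := by
    intro k
    rw [eval_pow, eval_Q_nat, mul_pow]
  simp_rw [h5] at h4
  rw [← sum_mul] at h4
  have hs : ¬ (p : ℤ) ∣ (s.factorial : ℤ) ^ m := by
    intro h
    have h := (Nat.prime_iff_prime_int.1 hp).dvd_of_dvd_pow h
    have : p ∣ s.factorial := by exact_mod_cast h
    rw [hp.dvd_factorial] at this
    omega
  have h6 := ((Nat.prime_iff_prime_int.1 hp).dvd_or_dvd h4).resolve_right hs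
  have h7 := Cg.of_dvd hp (m := 1) (a := ∑ k ∈ range (p - 1 - s + 1), ((s + k).choose k : ℤ) ^ m)
    (b := 0) (by rw [pow_one, sub_zero]; exact h6)
  push_cast at h7
  exact h7

/-- powers of binomials over a square: sums modulo `p` -/
theorem sum_powers_div_cg {s m i : ℕ} (hi : i < s) (hms : m * s < p - 1) (hm : 3 ≤ m) :
    Cg p 1 (∑ k ∈ range (p - 1 - s + 1), ((s + k).choose k : ℚ) ^ m / ((k : ℚ) + 1 + i) ^ 2) 0 := by
  have hp2 := hp.two_le
  obtain ⟨m', rfl⟩ : ∃ m', m = m' + 2 := ⟨m - 2, by omega⟩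
  have hm' : 1 ≤ m' := by omega
  have hsp : s < p - 1 := by nlinarith
  set R : ℤ[X] := (∏ j ∈ (range s).erase i, (X + C ((j : ℤ) + 1))) ^ (m' + 2) *
    (X + C ((i : ℤ) + 1)) ^ m' with hR
  have hQR : Q s ^ (m' + 2) = R * (X + C ((i : ℤ) + 1)) ^ 2 := by
    have : Q s = (∏ j ∈ (range s).erase i, (X + C ((j : ℤ) + 1))) * (X + C ((i : ℤ) + 1)) := by
      unfold Q
      rw [prod_erase_mul _ _ (mem_range.2 hi)]
    rw [this, hR, mul_pow]
    ring
  have hdeg : R.natDegree < p - 1 := by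
    refine lt_of_le_of_lt (natDegree_mul_le) ?_
    have h1 : ((∏ j ∈ (range s).erase i, (X + C ((j : ℤ) + 1))) ^ (m' + 2) : ℤ[X]).natDegree
        ≤ (m' + 2) * (s - 1) := by
      refine natDegree_pow_le.trans (Nat.mul_le_mul_left _ ?_)
      refine (natDegree_prod_le _ _).trans ?_
      calc ∑ j ∈ (range s).erase i, (X + C ((j : ℤ) + 1)).natDegree
          ≤ ∑ j ∈ (range s).erase i, 1 := by
            refine sum_le_sum fun j _ => ?_
            rw [natDegree_X_add_C]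
        _ = s - 1 := by
            rw [sum_const, card_erase_of_mem (mem_range.2 hi), card_range]; simp
    have h2 : ((X + C ((i : ℤ) + 1)) ^ m' : ℤ[X]).natDegree ≤ m' := by
      refine natDegree_pow_le.trans ?_
      rw [natDegree_X_add_C]; simp
    obtain ⟨s', rfl⟩ : ∃ s', s = s' + 1 := ⟨s - 1, by omega⟩
    have : (m' + 2) * (s' + 1 - 1) + m' < p - 1 := by
      rw [Nat.add_sub_cancel]
      nlinarith
    omega
  have h1 := dvd_sum_range p hp R hdeg
  have h2 : ∑ k ∈ range p, R.eval (k : ℤ)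
      = ∑ k ∈ range (p - 1 - s + 1), R.eval (k : ℤ)
        + ∑ k ∈ range s, R.eval ((p - 1 - s + 1 + k : ℕ) : ℤ) := by
    rw [← sum_range_add]
    congr 2
    omega
  have h3 : (p : ℤ) ∣ ∑ k ∈ range s, R.eval ((p - 1 - s + 1 + k : ℕ) : ℤ) := by
    refine dvd_sum fun k hk => ?_
    rw [mem_range] at hk
    have hval : (((p - 1 - s + 1 + k : ℕ) : ℤ) + (((s - 1 - k : ℕ) : ℤ) + 1)) = p := by
      have e1 : ((s - 1 - k : ℕ) : ℤ) = s - 1 - k := by
        rw [Nat.sub_sub, Nat.cast_sub (by omega)]; push_cast; ring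
      have e2 : ((p - 1 - s : ℕ) : ℤ) = p - 1 - s := by
        rw [Nat.sub_sub, Nat.cast_sub (by omega)]; push_cast; ring
      push_cast
      rw [e1, e2]
      ring
    rw [hR, eval_mul, eval_pow, eval_pow, eval_prod]
    by_cases hik : i = s - 1 - k
    · apply Dvd.dvd.mul_left
      refine dvd_pow ?_ (by omega)
      rw [eval_add, eval_X, eval_C, hik, hval]
    · apply Dvd.dvd.mul_right
      refine dvd_pow ?_ (by omega)
      have hmem : s - 1 - k ∈ (range s).erase i :=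
        mem_erase.2 ⟨fun h => hik h.symm, mem_range.2 (by omega)⟩
      refine dvd_trans ?_ (dvd_prod_of_mem _ hmem)
      rw [eval_add, eval_X, eval_C, hval]
  have h4 : (p : ℤ) ∣ ∑ k ∈ range (p - 1 - s + 1), R.eval (k : ℤ) := by
    rw [h2] at h1
    exact (dvd_add_left h3).1 h1
  have hs : ¬ (p : ℤ) ∣ (s.factorial : ℤ) ^ (m' + 2) := by
    intro h
    have h := (Nat.prime_iff_prime_int.1 hp).dvd_of_dvd_pow h
    have : p ∣ s.factorial := by exact_mod_cast h
    rw [hp.dvd_factorial] at this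
    omega
  obtain ⟨c, hc⟩ := h4
  refine ⟨(c : ℚ) / ((s.factorial : ℤ) ^ (m' + 2) : ℤ), PI.div_int hp (PI.int hp c) (by exact_mod_cast hs), ?_⟩
  have hs0 : (s.factorial : ℚ) ^ (m' + 2) ≠ 0 := by
    have := Nat.factorial_ne_zero s
    positivity
  have hc' := congrArg (Int.cast : ℤ → ℚ) hc
  push_cast at hc'
  rw [sub_zero, pow_one]
  push_cast
  rw [← mul_div_assoc, eq_div_iff hs0, ← hc', sum_mul]
  refine sum_congr rfl fun k _ => ?_
  have e1 := congrArg (Polynomial.eval (k : ℤ)) hQR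
  rw [eval_pow, eval_Q_nat, eval_mul, eval_pow, eval_add, eval_X, eval_C, mul_pow] at e1
  have e2 := congrArg (Int.cast : ℤ → ℚ) e1
  push_cast at e2
  have e3 : ((k : ℚ) + 1 + i) ^ 2 ≠ 0 := by positivity
  rw [div_mul_eq_mul_div, div_eq_iff e3]
  rw [e2]
  ring

end padic

end Q277.MthPowers
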