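import Mathlib
import Pool.Agent.Q277.MthPowersTwo

/-!
# Sums of `m`-th powers of binomial coefficients modulo `p^3`: the main theorem
-/

open Finset Polynomial

namespace Q277.MthPowers

open Q277.PInt Q277.PolySums

section padic

variable {p : ℕ} (hp : p.Prime)
include hp

/-- the weighted sum of second order harmonic numbers vanishes modulo `p` -/
theorem claimC {s m : ℕ} (hms : m * s < p - 1) (hm : 3 ≤ m) (hev : Even (m * s)) (hp2 : p ≠ 2) :
    Cg p 1 (∑ k ∈ range (p - 1 - s + 1), ((s + k).choose k : ℚ) ^ m *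
      ∑ i ∈ range k, 1 / ((s : ℚ) + 1 + i) ^ 2) 0 := by
  have hp3 : 3 ≤ p := by have := hp.two_le; omega
  have hsp : s ≤ p - 1 := by nlinarith
  set n := p - 1 - s with hn
  set S := ∑ k ∈ range (n + 1), ((s + k).choose k : ℚ) ^ m *
      ∑ i ∈ range k, 1 / ((s : ℚ) + 1 + i) ^ 2 with hS
  -- the inner sums
  have hH : ∀ k, ∑ i ∈ range k, 1 / ((s : ℚ) + 1 + i) ^ 2 = H2 (s + k) - H2 s := by
    intro k; rw [H2_add]; ring
  -- reflected sum
  have h1 : S = ∑ k ∈ range (n + 1), ((s + (n - k)).choose (n - k) : ℚ) ^ m *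
      (H2 (s + (n - k)) - H2 s) := by
    rw [hS, ← sum_range_reflect]
    refine sum_congr rfl fun k hk => ?_
    have : n + 1 - 1 - k = n - k := by omega
    rw [this, hH]
  have h2 : Cg p 1 S (∑ k ∈ range (n + 1), ((s + k).choose k : ℚ) ^ m *
      (H2 (p - 1) - H2 k - H2 s)) := by
    rw [h1]
    refine Cg.sum hp _ _ _ fun k hk => ?_
    rw [mem_range] at hk
    have hc := C_reflect hp (s := s) (k := k) (by omega)
    rw [← hn] at hc
    have hPc : PI p ((-1) ^ s * ((s + k).choose k : ℚ)) :=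
      PI.mul hp (PI.pow hp (PI.neg (PI.one hp)) _) (PI.nat hp _)
    have hcm : Cg p 1 ((((s + (n - k)).choose (n - k) : ℕ) : ℚ) ^ m) (((s + k).choose k : ℚ) ^ m) := by
      have : ∀ e : ℕ, Cg p 1 ((((s + (n - k)).choose (n - k) : ℕ) : ℚ) ^ e)
          (((-1) ^ s * ((s + k).choose k : ℚ)) ^ e) := by
        intro e
        induction e with
        | zero => exact Cg.of_eq hp (by simp)
        | succ e ihe =>
          rw [pow_succ, pow_succ]
          exact Cg.mul hp ihe hc (PI.nat hp _) (PI.pow hp hPc _)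
      have h := this m
      rw [mul_pow, ← pow_mul, mul_comm s m, hev.neg_one_pow, one_mul] at h
      exact h
    have hr := H2_reflect hp (j := k) (by omega)
    have e1 : s + (n - k) = p - 1 - k := by omega
    rw [e1]
    rw [e1] at hcm
    refine Cg.mul hp hcm ?_ ?_ ?_
    · exact Cg.sub hp hr (Cg.refl 1 (H2 s) hp)
    · exact PI.sub hp (PI_H2 hp (by omega)) (PI_H2 hp (by omega))
    · exact PI.pow hp (PI.nat hp _) _
  -- twice the sum
  have h3 : Cg p 1 (2 * S) (∑ k ∈ range (n + 1), ((s + k).choose k : ℚ) ^ m *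
      ((H2 (s + k) - H2 k) + (H2 (p - 1) - 2 * H2 s))) := by
    have := Cg.add hp (Cg.refl 1 S hp) h2
    convert this using 1
    · ring
    · rw [hS, ← sum_add_distrib]
      refine sum_congr rfl fun k _ => ?_
      rw [hH]; ring
  have h4 : Cg p 1 (∑ k ∈ range (n + 1), ((s + k).choose k : ℚ) ^ m *
      ((H2 (s + k) - H2 k) + (H2 (p - 1) - 2 * H2 s))) 0 := by
    have e1 : ∑ k ∈ range (n + 1), ((s + k).choose k : ℚ) ^ m *
      ((H2 (s + k) - H2 k) + (H2 (p - 1) - 2 * H2 s))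
      = ∑ i ∈ range s, (∑ k ∈ range (n + 1), ((s + k).choose k : ℚ) ^ m / ((k : ℚ) + 1 + i) ^ 2)
        + (∑ k ∈ range (n + 1), ((s + k).choose k : ℚ) ^ m) * (H2 (p - 1) - 2 * H2 s) := by
      rw [sum_comm, sum_mul, ← sum_add_distrib]
      refine sum_congr rfl fun k _ => ?_
      rw [mul_add]
      congr 1
      have : H2 (s + k) - H2 k = ∑ i ∈ range s, 1 / ((k : ℚ) + 1 + i) ^ 2 := by
        rw [add_comm s k, H2_add]; ring
      rw [this, mul_sum]
      refine sum_congr rfl fun i _ => ?_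
      ring
    rw [e1]
    have g1 : Cg p 1 (∑ i ∈ range s, (∑ k ∈ range (n + 1), ((s + k).choose k : ℚ) ^ m /
        ((k : ℚ) + 1 + i) ^ 2)) (∑ i ∈ range s, 0) := by
      refine Cg.sum hp _ _ _ fun i hi => ?_
      rw [mem_range] at hi
      exact sum_powers_div_cg hp hi hms hm
    have g2 := Cg.mul_right hp (x := H2 (p - 1) - 2 * H2 s) (by
      refine PI.sub hp (PI_H2 hp (by omega)) (PI.mul hp ?_ (PI_H2 hp ?_))
      · have := PI.nat hp 2
        push_cast at this
        exact this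
      · have : s < p - 1 := by nlinarith
        omega) (sum_powers_cg hp hsp hms hm)
    have := Cg.add hp g1 g2
    simpa using this
  have h5 := Cg.trans hp h3 h4
  -- divide by two
  obtain ⟨c, hc, he⟩ := h5
  refine ⟨c / (2 : ℕ), PI.div_nat hp hc ?_, ?_⟩
  · intro h
    have := Nat.le_of_dvd (by norm_num) h
    omega
  · push_cast
    linear_combination he / 2

/-- the terms with large index vanish modulo `p^3` -/
theorem tail_term {s m k : ℕ} {z : ℚ} (hz : PI p z) (hm : 3 ≤ m) (hk1 : p - 1 - s < k) (hk2 : k < p)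
    (hs : s ≤ p - 1) :
    Cg p 3 (((∏ i ∈ range k, ((s : ℚ) + 1 + i - p * z)) / k.factorial) ^ m) 0 := by
  have hp2 := hp.two_le
  have hmem : p - 1 - s ∈ range k := mem_range.2 hk1
  have h1 : ∏ i ∈ range k, ((s : ℚ) + 1 + i - p * z)
      = p * ((1 - z) * ∏ i ∈ (range k).erase (p - 1 - s), ((s : ℚ) + 1 + i - p * z)) := by
    rw [← prod_erase_mul _ _ hmem]
    have : ((p - 1 - s : ℕ) : ℚ) = p - 1 - s := by
      rw [Nat.sub_sub, Nat.cast_sub (by omega)]; push_cast; ring
    rw [this]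
    ring
  obtain ⟨m', rfl⟩ : ∃ m', m = 3 + m' := ⟨m - 3, by omega⟩
  refine ⟨((1 - z) * (∏ i ∈ (range k).erase (p - 1 - s), ((s : ℚ) + 1 + i - p * z)) / k.factorial) ^ 3
    * ((∏ i ∈ range k, ((s : ℚ) + 1 + i - p * z)) / k.factorial) ^ m', ?_, ?_⟩
  · have hfac : ¬ p ∣ k.factorial := by
      rw [hp.dvd_factorial]; omega
    have hterm : ∀ i : ℕ, PI p ((s : ℚ) + 1 + i - p * z) := by
      intro i
      refine PI.sub hp ?_ (PI.mul hp (PI.nat hp p) hz)
      have := PI.nat hp (s + 1 + i)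
      push_cast at this
      exact this
    refine PI.mul hp (PI.pow hp (PI.div_nat hp (PI.mul hp (PI.sub hp (PI.one hp) hz) ?_) hfac) _)
      (PI.pow hp (PI.div_nat hp ?_ hfac) _)
    · exact PI.prod hp _ _ fun i _ => hterm i
    · exact PI.prod hp _ _ fun i _ => hterm i
  · rw [pow_add, sub_zero]
    conv_lhs => rw [h1]
    rw [h1]
    ring

/-- **Main congruence**, in the variable `z = 1/m`. -/
theorem main {s m : ℕ} {z : ℚ} (hz : PI p z) (hmz : (m : ℚ) * z = 1) (hms : m * s < p - 1)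
    (hm : 3 ≤ m) (hev : Even (m * s)) (hp2 : p ≠ 2) :
    Cg p 3 (∑ k ∈ range p, ((∏ i ∈ range k, ((s : ℚ) + 1 + i - p * z)) / k.factorial) ^ m) 0 := by
  have hp3 : 3 ≤ p := by have := hp.two_le; omega
  have hsp : s ≤ p - 1 := by nlinarith
  set n := p - 1 - s with hn
  set T : ℕ → ℚ := fun k => ((∏ i ∈ range k, ((s : ℚ) + 1 + i - p * z)) / k.factorial) ^ m with hT
  have h1 : ∑ k ∈ range p, T k = ∑ k ∈ range (n + 1), T k + ∑ k ∈ range s, T (n + 1 + k) := by
    rw [← sum_range_add]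
    congr 2
    omega
  have h2 : Cg p 3 (∑ k ∈ range s, T (n + 1 + k)) (∑ k ∈ range s, 0) := by
    refine Cg.sum hp _ _ _ fun k hk => ?_
    rw [mem_range] at hk
    exact tail_term hp hz hm (by omega) (by omega) hsp
  have h3 : ∀ k ∈ range (n + 1), Cg p 3 (T k)
      (((s + k).choose k : ℚ) ^ (m - 1) * ((-1) ^ k * (n.choose k : ℚ)) +
        (m.choose 2 : ℚ) * (p * z) ^ 2 * (((s + k).choose k : ℚ) ^ m *
        ∑ i ∈ range k, 1 / ((s : ℚ) + 1 + i) ^ 2)) := by
    intro k hk
    rw [mem_range] at hk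
    have hu : ∀ i < k, PI p (1 / ((s : ℚ) + 1 + i)) := fun i hi => PI_u hp (by omega)
    have h := (prod_cg hp hz m hmz (fun i => 1 / ((s : ℚ) + 1 + i)) k hu).2
    have e1 : T k = ((s + k).choose k : ℚ) ^ m *
        ∏ i ∈ range k, (1 - p * z * (1 / ((s : ℚ) + 1 + i))) ^ m := by
      rw [hT]
      simp only
      rw [prod_pow, ← mul_pow]
      congr 1
      have hf : (k.factorial : ℚ) ≠ 0 := by
        have := Nat.factorial_ne_zero k
        positivity
      rw [div_eq_iff hf, mul_assoc, mul_comm (∏ i ∈ range k, _), ← mul_assoc, ← asc_prod,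
        ← prod_mul_distrib]
      refine prod_congr rfl fun i _ => ?_
      have : ((s : ℚ) + 1 + i) ≠ 0 := by positivity
      field_simp
    have e2 : ((s + k).choose k : ℚ) ^ m * ∏ i ∈ range k, (1 - p * (1 / ((s : ℚ) + 1 + i)))
        = ((s + k).choose k : ℚ) ^ (m - 1) * ((-1) ^ k * (n.choose k : ℚ)) := by
      have hd := desc_prod n k (by omega)
      have ha := asc_prod s k
      have hf : (k.factorial : ℚ) ≠ 0 := by
        have := Nat.factorial_ne_zero k
        positivity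
      obtain ⟨m', rfl⟩ : ∃ m', m = m' + 1 := ⟨m - 1, by omega⟩
      rw [Nat.add_sub_cancel, pow_succ, mul_assoc]
      congr 1
      have e3 : (∏ i ∈ range k, ((s : ℚ) + 1 + i)) * ∏ i ∈ range k, (1 - p * (1 / ((s : ℚ) + 1 + i)))
          = (-1) ^ k * ∏ i ∈ range k, ((n : ℚ) - i) := by
        rw [← prod_mul_distrib]
        have : (-1 : ℚ) ^ k = ∏ _i ∈ range k, (-1 : ℚ) := by simp
        rw [this, ← prod_mul_distrib]
        refine prod_congr rfl fun i _ => ?_
        have hne : ((s : ℚ) + 1 + i) ≠ 0 := by positivity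
        have hnq : (n : ℚ) = p - 1 - s := by
          rw [hn, Nat.sub_sub, Nat.cast_sub (by omega)]; push_cast; ring
        rw [hnq]
        field_simp
        ring
      rw [ha, hd] at e3
      have : ((s + k).choose k : ℚ) * (∏ i ∈ range k, (1 - p * (1 / ((s : ℚ) + 1 + i)))) * k.factorial
          = (-1) ^ k * (n.choose k : ℚ) * k.factorial := by
        linear_combination e3
      exact mul_right_cancel₀ hf this
    rw [e1]
    have h' := Cg.mul_left hp (x := ((s + k).choose k : ℚ) ^ m) (PI.pow hp (PI.nat hp _) _) h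
    rw [mul_add, e2] at h'
    convert h' using 1
    have e4 : ∀ i : ℕ, (1 / ((s : ℚ) + 1 + i)) ^ 2 = 1 / ((s : ℚ) + 1 + i) ^ 2 := by
      intro i; rw [div_pow, one_pow]
    simp_rw [e4]
    ring
  have h4 := Cg.sum hp (range (n + 1)) _ _ h3
  rw [sum_add_distrib, ← mul_sum] at h4
  have h5 : ∑ k ∈ range (n + 1), ((s + k).choose k : ℚ) ^ (m - 1) * ((-1) ^ k * (n.choose k : ℚ)) = 0 := by
    have hlt : s * (m - 1) < n := by
      obtain ⟨m', rfl⟩ : ∃ m', m = m' + 1 := ⟨m - 1, by omega⟩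
      rw [Nat.add_sub_cancel]
      have : (m' + 1) * s = s * m' + s := by ring
      omega
    rw [← exact_zero s n (m - 1) hlt]
    refine sum_congr rfl fun k _ => ?_
    ring
  rw [h5, zero_add] at h4
  have h6 := claimC hp hms hm hev hp2
  rw [← hn] at h6
  have h7 : Cg p 3 ((m.choose 2 : ℚ) * (p * z) ^ 2 * ∑ k ∈ range (n + 1),
      (((s + k).choose k : ℚ) ^ m * ∑ i ∈ range k, 1 / ((s : ℚ) + 1 + i) ^ 2)) 0 := by
    obtain ⟨c, hc, he⟩ := h6
    refine ⟨(m.choose 2 : ℚ) * z ^ 2 * c, PI.mul hp (PI.mul hp (PI.nat hp _) (PI.pow hp hz _)) hc, ?_⟩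
    rw [sub_zero] at he
    rw [he]
    ring
  have h8 := Cg.add hp (Cg.trans hp h4 h7) h2
  rw [← h1] at h8
  simpa using h8

end padic

end Q277.MthPowers
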