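import Pool.Agent.Q61.ND.Stm

set_option autoImplicit false

/-!
Project ND (helper277): the chain rule for the coordinates `x = e^(-s) (cos θ, sin θ)`.
-/

open MeasureTheory Set Filter Topology Real

noncomputable section

namespace Pool.Agent.Q277.ND.Chn

open Pool.Agent.Q61.AD (P Q Per dt dx dy lap Tst D)
open Pool.Agent.Q61.ND

theorem dx_eq {g : P → ℝ} {x : P} (h : DifferentiableAt ℝ g x) : dx g x = fderiv ℝ g x (1, 0) := by
  have h1 : HasDerivAt (fun s : ℝ => (s, x.2)) ((1 : ℝ), (0 : ℝ)) x.1 :=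
    (hasDerivAt_id x.1).prodMk (hasDerivAt_const x.1 x.2)
  exact (h.hasFDerivAt.comp_hasDerivAt (f := fun s : ℝ => (s, x.2)) x.1 h1).deriv

theorem dy_eq {g : P → ℝ} {x : P} (h : DifferentiableAt ℝ g x) : dy g x = fderiv ℝ g x (0, 1) := by
  have h1 : HasDerivAt (fun s : ℝ => (x.1, s)) ((0 : ℝ), (1 : ℝ)) x.2 :=
    (hasDerivAt_const x.2 x.1).prodMk (hasDerivAt_id x.2)
  exact (h.hasFDerivAt.comp_hasDerivAt (f := fun s : ℝ => (x.1, s)) x.2 h1).deriv

theorem exp_deriv (t : ℝ) : HasDerivAt (fun s : ℝ => exp (-s)) (-exp (-t)) t := by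
  have h := (hasDerivAt_neg t).exp
  simpa using h

theorem X_ds (p : P) : HasDerivAt (fun s : ℝ => (EE (s, p.2)).1) (-(EE p).1) p.1 := by
  have h := (exp_deriv p.1).mul_const (cos p.2)
  unfold EE
  simpa using h

theorem Y_ds (p : P) : HasDerivAt (fun s : ℝ => (EE (s, p.2)).2) (-(EE p).2) p.1 := by
  have h := (exp_deriv p.1).mul_const (sin p.2)
  unfold EE
  simpa using h

theorem X_dt (p : P) : HasDerivAt (fun t : ℝ => (EE (p.1, t)).1) (-(EE p).2) p.2 := by
  have h := (hasDerivAt_cos p.2).const_mul (exp (-p.1))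
  unfold EE
  simpa using h

theorem Y_dt (p : P) : HasDerivAt (fun t : ℝ => (EE (p.1, t)).2) (EE p).1 p.2 := by
  have h := (hasDerivAt_sin p.2).const_mul (exp (-p.1))
  unfold EE
  simpa using h

theorem split (A : P →L[ℝ] ℝ) (a b : ℝ) : A (a, b) = a * A (1, 0) + b * A (0, 1) := by
  have h : ((a, b) : P) = a • ((1, 0) : P) + b • ((0, 1) : P) := by
    ext <;> simp
  rw [h, map_add, map_smul, map_smul, smul_eq_mul, smul_eq_mul]

theorem comp_ds {g : P → ℝ} {p : P} (h : DifferentiableAt ℝ g (EE p)) :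
    HasDerivAt (fun s : ℝ => g (EE (s, p.2)))
      (-((EE p).1 * dx g (EE p) + (EE p).2 * dy g (EE p))) p.1 := by
  have h1 : HasDerivAt (fun s : ℝ => EE (s, p.2)) (-(EE p).1, -(EE p).2) p.1 :=
    (X_ds p).prodMk (Y_ds p)
  have h2 := h.hasFDerivAt.comp_hasDerivAt (f := fun s : ℝ => EE (s, p.2)) p.1 h1
  rw [split, ← dx_eq h, ← dy_eq h] at h2
  refine h2.congr_deriv ?_
  ring

theorem comp_dt {g : P → ℝ} {p : P} (h : DifferentiableAt ℝ g (EE p)) :
    HasDerivAt (fun t : ℝ => g (EE (p.1, t)))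
      (-(EE p).2 * dx g (EE p) + (EE p).1 * dy g (EE p)) p.2 := by
  have h1 : HasDerivAt (fun t : ℝ => EE (p.1, t)) (-(EE p).2, (EE p).1) p.2 :=
    (X_dt p).prodMk (Y_dt p)
  have h2 := h.hasFDerivAt.comp_hasDerivAt (f := fun t : ℝ => EE (p.1, t)) p.2 h1
  rwa [split, ← dx_eq h, ← dy_eq h] at h2

theorem dx_comp {g : P → ℝ} (h : Differentiable ℝ g) :
    dx (g ∘ EE) = fun p => -((EE p).1 * dx g (EE p) + (EE p).2 * dy g (EE p)) := by
  funext p
  exact (comp_ds (h (EE p))).deriv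

theorem dy_comp {g : P → ℝ} (h : Differentiable ℝ g) :
    dy (g ∘ EE) = fun p => -(EE p).2 * dx g (EE p) + (EE p).1 * dy g (EE p) := by
  funext p
  exact (comp_dt (h (EE p))).deriv

theorem diff_dx {g : P → ℝ} (h : ContDiff ℝ 2 g) : Differentiable ℝ (dx g) := by
  have h1 : dx g = fun x => fderiv ℝ g x (1, 0) := by
    funext x
    exact dx_eq ((h.differentiable (by norm_num)) x)
  rw [h1]
  have h2 : ContDiff ℝ 1 (fun x => fderiv ℝ g x) := h.fderiv_right (by norm_num)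
  exact (h2.differentiable (by norm_num)).clm_apply (differentiable_const _)

theorem diff_dy {g : P → ℝ} (h : ContDiff ℝ 2 g) : Differentiable ℝ (dy g) := by
  have h1 : dy g = fun x => fderiv ℝ g x (0, 1) := by
    funext x
    exact dy_eq ((h.differentiable (by norm_num)) x)
  rw [h1]
  have h2 : ContDiff ℝ 1 (fun x => fderiv ℝ g x) := h.fderiv_right (by norm_num)
  exact (h2.differentiable (by norm_num)).clm_apply (differentiable_const _)

theorem sq_EE (p : P) : (EE p).1 ^ 2 + (EE p).2 ^ 2 = exp (-2 * p.1) := by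
  have h2 : exp (-2 * p.1) = exp (-p.1) * exp (-p.1) := by
    rw [← exp_add]
    congr 1
    ring
  unfold EE
  rw [h2]
  simp only
  linear_combination (exp (-p.1) * exp (-p.1)) * (sin_sq_add_cos_sq p.2)

theorem lap_comp {g : P → ℝ} (h : ContDiff ℝ 2 g) (p : P) :
    lap (g ∘ EE) p = exp (-2 * p.1) * lap g (EE p) := by
  have hg : Differentiable ℝ g := h.differentiable (by norm_num)
  have hψ := diff_dx h
  have hχ := diff_dy h
  unfold lap
  rw [dx_comp hg, dy_comp hg]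
  have e1 : dx (fun p => -((EE p).1 * dx g (EE p) + (EE p).2 * dy g (EE p))) p =
      -((-(EE p).1) * dx g (EE p) +
          (EE p).1 * (-((EE p).1 * dx (dx g) (EE p) + (EE p).2 * dy (dx g) (EE p))) +
        ((-(EE p).2) * dy g (EE p) +
          (EE p).2 * (-((EE p).1 * dx (dy g) (EE p) + (EE p).2 * dy (dy g) (EE p))))) :=
    ((((X_ds p).mul (comp_ds (hψ (EE p)))).add ((Y_ds p).mul (comp_ds (hχ (EE p))))).neg).deriv
  have e2 : dy (fun p => -(EE p).2 * dx g (EE p) + (EE p).1 * dy g (EE p)) p =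
      (-(EE p).1) * dx g (EE p) +
          (-(EE p).2) * (-(EE p).2 * dx (dx g) (EE p) + (EE p).1 * dy (dx g) (EE p)) +
        ((-(EE p).2) * dy g (EE p) +
          (EE p).1 * (-(EE p).2 * dx (dy g) (EE p) + (EE p).1 * dy (dy g) (EE p))) :=
    (((Y_dt p).neg.mul (comp_dt (hψ (EE p)))).add ((X_dt p).mul (comp_dt (hχ (EE p))))).deriv
  rw [e1, e2, ← sq_EE]
  ring

theorem chn : S_chn := by
  intro η φ h p
  have hg : Differentiable ℝ φ := h.differentiable (by norm_num)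
  refine ⟨congrFun (dx_comp hg) p, congrFun (dy_comp hg) p, lap_comp h p, ?_⟩
  have hrs : rs (EE p) = exp (-2 * p.1) := sq_EE p
  have hls : ls (EE p) = p.1 := by
    unfold ls
    rw [hrs, log_exp]
    ring
  have hE : exp (-2 * p.1) = exp (-p.1) ^ 2 := by
    rw [← exp_nat_mul]
    congr 1
    push_cast
    ring
  unfold GG LL bb
  rw [lap_comp h p, dx_comp hg, dy_comp hg, hrs, hls, hE, cos_two_mul, sin_two_mul]
  have hne : exp (-p.1) ≠ 0 := (exp_pos _).ne'
  have hc : cos p.2 ^ 2 = 1 - sin p.2 ^ 2 := by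
    have := sin_sq_add_cos_sq p.2
    linarith
  have hX : (EE p).1 = exp (-p.1) * cos p.2 := rfl
  have hY : (EE p).2 = exp (-p.1) * sin p.2 := rfl
  beta_reduce
  rw [hX, hY]
  have k1 : (2 * cos p.2 ^ 2 - 1) = cos p.2 ^ 2 - sin p.2 ^ 2 := by
    rw [hc]
    ring
  rw [k1]
  field_simp
  ring

end Pool.Agent.Q277.ND.Chn
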