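import Pool.Agent.Q61.ND.Stm

set_option autoImplicit false

/-!
Project ND (helper277): the Lax-Milgram theorem of Lions on the torus.
-/

open MeasureTheory Set Filter Topology Real

noncomputable section

namespace Pool.Agent.Q277.ND.Lax

open Pool.Agent.Q61.AD (P Q Per dt dx dy lap Tst D)
open Pool.Agent.Q61.ND

instance instFin : IsFiniteMeasure (volume.restrict Q) := ⟨by
  rw [Measure.restrict_apply_univ]
  unfold Q
  rw [Measure.volume_eq_prod, Measure.prod_prod]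
  simp⟩

theorem measurableSet_Q : MeasurableSet Q := measurableSet_Ico.prod measurableSet_Ico

/-! ### smooth periodic functions -/

theorem dx_eq {g : P → ℝ} {x : P} (h : DifferentiableAt ℝ g x) : dx g x = fderiv ℝ g x (1, 0) := by
  have h1 : HasDerivAt (fun s : ℝ => (s, x.2)) ((1 : ℝ), (0 : ℝ)) x.1 :=
    (hasDerivAt_id x.1).prodMk (hasDerivAt_const x.1 x.2)
  exact (h.hasFDerivAt.comp_hasDerivAt (f := fun s : ℝ => (s, x.2)) x.1 h1).deriv

theorem dy_eq {g : P → ℝ} {x : P} (h : DifferentiableAt ℝ g x) : dy g x = fderiv ℝ g x (0, 1) := by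
  have h1 : HasDerivAt (fun s : ℝ => (x.1, s)) ((0 : ℝ), (1 : ℝ)) x.2 :=
    (hasDerivAt_const x.2 x.1).prodMk (hasDerivAt_id x.2)
  exact (h.hasFDerivAt.comp_hasDerivAt (f := fun s : ℝ => (x.1, s)) x.2 h1).deriv

theorem SP_diff {ψ : P → ℝ} (h : SP ψ) : Differentiable ℝ ψ := h.1.differentiable (by simp)

theorem SP_dx {ψ : P → ℝ} (h : SP ψ) : SP (dx ψ) := by
  constructor
  · have h1 : dx ψ = fun x => fderiv ℝ ψ x (1, 0) := by
      funext x
      exact dx_eq (SP_diff h x)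
    rw [h1]
    have h2 : ContDiff ℝ (⊤ : ℕ∞) (fun x => fderiv ℝ ψ x) := h.1.fderiv_right (by simp)
    exact h2.clm_apply contDiff_const
  · intro x y
    constructor
    · show deriv (fun s => ψ (s, y)) (x + 1) = deriv (fun s => ψ (s, y)) x
      rw [← deriv_comp_add_const]
      congr 1
      funext s
      exact (h.2 s y).1
    · show deriv (fun s => ψ (s, y + 1)) x = deriv (fun s => ψ (s, y)) x
      congr 1
      funext s
      exact (h.2 s y).2

theorem SP_dy {ψ : P → ℝ} (h : SP ψ) : SP (dy ψ) := by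
  constructor
  · have h1 : dy ψ = fun x => fderiv ℝ ψ x (0, 1) := by
      funext x
      exact dy_eq (SP_diff h x)
    rw [h1]
    have h2 : ContDiff ℝ (⊤ : ℕ∞) (fun x => fderiv ℝ ψ x) := h.1.fderiv_right (by simp)
    exact h2.clm_apply contDiff_const
  · intro x y
    constructor
    · show deriv (fun s => ψ (x + 1, s)) y = deriv (fun s => ψ (x, s)) y
      congr 1
      funext s
      exact (h.2 x s).1
    · show deriv (fun s => ψ (x, s)) (y + 1) = deriv (fun s => ψ (x, s)) y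
      rw [← deriv_comp_add_const]
      congr 1
      funext s
      exact (h.2 x s).2

theorem SP_add {ψ φ : P → ℝ} (h : SP ψ) (h' : SP φ) : SP (ψ + φ) := by
  refine ⟨h.1.add h'.1, fun x y => ⟨?_, ?_⟩⟩
  · simp only [Pi.add_apply, (h.2 x y).1, (h'.2 x y).1]
  · simp only [Pi.add_apply, (h.2 x y).2, (h'.2 x y).2]

theorem SP_mul {ψ φ : P → ℝ} (h : SP ψ) (h' : SP φ) : SP (fun x => ψ x * φ x) := by
  refine ⟨h.1.mul h'.1, fun x y => ⟨?_, ?_⟩⟩
  · simp only [(h.2 x y).1, (h'.2 x y).1]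
  · simp only [(h.2 x y).2, (h'.2 x y).2]

theorem SP_smul {ψ : P → ℝ} (c : ℝ) (h : SP ψ) : SP (c • ψ) := by
  refine ⟨contDiff_const.smul h.1, fun x y => ⟨?_, ?_⟩⟩
  · simp only [Pi.smul_apply, (h.2 x y).1]
  · simp only [Pi.smul_apply, (h.2 x y).2]

theorem SP_zero : SP (0 : P → ℝ) := ⟨contDiff_const, fun _ _ => ⟨rfl, rfl⟩⟩

/-- the space of the smooth periodic functions -/
def SPs : Submodule ℝ (P → ℝ) where
  carrier := {ψ | SP ψ}
  add_mem' h h' := SP_add h h'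
  zero_mem' := SP_zero
  smul_mem' c _ h := SP_smul c h

theorem hasD_dx {ψ : P → ℝ} (h : SP ψ) (x : P) :
    HasDerivAt (fun s => ψ (s, x.2)) (dx ψ x) x.1 := by
  have h1 : HasDerivAt (fun s : ℝ => (s, x.2)) ((1 : ℝ), (0 : ℝ)) x.1 :=
    (hasDerivAt_id x.1).prodMk (hasDerivAt_const x.1 x.2)
  have h2 := (SP_diff h x).hasFDerivAt.comp_hasDerivAt (f := fun s : ℝ => (s, x.2)) x.1 h1
  rw [dx_eq (SP_diff h x)]
  exact h2

theorem hasD_dy {ψ : P → ℝ} (h : SP ψ) (x : P) :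
    HasDerivAt (fun s => ψ (x.1, s)) (dy ψ x) x.2 := by
  have h1 : HasDerivAt (fun s : ℝ => (x.1, s)) ((0 : ℝ), (1 : ℝ)) x.2 :=
    (hasDerivAt_const x.2 x.1).prodMk (hasDerivAt_id x.2)
  have h2 := (SP_diff h x).hasFDerivAt.comp_hasDerivAt (f := fun s : ℝ => (x.1, s)) x.2 h1
  rw [dy_eq (SP_diff h x)]
  exact h2

theorem dx_add {ψ φ : P → ℝ} (h : SP ψ) (h' : SP φ) : dx (ψ + φ) = dx ψ + dx φ := by
  funext x
  exact ((hasD_dx h x).add (hasD_dx h' x)).deriv

theorem dy_add {ψ φ : P → ℝ} (h : SP ψ) (h' : SP φ) : dy (ψ + φ) = dy ψ + dy φ := by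
  funext x
  exact ((hasD_dy h x).add (hasD_dy h' x)).deriv

theorem dx_smul {ψ : P → ℝ} (c : ℝ) (h : SP ψ) : dx (c • ψ) = c • dx ψ := by
  funext x
  exact ((hasD_dx h x).const_mul c).deriv

theorem dy_smul {ψ : P → ℝ} (c : ℝ) (h : SP ψ) : dy (c • ψ) = c • dy ψ := by
  funext x
  exact ((hasD_dy h x).const_mul c).deriv

theorem dx_mul {ψ φ : P → ℝ} (h : SP ψ) (h' : SP φ) :
    dx (fun x => ψ x * φ x) = fun x => dx ψ x * φ x + ψ x * dx φ x := by
  funext x
  exact ((hasD_dx h x).mul (hasD_dx h' x)).deriv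

theorem dy_mul {ψ φ : P → ℝ} (h : SP ψ) (h' : SP φ) :
    dy (fun x => ψ x * φ x) = fun x => dy ψ x * φ x + ψ x * dy φ x := by
  funext x
  exact ((hasD_dy h x).mul (hasD_dy h' x)).deriv

theorem SP_bdd {ψ : P → ℝ} (h : SP ψ) : ∃ C : ℝ, ∀ x ∈ Q, ‖ψ x‖ ≤ C := by
  obtain ⟨C, hC⟩ := ((isCompact_Icc (a := (0 : ℝ)) (b := 1)).prod
    (isCompact_Icc (a := (0 : ℝ)) (b := 1))).exists_bound_of_continuousOn
      h.1.continuous.continuousOn
  exact ⟨C, fun x hx => hC x ⟨Ico_subset_Icc_self hx.1, Ico_subset_Icc_self hx.2⟩⟩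

theorem SP_memLp {ψ : P → ℝ} (h : SP ψ) : MemLp ψ 2 (volume.restrict Q) := by
  obtain ⟨C, hC⟩ := SP_bdd h
  exact MemLp.of_bound h.1.continuous.aestronglyMeasurable C
    ((ae_restrict_iff' measurableSet_Q).2 (.of_forall hC))

theorem SP_int {ψ : P → ℝ} (h : SP ψ) : Integrable ψ (volume.restrict Q) :=
  (SP_memLp h).integrable (by norm_num)

/-! ### integration by parts -/

theorem restrict_Q : (volume.restrict Q : Measure P) =
    (volume.restrict (Ico (0 : ℝ) 1)).prod (volume.restrict (Ico (0 : ℝ) 1)) :=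
  (Measure.prod_restrict _ _).symm

theorem int_dx {g : P → ℝ} (h : SP g) : ∫ x in Q, dx g x = 0 := by
  have hi := SP_int (SP_dx h)
  rw [restrict_Q] at hi ⊢
  rw [integral_prod_symm _ hi]
  have h0 : ∀ y : ℝ, ∫ x in Ico (0 : ℝ) 1, dx g (x, y) = 0 := by
    intro y
    rw [integral_Ico_eq_integral_Ioc, ← intervalIntegral.integral_of_le zero_le_one,
      intervalIntegral.integral_eq_sub_of_hasDerivAt (f := fun s => g (s, y))
        (fun x _ => hasD_dx h (x, y))]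
    · have := (h.2 0 y).1
      rw [zero_add] at this
      rw [this, sub_self]
    · have hc : Continuous fun x : ℝ => dx g (x, y) :=
        (SP_dx h).1.continuous.comp (by fun_prop)
      exact hc.intervalIntegrable _ _
  simp only [h0, integral_zero]

theorem int_dy {g : P → ℝ} (h : SP g) : ∫ x in Q, dy g x = 0 := by
  have hi := SP_int (SP_dy h)
  rw [restrict_Q] at hi ⊢
  rw [integral_prod _ hi]
  have h0 : ∀ x : ℝ, ∫ y in Ico (0 : ℝ) 1, dy g (x, y) = 0 := by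
    intro x
    rw [integral_Ico_eq_integral_Ioc, ← intervalIntegral.integral_of_le zero_le_one,
      intervalIntegral.integral_eq_sub_of_hasDerivAt (f := fun s => g (x, s))
        (fun y _ => hasD_dy h (x, y))]
    · have := (h.2 x 0).2
      rw [zero_add] at this
      rw [this, sub_self]
    · have hc : Continuous fun y : ℝ => dy g (x, y) :=
        (SP_dy h).1.continuous.comp (by fun_prop)
      exact hc.intervalIntegrable _ _
  simp only [h0, integral_zero]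

theorem ibp_dx {ψ φ : P → ℝ} (h : SP ψ) (h' : SP φ) :
    (∫ x in Q, dx ψ x * φ x) + ∫ x in Q, ψ x * dx φ x = 0 := by
  rw [← integral_add (SP_int (SP_mul (SP_dx h) h')) (SP_int (SP_mul h (SP_dx h')))]
  have h1 := int_dx (SP_mul h h')
  rwa [dx_mul h h'] at h1

theorem ibp_dy {ψ φ : P → ℝ} (h : SP ψ) (h' : SP φ) :
    (∫ x in Q, dy ψ x * φ x) + ∫ x in Q, ψ x * dy φ x = 0 := by
  rw [← integral_add (SP_int (SP_mul (SP_dy h) h')) (SP_int (SP_mul h (SP_dy h')))]
  have h1 := int_dy (SP_mul h h')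
  rwa [dy_mul h h'] at h1

/-! ### the Hilbert space -/

/-- square integrable functions on the torus -/
abbrev L2 : Type := Lp ℝ 2 (volume.restrict Q : Measure P)

/-- triples -/
abbrev HH : Type := PiLp 2 (fun _ : Fin 3 => L2)

open Classical in
/-- the class of a function -/
def T (g : P → ℝ) : L2 := if h : MemLp g 2 (volume.restrict Q) then h.toLp g else 0

theorem T_coe {g : P → ℝ} (h : MemLp g 2 (volume.restrict Q)) :
    (T g : P → ℝ) =ᵐ[volume.restrict Q] g := by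
  unfold T
  rw [dif_pos h]
  exact h.coeFn_toLp

theorem T_add {g g' : P → ℝ} (h : MemLp g 2 (volume.restrict Q))
    (h' : MemLp g' 2 (volume.restrict Q)) : T (g + g') = T g + T g' := by
  unfold T
  rw [dif_pos h, dif_pos h', dif_pos (h.add h')]
  exact MemLp.toLp_add h h'

theorem T_smul {g : P → ℝ} (c : ℝ) (h : MemLp g 2 (volume.restrict Q)) :
    T (c • g) = c • T g := by
  unfold T
  rw [dif_pos h, dif_pos (h.const_smul c)]
  exact MemLp.toLp_const_smul c h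

theorem T_congr {g g' : P → ℝ} (h : MemLp g 2 (volume.restrict Q))
    (h' : g =ᵐ[volume.restrict Q] g') : T g = T g' := by
  have h2 : MemLp g' 2 (volume.restrict Q) := h.ae_eq h'
  unfold T
  rw [dif_pos h, dif_pos h2]
  exact MemLp.toLp_congr h h2 h'

theorem T_inner (u : L2) {g : P → ℝ} (h : MemLp g 2 (volume.restrict Q)) :
    inner ℝ u (T g) = ∫ x in Q, u x * g x := by
  rw [L2.inner_def]
  refine integral_congr_ae ?_
  filter_upwards [T_coe h] with x hx
  rw [hx, RCLike.inner_apply, conj_trivial, mul_comm]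

/-- the triple -/
def mk (a b c : L2) : HH := WithLp.toLp 2 ![a, b, c]

theorem mk_inner (u : HH) (a b c : L2) :
    inner ℝ u (mk a b c) = inner ℝ (u 0) a + inner ℝ (u 1) b + inner ℝ (u 2) c := by
  rw [PiLp.inner_apply, Fin.sum_univ_three]
  rfl

theorem mk_add (a b c a' b' c' : L2) : mk (a + a') (b + b') (c + c') = mk a b c + mk a' b' c' := by
  ext i : 1
  fin_cases i <;> rfl

theorem mk_smul (r : ℝ) (a b c : L2) : mk (r • a) (r • b) (r • c) = r • mk a b c := by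
  ext i : 1
  fin_cases i <;> rfl

/-- the map `ψ ↦ (ψ, ψ_x, ψ_y)` -/
def J : SPs →ₗ[ℝ] HH where
  toFun ψ := mk (T ψ) (T (dx ψ)) (T (dy ψ))
  map_add' ψ φ := by
    rw [← mk_add]
    have h1 : SP ψ := ψ.2
    have h2 : SP φ := φ.2
    rw [Submodule.coe_add, dx_add h1 h2, dy_add h1 h2, T_add (SP_memLp h1) (SP_memLp h2),
      T_add (SP_memLp (SP_dx h1)) (SP_memLp (SP_dx h2)),
      T_add (SP_memLp (SP_dy h1)) (SP_memLp (SP_dy h2))]
  map_smul' c ψ := by
    rw [RingHom.id_apply, ← mk_smul]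
    have h1 : SP ψ := ψ.2
    rw [Submodule.coe_smul, dx_smul c h1, dy_smul c h1, T_smul c (SP_memLp h1),
      T_smul c (SP_memLp (SP_dx h1)), T_smul c (SP_memLp (SP_dy h1))]

/-- `ψ - b·∇ψ` -/
def F (b : P → P) (ψ : P → ℝ) (x : P) : ℝ := ψ x - ((b x).1 * dx ψ x + (b x).2 * dy ψ x)

theorem drift_memLp {b : P → P} (hm : Measurable b) (hb : MemLp b 2 (volume.restrict Q))
    {ψ : P → ℝ} (h : SP ψ) :
    MemLp (fun x => (b x).1 * dx ψ x + (b x).2 * dy ψ x) 2 (volume.restrict Q) := by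
  obtain ⟨C1, h1⟩ := SP_bdd (SP_dx h)
  obtain ⟨C2, h2⟩ := SP_bdd (SP_dy h)
  refine MemLp.of_le_mul (c := C1 + C2) hb ?_ ((ae_restrict_iff' measurableSet_Q).2
    (.of_forall fun x hx => ?_))
  · exact ((hm.fst.mul (SP_dx h).1.continuous.measurable).add
      (hm.snd.mul (SP_dy h).1.continuous.measurable)).aestronglyMeasurable
  · have e1 : ‖(b x).1‖ ≤ ‖b x‖ := norm_fst_le _
    have e2 : ‖(b x).2‖ ≤ ‖b x‖ := norm_snd_le _
    calc ‖(b x).1 * dx ψ x + (b x).2 * dy ψ x‖ ≤ ‖(b x).1 * dx ψ x‖ + ‖(b x).2 * dy ψ x‖ :=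
          norm_add_le _ _
      _ ≤ ‖b x‖ * C1 + ‖b x‖ * C2 := by
          rw [norm_mul, norm_mul]
          exact add_le_add (mul_le_mul e1 (h1 x hx) (norm_nonneg _) (norm_nonneg _))
            (mul_le_mul e2 (h2 x hx) (norm_nonneg _) (norm_nonneg _))
      _ = (C1 + C2) * ‖b x‖ := by ring

theorem F_memLp {b : P → P} (hm : Measurable b) (hb : MemLp b 2 (volume.restrict Q))
    {ψ : P → ℝ} (h : SP ψ) : MemLp (F b ψ) 2 (volume.restrict Q) :=
  (SP_memLp h).sub (drift_memLp hm hb h)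

/-- the map `ψ ↦ (ψ - b·∇ψ, ψ_x, ψ_y)` -/
def K0 (b : P → P) (hm : Measurable b) (hb : MemLp b 2 (volume.restrict Q)) : SPs →ₗ[ℝ] HH where
  toFun ψ := mk (T (F b ψ)) (T (dx ψ)) (T (dy ψ))
  map_add' ψ φ := by
    rw [← mk_add]
    have h1 : SP ψ := ψ.2
    have h2 : SP φ := φ.2
    have h3 : F b (ψ + φ : P → ℝ) = F b ψ + F b φ := by
      funext x
      simp only [F, dx_add h1 h2, dy_add h1 h2, Pi.add_apply]
      ring
    rw [Submodule.coe_add, h3, dx_add h1 h2, dy_add h1 h2,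
      T_add (F_memLp hm hb h1) (F_memLp hm hb h2),
      T_add (SP_memLp (SP_dx h1)) (SP_memLp (SP_dx h2)),
      T_add (SP_memLp (SP_dy h1)) (SP_memLp (SP_dy h2))]
  map_smul' c ψ := by
    rw [RingHom.id_apply, ← mk_smul]
    have h1 : SP ψ := ψ.2
    have h3 : F b (c • (ψ : P → ℝ)) = c • F b ψ := by
      funext x
      simp only [F, dx_smul c h1, dy_smul c h1, Pi.smul_apply, smul_eq_mul]
      ring
    rw [Submodule.coe_smul, h3, dx_smul c h1, dy_smul c h1, T_smul c (F_memLp hm hb h1),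
      T_smul c (SP_memLp (SP_dx h1)), T_smul c (SP_memLp (SP_dy h1))]

theorem T_zero : T 0 = 0 := by
  have h := T_smul 0 (SP_memLp SP_zero)
  rwa [zero_smul, zero_smul] at h

theorem mk_zero : mk 0 0 0 = 0 := by
  ext i : 1
  fin_cases i <;> rfl

theorem ker_le (b : P → P) (hm : Measurable b) (hb : MemLp b 2 (volume.restrict Q)) :
    LinearMap.ker J ≤ LinearMap.ker (K0 b hm hb) := by
  intro ψ hψ
  rw [LinearMap.mem_ker] at hψ ⊢
  have h1 : SP ψ := ψ.2
  have e0 : T (ψ : P → ℝ) = 0 := congrArg (fun u : HH => u 0) hψ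
  have e1 : T (dx (ψ : P → ℝ)) = 0 := congrArg (fun u : HH => u 1) hψ
  have e2 : T (dy (ψ : P → ℝ)) = 0 := congrArg (fun u : HH => u 2) hψ
  have a0 := T_coe (SP_memLp h1)
  have a1 := T_coe (SP_memLp (SP_dx h1))
  have a2 := T_coe (SP_memLp (SP_dy h1))
  rw [e0] at a0
  rw [e1] at a1
  rw [e2] at a2
  have hF : F b ψ =ᵐ[volume.restrict Q] (0 : P → ℝ) := by
    filter_upwards [a0, a1, a2, Lp.coeFn_zero ℝ 2 (volume.restrict Q : Measure P)] with x h0 h1 h2 h3
    rw [h3] at h0 h1 h2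
    unfold F
    rw [← h0, ← h1, ← h2]
    simp
  show mk (T (F b ψ)) (T (dx (ψ : P → ℝ))) (T (dy (ψ : P → ℝ))) = 0
  rw [T_congr (F_memLp hm hb h1) hF, e1, e2, T_zero, mk_zero]

theorem J_inner (ψ : SPs) {g0 g1 g2 : P → ℝ} (h0 : MemLp g0 2 (volume.restrict Q))
    (h1 : MemLp g1 2 (volume.restrict Q)) (h2 : MemLp g2 2 (volume.restrict Q)) :
    inner ℝ (J ψ) (mk (T g0) (T g1) (T g2)) =
      (∫ x in Q, (ψ : P → ℝ) x * g0 x) + (∫ x in Q, dx ψ x * g1 x) + ∫ x in Q, dy ψ x * g2 x := by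
  have h : SP ψ := ψ.2
  rw [mk_inner, T_inner _ h0, T_inner _ h1, T_inner _ h2]
  congr 1
  · congr 1
    · refine integral_congr_ae ?_
      filter_upwards [T_coe (SP_memLp h)] with x hx
      rw [← hx]
      rfl
    · refine integral_congr_ae ?_
      filter_upwards [T_coe (SP_memLp (SP_dx h))] with x hx
      rw [← hx]
      rfl
  · refine integral_congr_ae ?_
    filter_upwards [T_coe (SP_memLp (SP_dy h))] with x hx
    rw [← hx]
    rfl

theorem J_norm (ψ : SPs) : ‖J ψ‖ ^ 2 =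
    ∫ x in Q, ((ψ : P → ℝ) x ^ 2 + dx ψ x ^ 2 + dy ψ x ^ 2) := by
  have h : SP ψ := ψ.2
  rw [← real_inner_self_eq_norm_sq]
  have e := J_inner ψ (SP_memLp h) (SP_memLp (SP_dx h)) (SP_memLp (SP_dy h))
  have e2 : J ψ = mk (T (ψ : P → ℝ)) (T (dx (ψ : P → ℝ))) (T (dy (ψ : P → ℝ))) := rfl
  rw [← e2] at e
  rw [e, ← integral_add (SP_int (SP_mul h h)) (SP_int (SP_mul (SP_dx h) (SP_dx h))),
    ← integral_add]
  · refine integral_congr_ae (.of_forall fun x => ?_)
    simp only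
    ring
  · exact (SP_int (SP_mul h h)).add (SP_int (SP_mul (SP_dx h) (SP_dx h)))
  · exact SP_int (SP_mul (SP_dy h) (SP_dy h))

theorem drift_zero {b : P → P}
    (hdiv : ∀ ψ : P → ℝ, SP ψ → ∫ x in Q, ((b x).1 * dx ψ x + (b x).2 * dy ψ x) = 0)
    {ψ : P → ℝ} (h : SP ψ) :
    ∫ x in Q, ψ x * ((b x).1 * dx ψ x + (b x).2 * dy ψ x) = 0 := by
  have h1 := hdiv _ (SP_mul h h)
  rw [dx_mul h h, dy_mul h h] at h1
  have h2 : ∫ x in Q, ((b x).1 * (dx ψ x * ψ x + ψ x * dx ψ x) +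
      (b x).2 * (dy ψ x * ψ x + ψ x * dy ψ x)) =
      2 * ∫ x in Q, ψ x * ((b x).1 * dx ψ x + (b x).2 * dy ψ x) := by
    rw [← integral_const_mul]
    refine integral_congr_ae (.of_forall fun x => ?_)
    simp only
    ring
  rw [h2] at h1
  linarith

theorem lax (h : S_lio) : S_lax := by
  intro b hm _ hb2 hdiv f fadd fsmul hC
  obtain ⟨C, hC⟩ := hC
  have hb : MemLp b 2 (volume.restrict Q) :=
    (memLp_two_iff_integrable_sq_norm hm.aestronglyMeasurable).2 hb2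
  let f0 : SPs →ₗ[ℝ] ℝ :=
    { toFun := fun ψ => f ψ
      map_add' := fun ψ φ => fadd ψ φ ψ.2 φ.2
      map_smul' := fun c ψ => fsmul c ψ ψ.2 }
  have hkK := ker_le b hm hb
  have hkf : LinearMap.ker J ≤ LinearMap.ker f0 := by
    intro ψ hψ
    rw [LinearMap.mem_ker] at hψ ⊢
    have h1 := hC ψ ψ.2
    rw [← J_norm ψ, hψ, norm_zero] at h1
    have h2 : f ψ ^ 2 ≤ 0 := by linarith
    exact pow_eq_zero_iff (two_ne_zero) |>.1 (le_antisymm h2 (sq_nonneg _))
  let K : LinearMap.range J →ₗ[ℝ] HH :=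
    ((LinearMap.ker J).liftQ (K0 b hm hb) hkK).comp J.quotKerEquivRange.symm.toLinearMap
  let f1 : LinearMap.range J →ₗ[ℝ] ℝ :=
    ((LinearMap.ker J).liftQ f0 hkf).comp J.quotKerEquivRange.symm.toLinearMap
  have K_apply : ∀ ψ : SPs, K ⟨J ψ, LinearMap.mem_range_self J ψ⟩ = K0 b hm hb ψ := by
    intro ψ
    simp only [K, LinearMap.comp_apply, LinearEquiv.coe_coe,
      LinearMap.quotKerEquivRange_symm_apply_image, Submodule.mkQ_apply, Submodule.liftQ_apply]
  have f_apply : ∀ ψ : SPs, f1 ⟨J ψ, LinearMap.mem_range_self J ψ⟩ = f ψ := by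
    intro ψ
    simp only [f1, LinearMap.comp_apply, LinearEquiv.coe_coe,
      LinearMap.quotKerEquivRange_symm_apply_image, Submodule.mkQ_apply, Submodule.liftQ_apply]
    rfl
  obtain ⟨u, hu, hf⟩ := h HH (LinearMap.range J) K f1 (√(max C 0)) (by
    rintro ⟨_, ψ, rfl⟩
    have hψ : SP ψ := ψ.2
    rw [K_apply]
    show ‖J ψ‖ ^ 2 ≤ inner ℝ (J ψ) (mk (T (F b ψ)) (T (dx (ψ : P → ℝ))) (T (dy (ψ : P → ℝ))))
    rw [J_inner ψ (F_memLp hm hb hψ) (SP_memLp (SP_dx hψ)) (SP_memLp (SP_dy hψ)), J_norm]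
    have e1 : ∫ x in Q, (ψ : P → ℝ) x * F b ψ x = ∫ x in Q, (ψ : P → ℝ) x * (ψ : P → ℝ) x := by
      have e2 : ∀ x, (ψ : P → ℝ) x * F b ψ x = (ψ : P → ℝ) x * (ψ : P → ℝ) x -
          (ψ : P → ℝ) x * ((b x).1 * dx ψ x + (b x).2 * dy ψ x) := by
        intro x
        unfold F
        ring
      have j1 : Integrable (fun x => (ψ : P → ℝ) x * ((b x).1 * dx ψ x + (b x).2 * dy ψ x))
          (volume.restrict Q) := (SP_memLp hψ).integrable_mul (drift_memLp hm hb hψ)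
      simp only [e2]
      rw [integral_sub (SP_int (SP_mul hψ hψ)) j1, drift_zero hdiv hψ, sub_zero]
    rw [e1, ← integral_add (SP_int (SP_mul hψ hψ)) (SP_int (SP_mul (SP_dx hψ) (SP_dx hψ))),
      ← integral_add]
    · refine (integral_congr_ae (.of_forall fun x => ?_)).le
      show (ψ : P → ℝ) x ^ 2 + dx ψ x ^ 2 + dy ψ x ^ 2 =
        (ψ : P → ℝ) x * (ψ : P → ℝ) x + dx ψ x * dx ψ x + dy ψ x * dy ψ x
      ring
    · exact (SP_int (SP_mul hψ hψ)).add (SP_int (SP_mul (SP_dx hψ) (SP_dx hψ)))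
    · exact SP_int (SP_mul (SP_dy hψ) (SP_dy hψ))) (by
    rintro ⟨_, ψ, rfl⟩
    rw [f_apply]
    show |f ψ| ≤ √(max C 0) * ‖J ψ‖
    have h1 := hC ψ ψ.2
    rw [← J_norm ψ] at h1
    have h2 : f ψ ^ 2 ≤ max C 0 * ‖J ψ‖ ^ 2 :=
      h1.trans (mul_le_mul_of_nonneg_right (le_max_left _ _) (sq_nonneg _))
    rw [← sqrt_sq_eq_abs]
    calc √(f ψ ^ 2) ≤ √(max C 0 * ‖J ψ‖ ^ 2) := sqrt_le_sqrt h2
      _ = √(max C 0) * ‖J ψ‖ := by
        rw [sqrt_mul (le_max_right _ _), sqrt_sq (norm_nonneg _)])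
  have hu' : u ∈ closure (LinearMap.range J : Set HH) := by
    rwa [← Submodule.topologicalClosure_coe]
  have hmz : MemLp (0 : P → ℝ) 2 (volume.restrict Q) := SP_memLp SP_zero
  -- the weak derivatives
  have hx : ∀ ψ : P → ℝ, SP ψ →
      ∫ x in Q, (u 0 : P → ℝ) x * dx ψ x = -∫ x in Q, (u 1 : P → ℝ) x * ψ x := by
    intro ψ hψ
    have hcl : IsClosed {v : HH | inner ℝ v (mk (T (dx ψ)) (T ψ) (T 0)) = 0} :=
      isClosed_eq (continuous_id.inner continuous_const) continuous_const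
    have hsub : (LinearMap.range J : Set HH) ⊆
        {v : HH | inner ℝ v (mk (T (dx ψ)) (T ψ) (T 0)) = 0} := by
      rintro _ ⟨φ, rfl⟩
      have hφ : SP φ := φ.2
      show inner ℝ (J φ) (mk (T (dx ψ)) (T ψ) (T 0)) = 0
      rw [J_inner φ (SP_memLp (SP_dx hψ)) (SP_memLp hψ) hmz]
      have := ibp_dx hφ hψ
      simp only [Pi.zero_apply, mul_zero, integral_zero]
      linarith
    have h3 : inner ℝ u (mk (T (dx ψ)) (T ψ) (T 0)) = 0 := closure_minimal hsub hcl hu'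
    rw [mk_inner, T_inner _ (SP_memLp (SP_dx hψ)), T_inner _ (SP_memLp hψ), T_inner _ hmz] at h3
    simp only [Pi.zero_apply, mul_zero, integral_zero] at h3
    linarith
  have hy : ∀ ψ : P → ℝ, SP ψ →
      ∫ x in Q, (u 0 : P → ℝ) x * dy ψ x = -∫ x in Q, (u 2 : P → ℝ) x * ψ x := by
    intro ψ hψ
    have hcl : IsClosed {v : HH | inner ℝ v (mk (T (dy ψ)) (T 0) (T ψ)) = 0} :=
      isClosed_eq (continuous_id.inner continuous_const) continuous_const
    have hsub : (LinearMap.range J : Set HH) ⊆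
        {v : HH | inner ℝ v (mk (T (dy ψ)) (T 0) (T ψ)) = 0} := by
      rintro _ ⟨φ, rfl⟩
      have hφ : SP φ := φ.2
      show inner ℝ (J φ) (mk (T (dy ψ)) (T 0) (T ψ)) = 0
      rw [J_inner φ (SP_memLp (SP_dy hψ)) hmz (SP_memLp hψ)]
      have := ibp_dy hφ hψ
      simp only [Pi.zero_apply, mul_zero, integral_zero]
      linarith
    have h3 : inner ℝ u (mk (T (dy ψ)) (T 0) (T ψ)) = 0 := closure_minimal hsub hcl hu'
    rw [mk_inner, T_inner _ (SP_memLp (SP_dy hψ)), T_inner _ hmz, T_inner _ (SP_memLp hψ)] at h3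
    simp only [Pi.zero_apply, mul_zero, integral_zero] at h3
    linarith
  -- the equation
  have heq : ∀ ψ : P → ℝ, SP ψ → ∫ x in Q, (u 0 : P → ℝ) x * (ψ x - LL b ψ x) = f ψ := by
    intro ψ hψ
    have h1 := hf ⟨J ⟨ψ, hψ⟩, LinearMap.mem_range_self J _⟩
    rw [K_apply, f_apply] at h1
    have h2 : inner ℝ u (mk (T (F b ψ)) (T (dx ψ)) (T (dy ψ))) = f ψ := h1
    rw [mk_inner, T_inner _ (F_memLp hm hb hψ), T_inner _ (SP_memLp (SP_dx hψ)),
      T_inner _ (SP_memLp (SP_dy hψ))] at h2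
    have h3 := hx _ (SP_dx hψ)
    have h4 := hy _ (SP_dy hψ)
    have i0 : Integrable (fun x => (u 0 : P → ℝ) x * F b ψ x) (volume.restrict Q) :=
      (Lp.memLp (u 0)).integrable_mul (F_memLp hm hb hψ)
    have i1 : Integrable (fun x => (u 0 : P → ℝ) x * dx (dx ψ) x) (volume.restrict Q) :=
      (Lp.memLp (u 0)).integrable_mul (SP_memLp (SP_dx (SP_dx hψ)))
    have i2 : Integrable (fun x => (u 0 : P → ℝ) x * dy (dy ψ) x) (volume.restrict Q) :=
      (Lp.memLp (u 0)).integrable_mul (SP_memLp (SP_dy (SP_dy hψ)))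
    have e : ∀ x, (u 0 : P → ℝ) x * (ψ x - LL b ψ x) = (u 0 : P → ℝ) x * F b ψ x -
        (u 0 : P → ℝ) x * dx (dx ψ) x - (u 0 : P → ℝ) x * dy (dy ψ) x := by
      intro x
      unfold LL F lap
      ring
    have i01 : Integrable (fun x => (u 0 : P → ℝ) x * F b ψ x - (u 0 : P → ℝ) x * dx (dx ψ) x)
      (volume.restrict Q) := i0.sub i1
    simp only [e]
    rw [integral_sub i01 i2, integral_sub i0 i1, h3, h4]
    linarith
  -- the periodic representative
  have hfr : ∀ x ∈ Q, ((Int.fract x.1, Int.fract x.2) : P) = x := by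
    intro x hx
    exact Prod.ext (Int.fract_eq_self.2 hx.1) (Int.fract_eq_self.2 hx.2)
  have hcongr : ∀ g : P → ℝ, ∫ x in Q, (u 0 : P → ℝ) (Int.fract x.1, Int.fract x.2) * g x =
      ∫ x in Q, (u 0 : P → ℝ) x * g x := by
    intro g
    refine setIntegral_congr_fun measurableSet_Q fun x hx => ?_
    simp only [hfr x hx]
  refine ⟨fun x => (u 0 : P → ℝ) (Int.fract x.1, Int.fract x.2), (u 1 : P → ℝ), (u 2 : P → ℝ),
    ?_, (Lp.stronglyMeasurable (u 1)).measurable, (Lp.stronglyMeasurable (u 2)).measurable,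
    ?_, ?_, ?_, ?_, ?_, ?_⟩
  · exact (Lp.stronglyMeasurable (u 0)).measurable.comp
      ((measurable_fract.comp measurable_fst).prodMk (measurable_fract.comp measurable_snd))
  · intro x y
    constructor <;> simp
  · refine (Lp.memLp (u 0)).integrable_sq.congr ?_
    refine (ae_restrict_iff' measurableSet_Q).2 (.of_forall fun x hx => ?_)
    simp only [hfr x hx]
  · exact (Lp.memLp (u 1)).integrable_sq.add (Lp.memLp (u 2)).integrable_sq
  · intro ψ hψ
    rw [hcongr]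
    exact hx ψ hψ
  · intro ψ hψ
    rw [hcongr]
    exact hy ψ hψ
  · intro ψ hψ
    rw [hcongr]
    exact heq ψ hψ

end Pool.Agent.Q277.ND.Lax
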