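import Pool.Agent.Q61.ND.Stm

set_option autoImplicit false

/-!
Project ND (helper277): the change of variables `x = e^(-s) (cos θ, sin θ)`.
-/

open MeasureTheory Set Filter Topology Real

noncomputable section

namespace Pool.Agent.Q277.ND

open Pool.Agent.Q61.AD (P Q Per dt dx dy lap Tst D)
open Pool.Agent.Q61.ND

/-- the derivative of `EE` -/
def dEE (p : P) : P →L[ℝ] P :=
  (Matrix.toLin (.finTwoProd ℝ) (.finTwoProd ℝ)
    !![-(exp (-p.1) * cos p.2), -(exp (-p.1) * sin p.2);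
       -(exp (-p.1) * sin p.2), exp (-p.1) * cos p.2]).toContinuousLinearMap

theorem hasFDerivAt_EE (p : P) : HasFDerivAt EE (dEE p) p := by
  unfold dEE
  rw [Matrix.toLin_finTwoProd_toContinuousLinearMap]
  have h0 : HasFDerivAt (fun q : P => exp (-q.1))
      (exp (-p.1) • (-ContinuousLinearMap.fst ℝ ℝ ℝ)) p :=
    (hasFDerivAt_fst (𝕜 := ℝ) (E := ℝ) (F := ℝ) (p := p)).neg.exp
  have h1 := h0.mul ((hasDerivAt_cos p.2).comp_hasFDerivAt p
    (hasFDerivAt_snd (𝕜 := ℝ) (E := ℝ) (F := ℝ) (p := p)))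
  have h2 := h0.mul ((hasDerivAt_sin p.2).comp_hasFDerivAt p
    (hasFDerivAt_snd (𝕜 := ℝ) (E := ℝ) (F := ℝ) (p := p)))
  refine (h1.prodMk h2).congr_fderiv ?_
  ext <;> simp <;> ring

theorem det_dEE (p : P) : (dEE p).det = -exp (-2 * p.1) := by
  have h1 : (dEE p).det = (!![-(exp (-p.1) * cos p.2), -(exp (-p.1) * sin p.2);
      -(exp (-p.1) * sin p.2), exp (-p.1) * cos p.2]).det := by
    unfold dEE
    rw [LinearMap.det_toContinuousLinearMap, LinearMap.det_toLin]
  rw [h1, Matrix.det_fin_two_of]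
  have h2 : exp (-2 * p.1) = exp (-p.1) * exp (-p.1) := by
    rw [← exp_add]
    congr 1
    ring
  rw [h2]
  linear_combination (-(exp (-p.1) * exp (-p.1))) * (sin_sq_add_cos_sq p.2)

theorem EE_eq (p : P) : EE p = polarCoord.symm (exp (-p.1), p.2) := rfl

theorem injOn_EE (S : ℝ) : InjOn EE (Sp S) := by
  intro p hp q hq h
  rw [EE_eq, EE_eq] at h
  have hp' : (exp (-p.1), p.2) ∈ polarCoord.target :=
    ⟨exp_pos _, hp.2⟩
  have hq' : (exp (-q.1), q.2) ∈ polarCoord.target :=
    ⟨exp_pos _, hq.2⟩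
  have h1 := polarCoord.symm.injOn (x₁ := (exp (-p.1), p.2)) (x₂ := (exp (-q.1), q.2)) hp' hq' h
  have h2 := exp_injective (Prod.mk.inj h1).1
  have h3 : p.2 = q.2 := (Prod.mk.inj h1).2
  exact Prod.ext (neg_injective h2) h3

theorem rs_EE (p : P) : rs (EE p) = exp (-2 * p.1) := by
  have h2 : exp (-2 * p.1) = exp (-p.1) * exp (-p.1) := by
    rw [← exp_add]
    congr 1
    ring
  unfold rs EE
  rw [h2]
  simp only
  linear_combination (exp (-p.1) * exp (-p.1)) * (sin_sq_add_cos_sq p.2)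

theorem image_EE (S : ℝ) : EE '' (Sp S) = Dc S ∩ polarCoord.source := by
  ext x
  constructor
  · rintro ⟨p, hp, rfl⟩
    refine ⟨⟨?_, ?_⟩, ?_⟩
    · rw [rs_EE]
      exact exp_pos _
    · rw [rs_EE]
      have : S < p.1 := hp.1
      exact exp_lt_exp.2 (by linarith)
    · rw [EE_eq]
      exact polarCoord.map_target (x := (exp (-p.1), p.2)) ⟨exp_pos _, hp.2⟩
  · rintro ⟨⟨h0, h1⟩, h2⟩
    have h3 := polarCoord.map_source h2
    have h4 := polarCoord.left_inv h2
    obtain ⟨h5, h6⟩ := h3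
    have hr : (polarCoord x).1 = √(rs x) := rfl
    refine ⟨(-log (√(rs x)), (polarCoord x).2), ⟨?_, h6⟩, ?_⟩
    · show S < -log (√(rs x))
      rw [log_sqrt h0.le]
      have := log_lt_log h0 h1
      rw [log_exp] at this
      linarith
    · rw [EE_eq]
      simp only [neg_neg]
      rw [exp_log (sqrt_pos.2 h0), ← hr]
      exact h4

theorem measurableSet_Sp (S : ℝ) : MeasurableSet (Sp S) :=
  measurableSet_Ioi.prod measurableSet_Ioo

theorem Dc_ae (S : ℝ) : (EE '' (Sp S) : Set P) =ᵐ[volume] Dc S := by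
  rw [image_EE]
  have h := (ae_eq_refl (Dc S)).inter polarCoord_source_ae_eq_univ
  rwa [inter_univ] at h

theorem pol : S_pol := by
  intro S f
  have hd : ∀ p ∈ Sp S, HasFDerivWithinAt EE (dEE p) (Sp S) p :=
    fun p _ => (hasFDerivAt_EE p).hasFDerivWithinAt
  have hdet : ∀ p : P, |(dEE p).det| • f (EE p) = exp (-2 * p.1) * f (EE p) := by
    intro p
    rw [det_dEE, abs_neg, abs_of_pos (exp_pos _), smul_eq_mul]
  constructor
  · rw [← setIntegral_congr_set (Dc_ae S),
      integral_image_eq_integral_abs_det_fderiv_smul volume (measurableSet_Sp S) hd (injOn_EE S)]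
    simp only [hdet]
  · rw [← integrableOn_congr_set_ae (Dc_ae S),
      integrableOn_image_iff_integrableOn_abs_det_fderiv_smul volume (measurableSet_Sp S) hd
        (injOn_EE S)]
    simp only [hdet]

end Pool.Agent.Q277.ND
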