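import Pool.Agent.Q61.ND.Stm

set_option autoImplicit false

/-!
Project ND (helper277): square integrability of the singular part.
-/

open MeasureTheory Set Filter Topology Real

noncomputable section

namespace Pool.Agent.Q277.ND.Sqi

open Pool.Agent.Q61.AD (P Q Per dt dx dy lap Tst D)
open Pool.Agent.Q61.ND

theorem rs_EE (p : P) : rs (EE p) = exp (-2 * p.1) := by
  have h2 : exp (-2 * p.1) = exp (-p.1) * exp (-p.1) := by
    rw [← exp_add]
    congr 1
    ring
  unfold rs EE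
  rw [h2]
  simp only
  linear_combination (exp (-p.1) * exp (-p.1)) * (sin_sq_add_cos_sq p.2)

theorem ls_EE (p : P) : ls (EE p) = p.1 := by
  unfold ls
  rw [rs_EE, log_exp]
  ring

theorem measurable_rs : Measurable rs := by
  unfold rs
  fun_prop

theorem measurable_ls : Measurable ls := by
  unfold ls
  exact (measurable_rs.log).const_mul _

theorem measurable_U0c : Measurable U0c := by
  unfold U0c
  have h1 := measurable_rs
  have h2 := measurable_ls
  fun_prop

theorem continuous_EE : Continuous EE := by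
  unfold EE
  fun_prop

theorem isOpen_Dc (S : ℝ) : IsOpen (Dc S) := by
  have h : Continuous rs := by
    unfold rs
    fun_prop
  exact (isOpen_lt continuous_const h).inter (isOpen_lt h continuous_const)

theorem U0c_EE (p : P) : U0c (EE p) = exp p.1 *
    (p.1 ^ (-(3 / 4) : ℝ) * cos p.2 +
      3 / 16 * p.1 ^ (-(7 / 4) : ℝ) * (4 * cos p.2 ^ 3 - 3 * cos p.2)) := by
  have h1 : √(rs (EE p)) = exp (-p.1) := by
    rw [rs_EE]
    have h2 : exp (-2 * p.1) = exp (-p.1) ^ 2 := by
      rw [← exp_nat_mul]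
      congr 1
      push_cast
      ring
    rw [h2, sqrt_sq (exp_pos _).le]
  have h3 : (EE p).1 / exp (-p.1) = cos p.2 := by
    unfold EE
    simp only
    rw [mul_comm, mul_div_assoc, div_self (exp_pos _).ne', mul_one]
  unfold U0c
  rw [h1, ls_EE, h3, exp_neg, one_div, inv_inv]

theorem bound (p : P) (hp : 21 < p.1) :
    exp (-2 * p.1) * U0c (EE p) ^ 2 ≤ 4 * p.1 ^ (-(3 / 2) : ℝ) := by
  have hs : (0 : ℝ) < p.1 := by linarith
  have e1 : exp (-2 * p.1) * exp p.1 ^ 2 = 1 := by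
    rw [← exp_nat_mul, ← exp_add]
    push_cast
    rw [show -2 * p.1 + 2 * p.1 = 0 by ring, exp_zero]
  rw [U0c_EE, mul_pow, ← mul_assoc, e1, one_mul]
  have hA : 0 < p.1 ^ (-(3 / 4) : ℝ) := rpow_pos_of_pos hs _
  have hA2 : (p.1 ^ (-(3 / 4) : ℝ)) ^ 2 = p.1 ^ (-(3 / 2) : ℝ) := by
    rw [← rpow_natCast, ← rpow_mul hs.le]
    congr 1
    norm_num
  have hB : p.1 ^ (-(7 / 4) : ℝ) ≤ p.1 ^ (-(3 / 4) : ℝ) :=
    rpow_le_rpow_of_exponent_le (by linarith) (by norm_num)
  have hB0 : 0 < p.1 ^ (-(7 / 4) : ℝ) := rpow_pos_of_pos hs _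
  have hc1 := cos_le_one p.2
  have hc2 := neg_one_le_cos p.2
  have hc3 : cos (3 * p.2) = 4 * cos p.2 ^ 3 - 3 * cos p.2 := cos_three_mul _
  have hc4 := cos_le_one (3 * p.2)
  have hc5 := neg_one_le_cos (3 * p.2)
  rw [← hc3, ← hA2]
  have habs : |p.1 ^ (-(3 / 4) : ℝ) * cos p.2 + 3 / 16 * p.1 ^ (-(7 / 4) : ℝ) * cos (3 * p.2)| ≤
      2 * p.1 ^ (-(3 / 4) : ℝ) := by
    refine (abs_add_le _ _).trans ?_
    have hB' : 0 < 3 / 16 * p.1 ^ (-(7 / 4) : ℝ) := by positivity
    rw [abs_mul, abs_mul, abs_of_pos hA, abs_of_pos hB']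
    have h1 : |cos p.2| ≤ 1 := abs_cos_le_one _
    have h2 : |cos (3 * p.2)| ≤ 1 := abs_cos_le_one _
    have h3 := mul_le_mul_of_nonneg_left h1 hA.le
    have h4 : 3 / 16 * p.1 ^ (-(7 / 4) : ℝ) * |cos (3 * p.2)| ≤
        3 / 16 * p.1 ^ (-(7 / 4) : ℝ) * 1 := mul_le_mul_of_nonneg_left h2 (by positivity)
    linarith
  have h5 := pow_le_pow_left₀ (abs_nonneg _) habs 2
  rw [sq_abs] at h5
  nlinarith

theorem integrableOn_strip : IntegrableOn (fun p : P => p.1 ^ (-(3 / 2) : ℝ)) (Sp 21) := by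
  have h1 : IntegrableOn (fun s : ℝ => s ^ (-(3 / 2) : ℝ)) (Ioi 21) :=
    integrableOn_Ioi_rpow_of_lt (by norm_num) (by norm_num)
  have h2 : IntegrableOn (fun _ : ℝ => (1 : ℝ)) (Ioo (-π) π) :=
    integrableOn_const (by simp)
  have h3 := Integrable.mul_prod h1 h2
  rw [Measure.prod_restrict] at h3
  simp only [mul_one] at h3
  exact h3

theorem int_U0c (h : S_pol) : IntegrableOn (fun x => U0c x ^ 2) (Dc 21) := by
  rw [(h 21 fun x => U0c x ^ 2).2]
  refine Integrable.mono' (integrableOn_strip.const_mul 4) ?_ ?_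
  · have h1 : Measurable fun p : P => exp (-2 * p.1) * U0c (EE p) ^ 2 := by
      have h2 := measurable_U0c.comp continuous_EE.measurable
      have h3 : Measurable fun p : P => exp (-2 * p.1) := by fun_prop
      exact h3.mul (h2.pow_const 2)
    exact h1.aestronglyMeasurable
  · refine (ae_restrict_iff' (measurableSet_Ioi.prod measurableSet_Ioo)).2 (.of_forall fun p hp => ?_)
    rw [norm_eq_abs, abs_of_nonneg (by positivity)]
    exact bound p hp.1

theorem sqi (h : S_pol) : S_sqi := by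
  refine ⟨int_U0c h, fun W hW hi => ?_⟩
  refine Integrable.mono' (((int_U0c h).const_mul 2).add (hi.const_mul 2)) ?_ ?_
  · exact ((measurable_U0c.sub hW).pow_const 2).aestronglyMeasurable
  · refine (ae_restrict_iff' (isOpen_Dc 21).measurableSet).2 (.of_forall fun x hx => ?_)
    have h1 : 1 ≤ ls x := by
      unfold ls
      have := log_lt_log hx.1 hx.2
      rw [log_exp] at this
      linarith
    rw [norm_eq_abs, abs_of_nonneg (sq_nonneg _)]
    simp only [Pi.add_apply]
    nlinarith [sq_nonneg (U0c x + W x), mul_nonneg (sub_nonneg.2 h1) (sq_nonneg (W x))]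

end Pool.Agent.Q277.ND.Sqi
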