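import Mathlib

/-!
Sums of values of integer-valued functions in terms of forward differences, for powers of binomial
coefficients with odd lower entry and odd exponent: the linear coefficient vanishes.
-/

namespace Q277.OddPow

open Finset Polynomial

/-- forward differences at zero -/
def mc (f : ℕ → ℤ) (j : ℕ) : ℤ := ∑ i ∈ range (j + 1), (-1) ^ (j - i) * (j.choose i : ℤ) * f i

theorem mc_eq (f : ℕ → ℤ) (j : ℕ) : (fwdDiff 1)^[j] f 0 = mc f j := by
  rw [fwdDiff_iter_eq_sum_shift]
  unfold mc
  refine sum_congr rfl fun i _ => ?_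
  simp

theorem expand (f : ℕ → ℤ) (n : ℕ) : f n = ∑ j ∈ range (n + 1), (n.choose j : ℤ) * mc f j := by
  have h := shift_eq_sum_fwdDiff_iter 1 f n 0
  simp only [smul_eq_mul, mul_one, zero_add, mc_eq] at h
  rw [h]
  refine sum_congr rfl fun j _ => ?_
  rw [nsmul_eq_mul]

theorem sum_expand (f : ℕ → ℤ) (n : ℕ) :
    ∑ h ∈ range n, f h = ∑ j ∈ range n, (n.choose (j + 1) : ℤ) * mc f j := by
  induction n with
  | zero => simp
  | succ n ih =>
    rw [sum_range_succ, ih]
    have h1 : ∀ j ∈ range (n + 1), ((n + 1).choose (j + 1) : ℤ) * mc f j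
        = (n.choose j : ℤ) * mc f j + (n.choose (j + 1) : ℤ) * mc f j := by
      intro j _
      rw [Nat.choose_succ_succ]
      push_cast
      ring
    rw [sum_congr rfl h1, sum_add_distrib, ← expand]
    rw [sum_range_succ (fun j => (n.choose (j + 1) : ℤ) * mc f j) n,
      Nat.choose_eq_zero_of_lt (Nat.lt_succ_self n)]
    push_cast
    ring

/-- binomial polynomial -/
noncomputable def Pb (k : ℕ) : ℚ[X] := C (1 / (k.factorial : ℚ)) * descPochhammer ℚ k

theorem Pb_nat (k n : ℕ) : (Pb k).eval (n : ℚ) = (n.choose k : ℚ) := by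
  unfold Pb
  rw [eval_mul, eval_C, descPochhammer_eval_eq_descFactorial, Nat.descFactorial_eq_factorial_mul_choose]
  push_cast
  have : (k.factorial : ℚ) ≠ 0 := by exact_mod_cast Nat.factorial_ne_zero k
  field_simp

theorem Pb_deg (k : ℕ) : (Pb k).natDegree ≤ k := by
  unfold Pb
  refine (natDegree_C_mul_le _ _).trans ?_
  rw [descPochhammer_natDegree]

theorem mc_top (r s j : ℕ) (hj : r * s < j) : mc (fun h => ((h.choose r : ℕ) : ℤ) ^ s) j = 0 := by
  have hd : ((Pb r) ^ s).natDegree < j := by
    refine lt_of_le_of_lt natDegree_pow_le ?_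
    refine lt_of_le_of_lt (Nat.mul_le_mul_left s (Pb_deg r)) ?_
    rwa [mul_comm]
  have h := congrFun (Polynomial.fwdDiff_iter_eq_zero_of_degree_lt hd) (0 : ℚ)
  rw [fwdDiff_iter_eq_sum_shift] at h
  have h2 : ((mc (fun h => ((h.choose r : ℕ) : ℤ) ^ s) j : ℤ) : ℚ) = 0 := by
    unfold mc
    push_cast
    rw [show (0 : ℚ) = (0 : ℚ → ℚ) 0 from rfl, ← h]
    refine sum_congr rfl fun i _ => ?_
    rw [zero_add, nsmul_eq_mul, mul_one, eval_pow, Pb_nat, zsmul_eq_mul]
    push_cast
    ring
  exact_mod_cast h2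

theorem Pb_reflect (r : ℕ) (hr : Odd r) (x : ℚ) :
    (Pb r).eval ((r : ℚ) - 1 - x) = - (Pb r).eval x := by
  unfold Pb
  rw [eval_mul, eval_mul, eval_C, eval_C, descPochhammer_eval_eq_prod_range,
    descPochhammer_eval_eq_prod_range]
  have h : ∏ j ∈ range r, ((r : ℚ) - 1 - x - j) = - ∏ j ∈ range r, (x - j) := by
    rw [← prod_range_reflect]
    have : ∀ j ∈ range r, ((r : ℚ) - 1 - x - ((r - 1 - j : ℕ) : ℚ)) = -1 * (x - j) := by
      intro j hj
      have hj' := mem_range.1 hj
      rw [Nat.cast_sub (by omega), Nat.cast_sub (by omega)]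
      push_cast
      ring
    rw [prod_congr rfl this, prod_mul_distrib, prod_const, card_range, hr.neg_one_pow]
    ring
  rw [h]
  ring

theorem Pb_deriv (j : ℕ) : (derivative (Pb (j + 1))).eval 0 = (-1) ^ j / ((j : ℚ) + 1) := by
  unfold Pb
  rw [derivative_C_mul, descPochhammer_succ_left, derivative_mul, derivative_X, eval_mul, eval_C, eval_add,
    eval_mul, eval_mul, eval_X, eval_one, eval_comp, eval_sub, eval_X, eval_one,
    descPochhammer_eval_eq_prod_range]
  have h : ∀ j : ℕ, ∏ i ∈ range j, ((0 : ℚ) - 1 - i) = (-1) ^ j * (j.factorial : ℚ) := by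
    intro j
    induction j with
    | zero => simp
    | succ j ih =>
      rw [prod_range_succ, ih, Nat.factorial_succ, pow_succ]
      push_cast
      ring
  rw [h, Nat.factorial_succ]
  have h1 : (j.factorial : ℚ) ≠ 0 := by exact_mod_cast Nat.factorial_ne_zero j
  have h2 : (j : ℚ) + 1 ≠ 0 := by positivity
  push_cast
  field_simp
  ring

theorem lin (r s : ℕ) (hr : Odd r) (hs : Odd s) (hs2 : 2 ≤ s) :
    ∑ j ∈ range (r * s + 1), (mc (fun h => ((h.choose r : ℕ) : ℤ) ^ s) j : ℚ) * ((-1) ^ j / ((j : ℚ) + 1))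
      = 0 := by
  set f : ℕ → ℤ := fun h => ((h.choose r : ℕ) : ℤ) ^ s with hf
  set F : ℚ[X] := ∑ j ∈ range (r * s + 1), C (mc f j : ℚ) * Pb (j + 1) with hF
  set G : ℚ[X] := Pb r ^ s with hG
  have hFn : ∀ n : ℕ, F.eval (n : ℚ) = ((∑ h ∈ range n, f h : ℤ) : ℚ) := by
    intro n
    rw [sum_expand, hF, eval_finsetSum]
    push_cast
    have e1 : ∀ j ∈ range (r * s + 1), (C (mc f j : ℚ) * Pb (j + 1)).eval (n : ℚ)
        = (n.choose (j + 1) : ℚ) * (mc f j : ℚ) := by
      intro j _
      rw [eval_mul, eval_C, Pb_nat]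
      ring
    rw [sum_congr rfl e1]
    rcases le_total n (r * s + 1) with h | h
    · symm
      refine sum_subset (range_subset_range.2 h) fun j _ hj => ?_
      rw [mem_range] at hj
      rw [Nat.choose_eq_zero_of_lt (by omega)]
      simp
    · refine sum_subset (range_subset_range.2 h) fun j _ hj => ?_
      rw [mem_range] at hj
      rw [hf, mc_top r s j (by omega)]
      simp
  have hGn : ∀ n : ℕ, G.eval (n : ℚ) = (f n : ℚ) := by
    intro n
    rw [hG, eval_pow, Pb_nat, hf]
    push_cast
    ring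
  have inj : ∀ P Q : ℚ[X], (∀ n : ℕ, P.eval (n : ℚ) = Q.eval (n : ℚ)) → P = Q := by
    intro P Q h
    refine Polynomial.eq_of_infinite_eval_eq P Q ?_
    refine Set.Infinite.mono (s := Set.range (fun n : ℕ => (n : ℚ))) ?_
      (Set.infinite_range_of_injective Nat.cast_injective)
    rintro _ ⟨n, rfl⟩
    exact h n
  have hdiff : F.comp (X + 1) = F + G := by
    apply inj
    intro n
    rw [eval_comp, eval_add, eval_add, eval_X, eval_one,
      show (n : ℚ) + 1 = ((n + 1 : ℕ) : ℚ) by push_cast; ring, hFn, hFn, hGn, sum_range_succ]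
    push_cast
    ring
  have hdiff' : ∀ y : ℚ, F.eval (y + 1) = F.eval y + G.eval y := by
    intro y
    have := congrArg (eval y) hdiff
    simpa [eval_comp] using this
  have hzero : ∀ i < r, G.eval (i : ℚ) = 0 := by
    intro i hi
    rw [hGn, hf]
    simp only []
    rw [Nat.choose_eq_zero_of_lt hi]
    have : s ≠ 0 := by omega
    simp [this]
  have hF0 : F.eval 0 = 0 := by
    have := hFn 0
    simpa using this
  have hFi : ∀ i ≤ r, F.eval (i : ℚ) = 0 := by
    intro i hi
    induction i with
    | zero => simpa using hF0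
    | succ i ih =>
      push_cast
      rw [hdiff', ih (by omega), hzero i (by omega)]
      ring
  have hsym : ∀ n : ℕ, F.eval ((r : ℚ) - n) = F.eval (n : ℚ) := by
    intro n
    induction n with
    | zero =>
      have := hFi r le_rfl
      simp only [Nat.cast_zero, sub_zero]
      rw [this, hF0]
    | succ n ih =>
      have h1 := hdiff' ((r : ℚ) - 1 - n)
      have h2 := hdiff' (n : ℚ)
      rw [show (r : ℚ) - 1 - n + 1 = r - n by ring, ih] at h1
      have h3 : G.eval ((r : ℚ) - 1 - n) = - G.eval (n : ℚ) := by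
        rw [hG, eval_pow, eval_pow, Pb_reflect r hr, hs.neg_pow]
      push_cast
      rw [show (r : ℚ) - (n + 1) = r - 1 - n by ring]
      linarith
  have hsymP : F.comp (C (r : ℚ) - X) = F := by
    apply inj
    intro n
    rw [eval_comp, eval_sub, eval_C, eval_X, hsym]
  have hd1 : (derivative F).eval (r : ℚ) = - (derivative F).eval 0 := by
    have := congrArg (fun P => (derivative P).eval 0) hsymP
    simp only [derivative_comp, eval_mul, eval_comp, derivative_sub, derivative_C, derivative_X, eval_sub,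
      eval_C, eval_X, eval_one, eval_zero, sub_zero] at this
    linarith
  have hd2 : ∀ y : ℚ, (derivative F).eval (y + 1) = (derivative F).eval y + (derivative G).eval y := by
    intro y
    have := congrArg (fun P => (derivative P).eval y) hdiff
    simpa [derivative_comp, eval_comp] using this
  have hGz : ∀ i < r, (derivative G).eval (i : ℚ) = 0 := by
    intro i hi
    rw [hG, derivative_pow, eval_mul, eval_mul, eval_pow, Pb_nat, Nat.choose_eq_zero_of_lt hi]
    have : s - 1 ≠ 0 := by omega
    simp [this]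
  have hd3 : ∀ i ≤ r, (derivative F).eval (i : ℚ) = (derivative F).eval 0 := by
    intro i hi
    induction i with
    | zero => simp
    | succ i ih =>
      push_cast
      rw [hd2, ih (by omega), hGz i (by omega)]
      ring
  have hd4 : (derivative F).eval 0 = 0 := by
    have := hd3 r le_rfl
    linarith
  rw [← hd4, hF, derivative_sum, eval_finsetSum]
  refine sum_congr rfl fun j _ => ?_
  rw [derivative_C_mul, eval_mul, eval_C, Pb_deriv]

end Q277.OddPow
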