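import Mathlib
import Pool.Agent.Q277.OddPowA
import Pool.Agent.Q277.PInt

/-!
Reduction of the divisibility by `n ^ 2` to lower bounds for the `p`-adic valuations of the forward
differences.
-/

namespace Q277.OddPow

open Finset Q277.PInt

theorem dvd_choose_of {p a L n j : ℕ} (hp : p.Prime) (hn : p ^ a ∣ n) (hj : j + 1 < p ^ (L + 1)) (hL : L ≤ a)
    (hn1 : 1 ≤ n) : p ^ (a - L) ∣ n.choose (j + 1) := by
  obtain ⟨x, w, hw, hxw⟩ := Nat.exists_eq_pow_mul_and_not_dvd (n := j + 1) (by omega) p hp.ne_one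
  have hx : x ≤ L := by
    by_contra hcon
    have h1 : p ^ (L + 1) ∣ j + 1 := by
      rw [hxw]
      exact (pow_dvd_pow p (by omega)).mul_right _
    have := Nat.le_of_dvd (by omega) h1
    omega
  have h1 := Nat.add_one_mul_choose_eq (n - 1) j
  rw [show n - 1 + 1 = n by omega] at h1
  have h2 : p ^ a ∣ n.choose (j + 1) * (j + 1) := by
    rw [← h1]
    exact hn.mul_right _
  rw [hxw] at h2
  have h3 : p ^ x * p ^ (a - x) ∣ p ^ x * (n.choose (p ^ x * w) * w) := by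
    rw [← pow_add, show x + (a - x) = a by omega]
    calc p ^ a ∣ n.choose (p ^ x * w) * (p ^ x * w) := h2
      _ = p ^ x * (n.choose (p ^ x * w) * w) := by ring
  have h4 := Nat.dvd_of_mul_dvd_mul_left (pow_pos hp.pos x) h3
  have h5 : p ^ (a - x) ∣ n.choose (p ^ x * w) := by
    refine Nat.Coprime.dvd_of_dvd_mul_right ?_ h4
    exact (Nat.Coprime.pow_left _ ((Nat.Prime.coprime_iff_not_dvd hp).2 hw))
  rw [hxw]
  exact (pow_dvd_pow p (by omega)).trans h5

theorem choose_pred {p a L n : ℕ} (hp : p.Prime) (hn : p ^ a ∣ n) (hL : L ≤ a) (hn1 : 1 ≤ n) :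
    ∀ j : ℕ, j < p ^ (L + 1) → ((p : ℤ) ^ (a - L)) ∣ ((n - 1).choose j : ℤ) - (-1) ^ j := by
  intro j
  induction j with
  | zero => intro _; simp
  | succ j ih =>
    intro hj
    have h1 := ih (by omega)
    have h2 := dvd_choose_of hp hn hj hL hn1
    have h3 : (n.choose (j + 1) : ℤ) = ((n - 1).choose j : ℤ) + ((n - 1).choose (j + 1) : ℤ) := by
      have : n = n - 1 + 1 := by omega
      conv_lhs => rw [this, Nat.choose_succ_succ]
      push_cast
      ring
    have h4 : ((p : ℤ) ^ (a - L)) ∣ (n.choose (j + 1) : ℤ) := by exact_mod_cast h2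
    have h5 : (((n - 1).choose (j + 1) : ℕ) : ℤ) - (-1) ^ (j + 1)
        = (n.choose (j + 1) : ℤ) - (((n - 1).choose j : ℤ) - (-1) ^ j) := by
      rw [h3, pow_succ]
      ring
    rw [h5]
    exact dvd_sub h4 h1

theorem main_red (p : ℕ) (hp : p.Prime) (r s : ℕ) (hr : Odd r) (hs : Odd s) (hs2 : 2 ≤ s) (Cc : ℤ)
    (hstar : ∀ j, 1 ≤ j → j ≤ r * s → ∀ L x : ℕ, p ^ L ≤ j → j < p ^ (L + 1) → p ^ x ∣ j + 1 →
      ((p : ℤ) ^ (L + x)) ∣ Cc * mc (fun h => ((h.choose r : ℕ) : ℤ) ^ s) j)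
    (n a : ℕ) (hn1 : 1 ≤ n) (hn : p ^ a ∣ n) :
    ((p : ℤ) ^ (2 * a)) ∣ Cc * ∑ h ∈ range n, ((h.choose r : ℕ) : ℤ) ^ s := by
  set f : ℕ → ℤ := fun h => ((h.choose r : ℕ) : ℤ) ^ s with hf
  have hpq : (p : ℚ) ≠ 0 := by exact_mod_cast hp.ne_zero
  have e0 : ((Cc * ∑ h ∈ range n, f h : ℤ) : ℚ)
      = ∑ j ∈ range (r * s + 1), (n : ℚ) * (Cc * mc f j) * ((((n - 1).choose j : ℤ) - (-1) ^ j : ℤ) : ℚ)
          / ((j : ℚ) + 1) := by
    rw [sum_expand]
    have h1 : ∑ j ∈ range n, (n.choose (j + 1) : ℤ) * mc f j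
        = ∑ j ∈ range (r * s + 1), (n.choose (j + 1) : ℤ) * mc f j := by
      rcases le_total n (r * s + 1) with h | h
      · refine sum_subset (range_subset_range.2 h) fun j _ hj => ?_
        rw [mem_range] at hj
        rw [Nat.choose_eq_zero_of_lt (by omega)]
        simp
      · symm
        refine sum_subset (range_subset_range.2 h) fun j _ hj => ?_
        rw [mem_range] at hj
        rw [hf, mc_top r s j (by omega)]
        simp
    rw [h1]
    have hl := lin r s hr hs hs2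
    rw [← hf] at hl
    have h2 : ∀ j ∈ range (r * s + 1), (n : ℚ) * (Cc * mc f j) * ((((n - 1).choose j : ℤ) - (-1) ^ j : ℤ) : ℚ)
          / ((j : ℚ) + 1) = (Cc : ℚ) * ((n.choose (j + 1) : ℚ) * mc f j)
            - (n : ℚ) * Cc * ((mc f j : ℚ) * ((-1) ^ j / ((j : ℚ) + 1))) := by
      intro j _
      have h3 := Nat.add_one_mul_choose_eq (n - 1) j
      rw [show n - 1 + 1 = n by omega] at h3
      have h4 : (n : ℚ) * ((n - 1).choose j : ℚ) = (n.choose (j + 1) : ℚ) * (j + 1) := by exact_mod_cast h3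
      have hj : (j : ℚ) + 1 ≠ 0 := by positivity
      push_cast
      field_simp
      linear_combination (mc f j : ℚ) * Cc * h4
    rw [sum_congr rfl h2, sum_sub_distrib, ← mul_sum, ← mul_sum, hl]
    push_cast
    ring
  have key : PI p (((Cc * ∑ h ∈ range n, f h : ℤ) : ℚ) / (p : ℚ) ^ (2 * a)) := by
    rw [e0, sum_div]
    refine PI.sum hp _ _ fun j hj => ?_
    have hj' := mem_range.1 hj
    rcases Nat.eq_zero_or_pos j with rfl | hj1
    · simp
      exact PI.zero hp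
    obtain ⟨L, hL1, hL2⟩ : ∃ L, p ^ L ≤ j ∧ j < p ^ (L + 1) :=
      ⟨Nat.log p j, Nat.pow_log_le_self p (by omega), Nat.lt_pow_succ_log_self hp.one_lt j⟩
    obtain ⟨x, w, hw, hxw⟩ := Nat.exists_eq_pow_mul_and_not_dvd (n := j + 1) (by omega) p hp.ne_one
    obtain ⟨u, hu⟩ := hstar j hj1 (by omega) L x hL1 hL2 ⟨w, hxw⟩
    obtain ⟨n', rfl⟩ := hn
    have hxw' : (j : ℚ) + 1 = (p : ℚ) ^ x * w := by exact_mod_cast hxw
    have hu' : (Cc : ℚ) * (mc f j : ℚ) = (p : ℚ) ^ (L + x) * u := by exact_mod_cast hu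
    have hw0 : (w : ℚ) ≠ 0 := by
      have : w ≠ 0 := by
        rintro rfl
        simp at hw
      exact_mod_cast this
    rcases le_or_gt L a with h | h
    · obtain ⟨v, hv⟩ := choose_pred hp (Dvd.intro n' rfl) h hn1 j hL2
      have hv' : ((((p ^ a * n' - 1).choose j : ℤ) - (-1) ^ j : ℤ) : ℚ) = (p : ℚ) ^ (a - L) * v := by
        rw [hv]
        push_cast
        ring
      rw [hv', hu', hxw']
      have : ((p ^ a * n' : ℕ) : ℚ) * ((p : ℚ) ^ (L + x) * u) * ((p : ℚ) ^ (a - L) * v) / ((p : ℚ) ^ x * w)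
          / (p : ℚ) ^ (2 * a) = ((n' * u * v : ℤ) : ℚ) / (w : ℕ) := by
        have hh : (p : ℚ) ^ (2 * a) = (p : ℚ) ^ a * (p : ℚ) ^ L * (p : ℚ) ^ (a - L) := by
          rw [← pow_add, ← pow_add]
          congr 1
          omega
        rw [hh, pow_add]
        push_cast
        field_simp
      rw [this]
      exact PI.div_nat hp (PI.int hp _) hw
    · rw [hu', hxw']
      have : ((p ^ a * n' : ℕ) : ℚ) * ((p : ℚ) ^ (L + x) * u)
          * ((((p ^ a * n' - 1).choose j : ℤ) - (-1) ^ j : ℤ) : ℚ) / ((p : ℚ) ^ x * w)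
          / (p : ℚ) ^ (2 * a) = ((n' * u * (p : ℤ) ^ (L - a) *
            (((p ^ a * n' - 1).choose j : ℤ) - (-1) ^ j) : ℤ) : ℚ) / (w : ℕ) := by
        have hh : (p : ℚ) ^ (L + x) = (p : ℚ) ^ a * (p : ℚ) ^ (L - a) * (p : ℚ) ^ x := by
          rw [← pow_add, ← pow_add]
          congr 1
          omega
        rw [hh, two_mul, pow_add]
        push_cast
        field_simp
      rw [this]
      exact PI.div_nat hp (PI.int hp _) hw
  obtain ⟨D, N, hD, hDN⟩ := key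
  have h1 : (D * (Cc * ∑ h ∈ range n, f h) : ℤ) = (p : ℤ) ^ (2 * a) * N := by
    have hp2 : (p : ℚ) ^ (2 * a) ≠ 0 := pow_ne_zero _ hpq
    have : ((D * (Cc * ∑ h ∈ range n, f h) : ℤ) : ℚ) = (((p : ℤ) ^ (2 * a) * N : ℤ) : ℚ) := by
      rw [Int.cast_mul D, Int.cast_mul _ N, ← hDN]
      push_cast
      field_simp
    exact_mod_cast this
  have hcop : IsCoprime ((p : ℤ) ^ (2 * a)) D := by
    refine IsCoprime.pow_left ?_
    rw [Prime.coprime_iff_not_dvd (Nat.prime_iff_prime_int.1 hp)]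
    exact hD
  exact hcop.dvd_of_dvd_mul_left ⟨N, h1⟩

end Q277.OddPow
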