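import Mathlib

/-!
Lower bounds for the exponent of a prime `p ≤ r` in `(r s + 1)! / (r!)^s`.
-/

namespace Q277.OddPow

open Finset

/-- contribution of `p^i` to the exponent of `p` in `(r s + 1)! / (r!)^s` -/
def tt (p r s i : ℕ) : ℕ := (r * s + 1) / p ^ i - s * (r / p ^ i)

theorem tt_le (p r s i : ℕ) : s * (r / p ^ i) ≤ (r * s + 1) / p ^ i := by
  rcases Nat.eq_zero_or_pos (p ^ i) with h | h
  · rw [h]; simp
  · rw [Nat.le_div_iff_mul_le h]
    calc s * (r / p ^ i) * p ^ i = s * (r / p ^ i * p ^ i) := by ring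
      _ ≤ s * r := Nat.mul_le_mul_left _ (Nat.div_mul_le_self _ _)
      _ ≤ r * s + 1 := by rw [mul_comm]; omega

theorem val_C (p r s Cn : ℕ) (hp : p.Prime) (hC : Cn * (r.factorial) ^ s = (r * s + 1).factorial) (T : Finset ℕ)
    (hT : ∀ i ∈ T, 1 ≤ i) : ∑ i ∈ T, tt p r s i ≤ padicValNat p Cn := by
  have := Fact.mk hp
  have hC0 : Cn ≠ 0 := by
    rintro rfl
    rw [zero_mul] at hC
    exact Nat.factorial_ne_zero _ hC.symm
  have h1 : padicValNat p Cn + s * padicValNat p r.factorial = padicValNat p (r * s + 1).factorial := by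
    rw [← hC, padicValNat.mul hC0 (pow_ne_zero _ (Nat.factorial_ne_zero _)), padicValNat.pow]
  set b := Nat.log p (r * s + 1) + Nat.log p r + 1 + T.sup id + 1 with hb
  rw [padicValNat_factorial (b := b) (by omega), padicValNat_factorial (b := b) (by omega), mul_sum] at h1
  have h2 : ∑ i ∈ Ico 1 b, tt p r s i + ∑ i ∈ Ico 1 b, s * (r / p ^ i) = ∑ i ∈ Ico 1 b, (r * s + 1) / p ^ i := by
    rw [← sum_add_distrib]
    refine sum_congr rfl fun i _ => ?_
    unfold tt
    have := tt_le p r s i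
    omega
  have h3 : ∑ i ∈ T, tt p r s i ≤ ∑ i ∈ Ico 1 b, tt p r s i := by
    refine sum_le_sum_of_subset_of_nonneg ?_ (fun _ _ _ => Nat.zero_le _)
    intro i hi
    rw [mem_Ico]
    have h4 := hT i hi
    have h5 : i ≤ T.sup id := Finset.le_sup (f := id) hi
    omega
  omega

theorem LX (p N j L x e : ℕ) (hp : 2 ≤ p) (hN : N < p ^ (e + 1)) (hL : p ^ L ≤ j) (hx : p ^ x ∣ j + 1)
    (hj : j + 1 ≤ N) : L + x ≤ 2 * e ∧ (N < 2 * p ^ e → L + x + 1 ≤ 2 * e) := by
  have hL' : L ≤ e := by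
    by_contra h
    have : p ^ (e + 1) ≤ p ^ L := Nat.pow_le_pow_right (by omega) (by omega)
    omega
  have hx1 := Nat.le_of_dvd (by omega) hx
  have hx' : x ≤ e := by
    by_contra h
    have : p ^ (e + 1) ≤ p ^ x := Nat.pow_le_pow_right (by omega) (by omega)
    omega
  refine ⟨by omega, fun h => ?_⟩
  by_contra hcon
  have h1 : L = e := by omega
  have h2 : x = e := by omega
  rw [h1] at hL
  rw [h2] at hx
  obtain ⟨c, hc⟩ := hx
  have hc2 : 2 ≤ c := by
    by_contra h3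
    have : c = 0 ∨ c = 1 := by omega
    rcases this with rfl | rfl <;> simp at hc <;> omega
  have : p ^ e * 2 ≤ p ^ e * c := Nat.mul_le_mul_left _ hc2
  omega

theorem geo (p b : ℕ) (hp : 3 ≤ p) (hb : 3 ≤ b) : 4 * b ≤ ∑ t ∈ range b, p ^ t := by
  induction b with
  | zero => omega
  | succ b ih =>
    rw [sum_range_succ]
    rcases Nat.lt_or_ge b 3 with h | h
    · have : b = 2 := by omega
      subst this
      simp [sum_range_succ]
      nlinarith
    · have h1 := ih h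
      have h2 : 4 ≤ p ^ b := by
        calc 4 ≤ 3 ^ 3 := by norm_num
          _ ≤ p ^ 3 := Nat.pow_le_pow_left hp 3
          _ ≤ p ^ b := Nat.pow_le_pow_right (by omega) h
      omega

theorem tail_ge (p r s a b : ℕ) (hp : 2 ≤ p) (hr : r < p ^ (a + 1)) (he : p ^ (a + b) ≤ r * s + 1) :
    ∑ t ∈ range b, p ^ t ≤ ∑ i ∈ Ico (a + 1) (a + b + 1), tt p r s i := by
  have h1 : ∑ t ∈ range b, p ^ t = ∑ i ∈ Ico (a + 1) (a + b + 1), p ^ (a + b - i) := by
    rw [show a + b + 1 = a + 1 + b by ring]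
    rw [Finset.sum_Ico_eq_sum_range, show a + 1 + b - (a + 1) = b by omega, ← sum_range_reflect]
    refine sum_congr rfl fun i hi => ?_
    have := mem_range.1 hi
    congr 1
    omega
  rw [h1]
  refine sum_le_sum fun i hi => ?_
  rw [mem_Ico] at hi
  unfold tt
  have h2 : r / p ^ i = 0 := by
    apply Nat.div_eq_of_lt
    exact lt_of_lt_of_le hr (Nat.pow_le_pow_right (by omega) hi.1)
  rw [h2, mul_zero, Nat.sub_zero, Nat.le_div_iff_mul_le (by positivity), ← pow_add,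
    show a + b - i + i = a + b by omega]
  exact he

theorem val1 (p r s a c Cn : ℕ) (hp : p.Prime) (hC : Cn * (r.factorial) ^ s = (r * s + 1).factorial)
    (ha : 1 ≤ a) : tt p r s 1 + ∑ i ∈ Ico (a + 1) c, tt p r s i ≤ padicValNat p Cn := by
  have h := val_C p r s Cn hp hC (insert 1 (Ico (a + 1) c)) (by
    intro i hi
    rw [mem_insert, mem_Ico] at hi
    omega)
  rw [sum_insert (by rw [mem_Ico]; omega)] at h
  exact h

theorem val2 (p r s a c Cn : ℕ) (hp : p.Prime) (hC : Cn * (r.factorial) ^ s = (r * s + 1).factorial)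
    (ha : 2 ≤ a) : tt p r s 1 + tt p r s 2 + ∑ i ∈ Ico (a + 1) c, tt p r s i ≤ padicValNat p Cn := by
  have h := val_C p r s Cn hp hC (insert 1 (insert 2 (Ico (a + 1) c))) (by
    intro i hi
    rw [mem_insert, mem_insert, mem_Ico] at hi
    omega)
  rw [sum_insert (by rw [mem_insert, mem_Ico]; omega), sum_insert (by rw [mem_Ico]; omega)] at h
  omega

theorem geo2 (b : ℕ) : ∑ t ∈ range b, 2 ^ t + 1 = 2 ^ b := by
  induction b with
  | zero => simp
  | succ b ih => rw [sum_range_succ, pow_succ]; omega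

theorem two_pow_ge (b : ℕ) : 2 * b ≤ 2 ^ b := by
  induction b with
  | zero => simp
  | succ b ih =>
    rcases Nat.eq_zero_or_pos b with rfl | h
    · norm_num
    · rw [pow_succ]
      have : 2 ≤ 2 ^ b := by
        calc 2 = 2 ^ 1 := by norm_num
          _ ≤ 2 ^ b := Nat.pow_le_pow_right (by norm_num) h
      omega

theorem two_pow_ge' (a : ℕ) (ha : 2 ≤ a) : 2 * a ≤ 2 ^ (a - 1) + 2 ^ (a - 2) + 1 := by
  obtain ⟨c, rfl⟩ : ∃ c, a = c + 2 := ⟨a - 2, by omega⟩
  rw [show c + 2 - 1 = c + 1 by omega, show c + 2 - 2 = c by omega, pow_succ]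
  have := two_pow_ge c
  rcases Nat.lt_or_ge c 2 with h | h
  · interval_cases c <;> norm_num
  · omega

theorem star_two (r s Cn j L x : ℕ) (hr : Odd r) (hs : Odd s) (hr3 : 3 ≤ r) (hrs : r ≤ s)
    (hC : Cn * (r.factorial) ^ s = (r * s + 1).factorial) (hj : j ≤ r * s) (hL : 2 ^ L ≤ j)
    (hx : 2 ^ x ∣ j + 1) : L + x ≤ padicValNat 2 Cn := by
  obtain ⟨a, ha1, ha2⟩ : ∃ a, 2 ^ a ≤ r ∧ r < 2 ^ (a + 1) :=
    ⟨Nat.log 2 r, Nat.pow_log_le_self 2 (by omega), Nat.lt_pow_succ_log_self (by norm_num) r⟩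
  obtain ⟨e, he1, he2⟩ : ∃ e, 2 ^ e ≤ r * s + 1 ∧ r * s + 1 < 2 ^ (e + 1) :=
    ⟨Nat.log 2 (r * s + 1), Nat.pow_log_le_self 2 (by omega), Nat.lt_pow_succ_log_self (by norm_num) _⟩
  have ha : 1 ≤ a := by
    by_contra h
    have : a = 0 := by omega
    subst this
    norm_num at ha2
    omega
  have hea : 2 * a ≤ e := by
    by_contra h
    have h1 : 2 ^ (e + 1) ≤ 2 ^ (2 * a) := Nat.pow_le_pow_right (by norm_num) (by omega)
    have h2 : 2 ^ (2 * a) = 2 ^ a * 2 ^ a := by rw [two_mul, pow_add]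
    have h3 : 2 ^ a * 2 ^ a ≤ r * s := Nat.mul_le_mul ha1 (ha1.trans hrs)
    omega
  obtain ⟨b, rfl⟩ : ∃ b, e = a + b := ⟨e - a, by omega⟩
  have htail := tail_ge 2 r s a b le_rfl ha2 he1
  have hlx := (LX 2 (r * s + 1) j L x (a + b) le_rfl he2 hL hx (by omega)).2 (by
    rw [pow_succ] at he2
    omega)
  have hg := geo2 b
  have hb := two_pow_ge b
  obtain ⟨r', hr'⟩ := hr
  obtain ⟨s', hs'⟩ := hs
  have ht1 : tt 2 r s 1 = s' + 1 := by
    unfold tt
    have e1 : r * s + 1 = 2 * (s * r' + s' + 1) := by rw [hr', hs']; ring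
    have e2 : r / 2 ^ 1 = r' := by omega
    rw [e2, e1, pow_one, Nat.mul_div_cancel_left _ (by norm_num)]
    omega
  rcases Nat.lt_or_ge a 2 with h | h
  · have := val1 2 r s a (a + b + 1) Cn Nat.prime_two hC ha
    have ha' : a = 1 := by omega
    subst ha'
    omega
  · have hv := val2 2 r s a (a + b + 1) Cn Nat.prime_two hC h
    have ht2 : (s + 1) / 4 ≤ tt 2 r s 2 := by
      unfold tt
      obtain ⟨q, ρ, hq, hρ⟩ : ∃ q ρ, r = 4 * q + ρ ∧ (ρ = 1 ∨ ρ = 3) := ⟨r / 4, r % 4, by omega, by omega⟩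
      have e2 : r / 2 ^ 2 = q := by omega
      have e1 : r * s + 1 = 4 * (s * q) + (ρ * s + 1) := by rw [hq]; ring
      rw [e2, e1, show 2 ^ 2 = 4 by norm_num, Nat.mul_add_div (by norm_num)]
      rcases hρ with rfl | rfl <;> omega
    have h4 : 2 ^ a + 1 ≤ s := by
      have : 2 ^ a ≠ r := by
        intro hh
        have : 2 ∣ 2 ^ a := dvd_pow_self 2 (by omega)
        omega
      omega
    have h5 := two_pow_ge' a h
    have h6 : 2 ^ a = 4 * 2 ^ (a - 2) := by
      rw [show (4 : ℕ) = 2 ^ 2 by norm_num, ← pow_add]; congr 1; omega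
    have h7 : 2 ^ (a - 1) = 2 * 2 ^ (a - 2) := by
      rw [show (2 : ℕ) * 2 ^ (a - 2) = 2 ^ 1 * 2 ^ (a - 2) by norm_num, ← pow_add]; congr 1; omega
    omega

end Q277.OddPow
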