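import Mathlib
import Pool.Agent.Q277.OddPowC

/-!
The lower bound for the exponent of an odd prime `p ≤ r` in `(r s + 1)! / (r!)^s`.
-/

namespace Q277.OddPow

open Finset

theorem star_odd (p r s Cn j L x : ℕ) (hp : p.Prime) (hp2 : 3 ≤ p) (hr : Odd r) (hs : Odd s) (hrs : r ≤ s)
    (hpr : p ≤ r) (hne : r ≠ p) (hex1 : ¬ (p = 3 ∧ r = 9 ∧ s < 18)) (hex2 : ¬ (p = 5 ∧ r = 25 ∧ s < 30))
    (hC : Cn * (r.factorial) ^ s = (r * s + 1).factorial) (hj : j ≤ r * s) (hL : p ^ L ≤ j)
    (hx : p ^ x ∣ j + 1) : L + x ≤ padicValNat p Cn := by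
  obtain ⟨a, ha1, ha2⟩ : ∃ a, p ^ a ≤ r ∧ r < p ^ (a + 1) :=
    ⟨Nat.log p r, Nat.pow_log_le_self p (by omega), Nat.lt_pow_succ_log_self (by omega) r⟩
  obtain ⟨e, he1, he2⟩ : ∃ e, p ^ e ≤ r * s + 1 ∧ r * s + 1 < p ^ (e + 1) :=
    ⟨Nat.log p (r * s + 1), Nat.pow_log_le_self p (by omega), Nat.lt_pow_succ_log_self (by omega) _⟩
  have ha : 1 ≤ a := by
    by_contra h
    have : a = 0 := by omega
    subst this
    rw [zero_add, pow_one] at ha2
    omega
  have hrr : r * r ≤ r * s := Nat.mul_le_mul_left r hrs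
  have hea : 2 * a ≤ e := by
    by_contra h
    have h1 : p ^ (e + 1) ≤ p ^ (2 * a) := Nat.pow_le_pow_right (by omega) (by omega)
    have h2 : p ^ (2 * a) = p ^ a * p ^ a := by rw [two_mul, pow_add]
    have h3 : p ^ a * p ^ a ≤ r * s := Nat.mul_le_mul ha1 (ha1.trans hrs)
    omega
  obtain ⟨b, rfl⟩ : ∃ b, e = a + b := ⟨e - a, by omega⟩
  have htail := tail_ge p r s a b (by omega) ha2 he1
  obtain ⟨hlx, hlx'⟩ := LX p (r * s + 1) j L x (a + b) (by omega) he2 hL hx (by omega)
  have hv1 := val1 p r s a (a + b + 1) Cn hp hC ha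
  rcases Nat.lt_or_ge b 3 with hb | hb
  swap
  · have := geo p b hp2 hb
    omega
  have htailN : ∀ i, a + 1 ≤ i → tt p r s i = (r * s + 1) / p ^ i := by
    intro i hi
    unfold tt
    have h2 : r / p ^ i = 0 := by
      apply Nat.div_eq_of_lt
      exact lt_of_lt_of_le ha2 (Nat.pow_le_pow_right (by omega) hi)
    rw [h2, mul_zero, Nat.sub_zero]
  have hodd : Odd p := hp.odd_of_ne_two (by omega)
  rcases Nat.lt_or_ge b 2 with hb2 | hb2
  · -- b = 1, a = 1
    have hb1 : b = 1 := by omega
    have ha' : a = 1 := by omega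
    subst hb1
    subst ha'
    rw [show (1 : ℕ) + 1 + 1 = 3 by norm_num, show (1 : ℕ) + 1 = 2 by norm_num] at hv1
    rw [show Ico 2 3 = {2} by decide, sum_singleton, htailN 2 (by norm_num)] at hv1
    rw [show (1 : ℕ) + 1 = 2 by norm_num] at hlx hlx' he1 he2
    rcases Nat.lt_or_ge r (2 * p) with h | h
    · -- p < r < 2 p
      obtain ⟨ρ, hρ⟩ : ∃ ρ, r = p + ρ := ⟨r - p, by omega⟩
      have hρ2 : 2 ≤ ρ := by
        obtain ⟨r', hr'⟩ := hr
        obtain ⟨p', hp'⟩ := hodd
        omega
      have ht1 : 2 ≤ tt p r s 1 := by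
        unfold tt
        have e2 : r / p ^ 1 = 1 := by
          rw [pow_one]
          apply Nat.div_eq_of_lt_le <;> omega
        have e1 : r * s + 1 = p * s + (ρ * s + 1) := by rw [hρ]; ring
        rw [e2, e1, pow_one, Nat.mul_add_div hp.pos, mul_one]
        have : 2 ≤ (ρ * s + 1) / p := by
          rw [Nat.le_div_iff_mul_le hp.pos]
          nlinarith
        omega
      rcases Nat.lt_or_ge (r * s + 1) (2 * p ^ 2) with h2 | h2
      · have h3 : 1 ≤ (r * s + 1) / p ^ 2 := by
          rw [Nat.le_div_iff_mul_le (by positivity)]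
          omega
        have := hlx' h2
        omega
      · have h3 : 2 ≤ (r * s + 1) / p ^ 2 := by
          rw [Nat.le_div_iff_mul_le (by positivity)]
          omega
        omega
    · have h3 : 4 ≤ (r * s + 1) / p ^ 2 := by
        rw [Nat.le_div_iff_mul_le (by positivity)]
        have : 2 * p * (2 * p) ≤ r * r := Nat.mul_le_mul h h
        nlinarith
      omega
  -- b = 2
  have hb' : b = 2 := by omega
  subst hb'
  rw [sum_range_succ, sum_range_succ, sum_range_zero, zero_add, pow_zero, pow_one] at htail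
  have ha2' : a ≤ 2 := by omega
  rcases Nat.lt_or_ge p 7 with h7 | h7
  swap
  · omega
  have hp35 : p = 3 ∨ p = 5 := by
    interval_cases p
    · left; rfl
    · exact absurd hp (by norm_num)
    · right; rfl
    · exact absurd hp (by norm_num)
  rcases hp35 with rfl | rfl
  · -- p = 3
    rcases Nat.lt_or_ge a 2 with h | h
    · have ha' : a = 1 := by omega
      subst ha'
      norm_num at ha2 he1 he2
      rw [show (1 : ℕ) + 2 + 1 = 4 by norm_num, show (1 : ℕ) + 1 = 2 by norm_num,
        show Ico 2 4 = {2, 3} by decide, sum_pair (by norm_num), htailN 2 (by norm_num),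
        htailN 3 (by norm_num)] at hv1
      unfold tt at hv1
      norm_num at hv1
      obtain ⟨r', hr'⟩ := hr
      obtain ⟨s', hs'⟩ := hs
      have hr9 : r = 5 ∨ r = 7 := by omega
      rcases hr9 with rfl | rfl <;> omega
    · have ha' : a = 2 := by omega
      subst ha'
      norm_num at ha1 ha2 he1 he2 hlx'
      have hv2 := val2 3 r s 2 (2 + 2 + 1) Cn hp hC le_rfl
      rw [show (2 : ℕ) + 2 + 1 = 5 by norm_num, show (2 : ℕ) + 1 = 3 by norm_num,
        show Ico 3 5 = {3, 4} by decide, sum_pair (by norm_num), htailN 3 (by norm_num),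
        htailN 4 (by norm_num)] at hv2
      unfold tt at hv2
      norm_num at hv2
      have hr16 : r < 16 := by nlinarith
      obtain ⟨r', hr'⟩ := hr
      obtain ⟨s', hs'⟩ := hs
      have hr9 : r = 9 ∨ r = 11 ∨ r = 13 ∨ r = 15 := by omega
      rcases hr9 with rfl | rfl | rfl | rfl
      · have h9 : 9 ≤ s' := by omega
        have h12 : s' ≤ 12 := by omega
        interval_cases s' <;> omega
      · omega
      · omega
      · omega
  · -- p = 5
    rcases Nat.lt_or_ge a 2 with h | h
    · omega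
    · have ha' : a = 2 := by omega
      subst ha'
      norm_num at ha1 ha2 he1 he2 hlx'
      have hv2 := val2 5 r s 2 (2 + 2 + 1) Cn hp hC le_rfl
      rw [show (2 : ℕ) + 2 + 1 = 5 by norm_num, show (2 : ℕ) + 1 = 3 by norm_num,
        show Ico 3 5 = {3, 4} by decide, sum_pair (by norm_num), htailN 3 (by norm_num),
        htailN 4 (by norm_num)] at hv2
      unfold tt at hv2
      norm_num at hv2
      have hr56 : r < 56 := by nlinarith
      rcases Nat.lt_or_ge (r * s + 1) 1250 with h3 | h3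
      · have h5 : r < 36 := by nlinarith
        have h4 := hlx' h3
        obtain ⟨r', hr'⟩ := hr
        obtain ⟨s', hs'⟩ := hs
        have hr9 : r = 25 ∨ r = 27 ∨ r = 29 ∨ r = 31 ∨ r = 33 ∨ r = 35 := by omega
        rcases hr9 with rfl | rfl | rfl | rfl | rfl | rfl
        · have h9 : 15 ≤ s' := by omega
          have h12 : s' ≤ 24 := by omega
          interval_cases s' <;> omega
        all_goals omega
      · omega

end Q277.OddPow
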