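import Mathlib
import Pool.Agent.Q277.OddPowA

/-!
Forward differences of `C(h,p)^s` modulo `p` and modulo `p ^ 2`.
-/

namespace Q277.OddPow

open Finset Polynomial

/-- the functional `X^i ↦ f i` -/
noncomputable def lam (f : ℕ → ℤ) : ℤ[X] →ₗ[ℤ] ℤ := Polynomial.lsum fun i => LinearMap.mulRight ℤ (f i)

theorem lam_X_pow (f : ℕ → ℤ) (i : ℕ) : lam f (X ^ i) = f i := by
  unfold lam
  rw [Polynomial.lsum_apply, X_pow_eq_monomial, sum_monomial_index]
  · simp
  · simp

theorem lam_C_mul (f : ℕ → ℤ) (a : ℤ) (P : ℤ[X]) : lam f (C a * P) = a * lam f P := by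
  rw [← smul_eq_C_mul, map_smul, smul_eq_mul]

theorem lam_mul_pow (f : ℕ → ℤ) (u q i : ℕ) : lam f (X ^ u * (X ^ q - 1) ^ i)
    = ∑ l ∈ range (i + 1), (-1) ^ (i - l) * (i.choose l : ℤ) * f (u + q * l) := by
  rw [sub_eq_add_neg, add_pow, mul_sum, map_sum]
  refine sum_congr rfl fun l _ => ?_
  have : (X : ℤ[X]) ^ u * ((X ^ q) ^ l * (-1) ^ (i - l) * (i.choose l : ℤ[X]))
      = C ((-1) ^ (i - l) * (i.choose l : ℤ)) * X ^ (u + q * l) := by
    simp only [C_mul, C_pow, C_neg, C_1, map_natCast]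
    rw [pow_add, pow_mul]
    ring
  rw [this, lam_C_mul, lam_X_pow]

theorem lam_sub_one_pow (f : ℕ → ℤ) (j : ℕ) : lam f ((X - 1) ^ j) = mc f j := by
  have h := lam_mul_pow f 0 1 j
  rw [pow_zero, one_mul, pow_one] at h
  rw [h]
  unfold mc
  refine sum_congr rfl fun l _ => ?_
  rw [zero_add, one_mul]

theorem lam_const (f : ℕ → ℤ) (Q : ℤ[X]) (m κ : ℤ) (D : ℕ) (h : ∀ u ≤ D, m ∣ lam f (X ^ u * Q) - κ)
    (P : ℤ[X]) (hP : P.natDegree ≤ D) : m ∣ lam f (P * Q) - P.eval 1 * κ := by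
  have h1 : P * Q = ∑ u ∈ range (D + 1), C (P.coeff u) * (X ^ u * Q) := by
    conv_lhs => rw [P.as_sum_range' (D + 1) (by omega), sum_mul]
    refine sum_congr rfl fun u _ => ?_
    rw [← C_mul_X_pow_eq_monomial]
    ring
  have h2 : P.eval 1 = ∑ u ∈ range (D + 1), P.coeff u := by
    conv_lhs => rw [P.as_sum_range' (D + 1) (by omega), eval_finsetSum]
    refine sum_congr rfl fun u _ => ?_
    rw [eval_monomial]
    simp
  rw [h1, map_sum, h2, sum_mul, ← sum_sub_distrib]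
  refine dvd_sum fun u hu => ?_
  rw [lam_C_mul, ← mul_sub]
  exact (h u (by have := mem_range.1 hu; omega)).mul_left _

/-- `(X - 1)^p = X^p - 1 + p R` -/
theorem frob (p : ℕ) (hp : p.Prime) (hp2 : Odd p) : ∃ R : ℤ[X], R.natDegree ≤ p - 1 ∧
    (X - 1) ^ p = X ^ p - 1 + C (p : ℤ) * R := by
  refine ⟨∑ l ∈ Ico 1 p, C ((-1) ^ (p - l) * ((p.choose l / p : ℕ) : ℤ)) * X ^ l, ?_, ?_⟩
  · refine natDegree_sum_le_of_forall_le _ _ fun l hl => ?_
    rw [mem_Ico] at hl
    refine (natDegree_C_mul_X_pow_le _ _).trans ?_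
    omega
  · have h : ((X : ℤ[X]) - 1) ^ p = ∑ l ∈ range (p + 1), X ^ l * (-1) ^ (p - l) * (p.choose l : ℤ[X]) := by
      rw [sub_eq_add_neg, add_pow]
    rw [h, sum_range_succ, range_eq_Ico, sum_eq_sum_Ico_succ_bot hp.pos]
    rw [mul_sum, zero_add]
    have h2 : ∀ l ∈ Ico 1 p, C (p : ℤ) * (C ((-1) ^ (p - l) * ((p.choose l / p : ℕ) : ℤ)) * (X : ℤ[X]) ^ l)
        = X ^ l * (-1) ^ (p - l) * (p.choose l : ℤ[X]) := by
      intro l hl
      rw [mem_Ico] at hl
      obtain ⟨c, hc⟩ := hp.dvd_choose_self (by omega : l ≠ 0) hl.2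
      rw [hc, Nat.mul_div_cancel_left _ hp.pos]
      simp only [C_mul, C_pow, C_neg, C_1, map_natCast, Nat.cast_mul]
      ring
    rw [sum_congr rfl h2]
    simp only [pow_zero, Nat.sub_zero, Nat.choose_zero_right, Nat.choose_self, Nat.sub_self, Nat.cast_one,
      mul_one, one_mul, hp2.neg_one_pow]
    ring

section

variable (p s : ℕ)

/-- forward differences of `l^s` -/
theorem b_dvd (hp : p.Prime) (hp2 : Odd p) (i : ℕ) (hi : p ≤ i) : (p : ℤ) ∣ mc (fun l => (l : ℤ) ^ s) i := by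
  obtain ⟨R, -, hR⟩ := frob p hp hp2
  rw [← lam_sub_one_pow, show i = p + (i - p) by omega, pow_add, hR, add_mul, map_add, mul_assoc, lam_C_mul]
  refine dvd_add ?_ (Dvd.intro _ rfl)
  rw [mul_comm]
  have h := lam_const (fun l => (l : ℤ) ^ s) (X ^ p - 1) p 0 (i - p) (by
    intro u _
    have h1 := lam_mul_pow (fun l => (l : ℤ) ^ s) u p 1
    rw [pow_one] at h1
    rw [h1, sum_range_succ, sum_range_succ, sum_range_zero]
    simp only [Nat.sub_zero, pow_one, Nat.choose_zero_right, Nat.cast_one, mul_one, mul_zero, add_zero,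
      Nat.sub_self, pow_zero, Nat.choose_self, one_mul, sub_zero, zero_add]
    have h2 := sub_dvd_pow_sub_pow (((u + p : ℕ) : ℤ)) (u : ℤ) s
    have h3 : (p : ℤ) ∣ ((u + p : ℕ) : ℤ) - u := ⟨1, by push_cast; ring⟩
    have h4 := h3.trans h2
    have h5 : -1 * ((u : ℕ) : ℤ) ^ s + (((u + p : ℕ)) : ℤ) ^ s = ((u + p : ℕ) : ℤ) ^ s - (u : ℤ) ^ s := by ring
    rw [h5]
    exact h4) ((X - 1) ^ (i - p)) (by
      refine natDegree_pow_le.trans ?_
      have : (X - 1 : ℤ[X]).natDegree ≤ 1 := by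
        rw [show (1 : ℤ[X]) = C 1 by simp]
        exact (natDegree_X_sub_C_le _)
      calc (i - p) * (X - 1 : ℤ[X]).natDegree ≤ (i - p) * 1 := Nat.mul_le_mul_left _ this
        _ = i - p := mul_one _)
  simpa using h

theorem b_last (hp : p.Prime) (hp2 : Odd p) (hs : Odd s) : (p : ℤ) ∣ mc (fun l => (l : ℤ) ^ s) (p - 1) := by
  have := Fact.mk hp
  rw [← ZMod.intCast_zmod_eq_zero_iff_dvd]
  unfold mc
  rw [show p - 1 + 1 = p by have := hp.pos; omega]
  push_cast
  have h1 : ∀ l ∈ range p, (-1 : ZMod p) ^ (p - 1 - l) * ((p - 1).choose l : ZMod p) * (l : ZMod p) ^ s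
      = (l : ZMod p) ^ s := by
    intro l hl
    have hl' := mem_range.1 hl
    have h2 : ((p - 1).choose l : ZMod p) = (-1) ^ l := by
      induction l with
      | zero => simp
      | succ l ih =>
        have h3 := ih (mem_range.2 (by omega)) (by omega)
        have h4 : (p.choose (l + 1) : ZMod p) = 0 := by
          rw [ZMod.natCast_eq_zero_iff]
          exact hp.dvd_choose_self (by omega) (by omega)
        have h5 : p.choose (l + 1) = (p - 1).choose l + (p - 1).choose (l + 1) := by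
          conv_lhs => rw [show p = p - 1 + 1 by omega, Nat.choose_succ_succ]
        rw [h5] at h4
        push_cast at h4
        rw [pow_succ, ← h3]
        linear_combination h4
    rw [h2, ← pow_add, show p - 1 - l + l = p - 1 by omega]
    have : Even (p - 1) := by
      obtain ⟨q, hq⟩ := hp2
      exact ⟨q, by omega⟩
    rw [this.neg_one_pow, one_mul]
  rw [sum_congr rfl h1]
  have h3 : ∑ l ∈ range p, (l : ZMod p) ^ s = - ∑ l ∈ range p, (l : ZMod p) ^ s := by
    obtain ⟨q, hq⟩ : ∃ q, p = q + 1 := ⟨p - 1, by have := hp.pos; omega⟩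
    have hz : ((0 : ℕ) : ZMod p) ^ s = 0 := by
      have : s ≠ 0 := by
        rintro rfl
        exact absurd hs (by decide)
      simp [this]
    subst hq
    rw [sum_range_succ', hz, add_zero]
    conv_lhs => rw [← sum_range_reflect]
    rw [← sum_neg_distrib]
    refine sum_congr rfl fun l hl => ?_
    have hl' := mem_range.1 hl
    rw [← hs.neg_pow]
    congr 1
    have : ((q - 1 - l + 1 : ℕ) : ZMod (q + 1)) + ((l + 1 : ℕ) : ZMod (q + 1)) = 0 := by
      rw [← Nat.cast_add, show q - 1 - l + 1 + (l + 1) = q + 1 by omega]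
      exact ZMod.natCast_self (q + 1)
    exact eq_neg_of_add_eq_zero_left this
  have h4 : (2 : ZMod p) * ∑ l ∈ range p, (l : ZMod p) ^ s = 0 := by linear_combination h3
  rcases mul_eq_zero.1 h4 with h5 | h5
  · exfalso
    have : ((2 : ℕ) : ZMod p) = 0 := by exact_mod_cast h5
    rw [ZMod.natCast_eq_zero_iff] at this
    have h6 := (Nat.prime_dvd_prime_iff_eq hp Nat.prime_two).1 this
    rw [h6] at hp2
    exact absurd hp2 (by decide)
  · exact h5

end

section

variable {p : ℕ}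

theorem choose_mul_low (hp : p.Prime) (l m : ℕ) (h0 : 0 < m) (hm : m < p) : p ∣ (p * l).choose m := by
  have := Fact.mk hp
  have h := Choose.choose_modEq_choose_mod_mul_choose_div_nat (n := p * l) (k := m) (p := p)
  rw [Nat.mul_mod_right, Nat.mod_eq_of_lt hm, Nat.choose_eq_zero_of_lt h0, zero_mul] at h
  exact (Nat.modEq_zero_iff_dvd).1 h

theorem choose_lin (hp : p.Prime) (m : ℕ) (h0 : 0 < m) (hm : m ≤ p) (l : ℕ) :
    (p : ℤ) ^ 2 ∣ ((p * l).choose m : ℤ) - l * (p.choose m : ℤ) := by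
  induction l with
  | zero =>
    rw [mul_zero, Nat.choose_eq_zero_of_lt h0]
    simp
  | succ l ih =>
    have h1 : (p * (l + 1)).choose m = ∑ ij ∈ antidiagonal m, (p * l).choose ij.1 * p.choose ij.2 := by
      rw [mul_add, mul_one, Nat.add_choose_eq]
    rw [Nat.sum_antidiagonal_eq_sum_range_succ (fun i j => (p * l).choose i * p.choose j),
      sum_range_succ, Nat.sub_self, Nat.choose_zero_right, mul_one, range_eq_Ico,
      sum_eq_sum_Ico_succ_bot h0, Nat.choose_zero_right, one_mul, Nat.sub_zero, zero_add] at h1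
    have h2 : (p : ℤ) ^ 2 ∣ ((∑ k ∈ Ico 1 m, (p * l).choose k * p.choose (m - k) : ℕ) : ℤ) := by
      push_cast
      refine dvd_sum fun k hk => ?_
      rw [mem_Ico] at hk
      rw [pow_two]
      refine mul_dvd_mul ?_ ?_
      · exact_mod_cast choose_mul_low hp l k (by omega) (by omega)
      · exact_mod_cast hp.dvd_choose_self (by omega) (by omega)
    rw [h1]
    push_cast at h2 ⊢
    have : (p.choose m : ℤ) + ∑ x ∈ Ico 1 m, ((p * l).choose x : ℤ) * (p.choose (m - x) : ℤ) + ((p * l).choose m : ℤ)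
        - ((l : ℤ) + 1) * (p.choose m : ℤ)
        = (((p * l).choose m : ℤ) - l * (p.choose m : ℤ))
          + ∑ x ∈ Ico 1 m, ((p * l).choose x : ℤ) * (p.choose (m - x) : ℤ) := by ring
    rw [this]
    exact dvd_add ih h2

theorem choose_shift (hp : p.Prime) (u l : ℕ) (hu : u < p) :
    (p : ℤ) ^ 2 ∣ ((u + p * l).choose p : ℤ) - l * ((u + p).choose p : ℤ) := by
  have h1 : ∀ l : ℕ, ((u + p * l).choose p : ℤ)
      = ∑ k ∈ range (p + 1), (u.choose k : ℤ) * ((p * l).choose (p - k) : ℤ) := by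
    intro l
    rw [Nat.add_choose_eq, Nat.sum_antidiagonal_eq_sum_range_succ (fun i j => u.choose i * (p * l).choose j)]
    push_cast
    rfl
  have h2 := h1 1
  rw [mul_one] at h2
  rw [h1 l, h2, mul_sum, ← sum_sub_distrib]
  refine dvd_sum fun k hk => ?_
  have hk' := mem_range.1 hk
  rcases Nat.lt_or_ge u k with h | h
  · rw [Nat.choose_eq_zero_of_lt h]
    simp
  · have h3 := choose_lin hp (p - k) (by omega) (by omega) l
    have : (u.choose k : ℤ) * ((p * l).choose (p - k) : ℤ) - l * ((u.choose k : ℤ) * (p.choose (p - k) : ℤ))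
        = (u.choose k : ℤ) * (((p * l).choose (p - k) : ℤ) - l * (p.choose (p - k) : ℤ)) := by ring
    rw [this]
    exact h3.mul_left _

theorem choose_modp (hp : p.Prime) (h : ℕ) : (p : ℤ) ∣ (h.choose p : ℤ) - (h / p : ℕ) := by
  have := Fact.mk hp
  have h1 := Choose.choose_modEq_choose_mod_mul_choose_div_nat (n := h) (k := p) (p := p)
  rw [Nat.mod_self, Nat.choose_zero_right, one_mul, Nat.div_self hp.pos, Nat.choose_one_right] at h1
  have h2 := (Nat.modEq_iff_dvd.1 h1)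
  rw [← neg_sub]
  exact (dvd_neg.2 h2)

/-- `f(h) = C(h,p)^s` -/
def ff (p s : ℕ) (h : ℕ) : ℤ := ((h.choose p : ℕ) : ℤ) ^ s

theorem ff_modp (hp : p.Prime) (s h : ℕ) : (p : ℤ) ∣ ff p s h - ((h / p : ℕ) : ℤ) ^ s :=
  (choose_modp hp h).trans (sub_dvd_pow_sub_pow _ _ s)

/-- difference of order `i` of `w^s` at `w` -/
def psi (s i w : ℕ) : ℤ := ∑ l ∈ range (i + 1), (-1) ^ (i - l) * (i.choose l : ℤ) * ((w + l : ℕ) : ℤ) ^ s

theorem psi_zero (s i : ℕ) : psi s i 0 = mc (fun l => (l : ℤ) ^ s) i := by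
  unfold psi mc
  refine sum_congr rfl fun l _ => ?_
  rw [zero_add]

theorem psi_one (s i : ℕ) : psi s i 1 = psi s i 0 + psi s (i + 1) 0 := by
  have h1 : ∀ w i, psi s i w = lam (fun l => ((w + l : ℕ) : ℤ) ^ s) ((X - 1) ^ i) := by
    intro w i
    rw [lam_sub_one_pow]
    rfl
  have h2 : ∀ P : ℤ[X], lam (fun l => ((1 + l : ℕ) : ℤ) ^ s) P
      = lam (fun l => ((0 + l : ℕ) : ℤ) ^ s) (P * X) := by
    intro P
    induction P using Polynomial.induction_on' with
    | add P Q hP hQ => rw [map_add, hP, hQ, add_mul, map_add]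
    | monomial n a =>
      rw [← C_mul_X_pow_eq_monomial, lam_C_mul, lam_X_pow, mul_assoc, ← pow_succ, lam_C_mul, lam_X_pow]
      congr 3
      omega
  rw [h1, h1, h1, h2, ← map_add, pow_succ]
  congr 1
  ring

theorem lam_modp (hp : p.Prime) (s u i : ℕ) :
    (p : ℤ) ∣ lam (ff p s) (X ^ u * (X ^ p - 1) ^ i) - psi s i (u / p) := by
  rw [lam_mul_pow]
  unfold psi
  rw [← sum_sub_distrib]
  refine dvd_sum fun l _ => ?_
  rw [← mul_sub]
  refine Dvd.dvd.mul_left ?_ _
  have h := ff_modp hp s (u + p * l)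
  rw [Nat.add_mul_div_left _ _ hp.pos] at h
  exact h

theorem deg_sub_one (n : ℕ) : ((X - 1 : ℤ[X]) ^ n).natDegree ≤ n := by
  refine natDegree_pow_le.trans ?_
  have : (X - 1 : ℤ[X]).natDegree ≤ 1 := by
    rw [show (1 : ℤ[X]) = C 1 by simp]
    exact (natDegree_X_sub_C_le _)
  calc n * (X - 1 : ℤ[X]).natDegree ≤ n * 1 := Nat.mul_le_mul_left _ this
    _ = n := mul_one _

/-- Claim A: `p` divides the differences of order `j` unless `p ∣ j` and `j < p ^ 2`. -/
theorem claimA (hp : p.Prime) (hp2 : Odd p) (s j : ℕ) (hj : ¬ p ∣ j ∨ p ^ 2 ≤ j) :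
    (p : ℤ) ∣ mc (ff p s) j := by
  obtain ⟨R, -, hR⟩ := frob p hp hp2
  have hj' : j = p * (j / p) + j % p := (Nat.div_add_mod j p).symm
  set i := j / p with hi
  set j0 := j % p with hj0
  have hj0' : j0 < p := Nat.mod_lt _ hp.pos
  have h1 : (X - 1 : ℤ[X]) ^ j = (X - 1) ^ j0 * (X ^ p - 1 + C (p : ℤ) * R) ^ i := by
    rw [← hR, ← pow_mul, ← pow_add, hj', add_comm j0]
  obtain ⟨W, hW⟩ : C (p : ℤ) ∣ (X ^ p - 1 + C (p : ℤ) * R) ^ i - (X ^ p - 1) ^ i := by
    refine Dvd.dvd.trans ?_ (sub_dvd_pow_sub_pow _ _ i)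
    exact ⟨R, by ring⟩
  have h2 : (X - 1 : ℤ[X]) ^ j = (X - 1) ^ j0 * (X ^ p - 1) ^ i + C (p : ℤ) * ((X - 1) ^ j0 * W) := by
    rw [h1, show (X ^ p - 1 + C (p : ℤ) * R) ^ i = (X ^ p - 1) ^ i + C (p : ℤ) * W by rw [← hW]; ring]
    ring
  rw [← lam_sub_one_pow, h2, map_add, lam_C_mul]
  refine dvd_add ?_ (Dvd.intro _ rfl)
  have h3 := lam_const (ff p s) ((X ^ p - 1) ^ i) p (psi s i 0) (p - 1) (by
    intro u hu
    have := lam_modp hp s u i
    rwa [Nat.div_eq_of_lt (show u < p by have := hp.pos; omega)] at this) ((X - 1) ^ j0) (by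
    refine (deg_sub_one j0).trans ?_
    omega)
  rcases Nat.eq_zero_or_pos j0 with h | h
  · have hdvd : p ∣ j := Nat.dvd_of_mod_eq_zero h
    have hj2 : p ^ 2 ≤ j := by
      rcases hj with h5 | h5
      · exact absurd hdvd h5
      · exact h5
    have hip : p ≤ i := by
      rw [hi, Nat.le_div_iff_mul_le hp.pos, ← pow_two]
      exact hj2
    have h4 := b_dvd p s hp hp2 i hip
    rw [← psi_zero] at h4
    have h5 := (h4.mul_left (((X - 1 : ℤ[X]) ^ j0).eval 1))
    have := dvd_add h3 h5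
    simpa using this
  · have h4 : ((X - 1 : ℤ[X]) ^ j0).eval 1 = 0 := by
      rw [eval_pow]
      simp
      omega
    rw [h4, zero_mul, sub_zero] at h3
    exact h3

end

end Q277.OddPow
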