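import Mathlib
import Pool.Agent.Q277.OddPowB
import Pool.Agent.Q277.OddPowD
import Pool.Agent.Q277.OddPowE

/-!
The divisibility of the forward differences in all cases.
-/

namespace Q277.OddPow

open Finset Polynomial

theorem b_all {p s : ℕ} (hp : p.Prime) (hp2 : Odd p) (hs : Odd s) (i : ℕ) (hi : p - 1 ≤ i) :
    (p : ℤ) ∣ psi s i 0 := by
  rw [psi_zero]
  rcases Nat.lt_or_ge i p with h | h
  · have : i = p - 1 := by omega
    subst this
    exact b_last p s hp hp2 hs
  · exact b_dvd p s hp hp2 i h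

/-- Claim B: `p ^ 2` divides the differences of order `p i + p - 1`, `i ≥ p - 1`. -/
theorem claimB {p s : ℕ} (hp : p.Prime) (hp2 : Odd p) (hs : Odd s) (i : ℕ) (hi : p - 1 ≤ i) :
    (p : ℤ) ^ 2 ∣ mc (ff p s) (p * i + (p - 1)) := by
  have hp3 : 2 ≤ p := hp.two_le
  obtain ⟨R, hRd, hR⟩ := frob p hp hp2
  obtain ⟨W, hW⟩ := Polynomial.powAddExpansion (X ^ p - 1 : ℤ[X]) (C (p : ℤ) * R) i
  have h1 : (X - 1 : ℤ[X]) ^ (p * i + (p - 1)) = (X - 1) ^ (p - 1) * (X ^ p - 1) ^ i
      + C (p : ℤ) * (C (i : ℤ) * (((X - 1) ^ (p - 1) * R) * (X ^ p - 1) ^ (i - 1)))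
      + C ((p : ℤ) ^ 2) * ((X - 1) ^ (p - 1) * (W * R ^ 2)) := by
    rw [pow_add, pow_mul, hR, hW]
    simp only [C_pow, map_natCast]
    ring
  rw [← lam_sub_one_pow, h1, map_add, map_add, lam_C_mul, lam_C_mul, lam_C_mul]
  have hev : ((X - 1 : ℤ[X]) ^ (p - 1)).eval 1 = 0 := by
    rw [eval_pow]
    simp
    omega
  have hb := b_all hp hp2 hs i hi
  refine dvd_add (dvd_add ?_ ?_) (Dvd.intro _ rfl)
  · have h3 := lam_const (ff p s) ((X ^ p - 1) ^ i) ((p : ℤ) ^ 2) (psi s i 0) (p - 1) (by
      intro u hu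
      have hup : u < p := by omega
      rw [lam_mul_pow]
      have hc : (p : ℤ) ∣ ((((u + p).choose p : ℕ) : ℤ) ^ s - 1) := by
        have h4 := choose_modp hp (u + p)
        have h5 : (u + p) / p = 1 := by
          rw [Nat.add_div_right _ hp.pos, Nat.div_eq_of_lt hup]
        rw [h5] at h4
        have h6 := h4.trans (sub_dvd_pow_sub_pow _ _ s)
        simpa using h6
      have h7 : (p : ℤ) ^ 2 ∣ ∑ l ∈ range (i + 1), (-1) ^ (i - l) * (i.choose l : ℤ) * ff p s (u + p * l)
          - (((u + p).choose p : ℕ) : ℤ) ^ s * psi s i 0 := by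
        unfold psi
        rw [mul_sum, ← sum_sub_distrib]
        refine dvd_sum fun l _ => ?_
        have h8 := (choose_shift hp u l hup).trans (sub_dvd_pow_sub_pow _ _ s)
        have h9 : (-1) ^ (i - l) * (i.choose l : ℤ) * ff p s (u + p * l)
            - (((u + p).choose p : ℕ) : ℤ) ^ s * ((-1) ^ (i - l) * (i.choose l : ℤ) * ((0 + l : ℕ) : ℤ) ^ s)
            = (-1) ^ (i - l) * (i.choose l : ℤ) * ((((u + p * l).choose p : ℕ) : ℤ) ^ s
              - ((l : ℤ) * (((u + p).choose p : ℕ) : ℤ)) ^ s) := by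
          unfold ff
          rw [zero_add, mul_pow]
          ring
        rw [h9]
        exact h8.mul_left _
      have h10 : (p : ℤ) ^ 2 ∣ ((((u + p).choose p : ℕ) : ℤ) ^ s - 1) * psi s i 0 := by
        rw [pow_two]
        exact mul_dvd_mul hc hb
      have h11 := dvd_add h7 h10
      have h12 : ∑ l ∈ range (i + 1), (-1) ^ (i - l) * (i.choose l : ℤ) * ff p s (u + p * l)
          - (((u + p).choose p : ℕ) : ℤ) ^ s * psi s i 0
          + ((((u + p).choose p : ℕ) : ℤ) ^ s - 1) * psi s i 0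
          = ∑ l ∈ range (i + 1), (-1) ^ (i - l) * (i.choose l : ℤ) * ff p s (u + p * l) - psi s i 0 := by
        ring
      rwa [h12] at h11) ((X - 1) ^ (p - 1)) (deg_sub_one _)
    rw [hev, zero_mul, sub_zero] at h3
    exact h3
  · rw [pow_two]
    refine mul_dvd_mul (dvd_refl _) (Dvd.dvd.mul_left ?_ _)
    have h3 := lam_const (ff p s) ((X ^ p - 1) ^ (i - 1)) (p : ℤ) (psi s (i - 1) 0) (p - 1 + (p - 1)) (by
      intro u hu
      have h4 := lam_modp hp s u (i - 1)
      rcases Nat.lt_or_ge u p with h | h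
      · rwa [Nat.div_eq_of_lt h] at h4
      · have h5 : u / p = 1 := by
          apply Nat.div_eq_of_lt_le <;> omega
        rw [h5, psi_one, show i - 1 + 1 = i by omega] at h4
        have h6 := dvd_add h4 hb
        have h7 : lam (ff p s) (X ^ u * (X ^ p - 1) ^ (i - 1)) - (psi s (i - 1) 0 + psi s i 0) + psi s i 0
            = lam (ff p s) (X ^ u * (X ^ p - 1) ^ (i - 1)) - psi s (i - 1) 0 := by ring
        rwa [h7] at h6) ((X - 1) ^ (p - 1) * R) (natDegree_mul_le.trans (Nat.add_le_add (deg_sub_one _) hRd))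
    rw [eval_mul, hev, zero_mul, zero_mul, sub_zero] at h3
    exact h3

theorem mc_low (r s j : ℕ) (hs : 1 ≤ s) (hj : j < r) : mc (fun h => ((h.choose r : ℕ) : ℤ) ^ s) j = 0 := by
  unfold mc
  refine sum_eq_zero fun i hi => ?_
  have := mem_range.1 hi
  have hs0 : s ≠ 0 := by omega
  have h0 : i.choose r = 0 := Nat.choose_eq_zero_of_lt (show i < r by omega)
  simp only [h0]
  simp [hs0]

theorem combine {p : ℕ} {Cn : ℕ} {z : ℤ} (A B n : ℕ) (hA : A ≤ padicValNat p Cn) (hB : (p : ℤ) ^ B ∣ z)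
    (h : n ≤ A + B) : (p : ℤ) ^ n ∣ (Cn : ℤ) * z := by
  refine (pow_dvd_pow _ h).trans ?_
  rw [pow_add]
  refine mul_dvd_mul ?_ hB
  have h1 : p ^ A ∣ Cn := (pow_dvd_pow p hA).trans pow_padicValNat_dvd
  exact_mod_cast h1

theorem star_p (p s Cn : ℕ) (hp : p.Prime) (hp3 : 3 ≤ p) (hs : Odd s) (hps : p ≤ s)
    (hC : Cn * (p.factorial) ^ s = (p * s + 1).factorial) (j L x : ℕ) (hj1 : 1 ≤ j) (hj : j ≤ p * s)
    (hL : p ^ L ≤ j) (hL2 : j < p ^ (L + 1)) (hx : p ^ x ∣ j + 1) :
    (p : ℤ) ^ (L + x) ∣ (Cn : ℤ) * mc (ff p s) j := by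
  have hp2 : Odd p := hp.odd_of_ne_two (by omega)
  have hpp : p ^ 2 = p * p := pow_two p
  have hsp : p * p ≤ p * s := Nat.mul_le_mul_left p hps
  have hv : ∀ b, p ^ (1 + b) ≤ p * s + 1 → ∑ t ∈ range b, p ^ t ≤ padicValNat p Cn := by
    intro b hb
    have h1 := tail_ge p p s 1 b (by omega) (by rw [show 1 + 1 = 2 by norm_num, hpp]; nlinarith) hb
    have h2 := val_C p p s Cn hp hC (Ico (1 + 1) (1 + b + 1)) (by
      intro i hi
      rw [mem_Ico] at hi
      omega)
    omega
  have hv1 : 1 ≤ padicValNat p Cn := by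
    have := hv 1 (by rw [show 1 + 1 = 2 by norm_num, hpp]; omega)
    simpa using this
  have hxle := Nat.le_of_dvd (by omega) hx
  have hlast : p ∣ j + 1 → p ^ 2 ≤ j + 1 → (p : ℤ) ^ 2 ∣ mc (ff p s) j := by
    intro hd hge
    obtain ⟨c, hc⟩ := hd
    have hc1 : p ≤ c := by
      rw [hc, hpp] at hge
      exact Nat.le_of_mul_le_mul_left hge hp.pos
    have h1 : j = p * (c - 1) + (p - 1) := by
      obtain ⟨d, rfl⟩ : ∃ d, c = d + 1 := ⟨c - 1, by omega⟩
      rw [Nat.add_sub_cancel, mul_add, mul_one] at *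
      omega
    rw [h1]
    exact claimB hp hp2 hs (c - 1) (by omega)
  rcases Nat.lt_or_ge L 1 with h0 | h1
  · have : L = 0 := by omega
    subst this
    rw [zero_add, pow_one] at hL2
    have := mc_low p s j (by omega) hL2
    unfold ff
    rw [this]
    simp
  rcases Nat.lt_or_ge L 2 with h2 | h2
  · have : L = 1 := by omega
    subst this
    rw [show 1 + 1 = 2 by norm_num] at hL2
    rcases Nat.eq_zero_or_pos x with rfl | hx0
    · exact combine 1 0 _ hv1 (by simp) (by omega)
    have hpj : p ∣ j + 1 := (dvd_pow_self p (by omega)).trans hx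
    rcases Nat.lt_or_ge x 2 with hx1 | hx2
    · have hnd : ¬ p ∣ j := by
        intro hh
        have := (Nat.dvd_add_right hh).1 hpj
        have := Nat.le_of_dvd (by norm_num) this
        omega
      have := claimA hp hp2 s j (Or.inl hnd)
      exact combine 1 1 _ hv1 (by simpa using this) (by omega)
    · have hx3 : x = 2 := by
        by_contra hne
        have e1 : p ^ 3 ≤ p ^ x := Nat.pow_le_pow_right (by omega) (by omega)
        have e2 : p ^ 3 = p ^ 2 * p := pow_succ p 2
        have e3 : p ^ 2 * p ≤ j + 1 := by omega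
        have e4 : p ^ 2 * 3 ≤ p ^ 2 * p := Nat.mul_le_mul_left _ hp3
        have e5 : 0 < p ^ 2 := pow_pos hp.pos 2
        omega
      subst hx3
      exact combine 1 2 _ hv1 (hlast hpj (by omega)) (by omega)
  -- L ≥ 2
  have hj2 : p ^ 2 ≤ j := (Nat.pow_le_pow_right (by omega) h2).trans hL
  have hA := claimA hp hp2 s j (Or.inr hj2)
  have hvL := hv (L - 1) (by rw [show 1 + (L - 1) = L by omega]; omega)
  have hge1 : ∀ b, b ≤ ∑ t ∈ range b, p ^ t := by
    intro b
    calc b = ∑ t ∈ range b, 1 := by simp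
      _ ≤ _ := sum_le_sum fun t _ => Nat.one_le_pow _ _ hp.pos
  rcases Nat.eq_zero_or_pos x with rfl | hx0
  · have := hge1 (L - 1)
    exact combine (L - 1) 1 _ (by omega) (by simpa using hA) (by omega)
  have hpj : p ∣ j + 1 := (dvd_pow_self p (by omega)).trans hx
  have hB := hlast hpj (by omega)
  rcases Nat.lt_or_ge L x with hLx | hLx
  · -- x = L + 1
    have hx3 : x = L + 1 := by
      by_contra hne
      have e1 : p ^ (L + 1 + 1) ≤ p ^ x := Nat.pow_le_pow_right (by omega) (by omega)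
      have e2 : p ^ (L + 1 + 1) = p ^ (L + 1) * p := pow_succ p (L + 1)
      have e3 : p ^ (L + 1) * p ≤ j + 1 := by omega
      have e4 : p ^ (L + 1) * 3 ≤ p ^ (L + 1) * p := Nat.mul_le_mul_left _ hp3
      have e5 : 0 < p ^ (L + 1) := pow_pos hp.pos _
      omega
    subst hx3
    have hvL2 := hv L (by rw [show 1 + L = L + 1 by omega]; omega)
    rcases Nat.lt_or_ge L 3 with h3 | h3
    · have : L = 2 := by omega
      subst this
      simp [sum_range_succ] at hvL2
      exact combine 4 2 _ (by omega) hB (by omega)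
    · have := geo p L hp3 h3
      exact combine (4 * L) 2 _ (by omega) hB (by omega)
  · rcases Nat.lt_or_ge L 3 with h3 | h3
    · have hL2' : L = 2 := by omega
      subst hL2'
      rcases Nat.lt_or_ge x 2 with hx1 | hx2
      · exact combine 1 2 _ hv1 hB (by omega)
      · have hx3 : x = 2 := by omega
        subst hx3
        obtain ⟨c, hc⟩ := hx
        have hc2 : 2 ≤ c := by
          by_contra h3
          have : c = 0 ∨ c = 1 := by omega
          rcases this with rfl | rfl
          · simp at hc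
          · omega
        have h5 : p ^ 2 * 2 ≤ p ^ 2 * c := Nat.mul_le_mul_left _ hc2
        have h6 : 2 ≤ tt p p s 2 := by
          unfold tt
          have h7 : p / p ^ 2 = 0 := by
            apply Nat.div_eq_of_lt
            rw [hpp]
            nlinarith
          rw [h7, mul_zero, Nat.sub_zero, Nat.le_div_iff_mul_le (by positivity)]
          omega
        have h8 := val_C p p s Cn hp hC {2} (by
          intro i hi
          rw [mem_singleton] at hi
          omega)
        rw [sum_singleton] at h8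
        exact combine 2 2 _ (by omega) hB (by omega)
    · rcases Nat.lt_or_ge L 4 with h4 | h4
      · have : L = 3 := by omega
        subst this
        simp [sum_range_succ] at hvL
        exact combine 4 2 _ (by omega) hB (by omega)
      · have := geo p (L - 1) hp3 (by omega)
        exact combine (4 * (L - 1)) 2 _ (by omega) hB (by omega)

end Q277.OddPow
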