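import Mathlib
import Pool.Agent.Q277.OddPowF

/-!
The remaining small cases `r = 9`, `p = 3` and `r = 25`, `p = 5`, and the assembly.
-/

namespace Q277.OddPow

open Finset

def step : List ℤ → List ℤ
  | a :: b :: l => (b - a) :: step (b :: l)
  | _ => []

def chk (A j : ℕ) (z : ℤ) : Bool :=
  (List.range 5).all fun L => (List.range 5).all fun x =>
    !(Nat.ble (3 ^ L) j) || !((j + 1) % 3 ^ x == 0) || (z % 3 ^ (L + x - A) == 0)

def tab (A : ℕ) : ℕ → ℕ → List ℤ → Bool
  | 0, _, _ => true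
  | n + 1, j, l => chk A j (l.headD 0) && tab A n (j + 1) (step l)

def fn (s i : ℕ) : ℤ := ((i.descFactorial 9 / 362880 : ℕ) : ℤ) ^ s

def fl (s n : ℕ) : List ℤ := (List.range' 0 n).map (fn s)

theorem step_eq (g : ℕ → ℤ) (a n : ℕ) : step ((List.range' a (n + 1)).map g)
    = (List.range' a n).map (fun i => g (i + 1) - g i) := by
  induction n generalizing a with
  | zero => simp [step]
  | succ n ih =>
    have h := ih (a + 1)
    have e1 : (List.range' a (n + 1 + 1)).map g = g a :: g (a + 1) :: (List.range' (a + 2) n).map g := by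
      simp [List.range'_succ]
    have e2 : (List.range' (a + 1) (n + 1)).map g = g (a + 1) :: (List.range' (a + 2) n).map g := by
      simp [List.range'_succ]
    have e3 : (List.range' a (n + 1)).map (fun i => g (i + 1) - g i)
        = (g (a + 1) - g a) :: (List.range' (a + 1) n).map (fun i => g (i + 1) - g i) := by
      simp [List.range'_succ]
    rw [e2] at h
    rw [e1, e3, step, h]

theorem tab_sound (A : ℕ) : ∀ (n j : ℕ) (g : ℕ → ℤ), tab A n j ((List.range' 0 n).map g) = true →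
    ∀ t < n, chk A (j + t) ((fwdDiff 1)^[t] g 0) = true := by
  intro n
  induction n with
  | zero => intro j g _ t ht; omega
  | succ n ih =>
    intro j g h t ht
    rw [tab, Bool.and_eq_true, step_eq] at h
    obtain ⟨h1, h2⟩ := h
    cases t with
    | zero =>
      rw [List.range'_succ, List.map_cons, List.headD_cons] at h1
      simpa using h1
    | succ t =>
      have := ih (j + 1) (fun i => g (i + 1) - g i) h2 t (by omega)
      rw [Function.iterate_succ_apply, show j + (t + 1) = j + 1 + t by ring]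
      exact this

theorem chk_sound (A j L x : ℕ) (z : ℤ) (h : chk A j z = true) (hL : L < 5) (hx : x < 5) (h1 : 3 ^ L ≤ j)
    (h2 : 3 ^ x ∣ j + 1) : (3 : ℤ) ^ (L + x - A) ∣ z := by
  unfold chk at h
  rw [List.all_eq_true] at h
  have h3 := h L (List.mem_range.2 hL)
  rw [List.all_eq_true] at h3
  have h4 := h3 x (List.mem_range.2 hx)
  have e1 : Nat.ble (3 ^ L) j = true := by rw [Nat.ble_eq]; exact h1
  have e2 : ((j + 1) % 3 ^ x == 0) = true := by
    rw [beq_iff_eq]
    exact Nat.mod_eq_zero_of_dvd h2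
  rw [e1, e2] at h4
  simp only [Bool.not_true, Bool.false_or, beq_iff_eq] at h4
  exact Int.dvd_of_emod_eq_zero h4

theorem fn_eq (s i : ℕ) : fn s i = ((i.choose 9 : ℕ) : ℤ) ^ s := by
  unfold fn
  rw [Nat.choose_eq_descFactorial_div_factorial, show Nat.factorial 9 = 362880 by decide]

set_option maxRecDepth 100000 in
theorem t9 : tab 4 82 0 (fl 9 82) = true := by decide +kernel
set_option maxRecDepth 100000 in
theorem t11 : tab 4 100 0 (fl 11 100) = true := by decide +kernel
set_option maxRecDepth 100000 in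
theorem t13 : tab 5 118 0 (fl 13 118) = true := by decide +kernel
set_option maxRecDepth 100000 in
theorem t15 : tab 6 136 0 (fl 15 136) = true := by decide +kernel
set_option maxRecDepth 100000 in
theorem t17 : tab 6 154 0 (fl 17 154) = true := by decide +kernel

theorem star_nine (s Cn : ℕ) (hs : Odd s) (hs9 : 9 ≤ s) (hs18 : s < 18)
    (hC : Cn * (Nat.factorial 9) ^ s = (9 * s + 1).factorial) (j L x : ℕ) (hj : j ≤ 9 * s)
    (hL : 3 ^ L ≤ j) (hx : 3 ^ x ∣ j + 1) :
    (3 : ℤ) ^ (L + x) ∣ (Cn : ℤ) * mc (fun h => ((h.choose 9 : ℕ) : ℤ) ^ s) j := by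
  have hv := val_C 3 9 s Cn Nat.prime_three hC {3, 4} (by
    intro i hi
    simp at hi
    omega)
  rw [sum_pair (by norm_num)] at hv
  unfold tt at hv
  norm_num at hv
  have hL5 : L < 5 := by
    by_contra h
    have : 3 ^ 5 ≤ 3 ^ L := Nat.pow_le_pow_right (by norm_num) (by omega)
    norm_num at this
    omega
  have hx5 : x < 5 := by
    by_contra h
    have h1 : 3 ^ 5 ≤ 3 ^ x := Nat.pow_le_pow_right (by norm_num) (by omega)
    have h2 := Nat.le_of_dvd (by omega) hx
    norm_num at h1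
    omega
  have key : ∀ A n : ℕ, tab A n 0 (fl s n) = true → j < n → A ≤ padicValNat 3 Cn →
      (3 : ℤ) ^ (L + x) ∣ (Cn : ℤ) * mc (fun h => ((h.choose 9 : ℕ) : ℤ) ^ s) j := by
    intro A n h1 h2 h3
    have h4 := tab_sound A n 0 (fn s) h1 j h2
    rw [zero_add, mc_eq] at h4
    have h5 := chk_sound A j L x _ h4 hL5 hx5 hL hx
    have h6 : mc (fn s) j = mc (fun h => ((h.choose 9 : ℕ) : ℤ) ^ s) j := by
      unfold mc
      refine sum_congr rfl fun i _ => ?_
      rw [fn_eq]
    rw [h6] at h5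
    have := combine (p := 3) A (L + x - A) (L + x) h3 (by exact_mod_cast h5) (by omega)
    exact_mod_cast this
  obtain ⟨s', hs'⟩ := hs
  have : s = 9 ∨ s = 11 ∨ s = 13 ∨ s = 15 ∨ s = 17 := by omega
  rcases this with rfl | rfl | rfl | rfl | rfl
  · exact key 4 82 t9 (by omega) (by omega)
  · exact key 4 100 t11 (by omega) (by omega)
  · exact key 5 118 t13 (by omega) (by omega)
  · exact key 6 136 t15 (by omega) (by omega)
  · exact key 6 154 t17 (by omega) (by omega)

/-- `5` divides the difference of order `624` of `C(h,25)^s`, `s = 25, 27, 29`. -/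
theorem five_dvd (s : ℕ) (hs : s = 25 ∨ s = 27 ∨ s = 29) :
    (5 : ℤ) ∣ mc (fun h => ((h.choose 25 : ℕ) : ℤ) ^ s) 624 := by
  have hp : Nat.Prime 5 := by norm_num
  have := Fact.mk hp
  have h1 : ∀ i ∈ range 625, (5 : ℤ) ∣ (-1) ^ (624 - i) * ((Nat.choose 624 i : ℕ) : ℤ) * ((i.choose 25 : ℕ) : ℤ) ^ s
      - (((i / 25 : ℕ) : ℤ)) ^ s := by
    intro i hi
    have hi' := mem_range.1 hi
    have h2 := choose_pred (p := 5) (a := 4) (L := 3) (n := 625) hp (by norm_num) (by norm_num) (by norm_num) i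
      (by norm_num; omega)
    norm_num at h2
    have h3 : (5 : ℤ) ∣ ((i.choose 25 : ℕ) : ℤ) - ((i / 25 : ℕ) : ℤ) := by
      have h4 := Choose.choose_modEq_choose_mod_mul_choose_div_nat (n := i) (k := 25) (p := 5)
      have h5 := Choose.choose_modEq_choose_mod_mul_choose_div_nat (n := i / 5) (k := 5) (p := 5)
      norm_num at h4 h5
      have h6 := h4.trans h5
      rw [Nat.div_div_eq_div_mul] at h6
      norm_num at h6
      have h7 := Nat.modEq_iff_dvd.1 h6
      rw [← neg_sub]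
      exact dvd_neg.2 (by exact_mod_cast h7)
    have h4 := h3.trans (sub_dvd_pow_sub_pow _ _ s)
    have h5 : (-1 : ℤ) ^ (624 - i) * (-1) ^ i = 1 := by
      rw [← pow_add, show 624 - i + i = 624 by omega]
      norm_num
    have h6 : (-1) ^ (624 - i) * ((Nat.choose 624 i : ℕ) : ℤ) * ((i.choose 25 : ℕ) : ℤ) ^ s
      - (((i / 25 : ℕ) : ℤ)) ^ s = (-1) ^ (624 - i) * ((i.choose 25 : ℕ) : ℤ) ^ s
          * (((Nat.choose 624 i : ℕ) : ℤ) - (-1) ^ i)
        + (((i.choose 25 : ℕ) : ℤ) ^ s - (((i / 25 : ℕ) : ℤ)) ^ s) := by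
      linear_combination (((i.choose 25 : ℕ) : ℤ) ^ s) * h5
    rw [h6]
    exact dvd_add (Dvd.dvd.mul_left h2 _) h4
  have h2 := dvd_sum h1
  rw [sum_sub_distrib] at h2
  have h3 : (5 : ℤ) ∣ ∑ i ∈ range 625, (((i / 25 : ℕ) : ℤ)) ^ s := by
    have h4 : ∑ i ∈ range 625, (((i / 25 : ℕ) : ℤ)) ^ s = ((∑ i ∈ range 625, (i / 25) ^ s : ℕ) : ℤ) := by
      push_cast
      rfl
    rw [h4]
    rcases hs with rfl | rfl | rfl
    · have : (∑ i ∈ range 625, (i / 25) ^ 25) % 5 = 0 := by decide +kernel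
      exact_mod_cast Nat.dvd_of_mod_eq_zero this
    · have : (∑ i ∈ range 625, (i / 25) ^ 27) % 5 = 0 := by decide +kernel
      exact_mod_cast Nat.dvd_of_mod_eq_zero this
    · have : (∑ i ∈ range 625, (i / 25) ^ 29) % 5 = 0 := by decide +kernel
      exact_mod_cast Nat.dvd_of_mod_eq_zero this
  have h4 := dvd_add h2 h3
  rw [sub_add_cancel] at h4
  exact h4

theorem star_25 (s Cn : ℕ) (hs : Odd s) (hs9 : 25 ≤ s) (hs18 : s < 30)
    (hC : Cn * (Nat.factorial 25) ^ s = (25 * s + 1).factorial) (j L x : ℕ) (hj : j ≤ 25 * s)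
    (hL : 5 ^ L ≤ j) (hx : 5 ^ x ∣ j + 1) :
    (5 : ℤ) ^ (L + x) ∣ (Cn : ℤ) * mc (fun h => ((h.choose 25 : ℕ) : ℤ) ^ s) j := by
  have hp : Nat.Prime 5 := by norm_num
  have hv := val_C 5 25 s Cn hp hC {3, 4} (by
    intro i hi
    simp at hi
    omega)
  rw [sum_pair (by norm_num)] at hv
  unfold tt at hv
  norm_num at hv
  obtain ⟨h1, h2⟩ := LX 5 (25 * s + 1) j L x 4 (by norm_num) (by norm_num; omega) hL hx (by omega)
  have h3 := h2 (by norm_num; omega)
  have h6 : 6 ≤ padicValNat 5 Cn := by omega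
  rcases Nat.lt_or_ge (L + x) 7 with h | h
  · have := combine (p := 5) 6 0 (L + x) h6 (z := mc (fun h => ((h.choose 25 : ℕ) : ℤ) ^ s) j) (by simp) (by omega)
    exact_mod_cast this
  · have hL5 : L < 5 := by
      by_contra hh
      have : 5 ^ 5 ≤ 5 ^ L := Nat.pow_le_pow_right (by norm_num) (by omega)
      norm_num at this
      omega
    have hx5 : x < 5 := by
      by_contra hh
      have h1 : 5 ^ 5 ≤ 5 ^ x := Nat.pow_le_pow_right (by norm_num) (by omega)
      have h2 := Nat.le_of_dvd (by omega) hx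
      norm_num at h1
      omega
    have hLx : (L = 3 ∧ x = 4) ∨ (L = 4 ∧ x = 3) := by omega
    rcases hLx with ⟨rfl, rfl⟩ | ⟨rfl, rfl⟩
    · norm_num at hx hL
      have hj624 : j = 624 := by omega
      subst hj624
      obtain ⟨s', hs'⟩ := hs
      have h7 := five_dvd s (by omega)
      have := combine (p := 5) 6 1 (3 + 4) h6 (by simpa using h7) (by norm_num)
      exact_mod_cast this
    · norm_num at hx hL
      omega

theorem star_all (p r s Cn : ℕ) (hp : p.Prime) (hr : Odd r) (hs : Odd s) (hr3 : 3 ≤ r) (hrs : r ≤ s)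
    (hC : Cn * (r.factorial) ^ s = (r * s + 1).factorial) (j L x : ℕ) (hj1 : 1 ≤ j) (hj : j ≤ r * s)
    (hL : p ^ L ≤ j) (hL2 : j < p ^ (L + 1)) (hx : p ^ x ∣ j + 1) :
    (p : ℤ) ^ (L + x) ∣ (Cn : ℤ) * mc (fun h => ((h.choose r : ℕ) : ℤ) ^ s) j := by
  rcases Nat.lt_or_ge r p with hrp | hpr
  · -- p > r
    refine Dvd.dvd.mul_right ?_ _
    have h1 : p ^ (L + x) ∣ (r * s + 1).factorial := by
      have h2 : p ^ (L + x) ∣ (j + 1).factorial := by
        rw [Nat.factorial_succ, pow_add, mul_comm]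
        exact mul_dvd_mul hx (Nat.dvd_factorial (pow_pos hp.pos _) hL)
      exact h2.trans (Nat.factorial_dvd_factorial (by omega))
    rw [← hC] at h1
    have hcop : Nat.Coprime (p ^ (L + x)) (r.factorial ^ s) := by
      refine Nat.Coprime.pow _ _ ?_
      rw [Nat.Prime.coprime_iff_not_dvd hp, hp.dvd_factorial]
      omega
    have := hcop.dvd_of_dvd_mul_right h1
    exact_mod_cast this
  · by_cases hne : r = p
    · subst hne
      exact star_p r s Cn hp hr3 hs hrs hC j L x hj1 hj hL hL2 hx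
    by_cases h9 : p = 3 ∧ r = 9 ∧ s < 18
    · obtain ⟨rfl, rfl, h18⟩ := h9
      exact star_nine s Cn hs hrs h18 hC j L x hj hL hx
    by_cases h25 : p = 5 ∧ r = 25 ∧ s < 30
    · obtain ⟨rfl, rfl, h30⟩ := h25
      exact star_25 s Cn hs hrs h30 hC j L x hj hL hx
    have hv : L + x ≤ padicValNat p Cn := by
      rcases hp.eq_two_or_odd' with h2 | h2
      · subst h2
        exact star_two r s Cn j L x hr hs hr3 hrs hC hj hL hx
      · have hp3 : 3 ≤ p := by
          have := hp.two_le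
          obtain ⟨q, hq⟩ := h2
          omega
        exact star_odd p r s Cn j L x hp hp3 hr hs hrs hpr hne h9 h25 hC hj hL hx
    exact combine (L + x) 0 _ hv (by simp) (by omega)

theorem main (r s Cn : ℕ) (hr : Odd r) (hs : Odd s) (hr3 : 3 ≤ r) (hrs : r ≤ s)
    (hC : Cn * (r.factorial) ^ s = (r * s + 1).factorial) (n : ℕ) (hn : 1 ≤ n) :
    n ^ 2 ∣ Cn * ∑ h ∈ range n, (h.choose r) ^ s := by
  have key : ∀ p a : ℕ, p.Prime → p ^ a ∣ n → p ^ (2 * a) ∣ Cn * ∑ h ∈ range n, (h.choose r) ^ s := by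
    intro p a hp ha
    have := main_red p hp r s hr hs (by omega) Cn (fun j hj1 hj L x hL hL2 hx =>
      star_all p r s Cn hp hr hs hr3 hrs hC j L x hj1 hj hL hL2 hx) n a hn ha
    have h2 : (((p ^ (2 * a) : ℕ)) : ℤ) ∣ ((Cn * ∑ h ∈ range n, (h.choose r) ^ s : ℕ) : ℤ) := by
      push_cast
      exact this
    exact_mod_cast h2
  rcases Nat.eq_zero_or_pos (Cn * ∑ h ∈ range n, (h.choose r) ^ s) with h0 | h0
  · rw [h0]; exact dvd_zero _
  rw [← Nat.factorization_le_iff_dvd (pow_ne_zero _ (by omega)) (by omega)]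
  intro p
  by_cases hp : p.Prime
  · rw [Nat.factorization_pow, Finsupp.smul_apply, smul_eq_mul, mul_comm]
    rw [← hp.pow_dvd_iff_le_factorization (by omega), mul_comm]
    exact key p _ hp (Nat.ordProj_dvd n p)
  · rw [Nat.factorization_eq_zero_of_not_prime _ hp]
    exact Nat.zero_le _

end Q277.OddPow
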