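import Mathlib
import Pool.Agent.H434R2.ElevenG

/-!
Prime powers: the hypothesis on `p^a/(i+1)` and the reduction of the cubic sums for `p^a` to those for `p`
(from the file `RamanujanElevenModP4` of the starting library).
-/

namespace Q277.PPow

open Finset Pool.Agent.H434R2 PO

section

variable {p : ℕ} [hp : Fact p.Prime]

lemma hv_of {n a : ℕ} (hn : 2 * n + 1 = p ^ a) : ∀ i < 2 * n, PO p 1 (vv n i) := by
  intro i hi
  unfold vv
  have e : (2 * (n : ℚ) + 1) / (i + 1) = (p : ℚ) ^ a / ((i + 1 : ℕ) : ℚ) := by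
    have : (2 * (n : ℚ) + 1) = (p : ℚ) ^ a := by exact_mod_cast hn
    rw [this]; push_cast; rfl
  rw [e]
  apply PO_ppow_div (s := a) (by ring)
  intro hd
  have := Nat.le_of_dvd (by omega) hd
  omega

/-- the cubic sums for `p^a` and for `p` agree modulo `p^4` -/
lemma PP3_reduce {n n' a : ℕ} (hn : 2 * n + 1 = p ^ (a + 1)) (hn' : 2 * n' + 1 = p) :
    PO p 4 (PP n 3 - PP n' 3) := by
  set q := p ^ a with hq
  have hq0 : 0 < q := by rw [hq]; exact pow_pos hp.out.pos _
  have hN : 2 * n + 1 = p * q := by rw [hn, pow_succ, mul_comm]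
  have hNQ : (2 * (n : ℚ) + 1) = (p : ℚ) * q := by exact_mod_cast hN
  have hpQ : (2 * (n' : ℚ) + 1) = (p : ℚ) := by exact_mod_cast hn'
  have himg : (range n).filter (fun i => q ∣ i + 1) = (range n').image (fun j => q * (j + 1) - 1) := by
    ext i
    simp only [mem_filter, mem_range, mem_image]
    constructor
    · rintro ⟨hi, t, ht⟩
      have ht0 : t ≠ 0 := by rintro rfl; omega
      refine ⟨t - 1, ?_, ?_⟩
      · by_contra hc
        have h1 : n' + 1 ≤ t := by omega
        have h2 : q * (n' + 1) ≤ q * t := Nat.mul_le_mul_left _ h1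
        have h3 : p * q = 2 * (q * n') + q := by rw [← hn']; ring
        have h4 : q * (n' + 1) = q * n' + q := by ring
        omega
      · have : t - 1 + 1 = t := by omega
        rw [this, ← ht]; omega
    · rintro ⟨j, hj, rfl⟩
      have h0 : 0 < q * (j + 1) := by positivity
      have e1 : q * (j + 1) - 1 + 1 = q * (j + 1) := by omega
      refine ⟨?_, ?_⟩
      · have h2 : q * (j + 1) ≤ q * n' := Nat.mul_le_mul_left _ hj
        have h3 : p * q = 2 * (q * n') + q := by rw [← hn']; ring
        omega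
      · rw [e1]; exact dvd_mul_right _ _
  have hinj : Set.InjOn (fun j => q * (j + 1) - 1) (range n' : Finset ℕ) := by
    intro x _ y _ hxy
    have hxy' : q * (x + 1) - 1 = q * (y + 1) - 1 := hxy
    have h1 : 0 < q * (x + 1) := by positivity
    have h2 : 0 < q * (y + 1) := by positivity
    have h3 : q * (x + 1) = q * (y + 1) := by omega
    have := Nat.eq_of_mul_eq_mul_left hq0 h3
    omega
  have e1 : PP n' 3 = ∑ i ∈ (range n).filter (fun i => q ∣ i + 1), vv n i ^ 3 := by
    rw [himg, sum_image hinj]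
    unfold PP
    apply sum_congr rfl
    intro j _
    congr 1
    unfold vv
    have h1 : 0 < q * (j + 1) := by positivity
    have h2 : (((q * (j + 1) - 1 : ℕ) : ℚ) + 1) = q * (j + 1) := by
      rw [Nat.cast_sub (by omega)]; push_cast; ring
    rw [h2, hNQ, hpQ]
    have h3 : (q : ℚ) ≠ 0 := by exact_mod_cast hq0.ne'
    have h4 : ((j : ℚ) + 1) ≠ 0 := by positivity
    field_simp
  have e2 : PP n 3 - PP n' 3 = ∑ i ∈ (range n).filter (fun i => ¬ q ∣ i + 1), vv n i ^ 3 := by
    rw [e1]
    unfold PP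
    rw [← sum_filter_add_sum_filter_not (range n) (fun i => q ∣ i + 1) (fun i => vv n i ^ 3)]
    ring
  rw [e2]
  apply PO.sum
  intro i hi
  rw [mem_filter] at hi
  have h1 : PO p 2 (vv n i) := by
    unfold vv
    have e : (2 * (n : ℚ) + 1) / (i + 1) = (p : ℚ) ^ (a + 1) / ((i + 1 : ℕ) : ℚ) := by
      have : (2 * (n : ℚ) + 1) = (p : ℚ) ^ (a + 1) := by exact_mod_cast hn
      rw [this]; push_cast; rfl
    rw [e]
    exact PO_ppow_div (s := a) (by ring) hi.2
  exact (h1.pow 3).mono (by norm_num)

end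

end Q277.PPow
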