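import Mathlib

/-!
# Squares of sums `∑_k C(n,k) C(n+k,k) α_k`

The product formula for `C(n,a) C(n+a,a) C(n,b) C(n+b,b)`, the expansion of squares and the
weighted sums of squares.
-/

open Finset

namespace Q277.SqExp

/-- `C(n,j) C(n+j,j)` -/
def E (n j : ℕ) : ℚ := (n.choose j : ℚ) * ((n + j).choose j : ℚ)

theorem E_zero (n : ℕ) : E n 0 = 1 := by simp [E]

theorem E_of_lt (n j : ℕ) (h : n < j) : E n j = 0 := by
  unfold E; rw [Nat.choose_eq_zero_of_lt h]; simp

theorem choose_down (n j : ℕ) : ((j : ℚ) + 1) * (n.choose (j + 1) : ℚ) =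
    ((n : ℚ) - j) * (n.choose j : ℚ) := by
  rcases Nat.lt_or_ge n j with h | h
  · rw [Nat.choose_eq_zero_of_lt h, Nat.choose_eq_zero_of_lt (by omega : n < j + 1)]; simp
  · have h1 := Nat.choose_succ_right_eq n j
    have h3 := congrArg (Nat.cast : ℕ → ℚ) h1
    push_cast [Nat.cast_sub h] at h3
    linear_combination h3

theorem choose_left (n j : ℕ) : ((j : ℚ) + 1) * ((n + 1).choose (j + 1) : ℚ) =
    ((n : ℚ) + 1) * (n.choose j : ℚ) := by
  have h1 := Nat.add_one_mul_choose_eq n j
  have h3 := congrArg (Nat.cast : ℕ → ℚ) h1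
  push_cast at h3
  linear_combination -h3

/-- `C(n,j) = (n+1-j)/(n+1) C(n+1,j)`, always -/
theorem choose_up (n j : ℕ) : ((n : ℚ) + 1) * (n.choose j : ℚ) =
    ((n : ℚ) + 1 - j) * ((n + 1).choose j : ℚ) := by
  rcases j with _ | j
  · simp
  · have h1 := choose_left n j
    have h2 := choose_down n j
    have h3 : ((n + 1).choose (j + 1) : ℚ) = (n.choose j : ℚ) + (n.choose (j + 1) : ℚ) := by
      rw [Nat.choose_succ_succ']; push_cast; ring
    rw [h3]
    push_cast
    linear_combination h2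

theorem E_rec (n j : ℕ) : ((n : ℚ) * (n + 1) - (j : ℚ) * (j + 1)) * E n j =
    ((j : ℚ) + 1) ^ 2 * E n (j + 1) := by
  unfold E
  have h1 := choose_down n j
  have h2 := choose_left (n + j) j
  rw [← add_assoc]
  push_cast at h2
  linear_combination (-((j : ℚ) + 1) * ((n + j + 1).choose (j + 1) : ℚ)) * h1 -
    ((n : ℚ) - j) * (n.choose j : ℚ) * h2

/-- the linearisation coefficients -/
def c (a b j : ℕ) : ℚ := ((a + b).choose j : ℚ) * (j.choose a : ℚ) * (j.choose b : ℚ)

theorem c_rec (a b j : ℕ) : ((b : ℚ) + 1) ^ 2 * c a (b + 1) (j + 1) =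
    c a b (j + 1) * (((j : ℚ) + 1) * (j + 2) - (b : ℚ) * (b + 1)) + ((j : ℚ) + 1) ^ 2 * c a b j := by
  unfold c
  have h1 := choose_down (a + b) j
  have h2 := choose_left (a + b) j
  have h3 := choose_up j a
  have h4 := choose_up j b
  have h5 := choose_left j b
  rw [show a + (b + 1) = a + b + 1 by ring]
  have n1 : (j : ℚ) + 1 ≠ 0 := by positivity
  have n2 : (b : ℚ) + 1 ≠ 0 := by positivity
  push_cast at h1 h2
  set P := ((a + b).choose j : ℚ)
  set P1 := ((a + b).choose (j + 1) : ℚ)
  set P2 := ((a + b + 1).choose (j + 1) : ℚ)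
  set q := ((j + 1).choose a : ℚ)
  set s := ((j + 1).choose b : ℚ)
  set q' := (j.choose a : ℚ)
  set s' := (j.choose b : ℚ)
  set s2 := ((j + 1).choose (b + 1) : ℚ)
  have e1 : P1 = (a + b - j) * P / (j + 1) := by rw [eq_div_iff n1]; linear_combination h1
  have e2 : P2 = (a + b + 1) * P / (j + 1) := by rw [eq_div_iff n1]; linear_combination h2
  have e3 : q' = (j + 1 - a) * q / (j + 1) := by rw [eq_div_iff n1]; linear_combination h3
  have e4 : s' = (j + 1 - b) * s / (j + 1) := by rw [eq_div_iff n1]; linear_combination h4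
  have e5 : s2 = (j + 1) * s' / (b + 1) := by rw [eq_div_iff n2]; linear_combination h5
  rw [e5, e4, e3, e2, e1]
  field_simp
  ring

theorem c_of_gt (a b j : ℕ) (h : a + b < j) : c a b j = 0 := by
  unfold c; rw [Nat.choose_eq_zero_of_lt h]; simp

theorem c_of_lt_left (a b j : ℕ) (h : j < a) : c a b j = 0 := by
  unfold c; rw [Nat.choose_eq_zero_of_lt h]; simp

theorem c_of_lt_right (a b j : ℕ) (h : j < b) : c a b j = 0 := by
  unfold c; rw [Nat.choose_eq_zero_of_lt h]; simp

/-- the product formula -/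
theorem E_mul (n a b : ℕ) : E n a * E n b = ∑ j ∈ range (a + b + 1), c a b j * E n j := by
  induction b with
  | zero =>
    rw [E_zero, mul_one]
    rw [Finset.sum_eq_single a]
    · unfold c; simp
    · intro j hj hne
      rw [Finset.mem_range] at hj
      rw [c_of_lt_left a 0 j (by omega), zero_mul]
    · intro h; exfalso; apply h; rw [Finset.mem_range]; omega
  | succ b ih =>
    have n2 : ((b : ℚ) + 1) ^ 2 ≠ 0 := by positivity
    apply mul_left_cancel₀ n2
    have hE := E_rec n b
    have e1 : ((b : ℚ) + 1) ^ 2 * (E n a * E n (b + 1)) =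
        ((n : ℚ) * (n + 1) - (b : ℚ) * (b + 1)) * (E n a * E n b) := by
      linear_combination -(E n a) * hE
    rw [e1, ih, Finset.mul_sum, Finset.mul_sum]
    -- split
    have e2 : ∀ j ∈ range (a + b + 1), ((n : ℚ) * (n + 1) - (b : ℚ) * (b + 1)) * (c a b j * E n j) =
        ((j : ℚ) + 1) ^ 2 * c a b j * E n (j + 1) +
          c a b j * ((j : ℚ) * (j + 1) - (b : ℚ) * (b + 1)) * E n j := by
      intro j _
      have := E_rec n j
      linear_combination (c a b j) * this
    rw [Finset.sum_congr rfl e2, Finset.sum_add_distrib]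
    rw [show a + (b + 1) + 1 = (a + b + 1) + 1 by ring]
    rw [Finset.sum_range_succ' _ (a + b + 1)]
    have e3 : ∀ j ∈ range (a + b + 1), ((b : ℚ) + 1) ^ 2 * (c a (b + 1) (j + 1) * E n (j + 1)) =
        ((j : ℚ) + 1) ^ 2 * c a b j * E n (j + 1) +
        c a b (j + 1) * (((j : ℚ) + 1) * (j + 2) - (b : ℚ) * (b + 1)) * E n (j + 1) := by
      intro j _
      have := c_rec a b j
      linear_combination (E n (j + 1)) * this
    rw [Finset.sum_congr rfl e3, Finset.sum_add_distrib]
    -- the remaining sums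
    have e4 : ∑ j ∈ range (a + b + 1), c a b j * ((j : ℚ) * (j + 1) - (b : ℚ) * (b + 1)) * E n j =
        ∑ j ∈ range (a + b + 1 + 1), c a b j * ((j : ℚ) * (j + 1) - (b : ℚ) * (b + 1)) * E n j := by
      rw [Finset.sum_range_succ _ (a + b + 1), c_of_gt a b (a + b + 1) (by omega)]
      ring
    rw [e4, Finset.sum_range_succ' _ (a + b + 1)]
    have e5 : c a (b + 1) 0 = 0 := c_of_lt_right a (b + 1) 0 (by omega)
    have e6 : c a b 0 * (((0 : ℕ) : ℚ) * (((0 : ℕ) : ℚ) + 1) - (b : ℚ) * (b + 1)) * E n 0 = 0 := by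
      rcases b with _ | b
      · simp
      · rw [c_of_lt_right a (b + 1) 0 (by omega)]; simp
    have e7 : ∑ j ∈ range (a + b + 1), c a b (j + 1) * (((j + 1 : ℕ) : ℚ) * (((j + 1 : ℕ) : ℚ) + 1) -
        (b : ℚ) * (b + 1)) * E n (j + 1) = ∑ j ∈ range (a + b + 1), c a b (j + 1) *
        (((j : ℚ) + 1) * (j + 2) - (b : ℚ) * (b + 1)) * E n (j + 1) := by
      refine Finset.sum_congr rfl fun j _ => ?_
      push_cast; ring
    rw [e7, e5, e6]
    ring

/-- the sums `∑_k C(n,k) C(n+k,k) α_k` -/
def R (α : ℕ → ℚ) (n : ℕ) : ℚ := ∑ k ∈ range (n + 1), E n k * α k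

/-- the coefficients of the squares -/
def r (α : ℕ → ℚ) (j : ℕ) : ℚ :=
  ∑ a ∈ range (j + 1), ∑ b ∈ range (j + 1), c a b j * (α a * α b)

theorem R_sq (α : ℕ → ℚ) (n : ℕ) : R α n ^ 2 = ∑ j ∈ range (n + 1), E n j * r α j := by
  have e1 : R α n ^ 2 = ∑ a ∈ range (n + 1), ∑ b ∈ range (n + 1), ∑ j ∈ range (2 * n + 1),
      c a b j * E n j * (α a * α b) := by
    rw [pow_two]
    unfold R
    rw [Finset.sum_mul_sum]
    refine Finset.sum_congr rfl fun a ha => Finset.sum_congr rfl fun b hb => ?_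
    rw [Finset.mem_range] at ha hb
    rw [← Finset.sum_mul]
    have : ∑ j ∈ range (2 * n + 1), c a b j * E n j = ∑ j ∈ range (a + b + 1), c a b j * E n j := by
      symm
      apply Finset.sum_subset
      · intro i hi; rw [Finset.mem_range] at *; omega
      · intro i _ hi
        rw [Finset.mem_range] at hi
        rw [c_of_gt a b i (by omega), zero_mul]
    rw [this, ← E_mul]
    ring
  rw [e1]
  have e2 : ∀ a ∈ range (n + 1), ∑ b ∈ range (n + 1), ∑ j ∈ range (2 * n + 1),
      c a b j * E n j * (α a * α b) = ∑ j ∈ range (2 * n + 1), ∑ b ∈ range (n + 1),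
      c a b j * E n j * (α a * α b) := fun a _ => Finset.sum_comm
  rw [Finset.sum_congr rfl e2, Finset.sum_comm]
  symm
  have e3 : ∀ j ∈ range (n + 1), E n j * r α j = ∑ a ∈ range (n + 1), ∑ b ∈ range (n + 1),
      c a b j * E n j * (α a * α b) := by
    intro j hj
    rw [Finset.mem_range] at hj
    unfold r
    rw [Finset.mul_sum]
    have hsub : range (j + 1) ⊆ range (n + 1) := by
      intro i hi; rw [Finset.mem_range] at *; omega
    rw [← Finset.sum_subset hsub]
    · refine Finset.sum_congr rfl fun a _ => ?_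
      rw [Finset.mul_sum, ← Finset.sum_subset hsub]
      · exact Finset.sum_congr rfl fun b _ => by ring
      · intro b _ hb
        rw [Finset.mem_range] at hb
        rw [c_of_lt_right a b j (by omega)]; ring
    · intro a _ ha
      rw [Finset.mem_range] at ha
      apply Finset.sum_eq_zero
      intro b _
      rw [c_of_lt_left a b j (by omega)]; ring
  rw [Finset.sum_congr rfl e3]
  apply Finset.sum_subset
  · intro i hi; rw [Finset.mem_range] at *; omega
  · intro j _ hj
    rw [Finset.mem_range] at hj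
    apply Finset.sum_eq_zero
    intro a _
    apply Finset.sum_eq_zero
    intro b _
    rw [E_of_lt n j (by omega)]; ring

theorem E_eq (n j : ℕ) : E n j = ((n + j).choose (2 * j) : ℚ) * ((2 * j).choose j : ℚ) := by
  unfold E
  rcases Nat.lt_or_ge n j with h | h
  · rw [Nat.choose_eq_zero_of_lt h, Nat.choose_eq_zero_of_lt (by omega : n + j < 2 * j)]; simp
  · have := Nat.choose_mul (n := n + j) (k := 2 * j) (s := j) (by omega)
    rw [show n + j - j = n by omega, show 2 * j - j = j by omega] at this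
    have h2 := congrArg (Nat.cast : ℕ → ℚ) this
    push_cast at h2
    linear_combination -h2

theorem weight_sum (n j : ℕ) : ∑ k ∈ range n, (2 * (k : ℚ) + 1) * ((k + j).choose (2 * j) : ℚ) =
    n * ((2 * j + 1) / (j + 1) * ((n + j).choose (2 * j + 1) : ℚ)) := by
  have n1 : (j : ℚ) + 1 ≠ 0 := by positivity
  induction n with
  | zero => simp
  | succ n ih =>
    rw [Finset.sum_range_succ, ih]
    have h1 := choose_down (n + j) (2 * j)
    have h2 : ((n + 1 + j).choose (2 * j + 1) : ℚ) = ((n + j).choose (2 * j) : ℚ) +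
        ((n + j).choose (2 * j + 1) : ℚ) := by
      rw [show n + 1 + j = n + j + 1 by ring, Nat.choose_succ_succ']; push_cast; rfl
    rw [h2]
    push_cast at h1 ⊢
    field_simp
    linear_combination -h1

/-- the weighted sum of squares -/
theorem weighted_squares (α : ℕ → ℚ) (n : ℕ) : ∑ k ∈ range n, (2 * (k : ℚ) + 1) * R α k ^ 2 =
    n * ∑ j ∈ range n, (2 * (j : ℚ) + 1) * ((n + j).choose (2 * j + 1) : ℚ) *
      (((2 * j).choose j : ℚ) * r α j / (j + 1)) := by
  have e1 : ∀ k ∈ range n, (2 * (k : ℚ) + 1) * R α k ^ 2 = ∑ j ∈ range n,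
      (2 * (k : ℚ) + 1) * ((k + j).choose (2 * j) : ℚ) * (((2 * j).choose j : ℚ) * r α j) := by
    intro k hk
    rw [Finset.mem_range] at hk
    rw [R_sq, Finset.mul_sum]
    have hsub : range (k + 1) ⊆ range n := by
      intro i hi; rw [Finset.mem_range] at *; omega
    rw [← Finset.sum_subset hsub]
    · refine Finset.sum_congr rfl fun j _ => ?_
      rw [E_eq]; ring
    · intro j _ hj
      rw [Finset.mem_range] at hj
      rw [Nat.choose_eq_zero_of_lt (by omega : k + j < 2 * j)]; simp
  rw [Finset.sum_congr rfl e1, Finset.sum_comm, Finset.mul_sum]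
  refine Finset.sum_congr rfl fun j _ => ?_
  rw [← Finset.sum_mul, weight_sum]
  ring

/-- If all `∑_j C(n+j,2j) g_j` are multiples of `m`, then so are all `g_j`. -/
theorem inversion (m : ℤ) (g : ℕ → ℚ) (x : ℕ → ℤ)
    (h : ∀ n, ∑ j ∈ range (n + 1), ((n + j).choose (2 * j) : ℚ) * g j = m * x n) (j : ℕ) :
    ∃ z : ℤ, g j = m * z := by
  induction j using Nat.strong_induction_on with
  | _ j ih =>
    have h1 := h j
    rw [Finset.sum_range_succ, ← two_mul, Nat.choose_self] at h1
    have h2 : ∀ i : ℕ, ∃ z : ℤ, i < j → g i = m * z := by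
      intro i
      by_cases hi : i < j
      · obtain ⟨z, hz⟩ := ih i hi
        exact ⟨z, fun _ => hz⟩
      · exact ⟨0, fun h => absurd h hi⟩
    choose z hz using h2
    refine ⟨x j - ∑ i ∈ range j, ((j + i).choose (2 * i) : ℤ) * z i, ?_⟩
    have h3 : ∑ i ∈ range j, ((j + i).choose (2 * i) : ℚ) * g i =
        m * ∑ i ∈ range j, ((j + i).choose (2 * i) : ℚ) * z i := by
      rw [Finset.mul_sum]
      refine Finset.sum_congr rfl fun i hi => ?_
      rw [hz i (Finset.mem_range.1 hi)]; ring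
    rw [h3] at h1
    push_cast at h1 ⊢
    linear_combination h1

end Q277.SqExp
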