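import Mathlib
import Pool.Agent.Q277.SqExp

/-!
# Squares of `R_{n,r} = ∑_k C(n+k,2k) C(2k,k) / (2k-2r-1)`

The numbers `g_j` in `R_{n,r}^2 = ∑_j C(n+j,2j) g_j` are, up to constants depending on `r` only,
multiples of `j + 1`.
-/

open Finset PowerSeries

namespace Q277.RSquares

open Q277.SqExp

/-! ### integral power series -/

/-- power series with integer coefficients -/
noncomputable def I : Subring ℚ⟦X⟧ := (PowerSeries.map (Int.castRingHom ℚ)).range

theorem coeff_of_mem {f : ℚ⟦X⟧} (hf : f ∈ I) (n : ℕ) : ∃ z : ℤ, coeff n f = z := by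
  obtain ⟨g, rfl⟩ := hf
  exact ⟨coeff n g, by rw [coeff_map]; rfl⟩

theorem X_mem : (X : ℚ⟦X⟧) ∈ I := ⟨X, by simp⟩

theorem C_mem (z : ℤ) : (C (z : ℚ) : ℚ⟦X⟧) ∈ I := ⟨C z, by simp⟩

/-- the inverse of `1 + X` -/
noncomputable def uZ : ℤ⟦X⟧ := PowerSeries.mk fun n => (-1) ^ n

theorem uZ_mul : (1 + X) * uZ = 1 := by
  ext n
  rw [add_mul, one_mul, map_add]
  rcases n with _ | n
  · simp [uZ]
  · rw [coeff_succ_X_mul, coeff_one]
    simp [uZ, pow_succ]

/-- the inverse of `1 + X` over `ℚ` -/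
noncomputable def u : ℚ⟦X⟧ := PowerSeries.map (Int.castRingHom ℚ) uZ

theorem u_mem : u ∈ I := ⟨uZ, rfl⟩

theorem u_mul : (1 + X) * u = 1 := by
  have := congrArg (PowerSeries.map (Int.castRingHom ℚ)) uZ_mul
  simpa [u] using this

theorem one_add_X_mem : (1 + X : ℚ⟦X⟧) ∈ I := add_mem (one_mem _) X_mem

/-- `w = 2 + X` -/
noncomputable def w : ℚ⟦X⟧ := 2 + X

theorem two_mem : (2 : ℚ⟦X⟧) ∈ I := by
  have : (2 : ℚ⟦X⟧) = 1 + 1 := by norm_num
  rw [this]; exact add_mem (one_mem _) (one_mem _)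

theorem w_mem : w ∈ I := add_mem two_mem X_mem

theorem d_w : d⁄dX ℚ w = 1 := by
  unfold w
  rw [map_add, derivative_X]
  have : (2 : ℚ⟦X⟧) = C (2 : ℚ) := (map_ofNat C 2).symm
  rw [this, derivative_C, zero_add]

theorem d_one_add_X : d⁄dX ℚ (1 + X : ℚ⟦X⟧) = 1 := by
  rw [map_add, derivative_X, derivative_one, zero_add]

theorem d_u : d⁄dX ℚ u = -u ^ 2 := by
  have h := congrArg (d⁄dX ℚ) u_mul
  rw [Derivation.leibniz, d_one_add_X, derivative_one] at h
  simp only [smul_eq_mul, mul_one] at h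
  have h2 := u_mul
  linear_combination (u) * h - (d⁄dX ℚ u) * h2

theorem d_pow (f : ℚ⟦X⟧) (n : ℕ) : d⁄dX ℚ (f ^ (n + 1)) = (n + 1) * f ^ n * d⁄dX ℚ f := by
  rw [derivative_pow]
  push_cast
  simp

/-! ### the functions `A_j` -/

/-- `1 / (2 a - 2 r - 1)` -/
def al (r a : ℕ) : ℚ := 1 / (2 * (a : ℚ) - (2 * r + 1))

theorem al_ne (r a : ℕ) : (2 * (a : ℚ) - (2 * r + 1)) ≠ 0 := by
  have : ((2 * (a : ℤ) - (2 * r + 1) : ℤ) : ℚ) ≠ 0 := by
    rw [Int.cast_ne_zero]; omega
  push_cast at this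
  exact this

/-- `A_j = ∑_a C(j,a) (1+X)^a / (2a - 2r - 1)` -/
noncomputable def A (r j : ℕ) : ℚ⟦X⟧ :=
  ∑ a ∈ range (j + 1), C ((j.choose a : ℚ) * al r a) * (1 + X) ^ a

theorem ode (r j : ℕ) : 2 * (1 + X) * d⁄dX ℚ (A r j) = C (2 * (r : ℚ) + 1) * A r j + w ^ j := by
  have e1 : w = (1 + X) + 1 := by unfold w; ring
  rw [e1, add_pow]
  unfold A
  rw [map_sum, Finset.mul_sum, Finset.mul_sum, ← Finset.sum_add_distrib]
  refine Finset.sum_congr rfl fun a _ => ?_
  rw [Derivation.leibniz, derivative_C]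
  simp only [smul_eq_mul, mul_zero, add_zero, one_pow, mul_one]
  have e2 : (1 + X : ℚ⟦X⟧) * d⁄dX ℚ ((1 + X : ℚ⟦X⟧) ^ a) = C (a : ℚ) * (1 + X) ^ a := by
    rcases a with _ | a
    · simp
    · rw [d_pow, d_one_add_X]
      push_cast
      simp
      ring
  have e3 : (C ((j.choose a : ℚ) * al r a) : ℚ⟦X⟧) * (C 2 * C (a : ℚ) - C (2 * (r : ℚ) + 1)) =
      C (j.choose a : ℚ) := by
    rw [← map_mul, ← map_sub, ← map_mul]
    congr 1
    unfold al
    have := al_ne r a
    field_simp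
  have e4 : (C (2 : ℚ) : ℚ⟦X⟧) = 2 := map_ofNat C 2
  have e5 : (C (j.choose a : ℚ) : ℚ⟦X⟧) = (j.choose a : ℚ⟦X⟧) := by simp
  rw [e4, e5] at e3
  linear_combination (2 * C ((j.choose a : ℚ) * al r a)) * e2 + ((1 + X) ^ a) * e3

theorem coeff_one_add_X_pow (m j : ℕ) : coeff j ((1 + X : ℚ⟦X⟧) ^ m) = (m.choose j : ℚ) := by
  have : ((1 + X : ℚ⟦X⟧) ^ m) = (((1 + Polynomial.X) ^ m : Polynomial ℚ) : ℚ⟦X⟧) := by
    push_cast; rfl
  rw [this, Polynomial.coeff_coe, Polynomial.coeff_one_add_X_pow]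

theorem coeff_A_sq (r j : ℕ) : coeff j (A r j ^ 2) = SqExp.r (al r) j := by
  unfold A SqExp.r
  rw [pow_two, Finset.sum_mul_sum, map_sum]
  refine Finset.sum_congr rfl fun a _ => ?_
  rw [map_sum]
  refine Finset.sum_congr rfl fun b _ => ?_
  have e : (C ((j.choose a : ℚ) * al r a) * (1 + X) ^ a * (C ((j.choose b : ℚ) * al r b) *
      (1 + X) ^ b) : ℚ⟦X⟧) = C ((j.choose a : ℚ) * al r a * ((j.choose b : ℚ) * al r b)) *
      (1 + X) ^ (a + b) := by
    rw [map_mul (C (R := ℚ)) ((j.choose a : ℚ) * al r a), pow_add]; ring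
  rw [e, coeff_C_mul, coeff_one_add_X_pow]
  unfold c
  ring

/-! ### integrality -/

theorem central_up (m : ℕ) : ((m : ℚ) + 1) * ((2 * (m + 1)).choose (m + 1) : ℚ) =
    2 * (2 * m + 1) * ((2 * m).choose m : ℚ) := by
  have h1 := Nat.succ_mul_centralBinom_succ m
  unfold Nat.centralBinom at h1
  have h2 := congrArg (Nat.cast : ℕ → ℚ) h1
  push_cast at h2 ⊢
  linear_combination h2

theorem gamma_int (j : ℕ) : ∀ a ≤ j, ∃ z : ℤ, ((2 * j).choose j : ℚ) * (j.choose a : ℚ) =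
    z * ((2 * a).choose a : ℚ) := by
  induction j with
  | zero =>
    intro a ha
    have : a = 0 := by omega
    subst this
    exact ⟨1, by simp⟩
  | succ j ih =>
    intro a ha
    rcases a with _ | b
    · exact ⟨(2 * (j + 1)).choose (j + 1), by simp⟩
    · rcases Nat.lt_or_ge j (b + 1) with h | h
      · have : b = j := by omega
        subst this
        exact ⟨1, by simp⟩
      · obtain ⟨z1, hz1⟩ := ih b (by omega)
        obtain ⟨z2, hz2⟩ := ih (b + 1) h
        refine ⟨z1 + 4 * z2, ?_⟩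
        have h1 := central_up j
        have h2 := choose_left j b
        have h3 := central_up b
        have h4 := choose_down j b
        have n1 : (j : ℚ) + 1 ≠ 0 := by positivity
        have n2 : (b : ℚ) + 1 ≠ 0 := by positivity
        have k1 : ((2 * (j + 1)).choose (j + 1) : ℚ) = 2 * (2 * j + 1) * ((2 * j).choose j : ℚ) / (j + 1) := by
          rw [eq_div_iff n1]; linear_combination h1
        have k2 : ((j + 1).choose (b + 1) : ℚ) = (j + 1) * (j.choose b : ℚ) / (b + 1) := by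
          rw [eq_div_iff n2]; linear_combination h2
        have k3 : ((2 * (b + 1)).choose (b + 1) : ℚ) = 2 * (2 * b + 1) * ((2 * b).choose b : ℚ) / (b + 1) := by
          rw [eq_div_iff n2]; linear_combination h3
        have k4 : (j.choose (b + 1) : ℚ) = (j - b) * (j.choose b : ℚ) / (b + 1) := by
          rw [eq_div_iff n2]; linear_combination h4
        have e : ((z1 + 4 * z2 : ℤ) : ℚ) * ((2 * (b + 1)).choose (b + 1) : ℚ) =
            z1 * ((2 * (b + 1)).choose (b + 1) : ℚ) + 4 * (((2 * j).choose j : ℚ) *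
              (j.choose (b + 1) : ℚ)) := by
          rw [hz2]; push_cast; ring
        rw [e, k1, k2, k3, k4]
        field_simp
        linear_combination (2 * (2 * (b : ℚ) + 1)) * hz1

/-- `(2r+1)!!` -/
def D (r : ℕ) : ℤ := (Nat.doubleFactorial (2 * r + 1) : ℤ)

theorem D_succ (r : ℕ) : D (r + 1) = (2 * r + 3) * D r := by
  unfold D
  rw [show 2 * (r + 1) + 1 = (2 * r + 1) + 2 by ring, Nat.doubleFactorial_add_two]
  push_cast; ring

theorem D_ne (r : ℕ) : D r ≠ 0 := by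
  unfold D
  have := Nat.doubleFactorial_pos (2 * r + 1)
  exact_mod_cast this.ne'

theorem alint (r : ℕ) : ∀ a, ∃ z : ℤ, (D r : ℚ) * ((2 * a).choose a : ℚ) * al r a = z := by
  induction r with
  | zero =>
    intro a
    have hD : D 0 = 1 := rfl
    rw [hD]
    rcases a with _ | a
    · exact ⟨-1, by unfold al; norm_num⟩
    · refine ⟨2 * catalan a, ?_⟩
      have h1 := succ_mul_catalan_eq_centralBinom a
      unfold Nat.centralBinom at h1
      have h2 := congrArg (Nat.cast : ℕ → ℚ) h1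
      have h3 := central_up a
      push_cast at h2
      have n1 : (a : ℚ) + 1 ≠ 0 := by positivity
      have n2 : 2 * (a : ℚ) + 1 ≠ 0 := by positivity
      have h4 : ((2 * (a + 1)).choose (a + 1) : ℚ) = 2 * (2 * a + 1) * (catalan a : ℚ) := by
        apply mul_left_cancel₀ n1
        rw [h3, ← h2]; ring
      rw [h4]
      unfold al
      push_cast
      have n3 : (2 * ((a : ℚ) + 1) - (2 * 0 + 1)) = 2 * a + 1 := by ring
      rw [n3]
      field_simp
  | succ r ih =>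
    intro a
    rw [D_succ]
    rcases a with _ | a
    · refine ⟨-D r, ?_⟩
      unfold al
      push_cast
      have n1 : (2 * (0 : ℚ) - (2 * (r + 1) + 1)) = -(2 * r + 3) := by ring
      have n2 : 2 * (r : ℚ) + 3 ≠ 0 := by positivity
      rw [n1]
      simp only [Nat.choose_self, Nat.cast_one, mul_one]
      field_simp
    · obtain ⟨z, hz⟩ := ih a
      refine ⟨8 * (r + 1) * z + 2 * D r * catalan a, ?_⟩
      have h1 := succ_mul_catalan_eq_centralBinom a
      unfold Nat.centralBinom at h1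
      have h2 := congrArg (Nat.cast : ℕ → ℚ) h1
      have h3 := central_up a
      push_cast at h2
      have n1 : (a : ℚ) + 1 ≠ 0 := by positivity
      have h4 : ((2 * (a + 1)).choose (a + 1) : ℚ) = 2 * (2 * a + 1) * ((2 * a).choose a : ℚ) / (a + 1) := by
        rw [eq_div_iff n1]; linear_combination h3
      have h5 : (catalan a : ℚ) = ((2 * a).choose a : ℚ) / (a + 1) := by
        rw [eq_div_iff n1]; linear_combination h2
      have n2 := al_ne r a
      push_cast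
      rw [← hz, h4, h5]
      unfold al
      push_cast
      have n3 : (2 * ((a : ℚ) + 1) - (2 * ((r : ℚ) + 1) + 1)) = 2 * a - (2 * r + 1) := by ring
      rw [n3]
      field_simp
      ring

/-- `C(2j,j) A_j` -/
noncomputable def At (r j : ℕ) : ℚ⟦X⟧ := C ((2 * j).choose j : ℚ) * A r j

theorem At_mem (r j : ℕ) : C (D r : ℚ) * At r j ∈ I := by
  unfold At A
  rw [Finset.mul_sum, Finset.mul_sum]
  apply sum_mem
  intro a ha
  rw [Finset.mem_range] at ha
  obtain ⟨z1, hz1⟩ := gamma_int j a (by omega)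
  obtain ⟨z2, hz2⟩ := alint r a
  have e : (C (D r : ℚ) * (C ((2 * j).choose j : ℚ) * (C ((j.choose a : ℚ) * al r a) * (1 + X) ^ a)) :
      ℚ⟦X⟧) = C ((z1 * z2 : ℤ) : ℚ) * (1 + X) ^ a := by
    rw [← mul_assoc, ← mul_assoc, ← map_mul, ← map_mul]
    congr 2
    push_cast
    rw [← hz2]
    linear_combination ((D r : ℚ) * al r a) * hz1
  rw [e]
  exact mul_mem (C_mem _) (pow_mem one_add_X_mem _)

theorem ode' (r j : ℕ) : 2 * (1 + X) * d⁄dX ℚ (At r j) = C (2 * (r : ℚ) + 1) * At r j +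
    C ((2 * j).choose j : ℚ) * w ^ j := by
  have h := ode r j
  unfold At
  rw [Derivation.leibniz, derivative_C]
  simp only [smul_eq_mul, mul_zero, add_zero]
  linear_combination (C ((2 * j).choose j : ℚ)) * h

theorem d_u_pow (f : ℕ) : d⁄dX ℚ (u ^ f) = -(C (f : ℚ) * u ^ (f + 1)) := by
  rcases f with _ | f
  · simp
  · rw [d_pow, d_u]
    push_cast
    simp
    ring

/-- the values `Y_e` -/
noncomputable def Y (r j e : ℕ) : ℚ := coeff j (w ^ (j + 1) * u ^ e * At r j)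

theorem catalan_cast (j : ℕ) : ((2 * j).choose j : ℚ) = (j + 1) * (catalan j : ℚ) := by
  have h1 := succ_mul_catalan_eq_centralBinom j
  unfold Nat.centralBinom at h1
  have h2 := congrArg (Nat.cast : ℕ → ℚ) h1
  push_cast at h2
  linear_combination -h2

theorem Y_rel (r j f : ℕ) : (2 * (r : ℚ) + 1 - 2 * f) * Y r j (f + 1) = (j + 1) *
    (2 * coeff (j + 1) (w ^ (j + 1) * u ^ f * At r j) - 2 * coeff j (w ^ j * u ^ f * At r j) -
      catalan j * coeff j (w ^ (j + 1 + j) * u ^ (f + 1))) := by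
  have h := ode' r j
  have hd : d⁄dX ℚ (w ^ (j + 1) * u ^ f * At r j) = C ((j : ℚ) + 1) * (w ^ j * u ^ f * At r j) -
      C (f : ℚ) * (w ^ (j + 1) * u ^ (f + 1) * At r j) + w ^ (j + 1) * u ^ f * d⁄dX ℚ (At r j) := by
    rw [Derivation.leibniz, Derivation.leibniz, d_u_pow, d_pow, d_w]
    simp only [smul_eq_mul, map_add, map_natCast, map_one]
    ring
  have h2 : C 2 * d⁄dX ℚ (w ^ (j + 1) * u ^ f * At r j) =
      C (2 * ((j : ℚ) + 1)) * (w ^ j * u ^ f * At r j) +
      C (2 * (r : ℚ) + 1 - 2 * f) * (w ^ (j + 1) * u ^ (f + 1) * At r j) +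
      C ((2 * j).choose j : ℚ) * (w ^ (j + 1 + j) * u ^ (f + 1)) := by
    rw [hd]
    have e4 : (C (2 : ℚ) : ℚ⟦X⟧) = 2 := map_ofNat C 2
    simp only [map_mul, map_sub, map_add, map_one, map_natCast, e4] at h ⊢
    have hu := u_mul
    rw [pow_add w (j + 1) j]
    linear_combination (w ^ (j + 1) * u ^ (f + 1)) * h -
      (2 * w ^ (j + 1) * u ^ f * d⁄dX ℚ (At r j)) * hu
  have h3 := congrArg (coeff j) h2
  rw [coeff_C_mul, coeff_derivative, map_add, map_add, coeff_C_mul, coeff_C_mul, coeff_C_mul,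
    catalan_cast] at h3
  unfold Y
  linear_combination -h3

/-- an integral multiple of a coefficient -/
theorem coeff_int (r j n : ℕ) {f : ℚ⟦X⟧} (hf : f ∈ I) : ∃ z : ℤ, (D r : ℚ) * coeff n (f * At r j) = z := by
  have h := coeff_of_mem (mul_mem hf (At_mem r j)) n
  obtain ⟨z, hz⟩ := h
  refine ⟨z, ?_⟩
  rw [← hz, ← coeff_C_mul]
  congr 1
  ring

theorem Y_int (r j e : ℕ) : ∃ z : ℤ, (D r : ℚ) * Y r j e = z :=
  coeff_int r j j (mul_mem (pow_mem w_mem _) (pow_mem u_mem _))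

theorem Y_dvd (r j f : ℕ) : ∃ z : ℤ, (2 * (r : ℚ) + 1 - 2 * f) * ((D r : ℚ) * Y r j (f + 1)) =
    (j + 1) * z := by
  obtain ⟨z1, h1⟩ := coeff_int r j (j + 1) (mul_mem (pow_mem w_mem (j + 1)) (pow_mem u_mem f))
  obtain ⟨z2, h2⟩ := coeff_int r j j (mul_mem (pow_mem w_mem j) (pow_mem u_mem f))
  obtain ⟨z3, h3⟩ := coeff_of_mem (mul_mem (pow_mem w_mem (j + 1 + j)) (pow_mem u_mem (f + 1))) j
  refine ⟨2 * z1 - 2 * z2 - D r * catalan j * z3, ?_⟩
  have h := Y_rel r j f
  rw [h3] at h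
  push_cast
  linear_combination (D r : ℚ) * h + (2 * ((j : ℚ) + 1)) * h1 - (2 * ((j : ℚ) + 1)) * h2

/-- `1 - u^m = w ∑_{e<m} (-1)^e u^{e+1}` for even `m` -/
theorem one_sub_u_pow (m : ℕ) (hm : Even m) :
    (1 - u ^ m : ℚ⟦X⟧) = w * ∑ e ∈ range m, (-1) ^ e * u ^ (e + 1) := by
  have h := geom_sum_mul (-u : ℚ⟦X⟧) m
  have hw : w * u = 1 + u := by
    unfold w
    linear_combination u_mul
  rw [hm.neg_pow] at h
  have e : ∑ e ∈ range m, (-1 : ℚ⟦X⟧) ^ e * u ^ (e + 1) = (∑ e ∈ range m, (-u) ^ e) * u := by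
    rw [Finset.sum_mul]
    refine Finset.sum_congr rfl fun i _ => ?_
    rw [neg_pow u i]; ring
  rw [e]
  linear_combination h - (∑ e ∈ range m, (-u : ℚ⟦X⟧) ^ e) * hw

/-- the values `X_m` -/
noncomputable def XX (r j m : ℕ) : ℚ := coeff m (w ^ j * u ^ (2 * r + 2) * At r j)

theorem XX_int (r j m : ℕ) : ∃ z : ℤ, (D r : ℚ) * XX r j m = z :=
  coeff_int r j m (mul_mem (pow_mem w_mem _) (pow_mem u_mem _))

theorem coeff_binomial_mul (f : ℚ⟦X⟧) (m j : ℕ) (h : m ≤ j) :
    coeff j ((1 + X) ^ m * f) = ∑ i ∈ range (m + 1), (m.choose i : ℚ) * coeff (j - i) f := by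
  rw [coeff_mul, Finset.Nat.sum_antidiagonal_eq_sum_range_succ_mk]
  symm
  have hsub : range (m + 1) ⊆ range (j + 1) := by
    intro i hi; rw [Finset.mem_range] at *; omega
  rw [← Finset.sum_subset hsub]
  · refine Finset.sum_congr rfl fun i _ => ?_
    rw [coeff_one_add_X_pow]
  · intro i _ hi
    rw [Finset.mem_range] at hi
    rw [coeff_one_add_X_pow, Nat.choose_eq_zero_of_lt (by omega)]; simp

/-- the sum with binomial coefficients -/
theorem S_eq (r j : ℕ) (hj : 2 * r + 1 < j) :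
    ∑ i ∈ range (2 * r + 2), ((2 * r + 2).choose (i + 1) : ℚ) * XX r j (j - 1 - i) =
      ∑ e ∈ range (2 * r + 2), (-1) ^ e * Y r j (e + 1) := by
  set F := w ^ j * u ^ (2 * r + 2) * At r j with hF
  have h1 := coeff_binomial_mul F (2 * r + 2) j (by omega)
  rw [Finset.sum_range_succ'] at h1
  have h2 : ((1 + X) ^ (2 * r + 2) * F : ℚ⟦X⟧) = w ^ j * At r j := by
    have := congrArg (fun x => x ^ (2 * r + 2)) u_mul
    simp only [mul_pow, one_pow] at this
    rw [hF]
    linear_combination (w ^ j * At r j) * this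
  have h3 : coeff j (w ^ j * At r j) - coeff j F =
      ∑ e ∈ range (2 * r + 2), (-1) ^ e * Y r j (e + 1) := by
    rw [← map_sub]
    have e1 : w ^ j * At r j - F = w ^ j * At r j * (1 - u ^ (2 * r + 2)) := by rw [hF]; ring
    rw [e1, one_sub_u_pow (2 * r + 2) ⟨r + 1, by ring⟩]
    have e2 : w ^ j * At r j * (w * ∑ e ∈ range (2 * r + 2), (-1 : ℚ⟦X⟧) ^ e * u ^ (e + 1)) =
        ∑ e ∈ range (2 * r + 2), C ((-1) ^ e : ℚ) * (w ^ (j + 1) * u ^ (e + 1) * At r j) := by
      rw [Finset.mul_sum, Finset.mul_sum]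
      refine Finset.sum_congr rfl fun e _ => ?_
      simp only [map_pow, map_neg, map_one]
      ring
    rw [e2, map_sum]
    refine Finset.sum_congr rfl fun e _ => ?_
    rw [coeff_C_mul]; rfl
  rw [h2] at h1
  rw [← h3, h1]
  simp only [Nat.choose_zero_right, Nat.cast_one, one_mul, Nat.sub_zero]
  rw [add_sub_cancel_right]
  refine Finset.sum_congr rfl fun i _ => ?_
  rw [show j - (i + 1) = j - 1 - i by omega]
  rfl

/-- the numbers `g_j` -/
noncomputable def g (r j : ℕ) : ℚ := ((2 * j).choose j : ℚ) * SqExp.r (al r) j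

theorem g_eq (r j : ℕ) (hj : 2 * r + 1 < j) : g r j =
    ∑ i ∈ range (2 * r + 2), ((2 * r + 1).choose i : ℚ) * (XX r j (j - 1 - i) / ((j : ℚ) - i)) := by
  set B := u ^ (2 * r + 1) * (A r j * At r j) with hB
  have hd : d⁄dX ℚ B = w ^ j * u ^ (2 * r + 2) * At r j := by
    have h := ode r j
    have hA : At r j = C ((2 * j).choose j : ℚ) * A r j := rfl
    have hdA : d⁄dX ℚ (At r j) = C ((2 * j).choose j : ℚ) * d⁄dX ℚ (A r j) := by
      rw [hA, Derivation.leibniz, derivative_C]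
      simp
    rw [hB, Derivation.leibniz, Derivation.leibniz, d_u_pow, hdA, hA]
    generalize C ((2 * j).choose j : ℚ) = K
    simp only [smul_eq_mul]
    have e : (C (((2 * r + 1 : ℕ) : ℚ)) : ℚ⟦X⟧) = C (2 * (r : ℚ) + 1) := by push_cast; rfl
    rw [e]
    have hu := u_mul
    linear_combination (K * u ^ (2 * r + 2) * A r j) * h -
      (2 * u ^ (2 * r + 1) * K * A r j * d⁄dX ℚ (A r j)) * hu
  have h1 : g r j = coeff j ((1 + X) ^ (2 * r + 1) * B) := by
    unfold g
    rw [← coeff_A_sq, ← coeff_C_mul]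
    congr 1
    have := congrArg (fun x => x ^ (2 * r + 1)) u_mul
    simp only [mul_pow, one_pow] at this
    rw [hB]
    unfold At
    linear_combination (-(C ((2 * j).choose j : ℚ)) * A r j ^ 2) * this
  rw [h1, coeff_binomial_mul B (2 * r + 1) j (by omega)]
  refine Finset.sum_congr rfl fun i hi => ?_
  rw [Finset.mem_range] at hi
  congr 1
  have h2 := congrArg (coeff (j - 1 - i)) hd
  rw [coeff_derivative] at h2
  have h3 : (j : ℚ) - i ≠ 0 := by
    have : ((j : ℤ) - i : ℤ) ≠ 0 := by omega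
    have h4 : (((j : ℤ) - i : ℤ) : ℚ) ≠ 0 := by exact_mod_cast this
    push_cast at h4; exact h4
  rw [eq_div_iff h3]
  have h4 : j - 1 - i + 1 = j - i := by omega
  have h5 : ((j - 1 - i : ℕ) : ℚ) + 1 = j - i := by
    have : ((j - 1 - i + 1 : ℕ) : ℚ) = j - i := by rw [h4, Nat.cast_sub (by omega)]
    push_cast at this; exact this
  rw [h4, h5] at h2
  exact h2

/-- products with one factor left out -/
def Pr (r i : ℕ) (x : ℤ) : ℤ := ∏ l ∈ (range (2 * r + 2)).erase i, (x - l)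

theorem dvd_prod_sub' (q : ℤ) (s : Finset ℕ) (x y : ℤ) (h : q ∣ x - y) :
    q ∣ (∏ l ∈ s, (x - (l : ℤ))) - ∏ l ∈ s, (y - (l : ℤ)) := by
  classical
  induction s using Finset.induction_on with
  | empty => simp
  | insert a s ha ih =>
    rw [Finset.prod_insert ha, Finset.prod_insert ha]
    obtain ⟨b, hb⟩ := ih
    obtain ⟨d, hd⟩ := h
    exact ⟨b * (x - a) + (∏ l ∈ s, (y - (l : ℤ))) * d, by
      linear_combination (x - (a : ℤ)) * hb + (∏ l ∈ s, (y - (l : ℤ))) * hd⟩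

theorem Pr_mod (r i j : ℕ) : ((j : ℤ) + 1) ∣ Pr r i j - Pr r i (-1) :=
  dvd_prod_sub' _ _ _ _ ⟨1, by ring⟩

theorem prod_neg (m : ℕ) : ∏ l ∈ range m, ((-1 : ℤ) - l) = (-1) ^ m * (m.factorial : ℤ) := by
  rw [← Finset.prod_range_add_one_eq_factorial]
  push_cast
  rw [← Finset.card_range m, ← Finset.prod_const, Finset.card_range, ← Finset.prod_mul_distrib]
  refine Finset.prod_congr rfl fun l _ => ?_
  ring

theorem Pr_neg_one (r i : ℕ) (hi : i < 2 * r + 2) :
    ((i : ℤ) + 1) * Pr r i (-1) = -((2 * r + 2).factorial : ℤ) := by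
  have h1 := prod_neg (2 * r + 2)
  rw [← Finset.mul_prod_erase (range (2 * r + 2)) _ (Finset.mem_range.2 hi)] at h1
  unfold Pr
  have h2 : (-1 : ℤ) ^ (2 * r + 2) = 1 := Even.neg_one_pow ⟨r + 1, by ring⟩
  rw [h2] at h1
  linear_combination -h1

theorem choose_Pr (r i : ℕ) (hi : i < 2 * r + 2) : ((2 * r + 1).choose i : ℤ) * Pr r i (-1) =
    -((2 * r + 1).factorial : ℤ) * ((2 * r + 2).choose (i + 1) : ℤ) := by
  have h1 := Pr_neg_one r i hi
  have h2 := Nat.add_one_mul_choose_eq (2 * r + 1) i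
  have h3 := congrArg (Nat.cast : ℕ → ℤ) h2
  have h4 : (2 * r + 2).factorial = (2 * r + 2) * (2 * r + 1).factorial := Nat.factorial_succ _
  rw [h4] at h1
  push_cast at h1 h3
  have n1 : (i : ℤ) + 1 ≠ 0 := by positivity
  apply mul_left_cancel₀ n1
  linear_combination ((2 * r + 1).choose i : ℤ) * h1 + (-((2 * r + 1).factorial : ℤ)) * h3

/-- the unified statement -/
theorem unified (r j : ℕ) (hj : 2 * r + 1 < j) : ∃ I1 S : ℤ,
    (D r : ℚ) * ((∏ l ∈ range (2 * r + 2), ((j : ℤ) - l) : ℤ) : ℚ) * g r j =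
      (j + 1) * I1 - ((2 * r + 1).factorial : ℚ) * S ∧
    ∀ L : ℤ, (∀ f < 2 * r + 2, (2 * (r : ℤ) + 1 - 2 * f) ∣ L) → ∃ I2 : ℤ, L * S = (j + 1) * I2 := by
  choose Xz hX using fun m => XX_int r j m
  choose Yz hY using fun e => Y_int r j e
  choose d hd using fun i => Pr_mod r i j
  have hS := S_eq r j hj
  -- the integer `S`
  refine ⟨∑ i ∈ range (2 * r + 2), ((2 * r + 1).choose i : ℤ) * d i * Xz (j - 1 - i),
    ∑ e ∈ range (2 * r + 2), (-1) ^ e * Yz (e + 1), ?_, ?_⟩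
  · have hS2 : (((∑ e ∈ range (2 * r + 2), (-1) ^ e * Yz (e + 1) : ℤ)) : ℚ) =
        ∑ i ∈ range (2 * r + 2), ((2 * r + 2).choose (i + 1) : ℚ) * Xz (j - 1 - i) := by
      push_cast
      have e1 : ∑ e ∈ range (2 * r + 2), (-1 : ℚ) ^ e * (Yz (e + 1) : ℚ) =
          (D r : ℚ) * ∑ e ∈ range (2 * r + 2), (-1) ^ e * Y r j (e + 1) := by
        rw [Finset.mul_sum]
        refine Finset.sum_congr rfl fun e _ => ?_
        rw [← hY]; ring
      rw [e1, ← hS, Finset.mul_sum]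
      refine Finset.sum_congr rfl fun i _ => ?_
      rw [← hX]; ring
    rw [hS2, g_eq r j hj, Finset.mul_sum]
    push_cast
    rw [Finset.mul_sum, Finset.mul_sum, ← Finset.sum_sub_distrib]
    refine Finset.sum_congr rfl fun i hi => ?_
    have hi' := Finset.mem_range.1 hi
    have h3 : (j : ℚ) - i ≠ 0 := by
      have : ((j : ℤ) - i : ℤ) ≠ 0 := by omega
      have h4 : (((j : ℤ) - i : ℤ) : ℚ) ≠ 0 := by exact_mod_cast this
      push_cast at h4; exact h4
    have h4 : ((∏ l ∈ range (2 * r + 2), ((j : ℚ) - l))) = ((j : ℚ) - i) * (Pr r i j : ℚ) := by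
      rw [← Finset.mul_prod_erase (range (2 * r + 2)) _ hi]
      unfold Pr
      push_cast
      rfl
    rw [h4]
    have h5 := congrArg (Int.cast : ℤ → ℚ) (hd i)
    have h6 := congrArg (Int.cast : ℤ → ℚ) (choose_Pr r i hi')
    have h7 := hX (j - 1 - i)
    push_cast at h5 h6
    field_simp
    linear_combination ((Pr r i j : ℚ) * ((2 * r + 1).choose i : ℚ)) * h7 +
      (((2 * r + 1).choose i : ℚ) * (Xz (j - 1 - i) : ℚ)) * h5 + (Xz (j - 1 - i) : ℚ) * h6
  · intro L hL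
    have h1 : ∀ e : ℕ, ∃ z : ℤ, e ∈ range (2 * r + 2) → L * Yz (e + 1) = (j + 1) * z := by
      intro e
      by_cases he : e ∈ range (2 * r + 2)
      · obtain ⟨z, hz⟩ := Y_dvd r j e
        obtain ⟨q, hq⟩ := hL e (Finset.mem_range.1 he)
        refine ⟨q * z, fun _ => ?_⟩
        rw [hY] at hz
        have hz' : ((2 * (r : ℤ) + 1 - 2 * e) * Yz (e + 1) : ℤ) = (j + 1) * z := by
          have : (((2 * (r : ℤ) + 1 - 2 * e) * Yz (e + 1) : ℤ) : ℚ) = (((j + 1) * z : ℤ) : ℚ) := by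
            push_cast; exact hz
          exact_mod_cast this
        rw [hq]
        linear_combination q * hz'
      · exact ⟨0, fun h => absurd h he⟩
    choose z hz using h1
    refine ⟨∑ e ∈ range (2 * r + 2), (-1) ^ e * z e, ?_⟩
    rw [Finset.mul_sum, Finset.mul_sum]
    refine Finset.sum_congr rfl fun e he => ?_
    linear_combination ((-1) ^ e) * hz e he

end Q277.RSquares
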