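import Mathlib
import Pool.Agent.Q277.RSquares

/-!
# The multiplier for general `r`
-/

open Finset PowerSeries

namespace Q277.RSquares

open Q277.SqExp

theorem R_int (r n : ℕ) : ∃ z : ℤ, (D r : ℚ) * R (al r) n = z := by
  choose z hz using fun a => alint r a
  refine ⟨∑ k ∈ range (n + 1), ((n + k).choose (2 * k) : ℤ) * z k, ?_⟩
  unfold R
  rw [Finset.mul_sum]
  push_cast
  refine Finset.sum_congr rfl fun k _ => ?_
  rw [← hz, E_eq]
  ring

theorem R_sq_g (r n : ℕ) : ∑ j ∈ range (n + 1), ((n + j).choose (2 * j) : ℚ) * g r j =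
    R (al r) n ^ 2 := by
  rw [R_sq]
  refine Finset.sum_congr rfl fun j _ => ?_
  rw [E_eq]
  unfold g
  ring

theorem g_int (r j : ℕ) : ∃ z : ℤ, (D r : ℚ) ^ 2 * g r j = z := by
  choose z hz using fun n => R_int r n
  obtain ⟨y, hy⟩ := inversion 1 (fun j => (D r : ℚ) ^ 2 * g r j) (fun n => z n ^ 2) (by
    intro n
    push_cast
    rw [← hz, mul_pow, ← R_sq_g, Finset.mul_sum, one_mul]
    exact Finset.sum_congr rfl fun i _ => by ring) j
  exact ⟨y, by rw [hy]; push_cast; ring⟩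

theorem dvd_D (r : ℕ) : ∀ k ≤ r, (2 * (k : ℤ) + 1) ∣ D r := by
  induction r with
  | zero =>
    intro k hk
    have : k = 0 := by omega
    subst this
    simp
  | succ r ih =>
    intro k hk
    rw [D_succ]
    rcases Nat.lt_or_ge r k with h | h
    · have : k = r + 1 := by omega
      subst this
      push_cast
      exact ⟨D r, by ring⟩
    · exact Dvd.dvd.mul_left (ih k h) _

theorem dvd_D' (r f : ℕ) (hf : f < 2 * r + 2) : (2 * (r : ℤ) + 1 - 2 * f) ∣ D r := by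
  rcases Nat.lt_or_ge r f with h | h
  · obtain ⟨k, hk⟩ : ∃ k, f = r + 1 + k := ⟨f - (r + 1), by omega⟩
    have h1 := dvd_D r k (by omega)
    have h2 : (2 * (r : ℤ) + 1 - 2 * f) = -(2 * (k : ℤ) + 1) := by
      rw [hk]; push_cast; ring
    rw [h2]
    exact (neg_dvd).2 h1
  · obtain ⟨k, hk⟩ : ∃ k, r = f + k := ⟨r - f, by omega⟩
    have h1 := dvd_D r k (by omega)
    have h2 : (2 * (r : ℤ) + 1 - 2 * f) = (2 * (k : ℤ) + 1) := by
      rw [hk]; push_cast; ring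
    rw [h2]
    exact h1

theorem prod_mod (r j : ℕ) : ∃ z : ℤ, (∏ l ∈ range (2 * r + 2), ((j : ℤ) - l)) =
    ((2 * r + 2).factorial : ℤ) + (j + 1) * z := by
  obtain ⟨z, hz⟩ := dvd_prod_sub' ((j : ℤ) + 1) (range (2 * r + 2)) j (-1) ⟨1, by ring⟩
  refine ⟨z, ?_⟩
  have h1 := prod_neg (2 * r + 2)
  have h2 : (-1 : ℤ) ^ (2 * r + 2) = 1 := Even.neg_one_pow ⟨r + 1, by ring⟩
  rw [h2] at h1
  linear_combination hz + h1

/-- the bound for all `j` -/
theorem g_dvd (r j : ℕ) : ∃ z : ℤ, ((2 * r + 2).factorial : ℚ) * (D r : ℚ) ^ 2 * g r j =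
    (j + 1) * z := by
  obtain ⟨z0, hz0⟩ := g_int r j
  rcases Nat.lt_or_ge (2 * r + 1) j with h | h
  · obtain ⟨I1, S, h1, h2⟩ := unified r j h
    obtain ⟨I2, h3⟩ := h2 (D r) (fun f hf => dvd_D' r f hf)
    obtain ⟨y, hy⟩ := prod_mod r j
    refine ⟨D r * I1 - ((2 * r + 1).factorial : ℤ) * I2 - y * z0, ?_⟩
    have hy' := congrArg (Int.cast : ℤ → ℚ) hy
    have h3' := congrArg (Int.cast : ℤ → ℚ) h3
    push_cast at hy' h3' h1 ⊢
    linear_combination (D r : ℚ) * h1 - ((2 * r + 1).factorial : ℚ) * h3' -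
      ((D r : ℚ) ^ 2 * g r j) * hy' - (((j : ℚ) + 1) * y) * hz0
  · have h1 : (j + 1) ∣ (2 * r + 2).factorial := Nat.dvd_factorial (by omega) (by omega)
    obtain ⟨q, hq⟩ := h1
    refine ⟨q * z0, ?_⟩
    have hq' := congrArg (Nat.cast : ℕ → ℚ) hq
    push_cast at hq' ⊢
    rw [hq']
    linear_combination (((j : ℚ) + 1) * q) * hz0

/-- the weighted sums of squares -/
theorem weighted (r n : ℕ) : ∃ z : ℤ, ((2 * r + 2).factorial : ℚ) * (D r : ℚ) ^ 2 *
    ∑ k ∈ range n, (2 * (k : ℚ) + 1) * R (al r) k ^ 2 = n * z := by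
  choose z hz using fun j => g_dvd r j
  refine ⟨∑ j ∈ range n, (2 * (j : ℤ) + 1) * ((n + j).choose (2 * j + 1) : ℤ) * z j, ?_⟩
  rw [weighted_squares, mul_left_comm]
  congr 1
  rw [Finset.mul_sum]
  push_cast
  refine Finset.sum_congr rfl fun j _ => ?_
  have n1 : (j : ℚ) + 1 ≠ 0 := by positivity
  have h := hz j
  have h2 : ((2 * r + 2).factorial : ℚ) * (D r : ℚ) ^ 2 * (g r j / (j + 1)) = z j := by
    rw [← mul_div_assoc, h]; field_simp
  unfold g at h2
  linear_combination (2 * (j : ℚ) + 1) * ((n + j).choose (2 * j + 1) : ℚ) * h2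

end Q277.RSquares
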