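import Mathlib
import Pool.Agent.Q277.RGeneral

/-!
# The cases `r = 0` and `r = 1`: exact divisibility
-/

open Finset PowerSeries

namespace Q277.RSquares

open Q277.SqExp

/-! ### powers of two -/

theorem coeff_w_pow (j i : ℕ) : coeff i (w ^ j) = (j.choose i : ℚ) * 2 ^ (j - i) := by
  have : (w ^ j : ℚ⟦X⟧) = (((Polynomial.X + Polynomial.C (2 : ℚ)) ^ j : Polynomial ℚ) : ℚ⟦X⟧) := by
    unfold w
    push_cast
    rw [add_comm, map_ofNat]
  rw [this, Polynomial.coeff_coe, Polynomial.coeff_X_add_C_pow]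
  ring

theorem coeff_At_top (r j : ℕ) : coeff (j + 1) (At r j) = 0 := by
  unfold At A
  rw [coeff_C_mul, map_sum]
  rw [Finset.sum_eq_zero, mul_zero]
  intro a ha
  rw [Finset.mem_range] at ha
  rw [coeff_C_mul, coeff_one_add_X_pow, Nat.choose_eq_zero_of_lt (by omega : a < j + 1)]
  simp

/-- the recurrence of the coefficients -/
theorem coeff_rec (r j i : ℕ) (hi : i ≤ j) : (2 * (i : ℚ) - 2 * r - 1) * coeff i (At r j) =
    ((2 * j).choose j : ℚ) * ((j.choose i : ℚ) * 2 ^ (j - i)) - 2 * (i + 1) * coeff (i + 1) (At r j) := by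
  have h := congrArg (coeff i) (ode' r j)
  rw [map_add, coeff_C_mul, coeff_C_mul, coeff_w_pow j i] at h
  have h2 : coeff i (2 * (1 + X) * d⁄dX ℚ (At r j)) = 2 * (i + 1) * coeff (i + 1) (At r j) +
      2 * i * coeff i (At r j) := by
    have e4 : (2 : ℚ⟦X⟧) = C (2 : ℚ) := (map_ofNat C 2).symm
    rw [mul_assoc, e4, coeff_C_mul, add_mul, one_mul, map_add, coeff_derivative]
    rcases i with _ | i
    · rw [coeff_zero_X_mul]; push_cast; ring
    · rw [coeff_succ_X_mul, coeff_derivative]; push_cast; ring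
  rw [h2] at h
  linear_combination h

/-- the coefficients of `D C(2j,j) A_j` are divisible by `2^(j-i+1)` -/
theorem two_pow_dvd (r j : ℕ) (hj : 1 ≤ j) (k : ℕ → ℤ) (hk : ∀ i, (D r : ℚ) * coeff i (At r j) = k i)
    (d : ℕ) : d ≤ j → (2 : ℤ) ^ (d + 1) ∣ k (j - d) := by
  have heven : (2 : ℤ) ∣ ((2 * j).choose j : ℤ) := by
    have := Nat.two_dvd_centralBinom_of_one_le hj
    unfold Nat.centralBinom at this
    exact_mod_cast this
  obtain ⟨c, hc⟩ := heven
  induction d with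
  | zero =>
    intro _
    rw [Nat.sub_zero, zero_add, pow_one]
    have h := coeff_rec r j j le_rfl
    rw [coeff_At_top] at h
    have h2 : (((2 * (j : ℤ) - 2 * r - 1) * k j : ℤ) : ℚ) = ((2 * (D r * c) : ℤ) : ℚ) := by
      push_cast
      rw [← hk]
      have hc' := congrArg (Int.cast : ℤ → ℚ) hc
      push_cast at hc'
      simp only [Nat.choose_self, Nat.cast_one, Nat.sub_self, pow_zero, mul_one, mul_zero, sub_zero] at h
      linear_combination (D r : ℚ) * h + (D r : ℚ) * hc'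
    have h3 : (2 * (j : ℤ) - 2 * r - 1) * k j = 2 * (D r * c) := by exact_mod_cast h2
    have h4 : (2 : ℤ) ∣ (2 * (j : ℤ) - 2 * r - 1) * k j := ⟨_, h3⟩
    have h5 : IsCoprime (2 : ℤ) (2 * (j : ℤ) - 2 * r - 1) := ⟨(j : ℤ) - r, -1, by ring⟩
    exact h5.dvd_of_dvd_mul_left h4
  | succ d ih =>
    intro hd
    obtain ⟨e, he⟩ := ih (by omega)
    have h := coeff_rec r j (j - (d + 1)) (by omega)
    rw [show j - (d + 1) + 1 = j - d by omega, show j - (j - (d + 1)) = d + 1 by omega] at h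
    set i := j - (d + 1) with hi
    have h2 : (((2 * (i : ℤ) - 2 * r - 1) * k i : ℤ) : ℚ) =
        ((2 ^ (d + 1 + 1) * (D r * c * (j.choose i : ℤ) - (i + 1) * e) : ℤ) : ℚ) := by
      push_cast
      rw [← hk]
      have hc' := congrArg (Int.cast : ℤ → ℚ) hc
      have he' := congrArg (Int.cast : ℤ → ℚ) he
      have hk' := hk (j - d)
      push_cast at hc' he'
      rw [he'] at hk'
      linear_combination (D r : ℚ) * h + (D r : ℚ) * ((j.choose i : ℚ) * 2 ^ (d + 1)) * hc' -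
        2 * ((i : ℚ) + 1) * hk'
    have h3 : (2 * (i : ℤ) - 2 * r - 1) * k i =
        2 ^ (d + 1 + 1) * (D r * c * (j.choose i : ℤ) - (i + 1) * e) := by exact_mod_cast h2
    have h4 : (2 : ℤ) ^ (d + 1 + 1) ∣ (2 * (i : ℤ) - 2 * r - 1) * k i := ⟨_, h3⟩
    have h5 : IsCoprime ((2 : ℤ) ^ (d + 1 + 1)) (2 * (i : ℤ) - 2 * r - 1) := by
      apply IsCoprime.pow_left
      exact ⟨(i : ℤ) - r, -1, by ring⟩
    exact h5.dvd_of_dvd_mul_left h4

/-- `2^(j+2)` divides `C(2j,j) D^2 g_j` -/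
theorem two_pow_dvd_g (r j : ℕ) (hj : 1 ≤ j) (G : ℤ) (hG : (D r : ℚ) ^ 2 * g r j = G) :
    (2 : ℤ) ^ (j + 2) ∣ ((2 * j).choose j : ℤ) * G := by
  have hk : ∀ i, ∃ z : ℤ, (D r : ℚ) * coeff i (At r j) = z := by
    intro i
    obtain ⟨z, hz⟩ := coeff_int r j i (one_mem I)
    exact ⟨z, by rw [← hz, one_mul]⟩
  choose k hk using hk
  have h1 : ((((2 * j).choose j : ℤ) * G : ℤ) : ℚ) = ((∑ i ∈ range (j + 1), k i * k (j - i) : ℤ) : ℚ) := by
    have e1 : coeff j (At r j ^ 2) = ((2 * j).choose j : ℚ) * g r j := by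
      have : At r j ^ 2 = C (((2 * j).choose j : ℚ) ^ 2) * A r j ^ 2 := by
        unfold At; rw [map_pow]; ring
      rw [this, coeff_C_mul, coeff_A_sq]
      unfold g; ring
    rw [pow_two, coeff_mul, Finset.Nat.sum_antidiagonal_eq_sum_range_succ_mk] at e1
    push_cast
    rw [← hG]
    have e2 : ((2 * j).choose j : ℚ) * ((D r : ℚ) ^ 2 * g r j) =
        (D r : ℚ) ^ 2 * (((2 * j).choose j : ℚ) * g r j) := by ring
    rw [e2, ← e1, Finset.mul_sum]
    refine Finset.sum_congr rfl fun i _ => ?_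
    rw [← hk, ← hk]; ring
  have h2 : ((2 * j).choose j : ℤ) * G = ∑ i ∈ range (j + 1), k i * k (j - i) := by
    exact_mod_cast h1
  rw [h2]
  apply Finset.dvd_sum
  intro i hi
  rw [Finset.mem_range] at hi
  have h3 := two_pow_dvd r j hj k hk (j - i) (by omega)
  have h4 := two_pow_dvd r j hj k hk i (by omega)
  rw [show j - (j - i) = i by omega] at h3
  have h5 : (2 : ℤ) ^ (j + 2) = 2 ^ (j - i + 1) * 2 ^ (i + 1) := by
    rw [← pow_add]; congr 1; omega
  rw [h5]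
  exact mul_dvd_mul h3 h4

/-- combining the `2`-part and the odd part -/
theorem combine (N t s b : ℕ) (hN : N ≠ 0) (G : ℤ) (h1 : (N : ℤ) ∣ 2 ^ t * G)
    (h2 : (2 : ℤ) ^ b ∣ G) (h3 : N.factorization 2 + s ≤ b) : (2 : ℤ) ^ s * N ∣ G := by
  set a := N.factorization 2 with ha
  have hN' : 2 ^ a * (N / 2 ^ a) = N := Nat.ordProj_mul_ordCompl_eq_self N 2
  have hm : Nat.Coprime 2 (N / 2 ^ a) := Nat.coprime_ordCompl Nat.prime_two hN
  set m := N / 2 ^ a with hmdef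
  have hcop : ∀ c : ℕ, IsCoprime ((2 : ℤ) ^ c) (m : ℤ) := by
    intro c
    apply IsCoprime.pow_left
    have : IsCoprime ((2 : ℕ) : ℤ) (m : ℤ) := Nat.isCoprime_iff_coprime.2 hm
    exact_mod_cast this
  have h4 : (m : ℤ) ∣ 2 ^ t * G := by
    refine dvd_trans ?_ h1
    refine ⟨2 ^ a, ?_⟩
    have := congrArg (Nat.cast : ℕ → ℤ) hN'
    push_cast at this
    linear_combination -this
  have h5 : (m : ℤ) ∣ G := (hcop t).symm.dvd_of_dvd_mul_left h4
  have h6 : (2 : ℤ) ^ (s + a) ∣ G := dvd_trans (pow_dvd_pow 2 (by omega)) h2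
  have h7 := (hcop (s + a)).mul_dvd h6 h5
  have h8 : (2 : ℤ) ^ s * N = 2 ^ (s + a) * m := by
    have := congrArg (Nat.cast : ℕ → ℤ) hN'
    push_cast at this
    rw [← this, pow_add]; ring
  rw [h8]
  exact h7

/-- from `2^(j+2) ∣ C(2j,j) G` to a power of two dividing `G` -/
theorem two_part (j : ℕ) (G : ℤ) (h : (2 : ℤ) ^ (j + 2) ∣ ((2 * j).choose j : ℤ) * G) :
    (2 : ℤ) ^ (j + 2 - Nat.log 2 (2 * j)) ∣ G := by
  set C := (2 * j).choose j with hC
  have hC0 : C ≠ 0 := (Nat.choose_pos (by omega)).ne'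
  set c := C.factorization 2 with hc
  have hle : c ≤ Nat.log 2 (2 * j) := Nat.factorization_choose_le_log
  have hC' : 2 ^ c * (C / 2 ^ c) = C := Nat.ordProj_mul_ordCompl_eq_self C 2
  have hm : Nat.Coprime 2 (C / 2 ^ c) := Nat.coprime_ordCompl Nat.prime_two hC0
  set m := C / 2 ^ c with hmdef
  rcases Nat.lt_or_ge (j + 2) c with hlt | hge
  · have : j + 2 - Nat.log 2 (2 * j) = 0 := by omega
    rw [this]; simp
  · have h1 : (2 : ℤ) ^ (j + 2 - c) ∣ (m : ℤ) * G := by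
      have e1 : (C : ℤ) = 2 ^ c * m := by
        have := congrArg (Nat.cast : ℕ → ℤ) hC'
        push_cast at this
        linear_combination -this
      have e2 : (2 : ℤ) ^ (j + 2) = 2 ^ c * 2 ^ (j + 2 - c) := by
        rw [← pow_add]; congr 1; omega
      rw [e1, e2, mul_assoc] at h
      exact (mul_dvd_mul_iff_left (by positivity)).1 h
    have hcop : IsCoprime ((2 : ℤ) ^ (j + 2 - c)) (m : ℤ) := by
      apply IsCoprime.pow_left
      have : IsCoprime ((2 : ℕ) : ℤ) (m : ℤ) := Nat.isCoprime_iff_coprime.2 hm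
      exact_mod_cast this
    have h2 := hcop.dvd_of_dvd_mul_left h1
    exact dvd_trans (pow_dvd_pow 2 (by omega)) h2

theorem bounds (j : ℕ) (hj : 9 ≤ j) : Nat.log 2 (2 * j) + Nat.log 2 (j + 1) + 4 ≤ j + 2 := by
  have key : ∀ t : ℕ, 20 + 4 * t < 2 ^ (5 + t) ∧ 11 + 2 * t < 2 ^ (4 + t) := by
    intro t
    induction t with
    | zero => norm_num
    | succ t ih =>
      rw [← add_assoc, ← add_assoc, pow_succ, pow_succ]
      omega
  obtain ⟨h1, h2⟩ := key ((j - 9) / 2)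
  have h3 : Nat.log 2 (2 * j) < 5 + (j - 9) / 2 := Nat.log_lt_of_lt_pow (by omega) (by omega)
  have h4 : Nat.log 2 (j + 1) < 4 + (j - 9) / 2 := Nat.log_lt_of_lt_pow (by omega) (by omega)
  omega

theorem fact_le_log (N : ℕ) (hN : N ≠ 0) : N.factorization 2 ≤ Nat.log 2 N :=
  Nat.le_log_of_pow_le (by norm_num) (Nat.ordProj_le 2 hN)

theorem small0 (j : ℕ) (h1 : 1 ≤ j) (h2 : j ≤ 8) : ∃ z : ℤ, g 0 j = 16 * (j + 1) * z := by
  unfold g
  interval_cases j
  · exact ⟨0, by decide +kernel⟩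
  · exact ⟨1, by decide +kernel⟩
  · exact ⟨6, by decide +kernel⟩
  · exact ⟨52, by decide +kernel⟩
  · exact ⟨608, by decide +kernel⟩
  · exact ⟨8768, by decide +kernel⟩
  · exact ⟨145472, by decide +kernel⟩
  · exact ⟨2659392, by decide +kernel⟩

theorem small1 (j : ℕ) (h1 : 1 ≤ j) (h2 : j ≤ 7) : ∃ z : ℤ, 9 * g 1 j = 8 * (j + 1) * z := by
  unfold g
  interval_cases j
  · exact ⟨3, by decide +kernel⟩
  · exact ⟨-6, by decide +kernel⟩
  · exact ⟨180, by decide +kernel⟩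
  · exact ⟨2856, by decide +kernel⟩
  · exact ⟨27648, by decide +kernel⟩
  · exact ⟨325248, by decide +kernel⟩
  · exact ⟨4617600, by decide +kernel⟩

theorem D_zero : D 0 = 1 := rfl

theorem D_one : D 1 = 3 := rfl

/-- `16 (j+1)` divides `g_j` for `r = 0` -/
theorem g0_dvd (j : ℕ) (hj : 1 ≤ j) : ∃ z : ℤ, g 0 j = 16 * (j + 1) * z := by
  rcases Nat.lt_or_ge j 9 with h | h
  · exact small0 j hj (by omega)
  obtain ⟨G, hG⟩ := g_int 0 j
  have hG' : g 0 j = G := by rw [← hG, D_zero]; simp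
  obtain ⟨I1, S, h1, h2⟩ := unified 0 j (by omega)
  obtain ⟨I2, h3⟩ := h2 1 (by
    intro f hf
    interval_cases f
    · exact ⟨1, by norm_num⟩
    · exact ⟨-1, by norm_num⟩)
  obtain ⟨y, hy⟩ := prod_mod 0 j
  have hy' := congrArg (Int.cast : ℤ → ℚ) hy
  have h3' := congrArg (Int.cast : ℤ → ℚ) h3
  rw [D_zero, hG'] at h1
  have e1 : (((2 * G : ℤ)) : ℚ) = ((((j : ℤ) + 1) * (I1 - I2 - y * G) : ℤ) : ℚ) := by
    simp only [mul_zero, zero_add, Nat.factorial_one, Nat.factorial_two, Nat.cast_one,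
      Int.cast_one] at h1 hy' h3'
    push_cast at h1 h3' hy' ⊢
    linear_combination h1 - h3' - (G : ℚ) * hy'
  have e2 : (2 : ℤ) * G = ((j : ℤ) + 1) * (I1 - I2 - y * G) := by exact_mod_cast e1
  have e3 : (2 : ℤ) ^ 4 * ((j + 1 : ℕ) : ℤ) ∣ G := by
    apply combine (j + 1) 1 4 (j + 2 - Nat.log 2 (2 * j)) (by omega) G
    · refine ⟨I1 - I2 - y * G, ?_⟩
      push_cast; linear_combination e2
    · exact two_part j G (two_pow_dvd_g 0 j hj G hG)
    · have := fact_le_log (j + 1) (by omega)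
      have := bounds j h
      omega
  obtain ⟨z, hz⟩ := e3
  refine ⟨z, ?_⟩
  rw [hG', hz]
  push_cast; ring

/-- the sum of `(2k+1) R_k^2` -/
theorem R0_sum (n : ℕ) : ∃ z : ℤ, ∑ k ∈ range n, (2 * (k : ℚ) + 1) * R (al 0) k ^ 2 =
    (n : ℚ) ^ 2 + 16 * n * z := by
  rcases n with _ | n
  · exact ⟨0, by simp⟩
  have hz : ∀ j : ℕ, ∃ z : ℤ, g 0 (j + 1) = 16 * (((j + 1 : ℕ) : ℚ) + 1) * z := fun j =>
    g0_dvd (j + 1) (by omega)
  choose z hz using hz
  refine ⟨∑ j ∈ range n, (2 * ((j : ℤ) + 1) + 1) * ((n + 1 + (j + 1)).choose (2 * (j + 1) + 1) : ℤ) * z j, ?_⟩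
  rw [weighted_squares, Finset.sum_range_succ']
  have e0 : (2 * ((0 : ℕ) : ℚ) + 1) * ((n + 1 + 0).choose (2 * 0 + 1) : ℚ) *
      (((2 * 0).choose 0 : ℚ) * SqExp.r (al 0) 0 / (((0 : ℕ) : ℚ) + 1)) = n + 1 := by
    have : SqExp.r (al 0) 0 = 1 := by decide +kernel
    rw [this]; simp
  rw [e0]
  push_cast
  have e1 : ∑ j ∈ range n, (2 * ((j : ℚ) + 1) + 1) * ((n + 1 + (j + 1)).choose (2 * (j + 1) + 1) : ℚ) *
      (((2 * (j + 1)).choose (j + 1) : ℚ) * SqExp.r (al 0) (j + 1) / ((j : ℚ) + 1 + 1)) =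
      16 * ∑ j ∈ range n, (2 * ((j : ℚ) + 1) + 1) *
        ((n + 1 + (j + 1)).choose (2 * (j + 1) + 1) : ℚ) * z j := by
    rw [Finset.mul_sum]
    refine Finset.sum_congr rfl fun j _ => ?_
    have h := hz j
    unfold g at h
    rw [h]
    push_cast
    have n1 : (j : ℚ) + 1 + 1 ≠ 0 := by positivity
    field_simp
  rw [e1]
  ring

end Q277.RSquares
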