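import Mathlib
import Pool.Agent.Q277.FacTools

/-!
Telescoping pair for the sums of `(11k+3) C(2k,k)^2 C(3k,k) 64^(n-1-k)`.
-/

namespace Q277.Ram11k3

open Finset Q277.FacTools

/-- first member of the pair -/
noncomputable def F (n k : ℕ) : ℚ :=
  if 3 * k ≤ n then
    (-64) ^ k * (22 * n ^ 2 + (17 - 34 * k) * n + (12 * k ^ 2 - 15 * k + 3)) *
    ((k.factorial : ℚ) * ((3 * (n - k)).factorial : ℚ) * ((2 * (n - 2 * k)).factorial : ℚ) *
      ((2 * n).factorial : ℚ)) /
    (((2 * k).factorial : ℚ) * ((n - 2 * k).factorial : ℚ) * (n.factorial : ℚ) ^ 2 *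
      ((2 * (n - k) + 1).factorial : ℚ) * ((n - 3 * k).factorial : ℚ) * ((n - k).factorial : ℚ))
  else 0

/-- second member of the pair -/
noncomputable def G (n k : ℕ) : ℚ :=
  if 3 * k + 1 ≤ n then
    (-64) ^ k * (n * (2 * n + 1)) * (8 * n ^ 2 - 26 * n * k + 18 * k ^ 2 - 17 * n + 25 * k + 8) *
    ((k.factorial : ℚ) * ((3 * (n - k - 1)).factorial : ℚ) *
      ((2 * (n - 2 * k - 1)).factorial : ℚ) * ((2 * n).factorial : ℚ)) /
    (2 * (2 * n - 4 * k - 3) * ((2 * k + 1).factorial : ℚ) * ((n - k - 1).factorial : ℚ) *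
      ((n - 3 * k - 1).factorial : ℚ) * ((2 * (n - k - 1) + 1).factorial : ℚ) *
      ((n - 2 * k - 1).factorial : ℚ) * (n.factorial : ℚ) ^ 2)
  else 0

theorem odd_ne (r k : ℕ) : 2 * (k : ℚ) + 2 * r - 1 ≠ 0 := by
  intro h
  have h1 : (2 * (k : ℤ) + 2 * r - 1) = 0 := by
    have : ((2 * (k : ℤ) + 2 * r - 1 : ℤ) : ℚ) = 0 := by push_cast; exact h
    exact_mod_cast this
  omega

theorem G_r (n r k : ℕ) (hn : n = 3 * k + 1 + r) : G n k =
    (-64) ^ k * (n * (2 * n + 1)) * (8 * r ^ 2 + 22 * k * r + 12 * k ^ 2 - r - 4 * k - 1) *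
    ((k.factorial : ℚ) * ((6 * k + 3 * r).factorial : ℚ) * ((2 * k + 2 * r).factorial : ℚ) *
      ((2 * n).factorial : ℚ)) /
    (2 * (2 * k + 2 * r - 1) * ((2 * k + 1).factorial : ℚ) * ((2 * k + r).factorial : ℚ) *
      (r.factorial : ℚ) * ((4 * k + 2 * r + 1).factorial : ℚ) * ((k + r).factorial : ℚ) *
      (n.factorial : ℚ) ^ 2) := by
  unfold G
  rw [if_pos (by omega)]
  rw [show n - k - 1 = 2 * k + r by omega, show n - 2 * k - 1 = k + r by omega,
    show n - 3 * k - 1 = r by omega, show 3 * (2 * k + r) = 6 * k + 3 * r by ring,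
    show 2 * (k + r) = 2 * k + 2 * r by ring, show 2 * (2 * k + r) + 1 = 4 * k + 2 * r + 1 by ring]
  have hn' : (n : ℚ) = 3 * k + 1 + r := by rw [hn]; push_cast; ring
  have e1 : 8 * (n : ℚ) ^ 2 - 26 * n * k + 18 * k ^ 2 - 17 * n + 25 * k + 8
      = 8 * r ^ 2 + 22 * k * r + 12 * k ^ 2 - r - 4 * k - 1 := by rw [hn']; ring
  have e2 : 2 * (n : ℚ) - 4 * k - 3 = 2 * k + 2 * r - 1 := by rw [hn']; ring
  rw [e1, e2]

theorem F_r (n s k : ℕ) (hn : n = 3 * k + s) : F n k =
    (-64) ^ k * (22 * n ^ 2 + (17 - 34 * k) * n + (12 * k ^ 2 - 15 * k + 3)) *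
    ((k.factorial : ℚ) * ((6 * k + 3 * s).factorial : ℚ) * ((2 * k + 2 * s).factorial : ℚ) *
      ((2 * n).factorial : ℚ)) /
    (((2 * k).factorial : ℚ) * ((k + s).factorial : ℚ) * (n.factorial : ℚ) ^ 2 *
      ((4 * k + 2 * s + 1).factorial : ℚ) * (s.factorial : ℚ) * ((2 * k + s).factorial : ℚ)) := by
  unfold F
  rw [if_pos (by omega)]
  rw [show n - k = 2 * k + s by omega, show n - 2 * k = k + s by omega,
    show n - 3 * k = s by omega, show 3 * (2 * k + s) = 6 * k + 3 * s by ring,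
    show 2 * (k + s) = 2 * k + 2 * s by ring, show 2 * (2 * k + s) + 1 = 4 * k + 2 * s + 1 by ring]

theorem F_succ (n r k : ℕ) (hn : n = 3 * k + 1 + r) : F n (k + 1) =
    (-64) ^ (k + 1) * (22 * n ^ 2 + (17 - 34 * (k + 1)) * n + (12 * (k + 1) ^ 2 - 15 * (k + 1) + 3)) *
    (((k + 1).factorial : ℚ) * ((6 * k + 3 * r).factorial : ℚ) * ((2 * k + 2 * r).factorial : ℚ) *
      ((2 * n).factorial : ℚ)) * (r * (r - 1)) /
    (((2 * k + 2).factorial : ℚ) * ((k + r).factorial : ℚ) * (n.factorial : ℚ) ^ 2 *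
      ((4 * k + 2 * r + 1).factorial : ℚ) * (r.factorial : ℚ) * ((2 * k + r).factorial : ℚ) *
      (2 * (2 * k + 2 * r - 1))) := by
  match r with
  | 0 =>
    unfold F
    rw [if_neg (by omega)]
    simp
  | 1 =>
    unfold F
    rw [if_neg (by omega)]
    simp
  | s + 2 =>
    rw [F_r n s (k + 1) (by omega)]
    rw [show 6 * (k + 1) + 3 * s = 6 * k + 3 * (s + 2) by ring,
      show 2 * k + 2 * (s + 2) = 2 * (k + 1) + 2 * s + 2 by ring,
      show k + (s + 2) = (k + 1 + s) + 1 by ring,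
      show 4 * (k + 1) + 2 * s + 1 = 4 * k + 2 * (s + 2) + 1 by ring,
      show 2 * (k + 1) + s = 2 * k + (s + 2) by ring,
      show 2 * k + 2 = 2 * (k + 1) by ring, f2 (2 * (k + 1) + 2 * s), f1 (k + 1 + s), f2 s]
    have a1 := fne (6 * k + 3 * (s + 2))
    have a2 := fne (2 * (k + 1) + 2 * s)
    have a3 := fne (k + 1 + s)
    have a4 := fne (4 * k + 2 * (s + 2) + 1)
    have a5 := fne (2 * k + (s + 2))
    have a6 := fne s
    have a7 := fne n
    have a8 := fne (k + 1)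
    have a9 := fne (2 * (k + 1))
    have a10 := fne (2 * n)
    generalize ((6 * k + 3 * (s + 2)).factorial : ℚ) = x1 at *
    generalize ((2 * (k + 1) + 2 * s).factorial : ℚ) = x2 at *
    generalize ((k + 1 + s).factorial : ℚ) = x3 at *
    generalize ((4 * k + 2 * (s + 2) + 1).factorial : ℚ) = x4 at *
    generalize ((2 * k + (s + 2)).factorial : ℚ) = x5 at *
    generalize (s.factorial : ℚ) = x6 at *
    generalize (n.factorial : ℚ) = x7 at *
    generalize ((k + 1).factorial : ℚ) = x8 at *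
    generalize ((2 * (k + 1)).factorial : ℚ) = x9 at *
    generalize ((2 * n).factorial : ℚ) = x10 at *
    push_cast
    have b1 : (k : ℚ) + 1 + s + 1 ≠ 0 := by positivity
    have b2 : (s : ℚ) + 1 ≠ 0 := by positivity
    have b3 : (s : ℚ) + 2 ≠ 0 := by positivity
    have b4 : 2 * (k : ℚ) + 2 * (s + 2) - 1 ≠ 0 := by
      have := odd_ne (s + 2) k
      push_cast at this
      exact this
    have b5 : 2 * ((k : ℚ) + 1) + 2 * s + 1 = 2 * (k : ℚ) + 2 * (s + 2) - 1 := by ring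
    rw [b5]
    generalize 2 * (k : ℚ) + 2 * (s + 2) - 1 = u at *
    rw [show (s : ℚ) + 2 - 1 = s + 1 by ring,
      show 2 * ((k : ℚ) + 1) + 2 * s + 2 = 2 * ((k : ℚ) + 1 + s + 1) by ring]
    field_simp

theorem pair (n k : ℕ) (h : k < n) : G (n + 1) k - 64 * G n k = F n k - F n (k + 1) := by
  rcases Nat.lt_or_ge n (3 * k) with h1 | h1
  · unfold F G
    rw [if_neg (by omega), if_neg (by omega), if_neg (by omega), if_neg (by omega)]
    simp
  rcases Nat.eq_or_lt_of_le h1 with h2 | h2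
  · have e1 : G n k = 0 := by unfold G; rw [if_neg (by omega)]
    have e2 : F n (k + 1) = 0 := by unfold F; rw [if_neg (by omega)]
    rw [e1, e2, G_r (n + 1) 0 k (by omega), F_r n 0 k (by omega)]
    obtain ⟨i, rfl⟩ : ∃ i, k = i + 1 := ⟨k - 1, by omega⟩
    simp only [mul_zero, add_zero, sub_zero, Nat.cast_zero, Nat.factorial_zero]
    rw [show 2 * (n + 1) = 2 * n + 2 by ring, f2 (2 * n), f1 n, f1 (2 * (i + 1))]
    have a1 := fne (6 * (i + 1))
    have a2 := fne (2 * (i + 1))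
    have a3 := fne (i + 1)
    have a4 := fne (4 * (i + 1) + 1)
    have a5 := fne (2 * n)
    have a6 := fne n
    generalize ((6 * (i + 1)).factorial : ℚ) = x1 at *
    generalize ((2 * (i + 1)).factorial : ℚ) = x2 at *
    generalize ((i + 1).factorial : ℚ) = x3 at *
    generalize ((4 * (i + 1) + 1).factorial : ℚ) = x4 at *
    generalize ((2 * n).factorial : ℚ) = x5 at *
    generalize (n.factorial : ℚ) = x6 at *
    have hn' : (n : ℚ) = 3 * (i + 1) := by rw [← h2]; push_cast; ring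
    push_cast
    rw [hn']
    have b1 : 2 * ((i : ℚ) + 1) + 1 ≠ 0 := by positivity
    have b2 : 3 * ((i : ℚ) + 1) + 1 ≠ 0 := by positivity
    have b3 : 2 * (i : ℚ) + 1 ≠ 0 := by positivity
    rw [show 2 * ((i : ℚ) + 1) - 1 = 2 * i + 1 by ring]
    field_simp
    ring
  · obtain ⟨r, hr⟩ : ∃ r, n = 3 * k + 1 + r := ⟨n - 3 * k - 1, by omega⟩
    rw [G_r (n + 1) (r + 1) k (by omega), G_r n r k hr, F_r n (r + 1) k (by omega),
      F_succ n r k hr]
    rw [show 2 * (n + 1) = 2 * n + 2 by ring, show 6 * k + 3 * (r + 1) = 6 * k + 3 * r + 3 by ring,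
      show 2 * k + 2 * (r + 1) = 2 * k + 2 * r + 2 by ring,
      show 2 * k + (r + 1) = 2 * k + r + 1 by ring,
      show 4 * k + 2 * (r + 1) + 1 = 4 * k + 2 * r + 1 + 2 by ring,
      show k + (r + 1) = k + r + 1 by ring,
      f2 (2 * n), f1 n, f3 (6 * k + 3 * r), f2 (2 * k + 2 * r), f1 (2 * k + r),
      f2 (4 * k + 2 * r + 1), f1 (k + r), f1 r, f2 (2 * k), f1 (2 * k), f1 k]
    have a1 := fne (6 * k + 3 * r)
    have a2 := fne (2 * k + 2 * r)
    have a3 := fne (2 * k + r)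
    have a4 := fne (4 * k + 2 * r + 1)
    have a5 := fne (k + r)
    have a6 := fne r
    have a7 := fne (2 * k)
    have a8 := fne k
    have a9 := fne n
    have a10 := fne (2 * n)
    generalize ((6 * k + 3 * r).factorial : ℚ) = x1 at *
    generalize ((2 * k + 2 * r).factorial : ℚ) = x2 at *
    generalize ((2 * k + r).factorial : ℚ) = x3 at *
    generalize ((4 * k + 2 * r + 1).factorial : ℚ) = x4 at *
    generalize ((k + r).factorial : ℚ) = x5 at *
    generalize (r.factorial : ℚ) = x6 at *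
    generalize ((2 * k).factorial : ℚ) = x7 at *
    generalize (k.factorial : ℚ) = x8 at *
    generalize (n.factorial : ℚ) = x9 at *
    generalize ((2 * n).factorial : ℚ) = x10 at *
    have hn' : (n : ℚ) = 3 * k + 1 + r := by rw [hr]; push_cast; ring
    push_cast
    rw [hn']
    have b0 := odd_ne r k
    have b1 : 2 * (k : ℚ) + 2 * r + 1 ≠ 0 := by positivity
    rw [show 2 * (k : ℚ) + 2 * (r + 1) - 1 = 2 * k + 2 * r + 1 by ring]
    obtain ⟨u, hu⟩ : ∃ u : ℚ, u = 2 * k + 2 * r - 1 := ⟨_, rfl⟩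
    rw [← hu] at b0 ⊢
    have b2 : 2 * (k : ℚ) + 1 ≠ 0 := by positivity
    have b3 : 2 * (k : ℚ) + 2 ≠ 0 := by positivity
    have b4 : 2 * (k : ℚ) + r + 1 ≠ 0 := by positivity
    have b5 : 4 * (k : ℚ) + 2 * r + 1 + 1 ≠ 0 := by positivity
    have b6 : 4 * (k : ℚ) + 2 * r + 1 + 2 ≠ 0 := by positivity
    have b7 : (k : ℚ) + r + 1 ≠ 0 := by positivity
    have b8 : (r : ℚ) + 1 ≠ 0 := by positivity
    have b9 : 3 * (k : ℚ) + 1 + r + 1 ≠ 0 := by positivity
    rw [pow_succ]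
    field_simp
    rw [hu]
    ring

theorem corner (n : ℕ) : G (n + 1) n = F n n := by
  rcases Nat.eq_zero_or_pos n with rfl | hn
  · unfold F G
    norm_num
  · unfold F G
    rw [if_neg (by omega), if_neg (by omega)]

end Q277.Ram11k3
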