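import Mathlib
import Pool.Agent.Q277.FacTools
import Pool.Agent.Q266.FacDvd

/-!
Quotients of factorials for the sums of `(11k+3) C(2k,k)^2 C(3k,k) 64^(n-1-k)`.
-/

namespace Q277.Ram11k3

open Finset Q277.FacTools Q266.FacVal Q266.FacDvd

private theorem lvlA_core (q s t d1 d2 d3 d4 e1 e2 : ℕ) (hq : 2 ≤ q) (hs : s < q) (ht : t < q)
    (u0 : q * d1 ≤ 2 * t)
    (u1 : q * d2 ≤ s + 2 * t + 1)
    (u2 : q * d3 ≤ 2 * s + 4 * t + 3)
    (u3 : q * d4 ≤ s + t)
    (u4 : 3 * s + 6 * t + 3 < q * e1 + q)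
    (u5 : 2 * s + 2 * t < q * e2 + q)
    (w0 : d1 < 2)
    (w1 : d2 < 3)
    (w2 : d3 < 6)
    (w3 : d4 < 2)
    (w4 : e1 < 9)
    (w5 : e2 < 4) :
    d1 + d2 + d3 + d4 ≤ e1 + e2 := by
  by_contra hcon
  push Not at hcon
  interval_cases e1 <;> first
    | omega
    | (interval_cases d3 <;> first
        | omega
        | (interval_cases d2 <;> first
            | omega
            | (interval_cases d1 <;> first
                | omega
                | (interval_cases e2 <;> first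
                    | omega
                    | (interval_cases d4 <;> omega)))))

theorem lvlA (r k q : ℕ) (hq : 2 ≤ q) :
    (2 * k) / q + (r + 2 * k + 1) / q + (r) / q + (2 * r + 4 * k + 3) / q + (r + k) / q
      ≤ (k) / q + (3 * r + 6 * k + 3) / q + (2 * r + 2 * k) / q := by
  have hq0 : 0 < q := by omega
  have hs : r % q < q := Nat.mod_lt _ hq0
  have ht : k % q < q := Nat.mod_lt _ hq0
  have en := Nat.div_add_mod r q
  have ek := Nat.div_add_mod k q
  generalize r % q = s at *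
  generalize k % q = t at *
  generalize r / q = x at *
  generalize k / q = y at *
  subst en
  subst ek
  have t0 : (2 * (q * y + t)) / q = 2 * y + (2 * t) / q := by
    rw [show 2 * (q * y + t) = q * (2 * y) + (2 * t) by ring, Nat.mul_add_div hq0]
  have t1 : ((q * x + s) + 2 * (q * y + t) + 1) / q = x + 2 * y + (s + 2 * t + 1) / q := by
    rw [show (q * x + s) + 2 * (q * y + t) + 1 = q * (x + 2 * y) + (s + 2 * t + 1) by ring, Nat.mul_add_div hq0]
  have t3 : (2 * (q * x + s) + 4 * (q * y + t) + 3) / q = 2 * x + 4 * y + (2 * s + 4 * t + 3) / q := by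
    rw [show 2 * (q * x + s) + 4 * (q * y + t) + 3 = q * (2 * x + 4 * y) + (2 * s + 4 * t + 3) by ring, Nat.mul_add_div hq0]
  have t4 : ((q * x + s) + (q * y + t)) / q = x + y + (s + t) / q := by
    rw [show (q * x + s) + (q * y + t) = q * (x + y) + (s + t) by ring, Nat.mul_add_div hq0]
  have t6 : (3 * (q * x + s) + 6 * (q * y + t) + 3) / q = 3 * x + 6 * y + (3 * s + 6 * t + 3) / q := by
    rw [show 3 * (q * x + s) + 6 * (q * y + t) + 3 = q * (3 * x + 6 * y) + (3 * s + 6 * t + 3) by ring, Nat.mul_add_div hq0]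
  have t7 : (2 * (q * x + s) + 2 * (q * y + t)) / q = 2 * x + 2 * y + (2 * s + 2 * t) / q := by
    rw [show 2 * (q * x + s) + 2 * (q * y + t) = q * (2 * x + 2 * y) + (2 * s + 2 * t) by ring, Nat.mul_add_div hq0]
  rw [t0, t1, t3, t4, t6, t7]
  have b0 : (2 * t) / q < 2 := Nat.div_lt_of_lt_mul (by omega)
  have c0 : q * ((2 * t) / q) ≤ 2 * t := Nat.mul_div_le _ _
  have b1 : (s + 2 * t + 1) / q < 3 := Nat.div_lt_of_lt_mul (by omega)
  have c1 : q * ((s + 2 * t + 1) / q) ≤ s + 2 * t + 1 := Nat.mul_div_le _ _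
  have b2 : (2 * s + 4 * t + 3) / q < 6 := Nat.div_lt_of_lt_mul (by omega)
  have c2 : q * ((2 * s + 4 * t + 3) / q) ≤ 2 * s + 4 * t + 3 := Nat.mul_div_le _ _
  have b3 : (s + t) / q < 2 := Nat.div_lt_of_lt_mul (by omega)
  have c3 : q * ((s + t) / q) ≤ s + t := Nat.mul_div_le _ _
  have b4 : (3 * s + 6 * t + 3) / q < 9 := Nat.div_lt_of_lt_mul (by omega)
  have c4 : 3 * s + 6 * t + 3 < q * ((3 * s + 6 * t + 3) / q) + q := Nat.lt_mul_div_succ _ hq0
  have b5 : (2 * s + 2 * t) / q < 4 := Nat.div_lt_of_lt_mul (by omega)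
  have c5 : 2 * s + 2 * t < q * ((2 * s + 2 * t) / q) + q := Nat.lt_mul_div_succ _ hq0
  have key := lvlA_core q s t _ _ _ _ _ _ hq hs ht c0 c1 c2 c3 c4 c5 b0 b1 b2 b3 b4 b5
  clear c0 c1 c2 c3 c4 c5
  omega

theorem lvlA_list (r k q : ℕ) (hq : 2 ≤ q) :
    (([2 * k, r + 2 * k + 1, r, 2 * r + 4 * k + 3, r + k] : List ℕ).map (fun a => a / q)).sum
      ≤ (([k, 3 * r + 6 * k + 3, 2 * r + 2 * k] : List ℕ).map (fun a => a / q)).sum := by
  have h := lvlA r k q hq
  simp only [List.map_cons, List.map_nil, List.sum_cons, List.sum_nil]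
  omega

private theorem lvlB_core (q s t d1 d2 d3 d4 e1 e2 : ℕ) (hq : 2 ≤ q) (hs : s < q) (ht : t < q)
    (u0 : q * d1 ≤ 2 * t)
    (u1 : q * d2 ≤ s + 2 * t)
    (u2 : q * d3 ≤ 2 * s + 4 * t + 1)
    (u3 : q * d4 ≤ s + t)
    (u4 : 3 * s + 6 * t < q * e1 + q)
    (u5 : 2 * s + 2 * t < q * e2 + q)
    (w0 : d1 < 2)
    (w1 : d2 < 3)
    (w2 : d3 < 6)
    (w3 : d4 < 2)
    (w4 : e1 < 9)
    (w5 : e2 < 4) :
    d1 + d2 + d3 + d4 ≤ e1 + e2 := by
  by_contra hcon
  push Not at hcon
  interval_cases d3 <;> first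
    | omega
    | (interval_cases e1 <;> first
        | omega
        | (interval_cases e2 <;> first
            | omega
            | (interval_cases d2 <;> first
                | omega
                | (interval_cases d4 <;> first
                    | omega
                    | (interval_cases d1 <;> omega)))))

theorem lvlB (r k q : ℕ) (hq : 2 ≤ q) :
    (2 * k) / q + (r + 2 * k) / q + (r) / q + (2 * r + 4 * k + 1) / q + (r + k) / q
      ≤ (k) / q + (3 * r + 6 * k) / q + (2 * r + 2 * k) / q := by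
  have hq0 : 0 < q := by omega
  have hs : r % q < q := Nat.mod_lt _ hq0
  have ht : k % q < q := Nat.mod_lt _ hq0
  have en := Nat.div_add_mod r q
  have ek := Nat.div_add_mod k q
  generalize r % q = s at *
  generalize k % q = t at *
  generalize r / q = x at *
  generalize k / q = y at *
  subst en
  subst ek
  have t0 : (2 * (q * y + t)) / q = 2 * y + (2 * t) / q := by
    rw [show 2 * (q * y + t) = q * (2 * y) + (2 * t) by ring, Nat.mul_add_div hq0]
  have t1 : ((q * x + s) + 2 * (q * y + t)) / q = x + 2 * y + (s + 2 * t) / q := by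
    rw [show (q * x + s) + 2 * (q * y + t) = q * (x + 2 * y) + (s + 2 * t) by ring, Nat.mul_add_div hq0]
  have t3 : (2 * (q * x + s) + 4 * (q * y + t) + 1) / q = 2 * x + 4 * y + (2 * s + 4 * t + 1) / q := by
    rw [show 2 * (q * x + s) + 4 * (q * y + t) + 1 = q * (2 * x + 4 * y) + (2 * s + 4 * t + 1) by ring, Nat.mul_add_div hq0]
  have t4 : ((q * x + s) + (q * y + t)) / q = x + y + (s + t) / q := by
    rw [show (q * x + s) + (q * y + t) = q * (x + y) + (s + t) by ring, Nat.mul_add_div hq0]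
  have t6 : (3 * (q * x + s) + 6 * (q * y + t)) / q = 3 * x + 6 * y + (3 * s + 6 * t) / q := by
    rw [show 3 * (q * x + s) + 6 * (q * y + t) = q * (3 * x + 6 * y) + (3 * s + 6 * t) by ring, Nat.mul_add_div hq0]
  have t7 : (2 * (q * x + s) + 2 * (q * y + t)) / q = 2 * x + 2 * y + (2 * s + 2 * t) / q := by
    rw [show 2 * (q * x + s) + 2 * (q * y + t) = q * (2 * x + 2 * y) + (2 * s + 2 * t) by ring, Nat.mul_add_div hq0]
  rw [t0, t1, t3, t4, t6, t7]
  have b0 : (2 * t) / q < 2 := Nat.div_lt_of_lt_mul (by omega)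
  have c0 : q * ((2 * t) / q) ≤ 2 * t := Nat.mul_div_le _ _
  have b1 : (s + 2 * t) / q < 3 := Nat.div_lt_of_lt_mul (by omega)
  have c1 : q * ((s + 2 * t) / q) ≤ s + 2 * t := Nat.mul_div_le _ _
  have b2 : (2 * s + 4 * t + 1) / q < 6 := Nat.div_lt_of_lt_mul (by omega)
  have c2 : q * ((2 * s + 4 * t + 1) / q) ≤ 2 * s + 4 * t + 1 := Nat.mul_div_le _ _
  have b3 : (s + t) / q < 2 := Nat.div_lt_of_lt_mul (by omega)
  have c3 : q * ((s + t) / q) ≤ s + t := Nat.mul_div_le _ _
  have b4 : (3 * s + 6 * t) / q < 9 := Nat.div_lt_of_lt_mul (by omega)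
  have c4 : 3 * s + 6 * t < q * ((3 * s + 6 * t) / q) + q := Nat.lt_mul_div_succ _ hq0
  have b5 : (2 * s + 2 * t) / q < 4 := Nat.div_lt_of_lt_mul (by omega)
  have c5 : 2 * s + 2 * t < q * ((2 * s + 2 * t) / q) + q := Nat.lt_mul_div_succ _ hq0
  have key := lvlB_core q s t _ _ _ _ _ _ hq hs ht c0 c1 c2 c3 c4 c5 b0 b1 b2 b3 b4 b5
  clear c0 c1 c2 c3 c4 c5
  omega

theorem lvlB_list (r k q : ℕ) (hq : 2 ≤ q) :
    (([2 * k, r + 2 * k, r, 2 * r + 4 * k + 1, r + k] : List ℕ).map (fun a => a / q)).sum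
      ≤ (([k, 3 * r + 6 * k, 2 * r + 2 * k] : List ℕ).map (fun a => a / q)).sum := by
  have h := lvlB r k q hq
  simp only [List.map_cons, List.map_nil, List.sum_cons, List.sum_nil]
  omega

private theorem lvlC_core (q s t d1 d2 d3 d4 e1 e2 : ℕ) (hq : 2 ≤ q) (hs : s < q) (ht : t < q)
    (u0 : q * d1 ≤ 2 * t + 1)
    (u1 : q * d2 ≤ s + 2 * t)
    (u2 : q * d3 ≤ 2 * s + 4 * t)
    (u3 : q * d4 ≤ s + t)
    (u4 : 3 * s + 6 * t < q * e1 + q)
    (u5 : 2 * s + 2 * t < q * e2 + q)
    (w0 : d1 < 2)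
    (w1 : d2 < 3)
    (w2 : d3 < 6)
    (w3 : d4 < 2)
    (w4 : e1 < 9)
    (w5 : e2 < 4) :
    d1 + d2 + d3 + d4 ≤ e1 + e2 := by
  by_contra hcon
  push Not at hcon
  interval_cases d3 <;> first
    | omega
    | (interval_cases e1 <;> first
        | omega
        | (interval_cases e2 <;> first
            | omega
            | (interval_cases d2 <;> first
                | omega
                | (interval_cases d4 <;> first
                    | omega
                    | (interval_cases d1 <;> omega)))))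

theorem lvlC (r k q : ℕ) (hq : 2 ≤ q) :
    (2 * k + 1) / q + (r + 2 * k) / q + (r) / q + (2 * r + 4 * k) / q + (r + k) / q
      ≤ (k) / q + (3 * r + 6 * k) / q + (2 * r + 2 * k) / q := by
  have hq0 : 0 < q := by omega
  have hs : r % q < q := Nat.mod_lt _ hq0
  have ht : k % q < q := Nat.mod_lt _ hq0
  have en := Nat.div_add_mod r q
  have ek := Nat.div_add_mod k q
  generalize r % q = s at *
  generalize k % q = t at *
  generalize r / q = x at *
  generalize k / q = y at *
  subst en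
  subst ek
  have t0 : (2 * (q * y + t) + 1) / q = 2 * y + (2 * t + 1) / q := by
    rw [show 2 * (q * y + t) + 1 = q * (2 * y) + (2 * t + 1) by ring, Nat.mul_add_div hq0]
  have t1 : ((q * x + s) + 2 * (q * y + t)) / q = x + 2 * y + (s + 2 * t) / q := by
    rw [show (q * x + s) + 2 * (q * y + t) = q * (x + 2 * y) + (s + 2 * t) by ring, Nat.mul_add_div hq0]
  have t3 : (2 * (q * x + s) + 4 * (q * y + t)) / q = 2 * x + 4 * y + (2 * s + 4 * t) / q := by
    rw [show 2 * (q * x + s) + 4 * (q * y + t) = q * (2 * x + 4 * y) + (2 * s + 4 * t) by ring, Nat.mul_add_div hq0]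
  have t4 : ((q * x + s) + (q * y + t)) / q = x + y + (s + t) / q := by
    rw [show (q * x + s) + (q * y + t) = q * (x + y) + (s + t) by ring, Nat.mul_add_div hq0]
  have t6 : (3 * (q * x + s) + 6 * (q * y + t)) / q = 3 * x + 6 * y + (3 * s + 6 * t) / q := by
    rw [show 3 * (q * x + s) + 6 * (q * y + t) = q * (3 * x + 6 * y) + (3 * s + 6 * t) by ring, Nat.mul_add_div hq0]
  have t7 : (2 * (q * x + s) + 2 * (q * y + t)) / q = 2 * x + 2 * y + (2 * s + 2 * t) / q := by
    rw [show 2 * (q * x + s) + 2 * (q * y + t) = q * (2 * x + 2 * y) + (2 * s + 2 * t) by ring, Nat.mul_add_div hq0]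
  rw [t0, t1, t3, t4, t6, t7]
  have b0 : (2 * t + 1) / q < 2 := Nat.div_lt_of_lt_mul (by omega)
  have c0 : q * ((2 * t + 1) / q) ≤ 2 * t + 1 := Nat.mul_div_le _ _
  have b1 : (s + 2 * t) / q < 3 := Nat.div_lt_of_lt_mul (by omega)
  have c1 : q * ((s + 2 * t) / q) ≤ s + 2 * t := Nat.mul_div_le _ _
  have b2 : (2 * s + 4 * t) / q < 6 := Nat.div_lt_of_lt_mul (by omega)
  have c2 : q * ((2 * s + 4 * t) / q) ≤ 2 * s + 4 * t := Nat.mul_div_le _ _
  have b3 : (s + t) / q < 2 := Nat.div_lt_of_lt_mul (by omega)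
  have c3 : q * ((s + t) / q) ≤ s + t := Nat.mul_div_le _ _
  have b4 : (3 * s + 6 * t) / q < 9 := Nat.div_lt_of_lt_mul (by omega)
  have c4 : 3 * s + 6 * t < q * ((3 * s + 6 * t) / q) + q := Nat.lt_mul_div_succ _ hq0
  have b5 : (2 * s + 2 * t) / q < 4 := Nat.div_lt_of_lt_mul (by omega)
  have c5 : 2 * s + 2 * t < q * ((2 * s + 2 * t) / q) + q := Nat.lt_mul_div_succ _ hq0
  have key := lvlC_core q s t _ _ _ _ _ _ hq hs ht c0 c1 c2 c3 c4 c5 b0 b1 b2 b3 b4 b5
  clear c0 c1 c2 c3 c4 c5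
  omega

theorem lvlC_list (r k q : ℕ) (hq : 2 ≤ q) :
    (([2 * k + 1, r + 2 * k, r, 2 * r + 4 * k, r + k] : List ℕ).map (fun a => a / q)).sum
      ≤ (([k, 3 * r + 6 * k, 2 * r + 2 * k] : List ℕ).map (fun a => a / q)).sum := by
  have h := lvlC r k q hq
  simp only [List.map_cons, List.map_nil, List.sum_cons, List.sum_nil]
  omega

/-- the first quotient is an integer -/
theorem exists_RA (r k : ℕ) : ∃ ρ : ℕ,
    ((2 * k).factorial * (r + 2 * k + 1).factorial * r.factorial * (2 * r + 4 * k + 3).factorial *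
      (r + k).factorial) * ρ
      = k.factorial * (3 * r + 6 * k + 3).factorial * (2 * r + 2 * k).factorial := by
  have h := fac_dvd _ _ (fun q hq => lvlA_list r k q hq)
  simp only [List.map_cons, List.map_nil, List.prod_cons, List.prod_nil, mul_one] at h
  obtain ⟨ρ, hρ⟩ := h
  refine ⟨ρ, ?_⟩
  linear_combination hρ.symm

/-- the second quotient is an integer -/
theorem exists_RB (r k : ℕ) : ∃ ρ : ℕ,
    ((2 * k).factorial * (r + 2 * k).factorial * r.factorial * (2 * r + 4 * k + 1).factorial *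
      (r + k).factorial) * ρ
      = k.factorial * (3 * r + 6 * k).factorial * (2 * r + 2 * k).factorial := by
  have h := fac_dvd _ _ (fun q hq => lvlB_list r k q hq)
  simp only [List.map_cons, List.map_nil, List.prod_cons, List.prod_nil, mul_one] at h
  obtain ⟨ρ, hρ⟩ := h
  refine ⟨ρ, ?_⟩
  linear_combination hρ.symm

/-- the third quotient is an integer -/
theorem exists_RC (r k : ℕ) : ∃ ρ : ℕ,
    ((2 * k + 1).factorial * (r + 2 * k).factorial * r.factorial * (2 * r + 4 * k).factorial *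
      (r + k).factorial) * ρ
      = k.factorial * (3 * r + 6 * k).factorial * (2 * r + 2 * k).factorial := by
  have h := fac_dvd _ _ (fun q hq => lvlC_list r k q hq)
  simp only [List.map_cons, List.map_nil, List.prod_cons, List.prod_nil, mul_one] at h
  obtain ⟨ρ, hρ⟩ := h
  refine ⟨ρ, ?_⟩
  linear_combination hρ.symm

end Q277.Ram11k3
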