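import Mathlib
import Pool.Agent.Q277.GTools

/-!
Telescoping pair for the sums of `(154k+15) (6k)!/((3k)! k!^3) (-32768)^(n-1-k)`.
-/

namespace Q277.Ram154

open Finset Q277.FacTools Q277.GTools

/-- first member of the pair -/
def F (n k : ℕ) : ℚ :=
  64 ^ k * (308 * n ^ 2 + (184 - 264 * k) * n + (64 * k ^ 2 - 76 * k + 15)) *
    (g (n - 2 * k) * rf (n - k) * rf (2 * n - k + 1)) * ((6 * n).factorial : ℚ) /
    (((3 * n).factorial : ℚ) * (n.factorial : ℚ))

/-- second member of the pair -/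
def G (n k : ℕ) : ℚ :=
  -(64 ^ k / 4) * n * (g (n - 2 * k - 2) * rf (n - k - 1) * rf (2 * n - k - 1)) *
    ((6 * n).factorial : ℚ) / (((3 * n).factorial : ℚ) * (n.factorial : ℚ))

theorem pair (n k : ℕ) : G (n + 1) k - (-32768) * G n k = F n k - F n (k + 1) := by
  unfold F G
  push_cast
  rw [show (n : ℤ) + 1 - k - 1 = n - k by ring,
    show (n : ℤ) + 1 - 2 * k - 2 = n - 2 * k - 1 by ring,
    show 2 * ((n : ℤ) + 1) - k - 1 = 2 * n - k + 1 by ring,
    show (n : ℤ) - 2 * (k + 1) = n - 2 * k - 2 by ring,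
    show (n : ℤ) - (k + 1) = n - k - 1 by ring,
    show 2 * (n : ℤ) - (k + 1) + 1 = 2 * n - k by ring]
  have e1 : g ((n : ℤ) - 2 * k - 1) = 2 * (2 * (n - 2 * k - 2) + 1) * g ((n : ℤ) - 2 * k - 2) := by
    have h := g_succ ((n : ℤ) - 2 * k - 2)
    rw [show (n : ℤ) - 2 * k - 2 + 1 = n - 2 * k - 1 by ring] at h
    push_cast at h
    exact h
  have e2 : g ((n : ℤ) - 2 * k) = 2 * (2 * (n - 2 * k - 1) + 1) * g ((n : ℤ) - 2 * k - 1) := by
    have h := g_succ ((n : ℤ) - 2 * k - 1)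
    rw [show (n : ℤ) - 2 * k - 1 + 1 = n - 2 * k by ring] at h
    push_cast at h
    exact h
  have e3 : rf ((n : ℤ) - k - 1) = (n - k - 1 + 1) * rf ((n : ℤ) - k) := by
    have h := rf_pred ((n : ℤ) - k - 1)
    rw [show (n : ℤ) - k - 1 + 1 = n - k by ring] at h
    push_cast at h
    exact h
  have e5 : rf (2 * (n : ℤ) - k) = (2 * n - k + 1) * rf (2 * (n : ℤ) - k + 1) := by
    have h := rf_pred (2 * (n : ℤ) - k)
    push_cast at h
    exact h
  have e6 : rf (2 * (n : ℤ) - k - 1) = (2 * n - k - 1 + 1) * rf (2 * (n : ℤ) - k) := by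
    have h := rf_pred (2 * (n : ℤ) - k - 1)
    rw [show 2 * (n : ℤ) - k - 1 + 1 = 2 * n - k by ring] at h
    push_cast at h
    exact h
  rw [e2, e1, e3, e6, e5, show 6 * (n + 1) = 6 * n + 6 by ring,
    show 3 * (n + 1) = 3 * n + 3 by ring, f6 (6 * n), f3 (3 * n), f1 n, pow_succ]
  have a1 := fne n
  have a2 := fne (3 * n)
  have b1 : (n : ℚ) + 1 ≠ 0 := by positivity
  have b2 : 3 * (n : ℚ) + 1 ≠ 0 := by positivity
  have b3 : 3 * (n : ℚ) + 2 ≠ 0 := by positivity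
  have b4 : 3 * (n : ℚ) + 3 ≠ 0 := by positivity
  generalize g ((n : ℤ) - 2 * k - 2) = x
  generalize rf ((n : ℤ) - k) = z
  generalize rf (2 * (n : ℤ) - k + 1) = w
  generalize (n.factorial : ℚ) = u at *
  generalize ((3 * n).factorial : ℚ) = v at *
  generalize ((6 * n).factorial : ℚ) = t at *
  push_cast
  field_simp
  ring

theorem sum_G (n : ℕ) : ∑ k ∈ range n, G n k
    = ∑ j ∈ range n, (-32768) ^ (n - 1 - j) * F j 0 := by
  refine wz_sum' F G (-32768) (fun n => n) rfl pair (fun n => ?_) (fun n => by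
    show n ≤ n + 1; omega) (fun n k hk => ?_) n
  · unfold F
    push_cast
    rw [rf_neg ((n : ℤ) - (n + 1)) (by omega)]
    simp
  · have hk' : n ≤ k := hk
    unfold G
    rw [rf_neg ((n : ℤ) - k - 1) (by omega)]
    simp

theorem F_zero (j : ℕ) : F j 0
    = (154 * (j : ℚ) + 15) * (((6 * j).factorial : ℚ) /
      (((3 * j).factorial : ℚ) * (j.factorial : ℚ) ^ 3)) := by
  unfold F
  have h2 : rf (2 * (j : ℤ) + 1) = 1 / ((2 * j + 1).factorial : ℚ) := by
    rw [show 2 * (j : ℤ) + 1 = ((2 * j + 1 : ℕ) : ℤ) by push_cast; ring, rf_nat]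
  simp only [Nat.cast_zero, sub_zero, add_zero, pow_zero, mul_zero]
  rw [h2, g_nat, rf_nat, f1 (2 * j)]
  have a1 := fne j
  have a2 := fne (2 * j)
  have a3 := fne (3 * j)
  push_cast
  have b1 : 2 * (j : ℚ) + 1 ≠ 0 := by positivity
  field_simp
  ring

end Q277.Ram154
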