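import Mathlib
import Pool.Agent.Q277.FacTools
import Pool.Agent.Q266.FacDvd

/-!
Floor inequalities for the sums of `(154k+15) (6k)!/((3k)! k!^3) (-32768)^(n-1-k)`.
-/

namespace Q277.Ram154

private theorem lvlA_core (q s t d1 d2 d3 d4 e1 e2 e3 : ℕ) (hq : 2 ≤ q) (hs : s < q) (ht : t < q)
    (u0 : q * d1 ≤ 3 * s + 6 * t + 6)
    (u1 : q * d2 ≤ 2 * s + 4 * t + 5)
    (u2 : q * d3 ≤ s + t + 1)
    (u3 : q * d4 ≤ 2 * s + 3 * t + 3)
    (u4 : 6 * s + 12 * t + 12 < q * e1 + q)
    (u5 : 2 * s < q * e2 + q)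
    (u6 : s + 2 * t + 2 < q * e3 + q)
    (w0 : d1 < 9)
    (w1 : d2 < 6)
    (w2 : d3 < 2)
    (w3 : d4 < 5)
    (w4 : e1 < 18)
    (w5 : e2 < 2)
    (w6 : e3 < 3) :
    d1 + d2 + d3 + d4 ≤ e1 + e2 + e3 := by
  by_contra hcon
  push Not at hcon
  interval_cases d2 <;> first
    | omega
    | (interval_cases e1 <;> first
        | omega
        | (interval_cases d1 <;> first
            | omega
            | (interval_cases d4 <;> first
                | omega
                | (interval_cases d3 <;> first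
                    | omega
                    | (interval_cases e2 <;> first
                        | omega
                        | (interval_cases e3 <;> omega))))))

theorem lvlA (r k q : ℕ) (hq : 2 ≤ q) :
    (3 * r + 6 * k + 6) / q + (2 * r + 4 * k + 5) / q + (r + k + 1) / q + (2 * r + 3 * k + 3) / q + (r) / q
      ≤ (6 * r + 12 * k + 12) / q + (2 * r) / q + (r + 2 * k + 2) / q := by
  have hq0 : 0 < q := by omega
  have hs : r % q < q := Nat.mod_lt _ hq0
  have ht : k % q < q := Nat.mod_lt _ hq0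
  have en := Nat.div_add_mod r q
  have ek := Nat.div_add_mod k q
  generalize r % q = s at *
  generalize k % q = t at *
  generalize r / q = x at *
  generalize k / q = y at *
  subst en
  subst ek
  have t0 : (3 * (q * x + s) + 6 * (q * y + t) + 6) / q = 3 * x + 6 * y + (3 * s + 6 * t + 6) / q := by
    rw [show 3 * (q * x + s) + 6 * (q * y + t) + 6 = q * (3 * x + 6 * y) + (3 * s + 6 * t + 6) by ring, Nat.mul_add_div hq0]
  have t1 : (2 * (q * x + s) + 4 * (q * y + t) + 5) / q = 2 * x + 4 * y + (2 * s + 4 * t + 5) / q := by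
    rw [show 2 * (q * x + s) + 4 * (q * y + t) + 5 = q * (2 * x + 4 * y) + (2 * s + 4 * t + 5) by ring, Nat.mul_add_div hq0]
  have t2 : ((q * x + s) + (q * y + t) + 1) / q = x + y + (s + t + 1) / q := by
    rw [show (q * x + s) + (q * y + t) + 1 = q * (x + y) + (s + t + 1) by ring, Nat.mul_add_div hq0]
  have t3 : (2 * (q * x + s) + 3 * (q * y + t) + 3) / q = 2 * x + 3 * y + (2 * s + 3 * t + 3) / q := by
    rw [show 2 * (q * x + s) + 3 * (q * y + t) + 3 = q * (2 * x + 3 * y) + (2 * s + 3 * t + 3) by ring, Nat.mul_add_div hq0]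
  have t5 : (6 * (q * x + s) + 12 * (q * y + t) + 12) / q = 6 * x + 12 * y + (6 * s + 12 * t + 12) / q := by
    rw [show 6 * (q * x + s) + 12 * (q * y + t) + 12 = q * (6 * x + 12 * y) + (6 * s + 12 * t + 12) by ring, Nat.mul_add_div hq0]
  have t6 : (2 * (q * x + s)) / q = 2 * x + (2 * s) / q := by
    rw [show 2 * (q * x + s) = q * (2 * x) + (2 * s) by ring, Nat.mul_add_div hq0]
  have t7 : ((q * x + s) + 2 * (q * y + t) + 2) / q = x + 2 * y + (s + 2 * t + 2) / q := by
    rw [show (q * x + s) + 2 * (q * y + t) + 2 = q * (x + 2 * y) + (s + 2 * t + 2) by ring, Nat.mul_add_div hq0]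
  rw [t0, t1, t2, t3, t5, t6, t7]
  have b0 : (3 * s + 6 * t + 6) / q < 9 := Nat.div_lt_of_lt_mul (by omega)
  have c0 : q * ((3 * s + 6 * t + 6) / q) ≤ 3 * s + 6 * t + 6 := Nat.mul_div_le _ _
  have b1 : (2 * s + 4 * t + 5) / q < 6 := Nat.div_lt_of_lt_mul (by omega)
  have c1 : q * ((2 * s + 4 * t + 5) / q) ≤ 2 * s + 4 * t + 5 := Nat.mul_div_le _ _
  have b2 : (s + t + 1) / q < 2 := Nat.div_lt_of_lt_mul (by omega)
  have c2 : q * ((s + t + 1) / q) ≤ s + t + 1 := Nat.mul_div_le _ _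
  have b3 : (2 * s + 3 * t + 3) / q < 5 := Nat.div_lt_of_lt_mul (by omega)
  have c3 : q * ((2 * s + 3 * t + 3) / q) ≤ 2 * s + 3 * t + 3 := Nat.mul_div_le _ _
  have b4 : (6 * s + 12 * t + 12) / q < 18 := Nat.div_lt_of_lt_mul (by omega)
  have c4 : 6 * s + 12 * t + 12 < q * ((6 * s + 12 * t + 12) / q) + q := Nat.lt_mul_div_succ _ hq0
  have b5 : (2 * s) / q < 2 := Nat.div_lt_of_lt_mul (by omega)
  have c5 : 2 * s < q * ((2 * s) / q) + q := Nat.lt_mul_div_succ _ hq0
  have b6 : (s + 2 * t + 2) / q < 3 := Nat.div_lt_of_lt_mul (by omega)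
  have c6 : s + 2 * t + 2 < q * ((s + 2 * t + 2) / q) + q := Nat.lt_mul_div_succ _ hq0
  have key := lvlA_core q s t _ _ _ _ _ _ _ hq hs ht c0 c1 c2 c3 c4 c5 c6 b0 b1 b2 b3 b4 b5 b6
  clear c0 c1 c2 c3 c4 c5 c6
  omega

theorem lvlA_list (r k q : ℕ) (hq : 2 ≤ q) :
    (([3 * r + 6 * k + 6, 2 * r + 4 * k + 5, r + k + 1, 2 * r + 3 * k + 3, r] : List ℕ).map (fun a => a / q)).sum
      ≤ (([6 * r + 12 * k + 12, 2 * r, r + 2 * k + 2] : List ℕ).map (fun a => a / q)).sum := by
  have h := lvlA r k q hq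
  simp only [List.map_cons, List.map_nil, List.sum_cons, List.sum_nil]
  omega

private theorem lvlB_core (q s t d1 d2 d3 d4 e1 e2 e3 : ℕ) (hq : 2 ≤ q) (hs : s < q) (ht : t < q)
    (u0 : q * d1 ≤ 6 * s + 3 * t + 3)
    (u1 : q * d2 ≤ 4 * s + 2 * t + 3)
    (u2 : q * d3 ≤ 3 * s + t + 1)
    (u3 : q * d4 ≤ 2 * t + 2)
    (u4 : 12 * s + 6 * t + 6 < q * e1 + q)
    (u5 : 2 * s + t + 1 < q * e2 + q)
    (u6 : t + 1 < q * e3 + q)
    (w0 : d1 < 9)
    (w1 : d2 < 6)
    (w2 : d3 < 4)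
    (w3 : d4 < 3)
    (w4 : e1 < 18)
    (w5 : e2 < 3)
    (w6 : e3 < 2) :
    d1 + d2 + d3 + d4 ≤ e1 + e2 + e3 := by
  by_contra hcon
  push Not at hcon
  interval_cases d1 <;> first
    | omega
    | (interval_cases e1 <;> first
        | omega
        | (interval_cases d2 <;> first
            | omega
            | (interval_cases d3 <;> first
                | omega
                | (interval_cases e2 <;> first
                    | omega
                    | (interval_cases e3 <;> first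
                        | omega
                        | (interval_cases d4 <;> omega))))))

theorem lvlB (r k q : ℕ) (hq : 2 ≤ q) :
    (6 * r + 3 * k + 3) / q + (4 * r + 2 * k + 3) / q + (r) / q + (3 * r + k + 1) / q + (2 * k + 2) / q
      ≤ (12 * r + 6 * k + 6) / q + (2 * r + k + 1) / q + (k + 1) / q := by
  have hq0 : 0 < q := by omega
  have hs : r % q < q := Nat.mod_lt _ hq0
  have ht : k % q < q := Nat.mod_lt _ hq0
  have en := Nat.div_add_mod r q
  have ek := Nat.div_add_mod k q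
  generalize r % q = s at *
  generalize k % q = t at *
  generalize r / q = x at *
  generalize k / q = y at *
  subst en
  subst ek
  have t0 : (6 * (q * x + s) + 3 * (q * y + t) + 3) / q = 6 * x + 3 * y + (6 * s + 3 * t + 3) / q := by
    rw [show 6 * (q * x + s) + 3 * (q * y + t) + 3 = q * (6 * x + 3 * y) + (6 * s + 3 * t + 3) by ring, Nat.mul_add_div hq0]
  have t1 : (4 * (q * x + s) + 2 * (q * y + t) + 3) / q = 4 * x + 2 * y + (4 * s + 2 * t + 3) / q := by
    rw [show 4 * (q * x + s) + 2 * (q * y + t) + 3 = q * (4 * x + 2 * y) + (4 * s + 2 * t + 3) by ring, Nat.mul_add_div hq0]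
  have t3 : (3 * (q * x + s) + (q * y + t) + 1) / q = 3 * x + y + (3 * s + t + 1) / q := by
    rw [show 3 * (q * x + s) + (q * y + t) + 1 = q * (3 * x + y) + (3 * s + t + 1) by ring, Nat.mul_add_div hq0]
  have t4 : (2 * (q * y + t) + 2) / q = 2 * y + (2 * t + 2) / q := by
    rw [show 2 * (q * y + t) + 2 = q * (2 * y) + (2 * t + 2) by ring, Nat.mul_add_div hq0]
  have t5 : (12 * (q * x + s) + 6 * (q * y + t) + 6) / q = 12 * x + 6 * y + (12 * s + 6 * t + 6) / q := by
    rw [show 12 * (q * x + s) + 6 * (q * y + t) + 6 = q * (12 * x + 6 * y) + (12 * s + 6 * t + 6) by ring, Nat.mul_add_div hq0]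
  have t6 : (2 * (q * x + s) + (q * y + t) + 1) / q = 2 * x + y + (2 * s + t + 1) / q := by
    rw [show 2 * (q * x + s) + (q * y + t) + 1 = q * (2 * x + y) + (2 * s + t + 1) by ring, Nat.mul_add_div hq0]
  have t7 : ((q * y + t) + 1) / q = y + (t + 1) / q := by
    rw [show (q * y + t) + 1 = q * (y) + (t + 1) by ring, Nat.mul_add_div hq0]
  rw [t0, t1, t3, t4, t5, t6, t7]
  have b0 : (6 * s + 3 * t + 3) / q < 9 := Nat.div_lt_of_lt_mul (by omega)
  have c0 : q * ((6 * s + 3 * t + 3) / q) ≤ 6 * s + 3 * t + 3 := Nat.mul_div_le _ _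
  have b1 : (4 * s + 2 * t + 3) / q < 6 := Nat.div_lt_of_lt_mul (by omega)
  have c1 : q * ((4 * s + 2 * t + 3) / q) ≤ 4 * s + 2 * t + 3 := Nat.mul_div_le _ _
  have b2 : (3 * s + t + 1) / q < 4 := Nat.div_lt_of_lt_mul (by omega)
  have c2 : q * ((3 * s + t + 1) / q) ≤ 3 * s + t + 1 := Nat.mul_div_le _ _
  have b3 : (2 * t + 2) / q < 3 := Nat.div_lt_of_lt_mul (by omega)
  have c3 : q * ((2 * t + 2) / q) ≤ 2 * t + 2 := Nat.mul_div_le _ _
  have b4 : (12 * s + 6 * t + 6) / q < 18 := Nat.div_lt_of_lt_mul (by omega)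
  have c4 : 12 * s + 6 * t + 6 < q * ((12 * s + 6 * t + 6) / q) + q := Nat.lt_mul_div_succ _ hq0
  have b5 : (2 * s + t + 1) / q < 3 := Nat.div_lt_of_lt_mul (by omega)
  have c5 : 2 * s + t + 1 < q * ((2 * s + t + 1) / q) + q := Nat.lt_mul_div_succ _ hq0
  have b6 : (t + 1) / q < 2 := Nat.div_lt_of_lt_mul (by omega)
  have c6 : t + 1 < q * ((t + 1) / q) + q := Nat.lt_mul_div_succ _ hq0
  have key := lvlB_core q s t _ _ _ _ _ _ _ hq hs ht c0 c1 c2 c3 c4 c5 c6 b0 b1 b2 b3 b4 b5 b6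
  clear c0 c1 c2 c3 c4 c5 c6
  omega

theorem lvlB_list (r k q : ℕ) (hq : 2 ≤ q) :
    (([6 * r + 3 * k + 3, 4 * r + 2 * k + 3, r, 3 * r + k + 1, 2 * k + 2] : List ℕ).map (fun a => a / q)).sum
      ≤ (([12 * r + 6 * k + 6, 2 * r + k + 1, k + 1] : List ℕ).map (fun a => a / q)).sum := by
  have h := lvlB r k q hq
  simp only [List.map_cons, List.map_nil, List.sum_cons, List.sum_nil]
  omega

private theorem lvlE_core (q s t d1 d2 e1 : ℕ) (hq : 2 ≤ q) (hs : s < q) (ht : t < q)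
    (u0 : q * d1 ≤ 3 * s)
    (u1 : q * d2 ≤ 2 * s + 1)
    (u2 : 6 * s < q * e1 + q)
    (w0 : d1 < 3)
    (w1 : d2 < 2)
    (w2 : e1 < 6) :
    d1 + d2 ≤ e1 := by
  by_contra hcon
  push Not at hcon
  interval_cases e1 <;> first
    | omega
    | (interval_cases d1 <;> first
        | omega
        | (interval_cases d2 <;> omega))

theorem lvlE (r k q : ℕ) (hq : 2 ≤ q) :
    (3 * r) / q + (r) / q + (2 * r + 1) / q
      ≤ (6 * r) / q := by
  have hq0 : 0 < q := by omega
  have hs : r % q < q := Nat.mod_lt _ hq0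
  have ht : k % q < q := Nat.mod_lt _ hq0
  have en := Nat.div_add_mod r q
  have ek := Nat.div_add_mod k q
  generalize r % q = s at *
  generalize k % q = t at *
  generalize r / q = x at *
  generalize k / q = y at *
  subst en
  subst ek
  have t0 : (3 * (q * x + s)) / q = 3 * x + (3 * s) / q := by
    rw [show 3 * (q * x + s) = q * (3 * x) + (3 * s) by ring, Nat.mul_add_div hq0]
  have t2 : (2 * (q * x + s) + 1) / q = 2 * x + (2 * s + 1) / q := by
    rw [show 2 * (q * x + s) + 1 = q * (2 * x) + (2 * s + 1) by ring, Nat.mul_add_div hq0]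
  have t3 : (6 * (q * x + s)) / q = 6 * x + (6 * s) / q := by
    rw [show 6 * (q * x + s) = q * (6 * x) + (6 * s) by ring, Nat.mul_add_div hq0]
  rw [t0, t2, t3]
  have b0 : (3 * s) / q < 3 := Nat.div_lt_of_lt_mul (by omega)
  have c0 : q * ((3 * s) / q) ≤ 3 * s := Nat.mul_div_le _ _
  have b1 : (2 * s + 1) / q < 2 := Nat.div_lt_of_lt_mul (by omega)
  have c1 : q * ((2 * s + 1) / q) ≤ 2 * s + 1 := Nat.mul_div_le _ _
  have b2 : (6 * s) / q < 6 := Nat.div_lt_of_lt_mul (by omega)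
  have c2 : 6 * s < q * ((6 * s) / q) + q := Nat.lt_mul_div_succ _ hq0
  have key := lvlE_core q s t _ _ _ hq hs ht c0 c1 c2 b0 b1 b2
  clear c0 c1 c2
  omega

theorem lvlE_list (r k q : ℕ) (hq : 2 ≤ q) :
    (([3 * r, r, 2 * r + 1] : List ℕ).map (fun a => a / q)).sum
      ≤ (([6 * r] : List ℕ).map (fun a => a / q)).sum := by
  have h := lvlE r k q hq
  simp only [List.map_cons, List.map_nil, List.sum_cons, List.sum_nil]
  omega


end Q277.Ram154
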