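import Mathlib
import Pool.Agent.Q277.Ram154
import Pool.Agent.Q277.Ram154Floor

/-!
The integers `V(n,k)` in the sums of `(154k+15) (6k)!/((3k)! k!^3) (-32768)^(n-1-k)` and their
residues modulo five.
-/

namespace Q277.Ram154

open Finset Q277.FacTools Q277.GTools Q266.FacVal Q266.FacDvd

/-- the terms, up to a power of two -/
def V (n k : ℕ) : ℚ :=
  (g (n - 2 * k - 2) * rf (n - k - 1) * rf (2 * n - k - 1)) *
    (((6 * n).factorial : ℚ) * (n.factorial : ℚ)) /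
    (((3 * n).factorial : ℚ) * ((2 * n + 1).factorial : ℚ))

theorem V_int (n k : ℕ) (hk : k < n) : ∃ z : ℤ, V n k = z := by
  rcases Nat.lt_or_ge n (2 * k + 2) with h | h
  · obtain ⟨s, hs⟩ : ∃ s, n = s + k + 1 := ⟨n - k - 1, by omega⟩
    obtain ⟨t, ht⟩ : ∃ t, k = s + t := ⟨k - s, by omega⟩
    have hn : n = 2 * s + t + 1 := by omega
    have hd := fac_dvd _ _ (fun q hq => lvlB_list s t q hq)
    simp only [List.map_cons, List.map_nil, List.prod_cons, List.prod_nil, mul_one] at hd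
    obtain ⟨c, hc⟩ := hd
    have hc' : ((12 * s + 6 * t + 6).factorial : ℚ) * (((2 * s + t + 1).factorial : ℚ) *
        ((t + 1).factorial : ℚ)) = ((6 * s + 3 * t + 3).factorial : ℚ) *
        (((4 * s + 2 * t + 3).factorial : ℚ) * ((s.factorial : ℚ) *
        (((3 * s + t + 1).factorial : ℚ) * ((2 * t + 2).factorial : ℚ)))) * c := by exact_mod_cast hc
    refine ⟨(-1) ^ (t + 1) * c, ?_⟩
    unfold V
    rw [show (n : ℤ) - 2 * k - 2 = -((t + 1 : ℕ) : ℤ) by omega,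
      show (n : ℤ) - k - 1 = (s : ℤ) by omega,
      show 2 * (n : ℤ) - k - 1 = ((3 * s + t + 1 : ℕ) : ℤ) by omega, g_neg, rf_nat, rf_nat,
      show 6 * n = 12 * s + 6 * t + 6 by omega, show 3 * n = 6 * s + 3 * t + 3 by omega,
      show 2 * n + 1 = 4 * s + 2 * t + 3 by omega, show 2 * (t + 1) = 2 * t + 2 by ring, hn]
    have a1 := fne (6 * s + 3 * t + 3)
    have a2 := fne (4 * s + 2 * t + 3)
    have a3 := fne s
    have a4 := fne (3 * s + t + 1)
    have a5 := fne (2 * t + 2)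
    push_cast
    field_simp
    linear_combination hc'
  · obtain ⟨r, hr⟩ : ∃ r, n = r + 2 * k + 2 := ⟨n - 2 * k - 2, by omega⟩
    have hd := fac_dvd _ _ (fun q hq => lvlA_list r k q hq)
    simp only [List.map_cons, List.map_nil, List.prod_cons, List.prod_nil, mul_one] at hd
    obtain ⟨c, hc⟩ := hd
    have hc' : ((6 * r + 12 * k + 12).factorial : ℚ) * (((2 * r).factorial : ℚ) *
        ((r + 2 * k + 2).factorial : ℚ)) = ((3 * r + 6 * k + 6).factorial : ℚ) *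
        (((2 * r + 4 * k + 5).factorial : ℚ) * (((r + k + 1).factorial : ℚ) *
        (((2 * r + 3 * k + 3).factorial : ℚ) * (r.factorial : ℚ)))) * c := by exact_mod_cast hc
    refine ⟨c, ?_⟩
    unfold V
    rw [show (n : ℤ) - 2 * k - 2 = (r : ℤ) by omega,
      show (n : ℤ) - k - 1 = ((r + k + 1 : ℕ) : ℤ) by omega,
      show 2 * (n : ℤ) - k - 1 = ((2 * r + 3 * k + 3 : ℕ) : ℤ) by omega, g_nat, rf_nat, rf_nat,
      show 6 * n = 6 * r + 12 * k + 12 by omega, show 3 * n = 3 * r + 6 * k + 6 by omega,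
      show 2 * n + 1 = 2 * r + 4 * k + 5 by omega, hr]
    have a1 := fne (3 * r + 6 * k + 6)
    have a2 := fne (2 * r + 4 * k + 5)
    have a3 := fne (r + k + 1)
    have a4 := fne (2 * r + 3 * k + 3)
    have a5 := fne r
    push_cast
    field_simp
    linear_combination hc'

theorem V_step (n k : ℕ) : V n k * ((n - k - 1) * (2 * n - k - 1))
    = 4 * (2 * n - 4 * k - 5) * (2 * n - 4 * k - 7) * V n (k + 1) := by
  unfold V
  have e1 : g ((n : ℤ) - 2 * k - 3) = 2 * (2 * (n - 2 * k - 4) + 1) * g ((n : ℤ) - 2 * k - 4) := by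
    have h := g_succ ((n : ℤ) - 2 * k - 4)
    rw [show (n : ℤ) - 2 * k - 4 + 1 = n - 2 * k - 3 by ring] at h
    push_cast at h
    exact h
  have e2 : g ((n : ℤ) - 2 * k - 2) = 2 * (2 * (n - 2 * k - 3) + 1) * g ((n : ℤ) - 2 * k - 3) := by
    have h := g_succ ((n : ℤ) - 2 * k - 3)
    rw [show (n : ℤ) - 2 * k - 3 + 1 = n - 2 * k - 2 by ring] at h
    push_cast at h
    exact h
  have e3 : rf ((n : ℤ) - k - 2) = (n - k - 2 + 1) * rf ((n : ℤ) - k - 1) := by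
    have h := rf_pred ((n : ℤ) - k - 2)
    rw [show (n : ℤ) - k - 2 + 1 = n - k - 1 by ring] at h
    push_cast at h
    exact h
  have e5 : rf (2 * (n : ℤ) - k - 2) = (2 * n - k - 2 + 1) * rf (2 * (n : ℤ) - k - 1) := by
    have h := rf_pred (2 * (n : ℤ) - k - 2)
    rw [show 2 * (n : ℤ) - k - 2 + 1 = 2 * n - k - 1 by ring] at h
    push_cast at h
    exact h
  push_cast
  rw [show (n : ℤ) - 2 * (k + 1) - 2 = n - 2 * k - 4 by ring,
    show (n : ℤ) - (k + 1) - 1 = n - k - 2 by ring,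
    show 2 * (n : ℤ) - (k + 1) - 1 = 2 * n - k - 2 by ring, e2, e1, e3, e5]
  ring

/-- `(5a)! = 5^a a! P(a)` -/
def P : ℕ → ℕ
  | 0 => 1
  | a + 1 => (5 * a + 1) * (5 * a + 2) * (5 * a + 3) * (5 * a + 4) * P a

theorem P_pos (a : ℕ) : P a ≠ 0 := by
  induction a with
  | zero => simp [P]
  | succ a ih => simp only [P]; positivity

theorem fac5 (a : ℕ) : ((5 * a).factorial : ℚ) = 5 ^ a * (a.factorial : ℚ) * P a := by
  induction a with
  | zero => simp [P]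
  | succ a ih =>
    rw [show 5 * (a + 1) = 5 * a + 5 by ring, f5, ih, f1 a, pow_succ]
    simp only [P]
    push_cast
    ring

theorem P_mod (a : ℕ) : ((P a : ℕ) : ZMod 5) = (-1) ^ a := by
  induction a with
  | zero => simp [P]
  | succ a ih =>
    simp only [P]
    push_cast
    rw [ih, pow_succ]
    have h5 : (5 : ZMod 5) = 0 := by decide
    rw [h5]
    ring_nf
    rw [show (24 : ZMod 5) = -1 by decide]
    ring

theorem neg_one_five : (-1 : ZMod 5) ≠ 0 := by decide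

theorem ten_five : (10 : ZMod 5) = 0 := by decide

theorem V_five (m j : ℕ) (hj : j < m) (z w : ℤ) (hz : V (5 * m) (5 * j + 4) = z) (hw : V m j = w) :
    (z : ZMod 5) = (2 * m + 1) * w := by
  have : Fact (Nat.Prime 5) := ⟨by norm_num⟩
  have hu : ∀ a : ℕ, ((-1 : ZMod 5)) ^ a ≠ 0 := fun a => pow_ne_zero _ neg_one_five
  rcases Nat.lt_or_ge m (2 * j + 2) with h | h
  · obtain ⟨s, hs⟩ : ∃ s, m = s + j + 1 := ⟨m - j - 1, by omega⟩
    obtain ⟨t, ht⟩ : ∃ t, j = s + t := ⟨j - s, by omega⟩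
    have hm : m = 2 * s + t + 1 := by omega
    have key : (z : ℚ) * ((10 * m + 1) * (P (3 * m) * P (2 * m) * P s * P (3 * s + t + 1) *
        P (2 * t + 2))) = (2 * m + 1) * w * (P (6 * m) * P m * P (t + 1)) := by
      rw [← hz, ← hw]
      unfold V
      rw [show ((5 * m : ℕ) : ℤ) - 2 * ((5 * j + 4 : ℕ) : ℤ) - 2 = -((5 * (t + 1) : ℕ) : ℤ) by
          push_cast; omega,
        show ((5 * m : ℕ) : ℤ) - ((5 * j + 4 : ℕ) : ℤ) - 1 = ((5 * s : ℕ) : ℤ) by push_cast; omega,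
        show 2 * ((5 * m : ℕ) : ℤ) - ((5 * j + 4 : ℕ) : ℤ) - 1 = ((5 * (3 * s + t + 1) : ℕ) : ℤ) by
          push_cast; omega,
        show (m : ℤ) - 2 * j - 2 = -((t + 1 : ℕ) : ℤ) by omega,
        show (m : ℤ) - j - 1 = (s : ℤ) by omega,
        show 2 * (m : ℤ) - j - 1 = ((3 * s + t + 1 : ℕ) : ℤ) by omega, g_neg, g_neg, rf_nat, rf_nat,
        rf_nat, rf_nat, show 6 * (5 * m) = 5 * (6 * m) by ring,
        show 3 * (5 * m) = 5 * (3 * m) by ring, show 2 * (5 * m) = 5 * (2 * m) by ring,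
        show 2 * (5 * (t + 1)) = 5 * (2 * (t + 1)) by ring, f1 (5 * (2 * m)), f1 (2 * m),
        fac5, fac5, fac5, fac5, fac5, fac5, fac5, fac5, show 2 * t + 2 = 2 * (t + 1) by ring,
        show (-1 : ℚ) ^ (5 * (t + 1)) = (-1) ^ (t + 1) by rw [pow_mul]; norm_num,
        show (5 : ℚ) ^ (6 * m) = (5 ^ m) ^ 6 by ring, show (5 : ℚ) ^ (3 * m) = (5 ^ m) ^ 3 by ring,
        show (5 : ℚ) ^ (2 * m) = (5 ^ m) ^ 2 by ring,
        show (5 : ℚ) ^ (2 * (t + 1)) = (5 ^ t) ^ 2 * 25 by ring,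
        show (5 : ℚ) ^ (t + 1) = 5 ^ t * 5 by ring,
        show (5 : ℚ) ^ (3 * s + t + 1) = (5 ^ s) ^ 3 * 5 ^ t * 5 by ring,
        show (5 : ℚ) ^ m = (5 ^ s) ^ 2 * 5 ^ t * 5 by rw [hm]; ring]
      have c1 : (5 : ℚ) ^ s ≠ 0 := by positivity
      have c2 : (5 : ℚ) ^ t ≠ 0 := by positivity
      have c3 : ((-1 : ℚ)) ^ (t + 1) ≠ 0 := pow_ne_zero _ (by norm_num)
      have p1 : ((P (2 * (t + 1)) : ℕ) : ℚ) ≠ 0 := by exact_mod_cast P_pos _
      have p2 : ((P s : ℕ) : ℚ) ≠ 0 := by exact_mod_cast P_pos _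
      have p3 : ((P (3 * s + t + 1) : ℕ) : ℚ) ≠ 0 := by exact_mod_cast P_pos _
      have p4 : ((P (3 * m) : ℕ) : ℚ) ≠ 0 := by exact_mod_cast P_pos _
      have p5 : ((P (2 * m) : ℕ) : ℚ) ≠ 0 := by exact_mod_cast P_pos _
      have a1 := fne (2 * (t + 1))
      have a2 := fne s
      have a3 := fne (3 * s + t + 1)
      have a4 := fne (3 * m)
      have a5 := fne (2 * m)
      have b1 : 2 * (m : ℚ) + 1 ≠ 0 := by positivity
      have b2 : 10 * (m : ℚ) + 1 ≠ 0 := by positivity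
      push_cast
      rw [show 5 * (2 * (m : ℚ)) + 1 = 10 * m + 1 by ring]
      generalize (5 : ℚ) ^ s = q1 at *
      generalize (5 : ℚ) ^ t = q2 at *
      field_simp
      ring
    have key2 : z * ((10 * m + 1) * (P (3 * m) * P (2 * m) * P s * P (3 * s + t + 1) *
        P (2 * t + 2))) = (2 * m + 1) * w * (P (6 * m) * P m * P (t + 1)) := by exact_mod_cast key
    have key3 := congrArg (fun x : ℤ => (x : ZMod 5)) key2
    push_cast at key3
    simp only [P_mod] at key3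
    rw [ten_five] at key3
    refine mul_right_cancel₀ (hu (14 * s + 8 * t + 8)) ?_
    have h1 : ((-1 : ZMod 5)) ^ (14 * s + 8 * t + 8)
        = (-1) ^ (3 * m) * (-1) ^ (2 * m) * (-1) ^ s * (-1) ^ (3 * s + t + 1) *
        (-1) ^ (2 * t + 2) := by
      rw [← pow_add, ← pow_add, ← pow_add, ← pow_add, hm]; congr 1; ring
    have h2 : ((-1 : ZMod 5)) ^ (14 * s + 8 * t + 8)
        = (-1) ^ (6 * m) * (-1) ^ m * (-1) ^ (t + 1) := by
      rw [← pow_add, ← pow_add, hm]; congr 1; ring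
    calc (z : ZMod 5) * (-1) ^ (14 * s + 8 * t + 8)
        = (z : ZMod 5) * ((0 * m + 1) * ((-1) ^ (3 * m) * (-1) ^ (2 * m) * (-1) ^ s *
          (-1) ^ (3 * s + t + 1) * (-1) ^ (2 * t + 2))) := by rw [h1]; ring
      _ = (2 * m + 1) * w * (-1) ^ (14 * s + 8 * t + 8) := by rw [key3, h2]
  · obtain ⟨t, ht⟩ : ∃ t, m = 2 * j + 2 + t := ⟨m - 2 * j - 2, by omega⟩
    have key : (z : ℚ) * ((10 * m + 1) * (P (3 * m) * P (2 * m) * P (j + t + 1) *
        P (3 * j + 2 * t + 3) * P t)) = (2 * m + 1) * w * (P (6 * m) * P m * P (2 * t)) := by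
      rw [← hz, ← hw]
      unfold V
      rw [show ((5 * m : ℕ) : ℤ) - 2 * ((5 * j + 4 : ℕ) : ℤ) - 2 = ((5 * t : ℕ) : ℤ) by
          push_cast; omega,
        show ((5 * m : ℕ) : ℤ) - ((5 * j + 4 : ℕ) : ℤ) - 1 = ((5 * (j + t + 1) : ℕ) : ℤ) by
          push_cast; omega,
        show 2 * ((5 * m : ℕ) : ℤ) - ((5 * j + 4 : ℕ) : ℤ) - 1
          = ((5 * (3 * j + 2 * t + 3) : ℕ) : ℤ) by push_cast; omega,
        show (m : ℤ) - 2 * j - 2 = (t : ℤ) by omega,
        show (m : ℤ) - j - 1 = ((j + t + 1 : ℕ) : ℤ) by omega,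
        show 2 * (m : ℤ) - j - 1 = ((3 * j + 2 * t + 3 : ℕ) : ℤ) by omega, g_nat, g_nat, rf_nat,
        rf_nat, rf_nat, rf_nat, show 6 * (5 * m) = 5 * (6 * m) by ring,
        show 3 * (5 * m) = 5 * (3 * m) by ring, show 2 * (5 * m) = 5 * (2 * m) by ring,
        show 2 * (5 * t) = 5 * (2 * t) by ring, f1 (5 * (2 * m)), f1 (2 * m),
        fac5, fac5, fac5, fac5, fac5, fac5, fac5, fac5,
        show (5 : ℚ) ^ (6 * m) = (5 ^ m) ^ 6 by ring, show (5 : ℚ) ^ (3 * m) = (5 ^ m) ^ 3 by ring,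
        show (5 : ℚ) ^ (2 * m) = (5 ^ m) ^ 2 by ring,
        show (5 : ℚ) ^ (2 * t) = (5 ^ t) ^ 2 by ring,
        show (5 : ℚ) ^ (j + t + 1) = 5 ^ j * 5 ^ t * 5 by ring,
        show (5 : ℚ) ^ (3 * j + 2 * t + 3) = (5 ^ j) ^ 3 * (5 ^ t) ^ 2 * 125 by ring,
        show (5 : ℚ) ^ m = (5 ^ j) ^ 2 * 5 ^ t * 25 by rw [ht]; ring]
      have c1 : (5 : ℚ) ^ j ≠ 0 := by positivity
      have c2 : (5 : ℚ) ^ t ≠ 0 := by positivity
      have p1 : ((P t : ℕ) : ℚ) ≠ 0 := by exact_mod_cast P_pos _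
      have p2 : ((P (j + t + 1) : ℕ) : ℚ) ≠ 0 := by exact_mod_cast P_pos _
      have p3 : ((P (3 * j + 2 * t + 3) : ℕ) : ℚ) ≠ 0 := by exact_mod_cast P_pos _
      have p4 : ((P (3 * m) : ℕ) : ℚ) ≠ 0 := by exact_mod_cast P_pos _
      have p5 : ((P (2 * m) : ℕ) : ℚ) ≠ 0 := by exact_mod_cast P_pos _
      have a1 := fne t
      have a2 := fne (j + t + 1)
      have a3 := fne (3 * j + 2 * t + 3)
      have a4 := fne (3 * m)
      have a5 := fne (2 * m)
      have b1 : 2 * (m : ℚ) + 1 ≠ 0 := by positivity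
      have b2 : 10 * (m : ℚ) + 1 ≠ 0 := by positivity
      push_cast
      rw [show 5 * (2 * (m : ℚ)) + 1 = 10 * m + 1 by ring]
      generalize (5 : ℚ) ^ j = q1 at *
      generalize (5 : ℚ) ^ t = q2 at *
      field_simp
      ring
    have key2 : z * ((10 * m + 1) * (P (3 * m) * P (2 * m) * P (j + t + 1) *
        P (3 * j + 2 * t + 3) * P t)) = (2 * m + 1) * w * (P (6 * m) * P m * P (2 * t)) := by
      exact_mod_cast key
    have key3 := congrArg (fun x : ℤ => (x : ZMod 5)) key2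
    push_cast at key3
    simp only [P_mod] at key3
    rw [ten_five] at key3
    refine mul_right_cancel₀ (hu (14 * j + 9 * t + 14)) ?_
    have h1 : ((-1 : ZMod 5)) ^ (14 * j + 9 * t + 14)
        = (-1) ^ (3 * m) * (-1) ^ (2 * m) * (-1) ^ (j + t + 1) * (-1) ^ (3 * j + 2 * t + 3) *
        (-1) ^ t := by
      rw [← pow_add, ← pow_add, ← pow_add, ← pow_add, ht]; congr 1; ring
    have h2 : ((-1 : ZMod 5)) ^ (14 * j + 9 * t + 14)
        = (-1) ^ (6 * m) * (-1) ^ m * (-1) ^ (2 * t) := by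
      rw [← pow_add, ← pow_add, ht]; congr 1; ring
    calc (z : ZMod 5) * (-1) ^ (14 * j + 9 * t + 14)
        = (z : ZMod 5) * ((0 * m + 1) * ((-1) ^ (3 * m) * (-1) ^ (2 * m) * (-1) ^ (j + t + 1) *
          (-1) ^ (3 * j + 2 * t + 3) * (-1) ^ t)) := by rw [h1]; ring
      _ = (2 * m + 1) * w * (-1) ^ (14 * j + 9 * t + 14) := by rw [key3, h2]

end Q277.Ram154
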