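import Mathlib
import Pool.Agent.Q277.FacTools
import Pool.Agent.Q266.PInt

/-!
The exponent of two in normalised sums `∑ c^(m-k) C(2k,k) w_k / C(2m,m)`, and binomials as quotients
of factorials.
-/

namespace Q277.RamTwo

open Finset Q277.FacTools Q266.PInt

theorem choose_two (n : ℕ) : ((2 * n).choose n : ℚ)
    = ((2 * n).factorial : ℚ) / (n.factorial : ℚ) ^ 2 := by
  have h := Nat.choose_mul_factorial_mul_factorial (n := 2 * n) (k := n) (by omega)
  rw [show 2 * n - n = n by omega] at h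
  have h' : ((2 * n).choose n : ℚ) * n.factorial * n.factorial = (2 * n).factorial := by
    exact_mod_cast h
  rw [eq_div_iff (pow_ne_zero 2 (fne n)), ← h']
  ring

theorem choose_three (n : ℕ) : ((3 * n).choose n : ℚ)
    = ((3 * n).factorial : ℚ) / ((n.factorial : ℚ) * ((2 * n).factorial : ℚ)) := by
  have h := Nat.choose_mul_factorial_mul_factorial (n := 3 * n) (k := n) (by omega)
  rw [show 3 * n - n = 2 * n by omega] at h
  have h' : ((3 * n).choose n : ℚ) * n.factorial * (2 * n).factorial = (3 * n).factorial := by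
    exact_mod_cast h
  rw [eq_div_iff (mul_ne_zero (fne n) (fne _)), ← h']
  ring

theorem cne (n : ℕ) : ((2 * n).choose n : ℚ) ≠ 0 := by
  have : 0 < (2 * n).choose n := Nat.choose_pos (by omega)
  positivity

/-- the step between two central binomial coefficients -/
theorem cstep (n : ℕ) : ((n : ℚ) + 1) * ((2 * (n + 1)).choose (n + 1) : ℚ)
    = 2 * (2 * n + 1) * ((2 * n).choose n : ℚ) := by
  rw [choose_two, choose_two, show 2 * (n + 1) = 2 * n + 2 by ring, f2, f1 n]
  have a1 := fne n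
  have a2 := fne (2 * n)
  push_cast
  have b1 : (n : ℚ) + 1 ≠ 0 := by positivity
  field_simp

theorem odd_inv (a : ℕ) : PI 2 (1 / (2 * (a : ℚ) + 1)) := by
  have h := PI.inv (p := 2) (b := 2 * a + 1) (by omega)
  push_cast at h
  exact h

theorem ratio (k j : ℕ) :
    PI 2 (2 ^ j * ((2 * k).choose k : ℚ) / ((2 * (k + j)).choose (k + j) : ℚ)) := by
  have hp := Nat.prime_two
  induction j with
  | zero =>
    rw [pow_zero, one_mul, add_zero, div_self (cne k)]
    simpa using PI.int hp 1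
  | succ j ih =>
    have h1 : 2 ^ (j + 1) * ((2 * k).choose k : ℚ) / ((2 * (k + (j + 1))).choose (k + (j + 1)) : ℚ)
        = (2 ^ j * ((2 * k).choose k : ℚ) / ((2 * (k + j)).choose (k + j) : ℚ)) *
          ((((k + j + 1 : ℕ) : ℤ) : ℚ) * (1 / (2 * ((k + j : ℕ) : ℚ) + 1))) := by
      have h2 := cstep (k + j)
      rw [← add_assoc]
      have c1 := cne (k + j)
      have c2 := cne (k + j + 1)
      have c3 : 2 * ((k + j : ℕ) : ℚ) + 1 ≠ 0 := by positivity
      generalize ((2 * (k + j)).choose (k + j) : ℚ) = x at *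
      generalize ((2 * (k + j + 1)).choose (k + j + 1) : ℚ) = y at *
      generalize ((2 * k).choose k : ℚ) = z at *
      push_cast at *
      field_simp
      rw [pow_succ]
      linear_combination (-1) * (2 ^ j) * z * h2
    rw [h1]
    exact ih.mul hp ((PI.int hp _).mul hp (odd_inv _))

/-- the sum over `k ≤ m` is `2`-integral after division by `E C(2m,m)` -/
theorem sum_PI (E : ℕ) (hE : E ≠ 0) (d : ℤ) (w : ℕ → ℕ) (m : ℕ) (hw : E ∣ w m) :
    PI 2 ((∑ k ∈ range (m + 1), ((2 * E * d : ℤ) : ℚ) ^ (m - k) * (((2 * k).choose k : ℚ) * w k)) /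
      (E * ((2 * m).choose m : ℚ))) := by
  have hp := Nat.prime_two
  rw [sum_div]
  refine PI.sum hp _ _ fun k hk => ?_
  have hk' : k ≤ m := by have := mem_range.1 hk; omega
  have hE' : (E : ℚ) ≠ 0 := by exact_mod_cast hE
  rcases Nat.lt_or_ge k m with h | h
  · obtain ⟨j, rfl⟩ : ∃ j, m = k + (j + 1) := ⟨m - k - 1, by omega⟩
    rw [show k + (j + 1) - k = j + 1 by omega]
    have e : ((2 * E * d : ℤ) : ℚ) ^ (j + 1) * (((2 * k).choose k : ℚ) * w k) /
        (E * ((2 * (k + (j + 1))).choose (k + (j + 1)) : ℚ))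
        = (2 ^ (j + 1) * ((2 * k).choose k : ℚ) / ((2 * (k + (j + 1))).choose (k + (j + 1)) : ℚ)) *
          (((d * (E * d) ^ j * w k : ℤ)) : ℚ) := by
      have c2 := cne (k + (j + 1))
      generalize ((2 * (k + (j + 1))).choose (k + (j + 1)) : ℚ) = y at *
      generalize ((2 * k).choose k : ℚ) = z at *
      push_cast
      field_simp
      rw [show (2 : ℚ) * E * d = 2 * (E * d) by ring, mul_pow]
      rw [pow_succ (E * d : ℚ)]
      ring
    rw [e]
    exact (ratio k (j + 1)).mul hp (PI.int hp _)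
  · obtain rfl : k = m := by omega
    obtain ⟨u, hu⟩ := hw
    have e : ((2 * E * d : ℤ) : ℚ) ^ (k - k) * (((2 * k).choose k : ℚ) * w k) /
        (E * ((2 * k).choose k : ℚ)) = ((u : ℤ) : ℚ) := by
      have c2 := cne k
      rw [Nat.sub_self, pow_zero, hu]
      generalize ((2 * k).choose k : ℚ) = z at *
      push_cast
      field_simp
    rw [e]
    exact PI.int hp _

/-- a central binomial coefficient is even -/
theorem even_c (m : ℕ) (hm : 1 ≤ m) : 2 ∣ (2 * m).choose m := by
  have h := Nat.two_dvd_centralBinom_of_one_le hm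
  rwa [Nat.centralBinom_eq_two_mul_choose] at h

/-- From `6x` an integer and `x` `2`-integral: `3x` is an integer with the same residue
(up to sign) modulo three. -/
theorem finish (x : ℚ) (z : ℤ) (hz : 6 * x = z) (h2 : PI 2 x) :
    ∃ y : ℤ, 3 * x = y ∧ z = 2 * y := by
  obtain ⟨B, hB, w, hw⟩ := h2
  have h1 : (B : ℤ) * z = 6 * w := by
    have : (B : ℚ) * z = 6 * w := by rw [← hz, ← hw]; ring
    exact_mod_cast this
  have h3 : (2 : ℤ) ∣ z := by
    have h4 : (2 : ℤ) ∣ (B : ℤ) * z := ⟨3 * w, by rw [h1]; ring⟩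
    rcases Int.prime_two.dvd_mul.1 h4 with h5 | h5
    · exact absurd (by exact_mod_cast h5) hB
    · exact h5
  obtain ⟨y, hy⟩ := h3
  refine ⟨y, ?_, hy⟩
  have : 6 * x = 2 * (y : ℚ) := by rw [hz, hy]; push_cast; ring
  linarith

/-- alternating sums with quickly decreasing terms are positive -/
theorem alt_pos (u S : ℕ → ℚ) (c : ℚ) (hc : 0 < c) (hu : ∀ k, 0 < u k) (h : ∀ k, u (k + 1) < c * u k)
    (h0 : S 0 = 0) (hS : ∀ n, S (n + 1) = c * S n + (-1) ^ n * u n) (n : ℕ) :
    0 < S (n + 1) := by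
  have key : ∀ m, 0 ≤ S (2 * m) ∧ u (2 * m) ≤ S (2 * m + 1) := by
    intro m
    induction m with
    | zero =>
      refine ⟨by simp [h0], ?_⟩
      rw [mul_zero, hS 0, h0]; simp
    | succ m ih =>
      obtain ⟨_, i2⟩ := ih
      have h3 : 0 ≤ S (2 * (m + 1)) := by
        rw [show 2 * (m + 1) = 2 * m + 1 + 1 by ring, hS (2 * m + 1),
          show (-1 : ℚ) ^ (2 * m + 1) = -1 by rw [pow_succ, pow_mul]; norm_num]
        have := h (2 * m)
        nlinarith [mul_le_mul_of_nonneg_left i2 hc.le]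
      refine ⟨h3, ?_⟩
      rw [hS, show (-1 : ℚ) ^ (2 * (m + 1)) = 1 by rw [pow_mul]; norm_num, one_mul]
      have := mul_nonneg hc.le h3
      linarith
  rcases Nat.even_or_odd' n with ⟨m, rfl | rfl⟩
  · exact lt_of_lt_of_le (hu _) (key m).2
  · rw [hS, show (-1 : ℚ) ^ (2 * m + 1) = -1 by rw [pow_succ, pow_mul]; norm_num]
    have h1 := (key m).2
    have := h (2 * m)
    nlinarith [mul_le_mul_of_nonneg_left h1 hc.le]

end Q277.RamTwo
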