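import Mathlib
import Pool.Agent.Q277.Ram154V
import Pool.Agent.Q277.RamTwo

/-!
The exponent of five in the normalised sums of `(154k+15) (6k)!/((3k)! k!^3) (-32768)^(n-1-k)`.
-/

namespace Q277.Ram154

open Finset Q277.FacTools Q277.GTools Q266.FacVal Q266.FacDvd Q277.RamTwo

theorem sum_blocks {R : Type*} [AddCommMonoid R] (f : ℕ → R) (M : ℕ) :
    ∑ k ∈ range (5 * M), f k
      = ∑ j ∈ range M, (f (5 * j) + f (5 * j + 1) + f (5 * j + 2) + f (5 * j + 3) + f (5 * j + 4)) := by
  induction M with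
  | zero => simp
  | succ M ih =>
    rw [show 5 * (M + 1) = 5 * M + 1 + 1 + 1 + 1 + 1 by ring, sum_range_succ, sum_range_succ,
      sum_range_succ, sum_range_succ, sum_range_succ, ih, sum_range_succ]
    simp only [add_assoc]

/-- five divides `e` unless `2n+1` is a power of five -/
theorem five_dvd_e (n e : ℕ) (hn : 1 ≤ n) (h2 : ∀ m : ℕ, 2 * n + 1 ≠ 5 ^ m) (h :
    ((3 * n).factorial * n.factorial * (2 * n + 1).factorial) * e = (6 * n).factorial) : 5 ∣ e := by
  have hl : ∀ q, 2 ≤ q → (([3 * n, n, 2 * n + 1] : List ℕ).map (fun a => a / q)).sum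
      ≤ (([6 * n] : List ℕ).map (fun a => a / q)).sum := fun q hq => lvlE_list n 0 q hq
  have key : ∃ j, 1 ≤ j ∧ (([3 * n, n, 2 * n + 1] : List ℕ).map (fun a => a / 5 ^ j)).sum
      < (([6 * n] : List ℕ).map (fun a => a / 5 ^ j)).sum := by
    simp only [List.map_cons, List.map_nil, List.sum_cons, List.sum_nil, add_zero]
    obtain ⟨i, hi1, hi2⟩ : ∃ i, 5 ^ i ≤ 6 * n ∧ 6 * n < 5 ^ (i + 1) :=
      ⟨Nat.log 5 (6 * n), Nat.pow_log_le_self 5 (by omega),
        Nat.lt_pow_succ_log_self (by norm_num) _⟩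
    have hi0 : 1 ≤ i := by
      rcases Nat.eq_zero_or_pos i with h0 | h0
      · subst h0; simp at hi2; omega
      · exact h0
    have hne := h2 i
    rw [pow_succ] at hi2
    have hodd : 5 ^ i % 2 = 1 := Nat.odd_iff.1 (Odd.pow (by decide))
    have h5 : 5 ≤ 5 ^ i := by
      calc 5 = 5 ^ 1 := by norm_num
        _ ≤ 5 ^ i := Nat.pow_le_pow_right (by norm_num) hi0
    refine ⟨i, hi0, ?_⟩
    generalize 5 ^ i = q at *
    have a1 : n / q = 0 := Nat.div_eq_of_lt (by omega)
    by_cases c1 : 2 * n + 1 < q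
    · have a2 : (2 * n + 1) / q = 0 := Nat.div_eq_of_lt c1
      by_cases c2 : 3 * n < q
      · have a3 : (3 * n) / q = 0 := Nat.div_eq_of_lt c2
        have a4 : 1 ≤ (6 * n) / q := (Nat.one_le_div_iff (by omega)).2 hi1
        omega
      · have a3 : (3 * n) / q < 2 := Nat.div_lt_of_lt_mul (by omega)
        have a4 : 2 ≤ (6 * n) / q := (Nat.le_div_iff_mul_le (by omega)).2 (by omega)
        omega
    · have a2 : (2 * n + 1) / q < 2 := Nat.div_lt_of_lt_mul (by omega)
      by_cases c2 : 3 * n < 2 * q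
      · have a3 : (3 * n) / q < 2 := Nat.div_lt_of_lt_mul (by omega)
        have a4 : 3 ≤ (6 * n) / q := (Nat.le_div_iff_mul_le (by omega)).2 (by omega)
        omega
      · have a3 : (3 * n) / q < 3 := Nat.div_lt_of_lt_mul (by omega)
        have a4 : 4 ≤ (6 * n) / q := (Nat.le_div_iff_mul_le (by omega)).2 (by omega)
        omega
  obtain ⟨j, hj, hlt⟩ := key
  have hv := val_lt 5 (by norm_num) _ _ (fun i hi => hl (5 ^ i) (by
    calc 2 ≤ 5 ^ 1 := by norm_num
      _ ≤ 5 ^ i := Nat.pow_le_pow_right (by norm_num) hi)) j hj hlt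
  simp only [List.map_cons, List.map_nil, List.prod_cons, List.prod_nil, mul_one] at hv
  refine dvd_of_val_lt (a := (3 * n).factorial * n.factorial * (2 * n + 1).factorial)
    (Nat.factorial_ne_zero _) h ?_
  rw [show (3 * n).factorial * n.factorial * (2 * n + 1).factorial
    = (3 * n).factorial * (n.factorial * (2 * n + 1).factorial) by ring]
  exact hv

theorem not_five_dvd_e (n e m : ℕ) (h2 : 2 * n + 1 = 5 ^ m) (h :
    ((3 * n).factorial * n.factorial * (2 * n + 1).factorial) * e = (6 * n).factorial) :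
    ¬ 5 ∣ e := by
  have hl : ∀ i, 1 ≤ i → (([3 * n, n, 2 * n + 1] : List ℕ).map (fun a => a / 5 ^ i)).sum
      = (([6 * n] : List ℕ).map (fun a => a / 5 ^ i)).sum := by
    intro i hi
    simp only [List.map_cons, List.map_nil, List.sum_cons, List.sum_nil, add_zero]
    rcases Nat.lt_or_ge m i with him | him
    · have hb : 5 * 5 ^ m ≤ 5 ^ i := by
        rw [← pow_succ']; exact Nat.pow_le_pow_right (by norm_num) (by omega)
      have a1 : n / 5 ^ i = 0 := Nat.div_eq_of_lt (by omega)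
      have a2 : (3 * n) / 5 ^ i = 0 := Nat.div_eq_of_lt (by omega)
      have a3 : (2 * n + 1) / 5 ^ i = 0 := Nat.div_eq_of_lt (by omega)
      have a4 : (6 * n) / 5 ^ i = 0 := Nat.div_eq_of_lt (by omega)
      omega
    · obtain ⟨d, rfl⟩ : ∃ d, m = i + d := ⟨m - i, by omega⟩
      have hodd : 5 ^ i % 2 = 1 := Nat.odd_iff.1 (Odd.pow (by decide))
      have hodd' : 5 ^ d % 2 = 1 := Nat.odd_iff.1 (Odd.pow (by decide))
      have h5 : 5 ≤ 5 ^ i := by
        calc 5 = 5 ^ 1 := by norm_num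
          _ ≤ 5 ^ i := Nat.pow_le_pow_right (by norm_num) hi
      rw [pow_add] at h2
      obtain ⟨u, hu⟩ : ∃ u, 5 ^ d = 2 * u + 1 := ⟨5 ^ d / 2, by omega⟩
      obtain ⟨w, hw⟩ : ∃ w, 5 ^ i = 2 * w + 1 := ⟨5 ^ i / 2, by omega⟩
      rw [hu] at h2
      generalize 5 ^ i = q at *
      have hr : n = q * u + w := by
        have : q * (2 * u + 1) = 2 * (q * u) + q := by ring
        omega
      have a1 : n / q = u := by
        rw [hr, Nat.mul_add_div (by omega), Nat.div_eq_of_lt (by omega), add_zero]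
      have a2 : (3 * n) / q = 3 * u + 1 := by
        rw [show 3 * n = q * (3 * u + 1) + (w - 1) by
          have : q * (3 * u + 1) = 3 * (q * u) + q := by ring
          omega, Nat.mul_add_div (by omega), Nat.div_eq_of_lt (by omega), add_zero]
      have a3 : (2 * n + 1) / q = 2 * u + 1 := by
        rw [show 2 * n + 1 = q * (2 * u + 1) by rw [h2]]
        exact Nat.mul_div_cancel_left _ (by omega)
      have a4 : (6 * n) / q = 6 * u + 2 := by
        rw [show 6 * n = q * (6 * u + 2) + (2 * w - 2) by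
          have : q * (6 * u + 2) = 6 * (q * u) + 2 * q := by ring
          omega, Nat.mul_add_div (by omega), Nat.div_eq_of_lt (by omega), add_zero]
      omega
  have hv := val_eq 5 (by norm_num) _ _ hl
  simp only [List.map_cons, List.map_nil, List.prod_cons, List.prod_nil, mul_one] at hv
  refine not_dvd_of_val_eq (a := (3 * n).factorial * n.factorial * (2 * n + 1).factorial)
    (by norm_num) (Nat.factorial_ne_zero _) h ?_
  rw [show (3 * n).factorial * n.factorial * (2 * n + 1).factorial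
    = (3 * n).factorial * (n.factorial * (2 * n + 1).factorial) by ring]
  exact hv

theorem exists_e (n : ℕ) : ∃ e : ℕ,
    ((3 * n).factorial * n.factorial * (2 * n + 1).factorial) * e = (6 * n).factorial := by
  have h := fac_dvd _ _ (fun q hq => lvlE_list n 0 q hq)
  simp only [List.map_cons, List.map_nil, List.prod_cons, List.prod_nil, mul_one] at h
  obtain ⟨ρ, hρ⟩ := h
  exact ⟨ρ, by linear_combination hρ.symm⟩

/-- the alternating sums of `V` modulo five -/
theorem block_sum (Z : ℕ → ℕ → ℤ) (hZ : ∀ n k, k < n → V n k = Z n k) (m : ℕ) :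
    ∑ k ∈ range (5 * m), (-1 : ZMod 5) ^ k * (Z (5 * m) k : ZMod 5)
      = 4 * (2 * m + 1) * ∑ j ∈ range m, (-1) ^ j * (Z m j : ZMod 5) := by
  rw [sum_blocks, mul_sum]
  refine sum_congr rfl fun j hj => ?_
  have hj' := mem_range.1 hj
  have step : ∀ k, k + 1 < 5 * m → (Z (5 * m) k : ZMod 5) * ((-k - 1) * (-k - 1))
      = 4 * (-4 * k - 5) * (-4 * k - 7) * (Z (5 * m) (k + 1) : ZMod 5) := by
    intro k hk
    have h1 := V_step (5 * m) k
    rw [hZ _ _ (by omega), hZ _ _ hk] at h1
    have h2 : Z (5 * m) k * ((((5 * m : ℕ) : ℤ) - k - 1) * (2 * ((5 * m : ℕ) : ℤ) - k - 1))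
        = 4 * (2 * ((5 * m : ℕ) : ℤ) - 4 * k - 5) * (2 * ((5 * m : ℕ) : ℤ) - 4 * k - 7) *
          Z (5 * m) (k + 1) := by exact_mod_cast h1
    have h3 := congrArg (fun x : ℤ => (x : ZMod 5)) h2
    push_cast at h3
    have h5 : (5 : ZMod 5) = 0 := by decide
    have h10 : (10 : ZMod 5) = 0 := by decide
    linear_combination h3 + (-(Z (5 * m) k : ZMod 5) * m * (2 * (5 * m) - k - 1) -
      (Z (5 * m) k : ZMod 5) * 2 * m * (-k - 1) + 4 * 2 * m * (2 * (5 * m) - 4 * k - 7) *
      (Z (5 * m) (k + 1) : ZMod 5) + 4 * (-4 * k - 5) * 2 * m * (Z (5 * m) (k + 1) : ZMod 5)) * h5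
  have s3 := step (5 * j + 3) (by omega)
  have s2 := step (5 * j + 2) (by omega)
  have s1 := step (5 * j + 1) (by omega)
  have s0 := step (5 * j) (by omega)
  have s4 := V_five m j hj' _ _ (hZ _ _ (by omega)) (hZ _ _ hj')
  rw [show 5 * j + 3 + 1 = 5 * j + 4 by ring] at s3
  rw [show 5 * j + 2 + 1 = 5 * j + 3 by ring] at s2
  rw [show 5 * j + 1 + 1 = 5 * j + 2 by ring] at s1
  generalize (Z (5 * m) (5 * j) : ZMod 5) = z0 at *
  generalize (Z (5 * m) (5 * j + 1) : ZMod 5) = z1 at *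
  generalize (Z (5 * m) (5 * j + 2) : ZMod 5) = z2 at *
  generalize (Z (5 * m) (5 * j + 3) : ZMod 5) = z3 at *
  generalize (Z (5 * m) (5 * j + 4) : ZMod 5) = z4 at *
  push_cast at s0 s1 s2 s3
  have h5 : (5 : ZMod 5) = 0 := by decide
  rw [h5] at s0 s1 s2 s3
  have e3 : z3 = 2 * z4 := by
    have h16 : (16 : ZMod 5) = 1 := by decide
    have hr : (4 * (-4 * 3 - 0) * (-4 * 3 - 7) : ZMod 5) = 2 := by decide
    linear_combination s3 - z3 * h16 + z4 * hr
  have e2 : z2 = 0 := by
    have h9 : (-((0:ZMod 5) * j + 2) - 1) * (-((0:ZMod 5) * j + 2) - 1) = 4 := by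
      ring_nf; decide
    have hr : (-4 * ((0:ZMod 5) * j + 2) - 7) = 0 := by ring_nf; decide
    rw [h9, hr] at s2
    have h4 : (4 * 4 : ZMod 5) = 1 := by decide
    linear_combination 4 * s2 - z2 * h4
  have e1 : z1 = 0 := by
    have h9 : (-((0:ZMod 5) * j + 1) - 1) * (-((0:ZMod 5) * j + 1) - 1) = 4 := by
      ring_nf
    rw [h9, e2] at s1
    have h4 : (4 * 4 : ZMod 5) = 1 := by decide
    linear_combination 4 * s1 - z1 * h4
  have e0 : z0 = 0 := by
    rw [e1] at s0
    linear_combination s0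
  have hs : (-1 : ZMod 5) ^ (5 * j) = (-1) ^ j := by
    rw [pow_mul, show ((-1 : ZMod 5) ^ 5) = -1 by decide]
  rw [e3, e2, e1, e0, s4, pow_add _ (5 * j) 3, pow_add _ (5 * j) 4, hs]
  have h15 : (-1 : ZMod 5) ^ 3 * 2 + (-1) ^ 4 = 4 := by decide
  linear_combination ((-1) ^ j * ((2 * m + 1) * (Z m j : ZMod 5))) * h15

/-- induction modulo five -/
theorem five_main (e : ℕ → ℕ) (he : ∀ n, ((3 * n).factorial * n.factorial *
      (2 * n + 1).factorial) * e n = (6 * n).factorial) (B : ℕ → ZMod 5)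
    (hblock : ∀ m, B (5 * m) = 4 * (2 * m + 1) * B m) (h1 : B 1 = 0)
    (hrec : ∀ n : ℕ, 1 ≤ n → 2 * (2 * (n : ZMod 5) + 3) * B (n + 1) = 2 * n * B n + n * e n) :
    (∀ n : ℕ, 1 ≤ n → n % 5 ≠ 2 → B n = 0) ∧ (∀ n : ℕ, n % 5 = 2 → B n = 2 * e n) := by
  have h5 : (5 : ZMod 5) = 0 := by decide
  have hez : ∀ n, 1 ≤ n → n % 5 ≠ 2 → ((e n : ℕ) : ZMod 5) = 0 := by
    intro n hn h
    rw [ZMod.natCast_eq_zero_iff]
    refine five_dvd_e n (e n) hn (fun m hm => ?_) (he n)
    rcases Nat.eq_zero_or_pos m with rfl | hm0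
    · simp at hm; omega
    · obtain ⟨i, rfl⟩ : ∃ i, m = i + 1 := ⟨m - 1, by omega⟩
      rw [pow_succ] at hm
      omega
  have one : ∀ m, B (5 * m + 1) = 0 := by
    intro m
    rcases Nat.eq_zero_or_pos m with rfl | hm
    · exact h1
    · have h := hrec (5 * m) (by omega)
      push_cast at h
      linear_combination h + (2 * m * B (5 * m) + m * (e (5 * m) : ZMod 5) -
        B (5 * m + 1) - 4 * m * B (5 * m + 1)) * h5
  have up : ∀ m, B (5 * m + 5) = 0 → B (5 * m + 4) = 0 ∧ B (5 * m + 3) = 0 := by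
    intro m hm
    have h4 : B (5 * m + 4) = 0 := by
      have h := hrec (5 * m + 4) (by omega)
      rw [hez _ (by omega) (by omega), show 5 * m + 4 + 1 = 5 * m + 5 by ring, hm] at h
      push_cast at h
      have h8 : (2 * 4 * 2 : ZMod 5) = 1 := by decide
      linear_combination (-2) * h - B (5 * m + 4) * h8 - (4 * m * B (5 * m + 4)) * h5
    refine ⟨h4, ?_⟩
    have h := hrec (5 * m + 3) (by omega)
    rw [hez _ (by omega) (by omega), show 5 * m + 3 + 1 = 5 * m + 4 by ring, h4] at h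
    push_cast at h
    linear_combination (-1) * h - (2 * m * B (5 * m + 3) + B (5 * m + 3)) * h5
  have R : ∀ n : ℕ, 1 ≤ n → (2 * (n : ZMod 5) + 1) * B n = 0 := by
    intro n
    induction n using Nat.strong_induction_on with
    | _ n ih =>
      intro hn
      obtain ⟨m, i, hi, rfl⟩ : ∃ m i, i < 5 ∧ n = 5 * m + i := ⟨n / 5, n % 5, by omega, by omega⟩
      have hup : m + 1 < 5 * m + i → B (5 * m + 4) = 0 ∧ B (5 * m + 3) = 0 := by
        intro h
        refine up m ?_
        have h6 := ih (m + 1) h (by omega)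
        rw [show 5 * m + 5 = 5 * (m + 1) by ring, hblock, mul_assoc, h6, mul_zero]
      interval_cases i
      · rw [add_zero, hblock]
        have h6 := ih m (by omega) (by omega)
        linear_combination (4 * (2 * ((5 * m : ℕ) : ZMod 5) + 1)) * h6
      · rw [one m, mul_zero]
      · push_cast
        linear_combination (2 * m * B (5 * m + 2) + B (5 * m + 2)) * h5
      · rw [(hup (by omega)).2, mul_zero]
      · rw [(hup (by omega)).1, mul_zero]
  have five : ∀ m, 1 ≤ m → B (5 * m) = 0 := by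
    intro m hm
    rw [hblock, mul_assoc, R m hm, mul_zero]
  constructor
  · intro n hn h
    obtain ⟨m, i, hi, rfl⟩ : ∃ m i, i < 5 ∧ n = 5 * m + i := ⟨n / 5, n % 5, by omega, by omega⟩
    have hup := up m (by rw [show 5 * m + 5 = 5 * (m + 1) by ring]; exact five (m + 1) (by omega))
    interval_cases i
    · exact five m (by omega)
    · exact one m
    · omega
    · exact hup.2
    · exact hup.1
  · intro n hn
    obtain ⟨m, rfl⟩ : ∃ m, n = 5 * m + 2 := ⟨n / 5, by omega⟩
    have hup := up m (by rw [show 5 * m + 5 = 5 * (m + 1) by ring]; exact five (m + 1) (by omega))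
    have h := hrec (5 * m + 2) (by omega)
    rw [show 5 * m + 2 + 1 = 5 * m + 3 by ring, hup.2] at h
    push_cast at h
    linear_combination h + (B (5 * m + 2) + 2 * m * B (5 * m + 2) + m * (e (5 * m + 2) : ZMod 5)) * h5

end Q277.Ram154
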