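import Mathlib
import Pool.Agent.Q277.GTools

/-!
Two telescoping pairs for the sums of `(28k+3) (4k)!/k!^4 (-12288)^(n-1-k)`.
-/

namespace Q277.Ram28k3

open Finset Q277.FacTools Q277.GTools

/-- first pair, first member -/
def Fa (n k : ℕ) : ℚ :=
  (-16 / 3) ^ k * (56 * n ^ 2 + 34 * n - 36 * n * k + (2 * k - 1) * (2 * k - 3)) *
    (g (n - k) * g (n + k) * g (2 * n - k) * rf (2 * n - k + 1)) / (n.factorial : ℚ) ^ 2

/-- first pair, second member -/
def Ga (n k : ℕ) : ℚ :=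
  (-16 / 3) ^ k * (n ^ 2 / 12) *
    (g (n - k - 1) * g (n + k) * g (2 * n - k - 1) * rf (2 * n - k - 1)) / (n.factorial : ℚ) ^ 2

theorem pair_a (n k : ℕ) : Ga (n + 1) k - (-12288) * Ga n k = Fa n k - Fa n (k + 1) := by
  unfold Fa Ga
  push_cast
  rw [show (n : ℤ) + 1 - k - 1 = n - k by ring, show (n : ℤ) + 1 + k = n + k + 1 by ring,
    show 2 * ((n : ℤ) + 1) - k - 1 = 2 * n - k + 1 by ring,
    show (n : ℤ) - (k + 1) = n - k - 1 by ring, show (n : ℤ) + (k + 1) = n + k + 1 by ring,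
    show 2 * (n : ℤ) - (k + 1) + 1 = 2 * n - k by ring,
    show 2 * (n : ℤ) - (k + 1) = 2 * n - k - 1 by ring]
  have e1 : g ((n : ℤ) - k) = 2 * (2 * (n - k - 1) + 1) * g ((n : ℤ) - k - 1) := by
    have h := g_succ ((n : ℤ) - k - 1)
    rw [show (n : ℤ) - k - 1 + 1 = n - k by ring] at h
    push_cast at h
    exact h
  have e2 : g ((n : ℤ) + k + 1) = 2 * (2 * (n + k) + 1) * g ((n : ℤ) + k) := by
    have h := g_succ ((n : ℤ) + k)
    push_cast at h
    exact h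
  have e3 : g (2 * (n : ℤ) - k) = 2 * (2 * (2 * n - k - 1) + 1) * g (2 * (n : ℤ) - k - 1) := by
    have h := g_succ (2 * (n : ℤ) - k - 1)
    rw [show 2 * (n : ℤ) - k - 1 + 1 = 2 * n - k by ring] at h
    push_cast at h
    exact h
  have e4 : g (2 * (n : ℤ) - k + 1) = 2 * (2 * (2 * n - k) + 1) * g (2 * (n : ℤ) - k) := by
    have h := g_succ (2 * (n : ℤ) - k)
    push_cast at h
    exact h
  have e5 : rf (2 * (n : ℤ) - k) = (2 * n - k + 1) * rf (2 * (n : ℤ) - k + 1) := by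
    have h := rf_pred (2 * (n : ℤ) - k)
    push_cast at h
    exact h
  have e6 : rf (2 * (n : ℤ) - k - 1) = (2 * n - k - 1 + 1) * rf (2 * (n : ℤ) - k) := by
    have h := rf_pred (2 * (n : ℤ) - k - 1)
    rw [show 2 * (n : ℤ) - k - 1 + 1 = 2 * n - k by ring] at h
    push_cast at h
    exact h
  rw [e4, e1, e2, e3, e6, e5, f1 n, pow_succ]
  have a1 := fne n
  have b1 : (n : ℚ) + 1 ≠ 0 := by positivity
  generalize g ((n : ℤ) - k - 1) = x
  generalize g ((n : ℤ) + k) = y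
  generalize g (2 * (n : ℤ) - k - 1) = z
  generalize rf (2 * (n : ℤ) - k + 1) = w
  generalize (n.factorial : ℚ) = u at *
  field_simp
  ring

theorem sum_a (n : ℕ) : ∑ k ∈ range (2 * n), Ga n k
    = ∑ j ∈ range n, (-12288) ^ (n - 1 - j) * Fa j 0 := by
  refine wz_sum' Fa Ga (-12288) (fun n => 2 * n) rfl pair_a (fun n => ?_) (fun n => by
    show 2 * n ≤ 2 * (n + 1); omega) (fun n k hk => ?_) n
  · unfold Fa
    push_cast
    rw [rf_neg (2 * (n : ℤ) - 2 * (n + 1) + 1) (by omega)]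
    simp
  · have hk' : 2 * n ≤ k := hk
    unfold Ga
    rw [rf_neg (2 * (n : ℤ) - k - 1) (by omega)]
    simp

/-- second pair, first member -/
def Fb (n k : ℕ) : ℚ :=
  (-432) ^ k * (56 * n ^ 2 + (34 - 40 * k) * n + (3 - 18 * k)) *
    (g (n - 3 * k) * g (n + k) * rf (n - k) ^ 2) * ((4 * n).factorial : ℚ) /
    (((2 * n).factorial : ℚ) * ((2 * n + 1).factorial : ℚ))

/-- second pair, second member -/
def Gb (n k : ℕ) : ℚ :=
  (-432) ^ k * (n * (4 * n - 1)) *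
    (g (n - 3 * k - 3) * g (n + k) * rf (n - k - 1) ^ 2) * ((4 * n).factorial : ℚ) /
    ((2 * n).factorial : ℚ) ^ 2

theorem pair_b (n k : ℕ) : Gb (n + 1) k - (-12288) * Gb n k = Fb n k - Fb n (k + 1) := by
  unfold Fb Gb
  push_cast
  rw [show (n : ℤ) + 1 - k - 1 = n - k by ring, show (n : ℤ) + 1 + k = n + k + 1 by ring,
    show (n : ℤ) + 1 - 3 * k - 3 = n - 3 * k - 2 by ring,
    show (n : ℤ) - 3 * (k + 1) = n - 3 * k - 3 by ring,
    show (n : ℤ) + (k + 1) = n + k + 1 by ring, show (n : ℤ) - (k + 1) = n - k - 1 by ring]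
  have e1 : g ((n : ℤ) - 3 * k - 2) = 2 * (2 * (n - 3 * k - 3) + 1) * g ((n : ℤ) - 3 * k - 3) := by
    have h := g_succ ((n : ℤ) - 3 * k - 3)
    rw [show (n : ℤ) - 3 * k - 3 + 1 = n - 3 * k - 2 by ring] at h
    push_cast at h
    exact h
  have e1' : g ((n : ℤ) - 3 * k - 1) = 2 * (2 * (n - 3 * k - 2) + 1) * g ((n : ℤ) - 3 * k - 2) := by
    have h := g_succ ((n : ℤ) - 3 * k - 2)
    rw [show (n : ℤ) - 3 * k - 2 + 1 = n - 3 * k - 1 by ring] at h
    push_cast at h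
    exact h
  have e1'' : g ((n : ℤ) - 3 * k) = 2 * (2 * (n - 3 * k - 1) + 1) * g ((n : ℤ) - 3 * k - 1) := by
    have h := g_succ ((n : ℤ) - 3 * k - 1)
    rw [show (n : ℤ) - 3 * k - 1 + 1 = n - 3 * k by ring] at h
    push_cast at h
    exact h
  have e2 : g ((n : ℤ) + k + 1) = 2 * (2 * (n + k) + 1) * g ((n : ℤ) + k) := by
    have h := g_succ ((n : ℤ) + k)
    push_cast at h
    exact h
  have e6 : rf ((n : ℤ) - k - 1) = (n - k - 1 + 1) * rf ((n : ℤ) - k) := by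
    have h := rf_pred ((n : ℤ) - k - 1)
    rw [show (n : ℤ) - k - 1 + 1 = n - k by ring] at h
    push_cast at h
    exact h
  rw [e1'', e1', e1, e2, e6, show 4 * (n + 1) = 4 * n + 4 by ring,
    show 2 * (n + 1) = 2 * n + 2 by ring, f4 (4 * n), f2 (2 * n), f1 (2 * n), pow_succ]
  have a1 := fne (2 * n)
  have b1 : (n : ℚ) + 1 ≠ 0 := by positivity
  have b2 : 2 * (n : ℚ) + 1 ≠ 0 := by positivity
  have b3 : 2 * (n : ℚ) + 2 ≠ 0 := by positivity
  generalize g ((n : ℤ) - 3 * k - 3) = x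
  generalize g ((n : ℤ) + k) = y
  generalize rf ((n : ℤ) - k) = w
  generalize ((4 * n).factorial : ℚ) = v
  generalize ((2 * n).factorial : ℚ) = u at *
  push_cast
  field_simp
  ring

theorem sum_b (n : ℕ) : ∑ k ∈ range n, Gb n k
    = ∑ j ∈ range n, (-12288) ^ (n - 1 - j) * Fb j 0 := by
  refine wz_sum' Fb Gb (-12288) (fun n => n) rfl pair_b (fun n => ?_) (fun n => by
    show n ≤ n + 1; omega) (fun n k hk => ?_) n
  · unfold Fb
    push_cast
    rw [rf_neg ((n : ℤ) - (n + 1)) (by omega)]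
    simp
  · have hk' : n ≤ k := hk
    unfold Gb
    rw [rf_neg ((n : ℤ) - k - 1) (by omega)]
    simp

theorem Fa_zero (j : ℕ) : Fa j 0
    = (28 * (j : ℚ) + 3) * (((4 * j).factorial : ℚ) / (j.factorial : ℚ) ^ 4) := by
  unfold Fa
  have h1 : g (2 * (j : ℤ)) = ((4 * j).factorial : ℚ) / ((2 * j).factorial : ℚ) := by
    rw [show 2 * (j : ℤ) = ((2 * j : ℕ) : ℤ) by push_cast; ring, g_nat,
      show 2 * (2 * j) = 4 * j by ring]
  have h2 : rf (2 * (j : ℤ) + 1) = 1 / ((2 * j + 1).factorial : ℚ) := by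
    rw [show 2 * (j : ℤ) + 1 = ((2 * j + 1 : ℕ) : ℤ) by push_cast; ring, rf_nat]
  simp only [Nat.cast_zero, sub_zero, add_zero, pow_zero, mul_zero]
  rw [h1, h2, g_nat, f1 (2 * j)]
  have a1 := fne j
  have a2 := fne (2 * j)
  push_cast
  have b1 : 2 * (j : ℚ) + 1 ≠ 0 := by positivity
  field_simp
  ring

theorem Fb_zero (j : ℕ) : Fb j 0
    = (28 * (j : ℚ) + 3) * (((4 * j).factorial : ℚ) / (j.factorial : ℚ) ^ 4) := by
  unfold Fb
  simp only [Nat.cast_zero, sub_zero, add_zero, pow_zero, mul_zero]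
  rw [g_nat, rf_nat, f1 (2 * j)]
  have a1 := fne j
  have a2 := fne (2 * j)
  push_cast
  have b1 : 2 * (j : ℚ) + 1 ≠ 0 := by positivity
  field_simp
  ring

end Q277.Ram28k3
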