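import Mathlib
import Pool.Agent.Q277.Ram28k3
import Pool.Agent.Q277.Ram28k3Floor
import Pool.Agent.Q277.Ram28k3FloorTwo
import Pool.Agent.Q277.ListPI
import Pool.Agent.Q277.RamTwo

/-!
The terms of the two expansions are integral at the primes `≥ 5` and at the prime three.
-/

namespace Q277.Ram28k3

open Finset Q277.FacTools Q277.GTools Q277.ListPI Q277.RamTwo Q266.PInt Q266.FacVal

theorem coef_PI (p : ℕ) (hp : p.Prime) (h5 : 5 ≤ p) (k : ℕ) (e : ℤ) :
    PI p ((-16 / 3) ^ k * (e / 24)) := by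
  have h3 : ¬ p ∣ 3 := fun h => by have := Nat.le_of_dvd (by norm_num) h; omega
  have h24 : ¬ p ∣ 24 := by
    intro h
    rw [show (24 : ℕ) = 2 ^ 3 * 3 by norm_num] at h
    rcases (hp.dvd_mul).1 h with h | h
    · have := hp.dvd_of_dvd_pow h
      have := Nat.le_of_dvd (by norm_num) this
      omega
    · exact h3 h
  have e1 := (((PI.int hp (-16)).mul hp (PI.inv h3)).pow hp k).mul hp
    ((PI.int hp e).mul hp (PI.inv h24))
  have e2 : (-16 / 3 : ℚ) ^ k * (e / 24)
      = (((-16 : ℤ) : ℚ) * (1 / ((3 : ℕ) : ℚ))) ^ k * ((e : ℚ) * (1 / ((24 : ℕ) : ℚ))) := by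
    rw [show ((-16 : ℤ) : ℚ) * (1 / ((3 : ℕ) : ℚ)) = -16 / 3 by norm_num]
    push_cast
    ring
  rw [e2]
  exact e1

theorem Ta_PI (p : ℕ) (hp : p.Prime) (h5 : 5 ≤ p) (n k : ℕ) (hk : k < 2 * n) :
    PI p (1 / (2 * (n : ℚ) * (2 * n + 1) * ((2 * n).choose n : ℚ)) * Ga n k) := by
  have hn0 : n ≠ 0 := by omega
  have hnn : (n : ℚ) ≠ 0 := by exact_mod_cast hn0
  have b1 : 2 * (n : ℚ) + 1 ≠ 0 := by positivity
  rcases Nat.lt_or_ge k n with h | h
  · obtain ⟨r, hr⟩ : ∃ r, n = r + k + 1 := ⟨n - k - 1, by omega⟩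
    have key := PI_lists p hp _ _ (fun i hi => lvlD_list r k (p ^ i)
      (by have := pow_ge p hp.two_le i hi; omega))
    simp only [List.map_cons, List.map_nil, List.prod_cons, List.prod_nil, mul_one] at key
    have e : 1 / (2 * (n : ℚ) * (2 * n + 1) * ((2 * n).choose n : ℚ)) * Ga n k
        = ((-16 / 3) ^ k * (((1 : ℤ) : ℚ) / 24)) * (((((2 * r).factorial * ((2 * r + 4 * k + 2).factorial *
        ((4 * r + 2 * k + 2).factorial * (r + k + 1).factorial)) : ℕ)) : ℚ) /
        (((r.factorial * ((r + 2 * k + 1).factorial * ((2 * r + k + 1).factorial *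
          ((2 * r + k + 1).factorial * ((2 * r + 2 * k + 3).factorial * (r + k).factorial)))) : ℕ)) : ℚ)) := by
      unfold Ga
      rw [show (n : ℤ) - k - 1 = (r : ℤ) by omega, show (n : ℤ) + k = ((r + 2 * k + 1 : ℕ) : ℤ) by omega,
        show 2 * (n : ℤ) - k - 1 = ((2 * r + k + 1 : ℕ) : ℤ) by omega, g_nat, g_nat, g_nat, rf_nat,
        choose_two, show 2 * (r + 2 * k + 1) = 2 * r + 4 * k + 2 by ring,
        show 2 * (2 * r + k + 1) = 4 * r + 2 * k + 2 by ring,
        show 2 * r + 2 * k + 3 = 2 * n + 1 by omega, show r + k + 1 = (r + k) + 1 by ring]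
      push_cast
      rw [f1 (2 * n), f1 (r + k)]
      have hn' : (n : ℚ) = r + k + 1 := by rw [hr]; push_cast; ring
      have a1 := fne r
      have a2 := fne (2 * n)
      have a3 := fne (r + 2 * k + 1)
      have a4 := fne (2 * r + k + 1)
      have a5 := fne n
      have a6 := fne (r + k)
      push_cast
      rw [show (r : ℚ) + k + 1 = n by rw [hn']]
      field_simp
      ring
    rw [e]
    exact (coef_PI p hp h5 k 1).mul hp key
  · obtain ⟨t, ht⟩ : ∃ t, k = n + t := ⟨k - n, by omega⟩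
    obtain ⟨u, hu⟩ : ∃ u, n = u + t + 1 := ⟨n - t - 1, by omega⟩
    have key := PI_lists p hp _ _ (fun i hi => lvlE_list u t (p ^ i)
      (by have := pow_ge p hp.two_le i hi; omega)
      (Nat.odd_iff.1 ((hp.odd_of_ne_two (by omega)).pow)))
    simp only [List.map_cons, List.map_nil, List.prod_cons, List.prod_nil, mul_one] at key
    have e : 1 / (2 * (n : ℚ) * (2 * n + 1) * ((2 * n).choose n : ℚ)) * Ga n k
        = ((-16 / 3) ^ k * (((-1) ^ (t + 1) : ℤ) / 24)) *
        (((((4 * u + 6 * t + 4).factorial * ((2 * u).factorial *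
        ((t + 1).factorial * (u + t + 1).factorial)) : ℕ)) : ℚ) /
        ((((2 * u + 3 * t + 2).factorial * (u.factorial * (u.factorial *
          ((2 * u + 2 * t + 3).factorial * ((2 * t + 2).factorial * (u + t).factorial)))) : ℕ)) : ℚ)) := by
      unfold Ga
      rw [show (n : ℤ) - k - 1 = -((t + 1 : ℕ) : ℤ) by omega,
        show (n : ℤ) + k = ((2 * u + 3 * t + 2 : ℕ) : ℤ) by omega,
        show 2 * (n : ℤ) - k - 1 = (u : ℤ) by omega, g_nat, g_nat, g_neg, rf_nat,
        choose_two, show 2 * (2 * u + 3 * t + 2) = 4 * u + 6 * t + 4 by ring,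
        show 2 * (t + 1) = 2 * t + 2 by ring,
        show 2 * u + 2 * t + 3 = 2 * n + 1 by omega, show u + t + 1 = (u + t) + 1 by ring]
      push_cast
      rw [f1 (2 * n), f1 (u + t)]
      have hn' : (n : ℚ) = u + t + 1 := by rw [hu]; push_cast; ring
      have a1 := fne u
      have a2 := fne (2 * n)
      have a3 := fne (2 * u + 3 * t + 2)
      have a4 := fne (2 * t + 2)
      have a5 := fne n
      have a6 := fne (u + t)
      push_cast
      rw [show (u : ℚ) + t + 1 = n by rw [hn']]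
      field_simp
      ring
    rw [e]
    exact (coef_PI p hp h5 k _).mul hp key

/-- levels of the prime three, first case -/
theorem three_A (r k i : ℕ) (hi : 1 ≤ i) :
    (([2 * r + 6 * k + 6, r + 4 * k + 3, r + 2 * k + 2, r + 2 * k + 2, r] : List ℕ).map
      (fun a => a / 3 ^ i)).sum
    ≤ (([2 * r + 8 * k + 6, r + 3 * k + 3, r + 3 * k + 3, 2 * r, 6 * k, 3] : List ℕ).map
      (fun a => a / 3 ^ i)).sum := by
  rcases Nat.eq_or_lt_of_le hi with h | h
  · subst h
    simp only [List.map_cons, List.map_nil, List.sum_cons, List.sum_nil, pow_one]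
    obtain ⟨x, s, hs, rfl⟩ : ∃ x s, s < 3 ∧ r = 3 * x + s := ⟨r / 3, r % 3, by omega, by omega⟩
    obtain ⟨y, t, ht, rfl⟩ : ∃ y t, t < 3 ∧ k = 3 * y + t := ⟨k / 3, k % 3, by omega, by omega⟩
    interval_cases s <;> interval_cases t <;> omega
  · have h9 : 9 ≤ 3 ^ i := by
      calc 9 = 3 ^ 2 := by norm_num
        _ ≤ 3 ^ i := Nat.pow_le_pow_right (by norm_num) h
    have h1 := lvlA_list r k (3 ^ i) h9
    simp only [List.map_cons, List.map_nil, List.sum_cons, List.sum_nil] at h1 ⊢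
    have h2 := Nat.zero_le (3 / 3 ^ i)
    omega

theorem three_B (r k i : ℕ) (hi : 1 ≤ i) :
    (([6 * r + 2 * k + 2, 4 * r + 2 * k + 1, 2 * r, 2 * r, 4 * k + 4] : List ℕ).map
      (fun a => a / 3 ^ i)).sum
    ≤ (([8 * r + 4 * k + 2, 3 * r + k + 1, 3 * r + k + 1, 2 * k + 2, 6 * r + 6 * k, 3] :
      List ℕ).map (fun a => a / 3 ^ i)).sum := by
  rcases Nat.eq_or_lt_of_le hi with h | h
  · subst h
    simp only [List.map_cons, List.map_nil, List.sum_cons, List.sum_nil, pow_one]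
    obtain ⟨x, s, hs, rfl⟩ : ∃ x s, s < 3 ∧ r = 3 * x + s := ⟨r / 3, r % 3, by omega, by omega⟩
    obtain ⟨y, t, ht, rfl⟩ : ∃ y t, t < 3 ∧ k = 3 * y + t := ⟨k / 3, k % 3, by omega, by omega⟩
    interval_cases s <;> interval_cases t <;> omega
  · have h9 : 9 ≤ 3 ^ i := by
      calc 9 = 3 ^ 2 := by norm_num
        _ ≤ 3 ^ i := Nat.pow_le_pow_right (by norm_num) h
    have h1 := lvlB_list r k (3 ^ i) h9
    simp only [List.map_cons, List.map_nil, List.sum_cons, List.sum_nil] at h1 ⊢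
    have h2 := Nat.zero_le (3 / 3 ^ i)
    omega

theorem three_C (r k i : ℕ) (hi : 1 ≤ i) :
    (([6 * r + 2 * k + 4, 4 * r + 2 * k + 2, 2 * r + 1, 2 * r + 1, 4 * k + 2] : List ℕ).map
      (fun a => a / 3 ^ i)).sum
    ≤ (([8 * r + 4 * k + 4, 3 * r + k + 2, 3 * r + k + 2, 2 * k + 1, 6 * r + 6 * k, 3] :
      List ℕ).map (fun a => a / 3 ^ i)).sum := by
  rcases Nat.eq_or_lt_of_le hi with h | h
  · subst h
    simp only [List.map_cons, List.map_nil, List.sum_cons, List.sum_nil, pow_one]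
    obtain ⟨x, s, hs, rfl⟩ : ∃ x s, s < 3 ∧ r = 3 * x + s := ⟨r / 3, r % 3, by omega, by omega⟩
    obtain ⟨y, t, ht, rfl⟩ : ∃ y t, t < 3 ∧ k = 3 * y + t := ⟨k / 3, k % 3, by omega, by omega⟩
    interval_cases s <;> interval_cases t <;> omega
  · have h9 : 9 ≤ 3 ^ i := by
      calc 9 = 3 ^ 2 := by norm_num
        _ ≤ 3 ^ i := Nat.pow_le_pow_right (by norm_num) h
    have h1 := lvlC_list r k (3 ^ i) h9
    simp only [List.map_cons, List.map_nil, List.sum_cons, List.sum_nil] at h1 ⊢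
    have h2 := Nat.zero_le (3 / 3 ^ i)
    omega

theorem cat_PI (p : ℕ) (hp : p.Prime) (n : ℕ) :
    PI p (((4 * n).factorial : ℚ) / (((2 * n).factorial : ℚ) * ((2 * n + 1).factorial : ℚ))) := by
  have key := PI_lists p hp _ _ (fun i hi => lvlH_list n 0 (p ^ i)
      (by have := pow_ge p hp.two_le i hi; have := hp.two_le; omega))
  simp only [List.map_cons, List.map_nil, List.prod_cons, List.prod_nil, mul_one] at key
  push_cast at key
  exact key

/-- the essential part of the terms of the second expansion -/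
def Qb (n k : ℕ) : ℚ :=
  g (n - 3 * k - 3) * g (n + k) * rf (n - k - 1) ^ 2 * (n.factorial : ℚ) ^ 2 /
    ((2 * n).factorial : ℚ)

theorem Tb_eq (n k : ℕ) (hn : n ≠ 0) :
    1 / (2 * (n : ℚ) * (2 * n + 1) * ((2 * n).choose n : ℚ)) * Gb n k
      = ((((-16) ^ k : ℤ) : ℚ) * (1 / ((2 : ℕ) : ℚ)) * (((4 * n).factorial : ℚ) /
        (((2 * n).factorial : ℚ) * ((2 * n + 1).factorial : ℚ)))) *
        ((4 * n - 1) * (27 ^ k * Qb n k)) := by
  unfold Gb Qb
  rw [choose_two, f1 (2 * n), show (-432 : ℚ) = (-16) * 27 by norm_num, mul_pow]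
  have a1 := fne (2 * n)
  have a2 := fne n
  have hnn : (n : ℚ) ≠ 0 := by exact_mod_cast hn
  have b1 : 2 * (n : ℚ) + 1 ≠ 0 := by positivity
  push_cast
  field_simp

theorem front_PI (n k : ℕ) : PI 3 ((((-16) ^ k : ℤ) : ℚ) * (1 / ((2 : ℕ) : ℚ)) *
    (((4 * n).factorial : ℚ) / (((2 * n).factorial : ℚ) * ((2 * n + 1).factorial : ℚ)))) :=
  ((PI.int Nat.prime_three _).mul Nat.prime_three (PI.inv (by norm_num))).mul Nat.prime_three
    (cat_PI 3 Nat.prime_three n)

theorem Qb_PI (n k : ℕ) (hk : k < n) : PI 3 (6 * ((6 * k).factorial : ℚ) * Qb n k) := by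
  have hp := Nat.prime_three
  rcases Nat.lt_or_ge n (3 * k + 3) with h | h
  · obtain ⟨m, hm | hm⟩ : ∃ m, n - k - 1 = 2 * m ∨ n - k - 1 = 2 * m + 1 :=
      ⟨(n - k - 1) / 2, by omega⟩
    · obtain ⟨t, ht⟩ : ∃ t, k = m + t := ⟨k - m, by omega⟩
      have hn : n = 3 * m + t + 1 := by omega
      have key := PI_lists 3 hp _ _ (fun i hi => three_B m t i hi)
      simp only [List.map_cons, List.map_nil, List.prod_cons, List.prod_nil, mul_one,
        show Nat.factorial 3 = 6 from rfl] at key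
      have e : 6 * ((6 * k).factorial : ℚ) * Qb n k = (((8 * m + 4 * t + 2).factorial *
          ((3 * m + t + 1).factorial * ((3 * m + t + 1).factorial * ((2 * t + 2).factorial *
          ((6 * m + 6 * t).factorial * 6)))) : ℕ) : ℚ) /
          (((6 * m + 2 * t + 2).factorial * ((4 * m + 2 * t + 1).factorial *
          ((2 * m).factorial * ((2 * m).factorial * (4 * t + 4).factorial))) : ℕ) : ℚ) := by
        unfold Qb
        rw [show (n : ℤ) - 3 * k - 3 = -((2 * t + 2 : ℕ) : ℤ) by omega,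
          show (n : ℤ) + k = ((4 * m + 2 * t + 1 : ℕ) : ℤ) by omega,
          show (n : ℤ) - k - 1 = ((2 * m : ℕ) : ℤ) by omega, g_nat, g_neg, rf_nat,
          show 2 * (4 * m + 2 * t + 1) = 8 * m + 4 * t + 2 by ring,
          show 2 * (2 * t + 2) = 4 * t + 4 by ring, show 6 * k = 6 * m + 6 * t by omega,
          show 2 * n = 6 * m + 2 * t + 2 by omega, hn, show (-1 : ℚ) ^ (2 * t + 2) = 1 by
            rw [show 2 * t + 2 = 2 * (t + 1) by ring, pow_mul]; norm_num]
        have a1 := fne (6 * m + 2 * t + 2)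
        have a2 := fne (4 * m + 2 * t + 1)
        have a3 := fne (2 * m)
        have a4 := fne (4 * t + 4)
        push_cast
        field_simp
      rw [e]
      exact key
    · obtain ⟨t, ht⟩ : ∃ t, k = m + t := ⟨k - m, by omega⟩
      have hn : n = 3 * m + t + 2 := by omega
      have key := PI_lists 3 hp _ _ (fun i hi => three_C m t i hi)
      simp only [List.map_cons, List.map_nil, List.prod_cons, List.prod_nil, mul_one,
        show Nat.factorial 3 = 6 from rfl] at key
      have e : 6 * ((6 * k).factorial : ℚ) * Qb n k = -((((8 * m + 4 * t + 4).factorial *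
          ((3 * m + t + 2).factorial * ((3 * m + t + 2).factorial * ((2 * t + 1).factorial *
          ((6 * m + 6 * t).factorial * 6)))) : ℕ) : ℚ) /
          (((6 * m + 2 * t + 4).factorial * ((4 * m + 2 * t + 2).factorial *
          ((2 * m + 1).factorial * ((2 * m + 1).factorial * (4 * t + 2).factorial))) : ℕ) : ℚ)) := by
        unfold Qb
        rw [show (n : ℤ) - 3 * k - 3 = -((2 * t + 1 : ℕ) : ℤ) by omega,
          show (n : ℤ) + k = ((4 * m + 2 * t + 2 : ℕ) : ℤ) by omega,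
          show (n : ℤ) - k - 1 = ((2 * m + 1 : ℕ) : ℤ) by omega, g_nat, g_neg, rf_nat,
          show 2 * (4 * m + 2 * t + 2) = 8 * m + 4 * t + 4 by ring,
          show 2 * (2 * t + 1) = 4 * t + 2 by ring, show 6 * k = 6 * m + 6 * t by omega,
          show 2 * n = 6 * m + 2 * t + 4 by omega, hn, show (-1 : ℚ) ^ (2 * t + 1) = -1 by
            rw [pow_succ, pow_mul]; norm_num]
        have a1 := fne (6 * m + 2 * t + 4)
        have a2 := fne (4 * m + 2 * t + 2)
        have a3 := fne (2 * m + 1)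
        have a4 := fne (4 * t + 2)
        push_cast
        field_simp
      rw [e]
      exact key.neg
  · obtain ⟨r, hr⟩ : ∃ r, n = 3 * k + 3 + r := ⟨n - 3 * k - 3, by omega⟩
    have key := PI_lists 3 hp _ _ (fun i hi => three_A r k i hi)
    simp only [List.map_cons, List.map_nil, List.prod_cons, List.prod_nil, mul_one,
        show Nat.factorial 3 = 6 from rfl] at key
    have e : 6 * ((6 * k).factorial : ℚ) * Qb n k = (((2 * r + 8 * k + 6).factorial *
          ((r + 3 * k + 3).factorial * ((r + 3 * k + 3).factorial * ((2 * r).factorial *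
          ((6 * k).factorial * 6)))) : ℕ) : ℚ) /
          (((2 * r + 6 * k + 6).factorial * ((r + 4 * k + 3).factorial *
          ((r + 2 * k + 2).factorial * ((r + 2 * k + 2).factorial * r.factorial))) : ℕ) : ℚ) := by
      unfold Qb
      rw [show (n : ℤ) - 3 * k - 3 = (r : ℤ) by omega,
          show (n : ℤ) + k = ((r + 4 * k + 3 : ℕ) : ℤ) by omega,
          show (n : ℤ) - k - 1 = ((r + 2 * k + 2 : ℕ) : ℤ) by omega, g_nat, g_nat, rf_nat,
          show 2 * (r + 4 * k + 3) = 2 * r + 8 * k + 6 by ring,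
          show 2 * n = 2 * r + 6 * k + 6 by omega, show n = r + 3 * k + 3 by omega]
      have a1 := fne (2 * r + 6 * k + 6)
      have a2 := fne (r + 4 * k + 3)
      have a3 := fne (r + 2 * k + 2)
      have a4 := fne r
      push_cast
      field_simp
    rw [e]
    exact key

theorem Tb_PI (n k : ℕ) (hk : k < n) (h1 : 1 ≤ k) :
    PI 3 (1 / (2 * (n : ℚ) * (2 * n + 1) * ((2 * n).choose n : ℚ)) * Gb n k) := by
  have hp := Nat.prime_three
  rw [Tb_eq n k (by omega)]
  refine (front_PI n k).mul hp ?_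
  have e : (4 * (n : ℚ) - 1) * (27 ^ k * Qb n k) = (((4 * n - 1 : ℤ)) : ℚ) *
      ((27 ^ k / (6 * ((6 * k).factorial : ℚ))) * (6 * ((6 * k).factorial : ℚ) * Qb n k)) := by
    have a1 := fne (6 * k)
    push_cast
    field_simp
  rw [e]
  exact (PI.int hp _).mul hp ((PI_27 k h1).mul hp (Qb_PI n k hk))

theorem Tb_zero_PI (n : ℕ) (hn : 2 ≤ n) :
    PI 3 (1 / (2 * (n : ℚ) * (2 * n + 1) * ((2 * n).choose n : ℚ)) * Gb n 0) := by
  have hp := Nat.prime_three
  rw [Tb_eq n 0 (by omega)]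
  refine (front_PI n 0).mul hp ?_
  rcases Nat.eq_or_lt_of_le hn with rfl | h
  · have e : (4 * ((2 : ℕ) : ℚ) - 1) * (27 ^ 0 * Qb 2 0) = ((-7 : ℤ) : ℚ) := by
      unfold Qb
      rw [show ((2 : ℕ) : ℤ) - 3 * ((0 : ℕ) : ℤ) - 3 = -((1 : ℕ) : ℤ) by norm_num,
        show ((2 : ℕ) : ℤ) + ((0 : ℕ) : ℤ) = ((2 : ℕ) : ℤ) by norm_num,
        show ((2 : ℕ) : ℤ) - ((0 : ℕ) : ℤ) - 1 = ((1 : ℕ) : ℤ) by norm_num, g_neg, g_nat, rf_nat]
      norm_num [Nat.factorial]
    rw [e]
    exact PI.int hp _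
  · obtain ⟨m, rfl⟩ : ∃ m, n = m + 3 := ⟨n - 3, by omega⟩
    have hw := Q266.FacDvd.fac_dvd _ _ (fun q hq => lvlG_list m 0 q hq)
    simp only [List.map_cons, List.map_nil, List.prod_cons, List.prod_nil, mul_one,
      show Nat.factorial 3 = 6 from rfl] at hw
    obtain ⟨w, hw⟩ := hw
    have hw' : ((2 * m).factorial : ℚ) * 6 = (m.factorial : ℚ) * ((m + 2).factorial : ℚ) * w := by
      exact_mod_cast hw
    have hc : (m.factorial : ℚ) * ((m + 1).factorial : ℚ) * (catalan m : ℚ)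
        = ((2 * m).factorial : ℚ) := by
      have h3 := succ_mul_catalan_eq_centralBinom m
      rw [Nat.centralBinom_eq_two_mul_choose] at h3
      have h4 : ((m : ℚ) + 1) * (catalan m : ℚ) = ((2 * m).choose m : ℚ) := by exact_mod_cast h3
      rw [f1, choose_two] at *
      have a1 := fne m
      rw [eq_div_iff (pow_ne_zero 2 a1)] at h4
      linear_combination h4
    have hd : (3 : ℤ) ∣ (4 * (m + 3) - 1) * (m + 3) * w := by
      have h5 : (m + 2) * w = 6 * catalan m := by
        have h6 : ((m : ℚ) + 2) * w = 6 * (catalan m : ℚ) := by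
          have a1 := fne m
          have a2 := fne (m + 1)
          have h7 : ((m + 2).factorial : ℚ) = (m + 2) * (m + 1).factorial := by
            rw [f1 (m + 1)]; push_cast; ring
          rw [h7, ← hc] at hw'
          refine mul_left_cancel₀ (mul_ne_zero a1 a2) ?_
          linear_combination (-1) * hw'
        exact_mod_cast h6
      rcases (by omega : m % 3 = 0 ∨ m % 3 = 1 ∨ m % 3 = 2) with h8 | h8 | h8
      · exact Dvd.dvd.mul_right (Dvd.dvd.mul_left (by omega) _) _
      · exact Dvd.dvd.mul_right (Dvd.dvd.mul_right (by omega) _) _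
      · have h9 : 3 ∣ (m + 2) * w := ⟨2 * catalan m, by rw [h5]; ring⟩
        rcases (Nat.Prime.dvd_mul Nat.prime_three).1 h9 with h10 | h10
        · omega
        · exact Dvd.dvd.mul_left (by exact_mod_cast h10) _
    obtain ⟨d, hd⟩ := hd
    have e : (4 * ((m + 3 : ℕ) : ℚ) - 1) * (27 ^ 0 * Qb (m + 3) 0) = (d : ℚ) * (1 / ((2 : ℕ) : ℚ)) := by
      have hd' : (4 * ((m : ℚ) + 3) - 1) * (m + 3) * w = 3 * d := by exact_mod_cast hd
      unfold Qb
      rw [show ((m + 3 : ℕ) : ℤ) - 3 * ((0 : ℕ) : ℤ) - 3 = (m : ℤ) by push_cast; ring,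
        show ((m + 3 : ℕ) : ℤ) + ((0 : ℕ) : ℤ) = ((m + 3 : ℕ) : ℤ) by push_cast; ring,
        show ((m + 3 : ℕ) : ℤ) - ((0 : ℕ) : ℤ) - 1 = ((m + 2 : ℕ) : ℤ) by push_cast; ring,
        g_nat, g_nat, rf_nat, show m + 3 = m + 2 + 1 by ring, f1 (m + 2)]
      have a1 := fne m
      have a2 := fne (m + 2)
      have a3 := fne (2 * (m + 2 + 1))
      have hw2 : ((2 * m).factorial : ℚ) = (m.factorial : ℚ) * ((m + 2).factorial : ℚ) * w / 6 := by
        linear_combination (1 / 6) * hw'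
      rw [hw2]
      push_cast
      have b1 : (m : ℚ) + 2 + 1 ≠ 0 := by positivity
      field_simp
      linear_combination 2 * hd'
    rw [e]
    exact (PI.int hp _).mul hp (PI.inv (by norm_num))

end Q277.Ram28k3
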