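import Mathlib
import Pool.Agent.Q277.FacTools

/-!
Telescoping pair for the sums of `(35k+8) (4k)!/k!^4 81^(n-1-k)`.
-/

namespace Q277.Ram35k8

open Finset Q277.FacTools

/-- first member of the pair -/
noncomputable def F (n k : ℕ) : ℚ :=
  if n = 0 then 8 else
  if 2 * k ≤ n then
    (-9) ^ k * (4 * (35 * n ^ 2 + (8 - 35 * k) * n + (2 * k ^ 2 - 4 * k))) *
    ((4 * n - 2 * k - 1).factorial : ℚ) /
    (((n - 2 * k).factorial : ℚ) * ((n - k).factorial : ℚ) * (n.factorial : ℚ) *
      ((n + k).factorial : ℚ))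
  else 0

/-- second member of the pair -/
noncomputable def G (n k : ℕ) : ℚ :=
  if 2 * k + 1 ≤ n then
    (-9) ^ k * (5 * n - 4 * k - 3) * (4 * n) * ((4 * n - 2 * k - 3).factorial : ℚ) /
    (((n - 2 * k - 1).factorial : ℚ) * ((n - k - 1).factorial : ℚ) * ((n + k).factorial : ℚ) *
      (n.factorial : ℚ))
  else 0

theorem G_r (n r k : ℕ) (hn : n = 2 * k + 1 + r) : G n k =
    (-9) ^ k * (6 * k + 5 * r + 2) * (4 * n) * ((6 * k + 4 * r + 1).factorial : ℚ) /
    ((r.factorial : ℚ) * ((k + r).factorial : ℚ) * ((3 * k + r + 1).factorial : ℚ) *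
      (n.factorial : ℚ)) := by
  unfold G
  rw [if_pos (by omega)]
  rw [show n - 2 * k - 1 = r by omega, show n - k - 1 = k + r by omega,
    show 4 * n - 2 * k - 3 = 6 * k + 4 * r + 1 by omega, show n + k = 3 * k + r + 1 by omega]
  have hn' : (n : ℚ) = 2 * k + 1 + r := by rw [hn]; push_cast; ring
  have e1 : 5 * (n : ℚ) - 4 * k - 3 = 6 * k + 5 * r + 2 := by rw [hn']; ring
  rw [e1]

theorem F_r (n s k : ℕ) (hn : n = 2 * k + s) (h0 : n ≠ 0) : F n k =
    (-9) ^ k * (4 * (35 * n ^ 2 + (8 - 35 * k) * n + (2 * k ^ 2 - 4 * k))) *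
    ((6 * k + 4 * s - 1).factorial : ℚ) /
    ((s.factorial : ℚ) * ((k + s).factorial : ℚ) * (n.factorial : ℚ) *
      ((3 * k + s).factorial : ℚ)) := by
  unfold F
  rw [if_neg h0, if_pos (by omega)]
  rw [show n - 2 * k = s by omega, show n - k = k + s by omega, show n + k = 3 * k + s by omega,
    show 4 * n - 2 * k - 1 = 6 * k + 4 * s - 1 by omega]

theorem F_succ (n r k : ℕ) (hn : n = 2 * k + 1 + r) : F n (k + 1) =
    (-9) ^ (k + 1) * (4 * (35 * n ^ 2 + (8 - 35 * (k + 1)) * n + (2 * (k + 1) ^ 2 - 4 * (k + 1)))) *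
    ((6 * k + 4 * r + 1).factorial : ℚ) * r /
    ((r.factorial : ℚ) * ((k + r).factorial : ℚ) * (n.factorial : ℚ) *
      ((3 * k + r + 2).factorial : ℚ)) := by
  match r with
  | 0 =>
    unfold F
    rw [if_neg (by omega), if_neg (by omega)]
    simp
  | s + 1 =>
    rw [F_r n s (k + 1) (by omega) (by omega)]
    rw [show 6 * (k + 1) + 4 * s - 1 = 6 * k + 4 * (s + 1) + 1 by omega,
      show k + 1 + s = k + (s + 1) by ring, show 3 * (k + 1) + s = 3 * k + (s + 1) + 2 by ring, f1 s]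
    have a6 := fne s
    have b2 : (s : ℚ) + 1 ≠ 0 := by positivity
    push_cast
    field_simp

theorem pair (n k : ℕ) (h : k < n) : G (n + 1) k - 81 * G n k = F n k - F n (k + 1) := by
  rcases Nat.lt_or_ge n (2 * k) with h1 | h1
  · unfold F G
    rw [if_neg (by omega), if_neg (by omega), if_neg (by omega), if_neg (by omega),
      if_neg (by omega), if_neg (by omega)]
    simp
  rcases Nat.eq_or_lt_of_le h1 with h2 | h2
  · have e1 : G n k = 0 := by unfold G; rw [if_neg (by omega)]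
    have e2 : F n (k + 1) = 0 := by unfold F; rw [if_neg (by omega), if_neg (by omega)]
    rw [e1, e2, G_r (n + 1) 0 k (by omega), F_r n 0 k (by omega) (by omega)]
    obtain ⟨i, rfl⟩ : ∃ i, k = i + 1 := ⟨k - 1, by omega⟩
    simp only [mul_zero, add_zero, sub_zero, Nat.cast_zero, Nat.factorial_zero]
    rw [show 6 * (i + 1) - 1 = 6 * i + 5 by omega, show 6 * (i + 1) + 1 = 6 * i + 5 + 2 by ring,
      f2 (6 * i + 5), f1 (3 * (i + 1)), f1 n]
    have a1 := fne (6 * i + 5)
    have a2 := fne (3 * (i + 1))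
    have a3 := fne (i + 1)
    have a6 := fne n
    generalize ((6 * i + 5).factorial : ℚ) = x1 at *
    generalize ((3 * (i + 1)).factorial : ℚ) = x2 at *
    generalize ((i + 1).factorial : ℚ) = x3 at *
    generalize (n.factorial : ℚ) = x6 at *
    have hn' : (n : ℚ) = 2 * (i + 1) := by rw [← h2]; push_cast; ring
    push_cast
    rw [hn']
    have b1 : 3 * ((i : ℚ) + 1) + 1 ≠ 0 := by positivity
    have b2 : 2 * ((i : ℚ) + 1) + 1 ≠ 0 := by positivity
    field_simp
    ring
  · obtain ⟨r, hr⟩ : ∃ r, n = 2 * k + 1 + r := ⟨n - 2 * k - 1, by omega⟩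
    rw [G_r (n + 1) (r + 1) k (by omega), G_r n r k hr, F_r n (r + 1) k (by omega) (by omega),
      F_succ n r k hr]
    rw [show 6 * k + 4 * (r + 1) + 1 = 6 * k + 4 * r + 1 + 4 by ring,
      show 6 * k + 4 * (r + 1) - 1 = 6 * k + 4 * r + 1 + 2 by omega,
      show k + (r + 1) = k + r + 1 by ring,
      show 3 * k + (r + 1) + 1 = 3 * k + r + 1 + 1 by ring,
      show 3 * k + (r + 1) = 3 * k + r + 1 by ring, show 3 * k + r + 2 = 3 * k + r + 1 + 1 by ring,
      f1 (3 * k + r + 1), f1 n, f4 (6 * k + 4 * r + 1), f2 (6 * k + 4 * r + 1), f1 (k + r), f1 r]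
    have a1 := fne (6 * k + 4 * r + 1)
    have a2 := fne (3 * k + r + 1)
    have a3 := fne (k + r)
    have a4 := fne r
    have a5 := fne n
    generalize ((6 * k + 4 * r + 1).factorial : ℚ) = x1 at *
    generalize ((3 * k + r + 1).factorial : ℚ) = x2 at *
    generalize ((k + r).factorial : ℚ) = x3 at *
    generalize (r.factorial : ℚ) = x4 at *
    generalize (n.factorial : ℚ) = x5 at *
    have hn' : (n : ℚ) = 2 * k + 1 + r := by rw [hr]; push_cast; ring
    push_cast
    rw [hn']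
    have b1 : 3 * (k : ℚ) + r + 1 + 1 ≠ 0 := by positivity
    have b2 : 2 * (k : ℚ) + 1 + r + 1 ≠ 0 := by positivity
    have b3 : (k : ℚ) + r + 1 ≠ 0 := by positivity
    have b4 : (r : ℚ) + 1 ≠ 0 := by positivity
    rw [pow_succ]
    field_simp
    ring

theorem corner (n : ℕ) : G (n + 1) n = F n n := by
  rcases Nat.eq_zero_or_pos n with rfl | hn
  · unfold F G
    norm_num
  · unfold F G
    rw [if_neg (by omega), if_neg (by omega), if_neg (by omega)]

end Q277.Ram35k8
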