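import Mathlib
import Pool.Agent.Q277.GTools
import Pool.Agent.H434R2.ElevenG

/-!
A telescoping pair for the sums of `(42k+5) C(2k,k)^3 4096^(n-1-k)` and the product form of the members of
the single sum for `n = (P+1)/2`.
-/

namespace Q277.Ram42

open Finset Q277.FacTools Q277.GTools Pool.Agent.H434R2

/-- first member of the pair -/
def F (n k : ℕ) : ℚ :=
  (-4) ^ k * (84 * n ^ 2 - 56 * n * k + 4 * k ^ 2 + 52 * n - 12 * k + 5) *
    (g (n - k) ^ 2 * g n * g (n + k) * rf (2 * n - k + 1)) / (n.factorial : ℚ) ^ 2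

/-- second member of the pair -/
def G (n k : ℕ) : ℚ :=
  -(1 / 4) * (-4) ^ k * n ^ 2 *
    (g (n - k - 1) ^ 2 * g n * g (n + k) * rf (2 * n - k - 1)) / (n.factorial : ℚ) ^ 2

theorem pair (n k : ℕ) : G (n + 1) k - 4096 * G n k = F n k - F n (k + 1) := by
  unfold F G
  push_cast
  rw [show (n : ℤ) + 1 - k - 1 = n - k by ring, show (n : ℤ) + 1 + k = n + k + 1 by ring,
    show 2 * ((n : ℤ) + 1) - k - 1 = 2 * n - k + 1 by ring,
    show (n : ℤ) - (k + 1) = n - k - 1 by ring, show (n : ℤ) + (k + 1) = n + k + 1 by ring,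
    show 2 * (n : ℤ) - (k + 1) + 1 = 2 * n - k by ring]
  have e1 : g ((n : ℤ) - k) = 2 * (2 * (n - k - 1) + 1) * g ((n : ℤ) - k - 1) := by
    have h := g_succ ((n : ℤ) - k - 1)
    rw [show (n : ℤ) - k - 1 + 1 = n - k by ring] at h
    push_cast at h
    exact h
  have e2 : g ((n : ℤ) + k + 1) = 2 * (2 * (n + k) + 1) * g ((n : ℤ) + k) := by
    have h := g_succ ((n : ℤ) + k)
    push_cast at h
    exact h
  have e3 : g ((n : ℤ) + 1) = 2 * (2 * n + 1) * g (n : ℤ) := by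
    have h := g_succ (n : ℤ)
    push_cast at h
    exact h
  have e5 : rf (2 * (n : ℤ) - k) = (2 * n - k + 1) * rf (2 * (n : ℤ) - k + 1) := by
    have h := rf_pred (2 * (n : ℤ) - k)
    push_cast at h
    exact h
  have e6 : rf (2 * (n : ℤ) - k - 1) = (2 * n - k - 1 + 1) * rf (2 * (n : ℤ) - k) := by
    have h := rf_pred (2 * (n : ℤ) - k - 1)
    rw [show 2 * (n : ℤ) - k - 1 + 1 = 2 * n - k by ring] at h
    push_cast at h
    exact h
  rw [e1, e2, e3, e6, e5, f1 n, pow_succ (-4 : ℚ) k]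
  have a1 := fne n
  have b1 : (n : ℚ) + 1 ≠ 0 := by positivity
  generalize g ((n : ℤ) - k - 1) = x
  generalize g ((n : ℤ) + k) = y
  generalize g (n : ℤ) = z
  generalize rf (2 * (n : ℤ) - k + 1) = w
  generalize (n.factorial : ℚ) = f at *
  generalize (-4 : ℚ) ^ k = q
  field_simp
  ring

theorem F_zero (n : ℕ) : F n 0 = (42 * n + 5) * ((2 * n).choose n : ℚ) ^ 3 := by
  unfold F
  have hc : ((2 * n).choose n : ℚ) = ((2 * n).factorial : ℚ) / ((n.factorial : ℚ) * (n.factorial : ℚ)) := by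
    rw [Nat.cast_choose ℚ (by omega), show 2 * n - n = n by omega]
  have h1 : g ((n : ℤ) - (0 : ℕ)) = ((2 * n).factorial : ℚ) / (n.factorial : ℚ) := by
    rw [show (n : ℤ) - (0 : ℕ) = (n : ℤ) by simp, g_nat]
  have h2 : g ((n : ℤ) + (0 : ℕ)) = ((2 * n).factorial : ℚ) / (n.factorial : ℚ) := by
    rw [show (n : ℤ) + (0 : ℕ) = (n : ℤ) by simp, g_nat]
  have h3 : rf (2 * (n : ℤ) - (0 : ℕ) + 1) = 1 / ((2 * n + 1).factorial : ℚ) := by
    rw [show 2 * (n : ℤ) - (0 : ℕ) + 1 = ((2 * n + 1 : ℕ) : ℤ) by push_cast; ring, rf_nat]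
  rw [h1, h2, h3, g_nat, hc, f1 (2 * n)]
  have a1 := fne n
  have a2 := fne (2 * n)
  have b1 : 2 * (n : ℚ) + 1 ≠ 0 := by positivity
  push_cast
  field_simp
  ring

/-- the single sum -/
theorem single (n : ℕ) : ∑ k ∈ range (2 * n), G n k
    = ∑ j ∈ range n, 4096 ^ (n - 1 - j) * ((42 * (j : ℚ) + 5) * ((2 * j).choose j : ℚ) ^ 3) := by
  have h := wz_sum' F G 4096 (fun n => 2 * n) rfl pair (fun n => ?_) (fun n => by simp)
    (fun n k hk => ?_) n
  · rw [h]
    exact sum_congr rfl fun j _ => by rw [F_zero]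
  · unfold F
    rw [rf_neg (2 * (n : ℤ) - ((2 * (n + 1) : ℕ) : ℤ) + 1) (by push_cast; omega)]
    simp
  · unfold G
    have hk' : 2 * n ≤ k := hk
    rw [rf_neg (2 * (n : ℤ) - (k : ℤ) - 1) (by omega)]
    simp

/-- step in `k` for `n + 1` -/
theorem G_step (n k : ℕ) : G (n + 1) (k + 1) * (2 * (n : ℚ) - 2 * k - 1) ^ 2
    = -2 * (2 * n + 2 * k + 3) * (2 * n + 1 - k) * G (n + 1) k := by
  unfold G
  push_cast
  rw [show (n : ℤ) + 1 - (k + 1) - 1 = n - k - 1 by ring, show (n : ℤ) + 1 - k - 1 = n - k by ring,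
    show (n : ℤ) + 1 + (k + 1) = n + 1 + k + 1 by ring,
    show 2 * ((n : ℤ) + 1) - (k + 1) - 1 = 2 * n - k by ring,
    show 2 * ((n : ℤ) + 1) - k - 1 = 2 * n - k + 1 by ring]
  have e1 : g ((n : ℤ) - k) = 2 * (2 * (n - k - 1) + 1) * g ((n : ℤ) - k - 1) := by
    have h := g_succ ((n : ℤ) - k - 1)
    rw [show (n : ℤ) - k - 1 + 1 = n - k by ring] at h
    push_cast at h
    exact h
  have e2 : g ((n : ℤ) + 1 + k + 1) = 2 * (2 * (n + 1 + k) + 1) * g ((n : ℤ) + 1 + k) := by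
    have h := g_succ ((n : ℤ) + 1 + k)
    push_cast at h
    exact h
  have e5 : rf (2 * (n : ℤ) - k) = (2 * n - k + 1) * rf (2 * (n : ℤ) - k + 1) := by
    have h := rf_pred (2 * (n : ℤ) - k)
    push_cast at h
    exact h
  rw [e1, e2, e5, pow_succ (-4 : ℚ) k]
  ring

theorem G_zero (n : ℕ) : G (n + 1) 0 = -(2 * (n : ℚ) + 1) * ((2 * n).choose n : ℚ) ^ 3 := by
  unfold G
  have hc : ((2 * n).choose n : ℚ) = ((2 * n).factorial : ℚ) / ((n.factorial : ℚ) * (n.factorial : ℚ)) := by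
    rw [Nat.cast_choose ℚ (by omega), show 2 * n - n = n by omega]
  have h1 : g (((n + 1 : ℕ) : ℤ) - (0 : ℕ) - 1) = ((2 * n).factorial : ℚ) / (n.factorial : ℚ) := by
    rw [show ((n + 1 : ℕ) : ℤ) - (0 : ℕ) - 1 = (n : ℤ) by push_cast; ring, g_nat]
  have h2 : g (((n + 1 : ℕ) : ℤ) + (0 : ℕ)) = ((2 * n + 2).factorial : ℚ) / ((n + 1).factorial : ℚ) := by
    rw [show ((n + 1 : ℕ) : ℤ) + (0 : ℕ) = ((n + 1 : ℕ) : ℤ) by simp, g_nat]
    rfl
  have h2' : g ((n + 1 : ℕ) : ℤ) = ((2 * n + 2).factorial : ℚ) / ((n + 1).factorial : ℚ) := by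
    rw [g_nat]
    rfl
  have h3 : rf (2 * ((n + 1 : ℕ) : ℤ) - (0 : ℕ) - 1) = 1 / ((2 * n + 1).factorial : ℚ) := by
    rw [show 2 * ((n + 1 : ℕ) : ℤ) - (0 : ℕ) - 1 = ((2 * n + 1 : ℕ) : ℤ) by push_cast; ring, rf_nat]
  rw [h1, h2, h2', h3, hc, f1 (2 * n), f2 (2 * n), f1 n]
  have a1 := fne n
  have a2 := fne (2 * n)
  have b1 : 2 * (n : ℚ) + 1 ≠ 0 := by positivity
  have b2 : (n : ℚ) + 1 ≠ 0 := by positivity
  push_cast
  field_simp
  ring

noncomputable def rho (v : ℚ) : ℚ := (1 + v / 2) * (1 - v) / (1 - v / 2) ^ 2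

noncomputable def sig (v : ℚ) : ℚ := v * (1 + v / 2) / (1 - v / 2) ^ 2

theorem half_ne (n i : ℕ) : 1 - vv n i / 2 ≠ 0 := by
  unfold vv
  have h2 : ((i : ℚ) + 1) ≠ 0 := by positivity
  intro h
  field_simp at h
  have h3 : ((2 * (i + 1) : ℕ) : ℚ) = ((2 * n + 1 : ℕ) : ℚ) := by
    push_cast
    linarith
  have h4 : 2 * (i + 1) = 2 * n + 1 := by exact_mod_cast h3
  omega

/-- product form of the members of the single sum -/
theorem G_prod (n k : ℕ) : G (n + 1) (k + 1)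
    = (2 * (n : ℚ) + 1) * ((2 * n).choose n : ℚ) ^ 3 * (sig (vv n k) * ∏ i ∈ range k, rho (vv n i)) := by
  induction k with
  | zero =>
    have h := G_step n 0
    rw [G_zero] at h
    have hne := half_ne n 0
    have h4 : (2 * (n : ℚ) - 1) ≠ 0 := by
      unfold vv at hne
      intro h0
      apply hne
      push_cast
      linarith
    unfold sig vv
    rw [range_zero, prod_empty, mul_one]
    push_cast at h ⊢
    have h5 : 1 - (2 * (n : ℚ) + 1) / (0 + 1) / 2 = -(2 * n - 1) / 2 := by ring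
    rw [h5]
    have h6 : G (n + 1) (0 + 1) = -2 * (2 * n + 3) * (2 * n + 1) * (-(2 * n + 1) * ((2 * n).choose n : ℚ) ^ 3)
        / (2 * (n : ℚ) - 1) ^ 2 := by
      rw [eq_div_iff (pow_ne_zero 2 h4)]
      linear_combination h
    rw [h6]
    field_simp
    ring
  | succ k ih =>
    have h := G_step n (k + 1)
    rw [ih] at h
    have hne := half_ne n k
    have hne1 := half_ne n (k + 1)
    rw [prod_range_succ]
    have hk1 : ((k : ℚ) + 1) ≠ 0 := by positivity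
    have hk2 : ((k : ℚ) + 1 + 1) ≠ 0 := by positivity
    have h4 : (2 * (n : ℚ) - 2 * (k + 1) - 1) ≠ 0 := by
      intro h0
      apply hne1
      unfold vv
      push_cast
      have : 2 * (n : ℚ) + 1 = 2 * (k + 1 + 1) := by linarith
      rw [this]
      field_simp
      ring
    have h6 : G (n + 1) (k + 1 + 1) = -2 * (2 * n + 2 * (k + 1) + 3) * (2 * n + 1 - (k + 1)) *
        ((2 * (n : ℚ) + 1) * ((2 * n).choose n : ℚ) ^ 3 * (sig (vv n k) * ∏ i ∈ range k, rho (vv n i)))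
        / (2 * (n : ℚ) - 2 * (k + 1) - 1) ^ 2 := by
      rw [eq_div_iff (pow_ne_zero 2 h4)]
      push_cast at h
      linear_combination h
    rw [h6]
    have e1 : sig (vv n (k + 1)) * rho (vv n k) = sig (vv n k) * (-2 * (2 * n + 2 * (k + 1) + 3) * (2 * n + 1 - (k + 1)))
        / (2 * (n : ℚ) - 2 * (k + 1) - 1) ^ 2 := by
      have h7 : 1 - vv n (k + 1) / 2 = -(2 * (n : ℚ) - 2 * (k + 1) - 1) / (2 * (k + 1 + 1)) := by
        unfold vv
        push_cast
        field_simp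
        ring
      unfold sig rho
      rw [h7]
      have h8 : vv n (k + 1) = (2 * n + 1) / (k + 1 + 1) := by unfold vv; push_cast; ring
      have h9 : vv n k = (2 * n + 1) / (k + 1) := rfl
      have h10 : (1 - vv n k / 2) ≠ 0 := hne
      rw [h8]
      generalize hD : (1 - vv n k / 2) = D at *
      rw [h9]
      field_simp
      ring
    calc _ = (2 * (n : ℚ) + 1) * ((2 * n).choose n : ℚ) ^ 3 * (∏ i ∈ range k, rho (vv n i)) *
          (sig (vv n k) * (-2 * (2 * n + 2 * (k + 1) + 3) * (2 * n + 1 - (k + 1)))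
        / (2 * (n : ℚ) - 2 * (k + 1) - 1) ^ 2) := by ring
      _ = _ := by rw [← e1]; ring

/-- the sum in product form -/
theorem sum_form (n : ℕ) : ∑ j ∈ range (n + 1), 4096 ^ (n - j) * ((42 * (j : ℚ) + 5) * ((2 * j).choose j : ℚ) ^ 3)
    = (2 * (n : ℚ) + 1) * ((2 * n).choose n : ℚ) ^ 3 *
      (-1 + 6 * ∏ i ∈ range (2 * n), rho (vv n i) +
        ∑ k ∈ range (2 * n), sig (vv n k) * ∏ i ∈ range k, rho (vv n i)) := by
  have h := single (n + 1)
  rw [show 2 * (n + 1) = 2 * n + 1 + 1 by ring, sum_range_succ', G_zero] at h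
  have h1 : ∑ k ∈ range (2 * n + 1), G (n + 1) (k + 1) = (2 * (n : ℚ) + 1) * ((2 * n).choose n : ℚ) ^ 3 *
      ∑ k ∈ range (2 * n + 1), sig (vv n k) * ∏ i ∈ range k, rho (vv n i) := by
    rw [mul_sum]
    exact sum_congr rfl fun k _ => G_prod n k
  rw [h1, sum_range_succ] at h
  have h2 : sig (vv n (2 * n)) = 6 := by
    have : vv n (2 * n) = 1 := by
      unfold vv
      push_cast
      exact div_self (by positivity)
    rw [this]
    unfold sig
    norm_num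
  rw [h2] at h
  have h3 : ∀ j ∈ range (n + 1), (4096 : ℚ) ^ (n - j) * ((42 * (j : ℚ) + 5) * ((2 * j).choose j : ℚ) ^ 3)
      = 4096 ^ (n + 1 - 1 - j) * ((42 * (j : ℚ) + 5) * ((2 * j).choose j : ℚ) ^ 3) := by
    intro j _
    rw [Nat.add_sub_cancel]
  rw [sum_congr rfl h3, ← h]
  ring

end Q277.Ram42
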