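import Mathlib
import Pool.Agent.Q277.Ram42A

/-!
Evaluation modulo `p^4` of the single sum for `(42k+5) C(2k,k)^3 / 4096^k`, `k ≤ (p^a-1)/2`.
-/

set_option linter.unusedSectionVars false

namespace Q277.Ram42

open Finset Pool.Agent.H434R2 PO

section expansions

variable {p : ℕ} [hp : Fact p.Prime] (h2 : p ≠ 2)

include h2

theorem half_PO {v : ℚ} (hv : PO p 1 v) : PO p 1 (v / 2) := by
  rw [div_eq_mul_inv]
  exact hv.mul0' (inv_two h2)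

theorem half_ne' {v : ℚ} (hv : PO p 1 v) : 1 - v / 2 ≠ 0 := one_sub_ne (half_PO h2 hv)

theorem half_inv {v : ℚ} (hv : PO p 1 v) : PO p 0 ((1 - v / 2)⁻¹) := inv_one_sub (half_PO h2 hv)

theorem rho_exp {v : ℚ} (hv : PO p 1 v) : PO p 3 (rho v - 1 - (v / 2 - v ^ 2 / 4)) := by
  have hne := half_ne' h2 hv
  have hi := half_inv h2 hv
  obtain ⟨y, hy⟩ : ∃ y : ℚ, y = (1 - v / 2)⁻¹ := ⟨_, rfl⟩
  have h : y * (1 - v / 2) = 1 := by rw [hy]; exact inv_mul_cancel₀ hne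
  have e : rho v - 1 - (v / 2 - v ^ 2 / 4)
      = v ^ 3 * ((-(3 : ℚ)) * ((2 : ℚ)⁻¹) ^ 3 + v * ((2 : ℚ)⁻¹) ^ 4) * y ^ 2 := by
    have e0 : rho v = (1 + v / 2) * (1 - v) * y ^ 2 := by
      unfold rho
      rw [hy, inv_pow, div_eq_mul_inv]
    rw [e0]
    linear_combination (1 + v / 2 - v ^ 2 / 4) * (y * (1 - v / 2) + 1) * h
  rw [e]
  rw [← hy] at hi
  have i2 := inv_two (p := p) h2
  have c : PO p 0 ((-(3 : ℚ)) * ((2 : ℚ)⁻¹) ^ 3 + v * ((2 : ℚ)⁻¹) ^ 4) :=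
    (((of_ofNat 3).neg).mul0 (i2.pow0 3)).add ((hv.mono (by norm_num)).mul0 (i2.pow0 4))
  exact (((hv.pow 3).mul0' c).mul0' (hi.pow0 2)).mono (by norm_num)

theorem sig_exp {v : ℚ} (hv : PO p 1 v) : PO p 4 (sig v - (v + 3 / 2 * v ^ 2 + 5 / 4 * v ^ 3)) := by
  have hne := half_ne' h2 hv
  have hi := half_inv h2 hv
  obtain ⟨y, hy⟩ : ∃ y : ℚ, y = (1 - v / 2)⁻¹ := ⟨_, rfl⟩
  have h : y * (1 - v / 2) = 1 := by rw [hy]; exact inv_mul_cancel₀ hne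
  have e : sig v - (v + 3 / 2 * v ^ 2 + 5 / 4 * v ^ 3)
      = v ^ 4 * (7 * ((2 : ℚ)⁻¹) ^ 3 - 5 * v * ((2 : ℚ)⁻¹) ^ 4) * y ^ 2 := by
    have e0 : sig v = v * (1 + v / 2) * y ^ 2 := by
      unfold sig
      rw [hy, inv_pow, div_eq_mul_inv]
    rw [e0]
    linear_combination (v + 3 / 2 * v ^ 2 + 5 / 4 * v ^ 3) * (y * (1 - v / 2) + 1) * h
  rw [e]
  rw [← hy] at hi
  have i2 := inv_two (p := p) h2
  have c : PO p 0 (7 * ((2 : ℚ)⁻¹) ^ 3 - 5 * v * ((2 : ℚ)⁻¹) ^ 4) :=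
    ((of_ofNat 7).mul0 (i2.pow0 3)).sub (((of_ofNat 5).mul0 (hv.mono (by norm_num))).mul0 (i2.pow0 4))
  exact (((hv.pow 4).mul0' c).mul0' (hi.pow0 2)).mono (by norm_num)

theorem rho_pair {v : ℚ} (hv : PO p 1 v) :
    PO p 4 (rho v * rho (rfl' v) - 1 - (-(5 / 4) * v ^ 2 - 5 / 4 * v ^ 3)) := by
  have hne := half_ne' h2 hv
  have hi := half_inv h2 hv
  have h1 := one_sub_ne hv
  obtain ⟨y, hy⟩ : ∃ y : ℚ, y = (1 - v / 2)⁻¹ := ⟨_, rfl⟩
  have h : y * (1 - v / 2) = 1 := by rw [hy]; exact inv_mul_cancel₀ hne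
  have e0 : rho (rfl' v) = (1 - 3 * v / 2) * y ^ 2 := by
    unfold rho rfl'
    have h5 : 1 - -v / (1 - v) / 2 = (1 - v / 2) / (1 - v) := by
      rw [eq_div_iff h1]
      field_simp
      ring
    rw [h5, hy, inv_pow, div_pow]
    rw [div_div_eq_mul_div, div_eq_mul_inv]
    have h6 : (1 + -v / (1 - v) / 2) * (1 - -v / (1 - v)) * (1 - v) ^ 2 = 1 - 3 * v / 2 := by
      field_simp
      ring
    rw [h6]
  have e1 : rho v = (1 + v / 2) * (1 - v) * y ^ 2 := by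
    unfold rho
    rw [hy, inv_pow, div_eq_mul_inv]
  have e : rho v * rho (rfl' v) - 1 - (-(5 / 4) * v ^ 2 - 5 / 4 * v ^ 3)
      = v ^ 4 * (-11 * ((2 : ℚ)⁻¹) ^ 4 + 20 * v * ((2 : ℚ)⁻¹) ^ 4 - 35 * v ^ 2 * ((2 : ℚ)⁻¹) ^ 6
        + 5 * v ^ 3 * ((2 : ℚ)⁻¹) ^ 6) * y ^ 4 := by
    rw [e0, e1]
    linear_combination (1 - (5 / 4) * v ^ 2 - 5 / 4 * v ^ 3) * (y * (1 - v / 2) + 1)
      * ((y * (1 - v / 2)) ^ 2 + 1) * h
  rw [e]
  rw [← hy] at hi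
  have i2 := inv_two (p := p) h2
  have v0 : PO p 0 v := hv.mono (by norm_num)
  have c : PO p 0 (-11 * ((2 : ℚ)⁻¹) ^ 4 + 20 * v * ((2 : ℚ)⁻¹) ^ 4 - 35 * v ^ 2 * ((2 : ℚ)⁻¹) ^ 6
        + 5 * v ^ 3 * ((2 : ℚ)⁻¹) ^ 6) := by
    have c1 : PO p 0 (-11 * ((2 : ℚ)⁻¹) ^ 4) := ((of_ofNat 11).neg).mul0 (i2.pow0 4)
    have c2 : PO p 0 (20 * v * ((2 : ℚ)⁻¹) ^ 4) := ((of_ofNat 20).mul0 v0).mul0 (i2.pow0 4)
    have c3 : PO p 0 (35 * v ^ 2 * ((2 : ℚ)⁻¹) ^ 6) := ((of_ofNat 35).mul0 (v0.pow0 2)).mul0 (i2.pow0 6)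
    have c4 : PO p 0 (5 * v ^ 3 * ((2 : ℚ)⁻¹) ^ 6) := ((of_ofNat 5).mul0 (v0.pow0 3)).mul0 (i2.pow0 6)
    exact ((c1.add c2).sub c3).add c4
  exact (((hv.pow 4).mul0' c).mul0' (hi.pow0 4)).mono (by norm_num)

/-- the factor of `C(2n,n)/16^n` -/
theorem mu_exp {v : ℚ} (hv : PO p 1 v) :
    PO p 4 ((1 - v / 2) ^ 2 / (1 - v) - 1 - (v ^ 2 / 4 + v ^ 3 / 4)) := by
  have h1 := one_sub_ne hv
  obtain ⟨y, hy⟩ : ∃ y : ℚ, y = (1 - v)⁻¹ := ⟨_, rfl⟩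
  have h : y * (1 - v) = 1 := by rw [hy]; exact inv_mul_cancel₀ h1
  have e : (1 - v / 2) ^ 2 / (1 - v) - 1 - (v ^ 2 / 4 + v ^ 3 / 4) = v ^ 4 * ((2 : ℚ)⁻¹) ^ 2 * y := by
    rw [div_eq_mul_inv, ← hy]
    linear_combination (1 + (v ^ 2 / 4 + v ^ 3 / 4)) * h
  rw [e, hy]
  exact (((hv.pow 4).mul0' ((inv_two h2).pow0 2)).mul0' (inv_one_sub hv)).mono (by norm_num)

end expansions

section sums

variable {p : ℕ} [hp : Fact p.Prime] {n : ℕ} (hv : ∀ i < 2 * n, PO p 1 (vv n i)) (h2 : p ≠ 2)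

include hv

theorem QQ_PO (k : ℕ) : PO p k (QQ n k) := by
  apply PO.sum
  intro i hi
  have := (hv i (by have := mem_range.1 hi; omega)).pow k
  rwa [one_mul] at this

/-- `QQ 1 = -PP 2 - PP 3` -/
theorem QQ1 : PO p 4 (QQ n 1 + PP n 2 + PP n 3) := by
  have e : QQ n 1 + PP n 2 + PP n 3 = ∑ i ∈ range n, (vv n i + rfl' (vv n i) + vv n i ^ 2 + vv n i ^ 3) := by
    unfold QQ PP
    rw [pair_sum, ← sum_add_distrib, ← sum_add_distrib]
    apply Finset.sum_congr rfl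
    intro i hi
    rw [vv_refl n i (by have := mem_range.1 hi; omega), pow_one, pow_one]
  rw [e]
  apply PO.sum
  intro i hi
  have hvi := hv i (by have := mem_range.1 hi; omega)
  have h1 := one_sub_ne hvi
  have e2 : vv n i + rfl' (vv n i) + vv n i ^ 2 + vv n i ^ 3 = vv n i ^ 4 * (-(1 - vv n i)⁻¹) := by
    unfold rfl'
    field_simp
    ring
  rw [e2]
  exact ((hvi.pow 4).mul0' (inv_one_sub hvi).neg).mono (by norm_num)

/-- partial sums -/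
theorem part_PO (k : ℕ) (hk : k ≤ 2 * n) (e : ℕ) : PO p e (∑ i ∈ range k, vv n i ^ e) := by
  apply PO.sum
  intro i hi
  have := (hv i (by have := mem_range.1 hi; omega)).pow e
  rwa [one_mul] at this

theorem part2_PO (k : ℕ) (hk : k ≤ 2 * n) : PO p 2 (∑ j ∈ range k, vv n j * ∑ i ∈ range j, vv n i) := by
  apply PO.sum
  intro j hj
  have hj' := mem_range.1 hj
  have h1 := part_PO hv j (by omega) 1
  simp only [pow_one] at h1
  exact ((hv j (by omega)).mul h1).mono (by norm_num)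

include h2

/-- expansion of the partial products -/
theorem prod_rho (k : ℕ) (hk : k ≤ 2 * n) : PO p 3 (∏ i ∈ range k, rho (vv n i)
    - (1 + (1 / 2 * ∑ i ∈ range k, vv n i - 1 / 4 * ∑ i ∈ range k, vv n i ^ 2)
      + 1 / 4 * ∑ j ∈ range k, vv n j * ∑ i ∈ range j, vv n i)) := by
  induction k with
  | zero => simp [zero]
  | succ k ih =>
    have ih' := ih (by omega)
    have hvk := hv k (by omega)
    have hr := rho_exp h2 hvk
    have s1 := part_PO hv k (by omega) 1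
    simp only [pow_one] at s1
    have s2 := part_PO hv k (by omega) 2
    have s11 := part2_PO hv k (by omega)
    rw [prod_range_succ, sum_range_succ, sum_range_succ, sum_range_succ]
    generalize ∏ i ∈ range k, rho (vv n i) = Pk at *
    generalize ∑ i ∈ range k, vv n i = S1 at *
    generalize ∑ i ∈ range k, vv n i ^ 2 = S2 at *
    generalize ∑ j ∈ range k, vv n j * ∑ i ∈ range j, vv n i = S11 at *
    generalize vv n k = v at *
    generalize rho v = r at *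
    have i2 := inv_two (p := p) h2
    have h12 : PO p 0 (1 / 2 : ℚ) := half h2
    have h14 : PO p 0 (1 / 4 : ℚ) := by
      have : (1 / 4 : ℚ) = ((2 : ℚ)⁻¹) ^ 2 := by norm_num
      rw [this]; exact i2.pow0 2
    have v0 : PO p 0 v := hvk.mono (by norm_num)
    have e : Pk * r - (1 + (1 / 2 * (S1 + v) - 1 / 4 * (S2 + v ^ 2)) + 1 / 4 * (S11 + v * S1))
        = (Pk - (1 + (1 / 2 * S1 - 1 / 4 * S2) + 1 / 4 * S11)) * r
          + (1 + (1 / 2 * S1 - 1 / 4 * S2) + 1 / 4 * S11) * (r - 1 - (v / 2 - v ^ 2 / 4))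
          + ((-(1 / 4)) * S2 + 1 / 4 * S11) * (v / 2 - v ^ 2 / 4) - 1 / 2 * (S1 * (1 / 4 * v ^ 2)) := by
      ring
    rw [e]
    have hvv : PO p 1 (v / 2 - v ^ 2 / 4) := by
      have e1 : v / 2 - v ^ 2 / 4 = v * (1 / 2 - v * (1 / 4)) := by ring
      rw [e1]
      exact hvk.mul0' (h12.sub (v0.mul0 h14))
    have r0 : PO p 0 r := by
      have e1 : r = (r - 1 - (v / 2 - v ^ 2 / 4)) + (1 + (v / 2 - v ^ 2 / 4)) := by ring
      rw [e1]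
      exact (hr.mono (by norm_num)).add (one.add (hvv.mono (by norm_num)))
    have A0 : PO p 0 (1 + (1 / 2 * S1 - 1 / 4 * S2) + 1 / 4 * S11) :=
      (one.add ((h12.mul0 (s1.mono (by norm_num))).sub (h14.mul0 (s2.mono (by norm_num))))).add
        (h14.mul0 (s11.mono (by norm_num)))
    have t1 := ih'.mul0' r0
    have t2 := A0.mul0 hr
    have t3 : PO p 3 (((-(1 / 4)) * S2 + 1 / 4 * S11) * (v / 2 - v ^ 2 / 4)) :=
      (((h14.neg.mul0 s2).add (h14.mul0 s11)).mul hvv).mono (by norm_num)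
    have t4 : PO p 3 (1 / 2 * (S1 * (1 / 4 * v ^ 2))) :=
      (h12.mul0 (s1.mul (h14.mul0 (hvk.pow 2)))).mono (by norm_num)
    exact ((t1.add t2).add t3).sub t4

end sums

end Q277.Ram42
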