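import Mathlib
import Pool.Agent.Q277.Ram42B

/-!
The sum of `(42k+5) C(2k,k)^3 / 4096^k` over `k ≤ n`, `2n+1 = p^a`, divided by `p^a`, modulo `p^4`.
-/

set_option linter.unusedSectionVars false

namespace Q277.Ram42

open Finset Pool.Agent.H434R2 PO

theorem e2_id (M : ℕ) (f : ℕ → ℚ) : 2 * ∑ k ∈ range M, f k * ∑ j ∈ range k, f j
    = (∑ k ∈ range M, f k) ^ 2 - ∑ k ∈ range M, f k ^ 2 := by
  induction M with
  | zero => simp
  | succ M ih => rw [sum_range_succ, mul_add, ih, sum_range_succ, sum_range_succ]; ring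

theorem e3_id (M : ℕ) (f : ℕ → ℚ) :
    6 * ∑ k ∈ range M, f k * ∑ j ∈ range k, f j * ∑ i ∈ range j, f i
      = (∑ k ∈ range M, f k) ^ 3 - 3 * (∑ k ∈ range M, f k) * (∑ k ∈ range M, f k ^ 2)
        + 2 * ∑ k ∈ range M, f k ^ 3 := by
  induction M with
  | zero => simp
  | succ M ih =>
    have h := e2_id M f
    rw [sum_range_succ, mul_add, ih, sum_range_succ, sum_range_succ, sum_range_succ]
    linear_combination (3 * f M) * h

section sums

variable {p : ℕ} [hp : Fact p.Prime] {n : ℕ} (hv : ∀ i < 2 * n, PO p 1 (vv n i)) (h2 : p ≠ 2) (h3 : p ≠ 3)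

include hv h2

theorem quart : PO p 0 (1 / 4 : ℚ) := by
  have : (1 / 4 : ℚ) = ((2 : ℚ)⁻¹) ^ 2 := by norm_num
  rw [this]; exact (inv_two h2).pow0 2

include h3

/-- the main sum -/
theorem big_sum : PO p 4 (∑ k ∈ range (2 * n), sig (vv n k) * ∏ i ∈ range k, rho (vv n i)
    - (QQ n 1 + 5 / 4 * QQ n 2 + SS n)) := by
  have h12 : PO p 0 (1 / 2 : ℚ) := half h2
  have h14 : PO p 0 (1 / 4 : ℚ) := quart hv h2
  have h16 : PO p 0 (1 / 6 : ℚ) := by
    have hd : ¬ p ∣ 6 := by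
      intro h
      have h6 : p ∣ 2 * 3 := h
      rcases (hp.out.dvd_mul).1 h6 with h | h
      · exact h2 ((Nat.prime_dvd_prime_iff_eq hp.out Nat.prime_two).1 h)
      · exact h3 ((Nat.prime_dvd_prime_iff_eq hp.out Nat.prime_three).1 h)
    have := inv_nat (p := p) hd
    rw [one_div]; exact_mod_cast this
  have t3 : PO p 0 (3 : ℚ) := of_ofNat 3
  have t5 : PO p 0 (5 : ℚ) := of_ofNat 5
  have t2 : PO p 0 (2 : ℚ) := of_ofNat 2
  -- termwise
  have hterm : PO p 4 (∑ k ∈ range (2 * n), sig (vv n k) * ∏ i ∈ range k, rho (vv n i)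
      - ∑ k ∈ range (2 * n), (vv n k + 3 / 2 * vv n k ^ 2 + 5 / 4 * vv n k ^ 3
        + 1 / 2 * (vv n k * ∑ i ∈ range k, vv n i) + 3 / 4 * (vv n k ^ 2 * ∑ i ∈ range k, vv n i)
        - 1 / 4 * (vv n k * ∑ i ∈ range k, vv n i ^ 2)
        + 1 / 4 * (vv n k * ∑ j ∈ range k, vv n j * ∑ i ∈ range j, vv n i))) := by
    apply PO.sum_sub
    intro k hk
    have hk' := mem_range.1 hk
    have hvk := hv k hk'
    have hs := sig_exp h2 hvk
    have hr := prod_rho hv h2 k (by omega)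
    have s1 := part_PO hv k (by omega) 1
    simp only [pow_one] at s1
    have s2 := part_PO hv k (by omega) 2
    have s11 := part2_PO hv k (by omega)
    generalize ∏ i ∈ range k, rho (vv n i) = Pk at *
    generalize ∑ i ∈ range k, vv n i = S1 at *
    generalize ∑ i ∈ range k, vv n i ^ 2 = S2 at *
    generalize ∑ j ∈ range k, vv n j * ∑ i ∈ range j, vv n i = S11 at *
    generalize vv n k = v at *
    generalize sig v = r at *
    have v0 : PO p 0 v := hvk.mono (by norm_num)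
    have v2 := hvk.pow 2
    have v3 := hvk.pow 3
    have e : r * Pk - (v + 3 / 2 * v ^ 2 + 5 / 4 * v ^ 3 + 1 / 2 * (v * S1) + 3 / 4 * (v ^ 2 * S1)
        - 1 / 4 * (v * S2) + 1 / 4 * (v * S11))
        = (r - (v + 3 / 2 * v ^ 2 + 5 / 4 * v ^ 3)) * Pk
          + (v + 3 / 2 * v ^ 2 + 5 / 4 * v ^ 3) * (Pk - (1 + (1 / 2 * S1 - 1 / 4 * S2) + 1 / 4 * S11))
          + (5 * (1 / 4)) * (v ^ 3 * (1 / 2 * S1 - 1 / 4 * S2 + 1 / 4 * S11))
          + (3 * (1 / 2)) * (v ^ 2 * (1 / 4 * S11 - 1 / 4 * S2)) := by ring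
    rw [e]
    have q1 : PO p 1 (1 / 2 * S1 - 1 / 4 * S2 + 1 / 4 * S11) :=
      ((h12.mul0 s1).sub ((h14.mul0 s2).mono (by norm_num))).add ((h14.mul0 s11).mono (by norm_num))
    have q2 : PO p 2 (1 / 4 * S11 - 1 / 4 * S2) := (h14.mul0 s11).sub (h14.mul0 s2)
    have P0 : PO p 0 Pk := by
      have e1 : Pk = (Pk - (1 + (1 / 2 * S1 - 1 / 4 * S2) + 1 / 4 * S11)) + (1 + (1 / 2 * S1 - 1 / 4 * S2 + 1 / 4 * S11)) := by
        ring
      rw [e1]
      exact (hr.mono (by norm_num)).add (one.add (q1.mono (by norm_num)))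
    have sv : PO p 1 (v + 3 / 2 * v ^ 2 + 5 / 4 * v ^ 3) := by
      have e1 : v + 3 / 2 * v ^ 2 + 5 / 4 * v ^ 3 = v * (1 + 3 * (1 / 2) * v + 5 * (1 / 4) * v ^ 2) := by ring
      rw [e1]
      exact hvk.mul0' ((one.add ((t3.mul0 h12).mul0 v0)).add ((t5.mul0 h14).mul0 (v0.pow0 2)))
    have w1 := hs.mul0' P0
    have w2 : PO p 4 ((v + 3 / 2 * v ^ 2 + 5 / 4 * v ^ 3) * (Pk - (1 + (1 / 2 * S1 - 1 / 4 * S2) + 1 / 4 * S11))) :=
      (sv.mul hr).mono (by norm_num)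
    have w3 : PO p 4 ((5 * (1 / 4)) * (v ^ 3 * (1 / 2 * S1 - 1 / 4 * S2 + 1 / 4 * S11))) :=
      ((t5.mul0 h14).mul0 (v3.mul q1)).mono (by norm_num)
    have w4 : PO p 4 ((3 * (1 / 2)) * (v ^ 2 * (1 / 4 * S11 - 1 / 4 * S2))) :=
      ((t3.mul0 h12).mul0 (v2.mul q2)).mono (by norm_num)
    exact ((w1.add w2).add w3).add w4
  -- global relations
  have g2 := e2_id (2 * n) (vv n)
  have g3 := e3_id (2 * n) (vv n)
  have g5 := R5' (2 * n) (vv n)
  have eS : ∑ k ∈ range (2 * n), (vv n k + 3 / 2 * vv n k ^ 2 + 5 / 4 * vv n k ^ 3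
        + 1 / 2 * (vv n k * ∑ i ∈ range k, vv n i) + 3 / 4 * (vv n k ^ 2 * ∑ i ∈ range k, vv n i)
        - 1 / 4 * (vv n k * ∑ i ∈ range k, vv n i ^ 2)
        + 1 / 4 * (vv n k * ∑ j ∈ range k, vv n j * ∑ i ∈ range j, vv n i))
      = ∑ k ∈ range (2 * n), vv n k + 3 / 2 * ∑ k ∈ range (2 * n), vv n k ^ 2
        + 5 / 4 * ∑ k ∈ range (2 * n), vv n k ^ 3
        + 1 / 2 * ∑ k ∈ range (2 * n), vv n k * ∑ i ∈ range k, vv n i
        + 3 / 4 * ∑ k ∈ range (2 * n), vv n k ^ 2 * ∑ i ∈ range k, vv n i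
        - 1 / 4 * ∑ k ∈ range (2 * n), vv n k * ∑ i ∈ range k, vv n i ^ 2
        + 1 / 4 * ∑ k ∈ range (2 * n), vv n k * ∑ j ∈ range k, vv n j * ∑ i ∈ range j, vv n i := by
    rw [mul_sum, mul_sum, mul_sum, mul_sum, mul_sum, mul_sum, ← sum_add_distrib, ← sum_add_distrib,
      ← sum_add_distrib, ← sum_add_distrib, ← sum_sub_distrib, ← sum_add_distrib]
  rw [eS] at hterm
  have q1 : PO p 2 (QQ n 1) := R3b hv
  have q2 : PO p 2 (QQ n 2) := QQ_PO hv 2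
  have q3 : PO p 4 (QQ n 3) := R3a hv
  have eQ1 : QQ n 1 = ∑ k ∈ range (2 * n), vv n k := by unfold QQ; simp only [pow_one]
  have eQ2 : QQ n 2 = ∑ k ∈ range (2 * n), vv n k ^ 2 := rfl
  have eQ3 : QQ n 3 = ∑ k ∈ range (2 * n), vv n k ^ 3 := rfl
  have eSS : SS n = ∑ k ∈ range (2 * n), vv n k ^ 2 * ∑ i ∈ range k, vv n i := rfl
  rw [← eQ1, ← eQ2] at g2
  rw [← eQ1, ← eQ2, ← eQ3] at g3
  rw [← eQ1, ← eQ2, ← eSS, ← eQ3] at g5
  rw [← eQ1, ← eQ2, ← eQ3, ← eSS] at hterm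
  generalize ∑ k ∈ range (2 * n), vv n k * ∑ i ∈ range k, vv n i = E2 at *
  generalize ∑ k ∈ range (2 * n), vv n k * ∑ i ∈ range k, vv n i ^ 2 = S21 at *
  generalize ∑ k ∈ range (2 * n), vv n k * ∑ j ∈ range k, vv n j * ∑ i ∈ range j, vv n i = E3 at *
  generalize ∑ k ∈ range (2 * n), sig (vv n k) * ∏ i ∈ range k, rho (vv n i) = X at *
  generalize QQ n 1 = Q1 at *
  generalize QQ n 2 = Q2 at *
  generalize QQ n 3 = Q3 at *
  generalize SS n = s at *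
  have e : X - (Q1 + 5 / 4 * Q2 + s)
      = (X - (Q1 + 3 / 2 * Q2 + 5 / 4 * Q3 + 1 / 2 * E2 + 3 / 4 * s - 1 / 4 * S21 + 1 / 4 * E3))
        + (5 * (1 / 4)) * Q3 + (1 / 4) * Q1 ^ 2 - (1 / 4) * (Q1 * Q2 - Q3)
        + (1 / 4) * ((1 / 6) * (Q1 ^ 3 - 3 * Q1 * Q2 + 2 * Q3)) := by
    linear_combination (1 / 4) * g2 + (1 / 4) * g5 + (1 / 24) * g3
  rw [e]
  have w1 : PO p 4 ((5 * (1 / 4)) * Q3) := (t5.mul0 h14).mul0 q3
  have w2 : PO p 4 ((1 / 4) * Q1 ^ 2) := (h14.mul0 (q1.pow 2)).mono (by norm_num)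
  have w12 : PO p 4 (Q1 * Q2) := (q1.mul q2).mono (by norm_num)
  have w3 : PO p 4 ((1 / 4) * (Q1 * Q2 - Q3)) := h14.mul0 (w12.sub q3)
  have w4 : PO p 4 ((1 / 4) * ((1 / 6) * (Q1 ^ 3 - 3 * Q1 * Q2 + 2 * Q3))) := by
    have e1 : Q1 ^ 3 - 3 * Q1 * Q2 + 2 * Q3 = Q1 ^ 3 - 3 * (Q1 * Q2) + 2 * Q3 := by ring
    rw [e1]
    exact h14.mul0 (h16.mul0 ((((q1.pow 3).mono (by norm_num)).sub (t3.mul0 w12)).add (t2.mul0 q3)))
  exact (((hterm.add w1).add w2).sub w3).add w4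

omit h3 in
theorem all_prod : PO p 4 (∏ i ∈ range (2 * n), rho (vv n i) - (1 - 5 / 4 * PP n 2 - 5 / 4 * PP n 3)) := by
  have h14 : PO p 0 (1 / 4 : ℚ) := quart hv h2
  have t5 : PO p 0 (5 : ℚ) := of_ofNat 5
  rw [pair_prod]
  have e0 : ∏ i ∈ range n, rho (vv n i) * rho (vv n (2 * n - 1 - i))
      = ∏ i ∈ range n, rho (vv n i) * rho (rfl' (vv n i)) := by
    apply Finset.prod_congr rfl
    intro i hi
    rw [vv_refl n i (by have := mem_range.1 hi; omega)]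
  rw [e0]
  have h := (prod_expand (p := p) (k := 4) (l := 2) (by norm_num) (range n)
      (fun i => rho (vv n i) * rho (rfl' (vv n i))) (fun i => -(5 / 4) * vv n i ^ 2 - 5 / 4 * vv n i ^ 3)
      (fun i hi => rho_pair h2 (hv i (by have := mem_range.1 hi; omega)))
      (fun i hi => by
        have hvi := hv i (by have := mem_range.1 hi; omega)
        have e : -(5 / 4) * vv n i ^ 2 - 5 / 4 * vv n i ^ 3
            = -(5 * (1 / 4) * vv n i ^ 2) - 5 * (1 / 4) * vv n i ^ 3 := by ring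
        rw [e]
        exact ((((t5.mul0 h14).mul0 (hvi.pow 2)).neg).sub (((t5.mul0 h14).mul0 (hvi.pow 3)).mono (by norm_num))).mono
          (by norm_num))).1
  rw [sum_sub_distrib, ← mul_sum, ← mul_sum] at h
  have e : ∏ i ∈ range n, rho (vv n i) * rho (rfl' (vv n i)) - (1 - 5 / 4 * PP n 2 - 5 / 4 * PP n 3)
      = ∏ i ∈ range n, rho (vv n i) * rho (rfl' (vv n i)) - 1
        - (-(5 / 4) * ∑ i ∈ range n, vv n i ^ 2 - 5 / 4 * ∑ i ∈ range n, vv n i ^ 3) := by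
    unfold PP
    ring
  rw [e]
  exact h

end sums

theorem odd_prod (n : ℕ) : (∏ i ∈ range n, (2 * (i : ℚ) + 1)) * 2 ^ n * (n.factorial : ℚ) = ((2 * n).factorial : ℚ) := by
  induction n with
  | zero => simp
  | succ n ih =>
    rw [prod_range_succ, show 2 * (n + 1) = 2 * n + 2 by ring, Q277.FacTools.f2, Q277.FacTools.f1, ← ih, pow_succ]
    push_cast
    ring

theorem half_prod (n : ℕ) : ∏ i ∈ range n, (1 - vv n i / 2) = (-1) ^ n * ((2 * n).choose n : ℚ) / 4 ^ n := by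
  have h1 : ∏ i ∈ range n, (1 - vv n i / 2) = ∏ i ∈ range n, ((-1) * (2 * ((n - 1 - i : ℕ) : ℚ) + 1) / (2 * ((i : ℚ) + 1))) := by
    apply Finset.prod_congr rfl
    intro i hi
    have hi' := mem_range.1 hi
    have : ((n - 1 - i : ℕ) : ℚ) = n - 1 - i := by
      rw [Nat.cast_sub (by omega), Nat.cast_sub (by omega)]; push_cast; ring
    rw [this]
    unfold vv
    have h3 : ((i : ℚ) + 1) ≠ 0 := by positivity
    field_simp
    ring
  rw [h1, prod_div_distrib, prod_mul_distrib, prod_const, card_range, prod_mul_distrib, prod_const, card_range,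
    prod_range_reflect (fun i => 2 * (i : ℚ) + 1) n]
  have h4 : ∏ i ∈ range n, ((i : ℚ) + 1) = (n.factorial : ℚ) := by
    rw [← prod_range_add_one_eq_factorial]; push_cast; rfl
  have h5 := odd_prod n
  rw [h4, Nat.cast_choose ℚ (by omega), show 2 * n - n = n by omega, ← h5]
  have a1 := Q277.FacTools.fne n
  rw [show (4 : ℚ) ^ n = 2 ^ n * 2 ^ n by rw [← mul_pow]; norm_num]
  field_simp

theorem M_prod (n : ℕ) : (-1) ^ n * (((2 * n).choose n : ℚ) / 16 ^ n) = ∏ i ∈ range n, ((1 - vv n i / 2) ^ 2 / (1 - vv n i)) := by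
  rw [prod_div_distrib, prod_pow, half_prod, prod_one_sub n n (by omega)]
  have hc : ((2 * n).choose n : ℚ) ≠ 0 := by
    have : 0 < (2 * n).choose n := Nat.choose_pos (by omega)
    exact_mod_cast this.ne'
  have h1 : ((-1 : ℚ) ^ n) * (-1) ^ n = 1 := by rw [← mul_pow]; norm_num
  have h0 : ((-1 : ℚ) ^ n) ≠ 0 := pow_ne_zero _ (by norm_num)
  rw [show (16 : ℚ) ^ n = 4 ^ n * 4 ^ n by rw [← mul_pow]; norm_num]
  field_simp

section sums2

variable {p : ℕ} [hp : Fact p.Prime] {n : ℕ} (hv : ∀ i < 2 * n, PO p 1 (vv n i)) (h2 : p ≠ 2) (h3 : p ≠ 3)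

include hv h2

theorem M_exp : PO p 4 ((-1) ^ n * (((2 * n).choose n : ℚ) / 16 ^ n) - (1 + 1 / 4 * PP n 2 + 1 / 4 * PP n 3)) := by
  have h14 : PO p 0 (1 / 4 : ℚ) := quart hv h2
  rw [M_prod]
  have h := (prod_expand (p := p) (k := 4) (l := 2) (by norm_num) (range n)
      (fun i => (1 - vv n i / 2) ^ 2 / (1 - vv n i)) (fun i => vv n i ^ 2 / 4 + vv n i ^ 3 / 4)
      (fun i hi => mu_exp h2 (hv i (by have := mem_range.1 hi; omega)))
      (fun i hi => by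
        have hvi := hv i (by have := mem_range.1 hi; omega)
        have e : vv n i ^ 2 / 4 + vv n i ^ 3 / 4 = (1 / 4) * vv n i ^ 2 + (1 / 4) * vv n i ^ 3 := by ring
        rw [e]
        exact ((h14.mul0 (hvi.pow 2)).add ((h14.mul0 (hvi.pow 3)).mono (by norm_num))).mono (by norm_num))).1
  rw [sum_add_distrib, ← sum_div, ← sum_div] at h
  have e : ∏ i ∈ range n, ((1 - vv n i / 2) ^ 2 / (1 - vv n i)) - (1 + 1 / 4 * PP n 2 + 1 / 4 * PP n 3)
      = ∏ i ∈ range n, ((1 - vv n i / 2) ^ 2 / (1 - vv n i)) - 1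
        - ((∑ i ∈ range n, vv n i ^ 2) / 4 + (∑ i ∈ range n, vv n i ^ 3) / 4) := by
    unfold PP
    ring
  rw [e]
  exact h

include h3

/-- the value of the normalised sum -/
theorem value : PO p 4 ((-1) ^ n * ((1 / (2 * (n : ℚ) + 1)) *
    ∑ j ∈ range (n + 1), (42 * (j : ℚ) + 5) * ((2 * j).choose j : ℚ) ^ 3 / 4096 ^ j)
      - (5 - 1 / 8 * PP n 3)) := by
  have hb := big_sum hv h2 h3
  have hpr := all_prod hv h2
  have hM := M_exp hv h2
  have hQ1 := QQ1 hv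
  have hR1 := R1 hv
  have h3P := three_P2 hv h2
  have hSS := SS_P3 hv h2
  have hP2 := PP_PO hv 2
  have hP3 := PP_PO hv 3
  have hS := sum_form n
  have h14 : PO p 0 (1 / 4 : ℚ) := quart hv h2
  have h13 : PO p 0 (1 / 3 : ℚ) := by
    have hd : ¬ p ∣ 3 := fun h => h3 ((Nat.prime_dvd_prime_iff_eq hp.out Nat.prime_three).1 h)
    have := inv_nat (p := p) hd
    rw [one_div]; exact_mod_cast this
  have eT : (-1) ^ n * ((1 / (2 * (n : ℚ) + 1)) *
      ∑ j ∈ range (n + 1), (42 * (j : ℚ) + 5) * ((2 * j).choose j : ℚ) ^ 3 / 4096 ^ j)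
      = ((-1) ^ n * (((2 * n).choose n : ℚ) / 16 ^ n)) ^ 3 * (-1 + 6 * ∏ i ∈ range (2 * n), rho (vv n i) +
        ∑ k ∈ range (2 * n), sig (vv n k) * ∏ i ∈ range k, rho (vv n i)) := by
    have e1 : ∑ j ∈ range (n + 1), (42 * (j : ℚ) + 5) * ((2 * j).choose j : ℚ) ^ 3 / 4096 ^ j
        = (1 / 4096 ^ n) * ∑ j ∈ range (n + 1), 4096 ^ (n - j) * ((42 * (j : ℚ) + 5) * ((2 * j).choose j : ℚ) ^ 3) := by
      rw [mul_sum]
      apply Finset.sum_congr rfl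
      intro j hj
      have hj' := mem_range.1 hj
      have e2 : (4096 : ℚ) ^ n = 4096 ^ (n - j) * 4096 ^ j := by
        rw [← pow_add]; congr 1; omega
      rw [e2]
      field_simp
    rw [e1, hS]
    have hne : (2 * (n : ℚ) + 1) ≠ 0 := by positivity
    have h16 : (4096 : ℚ) ^ n = (16 ^ n) ^ 3 := by
      rw [← pow_mul, mul_comm, pow_mul]; norm_num
    have hs : ((-1 : ℚ) ^ n) ^ 3 = (-1) ^ n := by
      rw [← pow_mul, mul_comm, pow_mul]; norm_num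
    rw [mul_pow, hs, div_pow, h16]
    field_simp
  rw [eT]
  generalize (-1) ^ n * (((2 * n).choose n : ℚ) / 16 ^ n) = M at *
  generalize ∏ i ∈ range (2 * n), rho (vv n i) = Y at *
  generalize ∑ k ∈ range (2 * n), sig (vv n k) * ∏ i ∈ range k, rho (vv n i) = X at *
  generalize PP n 2 = P2 at *
  generalize PP n 3 = P3 at *
  generalize QQ n 1 = Q1 at *
  generalize QQ n 2 = Q2 at *
  generalize SS n = s at *
  -- m and e
  have hm : PO p 2 (M - 1) := by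
    have e1 : M - 1 = (M - (1 + 1 / 4 * P2 + 1 / 4 * P3)) + (1 / 4 * P2 + 1 / 4 * P3) := by ring
    rw [e1]
    exact (hM.mono (by norm_num)).add ((h14.mul0 hP2).add ((h14.mul0 hP3).mono (by norm_num)))
  have t6 : PO p 0 (6 : ℚ) := of_ofNat 6
  have t5 : PO p 0 (5 : ℚ) := of_ofNat 5
  have t3 : PO p 0 (3 : ℚ) := of_ofNat 3
  have t15 : PO p 0 (15 : ℚ) := of_ofNat 15
  have t9 : PO p 0 (9 : ℚ) := of_ofNat 9
  have lin : PO p 4 (((-1 + 6 * Y + X) - 5) - (-15 / 4 * P2 * 2 - 15 / 4 * P3 * 2 + Q1 + 5 / 4 * Q2 + s)) := by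
    have e1 : ((-1 + 6 * Y + X) - 5) - (-15 / 4 * P2 * 2 - 15 / 4 * P3 * 2 + Q1 + 5 / 4 * Q2 + s)
        = 6 * (Y - (1 - 5 / 4 * P2 - 5 / 4 * P3)) + (X - (Q1 + 5 / 4 * Q2 + s)) := by ring
    rw [e1]
    exact (t6.mul0 hpr).add hb
  have hs3 : PO p 3 s := by
    have e1 : s = (s + (1 / 2) * P3) - (1 / 2) * P3 := by ring
    rw [e1]
    exact (hSS.mono (by norm_num)).sub ((half h2).mul0 hP3)
  have hQ2 : PO p 2 Q2 := by
    have t2 : PO p 0 (2 : ℚ) := of_ofNat 2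
    have e1 : Q2 = (Q2 - (2 * P2 + 2 * P3)) + (2 * P2 + 2 * P3) := by ring
    rw [e1]
    exact (hR1.mono (by norm_num)).add ((t2.mul0 hP2).add ((t2.mul0 hP3).mono (by norm_num)))
  have hQ1' : PO p 2 Q1 := by
    have e1 : Q1 = (Q1 + P2 + P3) - P2 - P3 := by ring
    rw [e1]
    exact ((hQ1.mono (by norm_num)).sub hP2).sub (hP3.mono (by norm_num))
  have he : PO p 2 ((-1 + 6 * Y + X) - 5) := by
    have e1 : (-1 + 6 * Y + X) - 5 = (((-1 + 6 * Y + X) - 5) - (-15 / 4 * P2 * 2 - 15 / 4 * P3 * 2 + Q1 + 5 / 4 * Q2 + s))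
        + (-(15 * (1 / 2) * P2) - (15 * (1 / 2) * P3) + Q1 + 5 * (1 / 4) * Q2 + s) := by ring
    rw [e1]
    have c := half (p := p) h2
    exact (lin.mono (by norm_num)).add
      ((((((t15.mul0 c).mul0 hP2).neg).sub (((t15.mul0 c).mul0 hP3).mono (by norm_num))).add hQ1').add
        ((t5.mul0 h14).mul0 hQ2) |>.add (hs3.mono (by norm_num)))
  have key : M ^ 3 * (-1 + 6 * Y + X) - (5 - 1 / 8 * P3)
      = (((-1 + 6 * Y + X) - 5) - (-15 / 4 * P2 * 2 - 15 / 4 * P3 * 2 + Q1 + 5 / 4 * Q2 + s))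
        + 15 * (M - (1 + 1 / 4 * P2 + 1 / 4 * P3))
        + (M - 1) ^ 2 * (15 + 5 * (M - 1))
        + ((M - 1) * ((-1 + 6 * Y + X) - 5)) * (3 + 3 * (M - 1) + (M - 1) ^ 2)
        + (Q1 + P2 + P3) + (5 * (1 / 4)) * (Q2 - (2 * P2 + 2 * P3))
        + (s + (1 / 2) * P3)
        - ((9 * (1 / 4)) * (1 / 3)) * (3 * P2 + 7 / 2 * P3) := by
    ring
  rw [key]
  have m0 : PO p 0 (M - 1) := hm.mono (by norm_num)
  have w3 : PO p 4 ((M - 1) ^ 2 * (15 + 5 * (M - 1))) :=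
    ((hm.pow 2).mul0' (t15.add (t5.mul0 m0))).mono (by norm_num)
  have w4 : PO p 4 (((M - 1) * ((-1 + 6 * Y + X) - 5)) * (3 + 3 * (M - 1) + (M - 1) ^ 2)) :=
    ((hm.mul he).mul0' ((t3.add (t3.mul0 m0)).add (m0.pow0 2))).mono (by norm_num)
  exact ((((((lin.add (t15.mul0 hM)).add w3).add w4).add hQ1).add ((t5.mul0 h14).mul0 hR1)).add hSS).sub
    (((t9.mul0 h14).mul0 h13).mul0 h3P)

end sums2

end Q277.Ram42
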