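import Mathlib
import Pool.Agent.Q277.FacTools

/-!
Telescoping pair for the sums of `(51k+7) C(2k,k)^2 C(3k,k) (-1728)^(n-1-k)`.
-/

namespace Q277.Ram51k7

open Finset Q277.FacTools

/-- first member of the pair -/
noncomputable def F (n k : ℕ) : ℚ :=
  (-27) ^ k * (102 * n ^ 2 + (65 - 90 * k) * n + (24 * k ^ 2 - 28 * k + 7)) *
    ((k.factorial : ℚ) * ((3 * n).factorial : ℚ) * ((2 * (n - k)).factorial : ℚ) *
      ((2 * (n + k)).factorial : ℚ)) /
    (((3 * k).factorial : ℚ) * (n.factorial : ℚ) ^ 2 * ((n - k).factorial : ℚ) ^ 2 *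
      ((n + k).factorial : ℚ) * ((2 * n - k + 1).factorial : ℚ))

/-- second member of the pair -/
noncomputable def G (n k : ℕ) : ℚ :=
  (-27) ^ k * n * (6 * n + 3 * k + 1) *
    ((k.factorial : ℚ) * ((3 * n).factorial : ℚ) * ((2 * (n - k - 1)).factorial : ℚ) *
      ((2 * (n + k)).factorial : ℚ)) /
    (6 * ((3 * k + 2).factorial : ℚ) * (n.factorial : ℚ) ^ 2 * ((n - k - 1).factorial : ℚ) ^ 2 *
      ((n + k).factorial : ℚ) * ((2 * n - k - 1).factorial : ℚ))

theorem pair (n k : ℕ) (h : k < n) : G (n + 1) k - (-1728) * G n k = F n k - F n (k + 1) := by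
  obtain ⟨r, hr⟩ : ∃ r, r = n - k - 1 := ⟨_, rfl⟩
  have hn : (n : ℚ) = r + k + 1 := by
    have : n = r + k + 1 := by omega
    rw [this]; push_cast; ring
  obtain ⟨w, hw⟩ : ∃ w, w = 2 * n - k - 1 := ⟨_, rfl⟩
  have hw' : (w : ℚ) = 2 * r + k + 1 := by
    have : w = 2 * r + k + 1 := by omega
    rw [this]; push_cast; ring
  unfold F G
  rw [show n + 1 - k - 1 = r + 1 by omega, show n - k - 1 = r by omega, show n - k = r + 1 by omega,
    show n - (k + 1) = r by omega, show 3 * (n + 1) = 3 * n + 3 by ring,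
    show 2 * (r + 1) = 2 * r + 2 by ring, show 2 * (n + 1 + k) = 2 * (n + k) + 2 by ring,
    show 2 * (n + (k + 1)) = 2 * (n + k) + 2 by ring, show n + 1 + k = n + k + 1 by ring,
    show n + (k + 1) = n + k + 1 by ring, show 2 * (n + 1) - k - 1 = w + 2 by omega,
    show 2 * n - (k + 1) + 1 = w + 1 by omega, show 2 * n - k + 1 = w + 2 by omega,
    show 2 * n - k - 1 = w by omega, show 3 * (k + 1) = 3 * k + 3 by ring]
  rw [f3 (3 * n), f2 (2 * r), f2 (2 * (n + k)), f1 (n + k), f1 r, f1 n, f2 w, f1 w,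
    f3 (3 * k), f2 (3 * k), f1 k]
  have a1 := fne (3 * n)
  have a2 := fne (2 * r)
  have a3 := fne (2 * (n + k))
  have a4 := fne w
  have a5 := fne (n + k)
  have a6 := fne r
  have a7 := fne n
  have a8 := fne k
  have a9 := fne (3 * k)
  generalize ((3 * n).factorial : ℚ) = x1 at *
  generalize ((2 * r).factorial : ℚ) = x2 at *
  generalize ((2 * (n + k)).factorial : ℚ) = x3 at *
  generalize (w.factorial : ℚ) = x4 at *
  generalize ((n + k).factorial : ℚ) = x5 at *
  generalize (r.factorial : ℚ) = x6 at *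
  generalize (n.factorial : ℚ) = x7 at *
  generalize (k.factorial : ℚ) = x8 at *
  generalize ((3 * k).factorial : ℚ) = x9 at *
  push_cast
  rw [hw', hn]
  have b1 : (r : ℚ) + k + 1 + 1 ≠ 0 := by positivity
  have b2 : (r : ℚ) + 1 ≠ 0 := by positivity
  have b3 : (r : ℚ) + k + 1 + k + 1 ≠ 0 := by positivity
  have b4 : 2 * (r : ℚ) + k + 1 + 1 ≠ 0 := by positivity
  have b5 : 2 * (r : ℚ) + k + 1 + 2 ≠ 0 := by positivity
  have b6 : 3 * (k : ℚ) + 1 ≠ 0 := by positivity
  have b7 : 3 * (k : ℚ) + 2 ≠ 0 := by positivity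
  have b8 : 3 * (k : ℚ) + 3 ≠ 0 := by positivity
  rw [pow_succ]
  field_simp
  ring

theorem corner (n : ℕ) : G (n + 1) n = F n n := by
  unfold F G
  rw [show n + 1 - n - 1 = 0 by omega, show n - n = 0 by omega,
    show 3 * (n + 1) = 3 * n + 3 by ring, show 2 * (n + 1 + n) = 4 * n + 2 by ring,
    show 2 * (n + n) = 4 * n by ring, show n + 1 + n = 2 * n + 1 by ring,
    show n + n = 2 * n by ring, show 2 * (n + 1) - n - 1 = n + 1 by omega,
    show 2 * n - n + 1 = n + 1 by omega]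
  rw [f3 (3 * n), f2 (4 * n), f1 n, f1 (2 * n), f2 (3 * n)]
  have a1 := fne (3 * n)
  have a2 := fne (4 * n)
  have a3 := fne (2 * n)
  have a4 := fne n
  generalize ((3 * n).factorial : ℚ) = x1 at *
  generalize ((4 * n).factorial : ℚ) = x2 at *
  generalize ((2 * n).factorial : ℚ) = x3 at *
  generalize (n.factorial : ℚ) = x4 at *
  push_cast
  simp only [mul_zero, Nat.factorial_zero, Nat.cast_one]
  have b1 : (n : ℚ) + 1 ≠ 0 := by positivity
  have b2 : 2 * (n : ℚ) + 1 ≠ 0 := by positivity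
  have b3 : 3 * (n : ℚ) + 1 ≠ 0 := by positivity
  have b4 : 3 * (n : ℚ) + 2 ≠ 0 := by positivity
  field_simp
  ring

end Q277.Ram51k7
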