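import Mathlib
import Pool.Agent.Q277.FacTools
import Pool.Agent.Q266.FacDvd

/-!
Quotients of factorials for the sums of `(5k+1) C(2k,k)^2 C(3k,k) (-192)^(n-1-k)`.
-/

namespace Q277.Ram5k1

open Finset Q277.FacTools Q266.FacVal Q266.FacDvd

private theorem lvl_core (q s t d1 d2 d3 e1 e2 e3 : ℕ) (hq : 2 ≤ q) (hs : s < q) (ht : t < q)
    (u0 : q * d1 ≤ s + 2 * t + 1)
    (u1 : q * d2 ≤ 2 * s + 3 * t + 2)
    (u2 : q * d3 ≤ 2 * s + 2 * t + 3)
    (u3 : 3 * s + 3 * t + 3 < q * e1 + q)
    (u4 : 2 * s < q * e2 + q)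
    (u5 : 2 * s + 4 * t + 2 < q * e3 + q)
    (w0 : d1 < 3)
    (w1 : d2 < 5)
    (w2 : d3 < 4)
    (w3 : e1 < 6)
    (w4 : e2 < 2)
    (w5 : e3 < 6) :
    d1 + d2 + d3 ≤ e1 + e2 + e3 := by
  by_contra hcon
  push Not at hcon
  interval_cases e3 <;> first
    | omega
    | (interval_cases d1 <;> first
        | omega
        | (interval_cases d2 <;> first
            | omega
            | (interval_cases e1 <;> first
                | omega
                | (interval_cases d3 <;> first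
                    | omega
                    | (interval_cases e2 <;> omega)))))

theorem lvl (r k q : ℕ) (hq : 2 ≤ q) :
    (r) / q + (r) / q + (r + 2 * k + 1) / q + (2 * r + 3 * k + 2) / q + (2 * r + 2 * k + 3) / q
      ≤ (3 * r + 3 * k + 3) / q + (2 * r) / q + (2 * r + 4 * k + 2) / q := by
  have hq0 : 0 < q := by omega
  have hs : r % q < q := Nat.mod_lt _ hq0
  have ht : k % q < q := Nat.mod_lt _ hq0
  have en := Nat.div_add_mod r q
  have ek := Nat.div_add_mod k q
  generalize r % q = s at *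
  generalize k % q = t at *
  generalize r / q = x at *
  generalize k / q = y at *
  subst en
  subst ek
  have t1 : ((q * x + s) + 2 * (q * y + t) + 1) / q = x + 2 * y + (s + 2 * t + 1) / q := by
    rw [show (q * x + s) + 2 * (q * y + t) + 1 = q * (x + 2 * y) + (s + 2 * t + 1) by ring, Nat.mul_add_div hq0]
  have t2 : (2 * (q * x + s) + 3 * (q * y + t) + 2) / q = 2 * x + 3 * y + (2 * s + 3 * t + 2) / q := by
    rw [show 2 * (q * x + s) + 3 * (q * y + t) + 2 = q * (2 * x + 3 * y) + (2 * s + 3 * t + 2) by ring, Nat.mul_add_div hq0]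
  have t3 : (2 * (q * x + s) + 2 * (q * y + t) + 3) / q = 2 * x + 2 * y + (2 * s + 2 * t + 3) / q := by
    rw [show 2 * (q * x + s) + 2 * (q * y + t) + 3 = q * (2 * x + 2 * y) + (2 * s + 2 * t + 3) by ring, Nat.mul_add_div hq0]
  have t4 : (3 * (q * x + s) + 3 * (q * y + t) + 3) / q = 3 * x + 3 * y + (3 * s + 3 * t + 3) / q := by
    rw [show 3 * (q * x + s) + 3 * (q * y + t) + 3 = q * (3 * x + 3 * y) + (3 * s + 3 * t + 3) by ring, Nat.mul_add_div hq0]
  have t5 : (2 * (q * x + s)) / q = 2 * x + (2 * s) / q := by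
    rw [show 2 * (q * x + s) = q * (2 * x) + (2 * s) by ring, Nat.mul_add_div hq0]
  have t6 : (2 * (q * x + s) + 4 * (q * y + t) + 2) / q = 2 * x + 4 * y + (2 * s + 4 * t + 2) / q := by
    rw [show 2 * (q * x + s) + 4 * (q * y + t) + 2 = q * (2 * x + 4 * y) + (2 * s + 4 * t + 2) by ring, Nat.mul_add_div hq0]
  rw [t1, t2, t3, t4, t5, t6]
  have b0 : (s + 2 * t + 1) / q < 3 := Nat.div_lt_of_lt_mul (by omega)
  have c0 : q * ((s + 2 * t + 1) / q) ≤ s + 2 * t + 1 := Nat.mul_div_le _ _
  have b1 : (2 * s + 3 * t + 2) / q < 5 := Nat.div_lt_of_lt_mul (by omega)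
  have c1 : q * ((2 * s + 3 * t + 2) / q) ≤ 2 * s + 3 * t + 2 := Nat.mul_div_le _ _
  have b2 : (2 * s + 2 * t + 3) / q < 4 := Nat.div_lt_of_lt_mul (by omega)
  have c2 : q * ((2 * s + 2 * t + 3) / q) ≤ 2 * s + 2 * t + 3 := Nat.mul_div_le _ _
  have b3 : (3 * s + 3 * t + 3) / q < 6 := Nat.div_lt_of_lt_mul (by omega)
  have c3 : 3 * s + 3 * t + 3 < q * ((3 * s + 3 * t + 3) / q) + q := Nat.lt_mul_div_succ _ hq0
  have b4 : (2 * s) / q < 2 := Nat.div_lt_of_lt_mul (by omega)
  have c4 : 2 * s < q * ((2 * s) / q) + q := Nat.lt_mul_div_succ _ hq0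
  have b5 : (2 * s + 4 * t + 2) / q < 6 := Nat.div_lt_of_lt_mul (by omega)
  have c5 : 2 * s + 4 * t + 2 < q * ((2 * s + 4 * t + 2) / q) + q := Nat.lt_mul_div_succ _ hq0
  have key := lvl_core q s t _ _ _ _ _ _ hq hs ht c0 c1 c2 c3 c4 c5 b0 b1 b2 b3 b4 b5
  clear c0 c1 c2 c3 c4 c5
  omega

theorem lvl_list (r k q : ℕ) (hq : 2 ≤ q) :
    (([r, r, r + 2 * k + 1, 2 * r + 3 * k + 2, 2 * r + 2 * k + 3] : List ℕ).map (fun a => a / q)).sum
      ≤ (([3 * r + 3 * k + 3, 2 * r, 2 * r + 4 * k + 2] : List ℕ).map (fun a => a / q)).sum := by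
  have h := lvl r k q hq
  simp only [List.map_cons, List.map_nil, List.sum_cons, List.sum_nil]
  omega

/-- the quotient is an integer -/
theorem exists_R (r k : ℕ) : ∃ ρ : ℕ,
    (r.factorial ^ 2 * (r + 2 * k + 1).factorial * (2 * r + 3 * k + 2).factorial *
      (2 * r + 2 * k + 3).factorial) * ρ
      = (3 * r + 3 * k + 3).factorial * (2 * r).factorial * (2 * r + 4 * k + 2).factorial := by
  have h := fac_dvd _ _ (fun q hq => lvl_list r k q hq)
  simp only [List.map_cons, List.map_nil, List.prod_cons, List.prod_nil, mul_one] at h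
  obtain ⟨ρ, hρ⟩ := h
  refine ⟨ρ, ?_⟩
  rw [← mul_assoc] at hρ
  rw [hρ]
  ring

/-- the quotient is even -/
theorem even_R (r k ρ : ℕ) (h1 : 1 ≤ r + k) (h :
    (r.factorial ^ 2 * (r + 2 * k + 1).factorial * (2 * r + 3 * k + 2).factorial *
      (2 * r + 2 * k + 3).factorial) * ρ
      = (3 * r + 3 * k + 3).factorial * (2 * r).factorial * (2 * r + 4 * k + 2).factorial) :
    2 ∣ ρ := by
  have hc := Nat.choose_mul_factorial_mul_factorial (n := 3 * r + 3 * k + 2) (k := r) (by omega)
  rw [show 3 * r + 3 * k + 2 - r = 2 * r + 3 * k + 2 by omega] at hc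
  set c := (3 * r + 3 * k + 2).choose r with hcdef
  have hc0 : c ≠ 0 := (Nat.choose_pos (by omega)).ne'
  have e1 : (3 * r + 3 * k + 3).factorial
      = 3 * (r + k + 1) * (c * r.factorial * (2 * r + 3 * k + 2).factorial) := by
    rw [Nat.factorial_succ (3 * r + 3 * k + 2), hc]; ring
  have fn : ∀ m : ℕ, m.factorial ≠ 0 := Nat.factorial_ne_zero
  have h2 : r.factorial * (r + 2 * k + 1).factorial * (2 * r + 2 * k + 3).factorial * ρ
      = 3 * (r + k + 1) * c * (2 * r).factorial * (2 * r + 4 * k + 2).factorial := by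
    have hne : r.factorial * (2 * r + 3 * k + 2).factorial ≠ 0 := mul_ne_zero (fn _) (fn _)
    refine mul_left_cancel₀ hne ?_
    rw [e1] at h
    linear_combination h
  have hρ : ρ ≠ 0 := by
    rintro rfl
    rw [mul_zero] at h
    exact (mul_ne_zero (mul_ne_zero (fn _) (fn _)) (fn _)) h.symm
  have h3 := congrArg (fun z => z.factorization 2) h2
  rw [Nat.factorization_mul (mul_ne_zero (mul_ne_zero (fn _) (fn _)) (fn _)) hρ,
    Nat.factorization_mul (mul_ne_zero (fn _) (fn _)) (fn _), Nat.factorization_mul (fn _) (fn _),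
    Nat.factorization_mul (mul_ne_zero (mul_ne_zero (by positivity) hc0) (fn _)) (fn _),
    Nat.factorization_mul (mul_ne_zero (by positivity) hc0) (fn _),
    Nat.factorization_mul (by positivity) hc0, Nat.factorization_mul (by norm_num) (by omega)] at h3
  simp only [Finsupp.add_apply] at h3
  have k1 : (2 * r).factorial.factorization 2 = v r + r := v_double r
  have k2 : (2 * r + 4 * k + 2).factorial.factorization 2 = v (r + 2 * k + 1) + (r + 2 * k + 1) := by
    rw [show 2 * r + 4 * k + 2 = 2 * (r + 2 * k + 1) by ring]; exact v_double _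
  have k3 : (2 * r + 2 * k + 3).factorial.factorization 2 = v (r + k + 1) + (r + k + 1) := by
    rw [show 2 * r + 2 * k + 3 = 2 * (r + k + 1) + 1 by ring]; exact v_succ_double _
  rw [k1, k2, k3] at h3
  change v r + v (r + 2 * k + 1) + (v (r + k + 1) + (r + k + 1)) + ρ.factorization 2 = _ at h3
  have h4 : 1 ≤ ρ.factorization 2 := by
    by_cases hp : ∃ j, r + k + 1 = 2 ^ j
    · obtain ⟨j, hj⟩ := hp
      have hj0 : j ≠ 0 := by rintro rfl; simp at hj; omega
      have h5 : 1 ≤ (r + k + 1).factorization 2 := by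
        rw [hj, Nat.factorization_pow]
        simp [Nat.Prime.factorization Nat.prime_two]
        omega
      have h6 := v_lt (r + k + 1) (by omega)
      omega
    · push Not at hp
      have h6 := v_add_two_le (r + k + 1) (by omega) hp
      omega
  exact Nat.dvd_of_factorization_pos (by omega)

/-- three divides the first quotient if `2n+1` is no power of three (`n = r + 1`) -/
theorem three_dvd (r ρ : ℕ) (h2 : ∀ m : ℕ, 2 * r + 3 ≠ 3 ^ m) (h :
    (r.factorial ^ 2 * (r + 1).factorial * (2 * r + 3).factorial) * ρ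
      = (3 * r + 3).factorial * (2 * r).factorial) : 3 ∣ ρ := by
  have hl : ∀ q, 2 ≤ q → (([r, r, r + 1, 2 * r + 3] : List ℕ).map (fun a => a / q)).sum
      ≤ (([3 * r + 3, 2 * r] : List ℕ).map (fun a => a / q)).sum := by
    intro q hq
    have h := lvl_list r 0 q hq
    simp only [List.map_cons, List.map_nil, List.sum_cons, List.sum_nil, mul_zero, add_zero] at h ⊢
    omega
  have key : ∃ j, 1 ≤ j ∧ (([r, r, r + 1, 2 * r + 3] : List ℕ).map (fun a => a / 3 ^ j)).sum
      < (([3 * r + 3, 2 * r] : List ℕ).map (fun a => a / 3 ^ j)).sum := by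
    simp only [List.map_cons, List.map_nil, List.sum_cons, List.sum_nil, add_zero]
    obtain ⟨i, hi1, hi2⟩ : ∃ i, 3 ^ i ≤ 2 * r + 3 ∧ 2 * r + 3 < 3 ^ (i + 1) :=
      ⟨Nat.log 3 (2 * r + 3), Nat.pow_log_le_self 3 (by omega),
        Nat.lt_pow_succ_log_self (by norm_num) _⟩
    have hi0 : 1 ≤ i := by
      rcases Nat.eq_zero_or_pos i with h0 | h0
      · subst h0; simp at hi2
      · exact h0
    have hne := h2 i
    rw [pow_succ] at hi2
    have hodd : 3 ^ i % 2 = 1 := Nat.odd_iff.1 (Odd.pow (by decide))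
    by_cases c1 : 3 ^ i * 3 ≤ 3 * r + 3
    · refine ⟨i + 1, by omega, ?_⟩
      rw [pow_succ]
      have a1 : r / (3 ^ i * 3) = 0 := Nat.div_eq_of_lt (by omega)
      have a2 : (r + 1) / (3 ^ i * 3) = 0 := Nat.div_eq_of_lt (by omega)
      have a3 : (2 * r + 3) / (3 ^ i * 3) = 0 := Nat.div_eq_of_lt (by omega)
      have a4 : 1 ≤ (3 * r + 3) / (3 ^ i * 3) := (Nat.one_le_div_iff (by omega)).2 c1
      have a5 := Nat.zero_le ((2 * r) / (3 ^ i * 3))
      omega
    · by_cases c2 : 3 ^ i ≤ 2 * r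
      · refine ⟨i, hi0, ?_⟩
        have a1 : r / 3 ^ i = 0 := Nat.div_eq_of_lt (by omega)
        have a2 : (r + 1) / 3 ^ i = 0 := Nat.div_eq_of_lt (by omega)
        have a3 : (2 * r + 3) / 3 ^ i < 2 := Nat.div_lt_of_lt_mul (by omega)
        have a4 : 1 ≤ (3 * r + 3) / 3 ^ i := (Nat.one_le_div_iff (by omega)).2 (by omega)
        have a5 : 1 ≤ (2 * r) / 3 ^ i := (Nat.one_le_div_iff (by omega)).2 c2
        omega
      · refine ⟨1, le_rfl, ?_⟩
        have c3 : 3 ^ i = 2 * r + 1 := by omega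
        obtain ⟨i', rfl⟩ : ∃ i', i = i' + 1 := ⟨i - 1, by omega⟩
        rw [pow_succ] at c3
        rw [pow_one]
        omega
  obtain ⟨j, hj, hlt⟩ := key
  have hv := val_lt 3 Nat.prime_three _ _ (fun i hi => hl (3 ^ i) (by
    calc 2 ≤ 3 ^ 1 := by norm_num
      _ ≤ 3 ^ i := Nat.pow_le_pow_right (by norm_num) hi)) j hj hlt
  simp only [List.map_cons, List.map_nil, List.prod_cons, List.prod_nil, mul_one] at hv
  refine dvd_of_val_lt (a := r.factorial ^ 2 * (r + 1).factorial * (2 * r + 3).factorial)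
    (mul_ne_zero (Nat.factorial_ne_zero _) (Nat.factorial_ne_zero _)) h ?_
  rw [show r.factorial ^ 2 * (r + 1).factorial * (2 * r + 3).factorial
    = r.factorial * (r.factorial * ((r + 1).factorial * (2 * r + 3).factorial)) by ring]
  exact hv

theorem not_three_dvd (r ρ m : ℕ) (h2 : 2 * r + 3 = 3 ^ m) (h :
    (r.factorial ^ 2 * (r + 1).factorial * (2 * r + 3).factorial) * ρ
      = (3 * r + 3).factorial * (2 * r).factorial) : ¬ 3 ∣ ρ := by
  have hl : ∀ i, 1 ≤ i → (([r, r, r + 1, 2 * r + 3] : List ℕ).map (fun a => a / 3 ^ i)).sum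
      = (([3 * r + 3, 2 * r] : List ℕ).map (fun a => a / 3 ^ i)).sum := by
    intro i hi
    simp only [List.map_cons, List.map_nil, List.sum_cons, List.sum_nil, add_zero]
    rcases Nat.lt_or_ge m i with him | him
    · have hb : 3 * 3 ^ m ≤ 3 ^ i := by
        rw [← pow_succ']; exact Nat.pow_le_pow_right (by norm_num) (by omega)
      have a1 : r / 3 ^ i = 0 := Nat.div_eq_of_lt (by omega)
      have a2 : (r + 1) / 3 ^ i = 0 := Nat.div_eq_of_lt (by omega)
      have a3 : (2 * r + 3) / 3 ^ i = 0 := Nat.div_eq_of_lt (by omega)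
      have a4 : (3 * r + 3) / 3 ^ i = 0 := Nat.div_eq_of_lt (by omega)
      have a5 : (2 * r) / 3 ^ i = 0 := Nat.div_eq_of_lt (by omega)
      omega
    · obtain ⟨d, rfl⟩ : ∃ d, m = i + d := ⟨m - i, by omega⟩
      have hodd : 3 ^ i % 2 = 1 := Nat.odd_iff.1 (Odd.pow (by decide))
      have hodd' : 3 ^ d % 2 = 1 := Nat.odd_iff.1 (Odd.pow (by decide))
      have h3 : 3 ≤ 3 ^ i := by
        calc 3 = 3 ^ 1 := by norm_num
          _ ≤ 3 ^ i := Nat.pow_le_pow_right (by norm_num) hi
      rw [pow_add] at h2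
      obtain ⟨u, hu⟩ : ∃ u, 3 ^ d = 2 * u + 1 := ⟨3 ^ d / 2, by omega⟩
      obtain ⟨w, hw⟩ : ∃ w, 3 ^ i = 2 * w + 1 := ⟨3 ^ i / 2, by omega⟩
      rw [hu] at h2
      generalize 3 ^ i = q at *
      have hr : r + 1 = q * u + w := by
        have : q * (2 * u + 1) = 2 * (q * u) + q := by ring
        omega
      have a1 : r / q = u := by
        rw [show r = q * u + (w - 1) by omega, Nat.mul_add_div (by omega), Nat.div_eq_of_lt (by omega),
          add_zero]
      have a2 : (r + 1) / q = u := by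
        rw [hr, Nat.mul_add_div (by omega), Nat.div_eq_of_lt (by omega), add_zero]
      have a3 : (2 * r + 3) / q = 2 * u + 1 := by
        rw [show 2 * r + 3 = q * (2 * u + 1) by rw [h2]]
        exact Nat.mul_div_cancel_left _ (by omega)
      have a4 : (3 * r + 3) / q = 3 * u + 1 := by
        rw [show 3 * r + 3 = q * (3 * u + 1) + (w - 1) by
          have : q * (3 * u + 1) = 3 * (q * u) + q := by ring
          omega, Nat.mul_add_div (by omega), Nat.div_eq_of_lt (by omega), add_zero]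
      have a5 : (2 * r) / q = 2 * u := by
        rw [show 2 * r = q * (2 * u) + (2 * w - 2) by
          have : q * (2 * u) = 2 * (q * u) := by ring
          omega, Nat.mul_add_div (by omega), Nat.div_eq_of_lt (by omega), add_zero]
      omega
  have hv := val_eq 3 Nat.prime_three _ _ hl
  simp only [List.map_cons, List.map_nil, List.prod_cons, List.prod_nil, mul_one] at hv
  refine not_dvd_of_val_eq (a := r.factorial ^ 2 * (r + 1).factorial * (2 * r + 3).factorial)
    Nat.prime_three (mul_ne_zero (Nat.factorial_ne_zero _) (Nat.factorial_ne_zero _)) h ?_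
  rw [show r.factorial ^ 2 * (r + 1).factorial * (2 * r + 3).factorial
    = r.factorial * (r.factorial * ((r + 1).factorial * (2 * r + 3).factorial)) by ring]
  exact hv

end Q277.Ram5k1
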