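import Mathlib

/-!
# Coefficients between powered Apery-type sums: the case `s ≥ 4`

`b n k = C(n,k) C(n+k,k)`, `∑_k (b n k)^r = ∑_k (b n k)^s γ_k`.  If `4 ≤ s < r` then
`γ_0, ..., γ_8` are not all integers (3-adic argument).
-/

open Finset

namespace Q277.SchmidtPow

/-- `C(n,k) C(n+k,k)` -/
def b (n k : ℕ) : ℕ := n.choose k * (n + k).choose k

/-- first order expansion of a difference of powers -/
theorem pow_sub_first_order (v : ℕ) : ∀ (m : ℕ) (x y : ℤ), 1 ≤ m → (9 : ℤ) ∣ x - y →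
    (3 : ℤ) ^ (v + 3) ∣ x ^ (3 ^ v * m) - y ^ (3 ^ v * m)
      - (3 ^ v * m : ℕ) * (x - y) * y ^ (3 ^ v * m - 1) := by
  induction v with
  | zero =>
    intro m x y hm hxy
    obtain ⟨w, hw⟩ := hxy
    have hx : x = y + 9 * w := by linarith
    obtain ⟨m', rfl⟩ : ∃ m', m = m' + 1 := ⟨m - 1, by omega⟩
    simp only [pow_zero, one_mul, zero_add, Nat.add_sub_cancel]
    have h : ∀ k : ℕ, (3 : ℤ) ^ 3 ∣ x ^ (k + 1) - y ^ (k + 1) - ((k + 1 : ℕ) : ℤ) * (x - y) * y ^ k := by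
      intro k
      induction k with
      | zero => simp
      | succ k ih =>
        obtain ⟨c, hc⟩ := ih
        refine ⟨c * x + 3 * (k + 1) * w ^ 2 * y ^ k, ?_⟩
        push_cast at hc ⊢
        rw [pow_succ x (k + 1), pow_succ y (k + 1), pow_succ y k]
        have h2 : x ^ (k + 1) = y ^ k * y + ((k : ℤ) + 1) * (x - y) * y ^ k + 3 ^ 3 * c := by
          rw [pow_succ y k] at hc; linarith
        rw [h2, hx]
        ring
    exact h m'
  | succ v ih =>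
    intro m x y hm hxy
    have h1 := ih m x y hm hxy
    obtain ⟨w, hw⟩ := hxy
    set s' := 3 ^ v * m with hs'
    have hs'1 : 1 ≤ s' := Nat.one_le_iff_ne_zero.2 (by positivity)
    have e1 : 3 ^ (v + 1) * m = 3 * s' := by rw [pow_succ, hs']; ring
    rw [e1]
    obtain ⟨c, hc⟩ := h1
    have hsv : (s' : ℤ) = 3 ^ v * m := by rw [hs']; push_cast; ring
    -- D = x^s' - y^s'
    set X := x ^ s' with hX
    set Y := y ^ s' with hY
    have hD : X - Y = (s' : ℤ) * (x - y) * y ^ (s' - 1) + 3 ^ (v + 3) * c := by linarith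
    have hD2 : X - Y = 3 ^ (v + 2) * (m * w * y ^ (s' - 1) + 3 * c) := by
      rw [hD, hw, hsv, pow_add, pow_add]; ring
    set u := m * w * y ^ (s' - 1) + 3 * c with hu
    have hY1 : Y = y ^ (s' - 1) * y := by
      rw [hY, ← pow_succ]; congr 1; omega
    have hpow : y ^ (3 * s' - 1) = Y ^ 2 * y ^ (s' - 1) := by
      rw [hY, ← pow_mul, ← pow_add]; congr 1; omega
    have hxs : x ^ (3 * s') = X ^ 3 := by rw [hX, ← pow_mul, mul_comm]
    have hys : y ^ (3 * s') = Y ^ 3 := by rw [hY, ← pow_mul, mul_comm]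
    rw [hxs, hys, hpow]
    have hXY : X = Y + 3 ^ (v + 2) * u := by linarith
    have key : X ^ 3 - Y ^ 3 - ((3 * s' : ℕ) : ℤ) * (x - y) * (Y ^ 2 * y ^ (s' - 1))
        = 3 * Y ^ 2 * ((X - Y) - (s' : ℤ) * (x - y) * y ^ (s' - 1))
          + 3 * Y * (3 ^ (v + 2) * u) ^ 2 + (3 ^ (v + 2) * u) ^ 3 := by
      push_cast
      rw [hXY]; ring
    rw [key, hD]
    refine ⟨Y ^ 2 * c + 3 * 3 ^ v * Y * u ^ 2 + 9 * 3 ^ (2 * v) * u ^ 3, ?_⟩
    have e2 : (3 : ℤ) ^ (v + 1 + 3) = 81 * 3 ^ v := by rw [pow_add, pow_add]; norm_num; ring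
    have e3 : (3 : ℤ) ^ (v + 3) = 27 * 3 ^ v := by rw [pow_add]; norm_num; ring
    have e4 : (3 : ℤ) ^ (v + 2) = 9 * 3 ^ v := by rw [pow_add]; norm_num; ring
    have e5 : (3 : ℤ) ^ (2 * v) = 3 ^ v * 3 ^ v := by rw [two_mul, pow_add]
    rw [e2, e3, e4, e5]
    ring

/-- `3^s` does not divide `220^s + 910^s - 91^s - 3640^s` for `s ≥ 4` -/
theorem X_not_dvd {s : ℕ} (hs : 4 ≤ s) :
    ¬ (3 : ℤ) ^ s ∣ 220 ^ s - 3640 ^ s - 91 ^ s + 910 ^ s := by
  intro h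
  obtain ⟨v, m, hm, hsm⟩ := Nat.exists_eq_pow_mul_and_not_dvd (show s ≠ 0 by omega) 3 (by norm_num)
  have hm1 : 1 ≤ m := Nat.one_le_iff_ne_zero.2 (by rintro rfl; exact hm (dvd_zero _))
  have hvs : v + 3 ≤ s := by
    rcases Nat.lt_or_ge v 2 with h1 | h1
    · interval_cases v <;> omega
    · have h3 : ∀ v, 2 ≤ v → v + 3 ≤ 3 ^ v := by
        intro v hv
        induction v, hv using Nat.le_induction with
        | base => norm_num
        | succ v _ ih => rw [pow_succ]; omega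
      calc v + 3 ≤ 3 ^ v := h3 v h1
        _ ≤ 3 ^ v * m := Nat.le_mul_of_pos_right _ hm1
        _ = s := hsm.symm
  have h2 : (3 : ℤ) ^ (v + 3) ∣ 220 ^ s - 3640 ^ s - 91 ^ s + 910 ^ s := (pow_dvd_pow _ hvs).trans h
  have h3 := pow_sub_first_order v m 3640 220 hm1 (by norm_num)
  have h4 := pow_sub_first_order v m 910 91 hm1 (by norm_num)
  rw [← hsm] at h3 h4
  have h5 := dvd_add (dvd_sub h2 h4) h3
  have h6 : (3 : ℤ) ^ (v + 3) ∣ 9 * (3 ^ v * (m * (91 * 91 ^ (s - 1) - 380 * 220 ^ (s - 1)))) := by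
    have hsZ : ((s : ℕ) : ℤ) = 3 ^ v * m := by
      have := congrArg (Nat.cast : ℕ → ℤ) hsm
      push_cast at this
      exact this
    rw [hsZ] at h5
    have e : (9 : ℤ) * (3 ^ v * (m * (91 * 91 ^ (s - 1) - 380 * 220 ^ (s - 1))))
        = 220 ^ s - 3640 ^ s - 91 ^ s + 910 ^ s - (910 ^ s - 91 ^ s - 3 ^ v * m * (910 - 91) * 91 ^ (s - 1)) +
      (3640 ^ s - 220 ^ s - 3 ^ v * m * (3640 - 220) * 220 ^ (s - 1)) := by ring
    rw [e]
    exact h5
  have h7 : (3 : ℤ) ∣ m * (91 * 91 ^ (s - 1) - 380 * 220 ^ (s - 1)) := by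
    have e2 : (3 : ℤ) ^ (v + 3) = (9 * 3 ^ v) * 3 := by rw [pow_add]; norm_num; ring
    have e3 : (9 : ℤ) * (3 ^ v * (m * (91 * 91 ^ (s - 1) - 380 * 220 ^ (s - 1))))
        = (9 * 3 ^ v) * (m * (91 * 91 ^ (s - 1) - 380 * 220 ^ (s - 1))) := by ring
    rw [e2, e3] at h6
    exact Int.dvd_of_mul_dvd_mul_left (by positivity) h6
  have h3p : Prime (3 : ℤ) := Int.prime_three
  rcases h3p.dvd_or_dvd h7 with h8 | h8
  · exact hm (by exact_mod_cast h8)
  · have e1 : (91 : ℤ) ^ (s - 1) ≡ 1 [ZMOD 3] := by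
      have : (91 : ℤ) ≡ 1 [ZMOD 3] := by decide
      simpa using this.pow (s - 1)
    have e2 : (220 : ℤ) ^ (s - 1) ≡ 1 [ZMOD 3] := by
      have : (220 : ℤ) ≡ 1 [ZMOD 3] := by decide
      simpa using this.pow (s - 1)
    have e3 : 91 * (91 : ℤ) ^ (s - 1) - 380 * 220 ^ (s - 1) ≡ 91 * 1 - 380 * 1 [ZMOD 3] :=
      (e1.mul_left 91).sub (e2.mul_left 380)
    have e4 := (Int.modEq_zero_iff_dvd.2 h8).symm.trans e3
    revert e4
    decide

end Q277.SchmidtPow
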