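import Mathlib
import Pool.Agent.Q277.SchmidtPow

/-!
# Coefficients between powered Apery-type sums: `s ≥ 4`, all `r > s` except `(r,s) = (7,4)`
-/

open Finset

namespace Q277.SchmidtPow

theorem eqs (t : ℕ) (γ : ℕ → ℤ) :
    (∑ k ∈ range (0 + 1), (b 0 k : ℤ) ^ t * γ k = γ 0) ∧
    (∑ k ∈ range (1 + 1), (b 1 k : ℤ) ^ t * γ k = γ 0 + 2 ^ t * γ 1) ∧
    (∑ k ∈ range (2 + 1), (b 2 k : ℤ) ^ t * γ k = γ 0 + 6 ^ t * γ 1 + 6 ^ t * γ 2) ∧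
    (∑ k ∈ range (3 + 1), (b 3 k : ℤ) ^ t * γ k = γ 0 + 12 ^ t * γ 1 + 30 ^ t * γ 2 + 20 ^ t * γ 3) ∧
    (∑ k ∈ range (5 + 1), (b 5 k : ℤ) ^ t * γ k = γ 0 + 30 ^ t * γ 1 + 210 ^ t * γ 2 + 560 ^ t * γ 3
      + 630 ^ t * γ 4 + 252 ^ t * γ 5) ∧
    (∑ k ∈ range (6 + 1), (b 6 k : ℤ) ^ t * γ k = γ 0 + 42 ^ t * γ 1 + 420 ^ t * γ 2 + 1680 ^ t * γ 3
      + 3150 ^ t * γ 4 + 2772 ^ t * γ 5 + 924 ^ t * γ 6) ∧
    (∑ k ∈ range (8 + 1), (b 8 k : ℤ) ^ t * γ k = γ 0 + 72 ^ t * γ 1 + 1260 ^ t * γ 2 + 9240 ^ t * γ 3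
      + 34650 ^ t * γ 4 + 72072 ^ t * γ 5 + 84084 ^ t * γ 6 + 51480 ^ t * γ 7 + 12870 ^ t * γ 8) := by
  refine ⟨?_, ?_, ?_, ?_, ?_, ?_, ?_⟩
  all_goals
    simp only [sum_range_succ, sum_range_zero, zero_add]
  all_goals
    norm_num [b, Nat.choose]

theorem lte28 {s d : ℕ} (hd : d ≠ 0) (h : (3 : ℤ) ^ s ∣ 28 ^ d - 1) : 3 ^ (s - 3) ∣ d := by
  have hf : Fact (Nat.Prime 3) := ⟨Nat.prime_three⟩
  have h1 : 3 ^ s ∣ 28 ^ d - 1 ^ d := by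
    rw [one_pow]
    have h2 : ((28 ^ d - 1 : ℕ) : ℤ) = 28 ^ d - 1 := by
      rw [Nat.cast_sub (Nat.one_le_pow _ _ (by norm_num))]; push_cast; ring
    rw [← h2] at h
    exact_mod_cast h
  have h2 := padicValNat.pow_sub_pow (p := 3) (by decide) (x := 28) (y := 1) (by norm_num)
    (by norm_num) (by norm_num) hd
  have hne : 28 ^ d - 1 ^ d ≠ 0 := by
    rw [one_pow]
    have : 28 ^ 1 ≤ 28 ^ d := Nat.pow_le_pow_right (by norm_num) (by omega)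
    omega
  rw [padicValNat_dvd_iff_le hne, h2] at h1
  have h3 : padicValNat 3 (28 - 1) = 3 := by
    have : (28 - 1 : ℕ) = 3 ^ 3 := by norm_num
    rw [this, padicValNat.prime_pow]
  rw [h3] at h1
  rw [padicValNat_dvd_iff_le hd]
  omega

theorem ten_pow {j d : ℕ} (h : 3 ^ j ∣ d) : (3 : ℤ) ^ (j + 2) ∣ 10 ^ d - 1 := by
  obtain ⟨m, rfl⟩ := h
  have h1 : ∀ j : ℕ, (3 : ℤ) ^ (j + 2) ∣ 10 ^ (3 ^ j) - 1 := by
    intro j
    induction j with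
    | zero => norm_num
    | succ j ih =>
      obtain ⟨c, hc⟩ := ih
      have e : (10 : ℤ) ^ (3 ^ j) = 1 + 3 ^ (j + 2) * c := by linarith
      rw [pow_succ 3 j, pow_mul, e]
      refine ⟨c + 3 * 3 ^ j * 3 * c ^ 2 + 27 * 3 ^ (2 * j) * c ^ 3, ?_⟩
      have e2 : (3 : ℤ) ^ (j + 1 + 2) = 27 * 3 ^ j := by rw [pow_add, pow_add]; norm_num; ring
      have e4 : (3 : ℤ) ^ (j + 2) = 9 * 3 ^ j := by rw [pow_add]; norm_num; ring
      have e5 : (3 : ℤ) ^ (2 * j) = 3 ^ j * 3 ^ j := by rw [two_mul, pow_add]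
      rw [e2, e4, e5]
      ring
  rw [pow_mul]
  have h2 := sub_dvd_pow_sub_pow ((10 : ℤ) ^ (3 ^ j)) 1 m
  rw [one_pow] at h2
  exact (h1 j).trans h2

theorem cop3 {s : ℕ} {x : ℤ} (hx : ¬ (3 : ℤ) ∣ x) (t : ℕ) : IsCoprime ((3 : ℤ) ^ s) (x ^ t) := by
  apply IsCoprime.pow
  exact (Prime.coprime_iff_not_dvd Int.prime_three).2 hx

/-- consequences of the equations for `n = 0, 1, 2, 3, 5` -/
theorem low {s d : ℕ} (γ : ℕ → ℤ)
    (H : ∀ n ≤ 8, ∑ k ∈ range (n + 1), (b n k : ℤ) ^ (s + d)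
      = ∑ k ∈ range (n + 1), (b n k : ℤ) ^ s * γ k) :
    γ 0 = 1 ∧ γ 1 = 2 ^ d ∧ γ 2 = 2 * 6 ^ d - 2 ^ d ∧
      (12 : ℤ) ^ (s + d) + 30 ^ (s + d) + 20 ^ (s + d) = 12 ^ s * γ 1 + 30 ^ s * γ 2 + 20 ^ s * γ 3 ∧
      (3 : ℤ) ^ s ∣ 28 ^ d - 1 := by
  obtain ⟨a0, a1, a2, a3, a5, a6, a8⟩ := eqs (s + d) (fun _ => 1)
  obtain ⟨c0, c1, c2, c3, c5, c6, c8⟩ := eqs s γ
  simp only [mul_one] at a0 a1 a2 a3 a5 a6 a8
  have h0 := H 0 (by norm_num)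
  have h1 := H 1 (by norm_num)
  have h2 := H 2 (by norm_num)
  have h3 := H 3 (by norm_num)
  have h5 := H 5 (by norm_num)
  rw [a0, c0] at h0
  rw [a1, c1] at h1
  rw [a2, c2] at h2
  rw [a3, c3] at h3
  rw [a5, c5] at h5
  have g0 : γ 0 = 1 := h0.symm
  have g1 : γ 1 = 2 ^ d := by
    rw [g0, pow_add] at h1
    have : (2 : ℤ) ^ s * γ 1 = 2 ^ s * 2 ^ d := by linarith
    exact mul_left_cancel₀ (by positivity) this
  have g2 : γ 2 = 2 * 6 ^ d - 2 ^ d := by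
    rw [g0, g1, pow_add] at h2
    have : (6 : ℤ) ^ s * γ 2 = 6 ^ s * (2 * 6 ^ d - 2 ^ d) := by linarith
    exact mul_left_cancel₀ (by positivity) this
  have g3 : (12 : ℤ) ^ (s + d) + 30 ^ (s + d) + 20 ^ (s + d)
      = 12 ^ s * γ 1 + 30 ^ s * γ 2 + 20 ^ s * γ 3 := by
    rw [g0] at h3; linarith
  refine ⟨g0, g1, g2, g3, ?_⟩
  have e12 : (12 : ℤ) ^ s = 3 ^ s * 4 ^ s := by rw [← mul_pow]; norm_num
  have e30 : (30 : ℤ) ^ s = 3 ^ s * 10 ^ s := by rw [← mul_pow]; norm_num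
  have e210 : (210 : ℤ) ^ s = 3 ^ s * 70 ^ s := by rw [← mul_pow]; norm_num
  have e630 : (630 : ℤ) ^ s = 3 ^ s * 210 ^ s := by rw [← mul_pow]; norm_num
  have e252 : (252 : ℤ) ^ s = 3 ^ s * 84 ^ s := by rw [← mul_pow]; norm_num
  have e560 : (560 : ℤ) ^ s = 28 ^ s * 20 ^ s := by rw [← mul_pow]; norm_num
  have e560d : (560 : ℤ) ^ d = 28 ^ d * 20 ^ d := by rw [← mul_pow]; norm_num
  have key : (3 : ℤ) ^ s ∣ 20 ^ (s + d) * 28 ^ s * (28 ^ d - 1) := by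
    refine ⟨10 ^ s * γ 1 + 70 ^ s * γ 2 + 210 ^ s * γ 4 + 84 ^ s * γ 5 - 10 ^ s * 30 ^ d
      - 70 ^ s * 210 ^ d - 210 ^ s * 630 ^ d - 84 ^ s * 252 ^ d
      + 28 ^ s * (4 ^ s * 12 ^ d + 10 ^ s * 30 ^ d - 4 ^ s * γ 1 - 10 ^ s * γ 2), ?_⟩
    simp only [pow_add] at h5 g3 ⊢
    rw [e560, e560d, e30, e210, e630, e252, g0] at h5
    rw [e12, e30] at g3
    linear_combination h5 - 28 ^ s * g3
  have hc : IsCoprime ((3 : ℤ) ^ s) (20 ^ (s + d) * 28 ^ s) :=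
    IsCoprime.mul_right (cop3 (by norm_num) _) (cop3 (by norm_num) _)
  exact hc.dvd_of_dvd_mul_left key

/-- no integral solution when `s ≥ 4` and `d = r - s ≥ s` -/
theorem big {s d : ℕ} (hs : 4 ≤ s) (hd : s ≤ d) (γ : ℕ → ℤ)
    (H : ∀ n ≤ 8, ∑ k ∈ range (n + 1), (b n k : ℤ) ^ (s + d)
      = ∑ k ∈ range (n + 1), (b n k : ℤ) ^ s * γ k) : False := by
  obtain ⟨g0, g1, g2, g3, g28⟩ := low γ H
  have hd3 := lte28 (by omega) g28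
  obtain ⟨a0, a1, a2, a3, a5, a6, a8⟩ := eqs (s + d) (fun _ => 1)
  obtain ⟨c0, c1, c2, c3, c5, c6, c8⟩ := eqs s γ
  simp only [mul_one] at a6 a8
  have h6 := H 6 (by norm_num)
  have h8 := H 8 (by norm_num)
  rw [a6, c6, g0] at h6
  rw [a8, c8, g0] at h8
  obtain ⟨e, rfl⟩ : ∃ e, d = s + e := ⟨d - s, by omega⟩
  -- one factor 3
  have p3 : ∀ x : ℤ, (3 * x) ^ s = 3 ^ s * x ^ s := fun x => mul_pow _ _ _
  have p9 : ∀ x : ℤ, (9 * x) ^ s = 3 ^ s * 3 ^ s * x ^ s := by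
    intro x
    rw [← mul_pow, ← mul_pow]; norm_num
  have q3 : ∀ x : ℤ, (3 * x) ^ (s + (s + e)) = 3 ^ s * 3 ^ s * (x ^ s * x ^ s * (3 * x) ^ e) := by
    intro x
    rw [pow_add, pow_add, p3]; ring
  have f6 : (3 : ℤ) ^ s ∣ 14 ^ s * γ 1 + 140 ^ s * γ 2 + 560 ^ s * γ 3 + 308 ^ s * γ 6 := by
    refine ⟨14 ^ s * 14 ^ s * (3 * 14) ^ e + 140 ^ s * 140 ^ s * (3 * 140) ^ e
      + 560 ^ s * 560 ^ s * (3 * 560) ^ e + 1050 ^ s * 1050 ^ s * (3 * 1050) ^ e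
      + 924 ^ s * 924 ^ s * (3 * 924) ^ e + 308 ^ s * 308 ^ s * (3 * 308) ^ e
      - 350 ^ s * γ 4 - 308 ^ s * γ 5, ?_⟩
    have r1 := q3 14
    have r2 := q3 140
    have r3 := q3 560
    have r4 := q3 1050
    have r5 := q3 924
    have r6 := q3 308
    have s1 := p3 14
    have s2 := p3 140
    have s3 := p3 560
    have s4 := p9 350
    have s5 := p9 308
    have s6 := p3 308
    norm_num only at r1 r2 r3 r4 r5 r6 s1 s2 s3 s4 s5 s6 ⊢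
    rw [s1, s2, s3, s4, s5, s6, r1, r2, r3, r4, r5, r6] at h6
    have h3s : (3 : ℤ) ^ s ≠ 0 := by positivity
    apply mul_left_cancel₀ h3s
    linear_combination -h6
  have f8 : (3 : ℤ) ^ s ∣ 3080 ^ s * γ 3 + 28028 ^ s * γ 6 := by
    refine ⟨24 ^ s * 24 ^ s * (3 * 24) ^ e + 420 ^ s * 420 ^ s * (3 * 420) ^ e
      + 3080 ^ s * 3080 ^ s * (3 * 3080) ^ e + 11550 ^ s * 11550 ^ s * (3 * 11550) ^ e
      + 24024 ^ s * 24024 ^ s * (3 * 24024) ^ e + 28028 ^ s * 28028 ^ s * (3 * 28028) ^ e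
      + 17160 ^ s * 17160 ^ s * (3 * 17160) ^ e + 4290 ^ s * 4290 ^ s * (3 * 4290) ^ e
      - 8 ^ s * γ 1 - 140 ^ s * γ 2 - 3850 ^ s * γ 4 - 8008 ^ s * γ 5 - 5720 ^ s * γ 7
      - 1430 ^ s * γ 8, ?_⟩
    have r1 := q3 24
    have r2 := q3 420
    have r3 := q3 3080
    have r4 := q3 11550
    have r5 := q3 24024
    have r6 := q3 28028
    have r7 := q3 17160
    have r8 := q3 4290
    have s1 := p9 8
    have s2 := p9 140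
    have s3 := p3 3080
    have s4 := p9 3850
    have s5 := p9 8008
    have s6 := p3 28028
    have s7 := p9 5720
    have s8 := p9 1430
    norm_num only at r1 r2 r3 r4 r5 r6 r7 r8 s1 s2 s3 s4 s5 s6 s7 s8 ⊢
    rw [s1, s2, s3, s4, s5, s6, s7, s8, r1, r2, r3, r4, r5, r6, r7, r8] at h8
    have h3s : (3 : ℤ) ^ s ≠ 0 := by positivity
    apply mul_left_cancel₀ h3s
    linear_combination -h8
  -- combine
  obtain ⟨B, hB⟩ := f6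
  obtain ⟨C, hC⟩ := f8
  have e1 : (28028 : ℤ) ^ s = 91 ^ s * 308 ^ s := by rw [← mul_pow]; norm_num
  rw [e1] at hC
  set D := s + e with hD
  have f9 : (3 : ℤ) ^ s ∣ (20 ^ s * 2 ^ D * 14 ^ s) * (10 ^ D * (220 ^ s - 3640 ^ s) - (91 ^ s - 910 ^ s)) := by
    have e2 : (3080 : ℤ) ^ s = 14 ^ s * 220 ^ s := by rw [← mul_pow]; norm_num
    have e3 : (560 : ℤ) ^ s = 14 ^ s * 40 ^ s := by rw [← mul_pow]; norm_num
    have e4 : (3640 : ℤ) ^ s = 91 ^ s * 40 ^ s := by rw [← mul_pow]; norm_num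
    have e5 : (140 : ℤ) ^ s = 14 ^ s * 10 ^ s := by rw [← mul_pow]; norm_num
    have e6 : (910 : ℤ) ^ s = 91 ^ s * 10 ^ s := by rw [← mul_pow]; norm_num
    have e7 : (20 : ℤ) ^ D = 2 ^ D * 10 ^ D := by rw [← mul_pow]; norm_num
    have e8 : (12 : ℤ) ^ s = 3 ^ s * 4 ^ s := by rw [← mul_pow]; norm_num
    have e9 : (30 : ℤ) ^ s = 3 ^ s * 10 ^ s := by rw [← mul_pow]; norm_num
    have e10 : (6 : ℤ) ^ D = 3 ^ s * (3 ^ e * 2 ^ D) := by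
      rw [← mul_assoc, ← pow_add, ← hD, ← mul_pow]; norm_num
    -- 20^s γ3
    have g3' : (20 : ℤ) ^ s * γ 3 = 20 ^ s * (2 ^ D * 10 ^ D) + 3 ^ s * (4 ^ s * 12 ^ D + 10 ^ s * 30 ^ D
        - 4 ^ s * γ 1 - 10 ^ s * γ 2) := by
      simp only [pow_add (12 : ℤ), pow_add (30 : ℤ), pow_add (20 : ℤ)] at g3
      rw [e7, e8, e9] at g3
      linear_combination -g3
    refine ⟨20 ^ s * (C - 91 ^ s * B) - (3080 ^ s - 91 ^ s * 560 ^ s) * (4 ^ s * 12 ^ D + 10 ^ s * 30 ^ D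
        - 4 ^ s * γ 1 - 10 ^ s * γ 2) + 20 ^ s * 91 ^ s * 140 ^ s * (2 * (3 ^ e * 2 ^ D)), ?_⟩
    rw [e5, e3] at hB
    rw [e2] at hC
    rw [e2, e3, e4, e5, e6]
    rw [g2, e10] at hB
    rw [g1] at hB
    linear_combination 20 ^ s * hC - 20 ^ s * 91 ^ s * hB
      - (14 ^ s * 220 ^ s - 91 ^ s * (14 ^ s * 40 ^ s)) * g3'
  have hc : IsCoprime ((3 : ℤ) ^ s) (20 ^ s * 2 ^ D * 14 ^ s) :=
    IsCoprime.mul_right (IsCoprime.mul_right (cop3 (by norm_num) _) (cop3 (by norm_num) _))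
      (cop3 (by norm_num) _)
  have f10 := hc.dvd_of_dvd_mul_left f9
  -- replace 10^D by 1
  have f11 : (3 : ℤ) ^ s ∣ (10 ^ D - 1) * (220 ^ s - 3640 ^ s) := by
    have h1 := ten_pow hd3
    have h2 : (3 : ℤ) ∣ 220 ^ s - 3640 ^ s := by
      have h3 := sub_dvd_pow_sub_pow (220 : ℤ) 3640 s
      exact (by norm_num : (3 : ℤ) ∣ 220 - 3640).trans h3
    have h4 := mul_dvd_mul h1 h2
    rw [← pow_succ] at h4
    refine dvd_trans (pow_dvd_pow _ ?_) h4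
    omega
  have f12 := dvd_sub f10 f11
  apply X_not_dvd hs
  have e : (220 : ℤ) ^ s - 3640 ^ s - 91 ^ s + 910 ^ s
      = 10 ^ D * (220 ^ s - 3640 ^ s) - (91 ^ s - 910 ^ s) - (10 ^ D - 1) * (220 ^ s - 3640 ^ s) := by
    ring
  rw [e]
  exact f12

/-- no integral solution when `s ≥ 4` and `r = s + d > s`, except possibly `s = 4`, `d = 3` -/
theorem big' {s d : ℕ} (hs : 4 ≤ s) (hd : 1 ≤ d) (hex : ¬ (s = 4 ∧ d = 3)) (γ : ℕ → ℤ)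
    (H : ∀ n ≤ 8, ∑ k ∈ range (n + 1), (b n k : ℤ) ^ (s + d)
      = ∑ k ∈ range (n + 1), (b n k : ℤ) ^ s * γ k) : False := by
  obtain ⟨g0, g1, g2, g3, g28⟩ := low γ H
  have hd3 := lte28 (by omega) g28
  refine big hs ?_ γ H
  rcases Nat.lt_or_ge s 5 with h | h
  · have : s = 4 := by omega
    subst this
    norm_num at hd3
    omega
  · have h1 := Nat.le_of_dvd (by omega) hd3
    have h2 : ∀ s, 5 ≤ s → s ≤ 3 ^ (s - 3) := by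
      intro s hs
      induction s, hs using Nat.le_induction with
      | base => norm_num
      | succ s hs ih =>
        have : s + 1 - 3 = (s - 3) + 1 := by omega
        rw [this, pow_succ]
        omega
    exact (h2 s h).trans h1

end Q277.SchmidtPow
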