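import Mathlib
import Pool.Agent.Q277.SchmidtPowBig

/-!
# Coefficients between powered Apery-type sums: certificates modulo powers of `3`
-/

open Finset

namespace Q277.SchmidtPow

/-- binomial coefficient, computed by factorials -/
def ch (n k : ℕ) : ℕ := n.descFactorial k / k.factorial

theorem ch_eq (n k : ℕ) : ch n k = n.choose k := (Nat.choose_eq_descFactorial_div_factorial n k).symm

/-- `C(n,k) C(n+k,k)`, computed by factorials -/
def bb (n k : ℕ) : ℕ := ch n k * ch (n + k) k

theorem bb_eq (n k : ℕ) : bb n k = b n k := by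
  unfold bb b; rw [ch_eq, ch_eq]

/-- the weighted list of bases -/
def pairs (lam : List ℕ) (M n : ℕ) : List (ℕ × ℕ) :=
  (List.range (n + 1)).flatMap fun m => (List.range (m + 1)).map fun k =>
    (lam.getD m 0, bb m k % M)

/-- evaluation of a weighted list of bases at the exponent `r`, modulo `M` -/
def ev (L : List (ℕ × ℕ)) (M r : ℕ) : ℕ := (L.map fun p => p.1 * (p.2 ^ r % M)).sum % M

theorem ev_cast (L : List (ℕ × ℕ)) (M r : ℕ) :
    ((ev L M r : ℕ) : ZMod M) = (L.map fun p => (p.1 : ZMod M) * (p.2 : ZMod M) ^ r).sum := by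
  unfold ev
  rw [ZMod.natCast_mod]
  induction L with
  | nil => simp
  | cons a t ih =>
    rw [List.map_cons, List.sum_cons, List.map_cons, List.sum_cons, Nat.cast_add, ih]
    congr 1
    rw [Nat.cast_mul, ZMod.natCast_mod, Nat.cast_pow]

theorem sum_map_range {R : Type*} [AddCommMonoid R] (f : ℕ → R) (n : ℕ) :
    ((List.range n).map f).sum = ∑ k ∈ range n, f k := by
  induction n with
  | zero => simp
  | succ n ih => rw [List.range_succ, List.map_append, List.sum_append, ih, sum_range_succ]; simp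

theorem sum_flatMap_range {R : Type*} [AddCommMonoid R] {α : Type*} (g : α → R) (f : ℕ → List α)
    (n : ℕ) : (((List.range n).flatMap f).map g).sum = ∑ k ∈ range n, ((f k).map g).sum := by
  induction n with
  | zero => simp
  | succ n ih =>
    rw [List.range_succ, List.flatMap_append, List.map_append, List.sum_append, ih, sum_range_succ]
    simp

theorem ev_pairs (lam : List ℕ) (M n r : ℕ) :
    ((ev (pairs lam M n) M r : ℕ) : ZMod M)
      = ((∑ m ∈ range (n + 1), (lam.getD m 0 : ℤ) * ∑ k ∈ range (m + 1), (b m k : ℤ) ^ r : ℤ) : ZMod M) := by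
  rw [ev_cast]
  unfold pairs
  rw [sum_flatMap_range]
  push_cast
  refine sum_congr rfl fun m _ => ?_
  rw [List.map_map, sum_map_range, mul_sum]
  refine sum_congr rfl fun k _ => ?_
  simp only [Function.comp_apply]
  rw [ZMod.natCast_mod, bb_eq]

/-- the certificate condition -/
def cert (lam : List ℕ) (M n s : ℕ) : Bool :=
  (List.range (n + 1)).all fun k =>
    ((List.range (n + 1)).map fun m => lam.getD m 0 * bb m k ^ s).sum % M == 0

theorem dvd_of_cert {lam : List ℕ} {M n s r : ℕ} (hs : 1 ≤ s) (γ : ℕ → ℤ)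
    (H : ∀ m ≤ n, ∑ k ∈ range (m + 1), (b m k : ℤ) ^ r = ∑ k ∈ range (m + 1), (b m k : ℤ) ^ s * γ k)
    (hc : cert lam M n s = true) :
    (M : ℤ) ∣ ∑ m ∈ range (n + 1), (lam.getD m 0 : ℤ) * ∑ k ∈ range (m + 1), (b m k : ℤ) ^ r := by
  have h1 : ∀ m ∈ range (n + 1), (lam.getD m 0 : ℤ) * ∑ k ∈ range (m + 1), (b m k : ℤ) ^ r
      = ∑ k ∈ range (n + 1), (lam.getD m 0 : ℤ) * ((b m k : ℤ) ^ s * γ k) := by
    intro m hm
    rw [mem_range] at hm
    rw [H m (by omega), ← mul_sum]
    congr 1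
    refine sum_subset (range_subset_range.2 (by omega)) fun k hk hk' => ?_
    rw [mem_range] at hk hk'
    have : b m k = 0 := by
      unfold b
      rw [Nat.choose_eq_zero_of_lt (by omega), zero_mul]
    rw [this]
    simp [show s ≠ 0 by omega]
  rw [sum_congr rfl h1, sum_comm]
  refine dvd_sum fun k hk => ?_
  unfold cert at hc
  rw [List.all_eq_true] at hc
  have h2 := hc k (List.mem_range.2 (mem_range.1 hk))
  rw [beq_iff_eq, sum_map_range] at h2
  have h3 : M ∣ ∑ m ∈ range (n + 1), lam.getD m 0 * bb m k ^ s := Nat.dvd_of_mod_eq_zero h2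
  have h4 : ∑ m ∈ range (n + 1), (lam.getD m 0 : ℤ) * ((b m k : ℤ) ^ s * γ k)
      = ((∑ m ∈ range (n + 1), lam.getD m 0 * bb m k ^ s : ℕ) : ℤ) * γ k := by
    push_cast
    rw [sum_mul]
    refine sum_congr rfl fun m _ => ?_
    rw [bb_eq]; ring
  rw [h4]
  exact Dvd.dvd.mul_right (by exact_mod_cast h3) _

theorem ev_eq_zero {lam : List ℕ} {M n s r : ℕ} (hM : 1 ≤ M) (hs : 1 ≤ s) (γ : ℕ → ℤ)
    (H : ∀ m ≤ n, ∑ k ∈ range (m + 1), (b m k : ℤ) ^ r = ∑ k ∈ range (m + 1), (b m k : ℤ) ^ s * γ k)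
    (hc : cert lam M n s = true) : ev (pairs lam M n) M r = 0 := by
  have h1 := dvd_of_cert hs γ H hc
  have h2 := ev_pairs lam M n r
  rw [(ZMod.intCast_zmod_eq_zero_iff_dvd _ M).2 h1] at h2
  rw [ZMod.natCast_eq_zero_iff] at h2
  have h3 : ev (pairs lam M n) M r < M := Nat.mod_lt _ (by omega)
  exact Nat.eq_zero_of_dvd_of_lt h2 h3

/-- periodicity of powers modulo `3^E` -/
theorem pow_period (E x r : ℕ) (hE : 1 ≤ E) (hr : E ≤ r) :
    ((x : ZMod (3 ^ E)) ^ (r + 2 * 3 ^ (E - 1))) = (x : ZMod (3 ^ E)) ^ r := by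
  by_cases hx : 3 ∣ x
  · obtain ⟨y, rfl⟩ := hx
    have h0 : ∀ t, E ≤ t → (((3 * y : ℕ) : ZMod (3 ^ E))) ^ t = 0 := by
      intro t ht
      obtain ⟨u, rfl⟩ := Nat.exists_eq_add_of_le ht
      rw [pow_add]
      have : (((3 * y : ℕ) : ZMod (3 ^ E))) ^ E = ((3 ^ E : ℕ) : ZMod (3 ^ E)) * (y : ZMod (3 ^ E)) ^ E := by
        push_cast
        rw [mul_pow]
      rw [this, ZMod.natCast_self, zero_mul, zero_mul]
    rw [h0 _ (by omega), h0 _ hr]
  · have hco : Nat.Coprime x (3 ^ E) :=
      (Nat.Coprime.pow_left E ((Nat.Prime.coprime_iff_not_dvd Nat.prime_three).2 hx)).symm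
    have h1 := ZMod.pow_totient (ZMod.unitOfCoprime x hco)
    have h2 : Nat.totient (3 ^ E) = 2 * 3 ^ (E - 1) := by
      rw [Nat.totient_prime_pow Nat.prime_three (by omega)]
      norm_num
      ring
    rw [h2] at h1
    have h3 := congrArg (Units.val) h1
    rw [Units.val_pow_eq_pow_val, ZMod.coe_unitOfCoprime, Units.val_one] at h3
    rw [pow_add, h3, mul_one]

theorem ev_period (L : List (ℕ × ℕ)) (E r : ℕ) (hE : 1 ≤ E) (hr : E ≤ r) :
    ev L (3 ^ E) (r + 2 * 3 ^ (E - 1)) = ev L (3 ^ E) r := by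
  have h1 : ((ev L (3 ^ E) (r + 2 * 3 ^ (E - 1)) : ℕ) : ZMod (3 ^ E)) = (ev L (3 ^ E) r : ℕ) := by
    rw [ev_cast, ev_cast]
    congr 1
    refine List.map_congr_left fun p _ => ?_
    rw [pow_period E p.2 r hE hr]
  rw [ZMod.natCast_eq_natCast_iff'] at h1
  have h2 : ∀ t, ev L (3 ^ E) t % 3 ^ E = ev L (3 ^ E) t := fun t =>
    Nat.mod_eq_of_lt (Nat.mod_lt _ (by positivity))
  rwa [h2, h2] at h1

/-- reduction of the exponent -/
theorem reduce (E : ℕ) (hE : 1 ≤ E) (r : ℕ) (hr : E ≤ r) :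
    ∃ r' q, E ≤ r' ∧ r' < E + 2 * 3 ^ (E - 1) ∧ r = r' + (2 * 3 ^ (E - 1)) * q ∧
      ∀ L, ev L (3 ^ E) r = ev L (3 ^ E) r' := by
  set P := 2 * 3 ^ (E - 1) with hP
  have hPpos : 0 < P := by positivity
  refine ⟨E + (r - E) % P, (r - E) / P, by omega, by have := Nat.mod_lt (r - E) hPpos; omega, ?_, ?_⟩
  · have := Nat.mod_add_div (r - E) P
    omega
  · have h1 : ∀ q r' L, E ≤ r' → ev L (3 ^ E) (r' + P * q) = ev L (3 ^ E) r' := by
      intro q
      induction q with
      | zero => intro r' L _; simp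
      | succ q ih =>
        intro r' L hr'
        have e : r' + P * (q + 1) = (r' + P * q) + P := by ring
        rw [e, hP, ev_period L E _ hE (by omega), ← hP, ih r' L hr']
    intro L
    have h2 : r = (E + (r - E) % P) + P * ((r - E) / P) := by
      have := Nat.mod_add_div (r - E) P
      omega
    conv_lhs => rw [h2]
    exact h1 _ _ L (by omega)

/-- change of the exponent `r = a + q j` in the list -/
def shiftL (L : List (ℕ × ℕ)) (M a q : ℕ) : List (ℕ × ℕ) :=
  L.map fun p => (p.1 * (p.2 ^ a % M) % M, p.2 ^ q % M)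

theorem ev_shift (L : List (ℕ × ℕ)) (M a q j : ℕ) (hM : 1 ≤ M) :
    ev (shiftL L M a q) M j = ev L M (a + q * j) := by
  have h1 : ((ev (shiftL L M a q) M j : ℕ) : ZMod M) = (ev L M (a + q * j) : ℕ) := by
    rw [ev_cast, ev_cast]
    unfold shiftL
    rw [List.map_map]
    congr 1
    refine List.map_congr_left fun p _ => ?_
    simp only [Function.comp_apply]
    rw [ZMod.natCast_mod, ZMod.natCast_mod, Nat.cast_mul, ZMod.natCast_mod, Nat.cast_pow,
      Nat.cast_pow, pow_add, pow_mul]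
    ring
  rw [ZMod.natCast_eq_natCast_iff'] at h1
  have h2 : ∀ L t, ev L M t % M = ev L M t := fun L t => Nat.mod_eq_of_lt (Nat.mod_lt _ (by omega))
  rwa [h2, h2] at h1

/-- certificate for `s = 2`, `n = 5` modulo `81` -/
def lam2_5 : List ℕ := [66, 0, 69, 26, 0, 1]

theorem cert2_5 : cert lam2_5 81 5 2 = true := by decide +kernel

/-- the bases -/
def L2_5 : List (ℕ × ℕ) := [(66, 1), (0, 1), (0, 2), (69, 1), (69, 6), (69, 6), (26, 1), (26, 12), (26, 30), (26, 20), (0, 1), (0, 20), (0, 9), (0, 59), (0, 70), (1, 1), (1, 30), (1, 48), (1, 74), (1, 63), (1, 9)]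

theorem pairs2_5 : pairs lam2_5 81 5 = L2_5 := by decide +kernel

/-- certificate for `s = 2`, `n = 14` modulo `729` -/
def lam2_14 : List ℕ := [54, 0, 189, 84, 0, 564, 414, 243, 153, 333, 486, 315, 80, 0, 1]

theorem cert2_14 : cert lam2_14 729 14 2 = true := by decide +kernel

/-- the bases -/
def L2_14 : List (ℕ × ℕ) := [(54, 1), (0, 1), (0, 2), (189, 1), (189, 6), (189, 6), (84, 1), (84, 12), (84, 30), (84, 20), (0, 1), (0, 20), (0, 90), (0, 140), (0, 70), (564, 1), (564, 30), (564, 210), (564, 560), (564, 630), (564, 252), (414, 1), (414, 42), (414, 420), (414, 222), (414, 234), (414, 585), (414, 195), (243, 1), (243, 56), (243, 27), (243, 555), (243, 615), (243, 594), (243, 348), (243, 516), (153, 1), (153, 72), (153, 531), (153, 492), (153, 387), (153, 630), (153, 249), (153, 450), (153, 477), (333, 1), (333, 90), (333, 522), (333, 255), (333, 423), (333, 18), (333, 516), (333, 684), (333, 90), (333, 506), (486, 1), (486, 110), (486, 54), (486, 57), (486, 258),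 (486, 54), (486, 606), (486, 231), (486, 81), (486, 137), (486, 319), (315, 1), (315, 132), (315, 645), (315, 282), (315, 657), (315, 144), (315, 165), (315, 675), (315, 27), (315, 641), (315, 138), (315, 489), (80, 1), (80, 156), (80, 174), (80, 227), (80, 585), (80, 558), (80, 495), (80, 378), (80, 135), (80, 113), (80, 60), (80, 312), (80, 295), (0, 1), (0, 182), (0, 171), (0, 509), (0, 214), (0, 162), (0, 198), (0, 45), (0, 567), (0, 257), (0, 703), (0, 99), (0, 85), (0, 686), (1, 1), (1, 210), (1, 714), (1, 389), (1, 531), (1, 99), (1, 495), (1, 135), (1, 621), (1, 599), (1, 573), (1, 582), (1, 376), (1, 297), (1, 459)]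

theorem pairs2_14 : pairs lam2_14 729 14 = L2_14 := by decide +kernel

/-- certificate for `s = 2`, `n = 17` modulo `729` -/
def lam2_17 : List ℕ := [516, 540, 591, 693, 0, 279, 642, 189, 681, 206, 360, 208, 156, 0, 330, 71, 369, 1]

theorem cert2_17 : cert lam2_17 729 17 2 = true := by decide +kernel

/-- the bases -/
def L2_17 : List (ℕ × ℕ) := [(516, 1), (540, 1), (540, 2), (591, 1), (591, 6), (591, 6), (693, 1), (693, 12), (693, 30), (693, 20), (0, 1), (0, 20), (0, 90), (0, 140), (0, 70), (279, 1), (279, 30), (279, 210), (279, 560), (279, 630), (279, 252), (642, 1), (642, 42), (642, 420), (642, 222), (642, 234), (642, 585), (642, 195), (189, 1), (189, 56), (189, 27), (189, 555), (189, 615), (189, 594), (189, 348), (189, 516), (681, 1), (681, 72), (681, 531), (681, 492), (681, 387), (681, 630), (681, 249), (681, 450), (681, 477), (206, 1), (206, 90), (206, 522), (206, 255), (206, 423), (206, 18), (206, 516), (206, 684), (206, 90), (206, 506), (360, 1), (360, 110),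 (360, 54), (360, 57), (360, 258), (360, 54), (360, 606), (360, 231), (360, 81), (360, 137), (360, 319), (208, 1), (208, 132), (208, 645), (208, 282), (208, 657), (208, 144), (208, 165), (208, 675), (208, 27), (208, 641), (208, 138), (208, 489), (156, 1), (156, 156), (156, 174), (156, 227), (156, 585), (156, 558), (156, 495), (156, 378), (156, 135), (156, 113), (156, 60), (156, 312), (156, 295), (0, 1), (0, 182), (0, 171), (0, 509), (0, 214), (0, 162), (0, 198), (0, 45), (0, 567), (0, 257), (0, 703), (0, 99), (0, 85), (0, 686), (330, 1), (330, 210), (330, 714), (330, 389), (330, 531), (330, 99), (330, 495), (330, 135), (330, 621), (330, 599), (330, 573), (330, 582), (330, 376), (330, 297), (330, 459), (71, 1), (71, 240), (71, 429), (71, 219), (71, 387), (71, 198), (71, 183), (71, 189), (71, 270), (71, 209), (71, 678), (71, 138), (71, 468), (71, 513), (71, 189), (71, 171), (369, 1), (369, 272), (369, 135), (369, 264), (369, 645), (369, 378), (369, 111), (369, 402), (369,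 81), (369, 434), (369, 265), (369, 162), (369, 360), (369, 342), (369, 648), (369, 198), (369, 207), (1, 1), (1, 306), (1, 657), (1, 273), (1, 369), (1, 693), (1, 696), (1, 90), (1, 306), (1, 317), (1, 189), (1, 270), (1, 630), (1, 378), (1, 135), (1, 252), (1, 270), (1, 675)]

theorem pairs2_17 : pairs lam2_17 729 17 = L2_17 := by decide +kernel

/-- certificate for `s = 3`, `n = 5` modulo `729` -/
def lam3_5 : List ℕ := [630, 0, 180, 647, 0, 1]

theorem cert3_5 : cert lam3_5 729 5 3 = true := by decide +kernel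

/-- the bases -/
def L3_5 : List (ℕ × ℕ) := [(630, 1), (0, 1), (0, 2), (180, 1), (180, 6), (180, 6), (647, 1), (647, 12), (647, 30), (647, 20), (0, 1), (0, 20), (0, 90), (0, 140), (0, 70), (1, 1), (1, 30), (1, 210), (1, 560), (1, 630), (1, 252)]

theorem pairs3_5 : pairs lam3_5 729 5 = L3_5 := by decide +kernel

/-- certificate for `s = 3`, `n = 14` modulo `19683` -/
def lam3_14 : List ℕ := [12042, 4374, 17604, 4302, 0, 3717, 8073, 8748, 918, 14769, 8748, 16092, 18710, 0, 1]

theorem cert3_14 : cert lam3_14 19683 14 3 = true := by decide +kernel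

/-- the bases for exponents `3 + 27 j` -/
def L3_14 : List (ℕ × ℕ) := [(12042, 1), (4374, 1), (15309, 19034), (17604, 1), (3645, 0), (3645, 0), (4302, 1), (13365, 0), (4617, 0), (10116, 3482), (0, 1), (0, 3482), (0, 0), (0, 17171), (0, 14986), (3717, 1), (15066, 0), (10692, 0), (2277, 2753), (13122, 0), (13122, 0), (8073, 1), (5103, 0), (5103, 0), (11664, 0), (0, 0), (0, 0), (11664, 0), (8748, 1), (10935, 18305), (0, 0), (0, 0), (0, 0), (0, 0), (0, 0), (0, 0), (918, 1), (0, 0), (0, 0), (1458, 0), (0, 0), (0, 0), (1458, 0), (0, 0), (0, 0), (14769, 1), (0, 0), (0, 0), (11664, 0), (0, 0), (0, 0), (5103, 0), (0, 0), (0, 0), (14634, 16604), (8748, 1), (10935, 17576), (0, 0), (0, 0), (0, 0), (0, 0), (0, 0), (0, 0), (0, 0), (10935, 7370), (8748, 3970), (16092, 1), (18225, 0), (18225, 0), (14580, 0), (0, 0), (0, 0), (1458, 0), (0, 0), (0, 0), (17928, 11501), (1458, 0), (1458, 0), (18710, 1), (15525, 0), (459, 0), (2152, 3968), (13851, 0), (729, 0), (18954, 0), (0, 0), (0,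 0), (5869, 5507), (7074, 0), (6102, 0), (12968, 6481), (0, 1), (0, 1295), (0, 0), (0, 10367), (0, 17416), (0, 0), (0, 0), (0, 0), (0, 0), (0, 19601), (0, 18955), (0, 0), (0, 3484), (0, 1052), (1, 1), (9990, 0), (16308, 0), (5138, 1781), (12393, 0), (5832, 0), (729, 0), (0, 0), (0, 0), (9683, 18629), (2403, 0), (12123, 0), (6715, 15229), (0, 0), (0, 0)]

theorem pairs3_14 : shiftL (pairs lam3_14 19683 14) 19683 3 27 = L3_14 := by decide +kernel

/-- certificate for `s = 3`, `n = 17` modulo `19683` -/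
def lam3_17 : List ℕ := [14616, 10449, 7740, 14643, 0, 8685, 10809, 11421, 15678, 7019, 7506, 18307, 18281, 0, 16468, 12095, 3429, 1]

theorem cert3_17 : cert lam3_17 19683 17 3 = true := by decide +kernel

/-- the bases for exponents `3 + 27 j` -/
def L3_17 : List (ℕ × ℕ) := [(14616, 1), (10449, 1), (4860, 19034), (7740, 1), (18468, 0), (18468, 0), (14643, 1), (10449, 0), (8262, 0), (10467, 3482), (0, 1), (0, 3482), (0, 0), (0, 17171), (0, 14986), (8685, 1), (11421, 0), (486, 0), (17235, 2753), (13122, 0), (13122, 0), (10809, 1), (14337, 0), (7776, 0), (5589, 0), (13122, 0), (13122, 0), (18711, 0), (11421, 1), (12636, 18305), (0, 0), (6561, 0), (13122, 0), (0, 0), (6561, 0), (13122, 0), (15678, 1), (6561, 0), (6561, 0), (972, 0), (13122, 0), (13122, 0), (972, 0), (6561, 0), (6561, 0), (7019, 1), (18954, 0), (12393, 0), (17226, 0), (13851, 0), (13851, 0), (11637, 0), (12393, 0), (18954, 0), (16813, 16604), (7506, 1), (5373, 17576), (0, 0), (5832, 0), (729, 0), (0,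 0), (18954, 0), (729, 0), (0, 0), (16308, 7370), (19656, 3970), (18307, 1), (14553, 0), (15282, 0), (9018, 0), (729, 0), (13851, 0), (6588, 0), (0, 0), (0, 0), (7352, 11501), (12420, 0), (15336, 0), (18281, 1), (3213, 0), (540, 0), (9736, 3968), (11664, 0), (18225, 0), (1458, 0), (0, 0), (0, 0), (7162, 5507), (10638, 0), (6021, 0), (16157, 6481), (0, 1), (0, 1295), (0, 0), (0, 10367), (0, 17416), (0, 0), (0, 0), (0, 0), (0, 0), (0, 19601), (0, 18955), (0, 0), (0, 3484), (0, 1052), (16468, 1), (4806, 0), (5292, 0), (15050, 1781), (14580, 0), (8019, 0), (18225, 0), (0, 0), (0, 0), (7661, 18629), (9774, 0), (16578, 0), (3526, 15229), (0, 0), (0, 0), (12095, 1), (1485, 0), (2943, 0), (18927, 0), (5832, 0), (12393, 0), (17712, 0), (0, 0), (0, 0), (12142, 4211), (6534, 0), (1431, 0), (5832, 0), (0, 0), (0, 0), (18954, 0), (3429, 1), (16497, 15389), (0, 0), (7290, 0), (5832, 0), (0, 0), (13851, 0), (5832, 0), (0, 0), (9936, 13202), (27, 325), (0, 0), (0, 0), (0, 0), (0, 0),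 (0, 0), (0, 0), (1, 1), (13851, 0), (729, 0), (13878, 0), (12393, 0), (12393, 0), (3429, 0), (729, 0), (13851, 0), (1358, 15875), (0, 0), (0, 0), (13851, 0), (0, 0), (0, 0), (729, 0), (0, 0), (0, 0)]

theorem pairs3_17 : shiftL (pairs lam3_17 19683 17) 19683 3 27 = L3_17 := by decide +kernel

/-- certificate for `s = 3`, `n = 23` modulo `19683` -/
def lam3_23 : List ℕ := [6669, 2187, 3780, 12977, 12393, 18532, 8739, 1458, 8595, 19044, 14580, 18702, 13349, 0, 3904, 6462, 7290, 16542, 9495, 729, 9864, 13931, 7290, 1]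

theorem cert3_23 : cert lam3_23 19683 23 3 = true := by decide +kernel

/-- the bases for exponents `3 + 27 j` -/
def L3_23 : List (ℕ × ℕ) := [(6669, 1), (2187, 1), (17496, 19034), (3780, 1), (9477, 0), (9477, 0), (12977, 1), (5319, 0), (1917, 0), (7858, 3482), (12393, 1), (729, 3482), (0, 0), (13851, 17171), (18954, 14986), (18532, 1), (2457, 0), (16065, 0), (1376, 2753), (729, 0), (7290, 0), (8739, 1), (2430, 0), (8991, 0), (4617, 0), (6561, 0), (6561, 0), (11178, 0), (1458, 1), (11664, 18305), (0, 0), (0, 0), (0, 0), (0, 0), (0, 0), (0, 0), (8595, 1), (13122, 0), (13122, 0), (6318, 0), (6561, 0), (6561, 0), (6318, 0), (13122, 0), (13122, 0), (19044, 1), (6561, 0), (6561, 0), (17739, 0), (13122, 0), (13122, 0), (8991, 0), (6561, 0), (6561, 0), (18702, 16604), (14580, 1), (18225, 17576), (0, 0), (0, 0), (0, 0), (0, 0), (0, 0), (0, 0), (0, 0), (18225, 7370), (8019, 3970), (18702, 1), (13365, 0), (6804, 0), (10692, 0), (13122, 0), (13122, 0), (12879, 0), (0, 0), (0,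 0), (10620, 11501), (19440, 0), (12879, 0), (13349, 1), (5643, 0), (783, 0), (3328, 3968), (5103, 0), (11664, 0), (8019, 0), (0, 0), (0, 0), (8125, 5507), (1647, 0), (5778, 0), (15518, 6481), (0, 1), (0, 1295), (0, 0), (0, 10367), (0, 17416), (0, 0), (0, 0), (0, 0), (0, 0), (0, 19601), (0, 18955), (0, 0), (0, 3484), (0, 1052), (3904, 1), (8937, 0), (11610, 0), (1775, 1781), (1458, 0), (14580, 0), (11664, 0), (0, 0), (0, 0), (11072, 18629), (12204, 0), (10260, 0), (17287, 15229), (0, 0), (0, 0), (6462, 1), (2673, 0), (9234, 0), (10449, 0), (6561, 0), (6561, 0), (8262, 0), (0, 0), (0, 0), (13545, 4211), (3888, 0), (10449, 0), (6561, 0), (0, 0), (0, 0), (6561, 0), (7290, 1), (18954, 15389), (0, 0), (0, 0), (0, 0), (0, 0), (0, 0), (0, 0), (0, 0), (18954, 13202), (13851, 325), (0, 0), (0, 0), (0, 0), (0, 0), (0, 0), (0, 0), (16542, 1), (13122, 0), (13122, 0), (7047, 0), (6561, 0), (6561, 0), (15795, 0), (13122, 0), (13122, 0), (5733, 15875), (0, 0), (0, 0), (13122, 0),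 (0, 0), (0, 0), (13122, 0), (0, 0), (0, 0), (9495, 1), (6561, 0), (6561, 0), (14823, 0), (13122, 0), (13122, 0), (1701, 0), (6561, 0), (6561, 0), (10449, 0), (0, 0), (0, 0), (6561, 0), (0, 0), (0, 0), (6561, 0), (0, 0), (0, 0), (17010, 0), (729, 1), (5832, 13931), (0, 0), (0, 0), (0, 0), (0, 0), (0, 0), (0, 0), (0, 0), (0, 0), (0, 0), (0, 0), (0, 0), (0, 0), (0, 0), (0, 0), (0, 0), (0, 0), (0, 0), (0, 0), (9864, 1), (7047, 0), (486, 0), (7047, 0), (13122, 0), (13122, 0), (13608, 0), (0, 0), (0, 0), (17982, 0), (6561, 0), (6561, 0), (13122, 0), (0, 0), (0, 0), (13122, 0), (0, 0), (0, 0), (11421, 0), (6561, 0), (6561, 0), (13931, 1), (2889, 0), (11151, 0), (7147, 10772), (12393, 0), (5832, 0), (0, 0), (0, 0), (0, 0), (19224, 0), (729, 0), (13851, 0), (2403, 0), (0, 0), (0, 0), (0, 0), (0, 0), (0, 0), (12420, 0), (7290, 0), (729, 0), (702, 0), (7290, 1), (18954, 16604), (0, 0), (5832, 3320), (729, 15715), (0, 0), (0, 0), (0, 0), (0, 0), (0, 0), (0, 0), (0, 0), (0, 0),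 (0, 0), (0, 0), (0, 0), (0, 0), (0, 0), (0, 0), (0, 0), (0, 0), (0, 0), (0, 0), (1, 1), (5373, 0), (2214, 0), (17882, 7127), (0, 0), (0, 0), (0, 0), (0, 0), (0, 0), (4833, 0), (12393, 0), (18954, 0), (4158, 0), (0, 0), (0, 0), (0, 0), (0, 0), (0, 0), (18198, 0), (5832, 0), (12393, 0), (18981, 0), (0, 0), (0, 0)]

theorem pairs3_23 : shiftL (pairs lam3_23 19683 23) 19683 3 27 = L3_23 := by decide +kernel

/-- certificate for `s = 3`, `n = 26` modulo `19683` -/
def lam3_26 : List ℕ := [19025, 1917, 4843, 10919, 12393, 16459, 17225, 19224, 14635, 5186, 7587, 17872, 10148, 0, 5647, 7346, 9909, 12850, 10187, 15282, 13843, 3341, 7290, 18367, 8936, 5130, 1]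

theorem cert3_26 : cert lam3_26 19683 26 3 = true := by decide +kernel

/-- the bases for exponents `3 + 27 j` -/
def L3_26 : List (ℕ × ℕ) := [(19025, 1), (1917, 1), (15336, 19034), (4843, 1), (2889, 0), (2889, 0), (10919, 1), (11718, 0), (1026, 0), (18529, 3482), (12393, 1), (729, 3482), (0, 0), (13851, 17171), (18954, 14986), (16459, 1), (9909, 0), (13311, 0), (18407, 2753), (5103, 0), (11664, 0), (17225, 1), (18495, 0), (12663, 0), (3429, 0), (729, 0), (13851, 0), (6345, 0), (19224, 1), (13824, 18305), (0, 0), (5832, 0), (729, 0), (0, 0), (12393, 0), (7290, 0), (14635, 1), (18954, 0), (12393, 0), (5319, 0), (13851, 0), (13851, 0), (18441, 0), (12393, 0), (18954, 0), (5186, 1), (1458, 0), (14580, 0), (18765, 0), (11664, 0), (11664, 0), (3699, 0), (14580, 0), (1458, 0), (14461, 16604), (7587, 1), (12582, 17576), (0, 0), (8019, 0), (18225, 0), (0, 0), (1458, 0), (18225, 0), (0, 0), (10395, 7370), (9531, 3970), (17872, 1), (15363, 0), (13905, 0), (9666, 0), (18225,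 0), (11664, 0), (1404, 0), (0, 0), (0, 0), (2009, 11501), (9423, 0), (3591, 0), (10148, 1), (1593, 0), (13500, 0), (14494, 3968), (16038, 0), (2916, 0), (16767, 0), (0, 0), (0, 0), (2632, 5507), (10071, 0), (12744, 0), (2975, 6481), (0, 1), (0, 1295), (0, 0), (0, 10367), (0, 17416), (0, 0), (0, 0), (0, 0), (0, 0), (0, 19601), (0, 18955), (0, 0), (0, 3484), (0, 1052), (5647, 1), (2052, 0), (14202, 0), (1544, 1781), (10206, 0), (3645, 0), (2916, 0), (0, 0), (0, 0), (527, 18629), (8154, 0), (1107, 0), (10147, 15229), (0, 0), (0, 0), (7346, 1), (11610, 0), (8694, 0), (6615, 0), (8019, 0), (14580, 0), (2484, 0), (0, 0), (0, 0), (2014, 4211), (11718, 0), (2241, 0), (8019, 0), (0, 0), (0, 0), (1458, 0), (9909, 1), (2727, 15389), (0, 0), (5103, 0), (8019, 0), (0, 0), (11664, 0), (8019, 0), (0, 0), (15849, 13202), (10152, 325), (0, 0), (0, 0), (0, 0), (0, 0), (0, 0), (0, 0), (12850, 1), (11664, 0), (18225, 0), (4320, 0), (14580, 0), (14580, 0), (12096, 0), (18225, 0), (11664,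 0), (11162, 15875), (0, 0), (0, 0), (11664, 0), (0, 0), (0, 0), (18225, 0), (0, 0), (0, 0), (10187, 1), (7290, 0), (13851, 0), (16065, 0), (18954, 0), (18954, 0), (10233, 0), (13851, 0), (7290, 0), (11934, 0), (0, 0), (0, 0), (13851, 0), (0, 0), (0, 0), (7290, 0), (0, 0), (0, 0), (8289, 0), (15282, 1), (19467, 13931), (0, 0), (729, 0), (12393, 0), (0, 0), (13851, 0), (5832, 0), (0, 0), (13851, 0), (12393, 0), (0, 0), (0, 0), (0, 0), (0, 0), (0, 0), (0, 0), (0, 0), (13851, 0), (12393, 0), (13843, 1), (10179, 0), (5076, 0), (14553, 0), (12393, 0), (18954, 0), (4347, 0), (0, 0), (0, 0), (12852, 0), (729, 0), (729, 0), (5832, 0), (0, 0), (0, 0), (12393, 0), (0, 0), (0, 0), (7749, 0), (7290, 0), (7290, 0), (3341, 1), (16578, 0), (8802, 0), (17602, 10772), (8019, 0), (1458, 0), (0, 0), (0, 0), (0, 0), (13554, 0), (5103, 0), (18225, 0), (6615, 0), (0, 0), (0, 0), (0, 0), (0, 0), (0, 0), (11853, 0), (11664, 0), (5103, 0), (1269, 0), (7290, 1), (18954, 16604), (0, 0), (5832,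 3320), (729, 15715), (0, 0), (0, 0), (0, 0), (0, 0), (0, 0), (0, 0), (0, 0), (0, 0), (0, 0), (0, 0), (0, 0), (0, 0), (0, 0), (0, 0), (0, 0), (0, 0), (0, 0), (0, 0), (18367, 1), (15012, 0), (19143, 0), (8156, 7127), (0, 0), (0, 0), (0, 0), (0, 0), (0, 0), (17064, 0), (8019, 0), (14580, 0), (19629, 0), (0, 0), (0, 0), (0, 0), (0, 0), (0, 0), (5643, 0), (1458, 0), (8019, 0), (18414, 0), (0, 0), (0, 0), (8936, 1), (2700, 0), (4887, 0), (729, 0), (0, 0), (0, 0), (7290, 0), (0, 0), (0, 0), (9990, 0), (5832, 0), (5832, 0), (5832, 0), (0, 0), (0, 0), (5832, 0), (0, 0), (0, 0), (18738, 0), (18954, 0), (18954, 0), (7290, 0), (0, 0), (0, 0), (729, 0), (5130, 1), (14796, 10286), (0, 0), (0, 0), (0, 0), (0, 0), (0, 0), (0, 0), (0, 0), (5832, 0), (7290, 0), (0, 0), (0, 0), (0, 0), (0, 0), (0, 0), (0, 0), (0, 0), (5832, 0), (7290, 0), (0, 0), (0, 0), (0, 0), (0, 0), (0, 0), (0, 0), (1, 1), (0, 0), (0, 0), (18954, 0), (0, 0), (0, 0), (12393, 0), (0, 0), (0, 0), (13338, 0), (0, 0),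 (0, 0), (13851, 0), (0, 0), (0, 0), (13851, 0), (0, 0), (0, 0), (6777, 0), (0, 0), (0, 0), (12393, 0), (0, 0), (0, 0), (18954, 0), (0, 0), (0, 0)]

theorem pairs3_26 : shiftL (pairs lam3_26 19683 26) 19683 3 27 = L3_26 := by decide +kernel

/-- certificate for `s = 4`, `n = 5` modulo `6561` -/
def lam4_5 : List ℕ := [2310, 0, 2172, 2078, 0, 1]

theorem cert4_5 : cert lam4_5 6561 5 4 = true := by decide +kernel

/-- the bases -/
def L4_5 : List (ℕ × ℕ) := [(2310, 1), (0, 1), (0, 2), (2172, 1), (2172, 6), (2172, 6), (2078, 1), (2078, 12), (2078, 30), (2078, 20), (0, 1), (0, 20), (0, 90), (0, 140), (0, 70), (1, 1), (1, 30), (1, 210), (1, 560), (1, 630), (1, 252)]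

theorem pairs4_5 : pairs lam4_5 6561 5 = L4_5 := by decide +kernel

theorem check2 : (List.range 492).all (fun r => decide (r < 3) || (ev L2_5 81 r != 0) ||
    (ev L2_14 729 r != 0) || (ev L2_17 729 r != 0)) = true := by decide +kernel

theorem check3a : (List.range 492).all (fun r => decide (r < 4) || (ev L3_5 729 r != 0) ||
    (r % 27 == 3)) = true := by decide +kernel

theorem check3b : (List.range 487).all (fun j => decide (j < 1) || (ev L3_14 19683 j != 0) ||
    (ev L3_17 19683 j != 0) || (ev L3_23 19683 j != 0) || (ev L3_26 19683 j != 0)) = true := by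
  decide +kernel

theorem check4 : (ev L4_5 6561 7 != 0) = true := by decide +kernel

end Q277.SchmidtPow
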