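import Mathlib
import Pool.Agent.Q277.SchmidtPowCert

/-!
# Coefficients between powered Apery-type sums: the main theorem

If `r > s > 1` then the coefficients `c_0, ..., c_26` are not all integers.
-/

open Finset

namespace Q277.SchmidtPow

theorem ev_add_mul (E : ℕ) (hE : 1 ≤ E) (L : List (ℕ × ℕ)) (r q : ℕ) (hr : E ≤ r) :
    ev L (3 ^ E) (r + (2 * 3 ^ (E - 1)) * q) = ev L (3 ^ E) r := by
  induction q with
  | zero => simp
  | succ q ih =>
    have e : r + (2 * 3 ^ (E - 1)) * (q + 1) = (r + (2 * 3 ^ (E - 1)) * q) + 2 * 3 ^ (E - 1) := by ring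
    rw [e, ev_period L E _ hE (by omega), ih]

/-- every exponent `r` is congruent to a small one -/
theorem small_exponent (E : ℕ) (hE : 1 ≤ E) (r : ℕ) :
    ∃ r' q, r' < E + 2 * 3 ^ (E - 1) ∧ r = r' + (2 * 3 ^ (E - 1)) * q ∧ (q = 0 ∨ E ≤ r') := by
  rcases Nat.lt_or_ge r E with h | h
  · exact ⟨r, 0, by omega, by simp, Or.inl rfl⟩
  · obtain ⟨r', q, h1, h2, h3, -⟩ := reduce E hE r h
    exact ⟨r', q, h2, h3, Or.inr h1⟩

section

variable {r s : ℕ} (γ : ℕ → ℤ)

theorem case_two (hr : 3 ≤ r)
    (H : ∀ m ≤ 17, ∑ k ∈ range (m + 1), (b m k : ℤ) ^ r = ∑ k ∈ range (m + 1), (b m k : ℤ) ^ 2 * γ k) :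
    False := by
  have h5 := ev_eq_zero (by norm_num) (by norm_num) γ (fun m hm => H m (by omega)) cert2_5
  have h14 := ev_eq_zero (by norm_num) (by norm_num) γ (fun m hm => H m (by omega)) cert2_14
  have h17 := ev_eq_zero (by norm_num) (by norm_num) γ (fun m hm => H m (by omega)) cert2_17
  rw [pairs2_5] at h5
  rw [pairs2_14] at h14
  rw [pairs2_17] at h17
  obtain ⟨r', q, h1, h2, h3⟩ := small_exponent 6 (by norm_num) r
  have hlt : r' < 492 := by norm_num at h1; exact h1
  have hr3 : 3 ≤ r' := by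
    rcases h3 with h3 | h3
    · rw [h3] at h2; omega
    · omega
  have k5 : ev L2_5 81 r' = 0 := by
    rcases h3 with h3 | h3
    · rw [h3, mul_zero, add_zero] at h2
      rw [← h2]; exact h5
    · have e : r = r' + (2 * 3 ^ (4 - 1)) * (9 * q) := by rw [h2]; norm_num; ring
      rw [e] at h5
      have := ev_add_mul 4 (by norm_num) L2_5 r' (9 * q) (by omega)
      norm_num at this h5
      rw [← this]; exact h5
  have k14 : ev L2_14 729 r' = 0 := by
    rcases h3 with h3 | h3
    · rw [h3, mul_zero, add_zero] at h2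
      rw [← h2]; exact h14
    · rw [h2] at h14
      have := ev_add_mul 6 (by norm_num) L2_14 r' q (by omega)
      norm_num at this h14
      rw [← this]; exact h14
  have k17 : ev L2_17 729 r' = 0 := by
    rcases h3 with h3 | h3
    · rw [h3, mul_zero, add_zero] at h2
      rw [← h2]; exact h17
    · rw [h2] at h17
      have := ev_add_mul 6 (by norm_num) L2_17 r' q (by omega)
      norm_num at this h17
      rw [← this]; exact h17
  have hc := check2
  rw [List.all_eq_true] at hc
  have := hc r' (List.mem_range.2 hlt)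
  rw [k5, k14, k17] at this
  simp at this
  omega

theorem case_three (hr : 4 ≤ r)
    (H : ∀ m ≤ 26, ∑ k ∈ range (m + 1), (b m k : ℤ) ^ r = ∑ k ∈ range (m + 1), (b m k : ℤ) ^ 3 * γ k) :
    False := by
  have h5 := ev_eq_zero (by norm_num) (by norm_num) γ (fun m hm => H m (by omega)) cert3_5
  have h14 := ev_eq_zero (by norm_num) (by norm_num) γ (fun m hm => H m (by omega)) cert3_14
  have h17 := ev_eq_zero (by norm_num) (by norm_num) γ (fun m hm => H m (by omega)) cert3_17
  have h23 := ev_eq_zero (by norm_num) (by norm_num) γ (fun m hm => H m (by omega)) cert3_23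
  have h26 := ev_eq_zero (by norm_num) (by norm_num) γ (fun m hm => H m (by omega)) cert3_26
  rw [pairs3_5] at h5
  -- first stage: `r ≡ 3 (mod 27)`
  have hmod : r % 27 = 3 := by
    obtain ⟨r', q, h1, h2, h3⟩ := small_exponent 6 (by norm_num) r
    have hlt : r' < 492 := by norm_num at h1; exact h1
    have hr3 : 4 ≤ r' := by
      rcases h3 with h3 | h3
      · rw [h3] at h2; omega
      · omega
    have k5 : ev L3_5 729 r' = 0 := by
      rcases h3 with h3 | h3
      · rw [h3, mul_zero, add_zero] at h2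
        rw [← h2]; exact h5
      · rw [h2] at h5
        have := ev_add_mul 6 (by norm_num) L3_5 r' q (by omega)
        norm_num at this h5
        rw [← this]; exact h5
    have hc := check3a
    rw [List.all_eq_true] at hc
    have := hc r' (List.mem_range.2 hlt)
    rw [k5] at this
    simp at this
    norm_num at h2
    omega
  -- second stage
  obtain ⟨r', q, h1, h2, h3⟩ := small_exponent 9 (by norm_num) r
  have hr9 : 9 ≤ r' := by
    rcases h3 with h3 | h3
    · rw [h3, mul_zero, add_zero] at h2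
      omega
    · exact h3
  have hlt : r' < 13131 := by norm_num at h1; exact h1
  have hmod' : r' % 27 = 3 := by norm_num at h2; omega
  obtain ⟨j, hj⟩ : ∃ j, r' = 3 + 27 * j := ⟨r' / 27, by omega⟩
  have key : ∀ L, ev L 19683 r = 0 → ev (shiftL L 19683 3 27) 19683 j = 0 := by
    intro L hL
    rw [ev_shift L 19683 3 27 j (by norm_num), ← hj]
    rw [h2] at hL
    have := ev_add_mul 9 (by norm_num) L r' q (by omega)
    norm_num at this hL
    rw [← this]; exact hL
  have k14 := key _ h14
  have k17 := key _ h17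
  have k23 := key _ h23
  have k26 := key _ h26
  rw [pairs3_14] at k14
  rw [pairs3_17] at k17
  rw [pairs3_23] at k23
  rw [pairs3_26] at k26
  have hc := check3b
  rw [List.all_eq_true] at hc
  have := hc j (List.mem_range.2 (by omega))
  rw [k14, k17, k23, k26] at this
  simp at this
  omega

theorem case_four
    (H : ∀ m ≤ 8, ∑ k ∈ range (m + 1), (b m k : ℤ) ^ 7 = ∑ k ∈ range (m + 1), (b m k : ℤ) ^ 4 * γ k) :
    False := by
  have h5 := ev_eq_zero (by norm_num) (by norm_num) γ (fun m hm => H m (by omega)) cert4_5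
  rw [pairs4_5] at h5
  have hc := check4
  rw [h5] at hc
  simp at hc

/-- the range of indices in which a non-integral coefficient is found -/
def bd (s : ℕ) : ℕ := if s = 2 then 17 else if s = 3 then 26 else 8

/-- **Main theorem.** -/
theorem main (hs : 2 ≤ s) (hrs : s < r)
    (H : ∀ m ≤ bd s, ∑ k ∈ range (m + 1), (b m k : ℤ) ^ r = ∑ k ∈ range (m + 1), (b m k : ℤ) ^ s * γ k) :
    False := by
  rcases Nat.lt_or_ge s 4 with h | h
  · have : s = 2 ∨ s = 3 := by omega
    rcases this with rfl | rfl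
    · exact case_two γ (by omega) H
    · exact case_three γ (by omega) H
  · have hb : bd s = 8 := by unfold bd; rw [if_neg (by omega), if_neg (by omega)]
    rw [hb] at H
    obtain ⟨d, rfl⟩ : ∃ d, r = s + d := ⟨r - s, by omega⟩
    by_cases hex : s = 4 ∧ d = 3
    · obtain ⟨rfl, rfl⟩ := hex
      exact case_four γ H
    · exact big' h (by omega) hex γ H

/-- the coefficients: existence and uniqueness -/
theorem exists_unique (r s : ℕ) : ∃! c : ℕ → ℚ, ∀ n : ℕ,
    ∑ k ∈ range (n + 1), (b n k : ℚ) ^ r = ∑ k ∈ range (n + 1), (b n k : ℚ) ^ s * c k := by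
  have hb : ∀ n, (b n n : ℚ) ^ s ≠ 0 := by
    intro n
    apply pow_ne_zero
    unfold b
    have h1 : 0 < (n + n).choose n := Nat.choose_pos (by omega)
    have h2 : 0 < n.choose n := Nat.choose_pos le_rfl
    positivity
  -- existence by strong recursion
  have hex : ∃ c : ℕ → ℚ, ∀ n : ℕ, c n = (∑ k ∈ range (n + 1), (b n k : ℚ) ^ r
      - ∑ k ∈ range n, (b n k : ℚ) ^ s * c k) / (b n n : ℚ) ^ s := by
    let F : (n : ℕ) → ((m : ℕ) → m < n → ℚ) → ℚ := fun n f =>
      (∑ k ∈ range (n + 1), (b n k : ℚ) ^ r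
        - ∑ k ∈ (range n).attach, (b n k : ℚ) ^ s * f k.1 (mem_range.1 k.2)) / (b n n : ℚ) ^ s
    refine ⟨fun n => WellFounded.fix Nat.lt_wfRel.wf F n, fun n => ?_⟩
    have h1 := WellFounded.fix_eq Nat.lt_wfRel.wf F n
    refine h1.trans ?_
    simp only [F]
    congr 2
    rw [← sum_attach (range n) (fun k => (b n k : ℚ) ^ s * WellFounded.fix Nat.lt_wfRel.wf F k)]
  obtain ⟨c, hc⟩ := hex
  refine ⟨c, fun n => ?_, fun c' hc' => ?_⟩
  · rw [sum_range_succ (fun k => (b n k : ℚ) ^ s * c k), hc n]
    field_simp [hb n]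
    ring
  · funext n
    induction n using Nat.strong_induction_on with
    | _ n ih =>
      have h1 := hc' n
      rw [sum_range_succ (fun k => (b n k : ℚ) ^ s * c' k)] at h1
      have h2 : ∑ k ∈ range n, (b n k : ℚ) ^ s * c' k = ∑ k ∈ range n, (b n k : ℚ) ^ s * c k :=
        sum_congr rfl fun k hk => by rw [ih k (mem_range.1 hk)]
      rw [h2] at h1
      rw [hc n, eq_div_iff (hb n), h1]
      ring

/-- rational version of the main theorem -/
theorem main_rat {r s : ℕ} (hs : 2 ≤ s) (hrs : s < r) (c : ℕ → ℚ)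
    (hc : ∀ n : ℕ, ∑ k ∈ range (n + 1), (b n k : ℚ) ^ r = ∑ k ∈ range (n + 1), (b n k : ℚ) ^ s * c k) :
    ∃ k ≤ bd s, ∀ z : ℤ, c k ≠ z := by
  by_contra hcon
  push Not at hcon
  choose g hg using hcon
  refine main (r := r) (s := s) (fun k => if h : k ≤ bd s then g k h else 0) hs hrs fun m hm => ?_
  have h1 := hc m
  have h2 : ∑ k ∈ range (m + 1), (b m k : ℚ) ^ s * c k
      = ((∑ k ∈ range (m + 1), (b m k : ℤ) ^ s * (if h : k ≤ bd s then g k h else 0) : ℤ) : ℚ) := by
    push_cast
    refine sum_congr rfl fun k hk => ?_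
    rw [mem_range] at hk
    rw [dif_pos (by omega : k ≤ bd s), hg k (by omega)]
  rw [h2] at h1
  exact_mod_cast h1

end

end Q277.SchmidtPow
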