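import Mathlib
import Pool.Agent.Q277.RWSquares

/-!
# The case `r = 1`, with the prime `3`
-/

open Finset PowerSeries

namespace Q277.RSquares

open Q277.SqExp

/-- product of the numbers prime to `3` up to `3 i` -/
def U3 (i : ℕ) : ℕ := ∏ l ∈ range i, ((3 * l + 1) * (3 * l + 2))

theorem fact_three (i : ℕ) : (3 * i).factorial = 3 ^ i * i.factorial * U3 i := by
  induction i with
  | zero => simp [U3]
  | succ i ih =>
    have h1 : U3 (i + 1) = U3 i * ((3 * i + 1) * (3 * i + 2)) := by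
      unfold U3; rw [Finset.prod_range_succ]
    rw [h1, show 3 * (i + 1) = 3 * i + 1 + 1 + 1 by ring, Nat.factorial_succ, Nat.factorial_succ,
      Nat.factorial_succ, ih, Nat.factorial_succ, pow_succ]
    ring

theorem U3_mod (i : ℕ) : U3 i ≡ 2 ^ i [MOD 3] := by
  induction i with
  | zero => simp [U3]; rfl
  | succ i ih =>
    have h1 : U3 (i + 1) = U3 i * ((3 * i + 1) * (3 * i + 2)) := by
      unfold U3; rw [Finset.prod_range_succ]
    rw [h1, pow_succ]
    apply Nat.ModEq.mul ih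
    have : (3 * i + 1) * (3 * i + 2) = 2 + 3 * (3 * i * i + 3 * i) := by ring
    rw [this]
    exact (Nat.modEq_iff_dvd' (by omega)).2 ⟨3 * i * i + 3 * i, by omega⟩ |>.symm

theorem central_three (i : ℕ) : (6 * i).choose (3 * i) * U3 i ^ 2 = (2 * i).choose i * U3 (2 * i) := by
  have h1 := Nat.choose_mul_factorial_mul_factorial (n := 6 * i) (k := 3 * i) (by omega)
  have h2 := Nat.choose_mul_factorial_mul_factorial (n := 2 * i) (k := i) (by omega)
  rw [show 6 * i - 3 * i = 3 * i by omega] at h1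
  rw [show 2 * i - i = i by omega] at h2
  have h3 := fact_three i
  have h4 := fact_three (2 * i)
  rw [show 3 * (2 * i) = 6 * i by ring] at h4
  rw [h3, h4, ← h2] at h1
  have hpos : 0 < 3 ^ (2 * i) * i.factorial * i.factorial := by positivity
  apply Nat.eq_of_mul_eq_mul_left hpos
  have e : (3 : ℕ) ^ (2 * i) = 3 ^ i * 3 ^ i := by rw [two_mul, pow_add]
  rw [e] at h1 ⊢
  linear_combination h1

/-- integers `z` with `D C(2a,a)/(2a-2r-1) = z` -/
theorem omega_three (i : ℕ) (w h : ℤ) (hw : (3 : ℚ) * ((6 * i).choose (3 * i) : ℚ) * al 1 (3 * i) = w)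
    (hh : ((2 * i).choose i : ℚ) * al 0 i = h) : (3 : ℤ) ∣ w - h := by
  have hc := congrArg (Nat.cast : ℕ → ℚ) (central_three i)
  have e1 : w * (U3 i : ℤ) ^ 2 = h * (U3 (2 * i) : ℤ) := by
    have : ((w * (U3 i : ℤ) ^ 2 : ℤ) : ℚ) = ((h * (U3 (2 * i) : ℤ) : ℤ) : ℚ) := by
      push_cast at hc ⊢
      rw [← hw, ← hh]
      have n1 := al_ne 0 i
      have n2 := al_ne 1 (3 * i)
      unfold al
      push_cast at n1 n2 ⊢
      have e : (2 * (3 * (i : ℚ)) - (2 * 1 + 1)) = 3 * (2 * i - (2 * 0 + 1)) := by ring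
      rw [e]
      field_simp
      linear_combination hc
    exact_mod_cast this
  have h1 := U3_mod i
  have h2 := U3_mod (2 * i)
  have hp : ∀ m : ℕ, (2 : ℤ) ^ (2 * m) ≡ 1 [ZMOD 3] := by
    intro m
    rw [pow_mul]
    have : (2 : ℤ) ^ 2 ≡ 1 [ZMOD 3] := by decide
    simpa using this.pow m
  have h1' : (U3 i : ℤ) ^ 2 ≡ 1 [ZMOD 3] := by
    have : (U3 i : ℤ) ≡ 2 ^ i [ZMOD 3] := by
      have := Int.natCast_modEq_iff.2 h1
      push_cast at this
      exact this
    have h3 := this.pow 2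
    rw [← pow_mul, mul_comm] at h3
    exact h3.trans (hp i)
  have h2' : (U3 (2 * i) : ℤ) ≡ 1 [ZMOD 3] := by
    have := Int.natCast_modEq_iff.2 h2
    push_cast at this
    exact this.trans (hp i)
  have h3 : w ≡ h [ZMOD 3] := by
    have a1 : w * (U3 i : ℤ) ^ 2 ≡ w * 1 [ZMOD 3] := Int.ModEq.mul_left w h1'
    have a2 : h * (U3 (2 * i) : ℤ) ≡ h * 1 [ZMOD 3] := Int.ModEq.mul_left h h2'
    rw [mul_one] at a1 a2
    rw [e1] at a1
    exact a1.symm.trans a2
  exact Int.ModEq.dvd h3.symm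

theorem lucas_three (n i : ℕ) : (3 : ℤ) ∣ ((n + 3 * i).choose (6 * i) : ℤ) -
    ((n / 3 + i).choose (2 * i) : ℤ) := by
  have : Fact (Nat.Prime 3) := ⟨Nat.prime_three⟩
  have h := Choose.choose_modEq_choose_mod_mul_choose_div_nat (n := n + 3 * i) (k := 6 * i) (p := 3)
  have e1 : (6 * i) % 3 = 0 := by omega
  have e2 : (6 * i) / 3 = 2 * i := by omega
  have e3 : (n + 3 * i) / 3 = n / 3 + i := by omega
  rw [e1, e2, e3, Nat.choose_zero_right, one_mul] at h
  have h2 := Int.natCast_modEq_iff.2 h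
  exact h2.symm.dvd

/-- `W_n ≡ R_{⌊n/3⌋} (mod 3)` -/
theorem W_mod_three (n : ℕ) (w r : ℤ) (hw : (3 : ℚ) * R (al 1) n = w)
    (hr : R (al 0) (n / 3) = r) : (3 : ℤ) ∣ w - r := by
  choose z1 hz1 using fun a => alint 1 a
  choose z0 hz0 using fun a => alint 0 a
  have hw' : w = ∑ k ∈ range (n + 1), ((n + k).choose (2 * k) : ℤ) * z1 k := by
    have : (w : ℚ) = ((∑ k ∈ range (n + 1), ((n + k).choose (2 * k) : ℤ) * z1 k : ℤ) : ℚ) := by
      rw [← hw]
      unfold R
      rw [Finset.mul_sum]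
      push_cast
      refine Finset.sum_congr rfl fun k _ => ?_
      rw [← hz1, E_eq, D_one]; push_cast; ring
    exact_mod_cast this
  have hr' : r = ∑ k ∈ range (n / 3 + 1), ((n / 3 + k).choose (2 * k) : ℤ) * z0 k := by
    have : (r : ℚ) = ((∑ k ∈ range (n / 3 + 1), ((n / 3 + k).choose (2 * k) : ℤ) * z0 k : ℤ) : ℚ) := by
      rw [← hr]
      unfold R
      push_cast
      refine Finset.sum_congr rfl fun k _ => ?_
      rw [← hz0, E_eq, D_zero]; push_cast; ring
    exact_mod_cast this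
  -- only multiples of three matter
  have h3 : ∀ k : ℕ, k % 3 ≠ 0 → (3 : ℤ) ∣ z1 k := by
    intro k hk
    have h := hz1 k
    rw [D_one] at h
    have h4 : (2 * (k : ℤ) - 3) * z1 k = 3 * ((2 * k).choose k : ℤ) := by
      have : (((2 * (k : ℤ) - 3) * z1 k : ℤ) : ℚ) = ((3 * ((2 * k).choose k : ℤ) : ℤ) : ℚ) := by
        push_cast
        rw [← h]
        have n1 := al_ne 1 k
        unfold al
        push_cast at n1 ⊢
        have e : (2 * (k : ℚ) - (2 * 1 + 1)) = 2 * k - 3 := by ring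
        rw [e] at n1 ⊢
        field_simp
      exact_mod_cast this
    have h5 : (3 : ℤ) ∣ (2 * (k : ℤ) - 3) * z1 k := ⟨_, h4⟩
    have hp3 : Prime (3 : ℤ) := Int.prime_three
    rcases hp3.dvd_or_dvd h5 with h6 | h6
    · exfalso; omega
    · exact h6
  -- split the sum
  have h4 : (3 : ℤ) ∣ (∑ k ∈ range (n + 1), ((n + k).choose (2 * k) : ℤ) * z1 k) -
      ∑ i ∈ range (n / 3 + 1), ((n + 3 * i).choose (2 * (3 * i)) : ℤ) * z1 (3 * i) := by
    have e : ∑ i ∈ range (n / 3 + 1), ((n + 3 * i).choose (2 * (3 * i)) : ℤ) * z1 (3 * i) =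
        ∑ k ∈ (range (n + 1)).filter (fun k => k % 3 = 0), ((n + k).choose (2 * k) : ℤ) * z1 k := by
      refine Finset.sum_bij (fun i _ => 3 * i) ?_ ?_ ?_ ?_
      · intro i hi
        rw [Finset.mem_range] at hi
        rw [Finset.mem_filter, Finset.mem_range]
        omega
      · intro a _ b _ h
        have h' : 3 * a = 3 * b := h
        omega
      · intro k hk
        rw [Finset.mem_filter, Finset.mem_range] at hk
        exact ⟨k / 3, by rw [Finset.mem_range]; omega, by omega⟩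
      · intro i _; rfl
    rw [e, ← Finset.sum_filter_add_sum_filter_not (range (n + 1)) (fun k => k % 3 = 0),
      add_sub_cancel_left]
    apply Finset.dvd_sum
    intro k hk
    rw [Finset.mem_filter] at hk
    exact Dvd.dvd.mul_left (h3 k hk.2) _
  have h5 : (3 : ℤ) ∣ (∑ i ∈ range (n / 3 + 1), ((n + 3 * i).choose (2 * (3 * i)) : ℤ) * z1 (3 * i)) -
      ∑ k ∈ range (n / 3 + 1), ((n / 3 + k).choose (2 * k) : ℤ) * z0 k := by
    rw [← Finset.sum_sub_distrib]
    apply Finset.dvd_sum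
    intro i _
    have a1 := lucas_three n i
    have a2 : (3 : ℤ) ∣ z1 (3 * i) - z0 i := by
      apply omega_three i
      · rw [← hz1, D_one, show 2 * (3 * i) = 6 * i by ring]; push_cast; ring
      · rw [← hz0, D_zero]; push_cast; ring
    obtain ⟨b1, hb1⟩ := a1
    obtain ⟨b2, hb2⟩ := a2
    rw [show 2 * (3 * i) = 6 * i by ring]
    exact ⟨b1 * z1 (3 * i) + ((n / 3 + i).choose (2 * i) : ℤ) * b2, by
      linear_combination (z1 (3 * i)) * hb1 + ((n / 3 + i).choose (2 * i) : ℤ) * hb2⟩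
  rw [hw', hr']
  have := dvd_add h4 h5
  rwa [sub_add_sub_cancel] at this

/-- `3` divides `9 g_j` for `r = 1` and `j` not divisible by `3` -/
theorem three_dvd (j : ℕ) (hj : j % 3 ≠ 0) (G : ℤ) (hG : 9 * g 1 j = G) : (3 : ℤ) ∣ G := by
  choose G1 hG1 using fun j => g_int 1 j
  choose G0 hG0 using fun j => g_int 0 j
  choose W hW using fun n => R_int 1 n
  choose V hV using fun n => R_int 0 n
  rw [D_one] at hG1 hW
  rw [D_zero] at hG0 hV
  push_cast at hG1 hG0 hW hV
  have hx : ∀ n, ∃ x : ℤ, W n ^ 2 - ∑ i ∈ range (n / 3 + 1),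
      ((n + 3 * i).choose (6 * i) : ℤ) * G0 i = 3 * x := by
    intro n
    have h1 := W_mod_three n (W n) (V (n / 3)) (hW n) (by rw [← hV]; ring)
    have h2 : V (n / 3) ^ 2 = ∑ i ∈ range (n / 3 + 1), ((n / 3 + i).choose (2 * i) : ℤ) * G0 i := by
      have : ((V (n / 3) ^ 2 : ℤ) : ℚ) =
          ((∑ i ∈ range (n / 3 + 1), ((n / 3 + i).choose (2 * i) : ℤ) * G0 i : ℤ) : ℚ) := by
        push_cast
        rw [← hV, one_mul, ← R_sq_g]
        refine Finset.sum_congr rfl fun i _ => ?_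
        rw [← hG0]; ring
      exact_mod_cast this
    have h3 : (3 : ℤ) ∣ (∑ i ∈ range (n / 3 + 1), ((n + 3 * i).choose (6 * i) : ℤ) * G0 i) -
        ∑ i ∈ range (n / 3 + 1), ((n / 3 + i).choose (2 * i) : ℤ) * G0 i := by
      rw [← Finset.sum_sub_distrib]
      apply Finset.dvd_sum
      intro i _
      rw [← sub_mul]
      exact Dvd.dvd.mul_right (lucas_three n i) _
    obtain ⟨a, ha⟩ := h1
    obtain ⟨b, hb⟩ := h3
    refine ⟨a * (W n + V (n / 3)) - b, ?_⟩
    linear_combination (W n + V (n / 3)) * ha - hb + h2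
  choose x hx using hx
  have hinv := inversion 3 (fun j => ((G1 j : ℤ) : ℚ) - (if j % 3 = 0 then ((G0 (j / 3) : ℤ) : ℚ) else 0))
    x (by
      intro n
      have h1 : ∑ j ∈ range (n + 1), ((n + j).choose (2 * j) : ℚ) * (G1 j : ℚ) = (W n : ℚ) ^ 2 := by
        rw [← hW, mul_pow, ← R_sq_g, Finset.mul_sum]
        refine Finset.sum_congr rfl fun i _ => ?_
        rw [← hG1]; ring
      have h2 : ∑ j ∈ range (n + 1), ((n + j).choose (2 * j) : ℚ) *
          (if j % 3 = 0 then ((G0 (j / 3) : ℤ) : ℚ) else 0) =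
          ∑ i ∈ range (n / 3 + 1), ((n + 3 * i).choose (6 * i) : ℚ) * (G0 i : ℚ) := by
        symm
        have e : ∀ j ∈ range (n + 1), ((n + j).choose (2 * j) : ℚ) *
            (if j % 3 = 0 then ((G0 (j / 3) : ℤ) : ℚ) else 0) =
            if j % 3 = 0 then ((n + j).choose (2 * j) : ℚ) * ((G0 (j / 3) : ℤ) : ℚ) else 0 := by
          intro j _
          split_ifs <;> simp
        rw [Finset.sum_congr rfl e, ← Finset.sum_filter]
        refine Finset.sum_bij (fun i _ => 3 * i) ?_ ?_ ?_ ?_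
        · intro i hi
          rw [Finset.mem_range] at hi
          rw [Finset.mem_filter, Finset.mem_range]
          omega
        · intro a _ b _ h
          have h' : 3 * a = 3 * b := h
          omega
        · intro k hk
          rw [Finset.mem_filter, Finset.mem_range] at hk
          exact ⟨k / 3, by rw [Finset.mem_range]; omega, by omega⟩
        · intro i _
          rw [show 2 * (3 * i) = 6 * i by ring, show 3 * i / 3 = i by omega]
      have h3 := congrArg (Int.cast : ℤ → ℚ) (hx n)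
      push_cast at h3 ⊢
      rw [← h3, ← h1, ← h2, ← Finset.sum_sub_distrib]
      exact Finset.sum_congr rfl fun i _ => by ring) j
  obtain ⟨z, hz⟩ := hinv
  simp only [hj, if_false, sub_zero] at hz
  have h9 : G = G1 j := by
    have : (G : ℚ) = (G1 j : ℚ) := by rw [← hG, ← hG1]; norm_num
    exact_mod_cast this
  rw [h9]
  exact ⟨z, by exact_mod_cast hz⟩

/-- `8 (j+1)` divides `9 g_j` for `r = 1` -/
theorem g1_dvd (j : ℕ) (hj : 1 ≤ j) : ∃ z : ℤ, 9 * g 1 j = 8 * (j + 1) * z := by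
  rcases Nat.lt_or_ge j 8 with h | h
  · exact small1 j hj (by omega)
  obtain ⟨G, hG⟩ := g_int 1 j
  have hG' : 9 * g 1 j = G := by rw [← hG, D_one]; push_cast; ring
  obtain ⟨I1, S, h1, h2⟩ := unified 1 j (by omega)
  obtain ⟨I2, h3⟩ := h2 3 (by
    intro f hf
    interval_cases f
    · exact ⟨1, by norm_num⟩
    · exact ⟨3, by norm_num⟩
    · exact ⟨-3, by norm_num⟩
    · exact ⟨-1, by norm_num⟩)
  obtain ⟨y, hy⟩ := prod_mod 1 j
  have hf3 : (2 * 1 + 1).factorial = 6 := rfl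
  have hf4 : (2 * 1 + 2).factorial = 24 := rfl
  rw [hf4] at hy
  rw [hf3, D_one] at h1
  have hy' := congrArg (Int.cast : ℤ → ℚ) hy
  have h3' := congrArg (Int.cast : ℤ → ℚ) h3
  have e1 : (((24 * G : ℤ)) : ℚ) = (((3 * ((j : ℤ) + 1) * (I1 - 2 * I2) - (j + 1) * (y * G)) : ℤ) : ℚ) := by
    push_cast at h1 h3' hy' ⊢
    rw [← hG']
    linear_combination 3 * h1 - 6 * h3' - (9 * g 1 j) * hy'
  have e2 : (24 : ℤ) * G = 3 * ((j : ℤ) + 1) * (I1 - 2 * I2) - (j + 1) * (y * G) := by exact_mod_cast e1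
  have e4 : ((j : ℤ) + 1) ∣ 8 * G := by
    by_cases h5 : (j + 1) % 3 = 0
    · obtain ⟨G', hG3⟩ := three_dvd j (by omega) G hG'
      refine ⟨I1 - 2 * I2 - y * G', ?_⟩
      have h6 : (3 : ℤ) ≠ 0 := by norm_num
      apply mul_left_cancel₀ h6
      linear_combination e2 - ((j : ℤ) + 1) * y * hG3
    · have h6 : ((j : ℤ) + 1) ∣ 3 * (8 * G) := ⟨3 * (I1 - 2 * I2) - y * G, by linear_combination e2⟩
      have hcop : IsCoprime ((j : ℤ) + 1) 3 := by
        have h7 : Nat.Coprime 3 (j + 1) := (Nat.Prime.coprime_iff_not_dvd Nat.prime_three).2 (by omega)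
        have h8 := Nat.isCoprime_iff_coprime.2 h7
        push_cast at h8
        exact h8.symm
      exact hcop.dvd_of_dvd_mul_left h6
  have e3 : (2 : ℤ) ^ 3 * ((j + 1 : ℕ) : ℤ) ∣ G := by
    apply combine (j + 1) 3 3 (j + 2 - Nat.log 2 (2 * j)) (by omega) G
    · push_cast
      exact e4
    · exact two_part j G (two_pow_dvd_g 1 j hj G hG)
    · have a1 := fact_le_log (j + 1) (by omega)
      rcases Nat.lt_or_ge j 9 with h9 | h9
      · have : j = 8 := by omega
        subst this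
        have a2 : Nat.log 2 (2 * 8) < 5 := Nat.log_lt_of_lt_pow (by omega) (by omega)
        have a3 : Nat.log 2 (8 + 1) < 4 := Nat.log_lt_of_lt_pow (by omega) (by omega)
        omega
      · have := bounds j h9
        omega
  obtain ⟨z, hz⟩ := e3
  refine ⟨z, ?_⟩
  rw [hG', hz]
  push_cast; ring

/-- the sum of `(2k+1) W_k^2` -/
theorem W_sum (n : ℕ) : ∃ z : ℤ, ∑ k ∈ range n, (2 * (k : ℚ) + 1) * (3 * R (al 1) k) ^ 2 =
    (n : ℚ) ^ 2 + 8 * n * z := by
  rcases n with _ | n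
  · exact ⟨0, by simp⟩
  have hz : ∀ j : ℕ, ∃ z : ℤ, 9 * g 1 (j + 1) = 8 * (((j + 1 : ℕ) : ℚ) + 1) * z := fun j =>
    g1_dvd (j + 1) (by omega)
  choose z hz using hz
  refine ⟨∑ j ∈ range n, (2 * ((j : ℤ) + 1) + 1) * ((n + 1 + (j + 1)).choose (2 * (j + 1) + 1) : ℤ) * z j, ?_⟩
  have e2 : ∑ k ∈ range (n + 1), (2 * (k : ℚ) + 1) * (3 * R (al 1) k) ^ 2 =
      9 * ∑ k ∈ range (n + 1), (2 * (k : ℚ) + 1) * R (al 1) k ^ 2 := by
    rw [Finset.mul_sum]
    exact Finset.sum_congr rfl fun k _ => by ring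
  rw [e2, weighted_squares, Finset.sum_range_succ']
  have e0 : (2 * ((0 : ℕ) : ℚ) + 1) * ((n + 1 + 0).choose (2 * 0 + 1) : ℚ) *
      (((2 * 0).choose 0 : ℚ) * SqExp.r (al 1) 0 / (((0 : ℕ) : ℚ) + 1)) = (n + 1) / 9 := by
    have : SqExp.r (al 1) 0 = 1 / 9 := by decide +kernel
    rw [this]; simp; ring
  rw [e0]
  push_cast
  have e1 : 9 * ∑ j ∈ range n, (2 * ((j : ℚ) + 1) + 1) * ((n + 1 + (j + 1)).choose (2 * (j + 1) + 1) : ℚ) *
      (((2 * (j + 1)).choose (j + 1) : ℚ) * SqExp.r (al 1) (j + 1) / ((j : ℚ) + 1 + 1)) =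
      8 * ∑ j ∈ range n, (2 * ((j : ℚ) + 1) + 1) *
        ((n + 1 + (j + 1)).choose (2 * (j + 1) + 1) : ℚ) * z j := by
    rw [Finset.mul_sum, Finset.mul_sum]
    refine Finset.sum_congr rfl fun j _ => ?_
    have h := hz j
    unfold g at h
    push_cast at h
    have n1 : (j : ℚ) + 1 + 1 ≠ 0 := by positivity
    have h' : ((2 * (j + 1)).choose (j + 1) : ℚ) * SqExp.r (al 1) (j + 1) / ((j : ℚ) + 1 + 1) =
        8 / 9 * z j := by
      rw [div_eq_iff n1]
      linear_combination h / 9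
    rw [h']; ring
  linear_combination ((n : ℚ) + 1) * e1

end Q277.RSquares
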