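import Mathlib
import Pool.Agent.Q277.Clausen
import Pool.Agent.Q277.WSquares

/-!
# The self-convolution of `C(6k,3k) C(3k,k)`
-/

open Finset

namespace Q277.Sextic

/-- `t_k = C(6k,3k) C(3k,k)` -/
def t (k : ℕ) : ℕ := (6 * k).choose (3 * k) * (3 * k).choose k

theorem t_fact (k : ℕ) : t k * ((3 * k).factorial * (2 * k).factorial * k.factorial) =
    (6 * k).factorial := by
  have h1 := Nat.choose_mul_factorial_mul_factorial (n := 6 * k) (k := 3 * k) (by omega)
  have h2 := Nat.choose_mul_factorial_mul_factorial (n := 3 * k) (k := k) (by omega)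
  rw [show 6 * k - 3 * k = 3 * k by omega] at h1
  rw [show 3 * k - k = 2 * k by omega] at h2
  unfold t
  calc (6 * k).choose (3 * k) * (3 * k).choose k * ((3 * k).factorial * (2 * k).factorial * k.factorial)
      = (6 * k).choose (3 * k) * (3 * k).factorial * ((3 * k).choose k * k.factorial * (2 * k).factorial) := by
        ring
    _ = (6 * k).factorial := by rw [h2, h1]

theorem t_pos (k : ℕ) : 0 < t k :=
  Nat.mul_pos (Nat.choose_pos (by omega)) (Nat.choose_pos (by omega))

theorem t_zero : t 0 = 1 := rfl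

theorem t_rec (k : ℕ) : ((k : ℚ) + 1) ^ 2 * (t (k + 1) : ℚ) = (432 * k * (k + 1) + 60) * t k := by
  have h1 := congrArg (Nat.cast : ℕ → ℚ) (t_fact k)
  have h2 := congrArg (Nat.cast : ℕ → ℚ) (t_fact (k + 1))
  rw [show 6 * (k + 1) = 6 * k + 1 + 1 + 1 + 1 + 1 + 1 by ring,
    show 3 * (k + 1) = 3 * k + 1 + 1 + 1 by ring, show 2 * (k + 1) = 2 * k + 1 + 1 by ring] at h2
  simp only [Nat.factorial_succ] at h2
  push_cast at h1 h2
  rw [← h1] at h2
  have n1 : ((3 * k).factorial : ℚ) ≠ 0 := by exact_mod_cast (3 * k).factorial_ne_zero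
  have n2 : ((2 * k).factorial : ℚ) ≠ 0 := by exact_mod_cast (2 * k).factorial_ne_zero
  have n3 : ((k).factorial : ℚ) ≠ 0 := by exact_mod_cast (k).factorial_ne_zero
  have n4 : (3 * (k : ℚ) + 1) * (3 * k + 2) * (3 * k + 3) * (2 * k + 1) * 2 ≠ 0 := by positivity
  have n5 : ((3 * k).factorial : ℚ) * (2 * k).factorial * k.factorial *
      ((3 * (k : ℚ) + 1) * (3 * k + 2) * (3 * k + 3) * (2 * k + 1) * 2) ≠ 0 :=
    mul_ne_zero (mul_ne_zero (mul_ne_zero n1 n2) n3) n4
  apply mul_left_cancel₀ n5
  linear_combination h2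

/-- the Clausen form -/
theorem conv (n : ℕ) : ∑ k ∈ range (n + 1), (t k : ℤ) * t (n - k) =
    ∑ k ∈ range (n + 1), ((2 * k).choose k : ℤ) * t k * ((k.choose (n - k) : ℤ) * (-432) ^ (n - k)) := by
  have h := Clausen.convolution 432 60 (fun k => (t k : ℚ)) (by simp [t_zero]) t_rec n
  exact_mod_cast h

/-! ### termwise divisibility -/

theorem aux1 (K : ℕ) : K / 2 + K / 3 + K / 6 ≤ K := by omega

theorem aux2 (K : ℕ) (h : K % 6 ≠ 0) : K / 2 + K / 3 + K / 6 + 1 ≤ K := by omega

theorem aux3 (N : ℕ) : N / 2 ≤ N / 6 + N / 3 + 1 := by omega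

theorem aux4 (N : ℕ) (h : N % 6 = 0 ∨ N % 6 = 1 ∨ N % 6 = 3) : N / 2 ≤ N / 6 + N / 3 := by omega

theorem aux5 (K M N : ℕ) (h1 : K + M ≤ N) (h2 : N ≤ K + M + 1) :
    N / 2 + (K / 2 + K / 3 + K / 6) + (M / 2 + M / 3 + M / 6) ≤ K + M + N / 6 + N / 3 := by
  have a1 := aux1 K
  have a2 := aux1 M
  by_cases hK : K % 6 = 0
  · by_cases hM : M % 6 = 0
    · have a3 := aux4 N (by omega)
      generalize K / 2 + K / 3 + K / 6 = x at *
      generalize M / 2 + M / 3 + M / 6 = y at *
      linarith
    · have a4 := aux2 M hM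
      have a3 := aux3 N
      linarith
  · have a4 := aux2 K hK
    have a3 := aux3 N
    linarith

theorem aux6 (K M j : ℕ) (hj : j % 2 = 1) (h1 : K + M ≤ 3 * j) (h2 : 3 * j ≤ K + M + 1) :
    1 + 3 * j / 2 + (K / 2 + K / 3 + K / 6) + (M / 2 + M / 3 + M / 6) ≤
      K + M + 3 * j / 6 + 3 * j / 3 := by
  have a1 := aux1 K
  have a2 := aux1 M
  have a3 := aux4 (3 * j) (by omega)
  by_cases hK : K % 6 = 0
  · have hM : M % 6 ≠ 0 := by omega
    have a4 := aux2 M hM
    linarith
  · have a4 := aux2 K hK
    linarith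

/-- the inequality for one prime power `q` -/
theorem floor_ineq (k m q : ℕ) (hq : 3 < q ∨ q = 2) (hkm : 1 ≤ k + m) :
    (if q ∣ 2 * (k + m) - 1 then 1 else 0) + (3 * (k + m)) / q + ((3 * k) / q + (2 * k) / q + k / q) +
      ((3 * m) / q + (2 * m) / q + m / q) ≤
      (6 * k) / q + (6 * m) / q + (k + m) / q + (2 * (k + m)) / q := by
  have hq0 : 0 < q := by omega
  have e3 : ∀ x : ℕ, (3 * x) / q = (6 * x) / q / 2 := by
    intro x; rw [Nat.div_div_eq_div_mul, mul_comm q 2, show 6 * x = 2 * (3 * x) by ring,
      Nat.mul_div_mul_left _ _ (by norm_num)]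
  have e2 : ∀ x : ℕ, (2 * x) / q = (6 * x) / q / 3 := by
    intro x; rw [Nat.div_div_eq_div_mul, mul_comm q 3, show 6 * x = 3 * (2 * x) by ring,
      Nat.mul_div_mul_left _ _ (by norm_num)]
  have e1 : ∀ x : ℕ, x / q = (6 * x) / q / 6 := by
    intro x; rw [Nat.div_div_eq_div_mul, mul_comm q 6, Nat.mul_div_mul_left _ _ (by norm_num)]
  have hadd : (6 * k) / q + (6 * m) / q ≤ (6 * (k + m)) / q ∧
      (6 * (k + m)) / q ≤ (6 * k) / q + (6 * m) / q + 1 := by
    constructor
    · rw [Nat.le_div_iff_mul_le hq0]
      have h1 := Nat.div_mul_le_self (6 * k) q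
      have h2 := Nat.div_mul_le_self (6 * m) q
      calc ((6 * k) / q + (6 * m) / q) * q = (6 * k) / q * q + (6 * m) / q * q := by ring
        _ ≤ 6 * (k + m) := by omega
    · rw [← Nat.lt_succ_iff, Nat.div_lt_iff_lt_mul hq0]
      have h1 := Nat.lt_div_mul_add hq0 (a := 6 * k)
      have h2 := Nat.lt_div_mul_add hq0 (a := 6 * m)
      calc 6 * (k + m) = 6 * k + 6 * m := by ring
        _ < ((6 * k) / q * q + q) + ((6 * m) / q * q + q) := by omega
        _ = ((6 * k) / q + (6 * m) / q + 1).succ * q := by rw [Nat.succ_eq_add_one]; ring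
  rw [e3 (k + m), e3 k, e3 m, e2 k, e2 m, e2 (k + m), e1 k, e1 m, e1 (k + m)]
  split_ifs with hd
  · obtain ⟨j, hj⟩ := hd
    -- `q` is odd, `j` is odd
    have hq3 : 3 < q := by
      rcases hq with h | h
      · exact h
      · exfalso
        rw [h] at hj
        omega
    have hodd : j % 2 = 1 := by
      by_contra h
      have : 2 ∣ q * j := Dvd.dvd.mul_left (by omega) q
      omega
    have hN : (6 * (k + m)) / q = 3 * j := by
      have : 6 * (k + m) = 3 + q * (3 * j) := by
        have : 2 * (k + m) = q * j + 1 := by omega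
        calc 6 * (k + m) = 3 * (2 * (k + m)) := by ring
          _ = 3 * (q * j + 1) := by rw [this]
          _ = _ := by ring
      rw [this, Nat.add_mul_div_left _ _ hq0, Nat.div_eq_of_lt hq3, zero_add]
    rw [hN] at hadd ⊢
    exact aux6 _ _ j hodd hadd.1 hadd.2
  · rw [zero_add]
    exact aux5 _ _ _ hadd.1 hadd.2

theorem fact_ineq (p k m : ℕ) (hp : p.Prime) (hp3 : p ≠ 3) (hkm : 1 ≤ k + m) :
    (2 * (k + m) - 1).factorization p + (3 * (k + m)).factorial.factorization p +
      ((3 * k).factorial.factorization p + (2 * k).factorial.factorization p +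
        k.factorial.factorization p) +
      ((3 * m).factorial.factorization p + (2 * m).factorial.factorization p +
        m.factorial.factorization p) ≤
      (6 * k).factorial.factorization p + (6 * m).factorial.factorization p +
      (k + m).factorial.factorization p + (2 * (k + m)).factorial.factorization p := by
  set b := 6 * (k + m) + 1 with hb
  have hlog : ∀ x : ℕ, x ≤ 6 * (k + m) → Nat.log p x < b := by
    intro x hx
    have := Nat.log_le_self p x
    omega
  rw [Nat.factorization_factorial hp (hlog (3 * (k + m)) (by omega)),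
    Nat.factorization_factorial hp (hlog (3 * k) (by omega)),
    Nat.factorization_factorial hp (hlog (2 * k) (by omega)),
    Nat.factorization_factorial hp (hlog k (by omega)),
    Nat.factorization_factorial hp (hlog (3 * m) (by omega)),
    Nat.factorization_factorial hp (hlog (2 * m) (by omega)),
    Nat.factorization_factorial hp (hlog m (by omega)),
    Nat.factorization_factorial hp (hlog (6 * k) (by omega)),
    Nat.factorization_factorial hp (hlog (6 * m) (by omega)),
    Nat.factorization_factorial hp (hlog (k + m) (by omega)),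
    Nat.factorization_factorial hp (hlog (2 * (k + m)) (by omega))]
  have hpow : 2 * (k + m) - 1 < p ^ b := by
    have h1 : b < p ^ b := Nat.lt_pow_self hp.one_lt
    omega
  rw [Nat.factorization_eq_card_pow_dvd_of_lt hp (by omega) hpow, Finset.card_filter]
  simp only [← Finset.sum_add_distrib]
  apply Finset.sum_le_sum
  intro i hi
  rw [Finset.mem_Ico] at hi
  have hq : 3 < p ^ i ∨ p ^ i = 2 := by
    rcases Nat.lt_or_ge 3 p with h | h
    · left
      exact lt_of_lt_of_le h (Nat.le_self_pow (by omega) p)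
    · have h2 : p = 2 := by
        have := hp.two_le
        omega
      subst h2
      rcases Nat.lt_or_ge 1 i with h3 | h3
      · left
        calc 3 < 2 ^ 2 := by norm_num
          _ ≤ 2 ^ i := Nat.pow_le_pow_right (by norm_num) h3
      · right
        have : i = 1 := by omega
        rw [this, pow_one]
  exact floor_ineq k m (p ^ i) hq hkm

theorem t_factorization (p k : ℕ) : (t k).factorization p + ((3 * k).factorial.factorization p +
    (2 * k).factorial.factorization p + k.factorial.factorization p) =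
    (6 * k).factorial.factorization p := by
  rw [← t_fact k, Nat.factorization_mul (t_pos k).ne' (by positivity),
    Nat.factorization_mul (by positivity) (by positivity),
    Nat.factorization_mul (by positivity) (by positivity)]
  simp only [Finsupp.add_apply]

theorem choose_factorization (p n : ℕ) : ((3 * n).choose n).factorization p +
    (n.factorial.factorization p + (2 * n).factorial.factorization p) =
    (3 * n).factorial.factorization p := by
  have h := Nat.choose_mul_factorial_mul_factorial (n := 3 * n) (k := n) (by omega)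
  rw [show 3 * n - n = 2 * n by omega] at h
  have hpos : 0 < (3 * n).choose n := Nat.choose_pos (by omega)
  rw [← h, Nat.factorization_mul (by positivity) (by positivity),
    Nat.factorization_mul (by positivity) (by positivity)]
  simp only [Finsupp.add_apply]
  ring

open Q277.RSquares (U3 fact_three U3_mod)

theorem U3_pos (i : ℕ) : 0 < U3 i := by
  unfold U3
  apply Finset.prod_pos
  intro l _
  positivity

theorem U3_not_dvd (i : ℕ) : ¬ 3 ∣ U3 i := by
  intro h
  have h1 := U3_mod i
  have h2 : U3 i % 3 = 0 := by omega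
  have h3 : 2 ^ i % 3 = 0 := by rw [← h1, h2]
  have h4 : 3 ∣ 2 ^ i := Nat.dvd_of_mod_eq_zero h3
  have := Nat.Prime.dvd_of_dvd_pow Nat.prime_three h4
  omega

/-- the identity used for the prime `3` -/
theorem three_identity (k m : ℕ) : t k * t m * (U3 k * U3 m * U3 (k + m)) =
    (3 * (k + m)).choose (k + m) * ((2 * (k + m)).choose (k + m) * (k + m).choose k ^ 2) *
      (U3 (2 * k) * U3 (2 * m)) := by
  have a1 := t_fact k
  have a2 := t_fact m
  have a3 := Nat.choose_mul_factorial_mul_factorial (n := 3 * (k + m)) (k := k + m) (by omega)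
  have a4 := Nat.choose_mul_factorial_mul_factorial (n := 2 * (k + m)) (k := k + m) (by omega)
  have a5 := Nat.choose_mul_factorial_mul_factorial (n := k + m) (k := k) (by omega)
  rw [show 3 * (k + m) - (k + m) = 2 * (k + m) by omega] at a3
  rw [show 2 * (k + m) - (k + m) = k + m by omega] at a4
  rw [show k + m - k = m by omega] at a5
  have b1 := fact_three (2 * k)
  have b2 := fact_three (2 * m)
  have b3 := fact_three k
  have b4 := fact_three m
  have b5 := fact_three (k + m)
  rw [show 3 * (2 * k) = 6 * k by ring] at b1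
  rw [show 3 * (2 * m) = 6 * m by ring] at b2
  rw [b1, b3] at a1
  rw [b2, b4] at a2
  rw [b5] at a3
  have hpos : 0 < (3 ^ k * k.factorial * (2 * k).factorial * k.factorial) *
      (3 ^ m * m.factorial * (2 * m).factorial * m.factorial) * ((k + m).factorial * (2 * (k + m)).factorial) := by
    positivity
  apply Nat.eq_of_mul_eq_mul_right hpos
  have e1 : t k * t m * (U3 k * U3 m * U3 (k + m)) * ((3 ^ k * k.factorial * (2 * k).factorial * k.factorial) *
      (3 ^ m * m.factorial * (2 * m).factorial * m.factorial) * ((k + m).factorial * (2 * (k + m)).factorial)) =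
      (t k * (3 ^ k * k.factorial * U3 k * (2 * k).factorial * k.factorial)) *
      (t m * (3 ^ m * m.factorial * U3 m * (2 * m).factorial * m.factorial)) *
      (U3 (k + m) * ((k + m).factorial * (2 * (k + m)).factorial)) := by ring
  rw [e1, a1, a2]
  have e2 : (3 * (k + m)).choose (k + m) * ((2 * (k + m)).choose (k + m) * (k + m).choose k ^ 2) *
      (U3 (2 * k) * U3 (2 * m)) * ((3 ^ k * k.factorial * (2 * k).factorial * k.factorial) *
      (3 ^ m * m.factorial * (2 * m).factorial * m.factorial) * ((k + m).factorial * (2 * (k + m)).factorial)) =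
      ((3 * (k + m)).choose (k + m) * (k + m).factorial * (2 * (k + m)).factorial) *
      ((2 * (k + m)).choose (k + m) * ((k + m).choose k * k.factorial * m.factorial) *
        ((k + m).choose k * k.factorial * m.factorial)) *
      (U3 (2 * k) * U3 (2 * m)) * (3 ^ k * (2 * k).factorial * 3 ^ m * (2 * m).factorial) := by ring
  rw [e2, a3, a5, a4]
  rw [show 3 ^ (2 * k) = 3 ^ k * 3 ^ k by rw [two_mul, pow_add],
    show 3 ^ (2 * m) = 3 ^ m * 3 ^ m by rw [two_mul, pow_add], pow_add]
  ring

theorem dvd_central (n : ℕ) (hn : 1 ≤ n) : (2 * n - 1) ∣ (2 * n).choose n := by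
  obtain ⟨l, rfl⟩ : ∃ l, n = l + 1 := ⟨n - 1, by omega⟩
  have h1 := Nat.succ_mul_centralBinom_succ l
  have h2 := succ_mul_catalan_eq_centralBinom l
  unfold Nat.centralBinom at h1 h2
  rw [← h2] at h1
  have h3 : (2 * (l + 1)).choose (l + 1) = (2 * (l + 1) - 1) * (2 * catalan l) := by
    have hpos : 0 < l + 1 := by omega
    apply Nat.eq_of_mul_eq_mul_left hpos
    rw [h1, show 2 * (l + 1) - 1 = 2 * l + 1 by omega]
    ring
  exact ⟨_, h3⟩

/-- every summand is divisible -/
theorem term_dvd (k m : ℕ) (hkm : 1 ≤ k + m) :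
    (2 * (k + m) - 1) * (3 * (k + m)).choose (k + m) ∣ t k * t m := by
  have hC : 0 < (3 * (k + m)).choose (k + m) := Nat.choose_pos (by omega)
  have h0 : (2 * (k + m) - 1) ≠ 0 := by omega
  rw [← Nat.factorization_prime_le_iff_dvd (mul_ne_zero h0 hC.ne')
    (mul_ne_zero (t_pos k).ne' (t_pos m).ne')]
  intro p hp
  rw [Nat.factorization_mul h0 hC.ne', Nat.factorization_mul (t_pos k).ne' (t_pos m).ne']
  simp only [Finsupp.add_apply]
  by_cases hp3 : p = 3
  · subst hp3
    have h1 := three_identity k m
    obtain ⟨c, hc⟩ := dvd_central (k + m) hkm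
    have hcb : 0 < (2 * (k + m)).choose (k + m) := Nat.choose_pos (by omega)
    have hcc : 0 < (k + m).choose k := Nat.choose_pos (by omega)
    have hc0 : c ≠ 0 := by
      intro h; rw [h, mul_zero] at hc; omega
    have h2 := congrArg (fun x => x.factorization 3) h1
    have hu := fun i => (U3_pos i).ne'
    rw [hc] at h2
    rw [Nat.factorization_mul (mul_ne_zero (t_pos k).ne' (t_pos m).ne')
        (mul_ne_zero (mul_ne_zero (hu _) (hu _)) (hu _)),
      Nat.factorization_mul (t_pos k).ne' (t_pos m).ne',
      Nat.factorization_mul (mul_ne_zero (hu _) (hu _)) (hu _), Nat.factorization_mul (hu _) (hu _),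
      Nat.factorization_mul (mul_ne_zero hC.ne' (mul_ne_zero (mul_ne_zero h0 hc0) (by positivity)))
        (mul_ne_zero (hu _) (hu _)),
      Nat.factorization_mul hC.ne' (mul_ne_zero (mul_ne_zero h0 hc0) (by positivity)),
      Nat.factorization_mul (mul_ne_zero h0 hc0) (by positivity),
      Nat.factorization_mul h0 hc0, Nat.factorization_mul (hu _) (hu _)] at h2
    simp only [Finsupp.add_apply] at h2
    have hz := fun i => Nat.factorization_eq_zero_of_not_dvd (U3_not_dvd i)
    rw [hz, hz, hz, hz, hz] at h2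
    omega
  · have h1 := fact_ineq p k m hp hp3 hkm
    have h2 := t_factorization p k
    have h3 := t_factorization p m
    have h4 := choose_factorization p (k + m)
    omega

end Q277.Sextic
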