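import Mathlib
import Pool.Agent.Q277.SexticConv

/-!
# The power of two in the self-convolution of `C(6k,3k) C(3k,k)`
-/

open Finset

namespace Q277.Sextic

/-- binary digit sum -/
def s (x : ℕ) : ℕ := (Nat.digits 2 x).sum

theorem s_zero : s 0 = 0 := by simp [s]

theorem s_step (x : ℕ) : s x = x % 2 + s (x / 2) := by
  rcases Nat.eq_zero_or_pos x with h | h
  · subst h; simp [s]
  · unfold s
    rw [Nat.digits_def' (by norm_num) h, List.sum_cons]

theorem s_two_mul (x : ℕ) : s (2 * x) = s x := by
  rw [s_step, show 2 * x % 2 = 0 by omega, show 2 * x / 2 = x by omega, zero_add]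

theorem s_odd (x : ℕ) : s (2 * x + 1) = s x + 1 := by
  rw [s_step, show (2 * x + 1) % 2 = 1 by omega, show (2 * x + 1) / 2 = x by omega, add_comm]

theorem v_fact (x : ℕ) : x.factorial.factorization 2 + s x = x := by
  have h := Nat.sub_one_mul_factorization_factorial (n := x) Nat.prime_two
  have h2 := Nat.digit_sum_le 2 x
  unfold s
  omega

theorem s_pos (x : ℕ) (h : 1 ≤ x) : 1 ≤ s x := by
  induction x using Nat.strong_induction_on with
  | _ x ih =>
    rw [s_step]
    rcases Nat.mod_two_eq_zero_or_one x with h2 | h2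
    · have := ih (x / 2) (by omega) (by omega)
      omega
    · omega

theorem s_pow (j : ℕ) : s (2 ^ j) = 1 := by
  induction j with
  | zero => simp [s]
  | succ j ih => rw [pow_succ, mul_comm, s_two_mul, ih]

theorem s_eq_one (x : ℕ) (h : s x = 1) : ∃ j, x = 2 ^ j := by
  induction x using Nat.strong_induction_on with
  | _ x ih =>
    have h1 := s_step x
    rcases Nat.mod_two_eq_zero_or_one x with h2 | h2
    · have hx : x ≠ 0 := by
        intro h0; rw [h0, s_zero] at h; omega
      obtain ⟨j, hj⟩ := ih (x / 2) (by omega) (by omega)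
      refine ⟨j + 1, ?_⟩
      rw [pow_succ, ← hj]; omega
    · rcases Nat.eq_zero_or_pos (x / 2) with h3 | h3
      · exact ⟨0, by omega⟩
      · have := s_pos (x / 2) h3
        omega

theorem s_three_pow (j : ℕ) : s (3 * 2 ^ j) = 2 := by
  induction j with
  | zero => simp [s]
  | succ j ih => rw [pow_succ, show 3 * (2 ^ j * 2) = 2 * (3 * 2 ^ j) by ring, s_two_mul, ih]

theorem s_three (n : ℕ) (hn : 1 ≤ n) : 2 ≤ s (3 * n) := by
  have h1 := s_pos (3 * n) (by omega)
  by_contra h
  obtain ⟨j, hj⟩ := s_eq_one (3 * n) (by omega)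
  have h2 : 3 ∣ 2 ^ j := ⟨n, hj.symm⟩
  have := Nat.Prime.dvd_of_dvd_pow Nat.prime_three h2
  omega

theorem s_add_le (k i : ℕ) : s (k + i) ≤ s k + s i := by
  have h := Nat.choose_mul_factorial_mul_factorial (n := k + i) (k := k) (by omega)
  rw [show k + i - k = i by omega] at h
  have hpos : 0 < (k + i).choose k := Nat.choose_pos (by omega)
  have h2 := congrArg (fun x => x.factorization 2) h
  rw [Nat.factorization_mul (by positivity) (by positivity),
    Nat.factorization_mul (by positivity) (by positivity)] at h2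
  simp only [Finsupp.add_apply] at h2
  have h3 := v_fact k
  have h4 := v_fact i
  have h5 := v_fact (k + i)
  omega

theorem s_le (x : ℕ) : s x ≤ x := Nat.digit_sum_le 2 x

theorem v_central (n : ℕ) : ((2 * n).choose n).factorization 2 = s n := by
  have h := Nat.choose_mul_factorial_mul_factorial (n := 2 * n) (k := n) (by omega)
  rw [show 2 * n - n = n by omega] at h
  have hpos : 0 < (2 * n).choose n := Nat.choose_pos (by omega)
  have h2 := congrArg (fun x => x.factorization 2) h
  rw [Nat.factorization_mul (by positivity) (by positivity),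
    Nat.factorization_mul (by positivity) (by positivity)] at h2
  simp only [Finsupp.add_apply] at h2
  have h3 := v_fact n
  have h4 := v_fact (2 * n)
  rw [s_two_mul] at h4
  omega

theorem v_three (n : ℕ) : ((3 * n).choose n).factorization 2 + s (3 * n) = 2 * s n := by
  have h := choose_factorization 2 n
  have h3 := v_fact n
  have h4 := v_fact (2 * n)
  have h5 := v_fact (3 * n)
  rw [s_two_mul] at h4
  omega

/-- the valuation of the terms of the Clausen form -/
theorem v_term (k i : ℕ) (hi : i ≤ k) :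
    ((2 * k).choose k * t k * k.choose i).factorization 2 = 2 * s k + s i + s (k - i) := by
  have h1 := Nat.choose_mul_factorial_mul_factorial (n := 2 * k) (k := k) (by omega)
  rw [show 2 * k - k = k by omega] at h1
  have h2 := t_fact k
  have h3 := Nat.choose_mul_factorial_mul_factorial (n := k) (k := i) hi
  have hpos1 : 0 < (2 * k).choose k := Nat.choose_pos (by omega)
  have hpos2 : 0 < k.choose i := Nat.choose_pos hi
  have hpos3 := t_pos k
  have h4 : (2 * k).choose k * t k * k.choose i *
      (k.factorial * k.factorial * i.factorial * (k - i).factorial * (3 * k).factorial) =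
      (6 * k).factorial := by
    calc (2 * k).choose k * t k * k.choose i *
        (k.factorial * k.factorial * i.factorial * (k - i).factorial * (3 * k).factorial)
        = ((2 * k).choose k * k.factorial * k.factorial) * t k *
          (k.choose i * i.factorial * (k - i).factorial) * (3 * k).factorial := by ring
      _ = t k * ((3 * k).factorial * (2 * k).factorial * k.factorial) := by rw [h1, h3]; ring
      _ = _ := h2
  have h5 := congrArg (fun x => x.factorization 2) h4
  rw [Nat.factorization_mul (by positivity) (by positivity),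
    Nat.factorization_mul (b := (3 * k).factorial) (by positivity) (by positivity),
    Nat.factorization_mul (b := (k - i).factorial) (by positivity) (by positivity),
    Nat.factorization_mul (b := i.factorial) (by positivity) (by positivity),
    Nat.factorization_mul (a := k.factorial) (by positivity) (by positivity)] at h5
  simp only [Finsupp.add_apply] at h5
  have a1 := v_fact k
  have a2 := v_fact i
  have a3 := v_fact (k - i)
  have a4 := v_fact (3 * k)
  have a5 := v_fact (6 * k)
  rw [show 6 * k = 2 * (3 * k) by ring, s_two_mul, show 2 * (3 * k) = 6 * k by ring] at a5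
  omega

/-- the small terms -/
theorem small_term (n k : ℕ) (hk : k < n) : (2 : ℤ) ^ (((3 * n).choose n).factorization 2 + 5) ∣
    ((2 * k).choose k : ℤ) * t k * ((k.choose (n - k) : ℤ) * (-432) ^ (n - k)) := by
  obtain ⟨i, rfl⟩ := Nat.exists_eq_add_of_lt hk
  rw [show k + i + 1 - k = i + 1 by omega]
  rcases Nat.lt_or_ge k (i + 1) with h | h
  · rw [Nat.choose_eq_zero_of_lt h]; simp
  · have hv := v_term k (i + 1) h
    set T := (2 * k).choose k * t k * k.choose (i + 1) with hT
    have hdvd : 2 ^ T.factorization 2 ∣ T := Nat.ordProj_dvd T 2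
    rw [hv] at hdvd
    have hv3 := v_three (k + i + 1)
    have h1 := s_add_le k (i + 1)
    have h2 := s_le (i + 1)
    have h3 := s_three (k + i + 1) (by omega)
    rw [← add_assoc] at h1
    obtain ⟨c, hc⟩ := hdvd
    have hc' := congrArg (Nat.cast : ℕ → ℤ) hc
    rw [hT] at hc'
    push_cast at hc'
    have e : ((2 * k).choose k : ℤ) * t k * ((k.choose (i + 1) : ℤ) * (-432) ^ (i + 1)) =
        2 ^ (2 * s k + s (i + 1) + s (k - (i + 1)) + 4 * (i + 1)) * (c * (-27) ^ (i + 1)) := by
      rw [show (-432 : ℤ) = 2 ^ 4 * (-27) by norm_num, mul_pow, ← pow_mul, pow_add _ _ (4 * (i + 1))]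
      linear_combination ((2 : ℤ) ^ (4 * (i + 1)) * (-27) ^ (i + 1)) * hc'
    rw [e]
    apply Dvd.dvd.mul_right
    apply pow_dvd_pow
    omega

/-- the main statement -/
theorem main (n : ℕ) (hn : 1 ≤ n) : ∃ a : ℕ, ∑ k ∈ range (n + 1), t k * t (n - k) =
    ((2 * n - 1) * (3 * n).choose n) * a ∧ 8 ∣ a ∧ ((a / 8) % 2 = 1 ↔ ∃ j, n = 2 ^ j) := by
  -- divisibility
  have hD : (2 * n - 1) * (3 * n).choose n ∣ ∑ k ∈ range (n + 1), t k * t (n - k) := by
    apply Finset.dvd_sum
    intro k hk
    rw [Finset.mem_range] at hk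
    have := term_dvd k (n - k) (by omega)
    rwa [show k + (n - k) = n by omega] at this
  obtain ⟨a, ha⟩ := hD
  refine ⟨a, ha, ?_⟩
  -- the two-adic expansion
  set e := ((3 * n).choose n).factorization 2 with he
  have hC0 : (3 * n).choose n ≠ 0 := (Nat.choose_pos (by omega)).ne'
  have hC : 2 ^ e * ((3 * n).choose n / 2 ^ e) = (3 * n).choose n :=
    Nat.ordProj_mul_ordCompl_eq_self _ 2
  have hm : Nat.Coprime 2 ((3 * n).choose n / 2 ^ e) := Nat.coprime_ordCompl Nat.prime_two hC0
  set c := (3 * n).choose n / 2 ^ e with hc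
  have hconv := conv n
  rw [Finset.sum_range_succ (fun k => ((2 * k).choose k : ℤ) * t k *
      ((k.choose (n - k) : ℤ) * (-432) ^ (n - k))) n] at hconv
  have hz : (2 : ℤ) ^ (e + 5) ∣ ∑ k ∈ range n, ((2 * k).choose k : ℤ) * t k *
      ((k.choose (n - k) : ℤ) * (-432) ^ (n - k)) := by
    apply Finset.dvd_sum
    intro k hk
    exact small_term n k (Finset.mem_range.1 hk)
  obtain ⟨z, hz⟩ := hz
  rw [hz] at hconv
  simp only [Nat.sub_self, Nat.choose_zero_right, pow_zero, Nat.cast_one, mul_one] at hconv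
  have ha' : (∑ k ∈ range (n + 1), (t k : ℤ) * t (n - k)) =
      ((2 * n - 1 : ℕ) : ℤ) * ((3 * n).choose n : ℤ) * a := by
    have := congrArg (Nat.cast : ℕ → ℤ) ha
    push_cast at this
    rw [this]
  have hfull : (∑ k ∈ range (n + 1), (t k : ℤ) * t (n - k)) =
      2 ^ (e + 5) * z + ((2 * n).choose n : ℤ) * t n := hconv
  rw [ha'] at hfull
  have ht : (t n : ℤ) = ((6 * n).choose (3 * n) : ℤ) * ((3 * n).choose n : ℤ) := by
    unfold t; push_cast; rfl
  have hCz : ((3 * n).choose n : ℤ) = 2 ^ e * c := by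
    have := congrArg (Nat.cast : ℕ → ℤ) hC
    push_cast at this
    exact this.symm
  have h2e : (2 : ℤ) ^ e ≠ 0 := by positivity
  have hmain : ((2 * n - 1 : ℕ) : ℤ) * c * a =
      32 * z + ((2 * n).choose n : ℤ) * ((6 * n).choose (3 * n) : ℤ) * c := by
    apply mul_left_cancel₀ h2e
    rw [ht, hCz] at hfull
    rw [pow_add] at hfull
    linear_combination hfull
  -- valuations
  set A := (2 * n).choose n * (6 * n).choose (3 * n) with hA
  have hA0 : A ≠ 0 := mul_ne_zero (Nat.choose_pos (by omega)).ne' (Nat.choose_pos (by omega)).ne'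
  have hvA : A.factorization 2 = s n + s (3 * n) := by
    rw [hA, Nat.factorization_mul (Nat.choose_pos (by omega)).ne' (Nat.choose_pos (by omega)).ne']
    simp only [Finsupp.add_apply]
    have h1 := v_central n
    have h2 := v_central (3 * n)
    rw [show 2 * (3 * n) = 6 * n by ring] at h2
    rw [h1, h2]
  have hAeq : 2 ^ (s n + s (3 * n)) * (A / 2 ^ (s n + s (3 * n))) = A := by
    rw [← hvA]; exact Nat.ordProj_mul_ordCompl_eq_self _ 2
  have hAodd : Nat.Coprime 2 (A / 2 ^ (s n + s (3 * n))) := by
    rw [← hvA]; exact Nat.coprime_ordCompl Nat.prime_two hA0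
  set o := A / 2 ^ (s n + s (3 * n)) with ho
  have hAz : ((2 * n).choose n : ℤ) * ((6 * n).choose (3 * n) : ℤ) = 2 ^ (s n + s (3 * n)) * o := by
    have := congrArg (Nat.cast : ℕ → ℤ) hAeq
    rw [hA] at this
    push_cast at this
    exact this.symm
  rw [hAz] at hmain
  have hcodd : (c : ℤ) % 2 = 1 := by
    have : c % 2 = 1 := by
      rw [Nat.coprime_two_left] at hm
      exact Nat.odd_iff.1 hm
    omega
  have hoodd : (o : ℤ) % 2 = 1 := by
    have : o % 2 = 1 := by
      rw [Nat.coprime_two_left] at hAodd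
      exact Nat.odd_iff.1 hAodd
    omega
  have hn1 : (((2 * n - 1 : ℕ) : ℤ)) % 2 = 1 := by omega
  set N := ((2 * n - 1 : ℕ) : ℤ) with hN
  have hNc : Odd (N * c) := by
    apply Odd.mul
    · exact Int.odd_iff.2 hn1
    · exact Int.odd_iff.2 hcodd
  have hcop : ∀ r : ℕ, IsCoprime ((2 : ℤ) ^ r) (N * c) := by
    intro r
    apply IsCoprime.pow_left
    obtain ⟨y, hy⟩ := hNc
    exact ⟨-y, 1, by rw [hy]; ring⟩
  have hs1 := s_pos n hn
  have hs3 := s_three n hn
  by_cases hw : s n = 1 ∧ s (3 * n) = 2
  · -- a power of two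
    rw [hw.1, hw.2] at hmain
    have h8 : (2 : ℤ) ^ 3 ∣ N * c * a := ⟨4 * z + o * c, by rw [hmain]; ring⟩
    have h8' : (2 : ℤ) ^ 3 ∣ (a : ℤ) := (hcop 3).dvd_of_dvd_mul_left h8
    have h8n : 8 ∣ a := by
      have : ((8 : ℕ) : ℤ) ∣ (a : ℤ) := by norm_num at h8' ⊢; exact h8'
      exact_mod_cast this
    obtain ⟨a', ha8⟩ := h8n
    refine ⟨⟨a', ha8⟩, ?_⟩
    have h1 : N * c * a' = 4 * z + o * c := by
      have h2 : (8 : ℤ) ≠ 0 := by norm_num
      apply mul_left_cancel₀ h2
      rw [ha8] at hmain
      push_cast at hmain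
      linear_combination hmain
    have h3 : Odd (N * c * a') := by
      rw [h1]
      have h4 : Odd ((o : ℤ) * c) := (Int.odd_iff.2 hoodd).mul (Int.odd_iff.2 hcodd)
      obtain ⟨y, hy⟩ := h4
      exact ⟨2 * z + y, by rw [hy]; ring⟩
    have h5 : Odd (a' : ℤ) := (Int.odd_mul.1 h3).2
    have h6 : a / 8 = a' := by rw [ha8]; omega
    rw [h6]
    constructor
    · intro _
      exact s_eq_one n hw.1
    · intro _
      have := Int.odd_iff.1 h5
      omega
  · have hw4 : 4 ≤ s n + s (3 * n) := by
      by_contra h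
      apply hw
      omega
    have h16 : (2 : ℤ) ^ 4 ∣ N * c * a := by
      rw [hmain]
      apply dvd_add
      · exact ⟨2 * z, by ring⟩
      · exact Dvd.dvd.mul_right (Dvd.dvd.mul_right (pow_dvd_pow 2 hw4) _) _
    have h16' : (2 : ℤ) ^ 4 ∣ (a : ℤ) := (hcop 4).dvd_of_dvd_mul_left h16
    have h16n : 16 ∣ a := by
      have : ((16 : ℕ) : ℤ) ∣ (a : ℤ) := by norm_num at h16' ⊢; exact h16'
      exact_mod_cast this
    obtain ⟨a', ha16⟩ := h16n
    refine ⟨⟨2 * a', by omega⟩, ?_⟩
    constructor
    · intro h; omega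
    · rintro ⟨j, hj⟩
      exfalso
      apply hw
      rw [hj]
      exact ⟨s_pow j, s_three_pow j⟩

end Q277.Sextic
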