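import Mathlib
import Pool.Agent.Q277.PInt

/-!
# Central trinomial coefficients modulo powers of `3`

Abstract part: two integral sequences `e`, `c` (the coefficients of `(1 + z + 1/z)^{n-1}` and
`(1 + z + 1/z)^n`) with the two classical relations; if `3^a ∣ n` then
`e 0 / n ≡ (n/3) ∑ (e (3l+2) - e (3l+4)) (mod 3^a)`.
-/

open Finset

namespace Q277.TriThree

open Q277.PInt

theorem h3 : Nat.Prime 3 := Nat.prime_three

/-- `y i = i(i+1) / (2 + 9 i(i+1))` -/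
def y (i : ℕ) : ℚ := ((i : ℚ) * (i + 1)) / (2 + 9 * (i * (i + 1)))

theorem den_not_dvd (i : ℕ) : ¬ 3 ∣ 2 + 9 * (i * (i + 1)) := by omega

theorem PI_inv_den (i : ℕ) : PI 3 (1 / (2 + 9 * ((i : ℚ) * (i + 1)))) := by
  have := PI.div_nat h3 (PI.one h3) (den_not_dvd i)
  push_cast at this
  exact this

theorem den_ne (i : ℕ) : (2 + 9 * ((i : ℚ) * (i + 1))) ≠ 0 := by positivity

theorem PI_y (i : ℕ) : PI 3 (y i) := by
  unfold y
  have h := PI.mul h3 (PI.nat h3 (i * (i + 1))) (PI_inv_den i)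
  push_cast at h
  rw [mul_one_div] at h
  exact h

theorem y_period (c r i : ℕ) : Cg 3 c (y (3 ^ c * r + i)) (y i) := by
  refine ⟨(2 * (r * (2 * i + 1 + 3 ^ c * r) : ℕ) : ℚ) *
    ((1 / (2 + 9 * (((3 ^ c * r + i : ℕ) : ℚ) * ((3 ^ c * r + i : ℕ) + 1)))) *
      (1 / (2 + 9 * ((i : ℚ) * (i + 1))))), ?_, ?_⟩
  · refine PI.mul h3 ?_ (PI.mul h3 (PI_inv_den _) (PI_inv_den _))
    have := PI.nat h3 (2 * (r * (2 * i + 1 + 3 ^ c * r)))
    push_cast at this ⊢
    exact this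
  · unfold y
    have h1 := den_ne i
    have h2 := den_ne (3 ^ c * r + i)
    push_cast at h2 ⊢
    field_simp
    ring

theorem y_blocks (c L : ℕ) :
    Cg 3 c (∑ i ∈ range (3 ^ c * L), y i) (L * ∑ i ∈ range (3 ^ c), y i) := by
  induction L with
  | zero => exact Cg.of_eq h3 (by simp)
  | succ L ih =>
    rw [Nat.mul_succ, sum_range_add]
    have h1 : Cg 3 c (∑ i ∈ range (3 ^ c), y (3 ^ c * L + i)) (∑ i ∈ range (3 ^ c), y i) :=
      Cg.sum h3 _ _ _ fun i _ => y_period c L i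
    have h2 := Cg.add h3 ih h1
    convert h2 using 1
    push_cast
    ring

theorem y_sum (c L : ℕ) : Cg 3 c (3 * ∑ i ∈ range (3 ^ c * L), y i) 0 := by
  induction c generalizing L with
  | zero =>
    refine ⟨3 * ∑ i ∈ range (3 ^ 0 * L), y i, ?_, by simp⟩
    have := PI.mul h3 (PI.nat h3 3) (PI.sum h3 (range (3 ^ 0 * L)) y fun i _ => PI_y i)
    push_cast at this
    exact this
  | succ c ih =>
    have e1 : 3 ^ (c + 1) * L = 3 ^ c * (3 * L) := by ring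
    rw [e1]
    obtain ⟨u, hu, h1⟩ := y_blocks c (3 * L)
    obtain ⟨v, hv, h2⟩ := ih 1
    rw [mul_one] at h2
    refine ⟨u + L * v, ?_, ?_⟩
    · exact PI.add h3 hu (PI.mul h3 (PI.nat h3 _) hv)
    · push_cast at h1
      rw [pow_succ]
      push_cast at h2 ⊢
      linear_combination 3 * h1 + 3 * (L : ℚ) * h2

/-- `3 Y(l) / l` is `3`-integral -/
theorem Y_div (l : ℕ) (hl : 1 ≤ l) : PI 3 (3 * (∑ i ∈ range l, y i) / l) := by
  obtain ⟨b, l', hl', rfl⟩ := Nat.exists_eq_pow_mul_and_not_dvd (show l ≠ 0 by omega) 3 (by norm_num)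
  obtain ⟨v, hv, h⟩ := y_sum b l'
  rw [sub_zero] at h
  rw [h]
  have : (3 : ℚ) ^ b * v / ((3 ^ b * l' : ℕ) : ℚ) = v / (l' : ℚ) := by
    push_cast
    have h1 : (3 : ℚ) ^ b ≠ 0 := by positivity
    have h2 : (l' : ℚ) ≠ 0 := by
      intro h
      have : l' = 0 := by exact_mod_cast h
      rw [this] at hl'
      exact hl' (dvd_zero _)
    field_simp
  have h' := PI.div_nat h3 hv hl'
  rw [← this] at h'
  exact_mod_cast h'

/-- `w i = 1 / ((3i+1)(3i+2))` -/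
def w (i : ℕ) : ℚ := 1 / ((3 * (i : ℚ) + 1) * (3 * i + 2))

/-- partial sums of `w` -/
def W (l : ℕ) : ℚ := ∑ i ∈ range l, w i

theorem W_eq (l : ℕ) : W l = (l : ℚ) / 2 - 9 / 2 * ∑ i ∈ range l, y i := by
  induction l with
  | zero => simp [W]
  | succ l ih =>
    unfold W at ih ⊢
    rw [sum_range_succ, ih, sum_range_succ]
    have h1 : w l = 1 / 2 - 9 / 2 * y l := by
      unfold w y
      have h1 := den_ne l
      have h2 : ((3 * (l : ℚ) + 1) * (3 * l + 2)) ≠ 0 := by positivity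
      field_simp
      ring
    rw [h1]
    push_cast
    ring

theorem abel (f : ℕ → ℚ) (K : ℕ) :
    ∑ i ∈ range K, f i * w i = ∑ i ∈ range K, (f i - f (i + 1)) * W (i + 1) + f K * W K := by
  induction K with
  | zero => simp [W]
  | succ K ih =>
    rw [sum_range_succ, ih, sum_range_succ]
    have : W (K + 1) = W K + w K := by unfold W; rw [sum_range_succ]
    rw [this]
    ring

section main

variable (e c : ℕ → ℤ) (n a K : ℕ)

/-- the main congruence (abstract form) -/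
theorem main (hn : 1 ≤ n) (ha : 3 ^ a ∣ n)
    (hR1 : ∀ j, c (j + 1) = e j + e (j + 1) + e (j + 2))
    (hR2 : ∀ j : ℕ, ((j : ℤ) + 1) * c (j + 1) = n * (e j - e (j + 2)))
    (hR3 : ∀ j, 3 * K ≤ j → e j = 0) :
    Cg 3 a ((e 0 : ℚ) / n)
      ((n : ℚ) / 3 * ((∑ l ∈ range K, (e (3 * l + 2) - e (3 * l + 4)) : ℤ) : ℚ)) := by
  have hn0 : (n : ℚ) ≠ 0 := by positivity
  have haZ : (3 : ℤ) ^ a ∣ n := by exact_mod_cast ha
  -- A1
  have A1 : ∀ j : ℕ, ¬ 3 ∣ j + 1 → (3 : ℤ) ^ a ∣ c (j + 1) := by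
    intro j hj
    have h1 : (3 : ℤ) ^ a ∣ ((j : ℤ) + 1) * c (j + 1) := by
      rw [hR2]; exact Dvd.dvd.mul_right haZ _
    have h2 : IsCoprime ((3 : ℤ) ^ a) ((j : ℤ) + 1) := by
      apply IsCoprime.pow_left
      have : Nat.Coprime 3 (j + 1) := (Nat.Prime.coprime_iff_not_dvd h3).2 hj
      have := Nat.isCoprime_iff_coprime.2 this
      push_cast at this
      exact this
    exact h2.dvd_of_dvd_mul_left h1
  -- A2
  have hdiff : ∀ j, e j = e (j + 3) + c (j + 1) - c (j + 2) := by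
    intro j
    have h1 := hR1 j
    have h2 := hR1 (j + 1)
    have e1 : j + 1 + 1 = j + 2 := rfl
    have e2 : j + 1 + 2 = j + 3 := rfl
    rw [e1, e2] at h2
    linear_combination -h1 + h2
  have A2 : ∀ d i, K ≤ i + d → (3 : ℤ) ^ a ∣ e (3 * i) := by
    intro d
    induction d with
    | zero =>
      intro i hi
      rw [hR3 _ (by omega)]
      exact dvd_zero _
    | succ d ih =>
      intro i hi
      rw [hdiff]
      refine dvd_sub (dvd_add ?_ (A1 _ (by omega))) (A1 _ (by omega))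
      have := ih (i + 1) (by omega)
      have e1 : 3 * (i + 1) = 3 * i + 3 := by ring
      rw [e1] at this
      exact this
  have A2' : ∀ i, (3 : ℤ) ^ a ∣ e (3 * i) := fun i => A2 K i (by omega)
  -- F1
  have F1 : (e 0 : ℤ) = ∑ i ∈ range K, (c (3 * i + 1) - c (3 * i + 2)) := by
    have h1 : ∀ N, e 0 = e (3 * N) + ∑ i ∈ range N, (c (3 * i + 1) - c (3 * i + 2)) := by
      intro N
      induction N with
      | zero => simp
      | succ N ih =>
        rw [sum_range_succ, ih, hdiff (3 * N)]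
        have e1 : 3 * (N + 1) = 3 * N + 3 := by ring
        rw [e1]; ring
    have := h1 K
    rw [hR3 (3 * K) le_rfl, zero_add] at this
    exact this
  -- F2
  have F2 : (e 0 : ℚ) / n = ∑ i ∈ range K, (((e (3 * i) : ℚ) - e (3 * i + 2)) / (3 * i + 1)
      - ((e (3 * i + 1) : ℚ) - e (3 * i + 3)) / (3 * i + 2)) := by
    rw [F1]
    push_cast
    rw [sum_div]
    refine sum_congr rfl fun i _ => ?_
    have h1 := congrArg (Int.cast : ℤ → ℚ) (hR2 (3 * i))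
    have h2 := congrArg (Int.cast : ℤ → ℚ) (hR2 (3 * i + 1))
    push_cast at h1 h2
    have d1 : (3 * (i : ℚ) + 1) ≠ 0 := by positivity
    have d2 : (3 * (i : ℚ) + 2) ≠ 0 := by positivity
    have e1 : (c (3 * i + 1) : ℚ) = n * ((e (3 * i) : ℚ) - e (3 * i + 2)) / (3 * i + 1) := by
      rw [eq_div_iff d1]; linear_combination h1
    have e2 : (c (3 * i + 2) : ℚ) = n * ((e (3 * i + 1) : ℚ) - e (3 * i + 3)) / (3 * i + 2) := by
      rw [eq_div_iff d2]
      have e3 : 3 * i + 1 + 1 = 3 * i + 2 := rfl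
      have e4 : 3 * i + 1 + 2 = 3 * i + 3 := rfl
      rw [e3, e4] at h2
      linear_combination h2
    rw [e1, e2]
    field_simp
  have toPI : ∀ z : ℤ, (3 : ℤ) ^ a ∣ z → ∃ q : ℚ, PI 3 q ∧ (z : ℚ) = (3 : ℚ) ^ a * q := by
    rintro z ⟨q, hq⟩
    refine ⟨q, PI.int h3 q, ?_⟩
    rw [hq]; push_cast; ring
  have PI1 : ∀ i : ℕ, PI 3 (1 / (3 * (i : ℚ) + 1)) := by
    intro i
    have := PI.div_nat h3 (PI.one h3) (d := 3 * i + 1) (by omega)
    push_cast at this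
    exact this
  have PI2 : ∀ i : ℕ, PI 3 (1 / (3 * (i : ℚ) + 2)) := by
    intro i
    have := PI.div_nat h3 (PI.one h3) (d := 3 * i + 2) (by omega)
    push_cast at this
    exact this
  -- each bracket
  have G1 : Cg 3 a ((e 0 : ℚ) / n) (∑ i ∈ range K, -((e (3 * i + 2) : ℚ) * w i)) := by
    rw [F2]
    refine Cg.sum h3 _ _ _ fun i _ => ?_
    obtain ⟨u1, hu1, hu1'⟩ := toPI _ (A2' i)
    obtain ⟨u2, hu2, hu2'⟩ := toPI _ (A2' (i + 1))
    obtain ⟨u3, hu3, hu3'⟩ := toPI _ (A1 (3 * i + 1) (by omega))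
    have h1 := congrArg (Int.cast : ℤ → ℚ) (hR1 (3 * i + 1))
    have e3 : 3 * i + 1 + 1 = 3 * i + 2 := rfl
    have e4 : 3 * i + 1 + 2 = 3 * i + 3 := rfl
    have e5 : 3 * (i + 1) = 3 * i + 3 := by ring
    rw [e3, e4] at h1
    rw [e5] at hu2'
    rw [e3] at hu3'
    push_cast at h1
    have d1 : (3 * (i : ℚ) + 1) ≠ 0 := by positivity
    have d2 : (3 * (i : ℚ) + 2) ≠ 0 := by positivity
    refine ⟨u1 * (1 / (3 * (i : ℚ) + 1)) + u2 * (1 / (3 * (i : ℚ) + 2))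
      - (u3 - u2) * (1 / (3 * (i : ℚ) + 2)), ?_, ?_⟩
    · exact PI.sub h3 (PI.add h3 (PI.mul h3 hu1 (PI1 i)) (PI.mul h3 hu2 (PI2 i)))
        (PI.mul h3 (PI.sub h3 hu3 hu2) (PI2 i))
    · have e6 : (3 : ℚ) ^ a * (u1 * (1 / (3 * (i : ℚ) + 1)) + u2 * (1 / (3 * (i : ℚ) + 2))
      - (u3 - u2) * (1 / (3 * (i : ℚ) + 2))) = (e (3 * i) : ℚ) * (1 / (3 * (i : ℚ) + 1))
        + (e (3 * i + 3) : ℚ) * (1 / (3 * (i : ℚ) + 2))
        - ((c (3 * i + 2) : ℚ) - e (3 * i + 3)) * (1 / (3 * (i : ℚ) + 2)) := by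
        rw [hu1', hu2', hu3']; ring
      push_cast
      rw [e6, h1]
      unfold w
      field_simp
      ring
  -- Abel summation
  have G2 : ∑ i ∈ range K, -((e (3 * i + 2) : ℚ) * w i)
      = ∑ i ∈ range K, -((((c (3 * i + 3) : ℚ) - c (3 * i + 4))) * W (i + 1)) := by
    rw [sum_neg_distrib, sum_neg_distrib]
    have h1 := abel (fun i => (e (3 * i + 2) : ℚ)) K
    rw [h1, hR3 (3 * K + 2) (by omega)]
    push_cast
    rw [zero_mul, add_zero]
    congr 1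
    refine sum_congr rfl fun i _ => ?_
    have h2 := congrArg (Int.cast : ℤ → ℚ) (hdiff (3 * i + 2))
    have e1 : 3 * i + 2 + 1 = 3 * i + 3 := rfl
    have e2 : 3 * i + 2 + 2 = 3 * i + 4 := rfl
    have e3 : 3 * i + 2 + 3 = 3 * (i + 1) + 2 := by ring
    rw [e1, e2, e3] at h2
    push_cast at h2
    rw [h2]; ring
  rw [G2] at G1
  refine Cg.trans h3 G1 ?_
  push_cast
  rw [mul_sum]
  refine Cg.sum h3 _ _ _ fun i _ => ?_
  -- termwise
  obtain ⟨u4, hu4, hu4'⟩ := toPI _ (A1 (3 * i + 3) (by omega))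
  obtain ⟨q, hq⟩ := haZ
  have hqQ : (n : ℚ) = (3 : ℚ) ^ a * q := by
    have := congrArg (Int.cast : ℤ → ℚ) hq
    push_cast at this
    exact this
  have h2 := congrArg (Int.cast : ℤ → ℚ) (hR2 (3 * i + 2))
  have e1 : 3 * i + 2 + 1 = 3 * i + 3 := rfl
  have e2 : 3 * i + 2 + 2 = 3 * i + 4 := rfl
  have e3 : 3 * i + 3 + 1 = 3 * i + 4 := rfl
  rw [e1, e2] at h2
  rw [e3] at hu4'
  push_cast at h2
  have hY := Y_div (i + 1) (by omega)
  have hW : PI 3 (W (i + 1)) := by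
    unfold W
    refine PI.sum h3 _ _ fun j _ => ?_
    unfold w
    have := PI.mul h3 (PI1 j) (PI2 j)
    have e : (1 / (3 * (j : ℚ) + 1)) * (1 / (3 * (j : ℚ) + 2)) = 1 / ((3 * (j : ℚ) + 1) * (3 * j + 2)) := by
      rw [one_div_mul_one_div]
    rw [e] at this
    exact this
  have hWeq := W_eq (i + 1)
  set Y := ∑ j ∈ range (i + 1), y j with hYdef
  have hi0 : ((i : ℚ) + 1) ≠ 0 := by positivity
  refine ⟨u4 * W (i + 1) - (q * ((e (3 * i + 2) : ℚ) - e (3 * i + 4))) *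
    ((1 - 3 * Y / ((i + 1 : ℕ) : ℚ)) / (2 : ℕ)), ?_, ?_⟩
  · refine PI.sub h3 (PI.mul h3 hu4 hW) (PI.mul h3 (PI.mul h3 (PI.int h3 q)
      (PI.sub h3 (PI.int h3 _) (PI.int h3 _))) (PI.div_nat h3 (PI.sub h3 (PI.one h3) hY) (by norm_num)))
  · have e4 : ((3 : ℕ) : ℚ) ^ a * (u4 * W (i + 1) - (q * ((e (3 * i + 2) : ℚ) - e (3 * i + 4))) *
        ((1 - 3 * Y / ((i + 1 : ℕ) : ℚ)) / (2 : ℕ)))
        = (c (3 * i + 4) : ℚ) * W (i + 1) - (n * ((e (3 * i + 2) : ℚ) - e (3 * i + 4))) *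
        ((1 - 3 * Y / ((i + 1 : ℕ) : ℚ)) / (2 : ℕ)) := by
      rw [hu4', hqQ]; push_cast; ring
    rw [e4, ← h2, hWeq]
    push_cast
    have e5 : (n : ℚ) / 3 * ((e (3 * i + 2) : ℚ) - e (3 * i + 4)) = (i + 1) * c (3 * i + 3) := by
      linear_combination -(1 / 3 : ℚ) * h2
    rw [e5]
    field_simp
    ring

end main

end Q277.TriThree
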