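import Mathlib
import Pool.Agent.Q277.TriThree

/-!
# Central trinomial coefficients modulo powers of `3`: the polynomial part
-/

open Finset Polynomial

namespace Q277.TriThree

open Q277.PInt

/-- `1 + X + X^2` -/
noncomputable def P : ℤ[X] := X ^ 2 + X + 1

/-- the coefficient of `z^j` in `(1 + z + 1/z)^N` -/
noncomputable def E (N j : ℕ) : ℤ := (P ^ N).coeff (N + j)

/-- the central coefficient -/
noncomputable def M (N : ℕ) : ℤ := (P ^ N).coeff N

theorem E_zero (N : ℕ) : E N 0 = M N := rfl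

theorem E_R1 (N j : ℕ) : E (N + 1) (j + 1) = E N j + E N (j + 1) + E N (j + 2) := by
  unfold E
  have h1 : P ^ (N + 1) = P ^ N * X ^ 2 + P ^ N * X ^ 1 + P ^ N := by
    rw [pow_succ]; unfold P; ring
  rw [h1, coeff_add, coeff_add]
  have e1 : N + 1 + (j + 1) = (N + j) + 2 := by ring
  have e2 : N + 1 + (j + 1) = (N + (j + 1)) + 1 := by ring
  have e3 : N + 1 + (j + 1) = N + (j + 2) := by ring
  congr 1
  · congr 1
    · rw [e1, coeff_mul_X_pow]
    · rw [e2, coeff_mul_X_pow]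
  · rw [e3]

theorem E_R2 (N j : ℕ) :
    ((j : ℤ) + 1) * E (N + 1) (j + 1) = ((N + 1 : ℕ) : ℤ) * (E N j - E N (j + 2)) := by
  have hR1 := E_R1 N j
  have hd : derivative (P ^ (N + 1)) = C ((N : ℤ) + 1) * (P ^ N * X ^ 1 * C 2 + P ^ N) := by
    rw [derivative_pow_succ]
    have : derivative P = C 2 * X + 1 := by
      unfold P
      simp [derivative_pow]
    rw [this]
    simp only [map_add, map_natCast, map_one]
    ring
  have h1 := congrArg (fun q => coeff q (N + (j + 1))) hd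
  simp only [coeff_derivative, coeff_C_mul, coeff_add, coeff_mul_C] at h1
  have e1 : N + (j + 1) = (N + j) + 1 := by ring
  have e2 : N + (j + 1) + 1 = N + 1 + (j + 1) := by ring
  have h2 : (P ^ N * X ^ 1).coeff (N + (j + 1)) = E N j := by
    rw [e1, coeff_mul_X_pow]; rfl
  have h3 : (P ^ (N + 1)).coeff (N + (j + 1) + 1) = E (N + 1) (j + 1) := by
    rw [e2]; rfl
  have h4 : (P ^ N).coeff (N + (j + 1)) = E N (j + 1) := rfl
  rw [h2, h3, h4] at h1
  push_cast at h1 ⊢
  linear_combination h1 - ((N : ℤ) + 1) * hR1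

theorem E_R3 (N j : ℕ) (h : N < j) : E N j = 0 := by
  unfold E
  apply coeff_eq_zero_of_natDegree_lt
  refine lt_of_le_of_lt (natDegree_pow_le) ?_
  have : P.natDegree ≤ 2 := by
    unfold P
    compute_degree
  calc N * P.natDegree ≤ N * 2 := Nat.mul_le_mul_left _ this
    _ < N + j := by omega

/-- shift of the middle coefficient -/
theorem shift (Q : ℤ[X]) (c : ℤ) (N : ℕ) :
    ((C c * X + Q) ^ N).coeff N
      = ∑ i ∈ range (N + 1), (N.choose i : ℤ) * c ^ i * (Q ^ (N - i)).coeff (N - i) := by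
  rw [add_pow, finsetSum_coeff]
  refine sum_congr rfl fun i hi => ?_
  rw [mem_range] at hi
  have h1 : (C c * X) ^ i * Q ^ (N - i) * ((N.choose i : ℕ) : ℤ[X])
      = C (c ^ i * (N.choose i : ℤ)) * (Q ^ (N - i) * X ^ i) := by
    rw [mul_pow]
    simp only [map_mul, map_pow, map_natCast]
    ring
  rw [h1, coeff_C_mul]
  have h2 : (Q ^ (N - i) * X ^ i).coeff N = (Q ^ (N - i)).coeff (N - i) := by
    conv_lhs => rw [show N = (N - i) + i by omega]
    rw [coeff_mul_X_pow]
    congr 2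
    omega
  rw [h2]; ring

theorem coeff_plus (k : ℕ) : (((X + 1 : ℤ[X]) ^ 2) ^ k).coeff k = ((2 * k).choose k : ℤ) := by
  rw [← pow_mul, coeff_X_add_one_pow]

theorem coeff_minus (k : ℕ) :
    (((X + C (-1) : ℤ[X]) ^ 2) ^ k).coeff k = (-1) ^ k * ((2 * k).choose k : ℤ) := by
  rw [← pow_mul, coeff_X_add_C_pow]
  congr 2
  omega

/-- `(-m)^N ∑ C(N,k) (-1)^k C(2k,k) m^{-k}` in terms of central trinomial coefficients -/
theorem sum_shift (m : ℤ) (N : ℕ) :
    ∑ i ∈ range (N + 1), (N.choose i : ℤ) * (-m) ^ i * ((2 * (N - i)).choose (N - i) : ℤ)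
      = ∑ i ∈ range (N + 1), (N.choose i : ℤ) * (1 - m) ^ i * M (N - i) := by
  have h1 := shift ((X + 1) ^ 2) (-m) N
  have h2 := shift P (1 - m) N
  have h3 : (C (-m) * X + (X + 1) ^ 2 : ℤ[X]) = C (1 - m) * X + P := by
    unfold P
    simp only [map_neg, map_sub, map_one]
    ring
  rw [h3, h2] at h1
  simp_rw [coeff_plus] at h1
  exact h1.symm

/-- central trinomial coefficients with powers of `3` -/
theorem M_eq (N : ℕ) :
    M N = ∑ i ∈ range (N + 1), (N.choose i : ℤ) * 3 ^ i * ((-1) ^ (N - i) *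
      ((2 * (N - i)).choose (N - i) : ℤ)) := by
  have h1 := shift ((X + C (-1)) ^ 2) 3 N
  have h3 : (C 3 * X + (X + C (-1)) ^ 2 : ℤ[X]) = P := by
    unfold P
    have : (C 3 : ℤ[X]) = 3 := by simp
    rw [this]
    simp only [map_neg, map_one]
    ring
  rw [h3] at h1
  simp_rw [coeff_minus] at h1
  exact h1

/-- divisibility of central binomial coefficients just below a multiple of `3^a` -/
theorem dvd_central {n a t j : ℕ} (ha : 3 ^ a ∣ n) (hj : j < n) (ht : j < 3 ^ t) :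
    3 ^ (a - t) ∣ (2 * (n - 1 - j)).choose (n - 1 - j) := by
  have : Fact (Nat.Prime 3) := ⟨h3⟩
  set k := n - 1 - j with hk
  have hne : (2 * k).choose k ≠ 0 := (Nat.choose_pos (by omega)).ne'
  rw [padicValNat_dvd_iff_le hne]
  have hlog : Nat.log 3 (2 * k) < Nat.log 3 (2 * k) + 1 + a := by omega
  rw [padicValNat_choose (by omega) hlog]
  have hsub : Ico (t + 1) (a + 1) ⊆ {i ∈ Finset.Ico 1 (Nat.log 3 (2 * k) + 1 + a) |
      3 ^ i ≤ k % 3 ^ i + (2 * k - k) % 3 ^ i} := by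
    intro i hi
    rw [mem_Ico] at hi
    rw [mem_filter, mem_Ico]
    refine ⟨⟨by omega, by omega⟩, ?_⟩
    have h1 : 3 ^ i ∣ n := (pow_dvd_pow 3 (by omega)).trans ha
    obtain ⟨q, hq⟩ := h1
    have hq1 : 1 ≤ q := by
      rcases Nat.eq_zero_or_pos q with h | h
      · rw [h, mul_zero] at hq; omega
      · exact h
    have h2 : 3 ^ t * 3 ≤ 3 ^ i := by
      rw [← pow_succ]; exact Nat.pow_le_pow_right (by norm_num) (by omega)
    have h4 : k = 3 ^ i * (q - 1) + (3 ^ i - 1 - j) := by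
      obtain ⟨q', rfl⟩ : ∃ q', q = q' + 1 := ⟨q - 1, by omega⟩
      rw [Nat.add_sub_cancel]
      rw [mul_add, mul_one] at hq
      omega
    have h5 : k % 3 ^ i = 3 ^ i - 1 - j := by
      rw [h4, Nat.mul_add_mod, Nat.mod_eq_of_lt (by omega)]
    have h6 : 2 * k - k = k := by omega
    rw [h6, h5]
    omega
  have := card_le_card hsub
  rw [Nat.card_Ico] at this
  omega

/-- divisibility of central trinomial coefficients just below a multiple of `3^a` -/
theorem dvd_M {n a t i : ℕ} (ha : 3 ^ a ∣ n) (hi : i < n) (ht : i < 3 ^ t) :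
    (3 : ℤ) ^ (a - t) ∣ M (n - 1 - i) := by
  rw [M_eq]
  refine dvd_sum fun j hj => ?_
  rw [mem_range] at hj
  have e1 : n - 1 - i - j = n - 1 - (i + j) := by omega
  rw [e1]
  have h1 : i + j < 3 ^ (t + j) := by
    have : j < 3 ^ j := Nat.lt_pow_self (by norm_num)
    have h2 : (i + 1) * (j + 1) ≤ 3 ^ t * 3 ^ j := Nat.mul_le_mul ht this
    rw [← pow_add] at h2
    nlinarith
  have h2 := dvd_central ha (j := i + j) (by omega) h1
  have h3 : (3 : ℤ) ^ (a - (t + j)) ∣ ((2 * (n - 1 - (i + j))).choose (n - 1 - (i + j)) : ℤ) := by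
    exact_mod_cast h2
  have h4 : (3 : ℤ) ^ (a - t) ∣ 3 ^ j * 3 ^ (a - (t + j)) := by
    rw [← pow_add]; exact pow_dvd_pow _ (by omega)
  refine h4.trans ?_
  rw [mul_assoc]
  apply Dvd.dvd.mul_left
  refine mul_dvd_mul dvd_rfl ?_
  exact Dvd.dvd.mul_left h3 _

end Q277.TriThree
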