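import Mathlib
import Pool.Agent.Q277.TriThreePoly

/-!
# Central trinomial coefficients modulo powers of `3`: main results
-/

open Finset Polynomial

namespace Q277.TriThree

open Q277.PInt

/-- the basic congruence for `M (n-1) / n` -/
theorem M_div {n a K : ℕ} (hn : 1 ≤ n) (ha : 3 ^ a ∣ n) (hK : n ≤ 3 * K) :
    Cg 3 a ((M (n - 1) : ℚ) / n)
      ((n : ℚ) / 3 * ((∑ l ∈ range K, (E (n - 1) (3 * l + 2) - E (n - 1) (3 * l + 4)) : ℤ) : ℚ)) := by
  obtain ⟨N, rfl⟩ : ∃ N, n = N + 1 := ⟨n - 1, by omega⟩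
  rw [Nat.add_sub_cancel, ← E_zero]
  refine main (E N) (E (N + 1)) (N + 1) a K hn ha (fun j => E_R1 N j) (fun j => E_R2 N j)
    (fun j hj => E_R3 N j (by omega))

/-- the sum `S_m(n)` -/
def S (m : ℤ) (n : ℕ) : ℚ :=
  ∑ k ∈ range n, (-1) ^ k * ((n - 1).choose k : ℚ) * ((2 * k).choose k : ℚ) / (m : ℚ) ^ k

theorem S_eq (m : ℤ) (hm : m ≠ 0) (n : ℕ) (hn : 1 ≤ n) :
    (-(m : ℚ)) ^ (n - 1) * S m n
      = ∑ i ∈ range n, ((((n - 1).choose i : ℤ) * (1 - m) ^ i * M (n - 1 - i) : ℤ) : ℚ) := by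
  obtain ⟨N, rfl⟩ : ∃ N, n = N + 1 := ⟨n - 1, by omega⟩
  rw [Nat.add_sub_cancel, ← Int.cast_sum, ← sum_shift]
  unfold S
  rw [Nat.add_sub_cancel, mul_sum, ← sum_range_reflect]
  push_cast
  refine sum_congr rfl fun i hi => ?_
  rw [mem_range] at hi
  rw [Nat.choose_symm (by omega)]
  have hmQ : (m : ℚ) ≠ 0 := by exact_mod_cast hm
  have e2 : (-(m : ℚ)) ^ N = (-(m : ℚ)) ^ i * (-(m : ℚ)) ^ (N - i) := by
    rw [← pow_add]; congr 1; omega
  rw [e2]
  have e3 : (-(m : ℚ)) ^ (N - i) = (-1) ^ (N - i) * (m : ℚ) ^ (N - i) := by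
    rw [← mul_pow]; congr 1; ring
  rw [e3]
  have e4 : ((-1 : ℚ)) ^ (N - i) * (-1) ^ (N - i) = 1 := by
    rw [← mul_pow]; simp
  have hmp : (m : ℚ) ^ (N - i) ≠ 0 := pow_ne_zero _ hmQ
  field_simp
  linear_combination ((-(m : ℚ)) ^ i * (N.choose i : ℚ) * ((2 * (N - i)).choose (N - i) : ℚ)) * e4

theorem int_of_Cg {k : ℕ} {z : ℤ} (h : Cg 3 k (z : ℚ) 0) : (3 : ℤ) ^ k ∣ z := by
  have := Cg.num_dvd h3 h
  simpa using this

/-- the terms with `i ≥ 1`: general valuation bound -/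
theorem term_bound {m : ℤ} {n a e i t s : ℕ} {n' : ℕ} (hnn : n = 3 ^ a * n') (hn' : ¬ 3 ∣ n')
    (he : (3 : ℤ) ^ e ∣ 1 - m) (hi : i < n) (ht : i < 3 ^ t) (hs : s + t ≤ e * i) :
    PI 3 ((((n - 1).choose i : ℤ) * (1 - m) ^ i * M (n - 1 - i) : ℤ) / (n : ℚ) / (3 : ℚ) ^ s) := by
  obtain ⟨u, hu⟩ := he
  obtain ⟨v, hv⟩ := dvd_M (n := n) (a := a) (t := t) (i := i) ⟨n', hnn⟩ hi ht
  have h1 : (1 - m) ^ i = 3 ^ (e * i) * u ^ i := by
    rw [hu, mul_pow, ← pow_mul]
  obtain ⟨d, hd⟩ : ∃ d, e * i + (a - t) = s + a + d := ⟨e * i + (a - t) - (s + a), by omega⟩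
  have h2 : (((n - 1).choose i : ℤ) * (1 - m) ^ i * M (n - 1 - i) : ℤ)
      = 3 ^ (s + a) * (((n - 1).choose i : ℤ) * u ^ i * v * 3 ^ d) := by
    rw [h1, hv]
    have : (3 : ℤ) ^ (e * i) * 3 ^ (a - t) = 3 ^ (s + a) * 3 ^ d := by
      rw [← pow_add, ← pow_add, hd]
    linear_combination (((n - 1).choose i : ℤ) * u ^ i * v) * this
  rw [h2]
  have h4 : (((3 : ℤ) ^ (s + a) * (((n - 1).choose i : ℤ) * u ^ i * v * 3 ^ d) : ℤ) : ℚ) / (n : ℚ)
      / (3 : ℚ) ^ s = ((((n - 1).choose i : ℤ) * u ^ i * v * 3 ^ d : ℤ) : ℚ) / (n' : ℚ) := by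
    have hn0 : (n' : ℚ) ≠ 0 := by
      intro h
      have : n' = 0 := by exact_mod_cast h
      rw [this] at hn'
      exact hn' (dvd_zero _)
    rw [hnn]
    push_cast
    have h5 : (3 : ℚ) ^ s ≠ 0 := by positivity
    have h6 : (3 : ℚ) ^ a ≠ 0 := by positivity
    rw [pow_add]
    field_simp
  rw [h4]
  exact PI.div_nat h3 (PI.int h3 _) hn'

theorem three_not_dvd {m : ℤ} (hm : (3 : ℤ) ∣ 1 - m) : ¬ (3 : ℤ) ∣ m := by
  intro h
  have : (3 : ℤ) ∣ 1 := by
    have := dvd_add hm h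
    rwa [sub_add_cancel] at this
  norm_num at this

/-- **Q1**: if `3^e` divides `n` and `m - 1`, then `3 S_m(n)/n` is divisible by `3^e`. -/
theorem Q1 {m : ℤ} (hm : (3 : ℤ) ∣ 1 - m) {n e : ℕ} (hn : 1 ≤ n) (hen : 3 ^ e ∣ n)
    (hem : (3 : ℤ) ^ e ∣ 1 - m) : Cg 3 e (3 * (S m n / n)) 0 := by
  have hm3 := three_not_dvd hm
  have hm0 : m ≠ 0 := by rintro rfl; exact hm3 (dvd_zero _)
  have hmQ : (m : ℚ) ≠ 0 := by exact_mod_cast hm0
  rcases Nat.eq_zero_or_pos e with he0 | he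
  · subst he0
    -- integrality of `3 S / n`: use the exact power of `3` in `n` below with `e = 1` or `0`
    obtain ⟨a, n', hn', hnn⟩ := Nat.exists_eq_pow_mul_and_not_dvd (show n ≠ 0 by omega) 3 (by norm_num)
    rcases Nat.eq_zero_or_pos a with ha0 | ha
    · subst ha0
      rw [pow_zero, one_mul] at hnn
      subst hnn
      refine ⟨3 * (S m n / n), ?_, by simp⟩
      have hS : PI 3 (S m n) := by
        unfold S
        refine PI.sum h3 _ _ fun k _ => ?_
        have := PI.div_int h3 (x := (-1) ^ k * ((n - 1).choose k : ℚ) * ((2 * k).choose k : ℚ))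
          (d := m ^ k) (by
            refine PI.mul h3 (PI.mul h3 (PI.pow h3 (PI.neg (PI.one h3)) _) (PI.nat h3 _)) (PI.nat h3 _))
          (fun h => hm3 ((Nat.prime_iff_prime_int.1 h3).dvd_of_dvd_pow h))
        push_cast at this
        exact this
      have h := PI.mul h3 (PI.nat h3 3) (PI.div_nat h3 hS hn')
      push_cast at h
      exact h
    · -- here `3 ∣ n` and `3 ∣ m - 1`
      have hsum := S_eq m hm0 n hn
      have hM := M_div (K := n) hn ⟨n', hnn⟩ (by omega)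
      obtain ⟨c, hc, hce⟩ := hM
      have hPI : PI 3 ((-(m : ℚ)) ^ (n - 1) * S m n / n) := by
        rw [hsum]
        obtain ⟨N, rfl⟩ : ∃ N, n = N + 1 := ⟨n - 1, by omega⟩
        rw [sum_range_succ', Nat.add_sub_cancel, add_div, sum_div]
        refine PI.add h3 (PI.sum h3 _ _ fun i hi => ?_) ?_
        · rw [mem_range] at hi
          have := term_bound (m := m) (n := N + 1) (a := a) (e := 1) (i := i + 1) (t := i + 1)
            (s := 0) hnn hn' (by simpa using hm) (by omega) (Nat.lt_pow_self (by norm_num)) (by omega)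
          rw [pow_zero, div_one, Nat.add_sub_cancel] at this
          exact this
        · simp only [Nat.choose_zero_right, Nat.cast_one, pow_zero, mul_one, one_mul, Nat.sub_zero]
          have e1 : (M N : ℚ) / ((N + 1 : ℕ) : ℚ) = (3 : ℚ) ^ (a - 1) * n' *
              ((∑ l ∈ range (N + 1), (E (N + 1 - 1) (3 * l + 2) - E (N + 1 - 1) (3 * l + 4)) : ℤ) : ℚ)
              + (3 : ℚ) ^ a * c := by
            have e2 : ((N + 1 : ℕ) : ℚ) / 3 = (3 : ℚ) ^ (a - 1) * n' := by
              rw [hnn]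
              obtain ⟨a', rfl⟩ : ∃ a', a = a' + 1 := ⟨a - 1, by omega⟩
              push_cast
              ring
            rw [← e2]
            push_cast at hce ⊢
            linear_combination hce
          rw [e1]
          have p3 : PI 3 ((3 : ℚ)) := by
            have := PI.nat h3 3
            push_cast at this
            exact this
          exact PI.add h3 (PI.mul h3 (PI.mul h3 (PI.pow h3 p3 _) (PI.nat h3 _)) (PI.int h3 _))
            (PI.mul h3 (PI.pow h3 p3 _) hc)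
      have hS : PI 3 (S m n / n) := by
        have h5 := PI.div_int h3 hPI (d := (-m) ^ (n - 1)) (by
          intro h
          have := (Nat.prime_iff_prime_int.1 h3).dvd_of_dvd_pow h
          exact hm3 (by
            have h' : (3 : ℤ) ∣ -m := by exact_mod_cast this
            rwa [dvd_neg] at h'))
        push_cast at h5
        have h6 : (-(m : ℚ)) ^ (n - 1) ≠ 0 := pow_ne_zero _ (neg_ne_zero.2 hmQ)
        have h7 : (-(m : ℚ)) ^ (n - 1) * S m n / n / (-(m : ℚ)) ^ (n - 1) = S m n / n := by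
          field_simp
        rwa [h7] at h5
      refine ⟨3 * (S m n / n), ?_, by simp⟩
      have h := PI.mul h3 (PI.nat h3 3) hS
      push_cast at h
      exact h
  · obtain ⟨a, n', hn', hnn⟩ := Nat.exists_eq_pow_mul_and_not_dvd (show n ≠ 0 by omega) 3 (by norm_num)
    have hea : e ≤ a := by
      rw [hnn] at hen
      have h5 : Nat.Coprime (3 ^ e) n' := Nat.Coprime.pow_left _ ((Nat.Prime.coprime_iff_not_dvd h3).2 hn')
      have h6 := h5.dvd_of_dvd_mul_right hen
      exact (Nat.pow_dvd_pow_iff_le_right (by norm_num)).1 h6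
    have hsum := S_eq m hm0 n hn
    have hM := M_div (K := n) hn ⟨n', hnn⟩ (by omega)
    obtain ⟨c, hc, hce⟩ := hM
    have p3 : PI 3 ((3 : ℚ)) := by
      have := PI.nat h3 3
      push_cast at this
      exact this
    have hPI : PI 3 (3 * ((-(m : ℚ)) ^ (n - 1) * S m n / n) / (3 : ℚ) ^ e) := by
      rw [hsum]
      obtain ⟨N, rfl⟩ : ∃ N, n = N + 1 := ⟨n - 1, by omega⟩
      rw [sum_range_succ', Nat.add_sub_cancel, add_div, sum_div, mul_add, mul_sum, add_div, sum_div]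
      refine PI.add h3 (PI.sum h3 _ _ fun i hi => ?_) ?_
      · rw [mem_range] at hi
        have hbound : (e - 1) + (i + 1) ≤ e * (i + 1) := by
          obtain ⟨e', rfl⟩ : ∃ e', e = e' + 1 := ⟨e - 1, by omega⟩
          rw [Nat.add_sub_cancel]
          nlinarith
        have := term_bound (m := m) (n := N + 1) (a := a) (e := e) (i := i + 1) (t := i + 1)
          (s := e - 1) hnn hn' hem (by omega) (Nat.lt_pow_self (by norm_num)) hbound
        rw [Nat.add_sub_cancel] at this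
        convert this using 1
        obtain ⟨e', rfl⟩ : ∃ e', e = e' + 1 := ⟨e - 1, by omega⟩
        rw [Nat.add_sub_cancel, pow_succ (3 : ℚ)]
        have h10 : (3 : ℚ) ^ e' ≠ 0 := by positivity
        field_simp
      · simp only [Nat.choose_zero_right, Nat.cast_one, pow_zero, mul_one, one_mul, Nat.sub_zero]
        obtain ⟨d, hd⟩ : ∃ d, a = e + d := ⟨a - e, by omega⟩
        have e1 : 3 * ((M N : ℚ) / ((N + 1 : ℕ) : ℚ)) / (3 : ℚ) ^ e = (3 : ℚ) ^ d * n' *
            ((∑ l ∈ range (N + 1), (E (N + 1 - 1) (3 * l + 2) - E (N + 1 - 1) (3 * l + 4)) : ℤ) : ℚ)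
            + (3 : ℚ) ^ (d + 1) * c := by
          have e2 : ((N + 1 : ℕ) : ℚ) = (3 : ℚ) ^ e * (3 : ℚ) ^ d * n' := by
            rw [hnn, hd]
            push_cast
            rw [pow_add]
          have h8 : (3 : ℚ) ^ e ≠ 0 := by positivity
          rw [div_eq_iff h8]
          rw [hd] at hce
          push_cast at hce e2 ⊢
          rw [pow_add] at hce
          rw [pow_succ]
          have h9 : ((N : ℚ) + 1) ≠ 0 := by positivity
          linear_combination 3 * hce + (∑ l ∈ range (N + 1), ((E N (3 * l + 2) : ℚ) - E N (3 * l + 4))) * e2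
        rw [e1]
        exact PI.add h3 (PI.mul h3 (PI.mul h3 (PI.pow h3 p3 _) (PI.nat h3 _)) (PI.int h3 _))
          (PI.mul h3 (PI.pow h3 p3 _) hc)
    have h5 := PI.div_int h3 hPI (d := (-m) ^ (n - 1)) (by
      intro h
      have := (Nat.prime_iff_prime_int.1 h3).dvd_of_dvd_pow h
      exact hm3 (by
        have h' : (3 : ℤ) ∣ -m := by exact_mod_cast this
        rwa [dvd_neg] at h'))
    push_cast at h5
    refine ⟨_, h5, ?_⟩
    have h6 : (-(m : ℚ)) ^ (n - 1) ≠ 0 := pow_ne_zero _ (neg_ne_zero.2 hmQ)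
    have h8 : (3 : ℚ) ^ e ≠ 0 := by positivity
    push_cast
    field_simp
    ring

end Q277.TriThree
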