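import Mathlib
import Pool.Agent.Q277.TriThreeMain

/-!
# Central trinomial coefficients near a power of `3`
-/

open Finset Polynomial

namespace Q277.TriThree

open Q277.PInt

theorem central_mod_three (a : ℕ) : Nat.centralBinom (3 ^ a) ≡ 2 [MOD 3] := by
  have : Fact (Nat.Prime 3) := ⟨h3⟩
  unfold Nat.centralBinom
  induction a with
  | zero => decide
  | succ a ih =>
    have h1 : (2 * 3 ^ (a + 1)).choose (3 ^ (a + 1)) ≡ ((2 * 3 ^ (a + 1)) % 3).choose ((3 ^ (a + 1)) % 3) *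
        ((2 * 3 ^ (a + 1)) / 3).choose ((3 ^ (a + 1)) / 3) [MOD 3] :=
      Choose.choose_modEq_choose_mod_mul_choose_div_nat
    have e1 : (2 * 3 ^ (a + 1)) % 3 = 0 := by rw [pow_succ]; omega
    have e2 : (3 ^ (a + 1)) % 3 = 0 := by rw [pow_succ]; omega
    have e3 : (2 * 3 ^ (a + 1)) / 3 = 2 * 3 ^ a := by rw [pow_succ]; omega
    have e4 : (3 ^ (a + 1)) / 3 = 3 ^ a := by rw [pow_succ]; omega
    rw [e1, e2, e3, e4, Nat.choose_self, one_mul] at h1
    exact h1.trans ih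

/-- `C(2n-4, n-2) ≡ 3^(a-1) (mod 3^a)` for `n = 3^a`, `a ≥ 2` -/
theorem central_two_below (b : ℕ) (hb : 1 ≤ b) :
    (3 : ℤ) ^ (b + 1) ∣ (Nat.centralBinom (3 ^ (b + 1) - 2) : ℤ) - 3 ^ b := by
  obtain ⟨b', rfl⟩ : ∃ b', b = b' + 1 := ⟨b - 1, by omega⟩
  set N' : ℕ := 3 ^ (b' + 1) with hN'
  have hn : 3 ^ (b' + 1 + 1) = 3 * N' := by rw [pow_succ, hN']; ring
  have hN3 : 3 ∣ N' := by rw [hN', pow_succ]; exact Dvd.intro_left _ rfl
  have hpos : 0 < N' := by positivity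
  obtain ⟨r, hr⟩ : ∃ r, 3 * N' = r + 2 := ⟨3 * N' - 2, by omega⟩
  have hc1 := Nat.succ_mul_centralBinom_succ r
  have hc2 := Nat.succ_mul_centralBinom_succ (r + 1)
  have hmod := central_mod_three (b' + 1 + 1)
  rw [hn, hr] at hmod
  have e0 : 3 ^ (b' + 1 + 1) - 2 = r := by rw [hn, hr]; rfl
  rw [e0]
  set A := Nat.centralBinom (r + 1 + 1) with hA
  have hmod' : A ≡ 2 [MOD 3] := hmod
  set B := Nat.centralBinom (r + 1) with hB
  set D := Nat.centralBinom r with hD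
  obtain ⟨s, hs⟩ := hN3
  have hrz : (r : ℤ) = 9 * s - 2 := by
    have : ((3 * N' : ℕ) : ℤ) = ((r + 2 : ℕ) : ℤ) := by rw [hr]
    rw [hs] at this
    push_cast at this
    linarith
  obtain ⟨q, hq⟩ : (3 : ℤ) ∣ (A : ℤ) - 2 := by
    have := (Nat.modEq_iff_dvd.1 hmod'.symm)
    exact_mod_cast this
  have h1 : ((r : ℤ) + 1) * B = 2 * (2 * r + 1) * D := by exact_mod_cast hc1
  have h2 : ((r : ℤ) + 1 + 1) * A = 2 * (2 * (r + 1) + 1) * B := by exact_mod_cast hc2
  -- combine: (r+1)(r+2) A = 4 (2r+1)(2r+3) D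
  have h3' : ((r : ℤ) + 1) * (r + 2) * A = 4 * (2 * r + 1) * (2 * r + 3) * D := by
    linear_combination (r + 1 : ℤ) * h2 + 2 * (2 * (r : ℤ) + 3) * h1
  rw [hrz] at h3'
  have h4 : (3 * (s : ℤ)) * ((9 * s - 1) * A) = 4 * (6 * s - 1) * (18 * s - 1) * D := by
    have : (3 : ℤ) * ((3 * (s : ℤ)) * ((9 * s - 1) * A)) = 3 * (4 * (6 * s - 1) * (18 * s - 1) * D) := by
      linear_combination h3'
    exact mul_left_cancel₀ (by norm_num) this
  have hA' : (A : ℤ) = 2 + 3 * q := by linarith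
  have h5 : (3 : ℤ) * N' ∣ (4 * (6 * s - 1) * (18 * s - 1)) * ((D : ℤ) - N') := by
    have hNz : (N' : ℤ) = 3 * s := by rw [hs]; push_cast; ring
    refine ⟨6 * s - 2 + (9 * s - 1) * q + (32 * s - 144 * s ^ 2), ?_⟩
    rw [hNz, mul_sub, ← h4, hA']
    ring
  have hcop : IsCoprime ((3 : ℤ) * N') (4 * (6 * s - 1) * (18 * s - 1)) := by
    have : ((3 : ℤ) * N') = 3 ^ (b' + 1 + 1) := by
      have := congrArg (Nat.cast : ℕ → ℤ) hn
      push_cast at this
      rw [this]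
    rw [this]
    apply IsCoprime.pow_left
    refine ⟨-1 - (4 * (6 * s - 1) * (18 * s - 1) - 4) / 3, 1, ?_⟩
    have : (4 * (6 * (s : ℤ) - 1) * (18 * s - 1) - 4) / 3 = 144 * s ^ 2 - 32 * s := by
      have : (4 * (6 * (s : ℤ) - 1) * (18 * s - 1) - 4) = 3 * (144 * s ^ 2 - 32 * s) := by ring
      rw [this]
      exact Int.mul_ediv_cancel_left _ (by norm_num)
    rw [this]
    ring
  have h6 := hcop.dvd_of_dvd_mul_left h5
  have e1 : ((3 : ℤ) * N') = 3 ^ (b' + 1 + 1) := by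
    have := congrArg (Nat.cast : ℕ → ℤ) hn
    push_cast at this
    rw [this]
  have e2 : (N' : ℤ) = 3 ^ (b' + 1) := by rw [hN']; push_cast; rfl
  rw [e1, e2] at h6
  exact h6

/-- `M(3^a - 2) ≡ -3^(a-1) (mod 3^a)` for `a ≥ 2` -/
theorem M_two_below (b : ℕ) (hb : 1 ≤ b) : (3 : ℤ) ^ (b + 1) ∣ M (3 ^ (b + 1) - 2) + 3 ^ b := by
  set n := 3 ^ (b + 1) with hn
  have hn9 : 9 ≤ n := by
    rw [hn]
    calc 9 = 3 ^ 2 := by norm_num
      _ ≤ 3 ^ (b + 1) := Nat.pow_le_pow_right (by norm_num) (by omega)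
  rw [M_eq, sum_range_succ']
  have h0 : (((n - 2).choose 0 : ℕ) : ℤ) * 3 ^ 0 * ((-1) ^ (n - 2 - 0) *
      (((2 * (n - 2 - 0)).choose (n - 2 - 0) : ℕ) : ℤ)) = -(Nat.centralBinom (n - 2) : ℤ) := by
    have hodd : Odd (n - 2) := by
      have h1 : Odd n := by rw [hn]; exact Odd.pow (by decide)
      obtain ⟨k, hk⟩ := h1
      exact ⟨k - 1, by omega⟩
    rw [Nat.sub_zero, hodd.neg_one_pow]
    simp [Nat.centralBinom]
  rw [h0]
  have h1 : (3 : ℤ) ^ (b + 1) ∣ ∑ k ∈ range (n - 2), ((n - 2).choose (k + 1) : ℤ) * 3 ^ (k + 1) *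
      ((-1) ^ (n - 2 - (k + 1)) * ((2 * (n - 2 - (k + 1))).choose (n - 2 - (k + 1)) : ℤ)) := by
    refine dvd_sum fun k hk => ?_
    rw [mem_range] at hk
    have e1 : n - 2 - (k + 1) = n - 1 - (k + 2) := by omega
    have hlt : k + 2 < 3 ^ (k + 1) := by
      have h5 : ∀ k : ℕ, k + 2 < 3 ^ (k + 1) := by
        intro k
        induction k with
        | zero => norm_num
        | succ k ih =>
          rw [pow_succ]; omega
      exact h5 k
    have h2 := dvd_central (n := n) (a := b + 1) (t := k + 1) (j := k + 2) (hn ▸ dvd_rfl) (by omega) hlt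
    have h3' : (3 : ℤ) ^ (b + 1 - (k + 1)) ∣ ((2 * (n - 1 - (k + 2))).choose (n - 1 - (k + 2)) : ℤ) := by
      exact_mod_cast h2
    have h4 : (3 : ℤ) ^ (b + 1) ∣ 3 ^ (k + 1) * 3 ^ (b + 1 - (k + 1)) := by
      rw [← pow_add]; exact pow_dvd_pow _ (by omega)
    refine h4.trans ?_
    rw [mul_assoc, e1]
    apply Dvd.dvd.mul_left
    refine mul_dvd_mul dvd_rfl ?_
    exact Dvd.dvd.mul_left h3' _
  have h2 := central_two_below b hb
  rw [← hn] at h2
  have h3' := dvd_sub h1 h2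
  have e : ∀ x y z : ℤ, x + -y + z = x - (y - z) := fun x y z => by ring
  rw [e]
  exact h3'

/-- the sum in the main congruence is `-1` modulo `3` for `n = 3^(b+1)`, `b ≥ 1` -/
theorem Z_mod (b : ℕ) (hb : 1 ≤ b) :
    (3 : ℤ) ∣ (∑ l ∈ range (3 ^ b), (E (3 ^ (b + 1) - 1) (3 * l + 2) - E (3 ^ (b + 1) - 1) (3 * l + 4)))
      + 1 := by
  set K := 3 ^ b with hK
  have hKpos : 0 < K := by positivity
  have hn : 3 ^ (b + 1) = 3 * K := by rw [pow_succ, hK]; ring
  have hK3 : 3 ∣ K := by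
    rw [hK]; exact dvd_pow_self 3 (by omega)
  rw [hn]
  obtain ⟨N, hN⟩ : ∃ N, 3 * K = N + 1 := ⟨3 * K - 1, by omega⟩
  have e0 : 3 * K - 1 = N := by omega
  rw [e0]
  -- coefficients of the n-th power
  have hc : ∀ j, 1 ≤ j → j < N + 1 → (3 : ℤ) ∣ E (N + 1) j := by
    intro j hj1 hj2
    obtain ⟨i, rfl⟩ : ∃ i, j = i + 1 := ⟨j - 1, by omega⟩
    have h1 := E_R2 N i
    by_contra hcon
    have h2 : (3 : ℤ) ^ (b + 1) ∣ ((i : ℤ) + 1) * E (N + 1) (i + 1) := by
      rw [h1, ← hN, ← hn]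
      push_cast
      exact Dvd.dvd.mul_right dvd_rfl _
    have h4 : IsCoprime ((3 : ℤ) ^ (b + 1)) (E (N + 1) (i + 1)) := by
      apply IsCoprime.pow_left
      exact (Prime.coprime_iff_not_dvd (Nat.prime_iff_prime_int.1 h3)).2 hcon
    have h5 := h4.dvd_of_dvd_mul_right h2
    have h6 : 3 ^ (b + 1) ∣ i + 1 := by exact_mod_cast h5
    have h7 := Nat.le_of_dvd (by omega) h6
    rw [hn, hN] at h7
    omega
  have htop : ∀ N, E N N = 1 := by
    intro N
    induction N with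
    | zero => simp [E]
    | succ N ih =>
      rw [E_R1, ih, E_R3 N (N + 1) (by omega), E_R3 N (N + 2) (by omega)]
      norm_num
  have hdiff : ∀ j, E N j = E N (j + 3) + E (N + 1) (j + 1) - E (N + 1) (j + 2) := by
    intro j
    have h1 := E_R1 N j
    have h2 := E_R1 N (j + 1)
    have e1 : j + 1 + 1 = j + 2 := rfl
    have e2 : j + 1 + 2 = j + 3 := rfl
    rw [e1, e2] at h2
    linear_combination -h1 + h2
  -- residues
  have hres : ∀ t l, l + t + 1 = K → (3 : ℤ) ∣ E N (3 * l + 2) - 1 ∧ (3 : ℤ) ∣ E N (3 * l + 1) + 1 := by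
    intro t
    induction t with
    | zero =>
      intro l hl
      have e1 : 3 * l + 2 = N := by omega
      constructor
      · rw [e1, htop]; norm_num
      · have h1 := E_R1 N (3 * l + 1)
        have e2 : 3 * l + 1 + 1 = N := by omega
        have e3 : 3 * l + 1 + 2 = N + 1 := by omega
        rw [e2, e3, htop, E_R3 N (N + 1) (by omega)] at h1
        have h2 := hc N (by omega) (by omega)
        rw [h1] at h2
        simpa using h2
    | succ t ih =>
      intro l hl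
      obtain ⟨h1, h2⟩ := ih (l + 1) (by omega)
      have e1 : 3 * (l + 1) + 2 = 3 * l + 2 + 3 := by ring
      have e2 : 3 * (l + 1) + 1 = 3 * l + 1 + 3 := by ring
      rw [e1] at h1
      rw [e2] at h2
      constructor
      · rw [hdiff]
        have h4 := hc (3 * l + 2 + 1) (by omega) (by omega)
        have h5 := hc (3 * l + 2 + 2) (by omega) (by omega)
        have h6 := dvd_sub (dvd_add h1 h4) h5
        have e : ∀ x y z : ℤ, x + y - z - 1 = x - 1 + y - z := fun x y z => by ring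
        rw [e]
        exact h6
      · rw [hdiff]
        have h4 := hc (3 * l + 1 + 1) (by omega) (by omega)
        have h5 := hc (3 * l + 1 + 2) (by omega) (by omega)
        have h6 := dvd_sub (dvd_add h2 h4) h5
        have e : ∀ x y z : ℤ, x + y - z + 1 = x + 1 + y - z := fun x y z => by ring
        rw [e]
        exact h6
  -- the sum
  obtain ⟨K', hK'⟩ : ∃ K', K = K' + 1 := ⟨K - 1, by omega⟩
  rw [hK', sum_range_succ]
  have hlast1 : (3 : ℤ) ∣ E N (3 * K' + 2) - 1 := (hres 0 K' (by omega)).1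
  have hlast2 : E N (3 * K' + 4) = 0 := E_R3 N _ (by omega)
  have hsum : (3 : ℤ) ∣ ∑ l ∈ range K', ((E N (3 * l + 2) - E N (3 * l + 4)) - 2) := by
    refine dvd_sum fun l hl => ?_
    rw [mem_range] at hl
    have h1 := (hres (K - 1 - l) l (by omega)).1
    have h2 := (hres (K - 1 - (l + 1)) (l + 1) (by omega)).2
    have e2 : 3 * (l + 1) + 1 = 3 * l + 4 := by ring
    rw [e2] at h2
    have := dvd_sub h1 h2
    convert this using 1
    ring
  rw [sum_sub_distrib, sum_const, card_range, nsmul_eq_mul] at hsum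
  rw [hlast2]
  obtain ⟨u, hu⟩ := hsum
  obtain ⟨v, hv⟩ := hlast1
  obtain ⟨w', hw⟩ := hK3
  have hK2 : (K' : ℤ) = 3 * w' - 1 := by
    have : ((K : ℕ) : ℤ) = ((3 * w' : ℕ) : ℤ) := by rw [hw]
    rw [hK'] at this
    push_cast at this
    linarith
  refine ⟨u + v + 2 * w', ?_⟩
  linear_combination hu + hv + 2 * hK2

end Q277.TriThree
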