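import Mathlib
import Pool.Agent.Q277.TriThreePow

/-!
# The refinements at `n = 3^a`
-/

open Finset Polynomial

namespace Q277.TriThree

open Q277.PInt

theorem PI3 : PI 3 ((3 : ℚ)) := by
  have := PI.nat h3 3
  push_cast at this
  exact this

/-- the value of `M(n-1)/n` for `n = 3^(b+1)` -/
theorem M_div_pow (b : ℕ) (hb : 1 ≤ b) :
    ∃ c : ℚ, PI 3 c ∧ (M (3 ^ (b + 1) - 1) : ℚ) / (3 : ℚ) ^ (b + 1) = (3 : ℚ) ^ b * (-1 + 3 * c) := by
  have hn : 3 ^ (b + 1) = 3 * 3 ^ b := by rw [pow_succ]; ring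
  have hM := M_div (n := 3 ^ (b + 1)) (a := b + 1) (K := 3 ^ b) (Nat.one_le_pow _ _ (by norm_num))
    dvd_rfl (by omega)
  obtain ⟨c, hc, hce⟩ := hM
  obtain ⟨v, hv⟩ := Z_mod b hb
  have hZ : (∑ l ∈ range (3 ^ b), (E (3 ^ (b + 1) - 1) (3 * l + 2) - E (3 ^ (b + 1) - 1) (3 * l + 4)))
      = -1 + 3 * v := by linarith
  rw [hZ] at hce
  refine ⟨v + c, PI.add h3 (PI.int h3 v) hc, ?_⟩
  push_cast at hce
  rw [pow_succ] at hce ⊢
  linear_combination hce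

/-- **Q2 (a)** -/
theorem Q2a {m : ℤ} {e b : ℕ} (he : 1 ≤ e) (heb : e ≤ b) (hem : (3 : ℤ) ^ e ∣ 1 - m) :
    Cg 3 e (S m (3 ^ (b + 1)) / (3 : ℚ) ^ (b + 1)) (-((m : ℚ) - 1) / 3) := by
  have hm : (3 : ℤ) ∣ 1 - m := (dvd_pow_self (3 : ℤ) (by omega)).trans hem
  have hm3 := three_not_dvd hm
  have hm0 : m ≠ 0 := by rintro rfl; exact hm3 (dvd_zero _)
  have hmQ : (m : ℚ) ≠ 0 := by exact_mod_cast hm0
  set n := 3 ^ (b + 1) with hn
  have hnQ : (n : ℚ) = (3 : ℚ) ^ (b + 1) := by rw [hn]; push_cast; rfl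
  have hn9 : 9 ≤ n := by
    rw [hn]
    calc 9 = 3 ^ 2 := by norm_num
      _ ≤ 3 ^ (b + 1) := Nat.pow_le_pow_right (by norm_num) (by omega)
  have hodd : Odd n := by rw [hn]; exact Odd.pow (by decide)
  have heven : Even (n - 1) := by
    obtain ⟨k, hk⟩ := hodd
    exact ⟨k, by omega⟩
  have hsum := S_eq m hm0 n (by omega)
  rw [← hnQ]
  obtain ⟨r, hr⟩ : ∃ r, n = r + 2 := ⟨n - 2, by omega⟩
  obtain ⟨u, hu⟩ := hem
  have huQ : (1 : ℚ) - m = (3 : ℚ) ^ e * u := by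
    have := congrArg (Int.cast : ℤ → ℚ) hu
    push_cast at this
    exact this
  -- term 0
  obtain ⟨c0, hc0, h0⟩ := M_div_pow b (by omega)
  rw [← hn, ← hnQ] at h0
  -- term 1
  obtain ⟨q, hq⟩ := M_two_below b (by omega)
  rw [← hn] at hq
  have hq' : (M (n - 2) : ℚ) = -(3 : ℚ) ^ b + (3 : ℚ) ^ (b + 1) * q := by
    have := congrArg (Int.cast : ℤ → ℚ) hq
    push_cast at this
    linarith
  -- rest
  have hrest : PI 3 ((∑ i ∈ range r, ((((n - 1).choose (i + 2) : ℤ) * (1 - m) ^ (i + 2) *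
      M (n - 1 - (i + 2)) : ℤ) : ℚ)) / (n : ℚ) / (3 : ℚ) ^ e) := by
    rw [sum_div, sum_div]
    refine PI.sum h3 _ _ fun i hi => ?_
    rw [mem_range] at hi
    have hlt : ∀ k : ℕ, k + 2 < 3 ^ (k + 1) := by
      intro k
      induction k with
      | zero => norm_num
      | succ k ih => rw [pow_succ]; omega
    refine term_bound (m := m) (n := n) (a := b + 1) (e := e) (i := i + 2) (t := i + 1)
      (s := e) (n' := 1) (by rw [mul_one]) (by norm_num) ⟨u, hu⟩ (by omega) (hlt i) ?_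
    nlinarith
  set R := (∑ i ∈ range r, ((((n - 1).choose (i + 2) : ℤ) * (1 - m) ^ (i + 2) *
      M (n - 1 - (i + 2)) : ℤ) : ℚ)) with hR
  have hn0 : (n : ℚ) ≠ 0 := by positivity
  have he0 : (3 : ℚ) ^ e ≠ 0 := by positivity
  obtain ⟨d, hd⟩ : ∃ d, b = e + d := ⟨b - e, by omega⟩
  -- the sum
  have hV : (m : ℚ) ^ (n - 1) * S m n / n + ((m : ℚ) - 1) / 3
      = (3 : ℚ) ^ e * (R / n / (3 : ℚ) ^ e + (u * (-(3 : ℚ) ^ b + ((n - 1 : ℕ) : ℚ) * q))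
        + (3 : ℚ) ^ d * (-1 + 3 * c0)) := by
    have h1 : (-(m : ℚ)) ^ (n - 1) = (m : ℚ) ^ (n - 1) := heven.neg_pow _
    rw [h1] at hsum
    rw [hsum]
    have h2 : ∑ i ∈ range n, ((((n - 1).choose i : ℤ) * (1 - m) ^ i * M (n - 1 - i) : ℤ) : ℚ)
        = R + (((n - 1 : ℕ) : ℚ) * (1 - m) * M (n - 2)) + M (n - 1) := by
      rw [hR]
      conv_lhs => rw [hr]
      rw [sum_range_succ', sum_range_succ', ← hr]
      congr 1
      · congr 1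
        · simp only [zero_add, Nat.choose_one_right, pow_one]
          have : n - 1 - 1 = n - 2 := by omega
          rw [this]
          push_cast
          ring
      · simp
    rw [h2]
    have h3a : ((n - 1 : ℕ) : ℚ) = n - 1 := by rw [Nat.cast_sub (by omega)]; push_cast; ring
    have h4 : (3 : ℚ) ^ e * (R / n / (3 : ℚ) ^ e + (u * (-(3 : ℚ) ^ b + ((n - 1 : ℕ) : ℚ) * q))
        + (3 : ℚ) ^ d * (-1 + 3 * c0)) = R / n + ((3 : ℚ) ^ e * u) * (-(3 : ℚ) ^ b + ((n - 1 : ℕ) : ℚ) * q)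
        + (3 : ℚ) ^ b * (-1 + 3 * c0) := by
      have : (3 : ℚ) ^ b = (3 : ℚ) ^ e * (3 : ℚ) ^ d := by rw [← pow_add, ← hd]
      conv_rhs => rw [this]
      rw [this]
      field_simp
    rw [h4, ← huQ, ← h0, hq', h3a]
    rw [hnQ]
    rw [pow_succ]
    have h5 : (3 : ℚ) ^ b ≠ 0 := by positivity
    field_simp
    ring
  -- the power of m
  have hm1 : (3 : ℤ) ∣ m ^ (n - 1) - 1 := by
    have h1 : (3 : ℤ) ∣ m - 1 := by
      have := (dvd_neg (a := (3 : ℤ)) (b := 1 - m)).2 hm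
      have e : -(1 - m) = m - 1 := by ring
      rwa [e] at this
    have h2 := sub_dvd_pow_sub_pow m 1 (n - 1)
    rw [one_pow] at h2
    exact h1.trans h2
  obtain ⟨x, hx⟩ := hm1
  have hxQ : (m : ℚ) ^ (n - 1) = 1 + 3 * x := by
    have := congrArg (Int.cast : ℤ → ℚ) hx
    push_cast at this
    linarith
  have hPI : PI 3 (R / n / (3 : ℚ) ^ e + (u * (-(3 : ℚ) ^ b + ((n - 1 : ℕ) : ℚ) * q))
        + (3 : ℚ) ^ d * (-1 + 3 * c0) - u * x) := by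
    refine PI.sub h3 (PI.add h3 (PI.add h3 hrest ?_) ?_) (PI.mul h3 (PI.int h3 _) (PI.int h3 _))
    · exact PI.mul h3 (PI.int h3 _) (PI.add h3 (PI.neg (PI.pow h3 PI3 _))
        (PI.mul h3 (PI.nat h3 _) (PI.int h3 _)))
    · exact PI.mul h3 (PI.pow h3 PI3 _) (PI.add h3 (PI.neg (PI.one h3)) (PI.mul h3 PI3 hc0))
  have h5 := PI.div_int h3 hPI (d := m ^ (n - 1))
    (fun h => hm3 ((Nat.prime_iff_prime_int.1 h3).dvd_of_dvd_pow h))
  push_cast at h5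
  refine ⟨_, h5, ?_⟩
  have hmp : (m : ℚ) ^ (n - 1) ≠ 0 := pow_ne_zero _ hmQ
  rw [← mul_div_assoc, eq_div_iff hmp]
  push_cast
  have e1 : (S m n / n - -((m : ℚ) - 1) / 3) * (m : ℚ) ^ (n - 1)
      = ((m : ℚ) ^ (n - 1) * S m n / n + ((m : ℚ) - 1) / 3) + ((m : ℚ) - 1) / 3 * ((m : ℚ) ^ (n - 1) - 1) := by
    ring
  have e2 : ((m : ℚ) - 1) / 3 * ((m : ℚ) ^ (n - 1) - 1) = -((3 : ℚ) ^ e * u) * x := by
    rw [hxQ, ← huQ]; ring
  rw [e1, hV, e2]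
  have h3a : ((n - 1 : ℕ) : ℚ) = n - 1 := by rw [Nat.cast_sub (by omega)]; push_cast; ring
  rw [h3a]
  ring

/-- **Q2 (b)** -/
theorem Q2b (b : ℕ) (hb : 1 ≤ b) :
    ∃ z : ℤ, S 1 (3 ^ (b + 1)) = -(3 : ℚ) ^ (2 * b + 1) + (3 : ℚ) ^ (2 * b + 2) * z := by
  set n := 3 ^ (b + 1) with hn
  have hnQ : (n : ℚ) = (3 : ℚ) ^ (b + 1) := by rw [hn]; push_cast; rfl
  have hn1 : 1 ≤ n := Nat.one_le_pow _ _ (by norm_num)
  have hodd : Odd n := by rw [hn]; exact Odd.pow (by decide)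
  have heven : Even (n - 1) := by
    obtain ⟨k, hk⟩ := hodd
    exact ⟨k, by omega⟩
  have hsum := S_eq 1 one_ne_zero n hn1
  have hSM : S 1 n = M (n - 1) := by
    push_cast at hsum
    rw [heven.neg_one_pow, one_mul] at hsum
    rw [hsum]
    obtain ⟨r, hr⟩ : ∃ r, n = r + 1 := ⟨n - 1, by omega⟩
    rw [hr, sum_range_succ']
    simp
  obtain ⟨c, hc, h0⟩ := M_div_pow b hb
  rw [← hn] at h0
  have h1 : (M (n - 1) : ℚ) = (3 : ℚ) ^ (b + 1) * ((3 : ℚ) ^ b * (-1 + 3 * c)) := by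
    have h5 : (3 : ℚ) ^ (b + 1) ≠ 0 := by positivity
    rw [div_eq_iff h5] at h0
    rw [h0]; ring
  have h2 : Cg 3 (2 * b + 2) ((M (n - 1) + 3 ^ (2 * b + 1) : ℤ) : ℚ) 0 := by
    refine ⟨c, hc, ?_⟩
    push_cast
    rw [h1]
    have e1 : (3 : ℚ) ^ (2 * b + 2) = (3 : ℚ) ^ (b + 1) * (3 : ℚ) ^ b * 3 := by
      rw [← pow_add, ← pow_succ]; congr 1; omega
    have e2 : (3 : ℚ) ^ (2 * b + 1) = (3 : ℚ) ^ (b + 1) * (3 : ℚ) ^ b := by
      rw [← pow_add]; congr 1; omega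
    rw [e1, e2]
    ring
  obtain ⟨z, hz⟩ := int_of_Cg h2
  refine ⟨z, ?_⟩
  rw [hSM]
  have := congrArg (Int.cast : ℤ → ℚ) hz
  push_cast at this
  linarith

end Q277.TriThree
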