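import Mathlib

/-!
# Weighted sums of powers of binomial coefficients over triangles

A `p`-adic reduction for sums `∑ K_s(x,y)^r φ(x,y,-s-x-y)` over `x, y ≥ 0`, `x + y + s ≤ n`, where
`K_s(x,y) = (-1)^(x+y) (x+y+s-1)! / (x! y!)`.
-/

open Finset

namespace Q277.TriangleSums

section padic

variable (p : ℕ) [hp : Fact p.Prime]

theorem modeq_iff (m : ℕ) (a b : ℤ_[p]) :
    PadicInt.toZModPow m a = PadicInt.toZModPow m b ↔ (p : ℤ_[p]) ^ m ∣ a - b := by
  rw [← sub_eq_zero, ← map_sub, ← RingHom.mem_ker, PadicInt.ker_toZModPow,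
    Ideal.mem_span_singleton]

theorem isUnit_int (x : ℤ) (h : ¬ (p : ℤ) ∣ x) : IsUnit ((x : ℤ) : ℤ_[p]) := by
  rw [PadicInt.isUnit_iff]
  have h1 := PadicInt.norm_le_one ((x : ℤ) : ℤ_[p])
  have h2 : ¬ ‖((x : ℤ) : ℤ_[p])‖ < 1 := by
    rw [PadicInt.norm_int_lt_one_iff_dvd]; exact h
  linarith [not_lt.1 h2]

open Classical in
/-- `x` as a `p`-adic unit if `p ∤ x`, and `1` otherwise -/
noncomputable def un (x : ℤ) : ℤ_[p]ˣ :=
  if h : (p : ℤ) ∣ x then 1 else (isUnit_int p x h).unit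

theorem un_of_dvd (x : ℤ) (h : (p : ℤ) ∣ x) : un p x = 1 := by
  unfold un; rw [dif_pos h]

theorem un_of_not_dvd (x : ℤ) (h : ¬ (p : ℤ) ∣ x) : ((un p x : ℤ_[p]ˣ) : ℤ_[p]) = (x : ℤ_[p]) := by
  unfold un; rw [dif_neg h]; exact IsUnit.unit_spec _

/-- the `p`-free factorial, extended to all integers -/
noncomputable def hu : ℤ → ℤ_[p]ˣ
  | (n : ℕ) => ∏ i ∈ range n, un p ((i : ℤ) + 1)
  | Int.negSucc n => (∏ i ∈ range (n + 1), un p (-(i : ℤ)))⁻¹

theorem hu_zero : hu p 0 = 1 := by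
  have : hu p ((0 : ℕ) : ℤ) = 1 := by unfold hu; simp
  exact_mod_cast this

theorem hu_succ (x : ℤ) : hu p (x + 1) = hu p x * un p (x + 1) := by
  obtain ⟨n, rfl | rfl⟩ := x.eq_nat_or_neg
  · have h1 : ((n : ℤ) + 1) = ((n + 1 : ℕ) : ℤ) := by push_cast; ring
    rw [h1]
    show ∏ i ∈ range (n + 1), un p ((i : ℤ) + 1) = (∏ i ∈ range n, un p ((i : ℤ) + 1)) * _
    rw [Finset.prod_range_succ]; push_cast; rfl
  · rcases n with _ | m
    · have h1 : (-((0 : ℕ) : ℤ) + 1) = ((1 : ℕ) : ℤ) := by simp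
      have h2 : (-((0 : ℕ) : ℤ)) = ((0 : ℕ) : ℤ) := by simp
      rw [h1, h2]
      show ∏ i ∈ range 1, un p ((i : ℤ) + 1) = (∏ i ∈ range 0, un p ((i : ℤ) + 1)) * _
      simp
    · have h1 : (-((m + 1 : ℕ) : ℤ)) = Int.negSucc m := by
        rw [Int.negSucc_eq]; push_cast; ring
      rw [h1]
      rcases m with _ | k
      · have h2 : Int.negSucc 0 + 1 = ((0 : ℕ) : ℤ) := by decide
        rw [h2]
        show ∏ i ∈ range 0, un p ((i : ℤ) + 1) = (∏ i ∈ range (0 + 1), un p (-(i : ℤ)))⁻¹ * _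
        simp [un_of_dvd]
      · have h2 : Int.negSucc (k + 1) + 1 = Int.negSucc k := by
          rw [Int.negSucc_eq, Int.negSucc_eq]; push_cast; ring
        rw [h2]
        show (∏ i ∈ range (k + 1), un p (-(i : ℤ)))⁻¹ =
          (∏ i ∈ range (k + 1 + 1), un p (-(i : ℤ)))⁻¹ * _
        rw [Finset.prod_range_succ (n := k + 1)]
        have h3 : Int.negSucc k = -((k + 1 : ℕ) : ℤ) := by
          rw [Int.negSucc_eq]; push_cast; ring
        rw [h3, mul_inv, mul_assoc, inv_mul_cancel, mul_one]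

/-- reduction of units modulo `p^m` -/
noncomputable def red (m : ℕ) : ℤ_[p]ˣ →* (ZMod (p ^ m))ˣ :=
  Units.map (PadicInt.toZModPow (p := p) m : ℤ_[p] →* ZMod (p ^ m))

theorem red_un_add (m : ℕ) (x t : ℤ) : red p m (un p (x + (p : ℤ) ^ m * t)) = red p m (un p x) := by
  rcases Nat.eq_zero_or_pos m with h | h
  · subst h
    apply Units.ext
    have : Subsingleton (ZMod (p ^ 0)) := by rw [pow_zero]; infer_instance
    exact Subsingleton.elim _ _
  · have hpm : (p : ℤ) ∣ (p : ℤ) ^ m * t := Dvd.dvd.mul_right (dvd_pow_self _ (by omega)) _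
    by_cases hx : (p : ℤ) ∣ x
    · rw [un_of_dvd p x hx, un_of_dvd p _ (dvd_add hx hpm)]
    · have hx' : ¬ (p : ℤ) ∣ x + (p : ℤ) ^ m * t := by
        intro h'
        exact hx ((Int.dvd_add_left hpm).1 h')
      apply Units.ext
      show PadicInt.toZModPow m ((un p (x + (p : ℤ) ^ m * t) : ℤ_[p]ˣ) : ℤ_[p]) =
        PadicInt.toZModPow m ((un p x : ℤ_[p]ˣ) : ℤ_[p])
      rw [un_of_not_dvd p x hx, un_of_not_dvd p _ hx', modeq_iff]
      refine ⟨(t : ℤ_[p]), ?_⟩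
      push_cast; ring

/-- the constant `ε_m` -/
noncomputable def eps (m : ℕ) : (ZMod (p ^ m))ˣ := red p m (hu p ((p : ℤ) ^ m))

theorem red_hu_add_one (m : ℕ) (x : ℤ) :
    red p m (hu p (x + (p : ℤ) ^ m)) = red p m (hu p x) * eps p m := by
  induction x using Int.induction_on with
  | zero => rw [zero_add, hu_zero, map_one, one_mul]; rfl
  | succ i ih =>
    have h1 : ((i : ℤ) + 1 + (p : ℤ) ^ m) = ((i : ℤ) + (p : ℤ) ^ m) + 1 := by ring
    rw [h1, hu_succ, hu_succ, map_mul, map_mul, ih]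
    have h2 : ((i : ℤ) + (p : ℤ) ^ m) + 1 = ((i : ℤ) + 1) + (p : ℤ) ^ m * 1 := by ring
    rw [h2, red_un_add, mul_right_comm]
  | pred i ih =>
    have h1 : (-(i : ℤ) - 1 + (p : ℤ) ^ m) + 1 = (-(i : ℤ) + (p : ℤ) ^ m) := by ring
    have h3 : (-(i : ℤ) - 1) + 1 = -(i : ℤ) := by ring
    have e1 := hu_succ p (-(i : ℤ) - 1 + (p : ℤ) ^ m)
    have e2 := hu_succ p (-(i : ℤ) - 1)
    rw [h1] at e1
    rw [h3] at e2
    rw [e1, e2, map_mul, map_mul] at ih
    have h2 : (-(i : ℤ) + (p : ℤ) ^ m) = (-(i : ℤ)) + (p : ℤ) ^ m * 1 := by ring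
    rw [h2, red_un_add] at ih
    have h4 : red p m (hu p (-(i : ℤ) - 1 + (p : ℤ) ^ m)) * red p m (un p (-(i : ℤ))) =
        (red p m (hu p (-(i : ℤ) - 1)) * eps p m) * red p m (un p (-(i : ℤ))) := by
      rw [ih, mul_right_comm]
    exact mul_right_cancel h4

theorem red_hu_add (m : ℕ) (x t : ℤ) :
    red p m (hu p (x + (p : ℤ) ^ m * t)) = red p m (hu p x) * eps p m ^ t := by
  induction t using Int.induction_on with
  | zero => simp
  | succ i ih =>
    have h1 : x + (p : ℤ) ^ m * ((i : ℤ) + 1) = (x + (p : ℤ) ^ m * i) + (p : ℤ) ^ m := by ring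
    rw [h1, red_hu_add_one, ih, zpow_add_one, mul_assoc]
  | pred i ih =>
    have h1 : x + (p : ℤ) ^ m * (-(i : ℤ)) = (x + (p : ℤ) ^ m * (-(i : ℤ) - 1)) + (p : ℤ) ^ m := by
      ring
    rw [h1, red_hu_add_one] at ih
    have h2 : eps p m ^ (-(i : ℤ)) = eps p m ^ (-(i : ℤ) - 1) * eps p m := by
      rw [← zpow_add_one]; congr 1; ring
    rw [h2, ← mul_assoc] at ih
    exact mul_right_cancel ih

/-- the product of the three `p`-free factorials -/
noncomputable def w (x y z : ℤ) : ℤ_[p]ˣ := hu p x * hu p y * hu p z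

theorem red_w (m : ℕ) (x y z x1 y1 z1 : ℤ) (hs : x + y + z = x1 + y1 + z1)
    (hx : (p : ℤ) ^ m ∣ x - x1) (hy : (p : ℤ) ^ m ∣ y - y1) (hz : (p : ℤ) ^ m ∣ z - z1) :
    red p m (w p x y z) = red p m (w p x1 y1 z1) := by
  obtain ⟨a, ha⟩ := hx
  obtain ⟨b, hb⟩ := hy
  obtain ⟨c, hc⟩ := hz
  have hpm : (p : ℤ) ^ m ≠ 0 := pow_ne_zero _ (by exact_mod_cast hp.out.ne_zero)
  have habc : a + b + c = 0 := by
    have : (p : ℤ) ^ m * (a + b + c) = 0 := by linarith
    exact (mul_eq_zero.1 this).resolve_left hpm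
  have ex : x = x1 + (p : ℤ) ^ m * a := by linarith
  have ey : y = y1 + (p : ℤ) ^ m * b := by linarith
  have ez : z = z1 + (p : ℤ) ^ m * c := by linarith
  unfold w
  rw [ex, ey, ez, map_mul, map_mul, map_mul, map_mul, red_hu_add, red_hu_add, red_hu_add]
  have : eps p m ^ a * eps p m ^ b * eps p m ^ c = 1 := by
    rw [← zpow_add, ← zpow_add, habc, zpow_zero]
  calc _ = red p m (hu p x1) * red p m (hu p y1) * red p m (hu p z1) *
        (eps p m ^ a * eps p m ^ b * eps p m ^ c) := by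
        simp only [mul_assoc, mul_comm, mul_left_comm]
    _ = _ := by rw [this, mul_one]

theorem w_rot (x y z : ℤ) : w p y z x = w p x y z := by
  unfold w; rw [mul_comm, ← mul_assoc]

theorem w_swap (x y z : ℤ) : w p y x z = w p x y z := by
  unfold w; rw [mul_comm (hu p y)]

/-- `m! = hu(m) p^(m/p) (m/p)!` -/
theorem factorial_eq (m : ℕ) : ((m.factorial : ℕ) : ℤ_[p]) =
    (hu p (m : ℤ) : ℤ_[p]) * (p : ℤ_[p]) ^ (m / p) * (((m / p).factorial : ℕ) : ℤ_[p]) := by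
  induction m with
  | zero =>
    have h0 : hu p ((0 : ℕ) : ℤ) = 1 := by exact_mod_cast hu_zero p
    rw [Nat.zero_div, h0]; simp
  | succ m ih =>
    have h1 : (((m + 1 : ℕ)) : ℤ) = (m : ℤ) + 1 := by push_cast; ring
    rw [Nat.factorial_succ, Nat.cast_mul, ih, h1, hu_succ, Nat.succ_div]
    by_cases hd : p ∣ m + 1
    · rw [if_pos hd]
      obtain ⟨c, hc⟩ := hd
      have hd' : (p : ℤ) ∣ (m : ℤ) + 1 := ⟨c, by exact_mod_cast hc⟩
      rw [un_of_dvd p _ hd', mul_one]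
      have hcm : m / p + 1 = c := by
        have h2 : (m + 1) / p = c := by rw [hc]; exact Nat.mul_div_cancel_left _ hp.out.pos
        rw [Nat.succ_div, if_pos ⟨c, hc⟩] at h2
        exact h2
      rw [Nat.factorial_succ, Nat.cast_mul, hc, ← hcm]
      push_cast
      ring
    · rw [if_neg hd, add_zero]
      have hd' : ¬ (p : ℤ) ∣ (m : ℤ) + 1 := by
        intro h; apply hd; exact_mod_cast h
      rw [Units.val_mul, un_of_not_dvd p _ hd']
      push_cast
      ring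

/-- `hu(m) hu(-1-m) = (-1)^(m - m/p)` -/
theorem hu_mul_hu_neg (m : ℕ) : hu p (m : ℤ) * hu p (-1 - (m : ℤ)) * (-1) ^ (m / p) = (-1) ^ m := by
  induction m with
  | zero =>
    have h0 : hu p ((0 : ℕ) : ℤ) = 1 := by exact_mod_cast hu_zero p
    have h1 := hu_succ p (-1)
    have h2 : (-1 : ℤ) + 1 = 0 := by norm_num
    rw [h2, un_of_dvd p 0 (dvd_zero _), mul_one, hu_zero] at h1
    rw [h0, Nat.zero_div]
    simp only [Nat.cast_zero, sub_zero]
    rw [← h1]; simp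
  | succ m ih =>
    have h1 : (((m + 1 : ℕ)) : ℤ) = (m : ℤ) + 1 := by push_cast; ring
    have e := hu_succ p (-1 - ((m : ℤ) + 1))
    have e2 : (-1 - ((m : ℤ) + 1)) + 1 = -1 - (m : ℤ) := by ring
    rw [e2] at e
    rw [h1, hu_succ, Nat.succ_div, pow_succ (-1 : ℤ_[p]ˣ) m, ← ih, e]
    by_cases hd : p ∣ m + 1
    · rw [if_pos hd]
      have hd' : (p : ℤ) ∣ (m : ℤ) + 1 := by
        obtain ⟨c, hc⟩ := hd
        exact ⟨c, by exact_mod_cast hc⟩
      have hd'' : (p : ℤ) ∣ -1 - (m : ℤ) := by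
        have : -1 - (m : ℤ) = -((m : ℤ) + 1) := by ring
        rw [this]; exact (dvd_neg).2 hd'
      rw [un_of_dvd p _ hd', un_of_dvd p _ hd'', mul_one, mul_one, pow_succ]
      simp only [mul_assoc]
    · rw [if_neg hd, add_zero]
      have hd' : ¬ (p : ℤ) ∣ (m : ℤ) + 1 := by
        intro h; apply hd; exact_mod_cast h
      have hd'' : ¬ (p : ℤ) ∣ -1 - (m : ℤ) := by
        intro h
        apply hd'
        have : (m : ℤ) + 1 = -(-1 - (m : ℤ)) := by ring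
        rw [this]; exact (dvd_neg).2 h
      have e3 : un p (-1 - (m : ℤ)) = -1 * un p ((m : ℤ) + 1) := by
        apply Units.ext
        rw [un_of_not_dvd p _ hd'', Units.val_mul, un_of_not_dvd p _ hd']
        push_cast; ring
      rw [e3]
      have e4 : ((-1 : ℤ_[p]ˣ)) * (-1) = 1 := by simp
      calc _ = hu p (m : ℤ) * hu p (-1 - ((m : ℤ) + 1)) * un p ((m : ℤ) + 1) * (-1) ^ (m / p) := by
            simp only [mul_assoc, mul_comm, mul_left_comm]
        _ = hu p (m : ℤ) * hu p (-1 - ((m : ℤ) + 1)) * un p ((m : ℤ) + 1) * (-1) ^ (m / p) *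
              ((-1) * (-1)) := by rw [e4, mul_one]
        _ = _ := by simp only [mul_assoc, mul_comm, mul_left_comm]

end padic

/-- `K_e(x,y) = (-1)^(x+y) (x+y+e)! / (x! y!)` for `e = 0, 1` -/
def K (e x y : ℕ) : ℤ := (-1) ^ (x + y) * ((x + y).choose x : ℤ) * ((x + y + 1 : ℕ) : ℤ) ^ e

theorem K_spec (e x y : ℕ) (he : e ≤ 1) :
    K e x y * (x.factorial * y.factorial : ℕ) = (-1) ^ (x + y) * ((x + y + e).factorial : ℕ) := by
  have h1 : ((x + y).choose x : ℤ) * (x.factorial : ℕ) * (y.factorial : ℕ) =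
      ((x + y).factorial : ℕ) := by
    have := Nat.choose_mul_factorial_mul_factorial (Nat.le_add_right x y)
    rw [Nat.add_sub_cancel_left] at this
    exact_mod_cast this
  unfold K
  interval_cases e
  · rw [pow_zero, mul_one, add_zero, ← h1]; push_cast; ring
  · rw [pow_one, Nat.factorial_succ]
    push_cast at h1 ⊢
    rw [← h1]; ring

section padic2

variable (p : ℕ) [hp : Fact p.Prime]

theorem key (e e' x y a b c : ℕ) (he : e ≤ 1) (he' : e' ≤ 1) (ha : a < p) (hb : b < p)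
    (hc : c < p) (h : a + b + c + (e + 1) = p * (e' + 1)) :
    (K e (p * x + a) (p * y + b) : ℤ_[p]) *
      (w p ((p : ℤ) * x + a) ((p : ℤ) * y + b) ((p : ℤ) * (-(e' + 1) - x - y) + c) : ℤ_[p]) =
      (-1) ^ (e + e') * (p : ℤ_[p]) ^ e' * (K e' x y : ℤ_[p]) := by
  have hpp := hp.out.pos
  have hpne : (p : ℤ_[p]) ≠ 0 := by exact_mod_cast hp.out.ne_zero
  set X := p * x + a with hX
  set Y := p * y + b with hY
  set m := X + Y + e with hm
  have hmeq : m = p * (x + y + e') + (p - 1 - c) := by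
    have h1 : p * (x + y + e') = p * x + p * y + p * e' := by ring
    have h2 : p * (e' + 1) = p * e' + p := by ring
    omega
  have hmp : m / p = x + y + e' := by
    rw [hmeq, Nat.mul_add_div hpp, Nat.div_eq_of_lt (by omega), add_zero]
  have hXp : X / p = x := by
    rw [hX, Nat.mul_add_div hpp, Nat.div_eq_of_lt ha, add_zero]
  have hYp : Y / p = y := by
    rw [hY, Nat.mul_add_div hpp, Nat.div_eq_of_lt hb, add_zero]
  have hZ : (p : ℤ) * (-(e' + 1) - x - y) + c = -1 - (m : ℤ) := by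
    have h3 : (m : ℤ) = p * (x + y + e') + (p - 1 - c) := by
      rw [hmeq]
      have : ((p - 1 - c : ℕ) : ℤ) = (p : ℤ) - 1 - c := by omega
      push_cast [this]; ring
    rw [h3]; ring
  have hXZ : ((p : ℤ) * x + a) = (X : ℤ) := by rw [hX]; push_cast; ring
  have hYZ : ((p : ℤ) * y + b) = (Y : ℤ) := by rw [hY]; push_cast; ring
  rw [hXZ, hYZ, hZ]
  have e1 := congrArg (Int.cast : ℤ → ℤ_[p]) (K_spec e X Y he)
  have e2 := congrArg (Int.cast : ℤ → ℤ_[p]) (K_spec e' x y he')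
  rw [← hm] at e1
  push_cast at e1 e2
  rw [factorial_eq p X, factorial_eq p Y, factorial_eq p m, hXp, hYp, hmp] at e1
  have e3 := congrArg (Units.val : ℤ_[p]ˣ → ℤ_[p]) (hu_mul_hu_neg p m)
  rw [hmp] at e3
  push_cast at e3
  have hx0 : ((x.factorial : ℕ) : ℤ_[p]) ≠ 0 := by exact_mod_cast Nat.factorial_ne_zero x
  have hy0 : ((y.factorial : ℕ) : ℤ_[p]) ≠ 0 := by exact_mod_cast Nat.factorial_ne_zero y
  have hne : (p : ℤ_[p]) ^ x * (p : ℤ_[p]) ^ y * (x.factorial : ℕ) * (y.factorial : ℕ) ≠ 0 :=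
    mul_ne_zero (mul_ne_zero (mul_ne_zero (pow_ne_zero _ hpne) (pow_ne_zero _ hpne)) hx0) hy0
  have sq : ∀ k : ℕ, ((-1 : ℤ_[p]) ^ k) * (-1) ^ k = 1 := by
    intro k; rw [← mul_pow]; simp
  apply mul_right_cancel₀ hne
  unfold w
  push_cast
  set KK : ℤ_[p] := (K e X Y : ℤ_[p])
  set K' : ℤ_[p] := (K e' x y : ℤ_[p])
  set u1 : ℤ_[p] := (hu p (X : ℤ) : ℤ_[p])
  set u2 : ℤ_[p] := (hu p (Y : ℤ) : ℤ_[p])
  set u3 : ℤ_[p] := (hu p (m : ℤ) : ℤ_[p])
  set u4 : ℤ_[p] := (hu p (-1 - (m : ℤ)) : ℤ_[p])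
  set P := (p : ℤ_[p])
  have e4 : u3 * u4 = (-1) ^ m * (-1) ^ (x + y + e') := by
    calc u3 * u4 = u3 * u4 * ((-1) ^ (x + y + e') * (-1) ^ (x + y + e')) := by rw [sq, mul_one]
      _ = (u3 * u4 * (-1) ^ (x + y + e')) * (-1) ^ (x + y + e') := by ring
      _ = _ := by rw [e3]
  have e5 : ((x + y + e').factorial : ℤ_[p]) =
      (-1) ^ (x + y) * (K' * ((x.factorial : ℕ) * (y.factorial : ℕ))) := by
    rw [e2, ← mul_assoc, sq, one_mul]
  calc KK * (u1 * u2 * u4) * (P ^ x * P ^ y * (x.factorial : ℕ) * (y.factorial : ℕ))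
      = (KK * (u1 * P ^ x * (x.factorial : ℕ) * (u2 * P ^ y * (y.factorial : ℕ)))) * u4 := by ring
    _ = ((-1) ^ (X + Y) * (u3 * P ^ (x + y + e') * ((x + y + e').factorial : ℕ))) * u4 := by rw [e1]
    _ = (-1) ^ (X + Y) * (u3 * u4) * P ^ (x + y + e') * ((x + y + e').factorial : ℕ) := by ring
    _ = (-1) ^ (X + Y) * ((-1) ^ m * (-1) ^ (x + y + e')) * P ^ (x + y + e') *
          ((-1) ^ (x + y) * (K' * ((x.factorial : ℕ) * (y.factorial : ℕ)))) := by rw [e4, e5]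
    _ = ((-1) ^ (X + Y) * (-1) ^ (X + Y)) * ((-1) ^ (x + y) * (-1) ^ (x + y)) *
          ((-1) ^ (e + e') * P ^ e' * K' * (P ^ x * P ^ y * (x.factorial : ℕ) *
            (y.factorial : ℕ))) := by
        rw [hm]; ring
    _ = _ := by rw [sq, sq]; ring

/-- The test functions on the plane `x + y + z = -(e+1)`: compatible with congruences modulo
powers of `p`, and with vanishing cyclic sums. -/
structure Good (e : ℕ) (φ : ℤ → ℤ → ℤ → ℤ_[p]) : Prop where
  lip : ∀ (j : ℕ) (x y z x1 y1 z1 : ℤ), x + y + z = -((e : ℤ) + 1) →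
    x1 + y1 + z1 = -((e : ℤ) + 1) → (p : ℤ) ^ j ∣ x - x1 → (p : ℤ) ^ j ∣ y - y1 →
    (p : ℤ) ^ j ∣ z - z1 → (p : ℤ_[p]) ^ j ∣ φ x y z - φ x1 y1 z1
  cyc : ∀ x y z : ℤ, x + y + z = -((e : ℤ) + 1) → φ x y z + φ y z x + φ z x y = 0

/-- the summand of `step` -/
noncomputable def F (r : ℕ) (φ : ℤ → ℤ → ℤ → ℤ_[p]) (x y z : ℤ) : ℤ_[p] :=
  (((w p x y z)⁻¹ ^ r : ℤ_[p]ˣ) : ℤ_[p]) * φ x y z

/-- sums over triples of digits with prescribed sum -/
noncomputable def D (s t : ℕ) (G : ℕ → ℕ → ℕ → ℤ_[p]) : ℤ_[p] :=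
  ∑ a ∈ range p, ∑ b ∈ range p, ∑ c ∈ range p, if a + b + c + s = t then G a b c else 0

theorem D_rot (s t : ℕ) (G : ℕ → ℕ → ℕ → ℤ_[p]) : D p s t (fun a b c => G b c a) = D p s t G := by
  unfold D
  calc ∑ a ∈ range p, ∑ b ∈ range p, ∑ c ∈ range p, (if a + b + c + s = t then G b c a else 0)
      = ∑ a ∈ range p, ∑ b ∈ range p, ∑ c ∈ range p, (if b + c + a + s = t then G b c a else 0) := by
        refine Finset.sum_congr rfl fun a _ => Finset.sum_congr rfl fun b _ =>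
          Finset.sum_congr rfl fun c _ => ?_
        rw [show b + c + a + s = a + b + c + s by ring]
    _ = ∑ b ∈ range p, ∑ a ∈ range p, ∑ c ∈ range p, (if b + c + a + s = t then G b c a else 0) :=
        Finset.sum_comm
    _ = ∑ b ∈ range p, ∑ c ∈ range p, ∑ a ∈ range p, (if b + c + a + s = t then G b c a else 0) :=
        Finset.sum_congr rfl fun b _ => Finset.sum_comm

theorem D_swap (s t : ℕ) (G : ℕ → ℕ → ℕ → ℤ_[p]) : D p s t (fun a b c => G b a c) = D p s t G := by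
  unfold D
  rw [Finset.sum_comm]
  refine Finset.sum_congr rfl fun a _ => Finset.sum_congr rfl fun b _ =>
          Finset.sum_congr rfl fun c _ => ?_
  rw [show b + a + c + s = a + b + c + s by ring]

theorem D_add (s t : ℕ) (G H : ℕ → ℕ → ℕ → ℤ_[p]) :
    D p s t (fun a b c => G a b c + H a b c) = D p s t G + D p s t H := by
  unfold D
  simp only [← Finset.sum_add_distrib]
  refine Finset.sum_congr rfl fun a _ => Finset.sum_congr rfl fun b _ =>
          Finset.sum_congr rfl fun c _ => ?_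
  split_ifs
  · rfl
  · simp

theorem D_dvd (s t : ℕ) (G : ℕ → ℕ → ℕ → ℤ_[p]) (q : ℤ_[p])
    (h : ∀ a b c, a < p → b < p → c < p → a + b + c + s = t → q ∣ G a b c) : q ∣ D p s t G := by
  unfold D
  refine Finset.dvd_sum fun a ha => Finset.dvd_sum fun b hb => Finset.dvd_sum fun c hc => ?_
  rw [Finset.mem_range] at ha hb hc
  split_ifs with h1
  · exact h a b c ha hb hc h1
  · exact dvd_zero _

theorem D_sub (s t : ℕ) (G H : ℕ → ℕ → ℕ → ℤ_[p]) :
    D p s t G - D p s t H = D p s t (fun a b c => G a b c - H a b c) := by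
  unfold D
  simp only [← Finset.sum_sub_distrib]
  refine Finset.sum_congr rfl fun a _ => Finset.sum_congr rfl fun b _ =>
          Finset.sum_congr rfl fun c _ => ?_
  split_ifs
  · rfl
  · simp

theorem D_congr (s t : ℕ) (G H : ℕ → ℕ → ℕ → ℤ_[p])
    (h : ∀ a b c, a < p → b < p → c < p → a + b + c + s = t → G a b c = H a b c) :
    D p s t G = D p s t H := by
  unfold D
  refine Finset.sum_congr rfl fun a ha => Finset.sum_congr rfl fun b hb =>
          Finset.sum_congr rfl fun c hc => ?_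
  rw [Finset.mem_range] at ha hb hc
  split_ifs with h1
  · exact h a b c ha hb hc h1
  · rfl

/-- one reduction step -/
noncomputable def step (r e e' : ℕ) (φ : ℤ → ℤ → ℤ → ℤ_[p]) (x y z : ℤ) : ℤ_[p] :=
  D p (e + 1) (p * (e' + 1)) (fun a b c => F p r φ (p * x + a) (p * y + b) (p * z + c))

theorem F_lip (r e : ℕ) (φ : ℤ → ℤ → ℤ → ℤ_[p]) (hφ : Good p e φ) (j : ℕ) (x y z x1 y1 z1 : ℤ)
    (h : x + y + z = -((e : ℤ) + 1)) (h1 : x1 + y1 + z1 = -((e : ℤ) + 1))
    (hx : (p : ℤ) ^ j ∣ x - x1) (hy : (p : ℤ) ^ j ∣ y - y1) (hz : (p : ℤ) ^ j ∣ z - z1) :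
    (p : ℤ_[p]) ^ j ∣ F p r φ x y z - F p r φ x1 y1 z1 := by
  have e1 := red_w p j x y z x1 y1 z1 (by rw [h, h1]) hx hy hz
  have e2 : red p j ((w p x y z)⁻¹ ^ r) = red p j ((w p x1 y1 z1)⁻¹ ^ r) := by
    rw [map_pow, map_pow, map_inv, map_inv, e1]
  have e3 := congrArg (Units.val : (ZMod (p ^ j))ˣ → ZMod (p ^ j)) e2
  have e4 := (modeq_iff p j _ _).2 (hφ.lip j x y z x1 y1 z1 h h1 hx hy hz)
  rw [← modeq_iff]
  unfold F
  rw [map_mul, map_mul, e4]
  congr 1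

theorem F_cyc (r e : ℕ) (φ : ℤ → ℤ → ℤ → ℤ_[p]) (hφ : Good p e φ) (x y z : ℤ)
    (h : x + y + z = -((e : ℤ) + 1)) : F p r φ x y z + F p r φ y z x + F p r φ z x y = 0 := by
  unfold F
  rw [w_rot p x y z, ← w_rot p z x y, ← mul_add, ← mul_add, hφ.cyc x y z h, mul_zero]

omit hp in
theorem plane_eq (e e' a b c : ℕ) (x y z : ℤ) (hxyz : x + y + z = -((e' : ℤ) + 1))
    (h : a + b + c + (e + 1) = p * (e' + 1)) :
    ((p : ℤ) * x + a) + (p * y + b) + (p * z + c) = -((e : ℤ) + 1) := by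
  have h1 : ((a : ℤ) + b + c + (e + 1)) = p * (e' + 1) := by exact_mod_cast h
  have h2 : (p : ℤ) * x + p * y + p * z = p * (-((e' : ℤ) + 1)) := by rw [← hxyz]; ring
  linarith

theorem step_dvd (r e e' : ℕ) (he : e ≤ 1) (φ : ℤ → ℤ → ℤ → ℤ_[p]) (hφ : Good p e φ)
    (x y z : ℤ) (hxyz : x + y + z = -((e' : ℤ) + 1)) (he' : e' ≤ 1) :
    (p : ℤ_[p]) ∣ step p r e e' φ x y z := by
  set G : ℕ → ℕ → ℕ → ℤ_[p] := fun a b c => F p r φ (p * x + a) (p * y + b) (p * z + c) with hG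
  have hrel : ∀ a b c : ℕ, a + b + c + (e + 1) = p * (e' + 1) →
      (p : ℤ_[p]) ∣ G a b c + G b c a + G c a b := by
    intro a b c h
    have hp1 := plane_eq p e e' a b c x y z hxyz h
    have hp2 := plane_eq p e e' b c a x y z hxyz (by rw [← h]; ring)
    have hp3 := plane_eq p e e' c a b x y z hxyz (by rw [← h]; ring)
    have c0 := F_cyc p r e φ hφ _ _ _ hp1
    have d2 : (p : ℤ_[p]) ^ 1 ∣ G b c a - F p r φ (p * y + b) (p * z + c) (p * x + a) := by
      apply F_lip p r e φ hφ 1 _ _ _ _ _ _ hp2 (by linarith)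
      · exact ⟨x - y, by ring⟩
      · exact ⟨y - z, by ring⟩
      · exact ⟨z - x, by ring⟩
    have d3 : (p : ℤ_[p]) ^ 1 ∣ G c a b - F p r φ (p * z + c) (p * x + a) (p * y + b) := by
      apply F_lip p r e φ hφ 1 _ _ _ _ _ _ hp3 (by linarith)
      · exact ⟨x - z, by ring⟩
      · exact ⟨y - x, by ring⟩
      · exact ⟨z - y, by ring⟩
    rw [pow_one] at d2 d3
    have e1 : G a b c + G b c a + G c a b =
        (G b c a - F p r φ (p * y + b) (p * z + c) (p * x + a)) +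
        (G c a b - F p r φ (p * z + c) (p * x + a) (p * y + b)) +
        (F p r φ (p * x + a) (p * y + b) (p * z + c) +
          F p r φ (p * y + b) (p * z + c) (p * x + a) +
          F p r φ (p * z + c) (p * x + a) (p * y + b)) := by
      rw [hG]; ring
    rw [e1, c0, add_zero]
    exact dvd_add d2 d3
  have h3 : (p : ℤ_[p]) ∣ 3 * D p (e + 1) (p * (e' + 1)) G := by
    have e1 : 3 * D p (e + 1) (p * (e' + 1)) G =
        D p (e + 1) (p * (e' + 1)) (fun a b c => G a b c + G b c a + G c a b) := by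
      have r1 := D_rot p (e + 1) (p * (e' + 1)) G
      have r2 := D_rot p (e + 1) (p * (e' + 1)) (fun a b c => G b c a)
      have r3 : D p (e + 1) (p * (e' + 1)) (fun a b c => G c a b) =
        D p (e + 1) (p * (e' + 1)) G := by rw [← r1, ← r2]
      rw [D_add p _ _ (fun a b c => G a b c + G b c a) (fun a b c => G c a b),
        D_add p _ _ G (fun a b c => G b c a), r3, r1]
      ring
    rw [e1]
    exact D_dvd p _ _ _ _ fun a b c _ _ _ h => hrel a b c h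
  by_cases hp3 : p = 3
  · subst hp3
    have key3 : ∀ A B : ℤ_[3], A = B → ((3 : ℕ) : ℤ_[3]) ∣ A → (3 : ℤ_[3]) ∣ B := by
      intro A B h h'
      rw [← h]
      exact_mod_cast h'
    show ((3 : ℕ) : ℤ_[3]) ∣ D 3 (e + 1) (3 * (e' + 1)) G
    unfold D
    interval_cases e <;> interval_cases e' <;>
      simp only [Finset.sum_range_succ, Finset.sum_range_zero] <;> norm_num
    · exact key3 _ _ (by ring) (dvd_add (hrel 0 0 2 (by norm_num)) (hrel 0 1 1 (by norm_num)))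
    · exact key3 _ _ (by ring) (hrel 1 2 2 (by norm_num))
    · exact key3 _ _ (by ring) (hrel 0 0 1 (by norm_num))
    · exact key3 _ _ (by ring) (dvd_add (hrel 0 2 2 (by norm_num)) (hrel 1 1 2 (by norm_num)))
  · have hcop : IsUnit ((3 : ℤ) : ℤ_[p]) := by
      apply isUnit_int
      intro h
      have h1 : p ∣ 3 := by exact_mod_cast h
      exact hp3 ((Nat.prime_dvd_prime_iff_eq hp.out Nat.prime_three).1 h1)
    have h4 : (p : ℤ_[p]) ∣ ((3 : ℤ) : ℤ_[p]) * D p (e + 1) (p * (e' + 1)) G := by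
      push_cast; exact h3
    exact (hcop.dvd_mul_left).1 h4

theorem step_cyc (r e e' : ℕ) (φ : ℤ → ℤ → ℤ → ℤ_[p]) (hφ : Good p e φ)
    (x y z : ℤ) (hxyz : x + y + z = -((e' : ℤ) + 1)) :
    step p r e e' φ x y z + step p r e e' φ y z x + step p r e e' φ z x y = 0 := by
  have r1 : step p r e e' φ y z x = D p (e + 1) (p * (e' + 1))
      (fun a b c => F p r φ (p * y + b) (p * z + c) (p * x + a)) :=
    (D_rot p (e + 1) (p * (e' + 1))
      (fun a b c => F p r φ (p * y + a) (p * z + b) (p * x + c))).symm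
  have r2 : step p r e e' φ z x y = D p (e + 1) (p * (e' + 1))
      (fun a b c => F p r φ (p * z + c) (p * x + a) (p * y + b)) := by
    have q1 := D_rot p (e + 1) (p * (e' + 1))
      (fun a b c => F p r φ (p * z + a) (p * x + b) (p * y + c))
    have q2 := D_rot p (e + 1) (p * (e' + 1))
      (fun a b c => F p r φ (p * z + b) (p * x + c) (p * y + a))
    unfold step
    rw [← q1, ← q2]
  rw [r1, r2]
  unfold step
  rw [← D_add, ← D_add]
  have : D p (e + 1) (p * (e' + 1)) (fun a b c =>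
      F p r φ (p * x + a) (p * y + b) (p * z + c) + F p r φ (p * y + b) (p * z + c) (p * x + a) +
        F p r φ (p * z + c) (p * x + a) (p * y + b)) =
      D p (e + 1) (p * (e' + 1)) (fun _ _ _ => 0) := by
    apply D_congr
    intro a b c _ _ _ h
    exact F_cyc p r e φ hφ _ _ _ (plane_eq p e e' a b c x y z hxyz h)
  rw [this]
  unfold D
  simp

theorem step_lip (r e e' : ℕ) (φ : ℤ → ℤ → ℤ → ℤ_[p]) (hφ : Good p e φ) (j : ℕ)
    (x y z x1 y1 z1 : ℤ)
    (h : x + y + z = -((e' : ℤ) + 1)) (h1 : x1 + y1 + z1 = -((e' : ℤ) + 1))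
    (hx : (p : ℤ) ^ j ∣ x - x1) (hy : (p : ℤ) ^ j ∣ y - y1) (hz : (p : ℤ) ^ j ∣ z - z1) :
    (p : ℤ_[p]) ^ (j + 1) ∣ step p r e e' φ x y z - step p r e e' φ x1 y1 z1 := by
  unfold step
  rw [D_sub]
  apply D_dvd
  intro a b c _ _ _ habc
  have aux : ∀ u v : ℤ, ∀ a : ℕ, (p : ℤ) ^ j ∣ u - v →
      (p : ℤ) ^ (j + 1) ∣ (p * u + a) - (p * v + a) := by
    intro u v a huv
    have : (p * u + a) - (p * v + a) = (p : ℤ) * (u - v) := by ring
    rw [this, pow_succ, mul_comm ((p : ℤ) ^ j)]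
    exact mul_dvd_mul_left _ huv
  exact F_lip p r e φ hφ (j + 1) _ _ _ _ _ _ (plane_eq p e e' a b c x y z h habc)
    (plane_eq p e e' a b c x1 y1 z1 h1 habc) (aux _ _ _ hx) (aux _ _ _ hy) (aux _ _ _ hz)

open Classical in
/-- `step / p` -/
noncomputable def next (r e e' : ℕ) (φ : ℤ → ℤ → ℤ → ℤ_[p]) (x y z : ℤ) : ℤ_[p] :=
  if h : (p : ℤ_[p]) ∣ step p r e e' φ x y z then h.choose else 0

theorem next_spec (r e e' : ℕ) (he : e ≤ 1) (he' : e' ≤ 1) (φ : ℤ → ℤ → ℤ → ℤ_[p])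
    (hφ : Good p e φ) (x y z : ℤ) (hxyz : x + y + z = -((e' : ℤ) + 1)) :
    step p r e e' φ x y z = (p : ℤ_[p]) * next p r e e' φ x y z := by
  have h := step_dvd p r e e' he φ hφ x y z hxyz he'
  unfold next
  rw [dif_pos h]
  exact h.choose_spec

theorem next_good (r e e' : ℕ) (he : e ≤ 1) (he' : e' ≤ 1) (φ : ℤ → ℤ → ℤ → ℤ_[p])
    (hφ : Good p e φ) : Good p e' (next p r e e' φ) := by
  have hpne : (p : ℤ_[p]) ≠ 0 := by exact_mod_cast hp.out.ne_zero
  constructor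
  · intro j x y z x1 y1 z1 h h1 hx hy hz
    have h2 := step_lip p r e e' φ hφ j x y z x1 y1 z1 h h1 hx hy hz
    rw [next_spec p r e e' he he' φ hφ x y z h, next_spec p r e e' he he' φ hφ x1 y1 z1 h1,
      ← mul_sub, pow_succ, mul_comm ((p : ℤ_[p]) ^ j)] at h2
    exact (mul_dvd_mul_iff_left hpne).1 h2
  · intro x y z h
    have h2 := step_cyc p r e e' φ hφ x y z h
    rw [next_spec p r e e' he he' φ hφ x y z h,
      next_spec p r e e' he he' φ hφ y z x (by linarith),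
      next_spec p r e e' he he' φ hφ z x y (by linarith), ← mul_add, ← mul_add] at h2
    exact (mul_eq_zero.1 h2).resolve_left hpne

/-- The sum over the triangle. -/
noncomputable def L (r e n : ℕ) (φ : ℤ → ℤ → ℤ → ℤ_[p]) : ℤ_[p] :=
  ∑ x ∈ range n, ∑ y ∈ range n, if x + y + (e + 1) ≤ n then
    (K e x y : ℤ_[p]) ^ r * φ x y (-((e : ℤ) + 1) - x - y) else 0

end padic2

theorem sum_range_mul {M : Type*} [AddCommMonoid M] (p n : ℕ) (f : ℕ → M) :
    ∑ x ∈ range (p * n), f x = ∑ x ∈ range n, ∑ a ∈ range p, f (p * x + a) := by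
  induction n with
  | zero => simp
  | succ n ih =>
    rw [Nat.mul_succ, Finset.sum_range_add, ih, Finset.sum_range_succ]

theorem sum_ite_eq_aux {M : Type*} [AddCommMonoid M] (p s t : ℕ) (q : Prop) [Decidable q] (T : M)
    (h : s ≤ t) (h' : t < p + s) :
    (∑ c ∈ range p, if s + c = t ∧ q then T else 0) = if q then T else 0 := by
  rw [Finset.sum_eq_single (t - s)]
  · have : s + (t - s) = t := by omega
    simp [this]
  · intro b _ hb
    rw [if_neg]
    rintro ⟨h1, _⟩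
    omega
  · intro hn
    rw [Finset.mem_range] at hn
    omega

theorem sum_ite_eq_zero_aux {M : Type*} [AddCommMonoid M] (p s t : ℕ) (q : Prop) [Decidable q]
    (T : M) (h : t < s ∨ p + s ≤ t) :
    (∑ c ∈ range p, if s + c = t ∧ q then T else 0) = 0 := by
  apply Finset.sum_eq_zero
  intro c hc
  rw [Finset.mem_range] at hc
  rw [if_neg]
  rintro ⟨h1, _⟩
  omega

section padic3

variable (p : ℕ) [hp : Fact p.Prime]

theorem term_eq (r e e' n x y : ℕ) (he : e ≤ 1) (he' : e' ≤ 1) (φ : ℤ → ℤ → ℤ → ℤ_[p]) :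
    ((-1) ^ (e + e') * (p : ℤ_[p]) ^ e') ^ r * (if x + y + (e' + 1) ≤ n then
      (K e' x y : ℤ_[p]) ^ r * step p r e e' φ x y (-((e' : ℤ) + 1) - x - y) else 0) =
    ∑ a ∈ range p, ∑ b ∈ range p, ∑ c ∈ range p,
      if (a + b + (e + 1)) + c = p * (e' + 1) ∧ x + y + (e' + 1) ≤ n then
        (K e (p * x + a) (p * y + b) : ℤ_[p]) ^ r *
          φ ((p * x + a : ℕ) : ℤ) ((p * y + b : ℕ) : ℤ)
            (-((e : ℤ) + 1) - (p * x + a : ℕ) - (p * y + b : ℕ)) else 0 := by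
  by_cases hc : x + y + (e' + 1) ≤ n
  · simp only [hc, and_true, if_true]
    unfold step D
    rw [Finset.mul_sum, Finset.mul_sum]
    refine Finset.sum_congr rfl fun a ha => ?_
    rw [Finset.mul_sum, Finset.mul_sum]
    refine Finset.sum_congr rfl fun b hb => ?_
    rw [Finset.mul_sum, Finset.mul_sum]
    refine Finset.sum_congr rfl fun c hc => ?_
    rw [Finset.mem_range] at ha hb hc
    have hiff : (a + b + c + (e + 1) = p * (e' + 1)) ↔ ((a + b + (e + 1)) + c = p * (e' + 1)) := by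
      constructor <;> intro h <;> omega
    by_cases h : a + b + c + (e + 1) = p * (e' + 1)
    · rw [if_pos h, if_pos (hiff.1 h)]
      have k := key p e e' x y a b c he he' ha hb hc h
      have hz : (p : ℤ) * (-((e' : ℤ) + 1) - x - y) + c =
          -((e : ℤ) + 1) - (p * x + a : ℕ) - (p * y + b : ℕ) := by
        have h1 : ((a : ℤ) + b + c + (e + 1)) = p * (e' + 1) := by exact_mod_cast h
        push_cast
        linarith
      have hX : ((p * x + a : ℕ) : ℤ) = (p : ℤ) * x + a := by push_cast; ring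
      have hY : ((p * y + b : ℕ) : ℤ) = (p : ℤ) * y + b := by push_cast; ring
      rw [← hz, hX, hY]
      unfold F
      beta_reduce
      set W := w p ((p : ℤ) * x + a) ((p : ℤ) * y + b) ((p : ℤ) * (-((e' : ℤ) + 1) - x - y) + c)
      rw [← mul_assoc, ← mul_pow, ← k, mul_pow, Units.val_pow_eq_pow_val, ← mul_assoc,
        mul_assoc ((K e (p * x + a) (p * y + b) : ℤ_[p]) ^ r), ← mul_pow, Units.mul_inv, one_pow,
        mul_one]
    · rw [if_neg h, if_neg (fun h' => h (hiff.2 h'))]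
      simp
  · simp [hc]

theorem L_step (r e n : ℕ) (he : e ≤ 1) (φ : ℤ → ℤ → ℤ → ℤ_[p]) :
    L p r e (p * n) φ =
      ((-1) ^ (e + 0) * (p : ℤ_[p]) ^ 0) ^ r * L p r 0 n (step p r e 0 φ) +
      ((-1) ^ (e + 1) * (p : ℤ_[p]) ^ 1) ^ r * L p r 1 n (step p r e 1 φ) := by
  have hpp := hp.out.pos
  unfold L
  rw [sum_range_mul, Finset.mul_sum, Finset.mul_sum, ← Finset.sum_add_distrib]
  refine Finset.sum_congr rfl fun x _ => ?_
  have h1 : ∀ a ∈ range p, (∑ y ∈ range (p * n),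
      if (p * x + a) + y + (e + 1) ≤ p * n then
        (K e (p * x + a) y : ℤ_[p]) ^ r *
          φ ((p * x + a : ℕ) : ℤ) y (-((e : ℤ) + 1) - (p * x + a : ℕ) - y) else 0) =
      ∑ y ∈ range n, ∑ b ∈ range p, if (p * x + a) + (p * y + b) + (e + 1) ≤ p * n then
        (K e (p * x + a) (p * y + b) : ℤ_[p]) ^ r *
          φ ((p * x + a : ℕ) : ℤ) ((p * y + b : ℕ) : ℤ)
            (-((e : ℤ) + 1) - (p * x + a : ℕ) - (p * y + b : ℕ)) else 0 := by
    intro a _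
    rw [sum_range_mul]
  rw [Finset.sum_congr rfl h1, Finset.sum_comm, Finset.mul_sum, Finset.mul_sum,
    ← Finset.sum_add_distrib]
  refine Finset.sum_congr rfl fun y _ => ?_
  have t0 := term_eq p r e 0 n x y he (by norm_num) φ
  have t1 := term_eq p r e 1 n x y he (by norm_num) φ
  rw [t0, t1, ← Finset.sum_add_distrib]
  refine Finset.sum_congr rfl fun a ha => ?_
  rw [← Finset.sum_add_distrib]
  refine Finset.sum_congr rfl fun b hb => ?_
  rw [Finset.mem_range] at ha hb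
  have hiff : ∀ u : ℕ, p * (u + x + y) = p * u + p * x + p * y := by intro u; ring
  by_cases hcase : a + b + (e + 1) ≤ p
  · rw [sum_ite_eq_aux p _ (p * (0 + 1)) _ _ (by omega) (by omega),
      sum_ite_eq_zero_aux p _ (p * (1 + 1)) _ _ (Or.inr (by omega)), add_zero]
    have : ((p * x + a) + (p * y + b) + (e + 1) ≤ p * n) ↔ (x + y + (0 + 1) ≤ n) := by
      constructor
      · intro h
        by_contra hn
        push Not at hn
        have h2 : n ≤ x + y := by omega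
        have h3 : p * n ≤ p * (x + y) := Nat.mul_le_mul_left _ h2
        rw [Nat.mul_add] at h3
        omega
      · intro h
        have h3 : p * (x + y + 1) ≤ p * n := Nat.mul_le_mul_left _ (by omega)
        have h4 : p * (x + y + 1) = p * x + p * y + p := by ring
        omega
    simp only [this]
  · rw [sum_ite_eq_aux p _ (p * (1 + 1)) _ _ (by omega) (by omega),
      sum_ite_eq_zero_aux p _ (p * (0 + 1)) _ _ (Or.inl (by omega)), zero_add]
    have : ((p * x + a) + (p * y + b) + (e + 1) ≤ p * n) ↔ (x + y + (1 + 1) ≤ n) := by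
      constructor
      · intro h
        by_contra hn
        push Not at hn
        have h2 : n ≤ x + y + 1 := by omega
        have h3 : p * n ≤ p * (x + y + 1) := Nat.mul_le_mul_left _ h2
        have h4 : p * (x + y + 1) = p * x + p * y + p := by ring
        omega
      · intro h
        have h3 : p * (x + y + 2) ≤ p * n := Nat.mul_le_mul_left _ (by omega)
        have h4 : p * (x + y + 2) = p * x + p * y + 2 * p := by ring
        omega
    simp only [this]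

theorem L_congr (r e n : ℕ) (φ ψ : ℤ → ℤ → ℤ → ℤ_[p]) (q : ℤ_[p])
    (h : ∀ x y z : ℤ, x + y + z = -((e : ℤ) + 1) → φ x y z = q * ψ x y z) :
    L p r e n φ = q * L p r e n ψ := by
  unfold L
  rw [Finset.mul_sum]
  refine Finset.sum_congr rfl fun x _ => ?_
  rw [Finset.mul_sum]
  refine Finset.sum_congr rfl fun y _ => ?_
  split_ifs
  · rw [h _ _ _ (by ring)]; ring
  · simp

/-- the reduction `n ↦ n / p` -/
theorem L_reduce (r e n : ℕ) (he : e ≤ 1) (φ : ℤ → ℤ → ℤ → ℤ_[p]) (hφ : Good p e φ) :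
    L p r e (p * n) φ = (p : ℤ_[p]) *
      (((-1) ^ (e + 0) * (p : ℤ_[p]) ^ 0) ^ r * L p r 0 n (next p r e 0 φ) +
      ((-1) ^ (e + 1) * (p : ℤ_[p]) ^ 1) ^ r * L p r 1 n (next p r e 1 φ)) := by
  rw [L_step p r e n he φ,
    L_congr p r 0 n (step p r e 0 φ) (next p r e 0 φ) p
      (fun x y z h => next_spec p r e 0 he (by norm_num) φ hφ x y z h),
    L_congr p r 1 n (step p r e 1 φ) (next p r e 1 φ) p
      (fun x y z h => next_spec p r e 1 he (by norm_num) φ hφ x y z h)]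
  ring

/-- `p^v ∣ n` implies `p^v ∣ L` -/
theorem pow_dvd_L (r : ℕ) (v : ℕ) : ∀ (n e : ℕ), e ≤ 1 → p ^ v ∣ n →
    ∀ φ : ℤ → ℤ → ℤ → ℤ_[p], Good p e φ → (p : ℤ_[p]) ^ v ∣ L p r e n φ := by
  induction v with
  | zero => intro n e _ _ φ _; simp
  | succ v ih =>
    intro n e he hn φ hφ
    obtain ⟨m, rfl⟩ := hn
    have h1 : p ^ (v + 1) * m = p * (p ^ v * m) := by ring
    rw [h1, L_reduce p r e _ he φ hφ, pow_succ, mul_comm ((p : ℤ_[p]) ^ v)]
    apply mul_dvd_mul_left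
    apply dvd_add
    · exact Dvd.dvd.mul_left (ih _ 0 (by norm_num) (dvd_mul_right _ _) _
        (next_good p r e 0 he (by norm_num) φ hφ)) _
    · exact Dvd.dvd.mul_left (ih _ 1 (by norm_num) (dvd_mul_right _ _) _
        (next_good p r e 1 he (by norm_num) φ hφ)) _

end padic3

/-! ## The prime `2` -/

/-- symmetry in the first two variables, on the plane -/
def Sym (p : ℕ) [Fact p.Prime] (e : ℕ) (φ : ℤ → ℤ → ℤ → ℤ_[p]) : Prop :=
  ∀ x y z : ℤ, x + y + z = -((e : ℤ) + 1) → φ x y z = φ y x z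

theorem step_sym (p : ℕ) [hp : Fact p.Prime] (r e e' : ℕ) (φ : ℤ → ℤ → ℤ → ℤ_[p])
    (hφ : Sym p e φ) (x y z : ℤ) (h : x + y + z = -((e' : ℤ) + 1)) :
    step p r e e' φ x y z = step p r e e' φ y x z := by
  unfold step
  rw [← D_swap p (e + 1) (p * (e' + 1)) (fun a b c => F p r φ (p * y + a) (p * x + b) (p * z + c))]
  apply D_congr
  intro a b c _ _ _ habc
  unfold F
  rw [w_swap, hφ _ _ _ (plane_eq p e e' a b c x y z h habc)]

theorem next_sym (p : ℕ) [hp : Fact p.Prime] (r e e' : ℕ) (he : e ≤ 1) (he' : e' ≤ 1)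
    (φ : ℤ → ℤ → ℤ → ℤ_[p]) (hg : Good p e φ)
    (hφ : Sym p e φ) : Sym p e' (next p r e e' φ) := by
  intro x y z h
  have h1 := step_sym p r e e' φ hφ x y z h
  rw [next_spec p r e e' he he' φ hg x y z h,
    next_spec p r e e' he he' φ hg y x z (by linarith)] at h1
  have hpne : (p : ℤ_[p]) ≠ 0 := by exact_mod_cast hp.out.ne_zero
  exact mul_left_cancel₀ hpne h1

theorem sum_symm {R : Type*} [CommRing R] (f : ℕ → ℕ → R) (hf : ∀ x y, f x y = f y x) (n : ℕ) :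
    ∃ c, ∑ x ∈ range n, ∑ y ∈ range n, f x y = ∑ x ∈ range n, f x x + 2 * c := by
  induction n with
  | zero => exact ⟨0, by simp⟩
  | succ n ih =>
    obtain ⟨c, hc⟩ := ih
    refine ⟨c + ∑ x ∈ range n, f x n, ?_⟩
    have h1 : ∑ x ∈ range (n + 1), ∑ y ∈ range (n + 1), f x y =
        ∑ x ∈ range n, ∑ y ∈ range n, f x y + ∑ x ∈ range n, f x n + ∑ y ∈ range n, f n y +
          f n n := by
      rw [Finset.sum_range_succ]
      simp only [Finset.sum_range_succ (n := n), Finset.sum_add_distrib]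
      ring
    have h2 : ∑ y ∈ range n, f n y = ∑ x ∈ range n, f x n :=
      Finset.sum_congr rfl fun x _ => hf n x
    rw [h1, hc, h2, Finset.sum_range_succ]
    ring

theorem K_symm (e x y : ℕ) : K e x y = K e y x := by
  unfold K
  have h1 : (x + y).choose x = (y + x).choose y := by
    rw [Nat.choose_symm_add, add_comm]
  rw [h1, add_comm x y]

theorem K_diag_even (e x : ℕ) (hx : 1 ≤ x) : (2 : ℤ) ∣ K e x x := by
  unfold K
  have h : 2 ∣ (x + x).choose x := by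
    have := Nat.two_dvd_centralBinom_of_one_le hx
    rwa [Nat.centralBinom_eq_two_mul_choose, two_mul] at this
  have h' : (2 : ℤ) ∣ ((x + x).choose x : ℤ) := by exact_mod_cast h
  exact Dvd.dvd.mul_right (Dvd.dvd.mul_left h' _) _

theorem two_dvd_L (r e n : ℕ) (hr : 1 ≤ r) (φ : ℤ → ℤ → ℤ → ℤ_[2]) (hφ : Good 2 e φ)
    (hs : Sym 2 e φ) : (2 : ℤ_[2]) ∣ L 2 r e n φ := by
  unfold L
  obtain ⟨c, hc⟩ := sum_symm (fun x y : ℕ => if x + y + (e + 1) ≤ n then
    (K e x y : ℤ_[2]) ^ r * φ x y (-((e : ℤ) + 1) - x - y) else 0) (by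
      intro x y
      have h1 : y + x + (e + 1) = x + y + (e + 1) := by ring
      have h2 : (-((e : ℤ) + 1) - y - x) = (-((e : ℤ) + 1) - x - y) := by ring
      simp only [h1, h2, K_symm e x y]
      rw [hs x y _ (by ring)]) n
  rw [hc]
  apply dvd_add _ (dvd_mul_right _ _)
  apply Finset.dvd_sum
  intro x _
  split_ifs
  · rcases Nat.eq_zero_or_pos x with h0 | h0
    · subst h0
      have h3 := hφ.cyc 0 0 (-((e : ℤ) + 1)) (by ring)
      have h4 := hs (-((e : ℤ) + 1)) 0 0 (by ring)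
      apply Dvd.dvd.mul_left
      refine ⟨-φ 0 (-((e : ℤ) + 1)) 0, ?_⟩
      have h5 : (-((e : ℤ) + 1) - ((0 : ℕ) : ℤ) - ((0 : ℕ) : ℤ)) = -((e : ℤ) + 1) := by simp
      rw [h5]
      rw [h4] at h3
      have h6 : ((0 : ℕ) : ℤ) = 0 := rfl
      rw [h6]
      linear_combination h3
    · apply Dvd.dvd.mul_right
      obtain ⟨k, hk⟩ := K_diag_even e x h0
      rw [hk]
      obtain ⟨r', rfl⟩ : ∃ r', r = r' + 1 := ⟨r - 1, by omega⟩
      push_cast
      rw [mul_pow, pow_succ]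
      exact ⟨2 ^ r' * (k : ℤ_[2]) ^ (r' + 1), by ring⟩
  · exact dvd_zero _

theorem pow_succ_dvd_L_two (r : ℕ) (hr : 1 ≤ r) (v : ℕ) : ∀ (n e : ℕ), e ≤ 1 → 2 ^ v ∣ n →
    ∀ φ : ℤ → ℤ → ℤ → ℤ_[2], Good 2 e φ → Sym 2 e φ → (2 : ℤ_[2]) ^ (v + 1) ∣ L 2 r e n φ := by
  induction v with
  | zero => intro n e _ _ φ hφ hs; rw [zero_add, pow_one]; exact two_dvd_L r e n hr φ hφ hs
  | succ v ih =>
    intro n e he hn φ hφ hs
    obtain ⟨m, rfl⟩ := hn
    have h1 : 2 ^ (v + 1) * m = 2 * (2 ^ v * m) := by ring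
    have h2 : ((2 : ℕ) : ℤ_[2]) = 2 := by norm_num
    rw [h1, L_reduce 2 r e _ he φ hφ, pow_succ, mul_comm ((2 : ℤ_[2]) ^ (v + 1)), h2]
    apply mul_dvd_mul_left
    apply dvd_add
    · exact Dvd.dvd.mul_left (ih _ 0 (by norm_num) (dvd_mul_right _ _) _
        (next_good 2 r e 0 he (by norm_num) φ hφ)
        (next_sym 2 r e 0 he (by norm_num) φ hφ hs)) _
    · exact Dvd.dvd.mul_left (ih _ 1 (by norm_num) (dvd_mul_right _ _) _
        (next_good 2 r e 1 he (by norm_num) φ hφ)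
        (next_sym 2 r e 1 he (by norm_num) φ hφ hs)) _

/-! ## The weight `3k + 2` -/

/-- the initial test function: the weight `3k + 2` with `z = -1 - k` -/
noncomputable def phi0 (p : ℕ) [Fact p.Prime] (_x _y z : ℤ) : ℤ_[p] := ((-(3 * z + 1) : ℤ) : ℤ_[p])

theorem phi0_good (p : ℕ) [hp : Fact p.Prime] : Good p 0 (phi0 p) := by
  constructor
  · intro j x y z x1 y1 z1 _ _ _ _ hz
    obtain ⟨c, hc⟩ := hz
    refine ⟨((-3 * c : ℤ) : ℤ_[p]), ?_⟩
    unfold phi0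
    have : (-(3 * z + 1)) - (-(3 * z1 + 1)) = (p : ℤ) ^ j * (-3 * c) := by linear_combination -3 * hc
    have h2 := congrArg (Int.cast : ℤ → ℤ_[p]) this
    push_cast at h2 ⊢
    exact h2
  · intro x y z h
    unfold phi0
    have : (-(3 * z + 1)) + (-(3 * x + 1)) + (-(3 * y + 1)) = (0 : ℤ) := by
      push_cast at h; linarith
    have h2 := congrArg (Int.cast : ℤ → ℤ_[p]) this
    push_cast at h2 ⊢
    exact h2

theorem phi0_sym (p : ℕ) [hp : Fact p.Prime] : Sym p 0 (phi0 p) := by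
  intro x y z _; rfl

/-- the integer sum `∑_{k<n} (-1)^{rk} (3k+2) ∑_i C(k,i)^r` -/
def S (r n : ℕ) : ℤ :=
  ∑ k ∈ range n, (-1) ^ (r * k) * (3 * (k : ℤ) + 2) * ∑ i ∈ range (k + 1), (k.choose i : ℤ) ^ r

theorem L_eq_S (p : ℕ) [hp : Fact p.Prime] (r n : ℕ) : L p r 0 n (phi0 p) = (S r n : ℤ_[p]) := by
  have h1 : S r n = ∑ x ∈ range n, ∑ y ∈ range n, if x + y + (0 + 1) ≤ n then
      (K 0 x y) ^ r * (-(3 * (-((0 : ℤ) + 1) - x - y) + 1)) else 0 := by
    unfold S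
    have h2 : ∀ k ∈ range n, (-1) ^ (r * k) * (3 * (k : ℤ) + 2) *
        ∑ i ∈ range (k + 1), (k.choose i : ℤ) ^ r = ∑ i ∈ range (k + 1),
          (fun x y : ℕ => (K 0 x y) ^ r * (-(3 * (-((0 : ℤ) + 1) - x - y) + 1))) i (k - i) := by
      intro k _
      rw [Finset.mul_sum]
      refine Finset.sum_congr rfl fun i hi => ?_
      rw [Finset.mem_range] at hi
      obtain ⟨j, rfl⟩ : ∃ j, k = i + j := ⟨k - i, by omega⟩
      beta_reduce
      rw [Nat.add_sub_cancel_left]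
      unfold K
      rw [pow_zero, mul_one, mul_pow, ← pow_mul, mul_comm (i + j) r]
      push_cast; ring
    rw [Finset.sum_congr rfl h2, Finset.sum_range_diag_flip n
      (fun x y : ℕ => (K 0 x y) ^ r * (-(3 * (-((0 : ℤ) + 1) - x - y) + 1)))]
    refine Finset.sum_congr rfl fun x hx => ?_
    rw [Finset.mem_range] at hx
    rw [← Finset.sum_filter]
    apply Finset.sum_congr _ (fun _ _ => rfl)
    ext y
    simp only [Finset.mem_range, Finset.mem_filter]
    omega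
  rw [h1]
  unfold L phi0
  push_cast
  rfl

theorem pow_dvd_S (p : ℕ) [hp : Fact p.Prime] (r n v : ℕ) (h : p ^ v ∣ n) :
    ((p : ℤ) ^ v) ∣ S r n := by
  have h1 := pow_dvd_L p r v n 0 (by norm_num) h (phi0 p) (phi0_good p)
  rw [L_eq_S, PadicInt.pow_p_dvd_int_iff] at h1
  exact_mod_cast h1

theorem two_pow_dvd_S (r n v : ℕ) (hr : 1 ≤ r) (h : 2 ^ v ∣ n) : ((2 : ℤ) ^ (v + 1)) ∣ S r n := by
  have h1 := pow_succ_dvd_L_two r hr v n 0 (by norm_num) h (phi0 2) (phi0_good 2) (phi0_sym 2)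
  have h2 : (2 : ℤ_[2]) = ((2 : ℕ) : ℤ_[2]) := by norm_num
  rw [L_eq_S, h2, PadicInt.pow_p_dvd_int_iff] at h1
  exact_mod_cast h1

theorem int_dvd_of_prime_pow (N : ℕ) (S : ℤ)
    (h : ∀ p v : ℕ, p.Prime → p ^ v ∣ N → ((p : ℤ) ^ v) ∣ S) : (N : ℤ) ∣ S := by
  rw [Int.natCast_dvd, Nat.dvd_iff_prime_pow_dvd_dvd]
  intro p v hp hv
  have := h p v hp hv
  rw [← Int.natCast_dvd]
  exact_mod_cast this

/-- `2n ∣ S_r(n)` for `r ≥ 1` -/
theorem two_mul_dvd_S (r n : ℕ) (hr : 1 ≤ r) : (2 * (n : ℤ)) ∣ S r n := by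
  have h : (((2 * n : ℕ)) : ℤ) ∣ S r n := by
    apply int_dvd_of_prime_pow
    intro p v hp hv
    have : Fact p.Prime := ⟨hp⟩
    by_cases h2 : p = 2
    · subst h2
      rcases v with _ | v
      · simp
      · rw [pow_succ, mul_comm] at hv
        exact two_pow_dvd_S r n v hr (Nat.dvd_of_mul_dvd_mul_left (by norm_num) hv)
    · have hcop : Nat.Coprime (p ^ v) 2 := by
        apply Nat.Coprime.pow_left
        rw [Nat.coprime_primes hp Nat.prime_two]; exact h2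
      exact pow_dvd_S p r n v (hcop.dvd_of_dvd_mul_left hv)
  push_cast at h
  exact h

/-! ## Odd exponents: divisibility by `4n` -/

/-- `(2t+1)^{-r}` in the `2`-adic integers -/
noncomputable def V (r : ℕ) (t : ℤ) : ℤ_[2] := (((un 2 (2 * t + 1))⁻¹ ^ r : ℤ_[2]ˣ) : ℤ_[2])

theorem V_mul (r : ℕ) (t : ℤ) : V r t * ((2 * t + 1 : ℤ) : ℤ_[2]) ^ r = 1 := by
  have hnd : ¬ ((2 : ℕ) : ℤ) ∣ 2 * t + 1 := by
    intro h
    obtain ⟨c, hc⟩ := h
    push_cast at hc
    omega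
  rw [← un_of_not_dvd 2 _ hnd]
  unfold V
  rw [Units.val_pow_eq_pow_val, ← mul_pow, Units.inv_mul, one_pow]

theorem V_four (r : ℕ) (hr : r % 2 = 1) (t : ℤ) :
    ∃ m : ℤ_[2], V r t = 2 * (t : ℤ_[2]) + 1 + 4 * m := by
  obtain ⟨k, hk⟩ : ∃ k, r = 2 * k + 1 := ⟨r / 2, by omega⟩
  have h1 : (4 : ℤ) ∣ (2 * t + 1) ^ (r + 1) - 1 := by
    have h2 : (2 * t + 1) ^ (r + 1) = ((2 * t + 1) ^ 2) ^ (k + 1) := by
      rw [← pow_mul]; congr 1; omega
    have h3 : (2 * t + 1) ^ 2 - 1 ∣ ((2 * t + 1) ^ 2) ^ (k + 1) - 1 := sub_one_dvd_pow_sub_one _ _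
    rw [h2]
    refine dvd_trans ?_ h3
    exact ⟨t ^ 2 + t, by ring⟩
  obtain ⟨c, hc⟩ := h1
  have h4 : (2 * t + 1 : ℤ) ^ (r + 1) = 1 + 4 * c := by linarith
  have h5 := congrArg (Int.cast : ℤ → ℤ_[2]) h4
  have h6 := V_mul r t
  refine ⟨-(c : ℤ_[2]) * V r t, ?_⟩
  have h7 : V r t * ((2 * t + 1 : ℤ) : ℤ_[2]) ^ (r + 1) = ((2 * t + 1 : ℤ) : ℤ_[2]) := by
    rw [pow_succ, ← mul_assoc, h6, one_mul]
  push_cast at h5 h7
  rw [h5] at h7
  linear_combination h7

theorem V_lip (r : ℕ) (hr : r % 2 = 1) (t a : ℤ) (j : ℕ) :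
    ∃ m : ℤ_[2], V r (t + 2 ^ j * a) = V r t + 2 ^ (j + 1) * (a : ℤ_[2]) + 2 ^ (j + 2) * m := by
  set U : ℤ := 2 * t + 1 with hU
  set U1 : ℤ := 2 * (t + 2 ^ j * a) + 1 with hU1
  have hgeom : U1 ^ r - U ^ r = (2 ^ (j + 1) * a) * ∑ i ∈ range r, U1 ^ i * U ^ (r - 1 - i) := by
    have := Commute.geom_sum₂_mul (Commute.all U1 U) r
    rw [← this, hU1, hU]; ring
  obtain ⟨σ', hσ'⟩ : ∃ σ' : ℤ, ∑ i ∈ range r, U1 ^ i * U ^ (r - 1 - i) = 1 + 2 * σ' := by
    have h1 : (2 : ℤ) ∣ (∑ i ∈ range r, U1 ^ i * U ^ (r - 1 - i)) - r := by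
      have h2 : (∑ i ∈ range r, U1 ^ i * U ^ (r - 1 - i)) - r =
          ∑ i ∈ range r, (U1 ^ i * U ^ (r - 1 - i) - 1) := by
        rw [Finset.sum_sub_distrib]; simp
      rw [h2]
      apply Finset.dvd_sum
      intro i _
      have h3 : Odd U := ⟨t, by rw [hU]⟩
      have h4 : Odd U1 := ⟨t + 2 ^ j * a, by rw [hU1]⟩
      obtain ⟨k, hk⟩ := (h4.pow (n := i)).mul (h3.pow (n := r - 1 - i))
      exact ⟨k, by rw [hk]; ring⟩
    obtain ⟨c, hc⟩ := h1
    refine ⟨c + (r / 2 : ℕ), ?_⟩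
    have : (r : ℤ) = 2 * (r / 2 : ℕ) + 1 := by omega
    linarith
  rw [hσ'] at hgeom
  obtain ⟨m, hm⟩ := V_four r hr t
  obtain ⟨m1, hm1⟩ := V_four r hr (t + 2 ^ j * a)
  have e0 := V_mul r t
  have e1 := V_mul r (t + 2 ^ j * a)
  have e2 := congrArg (Int.cast : ℤ → ℤ_[2]) hgeom
  push_cast at e2
  have e0' : V r t * (U : ℤ_[2]) ^ r = 1 := e0
  have e1' : V r (t + 2 ^ j * a) * (U1 : ℤ_[2]) ^ r = 1 := e1
  set v := V r t
  set v1 := V r (t + 2 ^ j * a)
  -- `v v1 (1 + 2σ') = 1 + 2 μ`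
  have hv : ∃ μ : ℤ_[2], v * v1 * (1 + 2 * (σ' : ℤ_[2])) = 1 + 2 * μ := by
    refine ⟨((t : ℤ_[2]) + 2 * m) * v1 * (1 + 2 * σ') + ((t + 2 ^ j * a : ℤ) + 2 * m1) *
      (1 + 2 * σ') + σ', ?_⟩
    rw [hm, hm1]; push_cast; ring
  obtain ⟨μ, hμ⟩ := hv
  refine ⟨-(a : ℤ_[2]) * (1 + μ), ?_⟩
  have h1 : v1 - v = -(v * v1 * ((U1 : ℤ_[2]) ^ r - (U : ℤ_[2]) ^ r)) := by
    linear_combination (-v1) * e0' + v * e1'
  have h2 : v1 - v = -(2 ^ (j + 1) * (a : ℤ_[2])) * (1 + 2 * μ) := by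
    rw [h1, e2]
    linear_combination (-(2 ^ (j + 1) * (a : ℤ_[2]))) * hμ
  linear_combination h2

/-- the auxiliary function `g` -/
noncomputable def gg (r : ℕ) (x y z : ℤ) : ℤ_[2] :=
  (6 * (z : ℤ_[2]) + 1) * (V r x + V r y) + (6 * (z : ℤ_[2]) + 4) * V r z

theorem gg_four (r : ℕ) (hr : r % 2 = 1) (x y z : ℤ) (h : x + y + z = -1) :
    (4 : ℤ_[2]) ∣ gg r x y z := by
  obtain ⟨a, ha⟩ := V_four r hr x
  obtain ⟨b, hb⟩ := V_four r hr y
  obtain ⟨c, hc⟩ := V_four r hr z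
  have h1 : (x : ℤ_[2]) = -1 - y - z := by
    have : x = -1 - y - z := by linarith
    rw [this]; push_cast; ring
  refine ⟨(6 * (z : ℤ_[2]) + 1) * (a + b) + (6 * z + 4) * c + 3 * z + 1, ?_⟩
  unfold gg
  rw [ha, hb, hc, h1]; ring

theorem gg_lip (r : ℕ) (hr : r % 2 = 1) (j : ℕ) (x y z a b c : ℤ) (habc : a + b + c = 0) :
    (2 : ℤ_[2]) ^ (j + 2) ∣ gg r (x + 2 ^ j * a) (y + 2 ^ j * b) (z + 2 ^ j * c) - gg r x y z := by
  obtain ⟨A, hA⟩ := V_lip r hr x a j
  obtain ⟨B, hB⟩ := V_lip r hr y b j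
  obtain ⟨C, hC⟩ := V_lip r hr z c j
  obtain ⟨mx, hx⟩ := V_four r hr x
  obtain ⟨my, hy⟩ := V_four r hr y
  obtain ⟨mz, hz⟩ := V_four r hr z
  have h1 : (a : ℤ_[2]) = -b - c := by
    have : a = -b - c := by linarith
    rw [this]; push_cast; ring
  refine ⟨3 * c * (x + y + z + 1 + 2 * (mx + my + mz) + 2 ^ j * (a + b + c) +
    2 ^ (j + 1) * (A + B + C)) + 3 * z * (a + b) + (6 * z + 1) * (A + B) +
    (3 * z + 2) * (c + 2 * C) + c, ?_⟩
  unfold gg
  rw [hA, hB, hC, hx, hy, hz]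
  push_cast
  rw [h1]
  ring

/-- `W(x,y,z)^{-r}` with `W = hu(2x) hu(2y) hu(2z)` -/
noncomputable def WW (r : ℕ) (x y z : ℤ) : ℤ_[2] :=
  (((w 2 (2 * x) (2 * y) (2 * z))⁻¹ ^ r : ℤ_[2]ˣ) : ℤ_[2])

theorem step_eq (r : ℕ) (x y z : ℤ) :
    step 2 r 0 0 (phi0 2) x y z = -(WW r x y z * gg r x y z) := by
  have hD : ∀ G : ℕ → ℕ → ℕ → ℤ_[2], D 2 (0 + 1) (2 * (0 + 1)) G = G 0 0 1 + G 0 1 0 + G 1 0 0 := by
    intro G
    unfold D
    simp only [Finset.sum_range_succ, Finset.sum_range_zero]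
    norm_num
  unfold step
  rw [hD]
  unfold F phi0 gg V WW w
  have e1 := hu_succ 2 (2 * x)
  have e2 := hu_succ 2 (2 * y)
  have e3 := hu_succ 2 (2 * z)
  push_cast
  simp only [add_zero]
  rw [e1, e2, e3]
  simp only [mul_inv, mul_pow, Units.val_mul]
  ring

theorem step_lip_strong (r : ℕ) (hr : r % 2 = 1) (j : ℕ) (x y z x1 y1 z1 : ℤ)
    (h : x + y + z = -(((0 : ℕ) : ℤ) + 1)) (h1 : x1 + y1 + z1 = -(((0 : ℕ) : ℤ) + 1))
    (hx : ((2 : ℕ) : ℤ) ^ j ∣ x - x1) (hy : ((2 : ℕ) : ℤ) ^ j ∣ y - y1)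
    (hz : ((2 : ℕ) : ℤ) ^ j ∣ z - z1) :
    (2 : ℤ_[2]) ^ (j + 2) ∣ step 2 r 0 0 (phi0 2) x y z - step 2 r 0 0 (phi0 2) x1 y1 z1 := by
  have hw := red_w 2 j (2 * x) (2 * y) (2 * z) (2 * x1) (2 * y1) (2 * z1) (by linarith)
    (by rw [← mul_sub]; exact Dvd.dvd.mul_left hx _) (by rw [← mul_sub]; exact Dvd.dvd.mul_left hy _)
    (by rw [← mul_sub]; exact Dvd.dvd.mul_left hz _)
  have e2 : red 2 j ((w 2 (2 * x) (2 * y) (2 * z))⁻¹ ^ r) =
      red 2 j ((w 2 (2 * x1) (2 * y1) (2 * z1))⁻¹ ^ r) := by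
    rw [map_pow, map_pow, map_inv, map_inv, hw]
  have e3 := congrArg (Units.val : (ZMod (2 ^ j))ˣ → ZMod (2 ^ j)) e2
  have e4 : ((2 : ℕ) : ℤ_[2]) ^ j ∣ WW r x y z - WW r x1 y1 z1 := by
    rw [← modeq_iff]; exact e3
  obtain ⟨a, ha⟩ := hx
  obtain ⟨b, hb⟩ := hy
  obtain ⟨c, hc⟩ := hz
  have hpm : ((2 : ℕ) : ℤ) ^ j ≠ 0 := pow_ne_zero _ (by norm_num)
  have habc : a + b + c = 0 := by
    have : ((2 : ℕ) : ℤ) ^ j * (a + b + c) = 0 := by linarith
    exact (mul_eq_zero.1 this).resolve_left hpm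
  have ex : x = x1 + 2 ^ j * a := by push_cast at ha; linarith
  have ey : y = y1 + 2 ^ j * b := by push_cast at hb; linarith
  have ez : z = z1 + 2 ^ j * c := by push_cast at hc; linarith
  have hg := gg_lip r hr j x1 y1 z1 a b c habc
  rw [← ex, ← ey, ← ez] at hg
  have hg4 := gg_four r hr x1 y1 z1 (by simpa using h1)
  rw [step_eq, step_eq]
  obtain ⟨u, hu'⟩ := e4
  obtain ⟨v, hv⟩ := hg
  obtain ⟨t, ht⟩ := hg4
  refine ⟨-(WW r x y z * v + u * t), ?_⟩
  push_cast at hu'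
  have e5 : gg r x y z = gg r x1 y1 z1 + 2 ^ (j + 2) * v := by linear_combination hv
  have e6 : WW r x y z = WW r x1 y1 z1 + 2 ^ j * u := by linear_combination hu'
  rw [e5, ht, e6]
  ring

theorem step_four (r : ℕ) (hr : r % 2 = 1) (x y z : ℤ) (h : x + y + z = -(((0 : ℕ) : ℤ) + 1)) :
    (4 : ℤ_[2]) ∣ step 2 r 0 0 (phi0 2) x y z := by
  rw [step_eq]
  exact (dvd_neg).2 (Dvd.dvd.mul_left (gg_four r hr x y z (by simpa using h)) _)

open Classical in
/-- `step / 4` for the initial function and odd exponent -/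
noncomputable def psi (r : ℕ) (x y z : ℤ) : ℤ_[2] :=
  if h : (4 : ℤ_[2]) ∣ step 2 r 0 0 (phi0 2) x y z then h.choose else 0

theorem psi_spec (r : ℕ) (hr : r % 2 = 1) (x y z : ℤ) (h : x + y + z = -(((0 : ℕ) : ℤ) + 1)) :
    step 2 r 0 0 (phi0 2) x y z = 4 * psi r x y z := by
  have h1 := step_four r hr x y z h
  unfold psi
  rw [dif_pos h1]
  exact h1.choose_spec

theorem psi_good (r : ℕ) (hr : r % 2 = 1) : Good 2 0 (psi r) := by
  have h4 : (4 : ℤ_[2]) ≠ 0 := by norm_num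
  constructor
  · intro j x y z x1 y1 z1 h h1 hx hy hz
    have h2 := step_lip_strong r hr j x y z x1 y1 z1 h h1 hx hy hz
    rw [psi_spec r hr x y z h, psi_spec r hr x1 y1 z1 h1, ← mul_sub] at h2
    have h3 : (2 : ℤ_[2]) ^ (j + 2) = 4 * 2 ^ j := by ring
    rw [h3] at h2
    have := (mul_dvd_mul_iff_left h4).1 h2
    push_cast
    exact this
  · intro x y z h
    have h2 := step_cyc 2 r 0 0 (phi0 2) (phi0_good 2) x y z h
    rw [psi_spec r hr x y z h, psi_spec r hr y z x (by linarith),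
      psi_spec r hr z x y (by linarith), ← mul_add, ← mul_add] at h2
    exact (mul_eq_zero.1 h2).resolve_left h4

theorem psi_sym (r : ℕ) (hr : r % 2 = 1) : Sym 2 0 (psi r) := by
  intro x y z h
  have h1 := step_sym 2 r 0 0 (phi0 2) (phi0_sym 2) x y z h
  rw [psi_spec r hr x y z h, psi_spec r hr y x z (by linarith)] at h1
  exact mul_left_cancel₀ (by norm_num) h1

theorem even_case (r n v : ℕ) (hr : r % 2 = 1) (h : 2 ^ v ∣ n) :
    (2 : ℤ) ^ (v + 3) ∣ S r (2 * n) := by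
  have hr1 : 1 ≤ r := by omega
  have e1 := L_step 2 r 0 n (by norm_num) (phi0 2)
  rw [L_congr 2 r 0 n (step 2 r 0 0 (phi0 2)) (psi r) 4 (fun x y z h => psi_spec r hr x y z h),
    L_congr 2 r 1 n (step 2 r 0 1 (phi0 2)) (next 2 r 0 1 (phi0 2)) ((2 : ℕ) : ℤ_[2])
      (fun x y z h => next_spec 2 r 0 1 (by norm_num) (by norm_num) (phi0 2) (phi0_good 2) x y z h)]
    at e1
  have d1 := pow_succ_dvd_L_two r hr1 v n 0 (by norm_num) h (psi r) (psi_good r hr) (psi_sym r hr)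
  have d2 := pow_succ_dvd_L_two r hr1 v n 1 (by norm_num) h (next 2 r 0 1 (phi0 2))
    (next_good 2 r 0 1 (by norm_num) (by norm_num) (phi0 2) (phi0_good 2))
    (next_sym 2 r 0 1 (by norm_num) (by norm_num) (phi0 2) (phi0_good 2) (phi0_sym 2))
  obtain ⟨a, ha⟩ := d1
  obtain ⟨b, hb⟩ := d2
  obtain ⟨k, hk⟩ : ∃ k, r = k + 1 := ⟨r - 1, by omega⟩
  have e2 : (2 : ℤ_[2]) ^ (v + 3) ∣ L 2 r 0 (2 * n) (phi0 2) := by
    rw [e1, ha, hb]
    refine ⟨a - (-2) ^ k * b, ?_⟩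
    push_cast
    rw [hk]
    ring
  have h2 : (2 : ℤ_[2]) = ((2 : ℕ) : ℤ_[2]) := by norm_num
  rw [L_eq_S, h2, PadicInt.pow_p_dvd_int_iff] at e2
  exact_mod_cast e2

/-- for odd `n ≥ 3`, `4 ∣ f_n` -/
theorem four_dvd_f (r n : ℕ) (hr : 1 ≤ r) (hn : n % 2 = 1) (hn3 : 3 ≤ n) :
    (4 : ℤ) ∣ ∑ i ∈ range (n + 1), (n.choose i : ℤ) ^ r := by
  obtain ⟨m, hm⟩ : ∃ m, n = 2 * m + 1 := ⟨n / 2, by omega⟩
  have hm1 : 1 ≤ m := by omega
  subst hm
  have e1 : ∑ i ∈ range (2 * m + 1 + 1), ((2 * m + 1).choose i : ℤ) ^ r =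
      2 * ∑ i ∈ range (m + 1), ((2 * m + 1).choose i : ℤ) ^ r := by
    have h1 : 2 * m + 1 + 1 = (m + 1) + (m + 1) := by ring
    rw [h1, Finset.sum_range_add]
    have h2 : ∑ x ∈ range (m + 1), ((2 * m + 1).choose (m + 1 + x) : ℤ) ^ r =
        ∑ i ∈ range (m + 1), ((2 * m + 1).choose i : ℤ) ^ r := by
      rw [← Finset.sum_range_reflect (fun i => ((2 * m + 1).choose (m + 1 + i) : ℤ) ^ r) (m + 1)]
      refine Finset.sum_congr rfl fun i hi => ?_
      rw [Finset.mem_range] at hi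
      have h2 : m + 1 + (m + 1 - 1 - i) = (2 * m + 1) - i := by omega
      rw [h2, Nat.choose_symm (by omega)]
    rw [h2]; ring
  have e2 : (2 : ℤ) ∣ ∑ i ∈ range (m + 1), ((2 * m + 1).choose i : ℤ) ^ r := by
    have h3 : (2 : ℤ) ∣ ∑ i ∈ range (m + 1), ((2 * m + 1).choose i : ℤ) := by
      have h4 : ∑ i ∈ range (m + 1), ((2 * m + 1).choose i : ℤ) = 4 ^ m := by
        exact_mod_cast Nat.sum_range_choose_halfway m
      rw [h4]
      exact dvd_pow (by norm_num) (by omega)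
    have h5 : (2 : ℤ) ∣ ∑ i ∈ range (m + 1), ((2 * m + 1).choose i : ℤ) ^ r -
        ∑ i ∈ range (m + 1), ((2 * m + 1).choose i : ℤ) := by
      rw [← Finset.sum_sub_distrib]
      apply Finset.dvd_sum
      intro i _
      obtain ⟨k, hk⟩ : ∃ k, r = k + 1 := ⟨r - 1, by omega⟩
      rw [hk]
      have h6 : Even (((2 * m + 1).choose i : ℤ) ^ (k + 1) - ((2 * m + 1).choose i : ℤ)) := by
        rw [Int.even_sub, Int.even_pow' (by omega)]
      exact h6.two_dvd
    have := dvd_add h5 h3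
    simpa using this
  rw [e1]
  obtain ⟨c, hc⟩ := e2
  rw [hc]
  exact ⟨c, by ring⟩

theorem four_mul_dvd_S (r n : ℕ) (hr : r % 2 = 1) (hn : 2 ≤ n) : (4 * (n : ℤ)) ∣ S r n := by
  have hr1 : 1 ≤ r := by omega
  have h : (((4 * n : ℕ)) : ℤ) ∣ S r n := by
    apply int_dvd_of_prime_pow
    intro p v hp hv
    have : Fact p.Prime := ⟨hp⟩
    by_cases h2 : p = 2
    · subst h2
      rcases Nat.even_or_odd' n with ⟨m, hm | hm⟩
      · subst hm
        rcases Nat.lt_or_ge v 3 with h3 | h3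
        · have := even_case r m 0 hr (one_dvd _)
          exact dvd_trans (pow_dvd_pow _ (by omega)) this
        · obtain ⟨u, rfl⟩ : ∃ u, v = u + 3 := ⟨v - 3, by omega⟩
          have h4 : 2 ^ u ∣ m := by
            have h5 : 2 ^ (u + 3) = 8 * 2 ^ u := by ring
            have h6 : 4 * (2 * m) = 8 * m := by ring
            rw [h5, h6] at hv
            exact Nat.dvd_of_mul_dvd_mul_left (by norm_num) hv
          exact_mod_cast even_case r m u hr h4
      · have hv2 : v ≤ 2 := by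
          by_contra hlt
          push Not at hlt
          have h5 : 2 ^ 3 ∣ 4 * n := dvd_trans (pow_dvd_pow _ (by omega)) hv
          omega
        have h6 : (4 : ℤ) ∣ S r n := by
          have h7 := even_case r (m + 1) 0 hr (one_dvd _)
          have h8 : 2 * (m + 1) = n + 1 := by omega
          rw [h8] at h7
          have h9 : S r (n + 1) = S r n + (-1) ^ (r * n) * (3 * (n : ℤ) + 2) *
              ∑ i ∈ range (n + 1), (n.choose i : ℤ) ^ r := by
            unfold S; rw [Finset.sum_range_succ]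
          have h10 : (4 : ℤ) ∣ S r (n + 1) := dvd_trans (by norm_num) h7
          have h11 : (4 : ℤ) ∣ (-1) ^ (r * n) * (3 * (n : ℤ) + 2) *
              ∑ i ∈ range (n + 1), (n.choose i : ℤ) ^ r :=
            Dvd.dvd.mul_left (four_dvd_f r n hr1 (by omega) (by omega)) _
          rw [h9] at h10
          exact (dvd_add_left h11).1 h10
        have h12 : (((2 : ℕ) : ℤ) ^ v) ∣ 4 := by
          have : ((2 : ℕ) : ℤ) ^ v ∣ ((2 : ℕ) : ℤ) ^ 2 := pow_dvd_pow _ hv2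
          simpa using this
        exact dvd_trans h12 h6
    · have hcop : Nat.Coprime (p ^ v) 4 := by
        apply Nat.Coprime.pow_left
        have : Nat.Coprime p (2 ^ 2) := by
          apply Nat.Coprime.pow_right
          rw [Nat.coprime_primes hp Nat.prime_two]; exact h2
        simpa using this
      exact pow_dvd_S p r n v (hcop.dvd_of_dvd_mul_left hv)
  push_cast at h
  exact h

end Q277.TriangleSums
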